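import Mathlib

/-!
# Starts of long constant runs in automatic sequences

If the `k`-kernel of `a` is finite, then the last indices before the constant runs of length `≥ k ^ e` of `a` have at most
`M` residues modulo `k ^ e`, where `M` does not depend on `e`.
-/

set_option autoImplicit false

namespace Q264.Gap

theorem dvd_conv {a b c : ℤ} (h : a ∣ b) (e : b = c) : a ∣ c := e ▸ h

/-- the `k`-kernel of a sequence -/
def kernel {α : Type*} (k : ℕ) (a : ℕ → α) : Set (ℕ → α) :=
  {f | ∃ e r : ℕ, r < k ^ e ∧ f = fun n => a (k ^ e * n + r)}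

/-- a block of length `k ^ e` -/
def block {α : Type*} (k : ℕ) (a : ℕ → α) (e n : ℕ) : Fin (k ^ e) → α := fun r => a (k ^ e * n + r)

theorem range_finite {α : Type*} {k : ℕ} (hk : 2 ≤ k) {a : ℕ → α} (h : (kernel k a).Finite) : (Set.range a).Finite := by
  refine (h.image fun f => f 0).subset ?_
  rintro _ ⟨n, rfl⟩
  refine ⟨fun m => a (k ^ n * m + n), ⟨n, n, Nat.lt_pow_self (by omega), rfl⟩, ?_⟩
  simp

theorem blocks_bound {α : Type*} {k : ℕ} (hk : 2 ≤ k) {a : ℕ → α} (h : (kernel k a).Finite) :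
    ∃ M : ℕ, ∀ e : ℕ, (Set.range (block k a e)).Finite ∧ (Set.range (block k a e)).ncard ≤ M := by
  classical
  have hr := range_finite hk h
  have : Finite (kernel k a) := h
  have : Finite (Set.range a) := hr
  have : Fintype (kernel k a) := Fintype.ofFinite _
  have : Fintype (Set.range a) := Fintype.ofFinite _
  refine ⟨Nat.card (kernel k a → Set.range a), fun e => ?_⟩
  -- the block at `n` is determined by the values at `n` of the kernel elements
  let v : ℕ → (kernel k a → Set.range a) := fun n f => ⟨f.1 n, by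
    obtain ⟨e', r, _, hf⟩ := f.2
    rw [hf]
    exact ⟨_, rfl⟩⟩
  let F : (kernel k a → Set.range a) → (Fin (k ^ e) → α) := fun g r =>
    (g ⟨fun n => a (k ^ e * n + r), e, r, r.2, rfl⟩).1
  have hsub : Set.range (block k a e) ⊆ Set.range F := by
    rintro _ ⟨n, rfl⟩
    exact ⟨v n, rfl⟩
  have hfin : (Set.range F).Finite := Set.finite_range F
  refine ⟨hfin.subset hsub, (Set.ncard_le_ncard hsub hfin).trans ?_⟩
  rw [← Set.image_univ]
  exact (Set.ncard_image_le Set.finite_univ).trans (by rw [Set.ncard_univ])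

/-- `x` is the last index before a constant run of length at least `L` -/
def Start {α : Type*} (a : ℕ → α) (L x : ℕ) : Prop :=
  a x ≠ a (x + 1) ∧ ∀ y, x < y → y ≤ x + L → a y = a (x + 1)

theorem starts_bound {α : Type*} {k : ℕ} (hk : 2 ≤ k) {a : ℕ → α} (h : (kernel k a).Finite) :
    ∃ M : ℕ, ∀ (e : ℕ) (T : Finset ℕ), (∀ x ∈ T, Start a (k ^ e) x) → (T.image (· % k ^ e)).card ≤ M := by
  classical
  obtain ⟨M, hM⟩ := blocks_bound hk h
  refine ⟨M + 1, fun e T hT => ?_⟩
  obtain ⟨hfin, hcard⟩ := hM e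
  have hke : 0 < k ^ e := by positivity
  -- remove the residue `k ^ e - 1`
  have h1 : (T.image (· % k ^ e)) ⊆ insert (k ^ e - 1) ((T.filter fun x => x % k ^ e ≠ k ^ e - 1).image (· % k ^ e)) := by
    intro t ht
    obtain ⟨x, hx, rfl⟩ := Finset.mem_image.1 ht
    by_cases hx' : x % k ^ e = k ^ e - 1
    · rw [hx']; exact Finset.mem_insert_self _ _
    · exact Finset.mem_insert_of_mem (Finset.mem_image.2 ⟨x, Finset.mem_filter.2 ⟨hx, hx'⟩, rfl⟩)
  refine (Finset.card_le_card h1).trans ((Finset.card_insert_le _ _).trans (Nat.add_le_add_right ?_ 1))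
  refine le_trans ?_ hcard
  rw [Set.ncard_eq_toFinset_card _ hfin]
  -- choose for every residue a representative
  have h2 : ∀ t ∈ (T.filter fun x => x % k ^ e ≠ k ^ e - 1).image (· % k ^ e), ∃ x, x ∈ T ∧ x % k ^ e = t ∧ t + 1 < k ^ e := by
    intro t ht
    obtain ⟨x, hx, rfl⟩ := Finset.mem_image.1 ht
    obtain ⟨hx1, hx2⟩ := Finset.mem_filter.1 hx
    have := Nat.mod_lt x hke
    exact ⟨x, hx1, rfl, by omega⟩
  choose! g hg1 hg2 hg3 using h2
  refine Finset.card_le_card_of_injOn (fun t => block k a e (g t / k ^ e)) ?_ ?_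
  · intro t _
    rw [Finset.mem_coe, Set.Finite.mem_toFinset]
    exact ⟨_, rfl⟩
  · -- the block determines the residue
    have key : ∀ s t, s ∈ (T.filter fun x => x % k ^ e ≠ k ^ e - 1).image (· % k ^ e) →
        t ∈ (T.filter fun x => x % k ^ e ≠ k ^ e - 1).image (· % k ^ e) →
        block k a e (g s / k ^ e) = block k a e (g t / k ^ e) → ¬ s < t := by
      intro s t hs ht hst hlt
      have es : k ^ e * (g s / k ^ e) + s = g s := by
        have := Nat.div_add_mod (g s) (k ^ e); rw [hg2 s hs] at this; exact this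
      have et : k ^ e * (g t / k ^ e) + t = g t := by
        have := Nat.div_add_mod (g t) (k ^ e); rw [hg2 t ht] at this; exact this
      have ht3 := hg3 t ht
      have hs3 := hg3 s hs
      -- in the block of `s` the values at `t` and `t + 1` are equal, in the block of `t` they are not
      have a1 : a (k ^ e * (g s / k ^ e) + t) = a (k ^ e * (g t / k ^ e) + t) := congrFun hst ⟨t, by omega⟩
      have a2 : a (k ^ e * (g s / k ^ e) + (t + 1)) = a (k ^ e * (g t / k ^ e) + (t + 1)) :=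
        congrFun hst ⟨t + 1, by omega⟩
      have b1 := (hT _ (hg1 s hs)).2 (k ^ e * (g s / k ^ e) + t) (by omega) (by omega)
      have b2 := (hT _ (hg1 s hs)).2 (k ^ e * (g s / k ^ e) + (t + 1)) (by omega) (by omega)
      apply (hT _ (hg1 t ht)).1
      rw [← et, add_assoc, ← a1, ← a2, b1, b2]
    intro s hs t ht hst
    rw [Finset.mem_coe] at hs ht
    have c1 := key s t hs ht hst
    have c2 := key t s ht hs hst.symm
    omega

/-- a sequence `A 2 ^ i + y i` with `y` purely periodic modulo every `m` has unboundedly many residues modulo `k ^ e`, in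
every tail -/
theorem residues_unbounded {k : ℕ} (hk : 2 ≤ k) (A : ℤ) (y : ℕ → ℤ)
    (hper : ∀ m : ℕ, 0 < m → ∃ P, 0 < P ∧ ∀ i, (m : ℤ) ∣ y (i + P) - y i) (hy : (Set.range y).Infinite)
    (hz : (Set.range fun i => A * 2 ^ i + y i).Infinite) (M : ℕ) :
    ∃ e : ℕ, ∀ i0 : ℕ, ∃ T : Finset ℕ, (∀ i ∈ T, i0 ≤ i) ∧
      M < (T.image fun i => (A * 2 ^ i + y i) % ((k ^ e : ℕ) : ℤ)).card := by
  classical
  -- a general principle
  have gen : ∀ (m : ℕ) (f : ℕ → ℤ), 2 ≤ m → m ∣ k → (Set.range f).Infinite →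
      (∀ e : ℕ, ∃ P j0 : ℕ, 0 < P ∧ ∀ i j, j0 ≤ j → ((m ^ e : ℕ) : ℤ) ∣ (A * 2 ^ (i + P * j) + y (i + P * j)) - f i) →
      ∃ e : ℕ, ∀ i0 : ℕ, ∃ T : Finset ℕ, (∀ i ∈ T, i0 ≤ i) ∧
        M < (T.image fun i => (A * 2 ^ i + y i) % ((k ^ e : ℕ) : ℤ)).card := by
    intro m f hm hmk hf hP
    obtain ⟨S, hS1, hS2⟩ := hf.exists_subset_card_eq (M + 1)
    -- a bound for the values
    obtain ⟨B, hB⟩ : ∃ B : ℕ, ∀ x ∈ S, |x| < (B : ℤ) := by
      refine ⟨(∑ x ∈ S, x.natAbs) + 1, fun x hx => ?_⟩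
      have := Finset.single_le_sum (f := fun x : ℤ => x.natAbs) (fun i _ => Nat.zero_le _) hx
      rw [Int.abs_eq_natAbs]
      exact_mod_cast Nat.lt_succ_of_le this
    obtain ⟨e, he⟩ : ∃ e : ℕ, 2 * B < m ^ e := ⟨2 * B, Nat.lt_pow_self (by omega)⟩
    refine ⟨e, fun i0 => ?_⟩
    obtain ⟨P, j0, hP0, hP1⟩ := hP e
    have hidx : ∀ x ∈ S, ∃ i, f i = x := fun x hx => hS1 hx
    choose! ix hix using hidx
    refine ⟨S.image fun x => ix x + P * (i0 + j0), ?_, ?_⟩
    · intro i hi
      obtain ⟨x, _, rfl⟩ := Finset.mem_image.1 hi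
      nlinarith [Nat.zero_le (ix x), Nat.zero_le j0, Nat.zero_le i0]
    · rw [Finset.image_image]
      have : S.card = (S.image ((fun i => (A * 2 ^ i + y i) % ((k ^ e : ℕ) : ℤ)) ∘ fun x => ix x + P * (i0 + j0))).card := by
        symm
        apply Finset.card_image_of_injOn
        intro x hx x' hx' hxx
        simp only [Function.comp] at hxx
        have d1 : ((m ^ e : ℕ) : ℤ) ∣ ((k ^ e : ℕ) : ℤ) := by exact_mod_cast pow_dvd_pow_of_dvd hmk e
        have d2 := Int.emod_emod_of_dvd (A * 2 ^ (ix x + P * (i0 + j0)) + y (ix x + P * (i0 + j0))) d1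
        have d3 := Int.emod_emod_of_dvd (A * 2 ^ (ix x' + P * (i0 + j0)) + y (ix x' + P * (i0 + j0))) d1
        have d4 : ((m ^ e : ℕ) : ℤ) ∣ (A * 2 ^ (ix x' + P * (i0 + j0)) + y (ix x' + P * (i0 + j0))) -
            (A * 2 ^ (ix x + P * (i0 + j0)) + y (ix x + P * (i0 + j0))) := by
          apply Int.ModEq.dvd
          unfold Int.ModEq
          rw [← d2, ← d3, hxx]
        have d5 := hP1 (ix x) (i0 + j0) (by omega)
        have d6 := hP1 (ix x') (i0 + j0) (by omega)
        rw [hix x hx] at d5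
        rw [hix x' hx'] at d6
        have d7 : ((m ^ e : ℕ) : ℤ) ∣ x' - x := by
          exact dvd_conv (dvd_add (dvd_sub d4 d6) d5) (by ring)
        have h1 := hB x hx
        have h2 := hB x' hx'
        rw [abs_lt] at h1 h2
        have h3 : (2 * B : ℤ) < ((m ^ e : ℕ) : ℤ) := by exact_mod_cast he
        by_contra hne
        have h4 := Int.le_of_dvd (a := ((m ^ e : ℕ) : ℤ)) (b := |x' - x|) (by
          rw [abs_pos]; intro h; exact hne (by omega)) ((dvd_abs _ _).2 d7)
        rcases abs_cases (x' - x) with ⟨h5, _⟩ | ⟨h5, _⟩ <;> omega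
      rw [← this, hS2]
      omega
  rcases Nat.even_or_odd k with hev | hodd
  · -- `k` even: use the prime 2
    refine gen 2 y le_rfl hev.two_dvd hy fun e => ?_
    obtain ⟨P, hP0, hP1⟩ := hper (2 ^ e) (by positivity)
    refine ⟨P, e, hP0, fun i j hj => ?_⟩
    have h1 : ((2 ^ e : ℕ) : ℤ) ∣ A * 2 ^ (i + P * j) := by
      refine Dvd.dvd.mul_left ?_ A
      push_cast
      exact pow_dvd_pow _ (by nlinarith)
    have h2 : ∀ j, ((2 ^ e : ℕ) : ℤ) ∣ y (i + P * j) - y i := by
      intro j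
      induction j with
      | zero => simp
      | succ j ih =>
        exact dvd_conv (dvd_add (hP1 (i + P * j)) ih) (by rw [show i + P * (j + 1) = i + P * j + P by ring]; ring)
    exact dvd_conv (dvd_add h1 (h2 j)) (by ring)
  · -- `k` odd
    refine gen k (fun i => A * 2 ^ i + y i) hk dvd_rfl hz fun e => ?_
    obtain ⟨P, hP0, hP1⟩ := hper (k ^ e) (by positivity)
    have hcop : Nat.Coprime 2 (k ^ e) := Nat.Coprime.pow_right _ (Nat.coprime_two_left.2 hodd)
    have htot : 0 < Nat.totient (k ^ e) := Nat.totient_pos.2 (by positivity)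
    refine ⟨P * Nat.totient (k ^ e), 0, by positivity, fun i j _ => ?_⟩
    have h2 : ∀ j, ((k ^ e : ℕ) : ℤ) ∣ y (i + P * j) - y i := by
      intro j
      induction j with
      | zero => simp
      | succ j ih =>
        exact dvd_conv (dvd_add (hP1 (i + P * j)) ih) (by rw [show i + P * (j + 1) = i + P * j + P by ring]; ring)
    have h3 : ((k ^ e : ℕ) : ℤ) ∣ (2 : ℤ) ^ (i + P * Nat.totient (k ^ e) * j) - 2 ^ i := by
      have h4 : 2 ^ (P * Nat.totient (k ^ e) * j) ≡ 1 [MOD k ^ e] := by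
        have h5 := Nat.ModEq.pow_totient hcop
        have h6 := h5.pow (P * j)
        rw [one_pow, ← pow_mul] at h6
        convert h6 using 2
        ring
      have h7 : ((k ^ e : ℕ) : ℤ) ∣ ((2 ^ (P * Nat.totient (k ^ e) * j) : ℕ) : ℤ) - ((1 : ℕ) : ℤ) := by
        rw [Nat.modEq_iff_dvd] at h4
        exact dvd_conv ((dvd_neg (a := ((k ^ e : ℕ) : ℤ))).2 h4) (by ring)
      exact dvd_conv (h7.mul_left ((2 : ℤ) ^ i)) (by push_cast; rw [pow_add]; ring)
    exact dvd_conv (dvd_add (h3.mul_left A) (h2 (Nat.totient (k ^ e) * j)))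
      (by rw [show i + P * (Nat.totient (k ^ e) * j) = i + P * Nat.totient (k ^ e) * j by ring]; ring)

/-- **Criterion.** A sequence with long constant runs starting after `z i = A 2 ^ i + y i` is not automatic. -/
theorem not_automatic {α : Type*} {k : ℕ} (hk : 2 ≤ k) (a : ℕ → α) (z : ℕ → ℕ) (A : ℤ) (y : ℕ → ℤ)
    (hzy : ∀ i, (z i : ℤ) = A * 2 ^ i + y i)
    (hper : ∀ m : ℕ, 0 < m → ∃ P, 0 < P ∧ ∀ i, (m : ℤ) ∣ y (i + P) - y i) (hy : (Set.range y).Infinite)
    (hz : (Set.range z).Infinite) (hs : ∀ L : ℕ, ∃ i0, ∀ i, i0 ≤ i → Start a L (z i)) :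
    ¬ (kernel k a).Finite := by
  classical
  intro h
  obtain ⟨M, hM⟩ := starts_bound hk h
  have hz' : (Set.range fun i => A * 2 ^ i + y i).Infinite := by
    have h1 : (fun i => A * 2 ^ i + y i) = (fun n : ℕ => (n : ℤ)) ∘ z := by
      funext i; exact (hzy i).symm
    rw [h1, Set.range_comp]
    exact hz.image (fun a _ b _ hab => by exact_mod_cast hab)
  obtain ⟨e, he⟩ := residues_unbounded hk A y hper hy hz' M
  obtain ⟨i0, hi0⟩ := hs (k ^ e)
  obtain ⟨T, hT1, hT2⟩ := he i0
  have h1 := hM e (T.image z) (by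
    intro x hx
    obtain ⟨i, hi, rfl⟩ := Finset.mem_image.1 hx
    exact hi0 i (hT1 i hi))
  have h2 : (T.image fun i => (A * 2 ^ i + y i) % ((k ^ e : ℕ) : ℤ)) =
      ((T.image z).image (· % k ^ e)).image (fun n : ℕ => (n : ℤ)) := by
    rw [Finset.image_image, Finset.image_image]
    apply Finset.image_congr
    intro i _
    simp only [Function.comp]
    rw [← hzy i]
    push_cast
    rfl
  rw [h2] at hT2
  have h3 := Finset.card_image_le (s := (T.image z).image (· % k ^ e)) (f := fun n : ℕ => (n : ℤ))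
  omega

/-! ### Regular sequences -/

/-- the reductions modulo `m` of the elements of a finitely generated group of integer sequences are finitely many -/
theorem finite_mod {m : ℕ} (hm : 0 < m) (K : Set (ℕ → ℤ)) (h : (Submodule.span ℤ K).FG) :
    ((fun f : ℕ → ℤ => fun n => ((f n : ℤ) : ZMod m)) '' K).Finite := by
  classical
  have : NeZero m := ⟨hm.ne'⟩
  obtain ⟨G, hG⟩ := h
  have hfin : (Set.range fun c : G → ZMod m => fun n => ∑ g : G, c g * (((g.1 : ℕ → ℤ) n : ℤ) : ZMod m)).Finite :=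
    Set.finite_range _
  refine hfin.subset ?_
  rintro _ ⟨f, hf, rfl⟩
  have hf' : f ∈ Submodule.span ℤ (G : Set (ℕ → ℤ)) := by
    rw [hG]; exact Submodule.subset_span hf
  rw [Submodule.mem_span_finset'] at hf'
  obtain ⟨c, hc⟩ := hf'
  refine ⟨fun g => (c g : ZMod m), ?_⟩
  funext n
  have := congrFun hc n
  simp only [Finset.sum_apply, Pi.smul_apply, smul_eq_mul] at this
  show _ = ((f n : ℤ) : ZMod m)
  rw [← this]
  push_cast
  rfl

/-- if `h` is `k`-regular, then `h n - n` modulo `m` has a finite `k`-kernel -/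
theorem kernel_sub_id_finite {m : ℕ} (hm : 0 < m) {k : ℕ} (h : ℕ → ℤ) (hreg : (Submodule.span ℤ (kernel k h)).FG) :
    (kernel k fun n => (((h n - n : ℤ)) : ZMod m)).Finite := by
  classical
  have : NeZero m := ⟨hm.ne'⟩
  have h1 := finite_mod hm _ hreg
  have h2 : (Set.univ : Set (ZMod m × ZMod m)).Finite := Set.finite_univ
  refine ((h1.prod h2).image fun p => fun n : ℕ => p.1 n - (p.2.1 * (n : ZMod m) + p.2.2)).subset ?_
  rintro _ ⟨e, r, hr, rfl⟩
  refine ⟨(fun n => ((h (k ^ e * n + r) : ℤ) : ZMod m), ((k ^ e : ℕ) : ZMod m), ((r : ℕ) : ZMod m)),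
    ⟨⟨fun n => h (k ^ e * n + r), ⟨e, r, hr, rfl⟩, rfl⟩, Set.mem_univ _⟩, ?_⟩
  funext n
  push_cast
  ring

end Q264.Gap
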