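import Mathlib
import Pool.Agent.Q264.Gap

/-!
# The zero positions of the generalized Baum-Sweet sequences are not regular
-/

set_option autoImplicit false

namespace Q264.BaumSweet

open Q264.Gap

/-- `[i, j)` is a block of zeros (a maximal run of consecutive digits `0`) of the binary expansion of `n`, where the
digit of `2 ^ t` is at the position `t`. -/
def IsZeroBlock (n i j : ℕ) : Prop :=
  i < j ∧ (∀ t, i ≤ t → t < j → n.testBit t = false) ∧ n.testBit j = true ∧ (i = 0 ∨ n.testBit (i - 1) = true)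

/-- the length of each block of zeros of `n` is a multiple of `r` -/
def BS (r n : ℕ) : Prop := ∀ i j, IsZeroBlock n i j → r ∣ j - i

theorem BS_zero (r : ℕ) : BS r 0 := by
  rintro i j ⟨_, _, h, _⟩
  simp at h

theorem BS_odd (r n : ℕ) : BS r (2 * n + 1) ↔ BS r n := by
  have hb : ∀ t, (2 * n + 1).testBit (t + 1) = n.testBit t := fun t => by
    rw [Nat.testBit_succ]; congr 1; omega
  have h0 : (2 * n + 1).testBit 0 = true := by simp
  constructor
  · rintro h i j ⟨h1, h2, h3, h4⟩
    have := h (i + 1) (j + 1) ⟨by omega, fun t ht1 ht2 => ?_, by rw [hb]; exact h3, Or.inr ?_⟩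
    · simpa using this
    · obtain ⟨s, rfl⟩ : ∃ s, t = s + 1 := ⟨t - 1, by omega⟩
      rw [hb]
      exact h2 s (by omega) (by omega)
    · rcases Nat.eq_zero_or_pos i with rfl | hi
      · exact h0
      · obtain ⟨s, rfl⟩ : ∃ s, i = s + 1 := ⟨i - 1, by omega⟩
        rw [show s + 1 + 1 - 1 = s + 1 by omega, hb]
        rcases h4 with h4 | h4
        · omega
        · simpa using h4
  · rintro h i j ⟨h1, h2, h3, h4⟩
    rcases Nat.eq_zero_or_pos i with rfl | hi
    · have := h2 0 le_rfl h1
      rw [h0] at this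
      simp at this
    · obtain ⟨s, rfl⟩ : ∃ s, i = s + 1 := ⟨i - 1, by omega⟩
      obtain ⟨u, rfl⟩ : ∃ u, j = u + 1 := ⟨j - 1, by omega⟩
      have := h s u ⟨by omega, fun t ht1 ht2 => ?_, by rw [← hb]; exact h3, ?_⟩
      · simpa using this
      · rw [← hb]
        exact h2 (t + 1) (by omega) (by omega)
      · rcases Nat.eq_zero_or_pos s with rfl | hs
        · exact Or.inl rfl
        · right
          obtain ⟨v, rfl⟩ : ∃ v, s = v + 1 := ⟨s - 1, by omega⟩
          rcases h4 with h4 | h4
          · omega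
          · rw [show v + 1 - 1 = v by omega, ← hb]
            simpa using h4

theorem testBit_two_pow_mul' (r n t : ℕ) : (2 ^ r * n).testBit (t + r) = n.testBit t := by
  rw [Nat.testBit_two_pow_mul]
  simp

theorem testBit_low (r n t : ℕ) (ht : t < r) : (2 ^ r * n).testBit t = false := by
  rw [Nat.testBit_two_pow_mul]
  simp
  omega

theorem BS_shift (r n : ℕ) (hr : 1 ≤ r) : BS r (2 ^ r * n) ↔ BS r n := by
  constructor
  · rintro h i j ⟨h1, h2, h3, h4⟩
    rcases Nat.eq_zero_or_pos i with rfl | hi
    · -- the block at the bottom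
      have := h 0 (j + r) ⟨by omega, fun t _ ht2 => ?_, by rw [testBit_two_pow_mul']; exact h3, Or.inl rfl⟩
      · rw [Nat.sub_zero] at this ⊢
        exact (Nat.dvd_add_left dvd_rfl).1 this
      · by_cases ht : t < r
        · exact testBit_low r n t ht
        · obtain ⟨s, rfl⟩ : ∃ s, t = s + r := ⟨t - r, by omega⟩
          rw [testBit_two_pow_mul']
          exact h2 s (by omega) (by omega)
    · have := h (i + r) (j + r) ⟨by omega, fun t ht1 ht2 => ?_, by rw [testBit_two_pow_mul']; exact h3, Or.inr ?_⟩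
      · rw [show j + r - (i + r) = j - i by omega] at this
        exact this
      · obtain ⟨s, rfl⟩ : ∃ s, t = s + r := ⟨t - r, by omega⟩
        rw [testBit_two_pow_mul']
        exact h2 s (by omega) (by omega)
      · rw [show i + r - 1 = (i - 1) + r by omega, testBit_two_pow_mul']
        rcases h4 with h4 | h4
        · omega
        · exact h4
  · rintro h i j ⟨h1, h2, h3, h4⟩
    have hj : r ≤ j := by
      by_contra hj
      rw [testBit_low r n j (by omega)] at h3
      simp at h3
    obtain ⟨u, rfl⟩ : ∃ u, j = u + r := ⟨j - r, by omega⟩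
    rw [testBit_two_pow_mul'] at h3
    rcases Nat.eq_zero_or_pos i with rfl | hi
    · rw [Nat.sub_zero]
      refine (Nat.dvd_add_left dvd_rfl).2 ?_
      rcases Nat.eq_zero_or_pos u with rfl | hu
      · exact dvd_zero _
      · have := h 0 u ⟨hu, fun t _ ht2 => ?_, h3, Or.inl rfl⟩
        · simpa using this
        · rw [← testBit_two_pow_mul' r]
          exact h2 _ (by omega) (by omega)
    · rcases h4 with h4 | h4
      · omega
      · have hi2 : r ≤ i - 1 := by
          by_contra hj
          rw [testBit_low r n _ (by omega)] at h4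
          simp at h4
        obtain ⟨s, rfl⟩ : ∃ s, i = s + r := ⟨i - r, by omega⟩
        have := h s u ⟨by omega, fun t ht1 ht2 => ?_, h3, Or.inr ?_⟩
        · rw [show u + r - (s + r) = u - s by omega]
          exact this
        · rw [← testBit_two_pow_mul' r]
          exact h2 _ (by omega) (by omega)
        · rw [← testBit_two_pow_mul' r, show s - 1 + r = s + r - 1 by omega]
          exact h4

/-- the number of trailing zeros of a positive number with `BS r` is a multiple of `r` -/
theorem BS_even (r n : ℕ) (hn : 0 < n) (h : BS r (2 * n)) : 2 ^ r ∣ 2 * n := by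
  obtain ⟨k, m, hm, hk⟩ := Nat.exists_eq_two_pow_mul_odd (n := 2 * n) (by omega)
  have hk0 : 0 < k := by
    rcases Nat.eq_zero_or_pos k with rfl | h0
    · obtain ⟨l, rfl⟩ := hm
      omega
    · exact h0
  have hodd : m.testBit 0 = true := by
    obtain ⟨l, rfl⟩ := hm
    simp
  have := h 0 k ⟨hk0, fun t _ ht => ?_, ?_, Or.inl rfl⟩
  · rw [Nat.sub_zero] at this
    rw [hk]
    exact (pow_dvd_pow 2 (Nat.le_of_dvd hk0 this)).mul_right m
  · rw [hk]
    exact testBit_low k m t ht
  · rw [hk]
    have := testBit_two_pow_mul' k m 0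
    rw [zero_add] at this
    rw [this]
    exact hodd

theorem BS_ones (r n i : ℕ) : BS r (2 ^ i * n + (2 ^ i - 1)) ↔ BS r n := by
  induction i with
  | zero => simp
  | succ i ih =>
    have h1 : 0 < 2 ^ i := by positivity
    rw [show 2 ^ (i + 1) * n + (2 ^ (i + 1) - 1) = 2 * (2 ^ i * n + (2 ^ i - 1)) + 1 by
      rw [pow_succ, mul_comm (2 ^ i) 2, mul_assoc]; omega, BS_odd, ih]

theorem BS_one (r : ℕ) : BS r 1 := (BS_odd r 0).2 (BS_zero r)

/-! ### Counting -/

open scoped Classical in
/-- the numbers `y < 2 ^ i` such that `2 ^ i P + y` has `BS r` -/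
noncomputable def ES (r P i : ℕ) : Finset ℕ := (Finset.range (2 ^ i)).filter fun y => BS r (2 ^ i * P + y)

noncomputable def E (r P i : ℕ) : ℕ := (ES r P i).card

theorem mem_ES (r P i y : ℕ) : y ∈ ES r P i ↔ y < 2 ^ i ∧ BS r (2 ^ i * P + y) := by
  classical
  unfold ES
  rw [Finset.mem_filter, Finset.mem_range]

theorem E_rec (r P i : ℕ) (hr : 1 ≤ r) (hP : 1 ≤ P) : E r P (i + r) = E r P (i + r - 1) + E r P i := by
  classical
  obtain ⟨s, hs⟩ : ∃ s, i + r = s + 1 := ⟨i + r - 1, by omega⟩
  unfold E
  have h1 : ES r P (i + r) = (ES r P s).image (fun y => 2 * y + 1) ∪ (ES r P i).image (fun y => 2 ^ r * y) := by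
    ext y
    rw [Finset.mem_union, Finset.mem_image, Finset.mem_image, mem_ES]
    constructor
    · rintro ⟨hy, hB⟩
      rcases Nat.even_or_odd' y with ⟨y', rfl | rfl⟩
      · right
        have h2 : 2 ^ r ∣ 2 * (2 ^ s * P + y') := by
          refine BS_even r _ (by positivity) ?_
          convert hB using 1
          rw [hs, pow_succ]; ring
        have h3 : 2 * (2 ^ s * P + y') = 2 ^ r * (2 ^ i * P) + 2 * y' := by
          rw [← mul_assoc, ← pow_add, add_comm r i, hs, pow_succ]; ring
        rw [h3] at h2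
        obtain ⟨y'', hy''⟩ := (Nat.dvd_add_right (Dvd.intro _ rfl)).1 h2
        refine ⟨y'', ?_, hy''.symm⟩
        rw [mem_ES]
        constructor
        · rw [hy'', add_comm, pow_add] at hy
          exact Nat.lt_of_mul_lt_mul_left hy
        · rw [← BS_shift r _ hr]
          convert hB using 1
          rw [hy'', pow_add]; ring
      · left
        refine ⟨y', ?_, rfl⟩
        rw [mem_ES]
        constructor
        · rw [hs, pow_succ] at hy; omega
        · rw [← BS_odd]
          convert hB using 1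
          rw [hs, pow_succ]; ring
    · rintro (⟨y', hy', rfl⟩ | ⟨y', hy', rfl⟩)
      · rw [mem_ES] at hy'
        constructor
        · rw [hs, pow_succ]; omega
        · rw [← BS_odd] at hy'
          convert hy'.2 using 1
          rw [hs, pow_succ]; ring
      · rw [mem_ES] at hy'
        constructor
        · rw [add_comm, pow_add]
          exact Nat.mul_lt_mul_of_pos_left hy'.1 (by positivity)
        · rw [← BS_shift r _ hr] at hy'
          convert hy'.2 using 1
          rw [pow_add]; ring
  rw [h1, Finset.card_union_of_disjoint, Finset.card_image_of_injective, Finset.card_image_of_injective,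
    show i + r - 1 = s by omega]
  · intro a b hab
    exact Nat.eq_of_mul_eq_mul_left (by positivity) hab
  · intro a b hab
    simpa using hab
  · rw [Finset.disjoint_left]
    intro x hx hx'
    obtain ⟨a, _, rfl⟩ := Finset.mem_image.1 hx
    obtain ⟨b, _, hb⟩ := Finset.mem_image.1 hx'
    have : 2 ∣ 2 ^ r * b := (dvd_pow_self 2 (by omega)).mul_right b
    omega

open scoped Classical in
/-- the number of the `m < x` with `BS r m` -/
noncomputable def N (r x : ℕ) : ℕ := ((Finset.range x).filter fun m => BS r m).card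

theorem N_add (r P i : ℕ) : N r (2 ^ i * P + 2 ^ i) = N r (2 ^ i * P) + E r P i := by
  classical
  unfold N E
  have : (Finset.range (2 ^ i * P + 2 ^ i)).filter (fun m => BS r m) =
      (Finset.range (2 ^ i * P)).filter (fun m => BS r m) ∪ (ES r P i).image (fun y => 2 ^ i * P + y) := by
    ext x
    simp only [Finset.mem_union, Finset.mem_filter, Finset.mem_range, Finset.mem_image, mem_ES]
    constructor
    · rintro ⟨h1, h2⟩
      by_cases h : x < 2 ^ i * P
      · exact Or.inl ⟨h, h2⟩
      · right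
        obtain ⟨y, rfl⟩ : ∃ y, x = 2 ^ i * P + y := ⟨x - 2 ^ i * P, by omega⟩
        exact ⟨y, ⟨by omega, h2⟩, rfl⟩
    · rintro (⟨h1, h2⟩ | ⟨y, ⟨h1, h2⟩, rfl⟩)
      · exact ⟨lt_of_lt_of_le h1 (Nat.le_add_right _ _), h2⟩
      · exact ⟨by omega, h2⟩
  rw [this, Finset.card_union_of_disjoint, Finset.card_image_of_injective]
  · intro a b hab
    simpa using hab
  · rw [Finset.disjoint_left]
    intro x hx hx'
    obtain ⟨a, _, rfl⟩ := Finset.mem_image.1 hx'
    simp at hx

theorem N_pow (r s : ℕ) (hr : 1 ≤ r) : (N r (2 ^ s) : ℤ) = 1 + E r 1 (s + r - 1) - E r 1 (r - 1) := by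
  classical
  induction s with
  | zero =>
    have h1 : N r (2 ^ 0) = 1 := by
      unfold N
      rw [pow_zero, Finset.range_one, Finset.filter_singleton, if_pos (BS_zero r), Finset.card_singleton]
    rw [h1, zero_add]
    push_cast
    ring
  | succ s ih =>
    have h1 := N_add r 1 s
    rw [mul_one] at h1
    have h2 : E r 1 (s + 1 + r - 1) = E r 1 (s + r - 1) + E r 1 s := by
      rw [← E_rec r 1 s hr le_rfl]
      congr 1
      omega
    rw [pow_succ, show 2 ^ s * 2 = 2 ^ s + 2 ^ s by ring, h1, h2]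
    push_cast
    rw [ih]
    ring

/-- sequences in a finite ring with `x (i + r) = x (i + r - 1) + x i` are purely periodic -/
theorem periodic {R : Type*} [AddCommGroup R] [Finite R] (r : ℕ) (hr : 2 ≤ r) (x : ℕ → R)
    (hx : ∀ i, x (i + r) = x (i + r - 1) + x i) : ∃ P, 0 < P ∧ ∀ i, x (i + P) = x i := by
  classical
  obtain ⟨a, b, hab, heq⟩ := Finite.exists_ne_map_eq_of_infinite (fun i : ℕ => fun t : Fin r => x (i + t))
  wlog hlt : a < b generalizing a b
  · exact this b a (Ne.symm hab) heq.symm (by omega)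
  -- the values at `a + t` and `b + t` are equal for all `t`
  have hup : ∀ n, ∀ t, t < n → x (a + t) = x (b + t) := by
    intro n
    induction n with
    | zero => intro t ht; omega
    | succ n ih =>
      intro t ht
      by_cases htn : t < n
      · exact ih t htn
      · obtain rfl : t = n := by omega
        by_cases h2 : t < r
        · exact congrFun heq ⟨t, h2⟩
        · obtain ⟨s, rfl⟩ : ∃ s, t = s + r := ⟨t - r, by omega⟩
          rw [← add_assoc, ← add_assoc, hx, hx]
          have e1 := ih (s + r - 1) (by omega)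
          have e2 := ih s (by omega)
          rw [show a + s + r - 1 = a + (s + r - 1) by omega, show b + s + r - 1 = b + (s + r - 1) by omega, e1, e2]
  -- downwards
  have hdown : ∀ n, n ≤ a → ∀ t, x (a - n + t) = x (b - n + t) := by
    intro n
    induction n with
    | zero =>
      intro _ t
      exact hup (t + 1) t (by omega)
    | succ n ih =>
      intro hn t
      have ih' := ih (by omega)
      rcases Nat.eq_zero_or_pos t with rfl | ht
      · have e1 := hx (a - (n + 1))
        have e2 := hx (b - (n + 1))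
        rw [show a - (n + 1) + r - 1 = a - n + (r - 2) by omega, show a - (n + 1) + r = a - n + (r - 1) by omega] at e1
        rw [show b - (n + 1) + r - 1 = b - n + (r - 2) by omega, show b - (n + 1) + r = b - n + (r - 1) by omega] at e2
        rw [ih' (r - 1), ih' (r - 2), e2] at e1
        simpa using (add_left_cancel e1).symm
      · rw [show a - (n + 1) + t = a - n + (t - 1) by omega, show b - (n + 1) + t = b - n + (t - 1) by omega]
        exact ih' (t - 1)
  refine ⟨b - a, by omega, fun i => ?_⟩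
  have := hdown a le_rfl i
  rw [show a - a + i = i by omega] at this
  rw [this, add_comm]

theorem periodic_int (r : ℕ) (hr : 2 ≤ r) (x : ℕ → ℕ) (hx : ∀ i, x (i + r) = x (i + r - 1) + x i) (m : ℕ) (hm : 0 < m) :
    ∃ P, 0 < P ∧ ∀ i, (m : ℤ) ∣ (x (i + P) : ℤ) - x i := by
  have : NeZero m := ⟨hm.ne'⟩
  obtain ⟨P, hP, h⟩ := periodic r hr (fun i => (x i : ZMod m)) (fun i => by rw [hx i]; push_cast; rfl)
  refine ⟨P, hP, fun i => ?_⟩
  have := h i
  rw [← ZMod.intCast_zmod_eq_zero_iff_dvd]
  push_cast
  rw [this]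
  ring

theorem periodic_mul {x : ℕ → ℤ} {m : ℤ} {P : ℕ} (h : ∀ i, m ∣ x (i + P) - x i) (Q i : ℕ) : m ∣ x (i + Q * P) - x i := by
  induction Q with
  | zero => simp
  | succ Q ih =>
    exact dvd_conv (dvd_add (h (i + Q * P)) ih) (by rw [show i + (Q + 1) * P = i + Q * P + P by ring]; ring)

/-! ### The run of zeros -/

theorem not_BS_run (r i j : ℕ) (hr : 2 ≤ r) (hj : j < 2 ^ i) : ¬ BS r (2 ^ i * (2 ^ r + 1) + j) := by
  intro h
  have hb : ∀ t, (2 ^ i * (2 ^ r + 1) + j).testBit (t + i) = (2 ^ r + 1).testBit t := by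
    intro t
    rw [Nat.testBit_two_pow_mul_add _ hj, if_neg (by omega), Nat.add_sub_cancel]
  have hc : ∀ t, (2 ^ r + 1).testBit (t + 1) = (2 ^ (r - 1)).testBit t := by
    intro t
    rw [Nat.testBit_succ]
    congr 1
    obtain ⟨s, rfl⟩ : ∃ s, r = s + 1 := ⟨r - 1, by omega⟩
    rw [pow_succ, Nat.add_sub_cancel]
    omega
  have := h (i + 1) (i + r) ⟨by omega, fun t ht1 ht2 => ?_, ?_, Or.inr ?_⟩
  · have h2 := Nat.le_of_dvd (by omega) this
    omega
  · obtain ⟨s, rfl⟩ : ∃ s, t = s + 1 + i := ⟨t - 1 - i, by omega⟩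
    rw [hb, hc, Nat.testBit_two_pow_of_ne (by omega)]
  · rw [add_comm i r, hb]
    obtain ⟨s, rfl⟩ : ∃ s, r = s + 1 := ⟨r - 1, by omega⟩
    rw [hc, Nat.add_sub_cancel, Nat.testBit_two_pow_self]
  · rw [show i + 1 - 1 = 0 + i by omega, hb]
    have h4 : (2 ^ r + 1) % 2 = 1 := by
      obtain ⟨s, rfl⟩ : ∃ s, r = s + 1 := ⟨r - 1, by omega⟩
      rw [pow_succ]; omega
    rw [Nat.testBit_zero, h4]
    simp

open scoped Classical in
/-- the number of zeros below `x` -/
noncomputable def Z (r x : ℕ) : ℕ := ((Finset.range x).filter fun m => ¬ BS r m).card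

theorem Z_add_N (r x : ℕ) : N r x + Z r x = x := by
  classical
  unfold Z N
  rw [Finset.card_filter_add_card_filter_not, Finset.card_range]

theorem Z_succ_of_not (r x : ℕ) (h : ¬ BS r x) : Z r (x + 1) = Z r x + 1 := by
  classical
  unfold Z
  rw [Finset.range_add_one, Finset.filter_insert, if_pos h, Finset.card_insert_of_notMem (by simp)]

theorem Z_succ_of (r x : ℕ) (h : BS r x) : Z r (x + 1) = Z r x := by
  classical
  unfold Z
  rw [Finset.range_add_one, Finset.filter_insert, if_neg (not_not.2 h)]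

theorem Z_h {r : ℕ} {h : ℕ → ℕ} (hmono : StrictMono h) (hrange : Set.range h = {m | ¬ BS r m}) (n : ℕ) :
    Z r (h n) = n := by
  classical
  unfold Z
  have : (Finset.range (h n)).filter (fun m => ¬ BS r m) = (Finset.range n).image h := by
    ext x
    simp only [Finset.mem_filter, Finset.mem_range, Finset.mem_image]
    constructor
    · rintro ⟨h1, h2⟩
      have : x ∈ Set.range h := by rw [hrange]; exact h2
      obtain ⟨m, rfl⟩ := this
      exact ⟨m, hmono.lt_iff_lt.1 h1, rfl⟩
    · rintro ⟨m, hm, rfl⟩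
      refine ⟨hmono hm, ?_⟩
      have : h m ∈ {m | ¬ BS r m} := by rw [← hrange]; exact ⟨m, rfl⟩
      exact this
  rw [this, Finset.card_image_of_injective _ hmono.injective, Finset.card_range]

theorem h_Z {r : ℕ} {h : ℕ → ℕ} (hmono : StrictMono h) (hrange : Set.range h = {m | ¬ BS r m}) (x : ℕ) (hx : ¬ BS r x) :
    h (Z r x) = x := by
  have : x ∈ Set.range h := by rw [hrange]; exact hx
  obtain ⟨n, rfl⟩ := this
  rw [Z_h hmono hrange]

theorem zeros_infinite (r : ℕ) (hr : 2 ≤ r) : {m | ¬ BS r m}.Infinite := by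
  refine Set.infinite_of_injective_forall_mem (f := fun i => 2 ^ i * (2 ^ r + 1) + 0) ?_ ?_
  · intro i j hij
    simp only [add_zero] at hij
    exact Nat.pow_right_injective le_rfl (Nat.eq_of_mul_eq_mul_right (by positivity) hij)
  · intro i
    exact not_BS_run r i 0 hr (by positivity)

theorem N_mono (r : ℕ) {x y : ℕ} (h : x ≤ y) : N r x ≤ N r y := by
  classical
  unfold N
  exact Finset.card_le_card (Finset.filter_subset_filter _ (Finset.range_mono h))

theorem N_lt (r : ℕ) {x y z : ℕ} (h1 : x ≤ z) (h2 : z < y) (hz : BS r z) : N r x < N r y := by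
  classical
  have h3 : N r x ≤ N r z := N_mono r h1
  have h4 : N r (z + 1) ≤ N r y := N_mono r h2
  have h5 : N r (z + 1) = N r z + 1 := by
    unfold N
    rw [Finset.range_add_one, Finset.filter_insert, if_pos hz, Finset.card_insert_of_notMem (by simp)]
  omega

/-- **Main theorem.** -/
theorem main (r : ℕ) (hr : 2 ≤ r) (h : ℕ → ℕ) (hmono : StrictMono h) (hrange : Set.range h = {m | ¬ BS r m}) (k : ℕ)
    (hk : 2 ≤ k) : ¬ (Submodule.span ℤ (kernel k fun n => (h n : ℤ))).FG := by
  intro hreg
  have hfin := kernel_sub_id_finite (m := 2) (by norm_num) (fun n => (h n : ℤ)) hreg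
  -- the starting points
  let X : ℕ → ℕ := fun i => 2 ^ (i + 2) * (2 ^ r + 1)
  have hNX : ∀ i, (N r (X i) : ℤ) = 1 + E r 1 (i + (2 * r + 1)) - E r 1 (r - 1) + E r (2 ^ r) (i + 2) := by
    intro i
    have h1 := N_add r (2 ^ r) (i + 2)
    have h2 := N_pow r (i + 2 + r) (by omega)
    have h3 : X i = 2 ^ (i + 2) * 2 ^ r + 2 ^ (i + 2) := by simp only [X]; ring
    rw [h3, h1, ← pow_add]
    push_cast
    rw [h2, show i + 2 + r + r - 1 = i + (2 * r + 1) by omega]
  have hXpos : ∀ i, 1 ≤ 2 ^ i := fun i => Nat.one_le_two_pow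
  have hZX : ∀ i, (Z r (X i) : ℤ) = X i - N r (X i) := by
    intro i
    have := Z_add_N r (X i)
    have h2 : ((N r (X i) + Z r (X i) : ℕ) : ℤ) = X i := by rw [this]
    push_cast at h2
    linarith
  -- the two numbers below `X i`
  have hB1 : ∀ i, BS r (X i - 1) := by
    intro i
    have h1 : X i - 1 = 2 ^ (i + 2) * 2 ^ r + (2 ^ (i + 2) - 1) := by
      have := hXpos (i + 2)
      simp only [X]
      rw [mul_add, mul_one]
      omega
    rw [h1, BS_ones, ← mul_one (2 ^ r), BS_shift r 1 (by omega)]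
    exact BS_one r
  have hX2 : ∀ i, 2 ≤ X i := by
    intro i
    simp only [X]
    have := hXpos i
    have h4 : 1 ≤ 2 ^ r := hXpos r
    rw [pow_succ, pow_succ]
    nlinarith
  have hB2 : ∀ i, ¬ BS r (X i - 2) := by
    intro i hB
    obtain ⟨s, hs⟩ : ∃ s, r = s + 2 := ⟨r - 2, by omega⟩
    have h1 : X i = 4 * (2 ^ i * (2 ^ r + 1)) := by
      simp only [X]
      rw [pow_succ, pow_succ]; ring
    have hp : 1 ≤ 2 ^ i * (2 ^ r + 1) := Nat.mul_pos (by positivity) (by positivity)
    have h2 : X i - 2 = 2 * (2 * (2 ^ i * (2 ^ r + 1)) - 1) := by omega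
    rw [h2] at hB
    have h3 := BS_even r _ (by omega) hB
    have h4 : 4 ∣ 2 ^ r := by rw [hs, pow_add]; exact Dvd.intro_left _ rfl
    have h5 := h4.trans h3
    omega
  -- indices
  have hidx0 : ∀ i, Z r (X i) = Z r (X i - 2) + 1 := by
    intro i
    have h1 := Z_succ_of_not r _ (hB2 i)
    have h2 := Z_succ_of r _ (hB1 i)
    have := hX2 i
    rw [show X i - 2 + 1 = X i - 1 by omega] at h1
    rw [show X i - 1 + 1 = X i by omega] at h2
    omega
  have hrun : ∀ i j, j < 2 ^ (i + 2) → ¬ BS r (X i + j) := fun i j hj => not_BS_run r (i + 2) j hr hj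
  have hidx : ∀ i j, j < 2 ^ (i + 2) → Z r (X i + j) = Z r (X i) + j := by
    intro i j
    induction j with
    | zero => intro _; rfl
    | succ j ih =>
      intro hj
      rw [← add_assoc, Z_succ_of_not r _ (hrun i j (by omega)), ih (by omega)]
      ring
  have hval : ∀ i j, j < 2 ^ (i + 2) → h (Z r (X i - 2) + 1 + j) = X i + j := by
    intro i j hj
    rw [← hidx0, ← hidx i j hj]
    exact h_Z hmono hrange _ (hrun i j hj)
  have hval0 : ∀ i, h (Z r (X i - 2)) = X i - 2 := fun i => h_Z hmono hrange _ (hB2 i)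
  refine not_automatic hk _ (fun i => Z r (X i - 2)) (4 * (2 ^ r + 1))
    (fun i => -(N r (X i) : ℤ) - 1) ?_ ?_ ?_ ?_ ?_ hfin
  · intro i
    have h1 := hZX i
    have h2 := hidx0 i
    have h3 : (Z r (X i - 2) : ℤ) = Z r (X i) - 1 := by rw [h2]; push_cast; ring
    have h4 : ((X i : ℕ) : ℤ) = 4 * (2 ^ r + 1) * 2 ^ i := by
      simp only [X]
      push_cast
      rw [pow_succ, pow_succ]; ring
    rw [h3, h1, h4]
    ring
  · intro m hm
    obtain ⟨P, hP, h1⟩ := periodic_int r hr (E r 1) (fun i => E_rec r 1 i (by omega) le_rfl) m hm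
    obtain ⟨P', hP', h2⟩ := periodic_int r hr (E r (2 ^ r)) (fun i => E_rec r (2 ^ r) i (by omega) (hXpos r)) m hm
    refine ⟨P' * P, by positivity, fun i => ?_⟩
    have e1 := periodic_mul (x := fun i => (E r 1 i : ℤ)) h1 P' (i + (2 * r + 1))
    have e2 := periodic_mul (x := fun i => (E r (2 ^ r) i : ℤ)) h2 P (i + 2)
    simp only [hNX]
    refine dvd_conv ((dvd_add e1 e2).neg_right) ?_
    rw [show i + P' * P + (2 * r + 1) = i + (2 * r + 1) + P' * P by ring,
      show i + P' * P + 2 = i + 2 + P * P' by ring]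
    ring
  · refine Set.infinite_range_of_injective ?_
    have hs : StrictMono fun i => N r (X i) := by
      apply strictMono_nat_of_lt_succ
      intro i
      have h1 := hXpos (i + 2)
      have h2 : 2 ≤ 2 ^ r := (le_self_pow₀ (by norm_num) (by omega) : 2 ≤ 2 ^ r)
      have h3 : 2 ^ (i + 2) * 2 ≤ 2 ^ (i + 2) * 2 ^ r := Nat.mul_le_mul_left _ h2
      have h4 : 2 ^ (i + 3 + r) = 2 * (2 ^ (i + 2) * 2 ^ r) := by
        rw [show i + 3 + r = (i + 2) + r + 1 by ring, pow_succ, pow_add]; ring
      have h5 : 2 ^ (i + 1 + 2) = 2 * 2 ^ (i + 2) := by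
        rw [show i + 1 + 2 = (i + 2) + 1 by ring, pow_succ]; ring
      refine N_lt r (z := 2 ^ (i + 3 + r) * 0 + (2 ^ (i + 3 + r) - 1)) ?_ ?_ ?_
      · simp only [X]
        rw [h4, mul_add]
        omega
      · simp only [X]
        rw [h4, h5, mul_add, mul_assoc 2 (2 ^ (i + 2)) (2 ^ r)]
        omega
      · rw [BS_ones]
        exact BS_zero r
    intro a b hab
    simp only at hab
    apply hs.injective
    simp only
    have : (N r (X a) : ℤ) = N r (X b) := by linarith
    exact_mod_cast this
  · refine Set.infinite_range_of_injective (StrictMono.injective ?_)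
    apply strictMono_nat_of_lt_succ
    intro i
    rw [← hmono.lt_iff_lt, hval0, hval0]
    have h1 := hX2 i
    have h2 : X (i + 1) = 2 * X i := by
      simp only [X]
      rw [show i + 1 + 2 = (i + 2) + 1 by ring, pow_succ]; ring
    omega
  · intro L
    refine ⟨L, fun i hi => ?_⟩
    have hL : L < 2 ^ (i + 2) := lt_of_le_of_lt (by omega) (Nat.lt_pow_self (n := i + 2) (by norm_num : 1 < 2))
    have hx2 := hX2 i
    have v0 : (((h (Z r (X i - 2)) : ℤ) - (Z r (X i - 2) : ℕ) : ℤ) : ZMod 2) =
        ((((X i : ℕ) : ℤ) - (Z r (X i - 2) : ℕ) - 1 : ℤ) : ZMod 2) + 1 := by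
      rw [hval0, Nat.cast_sub hx2]
      push_cast
      have : (2 : ZMod 2) = 0 := rfl
      linear_combination (-1 : ZMod 2) * this
    have v1 : ∀ j, j < 2 ^ (i + 2) → (((h (Z r (X i - 2) + 1 + j) : ℤ) - ((Z r (X i - 2) + 1 + j : ℕ) : ℤ) : ℤ) : ZMod 2) =
        ((((X i : ℕ) : ℤ) - (Z r (X i - 2) : ℕ) - 1 : ℤ) : ZMod 2) := by
      intro j hj
      rw [hval i j hj]
      push_cast
      ring
    constructor
    · have e1 := v1 0 (by positivity)
      rw [add_zero] at e1
      simp only
      rw [v0, e1]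
      intro hcon
      have : (1 : ZMod 2) = 0 := by
        have := add_eq_left.1 hcon
        exact this
      exact absurd this (by decide)
    · intro y hy1 hy2
      obtain ⟨j, rfl⟩ : ∃ j, y = Z r (X i - 2) + 1 + j := ⟨y - (Z r (X i - 2) + 1), by omega⟩
      have e1 := v1 0 (by positivity)
      rw [add_zero] at e1
      simp only
      rw [v1 j (by omega), e1]

end Q264.BaumSweet
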