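import Mathlib

/-!
Real part: three real numbers `p > q > r` which are the roots of `x^3 + 22 x^2 + 12 x - 34`, and the
inequalities for the integral points `(m0, m1, m2)` which are positive at the three roots.
-/

set_option autoImplicit false

namespace Q264.CF

/-- the polynomial as a function -/
def ff (x : ℝ) : ℝ := x ^ 3 + 22 * x ^ 2 + 12 * x - 34

/-- the three roots -/
structure Roots (p q r : ℝ) : Prop where
  hp : p ^ 3 + 22 * p ^ 2 + 12 * p - 34 = 0
  hq : q ^ 3 + 22 * q ^ 2 + 12 * q - 34 = 0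
  hr : r ^ 3 + 22 * r ^ 2 + 12 * r - 34 = 0
  p1 : 0.9829 < p
  p2 : p < 0.983
  q1 : -1.6192 < q
  q2 : q < -1.6191
  r1 : -21.3639 < r
  r2 : r < -21.3638

lemma exists_roots : ∃ p q r : ℝ, Roots p q r := by
  have hc : Continuous (fun x : ℝ => x ^ 3 + 22 * x ^ 2 + 12 * x - 34) := by fun_prop
  obtain ⟨p, hp, hp0⟩ := intermediate_value_Ioo (a := (0.9829 : ℝ)) (b := 0.983) (by norm_num)
    hc.continuousOn (show (0 : ℝ) ∈ Set.Ioo _ _ by constructor <;> norm_num)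
  obtain ⟨q, hq, hq0⟩ := intermediate_value_Ioo' (a := (-1.6192 : ℝ)) (b := -1.6191) (by norm_num)
    hc.continuousOn (show (0 : ℝ) ∈ Set.Ioo _ _ by constructor <;> norm_num)
  obtain ⟨r, hr, hr0⟩ := intermediate_value_Ioo (a := (-21.3639 : ℝ)) (b := -21.3638) (by norm_num)
    hc.continuousOn (show (0 : ℝ) ∈ Set.Ioo _ _ by constructor <;> norm_num)
  exact ⟨p, q, r, hp0, hq0, hr0, hp.1, hp.2, hq.1, hq.2, hr.1, hr.2⟩

namespace Roots

variable {p q r : ℝ} (H : Roots p q r)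

include H

lemma sum_eq : p + q + r = -22 := by
  have h1 := H.hp; have h2 := H.hq; have h3 := H.hr
  have hpq : p - q ≠ 0 := by have := H.p1; have := H.q2; intro h; linarith
  have hpr : p - r ≠ 0 := by have := H.p1; have := H.r2; intro h; linarith
  have hqr : q - r ≠ 0 := by have := H.q1; have := H.r2; intro h; linarith
  have e1 : p ^ 2 + p * q + q ^ 2 + 22 * (p + q) + 12 = 0 := by
    apply mul_left_cancel₀ hpq; linear_combination h1 - h2
  have e2 : p ^ 2 + p * r + r ^ 2 + 22 * (p + r) + 12 = 0 := by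
    apply mul_left_cancel₀ hpr; linear_combination h1 - h3
  have e3 : (q - r) * (p + q + r + 22) = 0 := by linear_combination e1 - e2
  have := (mul_eq_zero.1 e3).resolve_left hqr
  linarith

lemma sum2_eq : p * q + p * r + q * r = 12 := by
  have h1 := H.hp; have h2 := H.hq
  have hs := H.sum_eq
  have hpq : p - q ≠ 0 := by have := H.p1; have := H.q2; intro h; linarith
  have e1 : p ^ 2 + p * q + q ^ 2 + 22 * (p + q) + 12 = 0 := by
    apply mul_left_cancel₀ hpq; linear_combination h1 - h2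
  have hr : r = -22 - p - q := by linarith
  rw [hr]; linear_combination -e1

lemma prod_eq : p * q * r = 34 := by
  have h1 := H.hp
  have hs := H.sum_eq
  have hs2 := H.sum2_eq
  have : p * q * r = p * (12 - p * (-22 - p)) := by
    have h3 : q + r = -22 - p := by linarith
    rw [← h3]; linear_combination p * hs2
  rw [this]; linear_combination h1

end Roots

/-- positivity at the three roots -/
def TP (p q r : ℝ) (m0 m1 m2 : ℤ) : Prop :=
  0 < m0 + m1 * p + m2 * p ^ 2 ∧ 0 < m0 + m1 * q + m2 * q ^ 2 ∧ 0 < m0 + m1 * r + m2 * r ^ 2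

/-- a linear form which is a nonnegative combination of the three values -/
lemma form_nonneg {p q r : ℝ} (h1 : q < p) (h2 : r < q) {m0 m1 m2 l0 l1 l2 : ℝ}
    (hm1 : 0 ≤ m0 + m1 * p + m2 * p ^ 2) (hm2 : 0 ≤ m0 + m1 * q + m2 * q ^ 2)
    (hm3 : 0 ≤ m0 + m1 * r + m2 * r ^ 2)
    (n1 : 0 ≤ l2 - l1 * (q + r) + l0 * (q * r))
    (n2 : l2 - l1 * (p + r) + l0 * (p * r) ≤ 0)
    (n3 : 0 ≤ l2 - l1 * (p + q) + l0 * (p * q)) : 0 ≤ l0 * m0 + l1 * m1 + l2 * m2 := by
  have hD : 0 < (p - q) * (p - r) * (q - r) :=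
    mul_pos (mul_pos (by linarith) (by linarith)) (by linarith)
  have key : (p - q) * (p - r) * (q - r) * (l0 * m0 + l1 * m1 + l2 * m2) =
      (l2 - l1 * (q + r) + l0 * (q * r)) * ((q - r) * (m0 + m1 * p + m2 * p ^ 2)) +
      (-(l2 - l1 * (p + r) + l0 * (p * r))) * ((p - r) * (m0 + m1 * q + m2 * q ^ 2)) +
      (l2 - l1 * (p + q) + l0 * (p * q)) * ((p - q) * (m0 + m1 * r + m2 * r ^ 2)) := by
    ring
  have hpos : 0 ≤ (p - q) * (p - r) * (q - r) * (l0 * m0 + l1 * m1 + l2 * m2) := by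
    rw [key]
    have a1 := mul_nonneg n1 (mul_nonneg (by linarith : (0 : ℝ) ≤ q - r) hm1)
    have a2 := mul_nonneg (by linarith : 0 ≤ -(l2 - l1 * (p + r) + l0 * (p * r)))
      (mul_nonneg (by linarith : (0 : ℝ) ≤ p - r) hm2)
    have a3 := mul_nonneg n3 (mul_nonneg (by linarith : (0 : ℝ) ≤ p - q) hm3)
    linarith
  exact nonneg_of_mul_nonneg_right hpos hD

section

variable {p q r : ℝ} (H : Roots p q r) {m0 m1 m2 : ℤ}

include H

/-- products of the roots -/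
lemma prods : 34.5894 < q * r ∧ q * r < 34.5926 ∧ -21.0008 < p * r ∧ p * r < -20.9984 ∧
    -1.5917 < p * q ∧ p * q < -1.5914 := by
  have := H.p1; have := H.p2; have := H.q1; have := H.q2; have := H.r1; have := H.r2
  norm_num at *
  refine ⟨?_, ?_, ?_, ?_, ?_, ?_⟩ <;> nlinarith

lemma bA (h : TP p q r m0 m1 m2) : 1 ≤ m0 + 2 * m2 := by
  obtain ⟨b1, b2, b3, b4, b5, b6⟩ := prods H
  have := H.p1; have := H.p2; have := H.q1; have := H.q2; have := H.r1; have := H.r2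
  obtain ⟨h1, h2, h3⟩ := h
  norm_num at *
  -- subtract a small multiple of the first value to get strict positivity
  have h4 := form_nonneg (p := p) (q := q) (r := r) (by linarith) (by linarith)
    (m0 := m0) (m1 := m1) (m2 := m2) (l0 := 1) (l1 := 0) (l2 := 2) h1.le h2.le h3.le
    (by linarith) (by linarith) (by linarith)
  have h5 : (0 : ℝ) ≤ m0 + 2 * m2 := by linarith
  have h6 : 0 ≤ m0 + 2 * m2 := by exact_mod_cast h5
  rcases h6.lt_or_eq with h | h
  · linarith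
  · exfalso
    -- then `m0 = -2 m2`; a slightly perturbed form is negative
    have h7 := form_nonneg (p := p) (q := q) (r := r) (by linarith) (by linarith)
      (m0 := m0) (m1 := m1) (m2 := m2) (l0 := 1 - 1 / 1000) (l1 := 0 - 1 / 1000 * p)
      (l2 := 2 - 1 / 1000 * p ^ 2) h1.le h2.le h3.le
      (by nlinarith) (by nlinarith) (by nlinarith)
    have h8 : (m0 : ℝ) = -2 * m2 := by
      have : m0 = -2 * m2 := by linarith
      exact_mod_cast this
    nlinarith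

lemma bB (h : TP p q r m0 m1 m2) : 21 ≤ 21 * m0 - 34 * m1 + 76 * m2 := by
  obtain ⟨b1, b2, b3, b4, b5, b6⟩ := prods H
  have := H.p1; have := H.p2; have := H.q1; have := H.q2; have := H.r1; have := H.r2
  obtain ⟨h1, h2, h3⟩ := h
  norm_num at *
  -- `B ≥ 20.5 m2`
  have h4 := form_nonneg (p := p) (q := q) (r := r) (by linarith) (by linarith)
    (m0 := m0) (m1 := m1) (m2 := m2) (l0 := 21) (l1 := -34) (l2 := 76 - 20.5) h1.le h2.le h3.le
    (by norm_num; linarith) (by norm_num; linarith) (by norm_num; linarith)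
  -- `B ≥ -500 m2`
  have h5 := form_nonneg (p := p) (q := q) (r := r) (by linarith) (by linarith)
    (m0 := m0) (m1 := m1) (m2 := m2) (l0 := 21) (l1 := -34) (l2 := 76 + 500) h1.le h2.le h3.le
    (by norm_num; linarith) (by norm_num; linarith) (by norm_num; linarith)
  rcases lt_trichotomy m2 0 with hm | hm | hm
  · have h6 : (m2 : ℝ) ≤ -1 := by exact_mod_cast (by omega : m2 ≤ -1)
    have h7 : (21 : ℝ) ≤ 21 * m0 - 34 * m1 + 76 * m2 := by linarith
    exact_mod_cast h7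
  · subst hm
    norm_num at h1 h2 h3 ⊢
    rcases lt_trichotomy m1 0 with hm | hm | hm
    · have h6 : (m1 : ℝ) ≤ -1 := by exact_mod_cast (by omega : m1 ≤ -1)
      have h7 : (0 : ℝ) < m0 := by nlinarith
      have h8 : 0 < m0 := by exact_mod_cast h7
      omega
    · subst hm
      norm_num at h1
      omega
    · have h6 : (1 : ℝ) ≤ m1 := by exact_mod_cast (by omega : 1 ≤ m1)
      have h7 : (21 : ℝ) * m1 < m0 := by nlinarith
      have h8 : 21 * m1 < m0 := by exact_mod_cast h7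
      omega
  · have h6 : (1 : ℝ) ≤ m2 := by exact_mod_cast (by omega : 1 ≤ m2)
    have h7 : (20 : ℝ) < 21 * m0 - 34 * m1 + 76 * m2 := by norm_num at h4; linarith
    have h8 : 20 < 21 * m0 - 34 * m1 + 76 * m2 := by exact_mod_cast h7
    omega

end

/-- multiplication by `e1 = 1 - π` -/
lemma TP_e1 {p q r : ℝ} (H : Roots p q r) {m0 m1 m2 : ℤ} (h : TP p q r m0 m1 m2) :
    TP p q r (m0 - 34 * m2) (-m0 + m1 + 12 * m2) (-m1 + 23 * m2) := by
  have := H.p2; have := H.q2; have := H.r2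
  obtain ⟨h1, h2, h3⟩ := h
  norm_num at *
  have k : ∀ x : ℝ, x ^ 3 + 22 * x ^ 2 + 12 * x - 34 = 0 →
      (m0 - 34 * m2 : ℝ) + (-m0 + m1 + 12 * m2) * x + (-m1 + 23 * m2) * x ^ 2 =
      (1 - x) * (m0 + m1 * x + m2 * x ^ 2) := by
    intro x hx; linear_combination (m2 : ℝ) * hx
  refine ⟨?_, ?_, ?_⟩ <;> push_cast
  · rw [k p H.hp]; exact mul_pos (by linarith) h1
  · rw [k q H.hq]; exact mul_pos (by linarith) h2
  · rw [k r H.hr]; exact mul_pos (by linarith) h3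

/-- multiplication by `e2 = π^2 + π - 1` -/
lemma TP_e2 {p q r : ℝ} (H : Roots p q r) {m0 m1 m2 : ℤ} (h : TP p q r m0 m1 m2) :
    TP p q r (-m0 + 34 * m1 - 714 * m2) (m0 - 13 * m1 + 286 * m2) (m0 - 21 * m1 + 449 * m2) := by
  have := H.p1; have := H.q2; have := H.r2; have := H.q1
  obtain ⟨h1, h2, h3⟩ := h
  norm_num at *
  have k : ∀ x : ℝ, x ^ 3 + 22 * x ^ 2 + 12 * x - 34 = 0 →
      (-m0 + 34 * m1 - 714 * m2 : ℝ) + (m0 - 13 * m1 + 286 * m2) * x +
        (m0 - 21 * m1 + 449 * m2) * x ^ 2 =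
      (x ^ 2 + x - 1) * (m0 + m1 * x + m2 * x ^ 2) := by
    intro x hx
    linear_combination (-(m1 : ℝ) - m2 * x + 21 * m2) * hx
  refine ⟨?_, ?_, ?_⟩ <;> push_cast
  · rw [k p H.hp]; exact mul_pos (by nlinarith) h1
  · rw [k q H.hq]; exact mul_pos (by nlinarith) h2
  · rw [k r H.hr]; exact mul_pos (by nlinarith) h3

/-- multiplication by `e2 / e1 = 33 + 22 π + π^2` -/
lemma TP_e21 {p q r : ℝ} (H : Roots p q r) {m0 m1 m2 : ℤ} (h : TP p q r m0 m1 m2) :
    TP p q r (33 * m0 + 34 * m1) (22 * m0 + 21 * m1 + 34 * m2) (m0 + 21 * m2) := by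
  have := H.p1; have := H.p2; have := H.q2; have := H.r2; have := H.q1
  obtain ⟨h1, h2, h3⟩ := h
  norm_num at *
  have k : ∀ x : ℝ, x ^ 3 + 22 * x ^ 2 + 12 * x - 34 = 0 → 0 < 1 - x → 0 < x ^ 2 + x - 1 →
      0 < (m0 + m1 * x + m2 * x ^ 2 : ℝ) →
      0 < (33 * m0 + 34 * m1 : ℝ) + (22 * m0 + 21 * m1 + 34 * m2) * x +
        (m0 + 21 * m2) * x ^ 2 := by
    intro x hx h4 h5 h6
    have h7 : (1 - x) * ((33 * m0 + 34 * m1 : ℝ) + (22 * m0 + 21 * m1 + 34 * m2) * x +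
        (m0 + 21 * m2) * x ^ 2) = (x ^ 2 + x - 1) * (m0 + m1 * x + m2 * x ^ 2) := by
      linear_combination (-(m0 : ℝ) - m1 - m2 * x - 0 * m2) * hx
    have h8 : 0 < (1 - x) * ((33 * m0 + 34 * m1 : ℝ) + (22 * m0 + 21 * m1 + 34 * m2) * x +
        (m0 + 21 * m2) * x ^ 2) := by rw [h7]; exact mul_pos h5 h6
    exact pos_of_mul_pos_right h8 h4.le
  refine ⟨?_, ?_, ?_⟩ <;> push_cast
  · exact k p H.hp (by linarith) (by nlinarith) h1
  · exact k q H.hq (by linarith) (by nlinarith) h2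
  · exact k r H.hr (by linarith) (by nlinarith) h3

/-- the main inequality -/
lemma main_ineq {p q r : ℝ} (H : Roots p q r) {m0 m1 m2 : ℤ} (h : TP p q r m0 m1 m2)
    {t0 t1 t2 : ℤ} (c1 : 0 ≤ -t1) (c2 : 0 ≤ -2 * t0 + t1 + t2)
    (c3 : 0 ≤ 34 * t0 + 23 * t1 + t2) (c4 : 0 ≤ 168 * t0 - 163 * t1 - 8 * t2)
    (c5 : 0 ≤ 440 * t0 - 428 * t1 - 21 * t2) (c6 : 0 ≤ 32 * t0 + 22 * t1 + t2) :
    t0 ≤ t0 * m0 + t1 * m1 + t2 * m2 := by
  have a0 := bA H h
  have a1 := bA H (TP_e1 H h)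
  have a2 := bA H (TP_e2 H h)
  have d1 := bB H h
  have d12 := bB H (TP_e2 H h)
  have d2 := bB H (TP_e21 H h)
  have A0 : 0 ≤ m0 + 2 * m2 - 1 := by linarith
  have A1 : 0 ≤ m0 - 2 * m1 + 12 * m2 - 1 := by linarith
  have A2 : 0 ≤ m0 - 8 * m1 + 184 * m2 - 1 := by linarith
  have D1 : 0 ≤ 21 * m0 - 34 * m1 + 76 * m2 - 21 := by linarith
  have D12 : 0 ≤ 21 * m0 - 440 * m1 + 9406 * m2 - 21 := by linarith
  have D2 : 0 ≤ 21 * m0 + 440 * m2 - 21 := by linarith
  clear a0 a1 a2 d1 d12 d2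
  rcases le_total 0 (2 * t0 - 5 * t1 - t2) with s1 | s1
  · -- sector A, B1, A1
    nlinarith [mul_nonneg s1 D1, mul_nonneg c2 A1, mul_nonneg c6 A0]
  rcases le_total 0 (220 * t0 - 2341 * t1 - 110 * t2) with s2 | s2
  · nlinarith [mul_nonneg s2 A1, mul_nonneg (neg_nonneg.2 s1) D12, mul_nonneg c3 A0]
  rcases le_total 0 (8 * t0 - 91 * t1 - 4 * t2) with s3 | s3
  · nlinarith [mul_nonneg s3 D12, mul_nonneg (neg_nonneg.2 s2) A2, mul_nonneg c4 A0]
  · nlinarith [mul_nonneg c1 A2, mul_nonneg (neg_nonneg.2 s3) D2, mul_nonneg c5 A0]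

end Q264.CF
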