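import Pool.Agent.Q264.CF1

/-!
The cubic field `K = ℚ(π)`, `π^3 + 22 π^2 + 12 π - 34 = 0`: real embeddings, trace, integers.
-/

set_option autoImplicit false

namespace Q264.CF

open Polynomial NumberField

/-- the defining polynomial over the integers -/
noncomputable def gZ : ℤ[X] := X ^ 3 + C 22 * X ^ 2 + C 12 * X + C (-34)

lemma gZ_natDegree : gZ.natDegree = 3 := by unfold gZ; compute_degree!

lemma gZ_monic : gZ.Monic := by unfold gZ; monicity!

lemma gZ_coeff (n : ℕ) : gZ.coeff n = if n = 3 then 1 else if n = 2 then 22 else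
    if n = 1 then 12 else if n = 0 then -34 else 0 := by
  unfold gZ
  rcases n with _ | _ | _ | _ | n
  · simp
  · simp [coeff_X]
  · simp [coeff_X]
  · simp [coeff_X]
  · simp [coeff_X, coeff_X_pow]

lemma gZ_eis : gZ.IsEisensteinAt (Ideal.span {(2 : ℤ)}) where
  leading := by
    rw [gZ_monic.leadingCoeff, Ideal.mem_span_singleton]
    norm_num
  mem := by
    intro n hn
    rw [gZ_natDegree] at hn
    rw [Ideal.mem_span_singleton, gZ_coeff]
    interval_cases n <;> norm_num
  notMem := by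
    rw [Ideal.span_singleton_pow, Ideal.mem_span_singleton, gZ_coeff]
    norm_num

lemma gZ_irr : Irreducible gZ :=
  gZ_eis.irreducible ((Ideal.span_singleton_prime (by norm_num)).2 Int.prime_two)
    gZ_monic.isPrimitive (by rw [gZ_natDegree]; norm_num)

/-- the defining polynomial over the rationals -/
noncomputable def gQ : ℚ[X] := gZ.map (Int.castRingHom ℚ)

lemma gQ_irr : Irreducible gQ :=
  (gZ_monic.irreducible_iff_irreducible_map_fraction_map (K := ℚ)).1 gZ_irr

lemma gQ_monic : gQ.Monic := gZ_monic.map _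

lemma gQ_natDegree : gQ.natDegree = 3 := by
  unfold gQ
  rw [gZ_monic.natDegree_map, gZ_natDegree]

section

variable {K : Type} [Field K] [NumberField K] {ρ : K}

/-- `ρ` generates `K` and is a root of `gZ` -/
structure Gen (K : Type) [Field K] [NumberField K] (ρ : K) : Prop where
  rel : ρ ^ 3 + 22 * ρ ^ 2 + 12 * ρ - 34 = 0
  top : Algebra.adjoin ℚ ({ρ} : Set K) = ⊤

namespace Gen

variable (G : Gen K ρ)

include G

lemma aeval_gZ : aeval ρ gZ = 0 := by
  unfold gZ
  simp only [map_add, map_mul, map_pow, aeval_X, aeval_C]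
  have e1 : algebraMap ℤ K 22 = 22 := by simp
  have e2 : algebraMap ℤ K 12 = 12 := by simp
  have e3 : algebraMap ℤ K (-34) = -34 := by simp
  rw [e1, e2, e3]
  linear_combination G.rel

lemma aeval_gQ : aeval ρ gQ = 0 := by
  have : aeval ρ (gZ.map (algebraMap ℤ ℚ)) = 0 := by
    rw [aeval_map_algebraMap]; exact G.aeval_gZ
  exact this

lemma int : IsIntegral ℤ ρ := ⟨gZ, gZ_monic, G.aeval_gZ⟩

lemma intQ : IsIntegral ℚ ρ := ⟨gQ, gQ_monic, G.aeval_gQ⟩

lemma minpoly_eq : minpoly ℚ ρ = gQ :=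
  (minpoly.eq_of_irreducible_of_monic gQ_irr G.aeval_gQ gQ_monic).symm

lemma minpolyZ_eq : minpoly ℤ ρ = gZ := by
  have h1 := minpoly.isIntegrallyClosed_eq_field_fractions' ℚ G.int
  rw [G.minpoly_eq] at h1
  exact (map_injective _ (RingHom.injective_int _) h1).symm

lemma adj_top : IntermediateField.adjoin ℚ ({ρ} : Set K) = ⊤ := by
  rw [← IntermediateField.toSubalgebra_inj, IntermediateField.top_toSubalgebra,
    IntermediateField.adjoin_simple_toSubalgebra_of_isAlgebraic G.intQ.isAlgebraic]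
  exact G.top

/-- the power basis -/
noncomputable def pb : PowerBasis ℚ K :=
  ((Algebra.adjoin.powerBasis G.intQ).map (Subalgebra.equivOfEq _ _ G.top)).map
    Subalgebra.topEquiv

lemma pb_gen : G.pb.gen = ρ := by
  unfold pb
  simp

lemma pb_dim : G.pb.dim = 3 := by
  have h := G.pb.natDegree_minpoly
  rw [G.pb_gen, G.minpoly_eq, gQ_natDegree] at h
  exact h.symm

lemma coords (z : K) : ∃ a b c : ℚ, z = (a : K) + (b : K) * ρ + (c : K) * ρ ^ 2 := by
  have hz : z ∈ Algebra.adjoin ℚ ({ρ} : Set K) := by rw [G.top]; trivial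
  rw [Algebra.adjoin_singleton_eq_range_aeval] at hz
  obtain ⟨g, rfl⟩ := hz
  have h1 : aeval ρ g = aeval ρ (g %ₘ gQ) := by
    conv_lhs => rw [← modByMonic_add_div g gQ]
    rw [map_add, map_mul, G.aeval_gQ, zero_mul, add_zero]
  have h2 : (g %ₘ gQ).natDegree < 3 := by
    have := natDegree_modByMonic_lt g gQ_monic (by
      intro h
      have := gQ_natDegree
      rw [h, natDegree_one] at this
      norm_num at this)
    rwa [gQ_natDegree] at this
  refine ⟨(g %ₘ gQ).coeff 0, (g %ₘ gQ).coeff 1, (g %ₘ gQ).coeff 2, ?_⟩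
  show aeval ρ g = _
  rw [h1]
  conv_lhs => rw [as_sum_range' _ 3 h2, Finset.sum_range_succ, Finset.sum_range_succ,
    Finset.sum_range_succ, Finset.sum_range_zero]
  simp only [map_add, ← C_mul_X_pow_eq_monomial, map_mul, map_pow, aeval_X,
    aeval_C, zero_add, pow_zero, mul_one, pow_one]
  simp

lemma coords_adjoin {z : K} (hz : z ∈ Algebra.adjoin ℤ ({ρ} : Set K)) :
    ∃ a b c : ℤ, z = (a : K) + (b : K) * ρ + (c : K) * ρ ^ 2 := by
  rw [Algebra.adjoin_singleton_eq_range_aeval] at hz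
  obtain ⟨g, rfl⟩ := hz
  have h1 : aeval ρ g = aeval ρ (g %ₘ gZ) := by
    conv_lhs => rw [← modByMonic_add_div g gZ]
    rw [map_add, map_mul, G.aeval_gZ, zero_mul, add_zero]
  have h2 : (g %ₘ gZ).natDegree < 3 := by
    have := natDegree_modByMonic_lt g gZ_monic (by
      intro h
      have := gZ_natDegree
      rw [h, natDegree_one] at this
      norm_num at this)
    rwa [gZ_natDegree] at this
  refine ⟨(g %ₘ gZ).coeff 0, (g %ₘ gZ).coeff 1, (g %ₘ gZ).coeff 2, ?_⟩
  show aeval ρ g = _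
  rw [h1]
  conv_lhs => rw [as_sum_range' _ 3 h2, Finset.sum_range_succ, Finset.sum_range_succ,
    Finset.sum_range_succ, Finset.sum_range_zero]
  simp only [map_add, ← C_mul_X_pow_eq_monomial, map_mul, map_pow, aeval_X,
    aeval_C, zero_add, pow_zero, mul_one, pow_one]
  simp

lemma rel_of_hom {R : Type} [Field R] [CharZero R] (φ : K →+* R) :
    (φ ρ) ^ 3 + 22 * (φ ρ) ^ 2 + 12 * (φ ρ) - 34 = 0 := by
  have h := congrArg φ G.rel
  rw [map_sub, map_add, map_add, map_mul, map_mul, map_pow, map_pow, map_zero] at h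
  have e1 : φ (22 : K) = 22 := map_ofNat φ 22
  have e2 : φ (12 : K) = 12 := map_ofNat φ 12
  have e3 : φ (34 : K) = 34 := map_ofNat φ 34
  rwa [e1, e2, e3] at h

/-- embeddings attached to roots -/
lemma exists_emb {R : Type} [Field R] [CharZero R] (x : R)
    (hx : x ^ 3 + 22 * x ^ 2 + 12 * x - 34 = 0) : ∃ φ : K →+* R, φ ρ = x := by
  have h : aeval x (minpoly ℚ G.pb.gen) = 0 := by
    rw [G.pb_gen, G.minpoly_eq]
    have h1 : aeval x (gZ.map (algebraMap ℤ ℚ)) = 0 := by
      rw [aeval_map_algebraMap]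
      unfold gZ
      simp only [map_add, map_mul, map_pow, aeval_X, aeval_C]
      have e1 : algebraMap ℤ R 22 = 22 := by simp
      have e2 : algebraMap ℤ R 12 = 12 := by simp
      have e3 : algebraMap ℤ R (-34) = -34 := by simp
      rw [e1, e2, e3]
      linear_combination hx
    exact h1
  refine ⟨(G.pb.lift x h).toRingHom, ?_⟩
  have := G.pb.lift_gen x h
  rw [G.pb_gen] at this
  exact this

omit G in
lemma hom_coords {R : Type} [Field R] [CharZero R] (φ : K →+* R) (a b c : ℚ) :
    φ ((a : K) + (b : K) * ρ + (c : K) * ρ ^ 2) = a + b * φ ρ + c * (φ ρ) ^ 2 := by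
  simp only [map_add, map_mul, map_pow, map_ratCast]

lemma hom_ext {R : Type} [Field R] [CharZero R] {φ ψ : K →+* R} (h : φ ρ = ψ ρ) : φ = ψ := by
  refine RingHom.ext fun z => ?_
  obtain ⟨a, b, c, hz⟩ := G.coords z
  rw [hz, hom_coords, hom_coords, h]

end Gen

end

end Q264.CF
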