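import Pool.Agent.Q264.CF2

/-!
Embeddings, trace and integers of the cubic field.
-/

set_option autoImplicit false

namespace Q264.CF

open Polynomial NumberField

section

variable {K : Type} [Field K] [NumberField K] {ρ : K}

namespace Gen

variable (G : Gen K ρ) {p q r : ℝ} (H : Roots p q r)

include G H

lemma real_cases (φ : K →+* ℝ) : φ ρ = p ∨ φ ρ = q ∨ φ ρ = r := by
  have h := G.rel_of_hom φ
  have h2 : (φ ρ - p) * ((φ ρ - q) * (φ ρ - r)) = 0 := by
    linear_combination h - (φ ρ) ^ 2 * H.sum_eq + (φ ρ) * H.sum2_eq - H.prod_eq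
  rcases mul_eq_zero.1 h2 with h | h
  · left; linarith
  · rcases mul_eq_zero.1 h with h | h
    · right; left; linarith
    · right; right; linarith

lemma complex_cases (φ : K →+* ℂ) : φ ρ = (p : ℂ) ∨ φ ρ = (q : ℂ) ∨ φ ρ = (r : ℂ) := by
  have h := G.rel_of_hom φ
  have s1 : (p : ℂ) + q + r = -22 := by exact_mod_cast congrArg (fun x : ℝ => (x : ℂ)) H.sum_eq
  have s2 : (p : ℂ) * q + p * r + q * r = 12 := by
    exact_mod_cast congrArg (fun x : ℝ => (x : ℂ)) H.sum2_eq
  have s3 : (p : ℂ) * q * r = 34 := by exact_mod_cast congrArg (fun x : ℝ => (x : ℂ)) H.prod_eq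
  have h2 : (φ ρ - p) * ((φ ρ - q) * (φ ρ - r)) = 0 := by
    linear_combination h - (φ ρ) ^ 2 * s1 + (φ ρ) * s2 - s3
  rcases mul_eq_zero.1 h2 with h | h
  · left; linear_combination h
  · rcases mul_eq_zero.1 h with h | h
    · right; left; linear_combination h
    · right; right; linear_combination h

lemma factor_real (φ : K →+* ℂ) : ∃ ψ : K →+* ℝ, φ = (Complex.ofRealHom).comp ψ := by
  have key : ∀ x : ℝ, x ^ 3 + 22 * x ^ 2 + 12 * x - 34 = 0 → φ ρ = (x : ℂ) →
      ∃ ψ : K →+* ℝ, φ = (Complex.ofRealHom).comp ψ := by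
    intro x hx h
    obtain ⟨ψ, hψ⟩ := G.exists_emb x hx
    refine ⟨ψ, G.hom_ext ?_⟩
    rw [h, RingHom.comp_apply, hψ]
    rfl
  rcases G.complex_cases H φ with h | h | h
  · exact key p H.hp h
  · exact key q H.hq h
  · exact key r H.hr h

lemma totallyReal : IsTotallyReal K := by
  refine ⟨fun v => ?_⟩
  rw [InfinitePlace.isReal_iff]
  obtain ⟨ψ, hψ⟩ := G.factor_real H v.embedding
  rw [ComplexEmbedding.isReal_iff]
  ext z
  rw [ComplexEmbedding.conjugate_coe_eq, hψ]
  simp

/-- the trace of a totally positive element is positive -/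
lemma trace_pos {z : K} (hz : ∀ φ : K →+* ℝ, 0 < φ z) : 0 < Algebra.trace ℚ K z := by
  have h1 := trace_eq_sum_embeddings (K := ℚ) (L := K) ℂ (x := z)
  have h2 : ((Algebra.trace ℚ K z : ℚ) : ℝ) = ∑ σ : K →ₐ[ℚ] ℂ, (σ z).re := by
    have := congrArg Complex.re h1
    rw [Complex.re_sum] at this
    rw [← this]
    simp
  have h3 : 0 < ∑ σ : K →ₐ[ℚ] ℂ, (σ z).re := by
    apply Finset.sum_pos
    · intro σ _
      obtain ⟨ψ, hψ⟩ := G.factor_real H σ.toRingHom
      have : σ z = ((ψ z : ℝ) : ℂ) := by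
        have := congrArg (fun f : K →+* ℂ => f z) hψ
        exact this
      rw [this, Complex.ofReal_re]
      exact hz ψ
    · rw [Finset.univ_nonempty_iff, ← Fintype.card_pos_iff, AlgHom.card]
      exact Module.finrank_pos
  rw [← h2] at h3
  exact_mod_cast h3

omit H in
lemma finrank_eq : Module.finrank ℚ K = 3 := by
  rw [G.pb.finrank, G.pb_dim]

/-- trace formula -/
lemma trace_coords (a b c : ℚ) :
    Algebra.trace ℚ K ((a : K) + (b : K) * ρ + (c : K) * ρ ^ 2) = 3 * a - 22 * b + 460 * c := by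
  classical
  obtain ⟨φ1, h1⟩ := G.exists_emb (p : ℂ) (by
    have := H.hp
    exact_mod_cast congrArg (fun x : ℝ => (x : ℂ)) this)
  obtain ⟨φ2, h2⟩ := G.exists_emb (q : ℂ) (by
    have := H.hq
    exact_mod_cast congrArg (fun x : ℝ => (x : ℂ)) this)
  obtain ⟨φ3, h3⟩ := G.exists_emb (r : ℂ) (by
    have := H.hr
    exact_mod_cast congrArg (fun x : ℝ => (x : ℂ)) this)
  have hpq : (p : ℂ) ≠ q := by
    have := H.p1; have := H.q2
    intro h
    have h : p = q := by exact_mod_cast h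
    norm_num at *
    linarith
  have hpr : (p : ℂ) ≠ r := by
    have := H.p1; have := H.r2
    intro h
    have h : p = r := by exact_mod_cast h
    norm_num at *
    linarith
  have hqr : (q : ℂ) ≠ r := by
    have := H.q1; have := H.r2
    intro h
    have h : q = r := by exact_mod_cast h
    norm_num at *
    linarith
  set σ1 : K →ₐ[ℚ] ℂ := φ1.toRatAlgHom with hσ1
  set σ2 : K →ₐ[ℚ] ℂ := φ2.toRatAlgHom with hσ2
  set σ3 : K →ₐ[ℚ] ℂ := φ3.toRatAlgHom with hσ3
  have e1 : σ1 ρ = p := h1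
  have e2 : σ2 ρ = q := h2
  have e3 : σ3 ρ = r := h3
  have huniv : (Finset.univ : Finset (K →ₐ[ℚ] ℂ)) = {σ1, σ2, σ3} := by
    symm
    rw [Finset.eq_univ_iff_forall]
    intro σ
    simp only [Finset.mem_insert, Finset.mem_singleton]
    have key : ∀ τ : K →ₐ[ℚ] ℂ, σ ρ = τ ρ → σ = τ := by
      intro τ h
      have := G.hom_ext (φ := σ.toRingHom) (ψ := τ.toRingHom) h
      ext z
      exact congrArg (fun f : K →+* ℂ => f z) this
    rcases G.complex_cases H σ.toRingHom with h | h | h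
    · left; exact key σ1 (by rw [e1]; exact h)
    · right; left; exact key σ2 (by rw [e2]; exact h)
    · right; right; exact key σ3 (by rw [e3]; exact h)
  have h4 := trace_eq_sum_embeddings (K := ℚ) (L := K) ℂ
    (x := (a : K) + (b : K) * ρ + (c : K) * ρ ^ 2)
  rw [huniv, Finset.sum_insert, Finset.sum_insert, Finset.sum_singleton] at h4
  · have k : ∀ σ : K →ₐ[ℚ] ℂ, σ ((a : K) + (b : K) * ρ + (c : K) * ρ ^ 2) =
        a + b * σ ρ + c * (σ ρ) ^ 2 := fun σ => hom_coords σ.toRingHom a b c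
    rw [k, k, k, e1, e2, e3] at h4
    have s1 : (p : ℂ) + q + r = -22 := by exact_mod_cast congrArg (fun x : ℝ => (x : ℂ)) H.sum_eq
    have s2 : (p : ℂ) * q + p * r + q * r = 12 := by
      exact_mod_cast congrArg (fun x : ℝ => (x : ℂ)) H.sum2_eq
    have h5 : (algebraMap ℚ ℂ) ((Algebra.trace ℚ K) ((a : K) + (b : K) * ρ + (c : K) * ρ ^ 2)) =
        ((3 * a - 22 * b + 460 * c : ℚ) : ℂ) := by
      rw [h4]
      push_cast
      linear_combination ((b : ℂ) + c * ((p : ℂ) + q + r - 22)) * s1 - 2 * (c : ℂ) * s2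
    have h6 : (((Algebra.trace ℚ K) ((a : K) + (b : K) * ρ + (c : K) * ρ ^ 2) : ℚ) : ℂ) =
        ((3 * a - 22 * b + 460 * c : ℚ) : ℂ) := h5
    exact_mod_cast h6
  · simp only [Finset.mem_singleton]
    intro h
    exact hqr (by rw [← e2, ← e3, h])
  · simp only [Finset.mem_insert, Finset.mem_singleton]
    rintro (h | h)
    · exact hpq (by rw [← e1, ← e2, h])
    · exact hpr (by rw [← e1, ← e3, h])

end Gen

end

end Q264.CF
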