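import Pool.Agent.Q264.CF3

/-!
The ring of integers is `ℤ[ρ]`.
-/

set_option autoImplicit false

namespace Q264.CF

open Polynomial NumberField

section

variable {K : Type} [Field K] [NumberField K] {ρ : K}

namespace Gen

variable (G : Gen K ρ) {p q r : ℝ} (H : Roots p q r)

lemma int_of_integral {x : ℚ} (hx : IsIntegral ℤ x) : ∃ n : ℤ, x = n := by
  obtain ⟨n, hn⟩ := IsIntegrallyClosed.isIntegral_iff.1 hx
  exact ⟨n, by rw [← hn]; simp⟩

lemma dvd_of_sq {A B : ℤ} (h : A ^ 2 = 1318132 * B) : (329533 : ℤ) ∣ A := by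
  have hp : Prime (329533 : ℤ) := by
    have h1 := Nat.prime_iff_prime_int.1 (show Nat.Prime 329533 by norm_num)
    exact_mod_cast h1
  refine hp.dvd_of_dvd_pow (n := 2) ?_
  rw [h]
  exact ⟨4 * B, by ring⟩

include G H

lemma int_coords {z : K} (hz : IsIntegral ℤ z) :
    ∃ a b c : ℤ, z = (a : K) + (b : K) * ρ + (c : K) * ρ ^ 2 := by
  obtain ⟨a, b, c, hzc⟩ := G.coords z
  have t0 := G.trace_coords H a b c
  rw [← hzc] at t0
  have t1 := G.trace_coords H (34 * c) (a - 12 * c) (b - 22 * c)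
  have e1 : ((34 * c : ℚ) : K) + ((a - 12 * c : ℚ) : K) * ρ + ((b - 22 * c : ℚ) : K) * ρ ^ 2 =
      z * ρ := by
    rw [hzc]; push_cast; linear_combination -(c : K) * G.rel
  rw [e1] at t1
  have t2 := G.trace_coords H (34 * b - 748 * c) (-12 * b + 298 * c) (a - 22 * b + 472 * c)
  have e2 : ((34 * b - 748 * c : ℚ) : K) + ((-12 * b + 298 * c : ℚ) : K) * ρ +
      ((a - 22 * b + 472 * c : ℚ) : K) * ρ ^ 2 = z * ρ ^ 2 := by
    rw [hzc]; push_cast
    linear_combination (-(b : K) + 22 * (c : K) - (c : K) * ρ) * G.rel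
  rw [e2] at t2
  have ez : z * z = (a : K) * z + (b : K) * (z * ρ) + (c : K) * (z * ρ ^ 2) := by
    conv_lhs => rw [hzc]
    conv_rhs => rw [hzc]
    ring
  have t3 : Algebra.trace ℚ K (z * z) = a * Algebra.trace ℚ K z + b * Algebra.trace ℚ K (z * ρ) +
      c * Algebra.trace ℚ K (z * ρ ^ 2) := by
    rw [ez]
    have k : ∀ (x : ℚ) (y : K), Algebra.trace ℚ K ((x : K) * y) = x * Algebra.trace ℚ K y := by
      intro x y
      have : (x : K) * y = x • y := by rw [Algebra.smul_def]; simp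
      rw [this, map_smul, smul_eq_mul]
    rw [map_add, map_add, k, k, k]
  obtain ⟨u0, hu0⟩ := int_of_integral (Algebra.isIntegral_trace (L := ℚ) hz)
  obtain ⟨u1, hu1⟩ := int_of_integral (Algebra.isIntegral_trace (L := ℚ) (hz.mul G.int))
  obtain ⟨u2, hu2⟩ := int_of_integral (Algebra.isIntegral_trace (L := ℚ) (hz.mul (G.int.pow 2)))
  obtain ⟨w, hw⟩ := int_of_integral (Algebra.isIntegral_trace (L := ℚ) (hz.mul hz))
  rw [hu0] at t0
  rw [hu1] at t1
  rw [hu2] at t2
  rw [hw, hu0, hu1, hu2] at t3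
  set A : ℤ := 686684 * u0 + 96200 * u1 + 2988 * u2 with hA
  set B : ℤ := 96200 * u0 + 413360 * u1 + 19142 * u2 with hB
  set C : ℤ := 2988 * u0 + 19142 * u1 + 896 * u2 with hC
  have hAa : (A : ℚ) = 1318132 * a := by rw [hA]; push_cast; rw [t0, t1, t2]; ring
  have hBb : (B : ℚ) = 1318132 * b := by rw [hB]; push_cast; rw [t0, t1, t2]; ring
  have hCc : (C : ℚ) = 1318132 * c := by rw [hC]; push_cast; rw [t0, t1, t2]; ring
  have hDw : 1318132 * w = A * u0 + B * u1 + C * u2 := by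
    have : (1318132 : ℚ) * w = A * u0 + B * u1 + C * u2 := by
      rw [hAa, hBb, hCc, t3]; ring
    exact_mod_cast this
  have sA : A ^ 2 = 1318132 * (686684 * w - u1 * (208320 * u1 + 9754 * u2) -
      u2 * (9754 * u1 + 460 * u2)) := by
    have : A ^ 2 = 686684 * (A * u0 + B * u1 + C * u2) - 1318132 * (u1 * (208320 * u1 + 9754 * u2)
        + u2 * (9754 * u1 + 460 * u2)) := by rw [hA, hB, hC]; ring
    rw [this, ← hDw]; ring
  have sB : B ^ 2 = 1318132 * (413360 * w - u0 * (208320 * u0 - 460 * u2) -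
      u2 * (-460 * u0 + 3 * u2)) := by
    have : B ^ 2 = 413360 * (A * u0 + B * u1 + C * u2) - 1318132 * (u0 * (208320 * u0 - 460 * u2)
        + u2 * (-460 * u0 + 3 * u2)) := by rw [hA, hB, hC]; ring
    rw [this, ← hDw]; ring
  have sC : C ^ 2 = 1318132 * (896 * w - u0 * (460 * u0 + 22 * u1) -
      u1 * (22 * u0 + 3 * u1)) := by
    have : C ^ 2 = 896 * (A * u0 + B * u1 + C * u2) - 1318132 * (u0 * (460 * u0 + 22 * u1)
        + u1 * (22 * u0 + 3 * u1)) := by rw [hA, hB, hC]; ring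
    rw [this, ← hDw]; ring
  obtain ⟨A', hA'⟩ := dvd_of_sq sA
  obtain ⟨B', hB'⟩ := dvd_of_sq sB
  obtain ⟨C', hC'⟩ := dvd_of_sq sC
  have ka : 4 * a = A' := by
    have : (329533 : ℚ) * (4 * a) = 329533 * A' := by
      rw [← show (A : ℚ) = 329533 * A' by rw [hA']; push_cast; ring, hAa]; ring
    exact mul_left_cancel₀ (by norm_num) this
  have kb : 4 * b = B' := by
    have : (329533 : ℚ) * (4 * b) = 329533 * B' := by
      rw [← show (B : ℚ) = 329533 * B' by rw [hB']; push_cast; ring, hBb]; ring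
    exact mul_left_cancel₀ (by norm_num) this
  have kc : 4 * c = C' := by
    have : (329533 : ℚ) * (4 * c) = 329533 * C' := by
      rw [← show (C : ℚ) = 329533 * C' by rw [hC']; push_cast; ring, hCc]; ring
    exact mul_left_cancel₀ (by norm_num) this
  have hmem : (2 : ℤ) ^ 2 • z ∈ Algebra.adjoin ℤ ({G.pb.gen} : Set K) := by
    rw [G.pb_gen]
    have h1 : (2 : ℤ) ^ 2 • z = (A' : K) + (B' : K) * ρ + (C' : K) * ρ ^ 2 := by
      have k1 : (A' : K) = 4 * (a : K) := by exact_mod_cast (congrArg (fun x : ℚ => (x : K)) ka).symm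
      have k2 : (B' : K) = 4 * (b : K) := by exact_mod_cast (congrArg (fun x : ℚ => (x : K)) kb).symm
      have k3 : (C' : K) = 4 * (c : K) := by exact_mod_cast (congrArg (fun x : ℚ => (x : K)) kc).symm
      rw [k1, k2, k3, hzc, zsmul_eq_mul]
      push_cast
      ring
    rw [h1]
    have hρ : ρ ∈ Algebra.adjoin ℤ ({ρ} : Set K) := Algebra.self_mem_adjoin_singleton ℤ ρ
    refine add_mem (add_mem ?_ (mul_mem ?_ hρ)) (mul_mem ?_ (pow_mem hρ 2)) <;>
      exact intCast_mem _ _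
  have h5 := mem_adjoin_of_smul_prime_pow_smul_of_minpoly_isEisensteinAt (B := G.pb)
    (p := (2 : ℤ)) Int.prime_two (by rw [G.pb_gen]; exact G.int) hz hmem
    (by rw [G.pb_gen, G.minpolyZ_eq]; exact gZ_eis)
  rw [G.pb_gen] at h5
  exact G.coords_adjoin h5

end Gen

end

end Q264.CF
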