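import Pool.Agent.Q264.CF4

/-!
Every totally positive integer is dominated by a totally positive unit.
-/

set_option autoImplicit false

namespace Q264.CF

open Polynomial NumberField

/-- totally positive -/
def TPos {K : Type} [Field K] (z : K) : Prop := ∀ φ : K →+* ℝ, 0 < φ z

section

variable {K : Type} [Field K] [NumberField K] {ρ : K}

omit [NumberField K] in
lemma cm (a b : 𝓞 K) : ((a * b : 𝓞 K) : K) = (a : K) * (b : K) := map_mul (algebraMap (𝓞 K) K) a b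

omit [NumberField K] in
lemma ca (a b : 𝓞 K) : ((a + b : 𝓞 K) : K) = (a : K) + (b : K) := map_add (algebraMap (𝓞 K) K) a b

omit [NumberField K] in
lemma cs (a b : 𝓞 K) : ((a - b : 𝓞 K) : K) = (a : K) - (b : K) := map_sub (algebraMap (𝓞 K) K) a b

omit [NumberField K] in
lemma cneg (a : 𝓞 K) : ((-a : 𝓞 K) : K) = -(a : K) := map_neg (algebraMap (𝓞 K) K) a

omit [NumberField K] in
lemma cpow (a : 𝓞 K) (n : ℕ) : ((a ^ n : 𝓞 K) : K) = (a : K) ^ n :=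
  map_pow (algebraMap (𝓞 K) K) a n

omit [NumberField K] in
lemma c1 : ((1 : 𝓞 K) : K) = 1 := map_one (algebraMap (𝓞 K) K)

omit [NumberField K] in
lemma cO (n : ℕ) [n.AtLeastTwo] : ((OfNat.ofNat n : 𝓞 K) : K) = OfNat.ofNat n :=
  map_ofNat (algebraMap (𝓞 K) K) n

omit [NumberField K] in
lemma TPos.mul {x y : K} (hx : TPos x) (hy : TPos y) : TPos (x * y) := fun φ => by
  rw [map_mul]; exact mul_pos (hx φ) (hy φ)

omit [NumberField K] in
lemma TPos.inv_unit {u : (𝓞 K)ˣ} (hu : TPos ((u : 𝓞 K) : K)) : TPos (((u⁻¹ : (𝓞 K)ˣ) : 𝓞 K) : K) := by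
  intro φ
  have h1 : ((u : 𝓞 K) : K) * (((u⁻¹ : (𝓞 K)ˣ) : 𝓞 K) : K) = 1 := by
    rw [← cm, Units.mul_inv, c1]
  have h2 := congrArg φ h1
  rw [map_mul, map_one] at h2
  have h3 := hu φ
  exact pos_of_mul_pos_right (by rw [h2]; norm_num) h3.le

namespace Gen

variable (G : Gen K ρ) {p q r : ℝ} (H : Roots p q r)

/-- `ρ` as an integer -/
noncomputable def O : 𝓞 K := ⟨ρ, G.int⟩

lemma O_rel : G.O ^ 3 + 22 * G.O ^ 2 + 12 * G.O - 34 = 0 := by
  apply RingOfIntegers.ext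
  rw [cs, ca, ca, cm, cm, cpow, cpow, cO, cO, cO]
  rw [show ((0 : 𝓞 K) : K) = 0 from map_zero (algebraMap (𝓞 K) K)]
  exact G.rel

/-- the unit `1 - ρ` -/
noncomputable def e1 : (𝓞 K)ˣ where
  val := 1 - G.O
  inv := 35 + 23 * G.O + G.O ^ 2
  val_inv := by linear_combination (-1 : 𝓞 K) * G.O_rel
  inv_val := by linear_combination (-1 : 𝓞 K) * G.O_rel

/-- the unit `ρ^2 + ρ - 1` -/
noncomputable def e2 : (𝓞 K)ˣ where
  val := -1 + G.O + G.O ^ 2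
  inv := 169 - 163 * G.O - 8 * G.O ^ 2
  val_inv := by linear_combination (5 - 8 * G.O) * G.O_rel
  inv_val := by linear_combination (5 - 8 * G.O) * G.O_rel

lemma v1 : ((G.e1 : 𝓞 K) : K) = 1 - ρ := by
  show ((1 - G.O : 𝓞 K) : K) = _
  rw [cs, c1]
  rfl

lemma v1i : (((G.e1⁻¹ : (𝓞 K)ˣ) : 𝓞 K) : K) = 35 + 23 * ρ + ρ ^ 2 := by
  show ((35 + 23 * G.O + G.O ^ 2 : 𝓞 K) : K) = _
  rw [ca, ca, cm, cpow, cO, cO]
  rfl

lemma v2 : ((G.e2 : 𝓞 K) : K) = -1 + ρ + ρ ^ 2 := by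
  show ((-1 + G.O + G.O ^ 2 : 𝓞 K) : K) = _
  rw [ca, ca, cneg, c1, cpow]
  rfl

lemma v2i : (((G.e2⁻¹ : (𝓞 K)ˣ) : 𝓞 K) : K) = 169 - 163 * ρ - 8 * ρ ^ 2 := by
  show ((169 - 163 * G.O - 8 * G.O ^ 2 : 𝓞 K) : K) = _
  rw [cs, cs, cm, cm, cpow, cO, cO, cO]
  rfl

include G H

lemma e1_pos : TPos ((G.e1 : 𝓞 K) : K) := by
  intro φ
  rw [G.v1, map_sub, map_one]
  have := H.p2; have := H.q2; have := H.r2
  norm_num at *
  rcases G.real_cases H φ with h | h | h <;> rw [h] <;> linarith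

lemma e2_pos : TPos ((G.e2 : 𝓞 K) : K) := by
  intro φ
  rw [G.v2, map_add, map_add, map_neg, map_one, map_pow]
  have := H.p1; have := H.q2; have := H.r2
  norm_num at *
  rcases G.real_cases H φ with h | h | h <;> rw [h] <;> nlinarith

/-- the key property -/
lemma dominate {x : K} (hd : ∀ m : 𝓞 K, ∃ n : ℤ, Algebra.trace ℚ K (x * m) = n) (hx : TPos x)
    {m : 𝓞 K} (hm : TPos (m : K)) :
    ∃ u : (𝓞 K)ˣ, TPos ((u : 𝓞 K) : K) ∧
      Algebra.trace ℚ K (x * ((u : 𝓞 K) : K)) ≤ Algebra.trace ℚ K (x * m) := by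
  classical
  -- a unit with minimal trace
  have hnat : ∀ u : (𝓞 K)ˣ, TPos ((u : 𝓞 K) : K) →
      ∃ n : ℕ, Algebra.trace ℚ K (x * ((u : 𝓞 K) : K)) = n := by
    intro u hu
    obtain ⟨n, hn⟩ := hd (u : 𝓞 K)
    have h1 := G.trace_pos H (hx.mul hu)
    rw [hn] at h1
    have h2 : 0 < n := by exact_mod_cast h1
    refine ⟨n.toNat, ?_⟩
    rw [hn]
    have : ((n.toNat : ℤ) : ℚ) = n := by rw [Int.toNat_of_nonneg h2.le]
    exact_mod_cast this.symm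
  have hone : TPos ((((1 : (𝓞 K)ˣ)) : 𝓞 K) : K) := by
    intro φ
    simp
  have hex : ∃ n : ℕ, ∃ u : (𝓞 K)ˣ, TPos ((u : 𝓞 K) : K) ∧
      Algebra.trace ℚ K (x * ((u : 𝓞 K) : K)) = n := by
    obtain ⟨n, hn⟩ := hnat 1 hone
    exact ⟨n, 1, hone, hn⟩
  obtain ⟨u0, hu0, hu0n⟩ := Nat.find_spec hex
  have hmin : ∀ v : (𝓞 K)ˣ, TPos ((v : 𝓞 K) : K) →
      Algebra.trace ℚ K (x * ((u0 : 𝓞 K) : K)) ≤ Algebra.trace ℚ K (x * ((v : 𝓞 K) : K)) := by
    intro v hv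
    obtain ⟨n, hn⟩ := hnat v hv
    rw [hu0n, hn]
    exact_mod_cast Nat.find_min' hex ⟨v, hv, hn⟩
  refine ⟨u0, hu0, ?_⟩
  -- normalise
  set y : K := x * ((u0 : 𝓞 K) : K) with hy
  set m' : 𝓞 K := m * ((u0⁻¹ : (𝓞 K)ˣ) : 𝓞 K) with hm'
  have hcancel : ((u0 : 𝓞 K) : K) * (((u0⁻¹ : (𝓞 K)ˣ) : 𝓞 K) : K) = 1 := by
    rw [← cm, Units.mul_inv, c1]
  have hym : y * (m' : K) = x * m := by
    rw [hy, hm', cm]
    linear_combination x * (m : K) * hcancel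
  have hm'pos : TPos (m' : K) := by
    rw [hm', cm]
    exact hm.mul hu0.inv_unit
  have hyd : ∀ n : 𝓞 K, ∃ k : ℤ, Algebra.trace ℚ K (y * n) = k := by
    intro n
    obtain ⟨k, hk⟩ := hd ((u0 : 𝓞 K) * n)
    refine ⟨k, ?_⟩
    rw [← hk, cm, hy]
    congr 1
    ring
  obtain ⟨t0, ht0⟩ := hyd 1
  obtain ⟨t1, ht1⟩ := hyd G.O
  obtain ⟨t2, ht2⟩ := hyd (G.O ^ 2)
  have ht0' : Algebra.trace ℚ K y = t0 := by rw [← ht0]; simp
  have ht1' : Algebra.trace ℚ K (y * ρ) = t1 := ht1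
  have ht2' : Algebra.trace ℚ K (y * ρ ^ 2) = t2 := by
    rw [← ht2, cpow]; rfl
  have htr : ∀ a b c : ℤ, Algebra.trace ℚ K (y * ((a : K) + (b : K) * ρ + (c : K) * ρ ^ 2)) =
      ((t0 * a + t1 * b + t2 * c : ℤ) : ℚ) := by
    intro a b c
    have k : ∀ (x : ℤ) (z : K), Algebra.trace ℚ K ((x : K) * z) = x * Algebra.trace ℚ K z := by
      intro x z
      have : (x : K) * z = (x : ℚ) • z := by rw [Algebra.smul_def]; simp
      rw [this, map_smul, smul_eq_mul]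
    have e : y * ((a : K) + (b : K) * ρ + (c : K) * ρ ^ 2) =
        (a : K) * y + (b : K) * (y * ρ) + (c : K) * (y * ρ ^ 2) := by ring
    rw [e, map_add, map_add, k, k, k, ht0', ht1', ht2']
    push_cast
    ring
  have hineq : ∀ (v : (𝓞 K)ˣ) (a b c : ℤ), TPos ((v : 𝓞 K) : K) →
      ((v : 𝓞 K) : K) = (a : K) + (b : K) * ρ + (c : K) * ρ ^ 2 →
      t0 ≤ t0 * a + t1 * b + t2 * c := by
    intro v a b c hv hvc
    have h1 : TPos ((((u0 * v : (𝓞 K)ˣ)) : 𝓞 K) : K) := by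
      rw [Units.val_mul, cm]
      exact hu0.mul hv
    have h2 := hmin _ h1
    rw [Units.val_mul, cm, ← mul_assoc, ← hy, hvc, htr, ht0'] at h2
    exact_mod_cast h2
  have P1 := G.e1_pos H
  have P2 := G.e2_pos H
  have c1 := hineq G.e1 1 (-1) 0 P1 (by rw [G.v1]; push_cast; ring)
  have c2 := hineq G.e2 (-1) 1 1 P2 (by rw [G.v2]; push_cast; ring)
  have c3 := hineq G.e1⁻¹ 35 23 1 P1.inv_unit (by rw [G.v1i]; push_cast; ring)
  have c4 := hineq G.e2⁻¹ 169 (-163) (-8) P2.inv_unit (by rw [G.v2i]; push_cast; ring)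
  have c5 := hineq (G.e1 * G.e2⁻¹) 441 (-428) (-21)
    (by rw [Units.val_mul, cm]; exact P1.mul P2.inv_unit)
    (by rw [Units.val_mul, cm, G.v1, G.v2i]; push_cast; linear_combination 8 * G.rel)
  have c6 := hineq (G.e2 * G.e1⁻¹) 33 22 1
    (by rw [Units.val_mul, cm]; exact P2.mul P1.inv_unit)
    (by rw [Units.val_mul, cm, G.v2, G.v1i]; push_cast; linear_combination (2 + ρ) * G.rel)
  obtain ⟨m0, m1, m2, hmc⟩ : ∃ a b c : ℤ, (m' : K) = (a : K) + (b : K) * ρ + (c : K) * ρ ^ 2 :=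
    G.int_coords H m'.isIntegral_coe
  have hTP : TP p q r m0 m1 m2 := by
    have k : ∀ z : ℝ, z ^ 3 + 22 * z ^ 2 + 12 * z - 34 = 0 → 0 < (m0 : ℝ) + m1 * z + m2 * z ^ 2 := by
      intro z hz
      obtain ⟨φ, hφ⟩ := G.exists_emb z hz
      have := hm'pos φ
      rw [hmc] at this
      simp only [map_add, map_mul, map_pow, map_intCast, hφ] at this
      exact this
    exact ⟨k p H.hp, k q H.hq, k r H.hr⟩
  have hmain := main_ineq H hTP (t0 := t0) (t1 := t1) (t2 := t2) (by linarith) (by linarith)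
    (by linarith) (by linarith) (by linarith) (by linarith)
  rw [← hym, hmc, htr, ht0']
  exact_mod_cast hmain

end Gen

end

end Q264.CF
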