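import Pool.Agent.Q264.CF5

/-!
Parity of characteristic polynomials, and existence of the field.
-/

set_option autoImplicit false

namespace Q264.CF

open Polynomial NumberField

section

variable {K : Type} [Field K] [NumberField K] {ρ : K}

/-- a monic cubic with integer coefficients -/
noncomputable def cub (E1 E2 E3 : ℤ) : ℚ[X] := X ^ 3 + C (-(E1 : ℚ)) * X ^ 2 + C (E2 : ℚ) * X + C (-(E3 : ℚ))

lemma cub_natDegree (E1 E2 E3 : ℤ) : (cub E1 E2 E3).natDegree = 3 := by
  unfold cub; compute_degree!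

lemma cub_monic (E1 E2 E3 : ℤ) : (cub E1 E2 E3).Monic := by
  unfold cub; monicity!

lemma cub_coeff2 (E1 E2 E3 : ℤ) : (cub E1 E2 E3).coeff 2 = -(E1 : ℚ) := by
  unfold cub
  simp only [coeff_add, coeff_C_mul, coeff_X_pow, coeff_C, coeff_X]
  norm_num

lemma cub_coeff1 (E1 E2 E3 : ℤ) : (cub E1 E2 E3).coeff 1 = (E2 : ℚ) := by
  unfold cub
  simp only [coeff_add, coeff_C_mul, coeff_X_pow, coeff_C, coeff_X]
  norm_num

lemma cub_coeff0 (E1 E2 E3 : ℤ) : (cub E1 E2 E3).coeff 0 = -(E3 : ℚ) := by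
  unfold cub
  simp only [coeff_add, coeff_C_mul, coeff_X_pow, coeff_C, coeff_X]
  norm_num

lemma cub_irr {E1 E2 : ℤ} (h1 : 1 - E1 + E2 - 1 ≠ 0) (h2 : -1 - E1 - E2 - 1 ≠ 0) :
    Irreducible (cub E1 E2 1) := by
  rw [(cub_monic E1 E2 1).irreducible_iff_roots_eq_zero_of_degree_le_three
    (by rw [cub_natDegree]; norm_num) (by rw [cub_natDegree]), Multiset.eq_zero_iff_forall_notMem]
  intro x hx
  have h3 : (cub E1 E2 1).IsRoot x := isRoot_of_mem_roots hx
  have h4 : x ^ 3 - E1 * x ^ 2 + E2 * x - 1 = 0 := by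
    have := h3.eq_zero
    unfold cub at this
    simp at this
    linear_combination this
  have hint : IsIntegral ℤ x := by
    refine ⟨X ^ 3 + C (-E1) * X ^ 2 + C E2 * X + C (-1), by monicity!, ?_⟩
    simp only [eval₂_add, eval₂_mul, eval₂_pow, eval₂_X, eval₂_C]
    simp only [eq_intCast]
    push_cast
    linear_combination h4
  obtain ⟨n, rfl⟩ := Gen.int_of_integral hint
  have h5 : n ^ 3 - E1 * n ^ 2 + E2 * n - 1 = 0 := by exact_mod_cast h4
  have h6 : n ∣ 1 := ⟨n ^ 2 - E1 * n + E2, by linear_combination -h5⟩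
  rcases Int.isUnit_iff.1 (isUnit_of_dvd_one h6) with h | h
  · subst h
    apply h1
    linear_combination h5
  · subst h
    apply h2
    linear_combination h5

namespace Gen

variable (G : Gen K ρ) {p q r : ℝ} (H : Roots p q r)

include G

/-- characteristic polynomial of an element of `ℤ[ρ]` -/
lemma charpoly (a b c : ℤ) : ∃ e1 e2 e3 : ℤ, (2 ∣ e1 - e3) ∧ (2 ∣ e2 - e3) ∧
    ∀ α : K, α = (a : K) + (b : K) * ρ + (c : K) * ρ ^ 2 →
      α ^ 3 - (e1 : K) * α ^ 2 + (e2 : K) * α - (e3 : K) = 0 := by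
  refine ⟨3 * a - 22 * b + 460 * c,
    (a * (a - 12 * c) - 34 * b * c) + (a * (a - 22 * b + 472 * c) - c * (34 * b - 748 * c)) +
      ((a - 12 * c) * (a - 22 * b + 472 * c) - (b - 22 * c) * (-12 * b + 298 * c)),
    a * ((a - 12 * c) * (a - 22 * b + 472 * c) - (b - 22 * c) * (-12 * b + 298 * c)) -
      b * (34 * c * (a - 22 * b + 472 * c) - (b - 22 * c) * (34 * b - 748 * c)) +
      c * (34 * c * (-12 * b + 298 * c) - (a - 12 * c) * (34 * b - 748 * c)), ?_, ?_, ?_⟩
  · have h : ∀ a : ℤ, ∃ k, a ^ 3 - a = 2 * k := fun a => by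
      rcases Int.even_or_odd' a with ⟨k, hk | hk⟩
      · exact ⟨4 * k ^ 3 - k, by rw [hk]; ring⟩
      · exact ⟨4 * k ^ 3 + 6 * k ^ 2 + 2 * k, by rw [hk]; ring⟩
    obtain ⟨k, hk⟩ := h a
    have ha : a ^ 3 = a + 2 * k := by linarith
    refine ⟨a - 11 * b + 230 * c - k - (a * ((a - 12 * c) * (a - 22 * b + 472 * c) - (b - 22 * c) * (-12 * b + 298 * c)) -
      b * (34 * c * (a - 22 * b + 472 * c) - (b - 22 * c) * (34 * b - 748 * c)) +
      c * (34 * c * (-12 * b + 298 * c) - (a - 12 * c) * (34 * b - 748 * c)) - a ^ 3) / 2, ?_⟩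
    have hd : (2 : ℤ) ∣ (a * ((a - 12 * c) * (a - 22 * b + 472 * c) - (b - 22 * c) * (-12 * b + 298 * c)) -
      b * (34 * c * (a - 22 * b + 472 * c) - (b - 22 * c) * (34 * b - 748 * c)) +
      c * (34 * c * (-12 * b + 298 * c) - (a - 12 * c) * (34 * b - 748 * c)) - a ^ 3) := by
      refine ⟨a * (a * (- 11 * b + 236 * c) - 6 * c * (a - 22 * b + 472 * c) - (b - 22 * c) * (-6 * b + 149 * c)) -
        b * (17 * c * (a - 22 * b + 472 * c) - (b - 22 * c) * (17 * b - 374 * c)) +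
        c * (17 * c * (-12 * b + 298 * c) - (a - 12 * c) * (17 * b - 374 * c)), by ring⟩
    obtain ⟨l, hl⟩ := hd
    rw [hl, Int.mul_ediv_cancel_left _ (by norm_num)]
    linear_combination -hl - ha
  · have h : ∀ a : ℤ, ∃ k, 3 * a ^ 2 - a ^ 3 = 2 * k := fun a => by
      rcases Int.even_or_odd' a with ⟨k, hk | hk⟩
      · exact ⟨6 * k ^ 2 - 4 * k ^ 3, by rw [hk]; ring⟩
      · exact ⟨-4 * k ^ 3 + 3 * k + 1, by rw [hk]; ring⟩
    obtain ⟨k, hk⟩ := h a
    refine ⟨k + ((a * (- 6 * c) - 17 * b * c) + (a * (- 11 * b + 236 * c) - c * (17 * b - 374 * c)) +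
      ((a * (- 11 * b + 236 * c) - 6 * c * (a - 22 * b + 472 * c)) - (b - 22 * c) * (-6 * b + 149 * c))) -
      (a * (a * (- 11 * b + 236 * c) - 6 * c * (a - 22 * b + 472 * c) - (b - 22 * c) * (-6 * b + 149 * c)) -
        b * (17 * c * (a - 22 * b + 472 * c) - (b - 22 * c) * (17 * b - 374 * c)) +
        c * (17 * c * (-12 * b + 298 * c) - (a - 12 * c) * (17 * b - 374 * c))), ?_⟩
    linear_combination hk
  · intro α hα
    have R1 : (α - a) * 1 - b * ρ - c * ρ ^ 2 = 0 := by rw [hα]; ring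
    have R2 : -34 * (c : K) + (α - a + 12 * c) * ρ + (-b + 22 * c) * ρ ^ 2 = 0 := by
      rw [hα]; linear_combination (c : K) * G.rel
    have R3 : (-34 * b + 748 * c : K) + (12 * b - 298 * c) * ρ +
        (α - a + 22 * b - 472 * c) * ρ ^ 2 = 0 := by
      rw [hα]; linear_combination ((b : K) - 22 * c + c * ρ) * G.rel
    push_cast
    linear_combination
      ((α - a + 12 * c) * (α - a + 22 * b - 472 * c) - (-b + 22 * c) * (12 * b - 298 * c)) * R1 -
      ((-b : K) * (α - a + 22 * b - 472 * c) - (-c) * (12 * b - 298 * c)) * R2 +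
      ((-b : K) * (-b + 22 * c) - (-c) * (α - a + 12 * c)) * R3

include H

/-- an irreducible cubic with a root in `K` and constant term `-1` has odd coefficients -/
lemma parity {E1 E2 : ℤ} (hirr : Irreducible (cub E1 E2 1)) {α : K}
    (hα : α ^ 3 - (E1 : K) * α ^ 2 + (E2 : K) * α - 1 = 0) : 2 ∣ E1 - 1 ∧ 2 ∣ E2 - 1 := by
  have hint : IsIntegral ℤ α := by
    refine ⟨X ^ 3 + C (-E1) * X ^ 2 + C E2 * X + C (-1), by monicity!, ?_⟩
    simp only [eval₂_add, eval₂_mul, eval₂_pow, eval₂_X, eval₂_C]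
    simp only [eq_intCast]
    push_cast
    linear_combination hα
  obtain ⟨a, b, c, habc⟩ := G.int_coords H hint
  obtain ⟨e1, e2, e3, h1, h2, h3⟩ := G.charpoly a b c
  have h4 := h3 α habc
  have hmin : minpoly ℚ α = cub E1 E2 1 := by
    refine (minpoly.eq_of_irreducible_of_monic hirr ?_ (cub_monic _ _ _)).symm
    unfold cub
    simp
    linear_combination hα
  have hdvd : cub E1 E2 1 ∣ cub e1 e2 e3 := by
    rw [← hmin]
    apply minpoly.dvd
    unfold cub
    simp
    linear_combination h4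
  have heq : cub E1 E2 1 = cub e1 e2 e3 :=
    (eq_of_monic_of_dvd_of_natDegree_le (cub_monic _ _ _) (cub_monic _ _ _) hdvd
      (by rw [cub_natDegree, cub_natDegree])).symm
  have k2 := congrArg (fun f : ℚ[X] => f.coeff 2) heq
  have k1 := congrArg (fun f : ℚ[X] => f.coeff 1) heq
  have k0 := congrArg (fun f : ℚ[X] => f.coeff 0) heq
  simp only [cub_coeff2, cub_coeff1, cub_coeff0] at k2 k1 k0
  have j1 : E1 = e1 := by exact_mod_cast neg_injective k2
  have j2 : E2 = e2 := by exact_mod_cast k1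
  have j3 : 1 = e3 := by exact_mod_cast neg_injective k0
  rw [j1, j2, j3]
  exact ⟨h1, h2⟩

end Gen

end

instance : Fact (Irreducible gQ) := ⟨gQ_irr⟩

/-- the field exists -/
lemma exists_gen : ∃ (K : Type) (_ : Field K) (_ : NumberField K) (ρ : K), Gen K ρ := by
  refine ⟨AdjoinRoot gQ, inferInstance, inferInstance, AdjoinRoot.root gQ, ?_, ?_⟩
  · have h : AdjoinRoot.mk gQ gQ = 0 := AdjoinRoot.mk_self
    have h2 : gQ = X ^ 3 + 22 * X ^ 2 + 12 * X - 34 := by
      unfold gQ gZ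
      simp
      ring
    have h3 : AdjoinRoot.mk gQ (X ^ 3 + 22 * X ^ 2 + 12 * X - 34) = 0 := by
      rw [← h2]; exact h
    rw [map_sub, map_add, map_add, map_mul, map_mul, map_pow, map_pow, AdjoinRoot.mk_X] at h3
    have e1 : AdjoinRoot.mk gQ 22 = 22 := map_ofNat (AdjoinRoot.mk gQ) 22
    have e2 : AdjoinRoot.mk gQ 12 = 12 := map_ofNat (AdjoinRoot.mk gQ) 12
    have e3 : AdjoinRoot.mk gQ 34 = 34 := map_ofNat (AdjoinRoot.mk gQ) 34
    rw [e1, e2, e3] at h3
    exact h3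
  · rw [eq_top_iff]
    rintro x -
    obtain ⟨f, rfl⟩ := AdjoinRoot.mk_surjective x
    have hC : ∀ a : ℚ, AdjoinRoot.mk gQ (C a) ∈
        Algebra.adjoin ℚ ({AdjoinRoot.root gQ} : Set (AdjoinRoot gQ)) := by
      intro a
      have : AdjoinRoot.mk gQ (C a) = algebraMap ℚ (AdjoinRoot gQ) a :=
        (eq_ratCast ((AdjoinRoot.mk gQ).comp C) a).trans
          (eq_ratCast (algebraMap ℚ (AdjoinRoot gQ)) a).symm
      rw [this]
      exact Subalgebra.algebraMap_mem _ a
    have hX := Algebra.self_mem_adjoin_singleton ℚ (AdjoinRoot.root gQ)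
    induction f using Polynomial.induction_on with
    | C a => exact hC a
    | add f g hf hg => rw [map_add]; exact add_mem hf hg
    | monomial n a h =>
      rw [map_mul, map_pow, AdjoinRoot.mk_X]
      exact mul_mem (hC a) (pow_mem hX _)

end Q264.CF
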