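import Mathlib
import Pool.Agent.Q264.CMTable

/-!
# The parity-perturbed Conway-Mallows sequence does not have density `1 / (2 φ)`
-/

set_option autoImplicit false

namespace Q264.CM

/-- the sequence, as a total function -/
def b (n : ℤ) : ℤ := if n ≤ 2 then 1 else b (min (b (n - 1)) (n - 1)) + b (n - max 1 (b (n - 1))) + par n
termination_by n.toNat
decreasing_by all_goals omega

theorem b_small (n : ℤ) (hn : n ≤ 2) : b n = 1 := by rw [b, if_pos hn]

theorem par_cases (n : ℤ) : (n % 2 = 0 ∧ par n = 1) ∨ (n % 2 = 1 ∧ par n = -1) := by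
  unfold par
  rcases Int.emod_two_eq_zero_or_one n with h | h
  · left; rw [if_pos h]; exact ⟨h, rfl⟩
  · right; rw [if_neg (by omega)]; exact ⟨h, rfl⟩

theorem b_facts : ∀ (k : ℕ) (n : ℤ), n ≤ k → 1 ≤ b n ∧ b n % 2 = 1 := by
  intro k
  induction k with
  | zero =>
    intro n hn
    rw [b_small n (by push_cast at hn; omega)]
    norm_num
  | succ k ih =>
    intro n hn
    rcases le_or_gt n 2 with h | h
    · rw [b_small n h]; norm_num
    · rw [b, if_neg (by omega)]
      push_cast at hn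
      have h1 := ih (min (b (n - 1)) (n - 1)) (by omega)
      have h2 := ih (n - max 1 (b (n - 1))) (by omega)
      rcases par_cases n with h3 | h3 <;> rw [h3.2] <;> omega

theorem b_pos (n : ℤ) : 1 ≤ b n := (b_facts n.toNat n (by omega)).1
theorem b_odd (n : ℤ) : b n % 2 = 1 := (b_facts n.toNat n (by omega)).2

theorem b_rec' (n : ℤ) (hn : 3 ≤ n) (h : b (n - 1) ≤ n - 1) : b n = b (b (n - 1)) + b (n - b (n - 1)) + par n := by
  conv_lhs => rw [b]
  rw [if_neg (by omega), max_eq_right (b_pos _), min_eq_left h]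

theorem bt_rec (n : ℕ) (h1 : 3 ≤ n) (h2 : n ≤ 15100) : 1 ≤ bt (n - 1) ∧ bt (n - 1) ≤ n - 1 ∧
    bt n + 2 * (n % 2) = bt (bt (n - 1)) + bt (n - bt (n - 1)) + 1 := by
  have h := allP_spec recP 14 3 rec_all n h1 (by norm_num; omega)
  unfold recP at h
  rw [Bool.or_eq_true, Nat.ble_eq, Bool.and_eq_true, Bool.and_eq_true, Nat.ble_eq, Nat.ble_eq, Nat.beq_eq] at h
  rcases h with h | h
  · omega
  · exact ⟨h.1.1, h.1.2, h.2⟩

theorem b_eq_bt : ∀ n : ℕ, n ≤ 15100 → b n = bt n := by
  intro n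
  induction n using Nat.strong_induction_on with
  | _ n ih =>
    intro hn
    rcases Nat.lt_or_ge n 3 with h | h
    · rw [b_small _ (by omega)]
      obtain ⟨-, -, -, v0, v1, v2⟩ := vals
      interval_cases n
      · rw [v0]; rfl
      · rw [v1]; rfl
      · rw [v2]; rfl
    · obtain ⟨h1, h2, h3⟩ := bt_rec n h hn
      have e1 : b ((n : ℤ) - 1) = bt (n - 1) := by
        have := ih (n - 1) (by omega) (by omega)
        rw [← this]
        congr 1
        omega
      have e2 := ih (bt (n - 1)) (by omega) (by omega)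
      have e3 := ih (n - bt (n - 1)) (by omega) (by omega)
      rw [b_rec' n (by omega) (by rw [e1]; omega), e1, e2,
        show ((n : ℤ) - (bt (n - 1) : ℕ)) = ((n - bt (n - 1) : ℕ) : ℤ) by omega, e3]
      rcases par_cases n with h4 | h4 <;> rw [h4.2] <;> omega

/-- the crude bounds -/
theorem crude : ∀ (k : ℕ) (n : ℤ), 1000 ≤ n → n ≤ k → 28 * n + 100 ≤ 100 * b n ∧ 1000 * b n + 1000 ≤ 321 * n := by
  intro k
  induction k with
  | zero => intro n h1 h2; push_cast at h2; omega
  | succ k ih =>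
    intro n h1 h2
    push_cast at h2
    rcases le_or_gt n 5000 with h3 | h3
    · obtain ⟨m, rfl⟩ : ∃ m : ℕ, n = m := ⟨n.toNat, by omega⟩
      have h := allP_spec crudeP 12 1000 crude_all m (by omega) (by norm_num; omega)
      unfold crudeP at h
      rw [Bool.and_eq_true, Nat.ble_eq, Nat.ble_eq] at h
      rw [b_eq_bt m (by omega)]
      omega
    · obtain ⟨g1, g2⟩ := ih (n - 1) (by omega) (by omega)
      obtain ⟨p1, p2⟩ := ih (b (n - 1)) (by omega) (by omega)
      obtain ⟨r1, r2⟩ := ih (n - b (n - 1)) (by omega) (by omega)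
      rw [b_rec' n (by omega) (by omega)]
      rcases par_cases n with h4 | h4 <;> rw [h4.2] <;> constructor <;> omega

theorem crude_all' (n : ℤ) (h : 1000 ≤ n) : 28 * n + 100 ≤ 100 * b n ∧ 1000 * b n + 1000 ≤ 321 * n :=
  crude n.toNat n h (by omega)

theorem b_le (n : ℤ) (hn : 1 ≤ n) : b n ≤ n := by
  rcases le_or_gt 1000 n with h | h
  · have := (crude_all' n h).2
    omega
  · obtain ⟨m, rfl⟩ : ∃ m : ℕ, n = m := ⟨n.toNat, by omega⟩
    have h := allP_spec _ 10 1 small_all m (by omega) (by norm_num; omega)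
    rw [Nat.ble_eq] at h
    rw [b_eq_bt m (by omega)]
    exact_mod_cast h

theorem b_rec (n : ℤ) (hn : 3 ≤ n) : b n = b (b (n - 1)) + b (n - b (n - 1)) + par n :=
  b_rec' n hn (b_le _ (by omega))

/-- the special points -/
structure Lv (t : ℤ → ℤ) (lo hi C D N : ℤ) : Prop where
  big : 7000 ≤ N
  even : N % 2 = 0
  exact : ∀ j, lo ≤ j → j ≤ hi → b (N + j) = b N + t j
  low : ∀ n, 1000 ≤ n → n ≤ N - 15 → 100 * b N ≤ 100 * b n + 69 * (N - n) + C
  upp : ∀ n, 1000 ≤ n → n ≤ N - 15 → 100 * b n + 30 * (N - n) + D ≤ 100 * b N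
  ratio : 317 * N + 3000 ≤ 1000 * b N

abbrev LX (N : ℤ) : Prop := Lv tX (-33) 9 160 240 N
abbrev LY (N : ℤ) : Prop := Lv tY (-50) 0 (-105) 315 N

theorem setX_ge (k : ℕ) (hk : 2 ≤ k) (d : ℤ) (hd : d ∈ setX k) : d = tX (-36 + k) := by
  unfold setX at hd
  rw [if_neg (by omega), if_neg (by omega)] at hd
  simpa using hd

theorem setY_ge (k : ℕ) (hk : 5 ≤ k) (d : ℤ) (hd : d ∈ setY k) : d = tY (-60 + k) := by
  unfold setY at hd
  rw [if_neg (by omega), if_neg (by omega), if_neg (by omega), if_neg (by omega), if_neg (by omega)] at hd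
  simpa using hd

theorem stepX {N1 N3 : ℤ} (h1 : LY N1) (h3 : LY N3) (hb : b N1 + b N3 = N3 + 2) (hbig : 20000 ≤ N1 + N3) :
    LX (N1 + N3 - 14) ∧ b (N1 + N3 - 14) = N3 - 5 := by
  obtain ⟨N, hN⟩ : ∃ N, N = N1 + N3 - 14 := ⟨_, rfl⟩
  rw [← hN]
  have e1 := h1.even
  have e3 := h3.even
  have r1 := h1.ratio
  have r3 := h3.ratio
  have c1 := crude_all' N1 (by linarith [h1.big])
  have c3 := crude_all' N3 (by linarith [h3.big])
  -- the linear bounds to the left of `N - 36`
  have lin : ∀ (k : ℕ) (n : ℤ), 1000 ≤ n → n ≤ k → n ≤ N - 36 →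
      100 * (N3 - 5) ≤ 100 * b n + 69 * (N - n) + 160 ∧ 100 * b n + 30 * (N - n) + 240 ≤ 100 * (N3 - 5) := by
    intro k
    induction k with
    | zero => intro n h1 h2; push_cast at h2; omega
    | succ k ih =>
      intro n hn1 hn2 hn3
      push_cast at hn2
      rcases le_or_gt (5 * n) (4 * N) with h | h
      · have c := crude_all' n hn1
        constructor <;> omega
      · obtain ⟨i1, i2⟩ := ih (n - 1) (by omega) (by omega) (by omega)
        have c := crude_all' (n - 1) (by omega)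
        have hp := h3.low (b (n - 1)) (by omega) (by omega)
        have hp' := h3.upp (b (n - 1)) (by omega) (by omega)
        have hr := h1.low (n - b (n - 1)) (by omega) (by omega)
        have hr' := h1.upp (n - b (n - 1)) (by omega) (by omega)
        have hrec := b_rec n (by omega)
        rcases par_cases n with h4 | h4 <;> rw [h4.2] at hrec <;> constructor <;> omega
  -- the trajectory
  have traj : ∀ k : ℕ, k ≤ 45 → b (N - 36 + k) - (N3 - 5) ∈ setX k := by
    intro k
    induction k with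
    | zero =>
      intro _
      obtain ⟨i1, i2⟩ := lin (N - 36).toNat (N - 36) (by omega) (by omega) le_rfl
      have hodd := b_odd (N - 36)
      simp only [Nat.cast_zero, add_zero]
      obtain ⟨d, hd⟩ : ∃ d, d = b (N - 36) - (N3 - 5) := ⟨_, rfl⟩
      rw [← hd]
      have : d = -26 ∨ d = -24 ∨ d = -22 ∨ d = -20 ∨ d = -18 ∨ d = -16 ∨ d = -14 := by omega
      unfold setX
      rw [if_pos rfl]
      rcases this with h | h | h | h | h | h | h <;> rw [h] <;> simp
    | succ k ih =>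
      intro hk
      have hd := ih (by omega)
      obtain ⟨d, hd'⟩ : ∃ d, d = b (N - 36 + k) - (N3 - 5) := ⟨_, rfl⟩
      rw [← hd'] at hd
      obtain ⟨a1, a2, a3, a4, a5⟩ := stepX_all k (by omega) d hd
      have hrec := b_rec (N - 36 + (k + 1 : ℕ)) (by omega)
      rw [show N - 36 + ((k + 1 : ℕ) : ℤ) - 1 = N - 36 + k by push_cast; ring,
        show b (N - 36 + k) = N3 + (-5 + d) by omega,
        show N - 36 + ((k + 1 : ℕ) : ℤ) - (N3 + (-5 + d)) = N1 + (-9 + (-35 + (k : ℤ)) - d) by push_cast; omega,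
        h3.exact _ a1 a2, h1.exact _ a3 a4] at hrec
      have hpar : par (N - 36 + (k + 1 : ℕ)) = par (-35 + k) := by
        unfold par
        congr 1
        push_cast
        rw [eq_iff_iff]
        omega
      rw [hpar] at hrec
      have : b (N - 36 + (k + 1 : ℕ)) - (N3 - 5) = 7 + tY (-5 + d) + tY (-9 + (-35 + (k : ℤ)) - d) + par (-35 + k) := by
        omega
      rw [this]
      exact a5
  -- the exact values
  have exact' : ∀ j : ℤ, -34 ≤ j → j ≤ 9 → b (N + j) = N3 - 5 + tX j := by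
    intro j hj1 hj2
    obtain ⟨k, hk⟩ : ∃ k : ℕ, (k : ℤ) = j + 36 := ⟨(j + 36).toNat, by omega⟩
    have h := setX_ge k (by omega) _ (traj k (by omega))
    rw [show N - 36 + (k : ℤ) = N + j by omega, show -36 + (k : ℤ) = j by omega] at h
    omega
  have hval : b N = N3 - 5 := by
    have := exact' 0 (by omega) (by omega)
    rw [add_zero, tX_zero, add_zero] at this
    exact this
  have lin' : ∀ n : ℤ, 1000 ≤ n → n ≤ N - 15 →
      100 * (N3 - 5) ≤ 100 * b n + 69 * (N - n) + 160 ∧ 100 * b n + 30 * (N - n) + 240 ≤ 100 * (N3 - 5) := by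
    intro n hn1 hn2
    rcases le_or_gt n (N - 36) with h | h
    · exact lin n.toNat n hn1 (by omega) h
    · obtain ⟨k, hk⟩ : ∃ k : ℕ, (k : ℤ) = n - (N - 36) := ⟨(n - (N - 36)).toNat, by omega⟩
      have h2 := linX_all k (by omega) _ (traj k (by omega))
      rw [show N - 36 + (k : ℤ) = n by omega] at h2
      obtain ⟨h3, h4⟩ := h2
      constructor <;> omega
  refine ⟨⟨?_, ?_, ?_, ?_, ?_, ?_⟩, hval⟩
  · omega
  · omega
  · intro j hj1 hj2
    rw [exact' j (by omega) hj2, hval]
  · intro n hn1 hn2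
    rw [hval]
    exact (lin' n hn1 hn2).1
  · intro n hn1 hn2
    rw [hval]
    exact (lin' n hn1 hn2).2
  · rw [hval]
    omega

theorem stepY {N1 N3 : ℤ} (h1 : LX N1) (h3 : LX N3) (hb : b N1 + b N3 = N3 + 4) (hbig : 20000 ≤ N1 + N3) :
    LY (N1 + N3 + 12) ∧ b (N1 + N3 + 12) = N3 + 7 := by
  obtain ⟨N, hN⟩ : ∃ N, N = N1 + N3 + 12 := ⟨_, rfl⟩
  rw [← hN]
  have e1 := h1.even
  have e3 := h3.even
  have r1 := h1.ratio
  have r3 := h3.ratio
  have c1 := crude_all' N1 (by linarith [h1.big])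
  have c3 := crude_all' N3 (by linarith [h3.big])
  -- the linear bounds to the left of `N - 60`
  have lin : ∀ (k : ℕ) (n : ℤ), 1000 ≤ n → n ≤ k → n ≤ N - 60 →
      100 * (N3 + 7) ≤ 100 * b n + 69 * (N - n) - 105 ∧ 100 * b n + 30 * (N - n) + 315 ≤ 100 * (N3 + 7) := by
    intro k
    induction k with
    | zero => intro n h1 h2; push_cast at h2; omega
    | succ k ih =>
      intro n hn1 hn2 hn3
      push_cast at hn2
      rcases le_or_gt (5 * n) (4 * N) with h | h
      · have c := crude_all' n hn1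
        constructor <;> omega
      · obtain ⟨i1, i2⟩ := ih (n - 1) (by omega) (by omega) (by omega)
        have c := crude_all' (n - 1) (by omega)
        have hodd := b_odd (n - 1)
        have hR : n - b (n - 1) ≤ N1 - 15 := by
          have hz : n = N - 60 ∨ n = N - 61 ∨ n = N - 62 ∨ n = N - 63 ∨ n ≤ N - 64 := by omega
          rcases hz with hz | hz | hz | hz | hz
          · rw [hz] at i1 hodd ⊢; omega
          · rw [hz] at i1 hodd ⊢; omega
          · rw [hz] at i1 hodd ⊢; omega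
          · rw [hz] at i1 hodd ⊢; omega
          · omega
        have hp := h3.low (b (n - 1)) (by omega) (by omega)
        have hp' := h3.upp (b (n - 1)) (by omega) (by omega)
        have hr := h1.low (n - b (n - 1)) (by omega) hR
        have hr' := h1.upp (n - b (n - 1)) (by omega) hR
        have hrec := b_rec n (by omega)
        rcases par_cases n with h4 | h4 <;> rw [h4.2] at hrec <;> constructor <;> omega
  -- the trajectory
  have traj : ∀ k : ℕ, k ≤ 60 → b (N - 60 + k) - (N3 + 7) ∈ setY k := by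
    intro k
    induction k with
    | zero =>
      intro _
      obtain ⟨i1, i2⟩ := lin (N - 60).toNat (N - 60) (by omega) (by omega) le_rfl
      have hodd := b_odd (N - 60)
      simp only [Nat.cast_zero, add_zero]
      obtain ⟨d, hd⟩ : ∃ d, d = b (N - 60) - (N3 + 7) := ⟨_, rfl⟩
      rw [← hd]
      have : d = -40 ∨ d = -38 ∨ d = -36 ∨ d = -34 ∨ d = -32 ∨ d = -30 ∨ d = -28 ∨ d = -26 ∨ d = -24 ∨ d = -22 := by
        omega
      unfold setY
      rw [if_pos rfl]
      rcases this with h | h | h | h | h | h | h | h | h | h <;> rw [h] <;> simp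
    | succ k ih =>
      intro hk
      have hd := ih (by omega)
      obtain ⟨d, hd'⟩ : ∃ d, d = b (N - 60 + k) - (N3 + 7) := ⟨_, rfl⟩
      rw [← hd'] at hd
      obtain ⟨a1, a2, a3, a4, a5⟩ := stepY_all k (by omega) d hd
      have hrec := b_rec (N - 60 + (k + 1 : ℕ)) (by omega)
      rw [show N - 60 + ((k + 1 : ℕ) : ℤ) - 1 = N - 60 + k by push_cast; ring,
        show b (N - 60 + k) = N3 + (7 + d) by omega,
        show N - 60 + ((k + 1 : ℕ) : ℤ) - (N3 + (7 + d)) = N1 + (5 + (-59 + (k : ℤ)) - d) by push_cast; omega,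
        h3.exact _ a1 a2, h1.exact _ a3 a4] at hrec
      have hpar : par (N - 60 + (k + 1 : ℕ)) = par (-59 + k) := by
        unfold par
        congr 1
        push_cast
        rw [eq_iff_iff]
        omega
      rw [hpar] at hrec
      have : b (N - 60 + (k + 1 : ℕ)) - (N3 + 7) = -3 + tX (7 + d) + tX (5 + (-59 + (k : ℤ)) - d) + par (-59 + k) := by
        omega
      rw [this]
      exact a5
  -- the exact values
  have exact' : ∀ j : ℤ, -55 ≤ j → j ≤ 0 → b (N + j) = N3 + 7 + tY j := by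
    intro j hj1 hj2
    obtain ⟨k, hk⟩ : ∃ k : ℕ, (k : ℤ) = j + 60 := ⟨(j + 60).toNat, by omega⟩
    have h := setY_ge k (by omega) _ (traj k (by omega))
    rw [show N - 60 + (k : ℤ) = N + j by omega, show -60 + (k : ℤ) = j by omega] at h
    omega
  have hval : b N = N3 + 7 := by
    have := exact' 0 (by omega) (by omega)
    rw [add_zero, tY_zero, add_zero] at this
    exact this
  have lin' : ∀ n : ℤ, 1000 ≤ n → n ≤ N - 15 →
      100 * (N3 + 7) ≤ 100 * b n + 69 * (N - n) - 105 ∧ 100 * b n + 30 * (N - n) + 315 ≤ 100 * (N3 + 7) := by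
    intro n hn1 hn2
    rcases le_or_gt n (N - 60) with h | h
    · exact lin n.toNat n hn1 (by omega) h
    · obtain ⟨k, hk⟩ : ∃ k : ℕ, (k : ℤ) = n - (N - 60) := ⟨(n - (N - 60)).toNat, by omega⟩
      have h2 := linY_all k (by omega) _ (traj k (by omega))
      rw [show N - 60 + (k : ℤ) = n by omega] at h2
      obtain ⟨h3, h4⟩ := h2
      constructor <;> omega
  refine ⟨⟨?_, ?_, ?_, ?_, ?_, ?_⟩, hval⟩
  · omega
  · omega
  · intro j hj1 hj2
    rw [exact' j (by omega) hj2, hval]
  · intro n hn1 hn2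
    rw [hval]
    have := (lin' n hn1 hn2).1
    omega
  · intro n hn1 hn2
    rw [hval]
    exact (lin' n hn1 hn2).2
  · rw [hval]
    omega

/-! ### The special points -/

theorem base14 : LX 7006 ∧ b 7006 = 2227 := by
  obtain ⟨v14, v15, v16, -⟩ := vals
  have hv : b 7006 = 2227 := by
    have := b_eq_bt 7006 (by norm_num)
    rw [v14] at this
    exact_mod_cast this
  refine ⟨⟨by norm_num, by norm_num, fun j h1 h2 => ?_, fun n h1 h2 => ?_, fun n h1 h2 => ?_, ?_⟩, hv⟩
  · rw [hv]
    unfold tX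
    have := b_eq_bt (7006 + j).toNat (by omega)
    rw [show (((7006 + j).toNat : ℕ) : ℤ) = 7006 + j by omega] at this
    rw [this]
    ring
  · obtain ⟨m, rfl⟩ : ∃ m : ℕ, n = m := ⟨n.toNat, by omega⟩
    have h := allP_spec _ 13 1000 lin14 m (by omega) (by norm_num; omega)
    unfold linP at h
    rw [Bool.or_eq_true, Nat.ble_eq, Bool.and_eq_true, Nat.ble_eq, Nat.ble_eq, v14] at h
    rw [hv, b_eq_bt m (by omega)]
    omega
  · obtain ⟨m, rfl⟩ : ∃ m : ℕ, n = m := ⟨n.toNat, by omega⟩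
    have h := allP_spec _ 13 1000 lin14 m (by omega) (by norm_num; omega)
    unfold linP at h
    rw [Bool.or_eq_true, Nat.ble_eq, Bool.and_eq_true, Nat.ble_eq, Nat.ble_eq, v14] at h
    rw [hv, b_eq_bt m (by omega)]
    omega
  · rw [hv]; norm_num

theorem base15 : LY 10278 ∧ b 10278 = 3267 := by
  obtain ⟨v14, v15, v16, -⟩ := vals
  have hv : b 10278 = 3267 := by
    have := b_eq_bt 10278 (by norm_num)
    rw [v15] at this
    exact_mod_cast this
  refine ⟨⟨by norm_num, by norm_num, fun j h1 h2 => ?_, fun n h1 h2 => ?_, fun n h1 h2 => ?_, ?_⟩, hv⟩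
  · rw [hv]
    unfold tY
    have := b_eq_bt (10278 + j).toNat (by omega)
    rw [show (((10278 + j).toNat : ℕ) : ℤ) = 10278 + j by omega] at this
    rw [this]
    ring
  · obtain ⟨m, rfl⟩ : ∃ m : ℕ, n = m := ⟨n.toNat, by omega⟩
    have h := allP_spec _ 14 1000 lin15 m (by omega) (by norm_num; omega)
    unfold linP at h
    rw [Bool.or_eq_true, Nat.ble_eq, Bool.and_eq_true, Nat.ble_eq, Nat.ble_eq, v15] at h
    rw [hv, b_eq_bt m (by omega)]
    omega
  · obtain ⟨m, rfl⟩ : ∃ m : ℕ, n = m := ⟨n.toNat, by omega⟩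
    have h := allP_spec _ 14 1000 lin15 m (by omega) (by norm_num; omega)
    unfold linP at h
    rw [Bool.or_eq_true, Nat.ble_eq, Bool.and_eq_true, Nat.ble_eq, Nat.ble_eq, v15] at h
    rw [hv, b_eq_bt m (by omega)]
    omega
  · rw [hv]; norm_num

theorem base16 : LX 15052 ∧ b 15052 = 4783 := by
  obtain ⟨v14, v15, v16, -⟩ := vals
  have hv : b 15052 = 4783 := by
    have := b_eq_bt 15052 (by norm_num)
    rw [v16] at this
    exact_mod_cast this
  refine ⟨⟨by norm_num, by norm_num, fun j h1 h2 => ?_, fun n h1 h2 => ?_, fun n h1 h2 => ?_, ?_⟩, hv⟩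
  · rw [hv]
    unfold tX
    have h3 := b_eq_bt (15052 + j).toNat (by omega)
    rw [show (((15052 + j).toNat : ℕ) : ℤ) = 15052 + j by omega] at h3
    have h4 := win16 (j + 33).toNat (by omega)
    rw [show 15019 + (j + 33).toNat = (15052 + j).toNat by omega, show 6973 + (j + 33).toNat = (7006 + j).toNat by omega,
      v14, v16] at h4
    omega
  · obtain ⟨m, rfl⟩ : ∃ m : ℕ, n = m := ⟨n.toNat, by omega⟩
    have h := allP_spec _ 14 1000 lin16 m (by omega) (by norm_num; omega)
    unfold linP at h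
    rw [Bool.or_eq_true, Nat.ble_eq, Bool.and_eq_true, Nat.ble_eq, Nat.ble_eq, v16] at h
    rw [hv, b_eq_bt m (by omega)]
    omega
  · obtain ⟨m, rfl⟩ : ∃ m : ℕ, n = m := ⟨n.toNat, by omega⟩
    have h := allP_spec _ 14 1000 lin16 m (by omega) (by norm_num; omega)
    unfold linP at h
    rw [Bool.or_eq_true, Nat.ble_eq, Bool.and_eq_true, Nat.ble_eq, Nat.ble_eq, v16] at h
    rw [hv, b_eq_bt m (by omega)]
    omega
  · rw [hv]; norm_num

/-- three consecutive special points, arbitrarily far out -/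
theorem chain (k : ℕ) : ∃ A B C : ℤ, LX A ∧ LY B ∧ LX C ∧ (k : ℤ) ≤ A ∧ 7006 ≤ A ∧ 10278 ≤ B ∧ 15052 ≤ C ∧
    A + 1 ≤ C ∧ b C + b A = A + 4 ∧ b B = B - A - 5 ∧ b C = C - B + 9 := by
  induction k with
  | zero =>
    obtain ⟨h1, v1⟩ := base14
    obtain ⟨h2, v2⟩ := base15
    obtain ⟨h3, v3⟩ := base16
    refine ⟨7006, 10278, 15052, h1, h2, h3, by norm_num, le_rfl, le_rfl, le_rfl, by norm_num, ?_, ?_, ?_⟩
    · rw [v1, v3]; norm_num
    · rw [v2]; norm_num
    · rw [v3]; norm_num
  | succ k ih =>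
    obtain ⟨A, B, C, hA, hB, hC, hk, g1, g2, g3, g4, i1, i2, i3⟩ := ih
    obtain ⟨hD, vD⟩ := stepY hC hA i1 (by omega)
    obtain ⟨hE, vE⟩ := stepX hD hB (by omega) (by omega)
    refine ⟨C, C + A + 12, C + A + 12 + B - 14, hC, hD, hE, by push_cast; omega, by omega, by omega, by omega, by omega,
      ?_, ?_, ?_⟩
    · omega
    · omega
    · omega

theorem frequently_large (N : ℤ) : ∃ n, N ≤ n ∧ 1 ≤ n ∧ 317 * n ≤ 1000 * b n := by
  obtain ⟨A, B, C, hA, -, -, hk, g1, -⟩ := chain N.toNat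
  have := hA.ratio
  exact ⟨A, by omega, by omega, by omega⟩

/-- the defining conditions, with well-definedness -/
def IsB (f : ℤ → ℤ) : Prop :=
  f 1 = 1 ∧ f 2 = 1 ∧ ∀ n : ℤ, 3 ≤ n → (1 ≤ f (n - 1) ∧ f (n - 1) ≤ n - 1) ∧
    f n = f (f (n - 1)) + f (n - f (n - 1)) + (-1) ^ n.toNat

theorem par_eq (n : ℤ) (hn : 0 ≤ n) : par n = (-1) ^ n.toNat := by
  rcases par_cases n with h | h
  · rw [h.2, Even.neg_one_pow]
    rw [Nat.even_iff]
    omega
  · rw [h.2, Odd.neg_one_pow]
    rw [Nat.odd_iff]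
    omega

theorem isB : IsB b := by
  refine ⟨b_small 1 (by norm_num), b_small 2 (by norm_num), fun n hn => ⟨⟨b_pos _, b_le _ (by omega)⟩, ?_⟩⟩
  rw [b_rec n hn, par_eq n (by omega)]

theorem IsB.unique {f g : ℤ → ℤ} (hf : IsB f) (hg : IsB g) : ∀ n : ℤ, 1 ≤ n → f n = g n := by
  have key : ∀ k : ℕ, ∀ n : ℤ, 1 ≤ n → n ≤ k → f n = g n := by
    intro k
    induction k with
    | zero => intro n h1 h2; push_cast at h2; omega
    | succ k ih =>
      intro n h1 h2
      push_cast at h2
      rcases le_or_gt n 2 with h | h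
      · interval_cases n
        · rw [hf.1, hg.1]
        · rw [hf.2.1, hg.2.1]
      · obtain ⟨⟨f1, f2⟩, f5⟩ := hf.2.2 n (by omega)
        obtain ⟨⟨g1, g2⟩, g5⟩ := hg.2.2 n (by omega)
        rw [f5, g5, ← ih (n - 1) (by omega) (by omega), ih (f (n - 1)) (by omega) (by omega),
          ih (n - f (n - 1)) (by omega) (by omega)]
  intro n hn
  exact key n.toNat n hn (by omega)

end Q264.CM
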