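import Pool.Agent.Q264.ColEleven

/-!
# Binary partitions with eleven colours: no count is divisible by 32
-/

set_option autoImplicit false

namespace Q264.ColEleven

open PowerSeries Finset Q264.Quad Q264.TMPow Q264.RegWin Q264.ColPart

theorem TM5_eq : TM ^ 5 = (∑ j ∈ range (5 + 1), C ((-1) ^ j * ((5 : ℕ).choose j : ℤ)) * X ^ j) * expand 2 (by norm_num) (TM ^ 5) := by
  conv_lhs => rw [TM_pow_eq, one_sub_pow]
  rw [Finset.sum_mul]
  exact Finset.sum_congr rfl fun j _ => by ring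

theorem windows (n : ℕ) : wn 32 (TM ^ 5) 17 n ∈ T := by
  refine closure (M := 32) (p := 2) (D := 5) (by norm_num) (by norm_num) le_rfl (TM ^ 5) _ cl TM5_eq ?_ ?_ ?_ T T_zero T_step n
  · rw [TM_pow]
    unfold PT
    simp
  · intro j hj
    interval_cases j <;> decide
  · intro l hl
    omega

theorem one_add_pow (f : PowerSeries ℤ) : (1 + X) ^ 16 * f =
    ∑ j ∈ range 17, C (((16 : ℕ).choose j : ℤ)) * (X ^ j * f) := by
  have h := add_pow (X : PowerSeries ℤ) 1 16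
  rw [show (X + 1 : PowerSeries ℤ) = 1 + X by ring] at h
  rw [h, Finset.sum_mul]
  refine Finset.sum_congr rfl fun j _ => ?_
  rw [map_natCast, one_pow]
  ring

theorem value (n : ℕ) : ¬ (32 : ℤ) ∣ coeff n ((1 + X) ^ 16 * TM ^ 5) := by
  have h1 := allL_spec _ _ T_value _ (windows n)
  rw [← ext0_nat, one_add_pow, ext0_sum]
  intro h2
  have h3 : ((sumTo (fun j => get bl j * get (wn 32 (TM ^ 5) 17 n) j) 17 : ℕ) : ℤ) ≡
      ∑ j ∈ range 17, ((16 : ℕ).choose j : ℤ) * ext0 (X ^ j * TM ^ 5) n [ZMOD 32] := by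
    rw [sumTo_eq, Nat.cast_sum]
    refine Int.ModEq.sum fun j hj => ?_
    rw [mem_range] at hj
    push_cast
    refine Int.ModEq.mul ?_ ?_
    · interval_cases j <;> decide
    · rw [ext0_X_pow_mul]
      unfold wn
      rw [get_tabulate _ _ _ _ hj, zero_add]
      exact res_modEq (by norm_num) _ _
  have h4 : (32 : ℤ) ∣ ((sumTo (fun j => get bl j * get (wn 32 (TM ^ 5) 17 n) j) 17 : ℕ) : ℤ) :=
    (Int.ModEq.dvd_iff h3).2 h2
  have h5 : sumTo (fun j => get bl j * get (wn 32 (TM ^ 5) 17 n) j) 17 % 32 = 0 := by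
    have : (32 : ℕ) ∣ sumTo (fun j => get bl j * get (wn 32 (TM ^ 5) 17 n) j) 17 := by exact_mod_cast h4
    omega
  rw [h5] at h1
  exact absurd h1 (by decide)

theorem sixteenth : ∃ W : PowerSeries ℤ, (TM * (1 + X)) ^ 16 = 1 + 32 * W := by
  obtain ⟨U, hU⟩ := TM_two
  have h2 : ∃ W, (TM * (1 + X)) ^ 2 = 1 + 4 * W := ⟨U + U ^ 2, by rw [hU]; ring⟩
  obtain ⟨W2, h2⟩ := h2
  have h4 : ∃ W, (TM * (1 + X)) ^ 4 = 1 + 8 * W := ⟨W2 + 2 * W2 ^ 2, by
    rw [show (TM * (1 + X)) ^ 4 = ((TM * (1 + X)) ^ 2) ^ 2 by ring, h2]; ring⟩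
  obtain ⟨W4, h4⟩ := h4
  have h8 : ∃ W, (TM * (1 + X)) ^ 8 = 1 + 16 * W := ⟨W4 + 4 * W4 ^ 2, by
    rw [show (TM * (1 + X)) ^ 8 = ((TM * (1 + X)) ^ 4) ^ 2 by ring, h4]; ring⟩
  obtain ⟨W8, h8⟩ := h8
  exact ⟨W8 + 8 * W8 ^ 2, by
    rw [show (TM * (1 + X)) ^ 16 = ((TM * (1 + X)) ^ 8) ^ 2 by ring, h8]; ring⟩

theorem main (n : ℕ) : ¬ (32 : ℤ) ∣ coeff n (S 2 11) := by
  obtain ⟨W, hW⟩ := sixteenth
  have h1 := TM_mul_S 11
  have h2 : (1 + X) ^ 16 * TM ^ 5 = S 2 11 + C 32 * (W * S 2 11) := by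
    calc (1 + X) ^ 16 * TM ^ 5 = (1 + X) ^ 16 * TM ^ 5 * (TM ^ 11 * S 2 11) := by rw [h1, mul_one]
      _ = (TM * (1 + X)) ^ 16 * S 2 11 := by ring
      _ = (1 + 32 * W) * S 2 11 := by rw [hW]
      _ = S 2 11 + 32 * (W * S 2 11) := by ring
      _ = _ := by rw [show (C (32 : ℤ) : PowerSeries ℤ) = 32 from map_ofNat C 32]
  intro h3
  apply value n
  rw [h2, map_add, coeff_C_mul]
  exact dvd_add h3 (dvd_mul_right _ _)

end Q264.ColEleven
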