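import Pool.Agent.Q264.ColPart

/-!
# Evaluation of coloured partition numbers
-/

set_option autoImplicit false

namespace Q264.ColPart

open PowerSeries Finset Q264.Quad Q264.TMPow Q264.RegWin

/-- `(d + n).choose d` by recursion on `n` -/
def chf (d : ℕ) : ℕ → ℕ
  | 0 => 1
  | n + 1 => chf d n * (d + n + 1) / (n + 1)

theorem chf_eq (d n : ℕ) : chf d n = (d + n).choose d := by
  induction n with
  | zero => simp [chf]
  | succ n ih =>
    rw [chf, ih]
    have h1 : (d + (n + 1)).choose d * (n + 1) = (d + n).choose d * (d + n + 1) := by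
      have h2 := Nat.add_one_mul_choose_eq (d + n) n
      have h3 : (d + n).choose n = (d + n).choose d := by
        rw [Nat.choose_symm_add]
      have h4 : (d + n + 1).choose (n + 1) = (d + (n + 1)).choose d := by
        rw [show d + n + 1 = d + (n + 1) by ring, Nat.choose_symm_add]
      rw [h3, h4] at h2

      linarith
    rw [← h1, Nat.mul_div_cancel _ (by omega)]

/-- the number of partitions, with fuel -/
def af (m d : ℕ) : ℕ → ℕ → ℕ
  | 0, _ => 1
  | f + 1, n => sumTo (fun b => chf d (n - m * b) * af m d f b) (n / m + 1)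

theorem S_zero (m k : ℕ) : coeff 0 (S m k) = 1 := by
  unfold S P
  rw [coeff_mk]
  have : ∀ j, constantCoeff (geo j) = 1 := by
    intro j
    rw [← coeff_zero_eq_constantCoeff_apply, coeff_geo, if_pos (dvd_zero _)]
  simp [this]

theorem af_eq (m d : ℕ) (hm : 2 ≤ m) : ∀ f n, n < m ^ f → (af m d f n : ℤ) = coeff n (S m (d + 1)) := by
  intro f
  induction f with
  | zero =>
    intro n hn
    obtain rfl : n = 0 := by simpa using hn
    rw [S_zero]; rfl
  | succ f ih =>
    intro n hn
    rw [af, sumTo_eq, S_rec m d hm n, Nat.cast_sum]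
    refine Finset.sum_congr rfl fun b hb => ?_
    rw [mem_range] at hb
    have h1 : b < m ^ f := by
      rw [pow_succ] at hn
      have : n / m < m ^ f := Nat.div_lt_of_lt_mul (by linarith)
      omega
    rw [Nat.cast_mul, ih b h1, chf_eq]

/-- natural number version of the coefficients -/
def geoN (j : ℕ) : PowerSeries ℕ := PowerSeries.mk fun n => if j ∣ n then 1 else 0

theorem map_geoN (j : ℕ) : PowerSeries.map (Nat.castRingHom ℤ) (geoN j) = geo j := by
  ext n
  rw [coeff_map, geoN, coeff_mk, coeff_geo]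
  split_ifs <;> simp

theorem cast_A (m k n : ℕ) (hm : 2 ≤ m) :
    ((coeff n (∏ i ∈ range (n + 1), geoN (m ^ i) ^ k) : ℕ) : ℤ) = coeff n (S m k) := by
  have h : ((coeff n (∏ i ∈ range (n + 1), geoN (m ^ i) ^ k) : ℕ) : ℤ) = coeff n (PowerSeries.map (Nat.castRingHom ℤ)
      (∏ i ∈ range (n + 1), geoN (m ^ i) ^ k)) := by
    rw [coeff_map]; rfl
  rw [h, map_prod]
  simp only [map_pow, map_geoN]
  exact ((S_cg m k hm (n + 1)).coeff (by omega)).symm

theorem A_eval (m d f n : ℕ) (hm : 2 ≤ m) (hn : n < m ^ f) :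
    coeff n (∏ i ∈ range (n + 1), geoN (m ^ i) ^ (d + 1)) = af m d f n := by
  have h1 := cast_A m (d + 1) n hm
  rw [← af_eq m d hm f n hn] at h1
  exact_mod_cast h1

end Q264.ColPart
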