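import Pool.Agent.Q264.RegWin2

/-!
# Coloured `m`-ary partitions
-/

set_option autoImplicit false

namespace Q264.ColPart

open PowerSeries Finset Q264.Quad Q264.TMPow

/-- the truncated product -/
noncomputable def P (m k N : ℕ) : PowerSeries ℤ := ∏ i ∈ range N, geo (m ^ i) ^ k

theorem P_cg (m k : ℕ) (hm : 2 ≤ m) (d N : ℕ) (h : d ≤ N) : Cg d (P m k N) (P m k d) := by
  induction N with
  | zero =>
    obtain rfl : d = 0 := by omega
    exact Cg.rfl' _
  | succ N ih =>
    rcases eq_or_lt_of_le h with h1 | h1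
    · rw [h1]; exact Cg.rfl' _
    · have e : P m k (N + 1) = P m k N * geo (m ^ N) ^ k := by
        unfold P
        rw [Finset.prod_range_succ]
      rw [e]
      have h2 : Cg d (geo (m ^ N) ^ k) 1 := by
        have := (geo_cg d (m ^ N) (by
          have : N < m ^ N := Nat.lt_pow_self (by omega)
          omega)).pow' k
        rwa [one_pow] at this
      have := (ih (by omega)).mul' h2
      rwa [mul_one] at this

/-- the generating function of coloured `m`-ary partitions with `k` colours -/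
noncomputable def S (m k : ℕ) : PowerSeries ℤ := PowerSeries.mk fun n => coeff n (P m k (n + 1))

theorem S_cg (m k : ℕ) (hm : 2 ≤ m) (N : ℕ) : Cg N (S m k) (P m k N) := by
  refine cg_of_coeff fun n hn => ?_
  unfold S
  rw [coeff_mk]
  exact ((P_cg m k hm (n + 1) N (by omega)).coeff (by omega)).symm

theorem E_geo' (p : ℕ) (hp : p ≠ 0) (j : ℕ) : expand p hp (geo j) = geo (p * j) := by
  ext n
  rw [coeff_expand, coeff_geo, coeff_geo]
  by_cases h : p ∣ n
  · obtain ⟨q, rfl⟩ := h
    rw [if_pos (dvd_mul_right _ _), Nat.mul_div_cancel_left _ (by omega)]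
    simp only [Nat.mul_dvd_mul_iff_left (show 0 < p by omega)]
  · rw [if_neg h, if_neg]
    intro h2
    exact h ((dvd_mul_right p j).trans h2)

theorem P_eq (m k : ℕ) (hm : m ≠ 0) (N : ℕ) : P m k (N + 1) = geo 1 ^ k * expand m hm (P m k N) := by
  unfold P
  rw [Finset.prod_range_succ', pow_zero, mul_comm, map_prod]
  congr 1
  refine Finset.prod_congr rfl fun i _ => ?_
  rw [map_pow, E_geo', show m * m ^ i = m ^ (i + 1) by rw [pow_succ, mul_comm]]

theorem expand_cg {d : ℕ} (m : ℕ) (hm : m ≠ 0) {f g : PowerSeries ℤ} (h : Cg d f g) :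
    Cg d (expand m hm f) (expand m hm g) := by
  refine cg_of_coeff fun n hn => ?_
  rw [coeff_expand, coeff_expand]
  split_ifs with h1
  · exact h.coeff (lt_of_le_of_lt (Nat.div_le_self _ _) hn)
  · rfl

theorem S_eq (m k : ℕ) (hm : 2 ≤ m) : S m k = geo 1 ^ k * expand m (by omega) (S m k) := by
  ext n
  have h1 : Cg (n + 1) (S m k) (P m k (n + 2)) :=
    (S_cg m k hm (n + 1)).trans' (P_cg m k hm (n + 1) (n + 2) (by omega)).symm'
  have h2 : Cg (n + 1) (geo 1 ^ k * expand m (by omega) (P m k (n + 1))) (geo 1 ^ k * expand m (by omega) (S m k)) :=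
    Cg.mul' (Cg.rfl' _) (expand_cg m (by omega) (S_cg m k hm (n + 1)).symm')
  rw [P_eq m k (by omega)] at h1
  exact (h1.trans' h2).coeff (by omega)

/-- the inverse of the product for `m = 2` -/
theorem TM_mul_S (k : ℕ) : TM ^ k * S 2 k = 1 := by
  have h1 : ∀ N, PT N ^ k * P 2 k N = 1 := by
    intro N
    unfold PT P
    rw [← Finset.prod_pow, ← Finset.prod_mul_distrib]
    refine Finset.prod_eq_one fun i _ => ?_
    rw [← mul_pow, geo_mul _ (Nat.one_le_two_pow), one_pow]
  ext n
  have h2 : Cg (n + 1) (TM ^ k * S 2 k) (PT (n + 1) ^ k * P 2 k (n + 1)) :=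
    Cg.mul' ((TM_cg (n + 1)).pow' k) (S_cg 2 k le_rfl (n + 1))
  rw [h1] at h2
  exact h2.coeff (by omega)

/-- `TM (1 + X) = 1` modulo `2` -/
theorem TM_two : ∃ U : PowerSeries ℤ, TM * (1 + X) = 1 + 2 * U := by
  have h1 : PowerSeries.map (Int.castRingHom (ZMod 2)) (TM * (1 + X)) = 1 := by
    rw [map_mul, map_add, map_one, map_X]
    exact T2_mul
  have h2 : ∀ n, ∃ u : ℤ, coeff n (TM * (1 + X)) - coeff n (1 : PowerSeries ℤ) = 2 * u := by
    intro n
    have := congrArg (coeff n) h1
    rw [coeff_map] at this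
    have h3 : (((coeff n (TM * (1 + X)) - coeff n (1 : PowerSeries ℤ) : ℤ)) : ZMod 2) = 0 := by
      push_cast
      have h4 : ((coeff n (TM * (1 + X)) : ℤ) : ZMod 2) = coeff n (1 : PowerSeries (ZMod 2)) := this
      rw [h4, coeff_one, coeff_one]
      split_ifs <;> simp
    exact (ZMod.intCast_zmod_eq_zero_iff_dvd _ 2).1 h3
  choose u hu using h2
  refine ⟨PowerSeries.mk u, ?_⟩
  ext n
  rw [map_add, show (2 : PowerSeries ℤ) = C 2 from (map_ofNat C 2).symm, coeff_C_mul, coeff_mk, ← hu]
  ring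

theorem coeff_geo_one (d n : ℕ) : coeff n (geo 1 ^ (d + 1)) = ((d + n).choose d : ℤ) := by
  have h : geo 1 = PowerSeries.mk (1 : ℕ → ℤ) := by
    ext n
    rw [coeff_geo, coeff_mk, if_pos (one_dvd _)]
    rfl
  rw [h, mk_one_pow_eq_mk_choose_add, coeff_mk]

/-- the recursion for the number of coloured partitions -/
theorem S_rec (m d : ℕ) (hm : 2 ≤ m) (n : ℕ) : coeff n (S m (d + 1)) =
    ∑ b ∈ range (n / m + 1), ((d + (n - m * b)).choose d : ℤ) * coeff b (S m (d + 1)) := by
  conv_lhs => rw [S_eq m (d + 1) hm, mul_comm, coeff_mul, Finset.Nat.sum_antidiagonal_eq_sum_range_succ_mk]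
  simp only [coeff_expand, coeff_geo_one, ite_mul, zero_mul]
  rw [← Finset.sum_filter]
  symm
  refine Finset.sum_nbij' (fun b => m * b) (fun a => a / m) ?_ ?_ ?_ ?_ ?_
  · intro b hb
    rw [mem_range] at hb
    rw [mem_filter, mem_range]
    refine ⟨?_, dvd_mul_right _ _⟩
    have : m * b ≤ m * (n / m) := Nat.mul_le_mul_left _ (by omega)
    have := Nat.mul_div_le n m
    omega
  · intro a ha
    rw [mem_filter, mem_range] at ha
    rw [mem_range]
    have := Nat.div_le_div_right (c := m) (show a ≤ n by omega)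
    omega
  · intro b _
    exact Nat.mul_div_cancel_left _ (by omega)
  · intro a ha
    rw [mem_filter] at ha
    exact Nat.mul_div_cancel' ha.2
  · intro b _
    rw [Nat.mul_div_cancel_left _ (by omega), mul_comm]

end Q264.ColPart
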