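import Pool.Agent.Q264.RegWin2

/-!
# General closure check
-/

set_option autoImplicit false

namespace Q264.RegWin

open PowerSeries Finset Q264.Quad Q264.TMPow

/-- membership with respect to a boolean equality -/
def memB {α : Type*} (eq : α → α → Bool) (s : α) : List α → Bool
  | [] => false
  | t :: T => eq s t || memB eq s T

theorem memB_spec {α : Type*} (eq : α → α → Bool) (heq : ∀ a b, eq a b = true → a = b) (s : α) :
    ∀ T, memB eq s T = true → s ∈ T := by
  intro T
  induction T with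
  | nil => intro h; simp [memB] at h
  | cons t T ih =>
    intro h
    rw [memB, Bool.or_eq_true] at h
    rcases h with h | h
    · rw [heq _ _ h]; exact List.mem_cons_self
    · exact List.mem_cons_of_mem _ (ih h)

def allB {α : Type*} (P : α → Bool) : List α → Bool
  | [] => true
  | t :: T => P t && allB P T

theorem allB_spec {α : Type*} (P : α → Bool) : ∀ T, allB P T = true → ∀ s ∈ T, P s = true := by
  intro T
  induction T with
  | nil => intro _ s hs; simp at hs
  | cons t T ih =>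
    intro h s hs
    rw [allB, Bool.and_eq_true] at h
    rcases List.mem_cons.1 hs with h1 | h1
    · rw [h1]; exact h.1
    · exact ih h.2 s h1

theorem closureG {α : Type*} (eq : α → α → Bool) (heq : ∀ a b, eq a b = true → a = b) (p : ℕ) (hp : 2 ≤ p)
    (st : ℕ → α) (step : ℕ → α → α) (hstep : ∀ n d, d < p → st (p * n + d) = step d (st n)) (T : List α)
    (h0 : memB eq (st 0) T = true) (hT : allB (fun s => allD (fun d => memB eq (step d s) T) p) T = true) :
    ∀ n, st n ∈ T := by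
  intro n
  induction n using Nat.strong_induction_on with
  | _ n ih =>
    rcases Nat.eq_zero_or_pos n with rfl | hn
    · exact memB_spec _ heq _ _ h0
    · have h1 := ih (n / p) (Nat.div_lt_self hn hp)
      have h2 := allD_spec _ _ (allB_spec _ _ hT _ h1) (n % p) (Nat.mod_lt _ (by omega))
      have h3 := hstep (n / p) (n % p) (Nat.mod_lt _ (by omega))
      rw [Nat.div_add_mod] at h3
      rw [h3]
      exact memB_spec _ heq _ _ h2

theorem ext0_add (f g : PowerSeries ℤ) (n : ℤ) : ext0 (f + g) n = ext0 f n + ext0 g n := by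
  unfold ext0
  split_ifs
  · rw [map_add]
  · rfl

theorem ext0_C_mul (a : ℤ) (f : PowerSeries ℤ) (n : ℤ) : ext0 (C a * f) n = a * ext0 f n := by
  unfold ext0
  split_ifs
  · rw [coeff_C_mul]
  · simp

/-- the step for a series that is, modulo `M`, a combination of one series -/
theorem wn_step1 {M p w w1 D1 : ℕ} (hM : 0 < M) (hp : p ≠ 0) (f g1 R : PowerSeries ℤ) (c1 : ℕ → ℤ) (cl1 : List ℕ)
    (hf : f = (∑ j ∈ range (D1 + 1), C (c1 j) * X ^ j) * expand p hp g1 + C (M : ℤ) * R)
    (hc1 : ∀ j ≤ D1, (get cl1 j : ℤ) ≡ c1 j [ZMOD (M : ℤ)]) (hw1 : ∀ l < w, (l + D1) / p < w1)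
    (n : ℤ) (d : ℕ) (hd : d < p) :
    wn M f w (p * n + d) = tabulate (fun l => lin p D1 cl1 d l (wn M g1 w1 n) % M) w 0 := by
  rw [wn]
  refine tabulate_congr _ _ fun l _ hl => ?_
  refine res_eq_of_modEq hM ?_
  rw [hf, ext0_add, ext0_C_mul]
  have h1 := lin_spec hM hp g1 D1 c1 cl1 hc1 n d l w1 hd (hw1 l (by omega))
  have h3 : (M : ℤ) * ext0 R (p * n + d - l) ≡ 0 [ZMOD (M : ℤ)] := by
    rw [Int.modEq_zero_iff_dvd]
    exact dvd_mul_right _ _
  have := (h1.add h3.symm)
  rwa [add_zero] at this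

/-- the step for a series that is, modulo `M`, a combination of two series -/
theorem wn_step2 {M p w w1 w2 D1 D2 : ℕ} (hM : 0 < M) (hp : p ≠ 0) (f g1 g2 R : PowerSeries ℤ) (c1 c2 : ℕ → ℤ)
    (cl1 cl2 : List ℕ)
    (hf : f = (∑ j ∈ range (D1 + 1), C (c1 j) * X ^ j) * expand p hp g1 +
      (∑ j ∈ range (D2 + 1), C (c2 j) * X ^ j) * expand p hp g2 + C (M : ℤ) * R)
    (hc1 : ∀ j ≤ D1, (get cl1 j : ℤ) ≡ c1 j [ZMOD (M : ℤ)]) (hw1 : ∀ l < w, (l + D1) / p < w1)
    (hc2 : ∀ j ≤ D2, (get cl2 j : ℤ) ≡ c2 j [ZMOD (M : ℤ)]) (hw2 : ∀ l < w, (l + D2) / p < w2)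
    (n : ℤ) (d : ℕ) (hd : d < p) :
    wn M f w (p * n + d) =
      tabulate (fun l => (lin p D1 cl1 d l (wn M g1 w1 n) + lin p D2 cl2 d l (wn M g2 w2 n)) % M) w 0 := by
  rw [wn]
  refine tabulate_congr _ _ fun l _ hl => ?_
  refine res_eq_of_modEq hM ?_
  rw [hf, ext0_add, ext0_add, ext0_C_mul]
  have h1 := lin_spec hM hp g1 D1 c1 cl1 hc1 n d l w1 hd (hw1 l (by omega))
  have h2 := lin_spec hM hp g2 D2 c2 cl2 hc2 n d l w2 hd (hw2 l (by omega))
  have h3 : (M : ℤ) * ext0 R (p * n + d - l) ≡ 0 [ZMOD (M : ℤ)] := by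
    rw [Int.modEq_zero_iff_dvd]
    exact dvd_mul_right _ _
  have := ((h1.add h2).add h3.symm)
  rw [add_zero] at this
  push_cast
  exact this

end Q264.RegWin
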