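import Pool.Agent.Q264.ColPart
import Pool.Agent.Q264.RegWin3

/-!
# The case of three colours: reduction modulo 8
-/

set_option autoImplicit false

namespace Q264.ColThree

open PowerSeries Finset Q264.Quad Q264.TMPow Q264.RegWin Q264.ColPart

/-- the state: class of the index, window of `J`, window of `Φ` -/
abbrev St := ℕ × List ℕ × List ℕ

def eqS (a b : St) : Bool := Nat.beq a.1 b.1 && (eqL a.2.1 b.2.1 && eqL a.2.2 b.2.2)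

theorem eqS_spec (a b : St) (h : eqS a b = true) : a = b := by
  unfold eqS at h
  rw [Bool.and_eq_true, Bool.and_eq_true] at h
  exact Prod.ext (Nat.eq_of_beq_eq_true h.1) (Prod.ext (eqL_spec _ _ h.2.1) (eqL_spec _ _ h.2.2))

def T : List St := [(0, [0, 0, 0], [1, 0, 0, 0, 0]), (1, [1, 0, 0], [3, 1, 0, 0, 0]), (2, [5, 1, 0], [5, 3, 1, 0, 0]), (1, [2, 5, 1], [7, 5, 3, 1, 0]), (1, [0, 2, 5], [0, 7, 5, 3, 1]), (1, [1, 0, 2], [0, 0, 7, 5, 3]), (2, [5, 1, 0], [0, 0, 0, 7, 5]), (1, [0, 5, 1], [0, 0, 0, 0, 7]), (2, [6, 0, 5], [7, 0, 0, 0, 0]), (1, [7, 6, 0], [5, 7, 0, 0, 0]), (2, [5, 7, 6], [3, 5, 7, 0, 0]), (1, [6, 5, 7], [1, 3, 5, 7, 0]), (1, [0, 6, 5], [0, 1, 3, 5, 7]), (1, [7, 0, 6], [0, 0, 1, 3, 5]), (2, [3, 7, 0], [0, 0, 0, 1, 3]), (1, [0, 3, 7], [0, 0, 0, 0, 1]), (1, [6, 0,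 3], [7, 0, 0, 0, 0]), (1, [2, 6, 5], [0, 1, 3, 5, 7]), (1, [7, 2, 6], [0, 0, 1, 3, 5]), (2, [1, 7, 2], [0, 0, 0, 1, 3]), (1, [0, 1, 7], [0, 0, 0, 0, 1]), (2, [2, 0, 1], [1, 0, 0, 0, 0]), (1, [1, 2, 0], [3, 1, 0, 0, 0]), (2, [3, 1, 2], [5, 3, 1, 0, 0]), (1, [2, 3, 1], [7, 5, 3, 1, 0]), (1, [0, 2, 3], [0, 7, 5, 3, 1]), (2, [4, 0, 1], [1, 0, 0, 0, 0]), (1, [1, 4, 0], [3, 1, 0, 0, 0]), (2, [1, 1, 4], [5, 3, 1, 0, 0]), (1, [2, 1, 1], [7, 5, 3, 1, 0]), (1, [6, 2, 1], [0, 7, 5, 3, 1]), (1, [1, 6, 2], [0, 0, 7, 5, 3]), (2, [7, 1, 6], [0, 0, 0, 7, 5]), (1, [0, 7, 1], [0, 0, 0, 0, 7]), (1, [2, 0, 7], [1, 0, 0, 0, 0]), (1, [6, 2, 3], [0, 7, 5, 3, 1]), (2, [6, 0, 7], [7, 0, 0, 0, 0]), (1, [4, 0, 7], [1, 0, 0, 0, 0]), (1, [4, 2, 1], [0, 7, 5, 3, 1]), (1, [1, 4, 2], [0, 0, 7, 5, 3]), (2,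 [1, 1, 4], [0, 0, 0, 7, 5]), (1, [0, 1, 1], [0, 0, 0, 0, 7]), (2, [4, 0, 1], [7, 0, 0, 0, 0]), (1, [7, 4, 0], [5, 7, 0, 0, 0]), (2, [7, 7, 4], [3, 5, 7, 0, 0]), (1, [6, 7, 7], [1, 3, 5, 7, 0]), (1, [2, 6, 7], [0, 1, 3, 5, 7]), (2, [4, 0, 7], [7, 0, 0, 0, 0]), (1, [6, 0, 1], [7, 0, 0, 0, 0]), (2, [2, 0, 1], [7, 0, 0, 0, 0]), (1, [7, 2, 0], [5, 7, 0, 0, 0]), (2, [1, 7, 2], [3, 5, 7, 0, 0]), (1, [6, 1, 7], [1, 3, 5, 7, 0]), (1, [4, 6, 1], [0, 1, 3, 5, 7]), (1, [7, 4, 6], [0, 0, 1, 3, 5]), (2, [7, 7, 4], [0, 0, 0, 1, 3]), (1, [0, 7, 7], [0, 0, 0, 0, 1]), (1, [4, 0, 7], [7, 0, 0, 0, 0]), (1, [4, 6, 7], [0, 1, 3, 5, 7]), (2, [4, 0, 7], [1, 0, 0, 0, 0]), (1, [4, 0, 1], [7, 0, 0, 0, 0]), (1, [2, 0, 7], [7, 0, 0, 0, 0]), (1, [6, 6, 1], [0, 1, 3, 5, 7]), (1, [7, 6, 6], [0, 0, 1, 3, 5]),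 (2, [5, 7, 6], [0, 0, 0, 1, 3]), (1, [0, 5, 7], [0, 0, 0, 0, 1]), (2, [6, 0, 5], [1, 0, 0, 0, 0]), (1, [1, 6, 0], [3, 1, 0, 0, 0]), (2, [7, 1, 6], [5, 3, 1, 0, 0]), (1, [2, 7, 1], [7, 5, 3, 1, 0]), (1, [4, 2, 7], [0, 7, 5, 3, 1]), (2, [6, 0, 7], [1, 0, 0, 0, 0]), (1, [4, 0, 1], [1, 0, 0, 0, 0]), (2, [0, 0, 5], [1, 0, 0, 0, 0]), (1, [2, 2, 5], [0, 7, 5, 3, 1]), (1, [1, 2, 2], [0, 0, 7, 5, 3]), (2, [3, 1, 2], [0, 0, 0, 7, 5]), (1, [0, 3, 1], [0, 0, 0, 0, 7]), (1, [6, 0, 3], [1, 0, 0, 0, 0]), (1, [2, 2, 7], [0, 7, 5, 3, 1]), (2, [2, 0, 3], [7, 0, 0, 0, 0]), (1, [6, 0, 1], [1, 0, 0, 0, 0]), (1, [0, 0, 3], [1, 0, 0, 0, 0]), (2, [0, 0, 5], [7, 0, 0, 0, 0]), (1, [7, 0, 0], [5, 7, 0, 0, 0]), (2, [3, 7, 0], [3, 5, 7, 0, 0]), (1, [6, 3, 7], [1, 3, 5, 7, 0]), (1, [6, 6, 3], [0, 1, 3, 5,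 7]), (2, [0, 0, 3], [7, 0, 0, 0, 0]), (1, [2, 0, 5], [7, 0, 0, 0, 0]), (1, [0, 0, 3], [7, 0, 0, 0, 0]), (1, [0, 6, 3], [0, 1, 3, 5, 7]), (2, [0, 0, 3], [1, 0, 0, 0, 0]), (1, [0, 0, 5], [7, 0, 0, 0, 0]), (2, [2, 0, 3], [1, 0, 0, 0, 0]), (1, [0, 0, 5], [1, 0, 0, 0, 0]), (1, [2, 0, 5], [1, 0, 0, 0, 0])]

def cJ : List ℕ := [1, 0, 7]
def cP : List ℕ := [0, 1, 4, 7, 0, 7, 4, 1]
def cQ : List ℕ := [1, 3, 2, 6, 5, 7]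

/-- the class: `0` for the index `0`, `1` for even and `2` for odd exponent of `2` -/
def nextC (d c : ℕ) : ℕ := if Nat.beq d 1 then 1 else if Nat.beq c 0 then 0 else 3 - c

def step (d : ℕ) (s : St) : St :=
  (nextC d s.1, tabulate (fun l => (lin 2 2 cJ d l s.2.1 + lin 2 7 cP d l s.2.2) % 8) 3 0,
    tabulate (fun l => lin 2 5 cQ d l s.2.2 % 8) 5 0)

theorem T_zero : memB eqS (0, [0, 0, 0], [1, 0, 0, 0, 0]) T = true := by decide +kernel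

theorem T_step : allB (fun s => allD (fun d => memB eqS (step d s) T) 2) T = true := by decide +kernel

def kval (s : St) : ℕ := (get s.2.1 0 + 6 * get s.2.1 1 + get s.2.1 2) % 8

theorem T_value : allB (fun s => (Nat.beq s.1 0 || (Nat.beq s.1 1 && Nat.beq (kval s % 2) 1)) ||
    (Nat.beq s.1 2 && (Nat.beq (kval s) 3 || Nat.beq (kval s) 5))) T = true := by decide +kernel

end Q264.ColThree
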