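import Pool.Agent.Q264.ColThree

/-!
# The case of three colours: the functional equations
-/

set_option autoImplicit false

namespace Q264.ColThree

open PowerSeries Finset Q264.Quad Q264.TMPow Q264.RegWin Q264.ColPart

/-- `1 / (1 - x)` -/
noncomputable abbrev Pg : PowerSeries ℤ := geo 1

noncomputable abbrev H : PowerSeries ℤ := Pg * S 2 1

noncomputable abbrev G : PowerSeries ℤ := (1 - X) * TM

theorem Pg_mul : (1 - X) * Pg = 1 := by
  have := geo_mul 1 le_rfl
  rwa [pow_one] at this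

theorem TM_S : TM * S 2 1 = 1 := by
  have := TM_mul_S 1
  rwa [pow_one] at this

theorem H_mul_G : H * G = 1 := by
  linear_combination (TM * S 2 1) * Pg_mul + TM_S

theorem H_two : ∃ U : PowerSeries ℤ, H = 1 + 2 * U := by
  obtain ⟨U, hU⟩ := TM_two
  refine ⟨X * H * TM - H * U, ?_⟩
  have h1 := H_mul_G
  linear_combination (-H) * hU + h1

theorem exists_V : ∃ V : PowerSeries ℤ, H ^ 2 = 1 + 4 * V := by
  obtain ⟨U, hU⟩ := H_two
  exact ⟨U + U ^ 2, by rw [hU]; ring⟩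

noncomputable def V : PowerSeries ℤ := exists_V.choose

theorem V_spec : H ^ 2 = 1 + 4 * V := exists_V.choose_spec

noncomputable def K : PowerSeries ℤ := G * (V + 2 * V ^ 2)

theorem K_spec : H ^ 3 = G + 8 * K := by
  have h1 := H_mul_G
  have h2 := V_spec
  unfold K
  have h3 : H ^ 3 = G * (H ^ 2) ^ 2 := by linear_combination (-H ^ 3) * h1
  rw [h3, h2]
  ring

theorem TM_fun : TM = (1 - X) * E2 TM := TM_eq

theorem E2_Pg : (1 - X ^ 2) * E2 Pg = 1 := by
  have h := congrArg E2 Pg_mul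
  simp only [E2, map_mul, map_sub, map_one, expand_X] at h
  exact h

theorem H_fun : H * (1 - X) ^ 2 = (1 - X ^ 2) * E2 H := by
  have h1 := S_eq 2 1 le_rfl
  rw [pow_one] at h1
  have h2 : E2 H = E2 Pg * E2 (S 2 1) := by simp only [E2, map_mul]
  rw [h2]
  have h3 : S 2 1 = Pg * E2 (S 2 1) := h1
  have h4 : H * (1 - X) ^ 2 = E2 (S 2 1) := by
    have h5 : H * (1 - X) ^ 2 = Pg * (Pg * E2 (S 2 1)) * (1 - X) ^ 2 := by rw [← h3]
    rw [h5]
    linear_combination ((1 - X) * Pg + 1) * E2 (S 2 1) * Pg_mul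
  rw [h4]
  linear_combination (-E2 (S 2 1)) * E2_Pg

theorem eight_ne : (8 : PowerSeries ℤ) ≠ 0 := by
  intro h
  have := congrArg (coeff 0) h
  rw [show (8 : PowerSeries ℤ) = C 8 from (map_ofNat C 8).symm, coeff_C, if_pos rfl] at this
  simp at this

noncomputable abbrev Y : PowerSeries ℤ := (1 - X) ^ 4 * X * (1 + X ^ 2)

theorem K_fun : K * (1 - X) ^ 6 = (1 - X ^ 2) ^ 3 * E2 K + Y * E2 TM := by
  apply mul_left_cancel₀ eight_ne
  have h1 := K_spec
  have h2 : E2 H ^ 3 = (1 - X ^ 2) * E2 TM + 8 * E2 K := by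
    have := congrArg E2 K_spec
    simp only [E2, map_mul, map_pow, map_add, map_sub, map_one, map_ofNat, expand_X] at this ⊢
    exact this
  have h3 : (H * (1 - X) ^ 2) ^ 3 = ((1 - X ^ 2) * E2 H) ^ 3 := by rw [H_fun]
  have h4 := TM_fun
  linear_combination (-(1 - X) ^ 6) * h1 + h3 + (1 - X ^ 2) ^ 3 * h2 - (1 - X) ^ 7 * h4

noncomputable abbrev Phi : PowerSeries ℤ := Pg ^ 4 * TM

noncomputable abbrev J : PowerSeries ℤ := K * Pg ^ 2

theorem pow_eight : (1 - X : PowerSeries ℤ) ^ 8 = (1 - X ^ 2) ^ 4 - 8 * Y := by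
  ring

theorem E2_Phi : E2 Phi = E2 Pg ^ 4 * E2 TM := by
  simp only [E2, map_mul, map_pow]

theorem E2_J : E2 J = E2 K * E2 Pg ^ 2 := by
  simp only [E2, map_mul, map_pow]

theorem Pg_pow (k : ℕ) : (1 - X) ^ k * Pg ^ k = 1 := by
  rw [← mul_pow, Pg_mul, one_pow]

theorem E2Pg_pow (k : ℕ) : (1 - X ^ 2) ^ k * E2 Pg ^ k = 1 := by
  rw [← mul_pow, E2_Pg, one_pow]

theorem Phi_fun : Phi = (1 - X) ^ 5 * E2 Phi + 8 * (Y * Pg ^ 3 * E2 Phi) := by
  rw [E2_Phi]
  have h1 : Phi = Pg ^ 3 * E2 TM := by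
    have : Phi = Pg ^ 4 * ((1 - X) * E2 TM) := by rw [← TM_fun]
    rw [this]
    linear_combination Pg ^ 3 * E2 TM * Pg_mul
  have h2 := E2Pg_pow 4
  have h3 := pow_eight
  have h4 := Pg_pow 3
  rw [h1]
  linear_combination (-(Pg ^ 3 * E2 TM)) * h2 + (-(Pg ^ 3 * E2 TM) * E2 Pg ^ 4) * h3 +
    ((1 - X) ^ 5 * E2 Pg ^ 4 * E2 TM) * h4

theorem Pg_eight : Pg ^ 8 = E2 Pg ^ 4 + 8 * (Y * Pg ^ 8 * E2 Pg ^ 4) := by
  have h2 := E2Pg_pow 4
  have h3 := pow_eight
  have h4 := Pg_pow 8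
  linear_combination (-(Pg ^ 8)) * h2 + (-(Pg ^ 8 * E2 Pg ^ 4)) * h3 + E2 Pg ^ 4 * h4

theorem J_fun : J = (1 - X ^ 2) * E2 J + Y * E2 Phi + 8 * ((Y * Pg ^ 8 * E2 Pg ^ 4) * ((1 - X ^ 2) ^ 3 * E2 K + Y * E2 TM)) := by
  have h1 : J = Pg ^ 8 * (K * (1 - X) ^ 6) := by
    have := Pg_pow 6
    linear_combination (-(K * Pg ^ 2)) * this
  rw [E2_J, E2_Phi, h1, K_fun]
  have h2 := E2Pg_pow 2
  have h5 := Pg_eight
  linear_combination ((1 - X ^ 2) ^ 3 * E2 K + Y * E2 TM) * h5 + (1 - X ^ 2) * E2 K * E2 Pg ^ 2 * h2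

/-! ### the states -/

def cY (j : ℕ) : ℤ := ([0, 1, -4, 7, -8, 7, -4, 1] : List ℤ).getD j 0

def cX (j : ℕ) : ℤ := ([1, 0, -1] : List ℤ).getD j 0

def c5 (j : ℕ) : ℤ := ([1, -5, 10, -10, 5, -1] : List ℤ).getD j 0

theorem sum_cY : (∑ j ∈ range (7 + 1), C (cY j) * X ^ j : PowerSeries ℤ) = Y := by
  simp [Finset.sum_range_succ, cY]
  ring

theorem sum_cX : (∑ j ∈ range (2 + 1), C (cX j) * X ^ j : PowerSeries ℤ) = 1 - X ^ 2 := by
  simp [Finset.sum_range_succ, cX]
  ring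

theorem sum_c5 : (∑ j ∈ range (5 + 1), C (c5 j) * X ^ j : PowerSeries ℤ) = (1 - X) ^ 5 := by
  simp [Finset.sum_range_succ, c5]
  ring

/-- the class of the index -/
noncomputable def cls (n : ℕ) : ℕ := if n = 0 then 0 else if padicValNat 2 n % 2 = 0 then 1 else 2

theorem cls_step (n d : ℕ) (hd : d < 2) : cls (2 * n + d) = nextC d (cls n) := by
  unfold cls nextC
  rcases (show d = 0 ∨ d = 1 by omega) with rfl | rfl
  · rw [add_zero, if_neg (show ¬ (Nat.beq 0 1 = true) by decide)]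
    by_cases hn : n = 0
    · subst hn; simp
    · have h1 : padicValNat 2 (2 * n) = padicValNat 2 n + 1 := by
        rw [padicValNat.mul (by norm_num) hn, padicValNat.self (by norm_num)]; ring
      rw [if_neg (show ¬ (2 * n = 0) by omega), h1, if_neg hn]
      by_cases h2 : padicValNat 2 n % 2 = 0
      · rw [if_neg (by omega), if_pos h2]; rfl
      · rw [if_pos (by omega), if_neg h2]; rfl
  · rw [if_pos (show Nat.beq 1 1 = true by decide), if_neg (by omega), if_pos]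
    rw [padicValNat.eq_zero_of_not_dvd (by omega)]

noncomputable def st (n : ℕ) : St := (cls n, wn 8 J 3 n, wn 8 Phi 5 n)

theorem st_step (n d : ℕ) (hd : d < 2) : st (2 * n + d) = step d (st n) := by
  unfold st step
  have hc : ((2 * n + d : ℕ) : ℤ) = ((2 : ℕ) : ℤ) * (n : ℤ) + (d : ℤ) := by push_cast; ring
  refine Prod.ext (cls_step n d hd) (Prod.ext ?_ ?_)
  · show wn 8 J 3 ((2 * n + d : ℕ) : ℤ) = _
    rw [hc]
    refine wn_step2 (M := 8) (p := 2) (w := 3) (w1 := 3) (w2 := 5) (D1 := 2) (D2 := 7) (by norm_num) (by norm_num)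
      J J Phi ((Y * Pg ^ 8 * E2 Pg ^ 4) * ((1 - X ^ 2) ^ 3 * E2 K + Y * E2 TM)) cX cY cJ cP ?_ ?_ ?_ ?_ ?_ n d hd
    · rw [sum_cX, sum_cY]
      have : (C ((8 : ℕ) : ℤ) : PowerSeries ℤ) = 8 := map_ofNat C 8
      rw [this]
      exact J_fun
    · intro j hj; interval_cases j <;> decide
    · intro l hl; omega
    · intro j hj; interval_cases j <;> decide
    · intro l hl; omega
  · show wn 8 Phi 5 ((2 * n + d : ℕ) : ℤ) = _
    rw [hc]
    refine wn_step1 (M := 8) (p := 2) (w := 5) (w1 := 5) (D1 := 5) (by norm_num) (by norm_num)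
      Phi Phi (Y * Pg ^ 3 * E2 Phi) c5 cQ ?_ ?_ ?_ n d hd
    · rw [sum_c5]
      have : (C ((8 : ℕ) : ℤ) : PowerSeries ℤ) = 8 := map_ofNat C 8
      rw [this]
      exact Phi_fun
    · intro j hj; interval_cases j <;> decide
    · intro l hl; omega

theorem const_TM : constantCoeff TM = 1 := by
  rw [← coeff_zero_eq_constantCoeff_apply]
  unfold TM PT
  rw [coeff_mk]
  simp

theorem const_Pg : constantCoeff Pg = 1 := by
  rw [← coeff_zero_eq_constantCoeff_apply, coeff_geo, if_pos (dvd_zero _)]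

theorem const_V : constantCoeff V = 0 := by
  have h := congrArg constantCoeff V_spec
  have h2 : constantCoeff H = 1 := by
    have h1 := congrArg constantCoeff H_mul_G
    have h3 : constantCoeff G = 1 := by
      simp [G, const_TM]
    rw [map_mul, h3, map_one, mul_one] at h1
    exact h1
  rw [map_pow, h2, map_add, map_one, map_mul, show constantCoeff (4 : PowerSeries ℤ) = 4 from map_ofNat _ 4] at h
  omega

theorem const_J : constantCoeff J = 0 := by
  have h : constantCoeff (V + 2 * V ^ 2) = 0 := by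
    rw [map_add, map_mul, map_pow, const_V]
    simp
  show constantCoeff (G * (V + 2 * V ^ 2) * Pg ^ 2) = 0
  rw [map_mul, map_mul, h]
  simp

theorem const_Phi : constantCoeff Phi = 1 := by
  unfold Phi
  rw [map_mul, map_pow, const_Pg, const_TM]
  norm_num

theorem st_zero : st 0 = (0, [0, 0, 0], [1, 0, 0, 0, 0]) := by
  unfold st
  refine Prod.ext (by simp [cls]) (Prod.ext ?_ ?_)
  · show wn 8 J 3 ((0 : ℕ) : ℤ) = _
    simp [wn, tabulate, res, ext0, const_J]
  · show wn 8 Phi 5 ((0 : ℕ) : ℤ) = _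
    simp [wn, tabulate, res, ext0, const_Phi]

theorem st_mem (n : ℕ) : st n ∈ T := by
  refine closureG eqS eqS_spec 2 le_rfl st step st_step T ?_ T_step n
  rw [st_zero]
  exact T_zero

/-- the residue of the coefficients of `K` -/
theorem K_mod (n : ℕ) : coeff n K ≡ (kval (st n) : ℤ) [ZMOD 8] := by
  have h1 : K = J + C (-2) * (X ^ 1 * J) + X ^ 2 * J := by
    have h2 := Pg_pow 2
    have h3 : (C (-2 : ℤ) : PowerSeries ℤ) = -2 := by
      rw [map_neg, map_ofNat]
    rw [h3]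
    linear_combination (-K) * h2
  have h4 : coeff n K = ext0 J n + (-2) * ext0 J (n - 1) + ext0 J (n - 2) := by
    rw [← ext0_nat]
    conv_lhs => rw [h1]
    rw [ext0_add, ext0_add, ext0_C_mul, ext0_X_pow_mul, ext0_X_pow_mul]
    rfl
  rw [h4]
  unfold kval st
  simp only
  have g0 : get (wn 8 J 3 n) 0 = res 8 J n := by
    unfold wn
    rw [get_tabulate _ _ _ _ (by norm_num)]
    simp
  have g1 : get (wn 8 J 3 n) 1 = res 8 J (n - 1) := by
    unfold wn
    rw [get_tabulate _ _ _ _ (by norm_num)]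
    simp
  have g2 : get (wn 8 J 3 n) 2 = res 8 J (n - 2) := by
    unfold wn
    rw [get_tabulate _ _ _ _ (by norm_num)]
    simp
  rw [g0, g1, g2]
  have r0 := res_modEq (M := 8) (by norm_num) J (n : ℤ)
  have r1 := res_modEq (M := 8) (by norm_num) J ((n : ℤ) - 1)
  have r2 := res_modEq (M := 8) (by norm_num) J ((n : ℤ) - 2)
  push_cast at r0 r1 r2 ⊢
  unfold Int.ModEq at *
  omega

theorem K_cases (n : ℕ) (hn : 1 ≤ n) : (padicValNat 2 n % 2 = 0 → coeff n K % 2 = 1) ∧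
    (padicValNat 2 n % 2 = 1 → coeff n K % 8 = 3 ∨ coeff n K % 8 = 5) := by
  have h1 := allB_spec _ _ T_value _ (st_mem n)
  have h2 := K_mod n
  unfold Int.ModEq at h2
  simp only [Bool.or_eq_true, Bool.and_eq_true, Nat.beq_eq] at h1
  have h3 : (st n).1 = cls n := rfl
  rw [h3] at h1
  unfold cls at h1
  rw [if_neg (by omega)] at h1
  refine ⟨fun h => ?_, fun h => ?_⟩
  · rw [if_pos h] at h1
    omega
  · rw [if_neg (by omega)] at h1
    omega

/-! ### the coefficients of the inverse -/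

theorem TM_even (n : ℕ) : coeff (2 * n) TM = coeff n TM := by
  conv_lhs => rw [TM_fun]
  rw [show (1 - X) * E2 TM = E2 TM - X ^ 1 * E2 TM by ring, map_sub, coeff_X_pow_mul', E2, coeff_expand,
    if_pos (dvd_mul_right _ _), Nat.mul_div_cancel_left _ (by norm_num)]
  by_cases h : 1 ≤ 2 * n
  · rw [if_pos h, coeff_expand, if_neg (by omega), sub_zero]
  · rw [if_neg h, sub_zero]

theorem TM_odd (n : ℕ) : coeff (2 * n + 1) TM = -coeff n TM := by
  conv_lhs => rw [TM_fun]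
  rw [show (1 - X) * E2 TM = E2 TM - X ^ 1 * E2 TM by ring, map_sub, coeff_X_pow_mul', E2, coeff_expand,
    if_neg (by omega), if_pos (by omega), coeff_expand, if_pos (by omega), show (2 * n + 1 - 1) / 2 = n by omega, zero_sub]

theorem TM_sign (n : ℕ) : coeff n TM = 1 ∨ coeff n TM = -1 := by
  induction n using Nat.strong_induction_on with
  | _ n ih =>
    rcases Nat.eq_zero_or_pos n with rfl | hn
    · left
      rw [coeff_zero_eq_constantCoeff_apply, const_TM]
    · rcases (show n = 2 * (n / 2) ∨ n = 2 * (n / 2) + 1 by omega) with h | h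
      · rw [h, TM_even]
        exact ih _ (by omega)
      · rw [h, TM_odd]
        rcases ih (n / 2) (by omega) with h1 | h1 <;> rw [h1]
        · right; rfl
        · left; rfl

theorem G_coeff (n : ℕ) (hn : 1 ≤ n) : coeff n G = coeff n TM - coeff (n - 1) TM := by
  rw [show G = TM - X ^ 1 * TM by unfold G; ring, map_sub, coeff_X_pow_mul', if_pos hn]

theorem G_cases (n : ℕ) (hn : 1 ≤ n) :
    (padicValNat 2 n % 2 = 0 → (coeff n TM - coeff (n - 1) TM = 2 ∨ coeff n TM - coeff (n - 1) TM = -2) ∧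
      coeff n TM + coeff (n - 1) TM = 0) ∧
    (padicValNat 2 n % 2 = 1 → (coeff n TM + coeff (n - 1) TM = 2 ∨ coeff n TM + coeff (n - 1) TM = -2) ∧
      coeff n TM - coeff (n - 1) TM = 0) := by
  induction n using Nat.strong_induction_on with
  | _ n ih =>
    rcases (show n % 2 = 0 ∨ n % 2 = 1 by omega) with h | h
    · obtain ⟨k, rfl⟩ : ∃ k, n = 2 * k := ⟨n / 2, by omega⟩
      have hk : 1 ≤ k := by omega
      have h1 : padicValNat 2 (2 * k) = padicValNat 2 k + 1 := by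
        rw [padicValNat.mul (by norm_num) (by omega), padicValNat.self (by norm_num)]; ring
      have h2 : 2 * k - 1 = 2 * (k - 1) + 1 := by omega
      have h3 := ih k (by omega) hk
      rw [h1, h2, TM_even, TM_odd, sub_neg_eq_add, ← sub_eq_add_neg]
      exact ⟨fun h4 => h3.2 (by omega), fun h4 => h3.1 (by omega)⟩
    · obtain ⟨k, rfl⟩ : ∃ k, n = 2 * k + 1 := ⟨n / 2, by omega⟩
      have h1 : padicValNat 2 (2 * k + 1) = 0 := padicValNat.eq_zero_of_not_dvd (by omega)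
      rw [h1, show 2 * k + 1 - 1 = 2 * k by omega, TM_even, TM_odd]
      refine ⟨fun _ => ?_, fun h4 => by omega⟩
      rcases TM_sign k with h5 | h5 <;> rw [h5] <;> norm_num

/-- the third power of `H` -/
theorem main (n : ℕ) (hn : 1 ≤ n) : ∃ a : ℕ, ∃ w : ℤ, coeff n (H ^ 3) = 2 ^ a * w ∧ (w % 8 = 3 ∨ w % 8 = 5 ∨ w % 8 = 7) := by
  have h1 := K_cases n hn
  have h2 := G_cases n hn
  have h3 : coeff n (H ^ 3) = coeff n G + 8 * coeff n K := by
    rw [K_spec, map_add, show (8 : PowerSeries ℤ) = C 8 from (map_ofNat C 8).symm, coeff_C_mul]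
  rw [h3, G_coeff n hn]
  rcases (show padicValNat 2 n % 2 = 0 ∨ padicValNat 2 n % 2 = 1 by omega) with h | h
  · have h4 := h1.1 h
    rcases (h2.1 h).1 with h5 | h5
    · refine ⟨1, 1 + 4 * coeff n K, ?_, ?_⟩
      · rw [h5]; ring
      · omega
    · refine ⟨1, -1 + 4 * coeff n K, ?_, ?_⟩
      · rw [h5]; ring
      · omega
  · have h4 := h1.2 h
    refine ⟨3, coeff n K, ?_, ?_⟩
    · rw [(h2.2 h).2]; ring
    · omega

theorem H_cube (n : ℕ) : coeff n (H ^ 3) = coeff n (geo 1 ^ 3 * P 2 3 (n + 1)) := by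
  have h1 : (S 2 1) ^ 3 = S 2 3 := by
    have h2 : TM ^ 3 * (S 2 1) ^ 3 = 1 := by rw [← mul_pow, TM_S, one_pow]
    have h3 := TM_mul_S 3
    calc (S 2 1) ^ 3 = (S 2 1) ^ 3 * (TM ^ 3 * S 2 3) := by rw [h3, mul_one]
      _ = (TM ^ 3 * (S 2 1) ^ 3) * S 2 3 := by ring
      _ = S 2 3 := by rw [h2, one_mul]
  have h4 : H ^ 3 = geo 1 ^ 3 * S 2 3 := by rw [← h1]; ring
  rw [h4]
  exact ((Cg.rfl' _).mul' (S_cg 2 3 le_rfl (n + 1))).coeff (by omega)

end Q264.ColThree
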