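import Mathlib

/-!
# Gaussian power sums with exponent `p - 1`
-/

set_option autoImplicit false

namespace Q264.GaussSum

open Finset

/-- the power sum `∑ a ^ k`, `1 ≤ a ≤ p - 1` -/
def S (p k : ℕ) : ℤ := ∑ a ∈ Icc 1 (p - 1), (a : ℤ) ^ k

/-- the Gaussian power sum -/
def G (p n : ℕ) : GaussianInt := ∑ a ∈ Icc 1 (p - 1), ∑ b ∈ Icc 1 (p - 1), (⟨(a : ℤ), (b : ℤ)⟩ : GaussianInt) ^ n

/-- the imaginary unit -/
def I : GaussianInt := ⟨0, 1⟩

theorem I_sq : I ^ 2 = -1 := by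
  unfold I
  rw [pow_two]
  ext <;> simp

theorem mk_eq (a b : ℤ) : (⟨a, b⟩ : GaussianInt) = (a : GaussianInt) + (b : GaussianInt) * I := by
  unfold I
  ext <;> simp

theorem G_expand (p n : ℕ) : G p n = ∑ m ∈ range (n + 1), (n.choose m : GaussianInt) * I ^ (n - m) * (S p m : GaussianInt) * (S p (n - m) : GaussianInt) := by
  unfold G S
  have h1 : ∀ a b : ℕ, (⟨(a : ℤ), (b : ℤ)⟩ : GaussianInt) ^ n = ∑ m ∈ range (n + 1),
      (n.choose m : GaussianInt) * I ^ (n - m) * ((a : ℤ) : GaussianInt) ^ m * ((b : ℤ) : GaussianInt) ^ (n - m) := by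
    intro a b
    rw [mk_eq, add_pow]
    refine Finset.sum_congr rfl fun m _ => ?_
    rw [mul_pow]
    ring
  simp only [h1]
  rw [Finset.sum_congr rfl fun a _ => Finset.sum_comm, Finset.sum_comm]
  refine Finset.sum_congr rfl fun m _ => ?_
  push_cast
  rw [mul_assoc, Finset.sum_mul_sum, Finset.mul_sum]
  refine Finset.sum_congr rfl fun a _ => ?_
  rw [Finset.mul_sum]
  refine Finset.sum_congr rfl fun b _ => ?_
  ring

/-- divisibility by `p ^ 2` of the odd power sums -/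
theorem sq_dvd_S {p : ℕ} (hp : p.Prime) (h2 : p % 2 = 1) {k : ℕ} (hk : k % 2 = 1) (h3 : 3 ≤ k) (hkp : k < p) :
    ((p : ℤ) ^ 2) ∣ S p k := by
  have := Fact.mk hp
  -- `p` divides the power sum of exponent `k - 1`
  have h4 : (p : ℤ) ∣ S p (k - 1) := by
    rw [← ZMod.intCast_zmod_eq_zero_iff_dvd]
    unfold S
    push_cast
    have h5 := FiniteField.sum_pow_lt_card_sub_one (ZMod p) (k - 1) (by rw [ZMod.card]; omega)
    have h6 : ∑ x : ZMod p, x ^ (k - 1) = ∑ a ∈ range p, (a : ZMod p) ^ (k - 1) := by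
      refine Finset.sum_nbij (fun x : ZMod p => x.val) ?_ ?_ ?_ ?_
      · intro x _
        rw [mem_range]
        exact ZMod.val_lt x
      · intro x _ y _ h
        exact ZMod.val_injective p h
      · intro a ha
        rw [mem_coe, mem_range] at ha
        exact ⟨(a : ZMod p), by simp, ZMod.val_cast_of_lt ha⟩
      · intro x _
        rw [ZMod.natCast_zmod_val]
    rw [h6] at h5
    have h7 : ∑ a ∈ range p, (a : ZMod p) ^ (k - 1) = ∑ a ∈ Icc 1 (p - 1), (a : ZMod p) ^ (k - 1) := by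
      symm
      refine Finset.sum_subset ?_ ?_
      · intro a ha
        rw [mem_Icc] at ha
        rw [mem_range]
        omega
      · intro a ha hb
        rw [mem_range] at ha
        rw [mem_Icc] at hb
        obtain rfl : a = 0 := by omega
        rw [Nat.cast_zero, zero_pow (by omega)]
    rw [← h7]
    exact h5
  -- reflection
  have h8 : S p k = ∑ a ∈ Icc 1 (p - 1), ((p : ℤ) - a) ^ k := by
    unfold S
    refine Finset.sum_nbij' (fun a => p - a) (fun a => p - a) ?_ ?_ ?_ ?_ ?_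
    · intro a ha; rw [mem_Icc] at *; omega
    · intro a ha; rw [mem_Icc] at *; omega
    · intro a ha; rw [mem_Icc] at *; omega
    · intro a ha; rw [mem_Icc] at *; omega
    · intro a ha
      rw [mem_Icc] at ha
      rw [Nat.cast_sub (by omega)]
      congr 1
      ring
  have h9 : ∀ a : ℕ, ∃ c : ℤ, ((p : ℤ) - a) ^ k = -(a : ℤ) ^ k + k * p * (a : ℤ) ^ (k - 1) + c * p ^ 2 := by
    intro a
    obtain ⟨c, hc⟩ := Polynomial.powAddExpansion (-(a : ℤ)) (p : ℤ) k
    refine ⟨c, ?_⟩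
    rw [show (p : ℤ) - a = -(a : ℤ) + p by ring, hc]
    have e1 : (-(a : ℤ)) ^ k = -(a : ℤ) ^ k := Odd.neg_pow ⟨k / 2, by omega⟩ _
    have e2 : (-(a : ℤ)) ^ (k - 1) = (a : ℤ) ^ (k - 1) := Even.neg_pow ⟨(k - 1) / 2, by omega⟩ _
    rw [e1, e2]
    ring
  choose c hc using h9
  have h10 : 2 * S p k = k * p * S p (k - 1) + (∑ a ∈ Icc 1 (p - 1), c a) * p ^ 2 := by
    have h11 : S p k = -S p k + k * p * S p (k - 1) + (∑ a ∈ Icc 1 (p - 1), c a) * p ^ 2 := by
      conv_lhs => rw [h8, Finset.sum_congr rfl fun a _ => hc a]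
      rw [Finset.sum_add_distrib, Finset.sum_add_distrib, Finset.sum_neg_distrib, ← Finset.mul_sum, ← Finset.sum_mul]
      rfl
    linarith
  have h12 : ((p : ℤ) ^ 2) ∣ 2 * S p k := by
    rw [h10]
    refine dvd_add ?_ (dvd_mul_left _ _)
    obtain ⟨d, hd⟩ := h4
    rw [hd]
    exact ⟨k * d, by ring⟩
  have h13 : IsCoprime ((p : ℤ) ^ 2) 2 := by
    refine IsCoprime.pow_left ?_
    rw [Int.isCoprime_iff_gcd_eq_one]
    have : Nat.Coprime p 2 := (Nat.coprime_two_right (n := p)).2 ⟨p / 2, by omega⟩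
    exact this
  exact h13.dvd_of_dvd_mul_left h12

theorem dvd_S_one {p : ℕ} (hp : p.Prime) (h2 : p % 2 = 1) : (p : ℤ) ∣ S p 1 := by
  have h1 : S p 1 * 2 = p * (p - 1) := by
    unfold S
    simp only [pow_one]
    have h3 := Finset.sum_range_id_mul_two p
    have h4 : ∑ a ∈ range p, a = ∑ a ∈ Icc 1 (p - 1), a := by
      symm
      refine Finset.sum_subset ?_ ?_
      · intro a ha
        rw [mem_Icc] at ha
        rw [mem_range]
        omega
      · intro a ha hb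
        rw [mem_range] at ha
        rw [mem_Icc] at hb
        omega
    rw [h4] at h3
    have h5 : (((∑ a ∈ Icc 1 (p - 1), a) * 2 : ℕ) : ℤ) = ((p * (p - 1) : ℕ) : ℤ) := by rw [h3]
    rw [Nat.cast_mul, Nat.cast_mul, Nat.cast_sum, Nat.cast_sub hp.pos] at h5
    exact_mod_cast h5
  have h6 : (p : ℤ) ∣ S p 1 * 2 := by rw [h1]; exact dvd_mul_right _ _
  have h7 : IsCoprime (p : ℤ) 2 := by
    rw [Int.isCoprime_iff_gcd_eq_one]
    have : Nat.Coprime p 2 := (Nat.coprime_two_right (n := p)).2 ⟨p / 2, by omega⟩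
    exact this
  exact h7.dvd_of_dvd_mul_right h6

/-- all odd products are divisible by `p ^ 4` -/
theorem prod_dvd {p : ℕ} (hp : p.Prime) (h4 : p % 4 = 3) (h7 : 7 ≤ p) (hS : ((p : ℤ) ^ 3) ∣ S p (p - 2)) {m : ℕ}
    (hm : m % 2 = 1) (hmp : m ≤ p - 1) : ((p : ℤ) ^ 4) ∣ S p m * S p (p - 1 - m) := by
  have h1 := dvd_S_one hp (by omega)
  have h2 : ((p : ℤ) ^ 4) ∣ S p 1 * S p (p - 2) := by
    rw [pow_succ' (p : ℤ) 3]
    exact mul_dvd_mul h1 hS
  rcases (show m = 1 ∨ m = p - 2 ∨ (3 ≤ m ∧ m ≤ p - 4) by omega) with h | h | h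
  · rw [h, show p - 1 - 1 = p - 2 by omega]
    exact h2
  · rw [h, show p - 1 - (p - 2) = 1 by omega, mul_comm]
    exact h2
  · rw [show (p : ℤ) ^ 4 = p ^ 2 * p ^ 2 by ring]
    exact mul_dvd_mul (sq_dvd_S hp (by omega) hm h.1 (by omega)) (sq_dvd_S hp (by omega) (by omega) (by omega) (by omega))

theorem I_pow_even {n m : ℕ} (hn : n % 4 = 2) (hm : m % 2 = 0) (hmn : m ≤ n) : I ^ (n - m) + I ^ m = 0 := by
  obtain ⟨j, rfl⟩ : ∃ j, m = 2 * j := ⟨m / 2, by omega⟩
  obtain ⟨q, hq⟩ : ∃ q, n - 2 * j = 2 * q := ⟨(n - 2 * j) / 2, by omega⟩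
  rw [hq, pow_mul, pow_mul, I_sq]
  rcases Nat.even_or_odd j with h | h
  · have h1 : Odd q := by
      obtain ⟨a, ha⟩ := h
      exact ⟨q / 2, by omega⟩
    rw [h.neg_one_pow, h1.neg_one_pow]; ring
  · have h1 : Even q := by
      obtain ⟨a, ha⟩ := h
      exact ⟨q / 2, by omega⟩
    rw [h.neg_one_pow, h1.neg_one_pow]; ring

theorem G_dvd {p : ℕ} (hp : p.Prime) (h4 : p % 4 = 3) (h7 : 7 ≤ p) (hS : ((p : ℤ) ^ 3) ∣ S p (p - 2)) :
    ((p : ℤ) ^ 4) ∣ (G p (p - 1)).re ∧ ((p : ℤ) ^ 4) ∣ (G p (p - 1)).im := by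
  have h1 : 2 * G p (p - 1) = ∑ m ∈ range (p - 1 + 1), ((p - 1).choose m : GaussianInt) * (I ^ (p - 1 - m) + I ^ m) *
      ((S p m * S p (p - 1 - m) : ℤ) : GaussianInt) := by
    have h2 := G_expand p (p - 1)
    have h3 := Finset.sum_range_reflect (fun m => ((p - 1).choose m : GaussianInt) * I ^ (p - 1 - m) *
      (S p m : GaussianInt) * (S p (p - 1 - m) : GaussianInt)) (p - 1 + 1)
    rw [two_mul]
    conv_lhs => rw [h2]
    conv_lhs => rhs; rw [← h3]
    rw [← Finset.sum_add_distrib]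
    refine Finset.sum_congr rfl fun m hm => ?_
    rw [mem_range] at hm
    rw [show p - 1 + 1 - 1 - m = p - 1 - m by omega, show p - 1 - (p - 1 - m) = m by omega,
      Nat.choose_symm (by omega)]
    push_cast
    ring
  have h5 : (((p : ℤ) ^ 4 : ℤ) : GaussianInt) ∣ 2 * G p (p - 1) := by
    rw [h1]
    refine Finset.dvd_sum fun m hm => ?_
    rw [mem_range] at hm
    by_cases hm2 : m % 2 = 0
    · rw [I_pow_even (by omega) hm2 (by omega), mul_zero, zero_mul]
      exact dvd_zero _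
    · refine Dvd.dvd.mul_left ?_ _
      obtain ⟨d, hd⟩ := prod_dvd hp h4 h7 hS (m := m) (by omega) (by omega)
      rw [hd]
      exact ⟨(d : GaussianInt), by push_cast; ring⟩
  obtain ⟨W, hW⟩ := h5
  have hco : IsCoprime ((p : ℤ) ^ 4) 2 := by
    refine IsCoprime.pow_left ?_
    rw [Int.isCoprime_iff_gcd_eq_one]
    have : Nat.Coprime p 2 := (Nat.coprime_two_right (n := p)).2 ⟨p / 2, by omega⟩
    exact this
  have hre := congrArg Zsqrtd.re hW
  have him := congrArg Zsqrtd.im hW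
  have e2 : (2 : GaussianInt) = ((2 : ℤ) : GaussianInt) := by norm_cast
  rw [e2, Zsqrtd.re_smul, Zsqrtd.re_smul] at hre
  rw [e2, Zsqrtd.im_smul, Zsqrtd.im_smul] at him
  refine ⟨hco.dvd_of_dvd_mul_left (hre ▸ dvd_mul_right _ _), hco.dvd_of_dvd_mul_left (him ▸ dvd_mul_right _ _)⟩

end Q264.GaussSum
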