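import Pool.Agent.Q264.HankTable

/-!
# Hankel determinants of the weighted binary digit sum: a double root at `-1` for the order 55
-/

set_option autoImplicit false

namespace Q264.Hank

open Polynomial

/-- the weighted binary digit sum -/
noncomputable def S (n : ℕ) : ℤ[X] := Nat.ofDigits (X : ℤ[X]) (Nat.digits 2 n)

theorem S_rec (n : ℕ) : S n = C ((n % 2 : ℕ) : ℤ) + X * S (n / 2) := by
  unfold S
  rcases Nat.eq_zero_or_pos n with rfl | hn
  · simp [Nat.ofDigits]
  · rw [Nat.digits_def' (by norm_num) hn, Nat.ofDigits, map_natCast]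

theorem taylor : ∀ f n : ℕ, n < 2 ^ f → ∃ R : ℤ[X], S n = C (ab f n).1 + C (ab f n).2 * (X + 1) + (X + 1) ^ 2 * R := by
  intro f
  induction f with
  | zero =>
    intro n hn
    obtain rfl : n = 0 := by simpa using hn
    exact ⟨0, by simp [S, ab, Nat.ofDigits]⟩
  | succ f ih =>
    intro n hn
    obtain ⟨R, hR⟩ := ih (n / 2) (by rw [pow_succ] at hn; omega)
    refine ⟨C (ab f (n / 2)).2 + X * R, ?_⟩
    rw [S_rec, hR]
    simp only [ab, map_sub]
    ring

theorem eval_one : ∀ f n : ℕ, n < 2 ^ f → (S n).eval 1 = (sd f n : ℤ) := by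
  intro f
  induction f with
  | zero =>
    intro n hn
    obtain rfl : n = 0 := by simpa using hn
    simp [S, sd, Nat.ofDigits]
  | succ f ih =>
    intro n hn
    rw [S_rec, eval_add, eval_C, eval_mul, eval_X, one_mul, ih (n / 2) (by rw [pow_succ] at hn; omega), sd]
    push_cast
    rfl

/-- the Hankel matrix -/
noncomputable def H (n : ℕ) : Matrix (Fin n) (Fin n) ℤ[X] := fun i j => S (i + j)

theorem sumTo_eq (f : ℕ → ℕ) (n : ℕ) : sumTo f n = ∑ j ∈ Finset.range n, f j := by
  induction n with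
  | zero => rfl
  | succ n ih => rw [sumTo, ih, Finset.sum_range_succ]

theorem sumZ_eq (f : ℕ → ℤ) (n : ℕ) : sumZ f n = ∑ j ∈ Finset.range n, f j := by
  induction n with
  | zero => rfl
  | succ n ih => rw [sumZ, ih, Finset.sum_range_succ]

noncomputable def V : Fin 55 → ℤ[X] := fun j => C (vl.getD j 0) + C (wl.getD j 0) * (X + 1)

theorem HV_dvd (i : Fin 55) : (X + 1) ^ 2 ∣ ((H 55).mulVec V) i := by
  unfold Matrix.mulVec dotProduct H V
  choose R hR using fun j : Fin 55 => taylor 7 (i + j) (by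
    have := i.2
    have := j.2
    norm_num
    omega)
  have h1 : ∑ j : Fin 55, S ((i : ℕ) + j) * (C (vl.getD j 0) + C (wl.getD j 0) * (X + 1)) =
      C (∑ j : Fin 55, (ab 7 (i + j)).1 * vl.getD j 0) +
      C (∑ j : Fin 55, ((ab 7 (i + j)).2 * vl.getD j 0 + (ab 7 (i + j)).1 * wl.getD j 0)) * (X + 1) +
      (X + 1) ^ 2 * ∑ j : Fin 55, (C ((ab 7 (i + j)).2 * wl.getD j 0) +
        R j * (C (vl.getD j 0) + C (wl.getD j 0) * (X + 1))) := by
    rw [map_sum, map_sum, Finset.sum_mul, Finset.mul_sum, ← Finset.sum_add_distrib, ← Finset.sum_add_distrib]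
    refine Finset.sum_congr rfl fun j _ => ?_
    rw [hR j]
    simp only [map_add, map_mul]
    ring
  have h2 : ∑ j : Fin 55, (ab 7 (i + j)).1 * vl.getD j 0 = 0 := by
    have := first_check i i.2
    rw [sumZ_eq] at this
    rw [← this]
    exact Fin.sum_univ_eq_sum_range (fun j => (ab 7 (i + j)).1 * vl.getD j 0) 55
  have h3 : ∑ j : Fin 55, ((ab 7 (i + j)).2 * vl.getD j 0 + (ab 7 (i + j)).1 * wl.getD j 0) = 0 := by
    have := second_check i i.2
    rw [sumZ_eq] at this
    rw [← this]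
    exact Fin.sum_univ_eq_sum_range (fun j => (ab 7 (i + j)).2 * vl.getD j 0 + (ab 7 (i + j)).1 * wl.getD j 0) 55
  show (X + 1) ^ 2 ∣ ∑ j : Fin 55, S ((i : ℕ) + j) * (C (vl.getD j 0) + C (wl.getD j 0) * (X + 1))
  rw [h1, h2, h3, map_zero, zero_mul, zero_add, zero_add]
  exact dvd_mul_right _ _

theorem dvd_det_of_mulVec {R : Type*} [CommRing R] {n : ℕ} (M : Matrix (Fin n) (Fin n) R) (v : Fin n → R)
    (i0 : Fin n) (hv : v i0 = 1) (a : R) (h : ∀ i, a ∣ (M.mulVec v) i) : a ∣ M.det := by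
  have h1 : M.adjugate.mulVec (M.mulVec v) = M.det • v := by
    rw [Matrix.mulVec_mulVec, Matrix.adjugate_mul, Matrix.smul_mulVec, Matrix.one_mulVec]
  have h2 := congrFun h1 i0
  rw [Pi.smul_apply, hv, smul_eq_mul, mul_one] at h2
  rw [← h2]
  unfold Matrix.mulVec dotProduct
  refine Finset.dvd_sum fun j _ => ?_
  exact Dvd.dvd.mul_left (h j) _

theorem e1 : vl.getD 54 0 = 1 := by decide +kernel
theorem e2 : wl.getD 54 0 = 0 := by decide +kernel

theorem V_last : V ⟨54, by norm_num⟩ = 1 := by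
  unfold V
  show C (vl.getD 54 0) + C (wl.getD 54 0) * (X + 1) = 1
  rw [e1, e2]
  simp

theorem det_dvd : (X + 1) ^ 2 ∣ (H 55).det :=
  dvd_det_of_mulVec (H 55) V ⟨54, by norm_num⟩ V_last _ HV_dvd

/-- evaluation at `1` modulo `5` -/
noncomputable def ev : ℤ[X] →+* ZMod 5 := (Int.castRingHom (ZMod 5)).comp (evalRingHom 1)

theorem det_ne : ev (H 55).det ≠ 0 := by
  rw [RingHom.map_det]
  set N : Matrix (Fin 55) (Fin 55) (ZMod 5) := fun k j => (entry k j : ZMod 5) with hN
  have h1 : (ev.mapMatrix (H 55)) * N = 1 := by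
    ext i j
    rw [Matrix.mul_apply]
    have h2 : ∀ k : Fin 55, (ev.mapMatrix (H 55)) i k * N k j = ((sd 7 (i + k) * entry k j : ℕ) : ZMod 5) := by
      intro k
      have h3 : (ev.mapMatrix (H 55)) i k = ((sd 7 (i + k) : ℕ) : ZMod 5) := by
        show ev (S (i + k)) = _
        unfold ev
        rw [RingHom.comp_apply, coe_evalRingHom, eval_one 7 (i + k) (by
          have := i.2
          have := k.2
          norm_num
          omega)]
        simp
      rw [h3, hN]
      push_cast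
      rfl
    rw [Finset.sum_congr rfl fun k _ => h2 k, ← Nat.cast_sum,
      Fin.sum_univ_eq_sum_range (fun k => sd 7 (i + k) * entry k j) 55, ← sumTo_eq]
    have h4 := inv_check i i.2 j j.2
    rw [← ZMod.natCast_mod, h4, Matrix.one_apply]
    by_cases hij : i = j
    · subst hij; simp
    · rw [if_neg (fun h => hij (Fin.ext h)), if_neg hij, Nat.cast_zero]
  intro h5
  have h6 := congrArg Matrix.det h1
  rw [Matrix.det_mul, h5, zero_mul, Matrix.det_one] at h6
  exact absurd h6 (by decide)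

end Q264.Hank
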