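import Mathlib

/-!
# Hankel determinants of the weighted binary digit sum: data for the order 55
-/

set_option autoImplicit false

namespace Q264.Hank

/-- the kernel vector at `t = -1` -/
def vl : List ℤ := [-3, 2, 1, 0, -1, 1, 1, 0, 0, 0, 0, 0, 0, 0, 0, 0, -3, 2, 1, 0, -1, 1, 1, 0, 0, 0, 0, 0, 0, 0, 0, 0, 8, -5, -2, 0, 2, -2, -2, 0, 2, -1, 0, 0, 0, 0, 0, 0, -3, 2, 1, 0, -1, 1, 1]

/-- the first order correction -/
def wl : List ℤ := [-19, 14, 3, 0, -4, 5, 3, 0, -2, 1, 0, 0, 0, 0, 0, 0, -8, 7, 0, 0, -1, 2, 0, 0, 0, 0, 0, 0, 0, 0, 0, 0, 32, -25, -3, 0, 5, -7, -3, 0, 7, -5, 0, 0, 0, 0, 0, 0, -8, 7, 0, 0, -1, 2, 0]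

/-- the inverse modulo 5 of the matrix at `t = 1`, packed, 3 bits for each entry -/
def inv5 : ℕ := 0x12844400028436441000000012844400014c25042084db00009a4182514000000084db00006121088229448a00260c04c86000000009448a00181a1247010d00980980d00601080000000d00980601080980d46810426002444433000000046810418006c41026132828980014a464280000001328286000325950284266060000c6c18d900000004266480001a88428a0000980000000000d00000000000600000000001080026000000000034000000000018000000000042000980000000000d00000000000600000000001080026000000000034000000000018000000000042000980000000000d00000000000600000000001080026000000000034000000000018000000000042000222c920000108171c6000001022c920000301c4504544540000046ca2cc0000042544540000010a38a400009800009800006000010800009800000000010b6448c00030c48c38800042036448c00033012818182540000d12207032001080182540000d360840964c85900341a0db2d000420004c8590034210910830600600d01081080981080000600600d009800010c4430c34006c30c46842000044430c340090128180190a6d000426349810800000190a6d00026d26d191032140001c8886812000001103214000224e04d00000000000000001080000000000000000000000600000000000000042000000000000000000000018000000000000001080000000000000000000000600000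000000000042000000000000000000000018000000000000001080000000000000000000000600000000000000042000000000000000000000018000000000000001080000000000000000000000600000000000000042000000000000000000000018000000000000001080000000000000000000000600000012844400010436441000000012844400022c25042084db0000624182514000000084db00009921088229448a00180c04c86000000009448a00261a1247010d00980600d00601080000000d00980981080980d46810418002444433000000046810426006c41026132828600014a464280000001328289800325950284266480000c6c18d900000004266060001a88428a0000600000000000d00000000000980000000001080018000000000034000000000026000000000042000600000000000d00000000000980000000001080018000000000034000000000026000000000042000600000000000d000000000009800000000010800180000000000340000000000260000000000420001171b60000300b8a280000004971b6000040922c82ca2ca00000111971a0000018ca2ca0000006544520000600000000000d000006000006000009800009a5046800046812814c00018025046800044448c001088100010c80840a80006001088100010a42065c52471400421309109800180012471400420c0d88c20981081080600000d00600000981081080d00600641020842004812814c18000041020842002406c420a0da30800092112146000000a0da30800048404c80942220001421b22080000000942220000a612821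

/-- value and derivative at `-1` of the weighted digit sum, with fuel -/
def ab : ℕ → ℕ → ℤ × ℤ
  | 0, _ => (0, 0)
  | f + 1, n => ((n % 2 : ℕ) - (ab f (n / 2)).1, (ab f (n / 2)).1 - (ab f (n / 2)).2)

/-- digit sum, with fuel -/
def sd : ℕ → ℕ → ℕ
  | 0, _ => 0
  | f + 1, n => n % 2 + sd f (n / 2)

def entry (k j : ℕ) : ℕ := (Nat.shiftRight inv5 (3 * (55 * k + j))) % 8

def sumTo (f : ℕ → ℕ) : ℕ → ℕ
  | 0 => 0
  | n + 1 => sumTo f n + f n

def sumZ (f : ℕ → ℤ) : ℕ → ℤ
  | 0 => 0
  | n + 1 => sumZ f n + f n

theorem inv_check : ∀ i < 55, ∀ j < 55, sumTo (fun k => sd 7 (i + k) * entry k j) 55 % 5 = if i = j then 1 else 0 := by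
  decide +kernel

theorem first_check : ∀ i < 55, sumZ (fun j => (ab 7 (i + j)).1 * vl.getD j 0) 55 = 0 := by
  decide +kernel

theorem second_check : ∀ i < 55, sumZ (fun j => (ab 7 (i + j)).2 * vl.getD j 0 + (ab 7 (i + j)).1 * wl.getD j 0) 55 = 0 := by
  decide +kernel

end Q264.Hank
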