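import Mathlib

/-!
# Intersections of few irreducible numerical semigroups
-/

set_option autoImplicit false

namespace Q264.Irred

open scoped Pointwise

/-- numerical semigroups -/
def IsNS (S : AddSubmonoid ℕ) : Prop := ((S : Set ℕ)ᶜ).Finite

/-- irreducible numerical semigroups -/
def IsIrr (S : AddSubmonoid ℕ) : Prop :=
  IsNS S ∧ ¬ ∃ S₁ S₂ : AddSubmonoid ℕ, IsNS S₁ ∧ IsNS S₂ ∧ S < S₁ ∧ S < S₂ ∧ S = S₁ ⊓ S₂

/-! ### Groups -/

theorem exists_subgroup {G : Type*} [CommGroup G] [Fintype G] [DecidableEq G] (B : Finset G) (h1 : 1 ∈ B) (q J : ℕ)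
    (hq : Fintype.card G ≤ q * B.card) (hJ : q < (3 / 2 : ℚ) ^ J) :
    ∃ j : ℕ, j < J ∧ ∃ H : Subgroup G, ((B ^ (2 ^ (j + 1)) : Finset G) : Set G) = H := by
  by_contra hcon
  push Not at hcon
  have hB : ∀ n, 1 ∈ B ^ n := fun n => by
    have := Finset.pow_mem_pow h1 (n := n)
    rwa [one_pow] at this
  have key : ∀ j, j ≤ J → (3 / 2 : ℚ) ^ j * B.card ≤ (B ^ (2 ^ j)).card := by
    intro j
    induction j with
    | zero => intro _; simp
    | succ j ih =>
      intro hj
      have ih' := ih (by omega)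
      have h2 : ¬ (((B ^ (2 ^ j)) * (B ^ (2 ^ j))).card : ℚ) < (3 / 2 : ℚ) * (B ^ (2 ^ j)).card := by
        intro h
        have h3 := Finset.smul_inv_mul_opSMul_eq_mul_of_doubling_lt_three_halves h (hB (2 ^ j))
        have h4 := Finset.invMulSubgroup_eq_inv_mul (B ^ (2 ^ j)) h
        refine hcon j (by omega) (Finset.invMulSubgroup (B ^ (2 ^ j)) h) ?_
        rw [h4, pow_succ 2 j, mul_two, pow_add, ← h3]
        simp
      rw [not_lt] at h2
      rw [pow_succ 2 j, mul_two, pow_add B, pow_succ]
      calc (3 / 2 : ℚ) ^ j * (3 / 2) * B.card = (3 / 2 : ℚ) * ((3 / 2 : ℚ) ^ j * B.card) := by ring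
        _ ≤ (3 / 2 : ℚ) * (B ^ (2 ^ j)).card := by gcongr
        _ ≤ _ := h2
  have h3 := key J le_rfl
  have h4 : (B ^ (2 ^ J)).card ≤ Fintype.card G := Finset.card_le_univ _
  have h5 : 0 < B.card := Finset.card_pos.2 ⟨1, h1⟩
  have h6 : ((B ^ (2 ^ J)).card : ℚ) ≤ q * B.card := by exact_mod_cast h4.trans hq
  have h7 : (q : ℚ) * B.card < (3 / 2 : ℚ) ^ J * B.card := by
    have : (0 : ℚ) < B.card := by exact_mod_cast h5
    gcongr
  linarith

/-- the elements of `T` below `L` -/
def low (T : AddSubmonoid ℕ) [DecidablePred (· ∈ T)] (L : ℕ) : Finset ℕ := (Finset.range L).filter (· ∈ T)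

/-- **A dense submonoid contains all large multiples of a small number.** -/
theorem dense (T : AddSubmonoid ℕ) [DecidablePred (· ∈ T)] (L q : ℕ) (h2 : 2 ≤ (low T L).card)
    (hq : L ≤ q * ((low T L).card - 1)) :
    ∃ g : ℕ, 1 ≤ g ∧ g ≤ q ∧ ∀ n : ℕ, 2 ^ (2 * q) * L ≤ n → g ∣ n → n ∈ T := by
  classical
  have hne : (low T L).Nonempty := Finset.card_pos.1 (by omega)
  set a := (low T L).max' hne with ha
  have ha1 : a ∈ low T L := Finset.max'_mem _ _
  have haT : a ∈ T := by
    unfold low at ha1
    exact (Finset.mem_filter.1 ha1).2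
  have haL : a < L := by
    unfold low at ha1
    exact Finset.mem_range.1 (Finset.mem_filter.1 ha1).1
  have hle : ∀ t ∈ low T L, t ≤ a := fun t ht => Finset.le_max' _ _ ht
  have hapos : 0 < a := by
    by_contra h0
    have : low T L ⊆ {0} := by
      intro t ht
      have := hle t ht
      rw [Finset.mem_singleton]
      omega
    have := Finset.card_le_card this
    simp at this
    omega
  have hNZ : NeZero a := ⟨hapos.ne'⟩
  let φ : ℕ → Multiplicative (ZMod a) := fun t => Multiplicative.ofAdd (t : ZMod a)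
  let B : Finset (Multiplicative (ZMod a)) := (low T L).image φ
  have hB1 : (1 : Multiplicative (ZMod a)) ∈ B := by
    refine Finset.mem_image.2 ⟨0, ?_, by simp [φ]⟩
    unfold low
    exact Finset.mem_filter.2 ⟨Finset.mem_range.2 (by omega), T.zero_mem⟩
  have hBcard : (low T L).card - 1 ≤ B.card := by
    have h3 : ((low T L).erase a).card = (low T L).card - 1 := Finset.card_erase_of_mem ha1
    rw [← h3]
    refine Finset.card_le_card_of_injOn φ ?_ ?_
    · intro t ht
      exact Finset.mem_coe.2 (Finset.mem_image_of_mem _ (Finset.mem_of_mem_erase ht))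
    · intro s hs t ht hst
      have hs1 := hle s (Finset.mem_of_mem_erase hs)
      have ht1 := hle t (Finset.mem_of_mem_erase ht)
      have hs2 := Finset.ne_of_mem_erase (Finset.mem_coe.1 hs)
      have ht2 := Finset.ne_of_mem_erase (Finset.mem_coe.1 ht)
      have h4 : (s : ZMod a) = (t : ZMod a) := Multiplicative.ofAdd.injective hst
      rw [ZMod.natCast_eq_natCast_iff'] at h4
      rw [Nat.mod_eq_of_lt (by omega), Nat.mod_eq_of_lt (by omega)] at h4
      exact h4
  have hcard : Fintype.card (Multiplicative (ZMod a)) ≤ q * B.card := by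
    rw [Fintype.card_multiplicative, ZMod.card]
    calc a ≤ L := by omega
      _ ≤ _ := hq
      _ ≤ _ := Nat.mul_le_mul_left _ hBcard
  have hJ : (q : ℚ) < (3 / 2 : ℚ) ^ (2 * q) := by
    rw [pow_mul]
    have h5 : (q : ℚ) < (2 : ℚ) ^ q := by exact_mod_cast Nat.lt_two_pow_self
    refine h5.trans_le ?_
    gcongr
    norm_num
  obtain ⟨j, hj, H, hH⟩ := exists_subgroup B hB1 q (2 * q) hcard hJ
  -- elements of powers of `B`
  have hpow : ∀ n : ℕ, ∀ x ∈ B ^ n, ∃ t ∈ T, t ≤ n * L ∧ φ t = x := by
    intro n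
    induction n with
    | zero =>
      intro x hx
      rw [pow_zero, Finset.mem_one] at hx
      exact ⟨0, T.zero_mem, Nat.zero_le _, by rw [hx]; simp [φ]⟩
    | succ n ih =>
      intro x hx
      rw [pow_succ, Finset.mem_mul] at hx
      obtain ⟨y, hy, z, hz, rfl⟩ := hx
      obtain ⟨t, ht1, ht2, ht3⟩ := ih y hy
      obtain ⟨s, hs1, hs2⟩ := Finset.mem_image.1 hz
      unfold low at hs1
      obtain ⟨hs3, hs4⟩ := Finset.mem_filter.1 hs1
      refine ⟨t + s, T.add_mem ht1 hs4, ?_, ?_⟩
      · have := Finset.mem_range.1 hs3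
        rw [add_mul, one_mul]
        omega
      · rw [← ht3, ← hs2]
        simp [φ]
  have hBH : (B : Set (Multiplicative (ZMod a))) ⊆ H := by
    rw [← hH]
    exact_mod_cast Finset.subset_pow hB1 (by positivity)
  refine ⟨H.index, ?_, ?_, ?_⟩
  · exact Nat.one_le_iff_ne_zero.2 Subgroup.index_ne_zero_of_finite
  · have h6 := H.card_mul_index
    have h7 : B.card ≤ Nat.card H := by
      have h8 : ((B : Set (Multiplicative (ZMod a)))).ncard ≤ (H : Set (Multiplicative (ZMod a))).ncard :=
        Set.ncard_le_ncard hBH (Set.toFinite _)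
      rw [Set.ncard_coe_finset] at h8
      exact h8
    rw [Nat.card_eq_fintype_card (α := Multiplicative (ZMod a))] at h6
    have h9 : 0 < B.card := Finset.card_pos.2 ⟨1, hB1⟩
    have h10 : B.card * H.index ≤ q * B.card := by
      calc B.card * H.index ≤ Nat.card H * H.index := Nat.mul_le_mul_right _ h7
        _ ≤ _ := h6.trans_le hcard
    rw [mul_comm q] at h10
    exact Nat.le_of_mul_le_mul_left h10 h9
  · rintro n hn ⟨l, rfl⟩
    have h11 : φ (H.index * l) ∈ H := by
      have h12 := H.pow_index_mem (φ l)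
      have h13 : φ (H.index * l) = φ l ^ H.index := by
        simp only [φ]
        rw [← ofAdd_nsmul]
        congr 1
        push_cast
        rw [nsmul_eq_mul]
      rw [h13]
      exact h12
    have h14 : φ (H.index * l) ∈ B ^ (2 ^ (j + 1)) := by
      rw [← Finset.mem_coe, hH]
      exact h11
    obtain ⟨t, ht1, ht2, ht3⟩ := hpow _ _ h14
    have h15 : (t : ZMod a) = ((H.index * l : ℕ) : ZMod a) := Multiplicative.ofAdd.injective ht3
    have h16 : t ≤ H.index * l := by
      refine ht2.trans (le_trans ?_ hn)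
      exact Nat.mul_le_mul_right _ (Nat.pow_le_pow_right (by norm_num) (by omega))
    rw [ZMod.natCast_eq_natCast_iff] at h15
    obtain ⟨c, hc⟩ := (Nat.modEq_iff_dvd' h16).1 h15
    have h17 : H.index * l = t + c * a := by
      rw [mul_comm c a]; omega
    rw [h17]
    refine T.add_mem ht1 ?_
    have := T.nsmul_mem haT c
    rwa [smul_eq_mul] at this

/-! ### Irreducible numerical semigroups -/

theorem irr_symm (T : AddSubmonoid ℕ) (hT : IsIrr T) (x₀ : ℕ) (hx₀ : x₀ ∉ T) :
    ∃ f : ℕ, f ∉ T ∧ (∀ y, f < y → y ∈ T) ∧ ∀ x, x ∉ T → 2 * x ≠ f → f - x ∈ T := by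
  classical
  obtain ⟨hfin, hirr⟩ := hT
  have hne : hfin.toFinset.Nonempty := ⟨x₀, hfin.mem_toFinset.2 hx₀⟩
  set f := hfin.toFinset.max' hne with hf
  have hfT : f ∉ T := by
    have := Finset.max'_mem _ hne
    rw [← hf] at this
    exact hfin.mem_toFinset.1 this
  have hmax : ∀ y, f < y → y ∈ T := by
    intro y hy
    by_contra hyT
    have := Finset.le_max' hfin.toFinset y (hfin.mem_toFinset.2 hyT)
    omega
  refine ⟨f, hfT, hmax, ?_⟩
  by_contra hcon
  push Not at hcon
  -- the largest bad element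
  let P : ℕ → Prop := fun h => h ∉ T ∧ 2 * h ≠ f ∧ f - h ∉ T
  have hbd : ∀ h, P h → h ≤ f := by
    rintro h ⟨h1, _, _⟩
    by_contra h2
    exact h1 (hmax h (by omega))
  obtain ⟨x, hx1, hx2, hx3⟩ := hcon
  have hPx : P x := ⟨hx1, hx2, hx3⟩
  set h := Nat.findGreatest P f with hh
  have hPh : P h := Nat.findGreatest_spec (hbd x hPx) hPx
  have hgreat : ∀ y, P y → y ≤ h := fun y hy => Nat.le_findGreatest (hbd y hy) hy
  obtain ⟨hh1, hh2, hh3⟩ := hPh
  have hhf := hbd h ⟨hh1, hh2, hh3⟩
  have hfh : f - h ≤ h := hgreat _ ⟨hh3, by omega, by rw [show f - (f - h) = h by omega]; exact hh1⟩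
  have hlt : h < f := by
    rcases Nat.lt_or_ge h f with h1 | h1
    · exact h1
    · have : f - h = 0 := by omega
      rw [this] at hh3
      exact absurd T.zero_mem hh3
  have hf0 : 0 < f := by omega
  let S₁ : AddSubmonoid ℕ :=
    { carrier := {y | y ∈ T ∨ y = f}
      zero_mem' := Or.inl T.zero_mem
      add_mem' := by
        rintro a b (ha | rfl) (hb | rfl)
        · exact Or.inl (T.add_mem ha hb)
        · rcases Nat.eq_zero_or_pos a with rfl | ha0
          · right; omega
          · exact Or.inl (hmax _ (by omega))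
        · rcases Nat.eq_zero_or_pos b with rfl | hb0
          · right; omega
          · exact Or.inl (hmax _ (by omega))
        · exact Or.inl (hmax _ (by omega)) }
  have hht : ∀ t ∈ T, h + t ∈ T ∨ h + t = h := by
    intro t ht
    rcases Nat.eq_zero_or_pos t with rfl | ht0
    · right; omega
    · left
      by_contra hc
      have hle : h + t ≤ f := by
        by_contra hc2
        exact hc (hmax _ (by omega))
      have hnP : ¬ P (h + t) := fun hP => by
        have := hgreat _ hP
        omega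
      have : f - (h + t) ∈ T := by
        by_contra hc2
        exact hnP ⟨hc, by omega, hc2⟩
      apply hh3
      have := T.add_mem this ht
      rwa [show f - (h + t) + t = f - h by omega] at this
  let S₂ : AddSubmonoid ℕ :=
    { carrier := {y | y ∈ T ∨ y = h}
      zero_mem' := Or.inl T.zero_mem
      add_mem' := by
        rintro a b (ha | rfl) (hb | rfl)
        · exact Or.inl (T.add_mem ha hb)
        · rw [add_comm]; exact hht a ha
        · exact hht b hb
        · exact Or.inl (hmax _ (by omega)) }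
  apply hirr
  refine ⟨S₁, S₂, hfin.subset ?_, hfin.subset ?_, ?_, ?_, ?_⟩
  · intro y hy hyT
    exact hy (Or.inl hyT)
  · intro y hy hyT
    exact hy (Or.inl hyT)
  · refine lt_of_le_of_ne (fun y hy => Or.inl hy) ?_
    intro heq
    apply hfT
    rw [heq]
    exact Or.inr rfl
  · refine lt_of_le_of_ne (fun y hy => Or.inl hy) ?_
    intro heq
    apply hh1
    rw [heq]
    exact Or.inr rfl
  · apply le_antisymm
    · intro y hy
      exact ⟨Or.inl hy, Or.inl hy⟩
    · rintro y ⟨hy1 | hy1, hy2 | hy2⟩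
      · exact hy1
      · exact hy1
      · exact hy2
      · omega

/-! ### The covering argument -/

/-- bounds for the moduli -/
def Q (N : ℕ) : ℕ → ℕ
  | 0 => 1
  | s + 1 => 4 * N * (Q N s) ^ 2

theorem Q_pos (N : ℕ) (hN : 1 ≤ N) (s : ℕ) : 1 ≤ Q N s := by
  induction s with
  | zero => exact le_rfl
  | succ s ih => unfold Q; exact Nat.mul_pos (by omega) (by positivity)

theorem Q_mono (N : ℕ) (hN : 1 ≤ N) : Monotone (Q N) := by
  apply monotone_nat_of_le_succ
  intro s
  have h := Q_pos N hN s
  rw [Q]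
  nlinarith

/-- the window -/
def win (m w M : ℕ) : Finset ℕ := (Finset.Ico (m - w) m).filter (M ∣ ·)

theorem card_win (m w M : ℕ) (hM : 1 ≤ M) (hw : w ≤ m) : w / M ≤ (win m w M).card := by
  have h1 : w / M = (Finset.range (w / M)).card := (Finset.card_range _).symm
  rw [h1]
  refine Finset.card_le_card_of_injOn (fun t => M * ((m - 1) / M - t)) ?_ ?_
  · intro t ht
    have ht' := Finset.mem_range.1 (Finset.mem_coe.1 ht)
    have h2 : M * (w / M) ≤ w := Nat.mul_div_le _ _
    have h3 : M * (t + 1) ≤ M * (w / M) := Nat.mul_le_mul_left _ ht'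
    have h4 := Nat.div_add_mod (m - 1) M
    have h5 := Nat.mod_lt (m - 1) hM
    rw [Finset.mem_coe]
    refine Finset.mem_filter.2 ⟨Finset.mem_Ico.2 ?_, Dvd.intro _ rfl⟩
    change m - w ≤ M * ((m - 1) / M - t) ∧ M * ((m - 1) / M - t) < m
    rw [Nat.mul_sub]
    rw [mul_add, mul_one] at h3
    omega
  · intro t ht u hu htu
    have ht' := Finset.mem_range.1 (Finset.mem_coe.1 ht)
    have hu' := Finset.mem_range.1 (Finset.mem_coe.1 hu)
    have h6 : w / M ≤ (m - 1) / M + 1 := by
      have h7 : w / M ≤ m / M := Nat.div_le_div_right hw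
      have h8 : m / M ≤ (m - 1) / M + 1 := by
        rw [← Nat.add_div_right _ hM]
        exact Nat.div_le_div_right (by omega)
      omega
    have := Nat.eq_of_mul_eq_mul_left hM htu
    omega

/-- **The covering step.** If `S_m = {0} ∪ [m, ∞)` is an intersection of `N` irreducible numerical semigroups and `s ≤ N`,
then there are `s` of them which contain all multiples of some `M ≤ Q N s` in the window. -/
theorem step (N m w : ℕ) (hN : 1 ≤ N) (hw : 8 * N * Q N N ≤ w) (hm : (2 ^ (8 * N * Q N N) + 1) * w ≤ m)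
    (T : Fin N → AddSubmonoid ℕ) (hT : ∀ i, IsIrr (T i)) (hS : ∀ x, (∀ i, x ∈ T i) ↔ (x = 0 ∨ m ≤ x)) (s : ℕ)
    (hs : s ≤ N) : ∃ I : Finset (Fin N), I.card = s ∧ ∃ M : ℕ, 1 ≤ M ∧ M ≤ Q N s ∧ ∀ i ∈ I, ∀ x ∈ win m w M, x ∈ T i := by
  classical
  have hQpos := Q_pos N hN
  have hw0 : 8 ≤ w := by
    have := hQpos N
    nlinarith
  have hpow : 1 ≤ 2 ^ (8 * N * Q N N) := Nat.one_le_two_pow
  have hwm : 2 * w ≤ m := by nlinarith
  induction s with
  | zero => exact ⟨∅, rfl, 1, le_rfl, le_rfl, by simp⟩
  | succ s ih =>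
    obtain ⟨I, hI, M, hM1, hM2, hM3⟩ := ih (by omega)
    have hQs : Q N (s + 1) ≤ Q N N := Q_mono N hN hs
    have hMQ : 4 * N * (M * M) ≤ Q N N := by
      refine le_trans ?_ hQs
      rw [Q, sq]
      exact Nat.mul_le_mul_left _ (Nat.mul_le_mul hM2 hM2)
    have hMQN : M ≤ Q N N := hM2.trans (Q_mono N hN (by omega))
    -- every element of the window is not in some `T i`, `i ∉ I`
    have hcov : win m w M ⊆ Iᶜ.biUnion fun i => (win m w M).filter (· ∉ T i) := by
      intro x hx
      have hx' := hx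
      unfold win at hx'
      obtain ⟨hx1, hx2⟩ := Finset.mem_filter.1 hx'
      obtain ⟨hx3, hx4⟩ := Finset.mem_Ico.1 hx1
      have : ¬ ∀ i, x ∈ T i := by
        rw [hS]
        omega
      push Not at this
      obtain ⟨i, hi⟩ := this
      refine Finset.mem_biUnion.2 ⟨i, ?_, Finset.mem_filter.2 ⟨hx, hi⟩⟩
      rw [Finset.mem_compl]
      intro hiI
      exact hi (hM3 i hiI x hx)
    -- so some `T i` misses many elements of the window
    have hex : ∃ i ∉ I, (win m w M).card ≤ N * ((win m w M).filter (· ∉ T i)).card := by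
      by_contra hcon
      push Not at hcon
      have h1 : (win m w M).card ≤ ∑ i ∈ Iᶜ, ((win m w M).filter (· ∉ T i)).card :=
        (Finset.card_le_card hcov).trans Finset.card_biUnion_le
      have h2 : N * ∑ i ∈ Iᶜ, ((win m w M).filter (· ∉ T i)).card ≤ ∑ i ∈ Iᶜ, ((win m w M).card - 1) := by
        rw [Finset.mul_sum]
        refine Finset.sum_le_sum fun i hi => ?_
        have := hcon i (Finset.mem_compl.1 hi)
        omega
      rw [Finset.sum_const, smul_eq_mul] at h2
      have h3 : Iᶜ.card ≤ N := (Finset.card_le_univ _).trans (by simp)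
      have h4 : Iᶜ.card * ((win m w M).card - 1) ≤ N * ((win m w M).card - 1) := Nat.mul_le_mul_right _ h3
      have h5 := Nat.mul_le_mul_left N h1
      have h6 : N * (win m w M).card ≤ N * ((win m w M).card - 1) := h5.trans (h2.trans h4)
      have h7 := Nat.le_of_mul_le_mul_left h6 (by omega)
      have h8 := card_win m w M hM1 (by omega)
      have h9 : 1 ≤ w / M := by
        rw [Nat.one_le_div_iff (by omega)]
        calc M ≤ Q N N := hMQN
          _ ≤ 8 * N * Q N N := Nat.le_mul_of_pos_left _ (by omega)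
          _ ≤ w := hw
      omega
    obtain ⟨i, hiI, hicard⟩ := hex
    have hwM := card_win m w M hM1 (by omega)
    -- reflect
    have hD : w / M ≤ N * (low (T i) w).card := by
      refine hwM.trans (hicard.trans (Nat.mul_le_mul_left _ ?_))
      rcases ((win m w M).filter (· ∉ T i)).eq_empty_or_nonempty with he | ⟨x₀, hx₀⟩
      · rw [he]; simp
      · obtain ⟨f, hf1, hf2, hf3⟩ := irr_symm (T i) (hT i) x₀ (Finset.mem_filter.1 hx₀).2
        have hfm : f < m := by
          by_contra hfm
          have := ((hS f).2 (Or.inr (by omega))) i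
          exact hf1 this
        have hxf : ∀ x ∈ (win m w M).filter (· ∉ T i), x ≤ f ∧ m - w ≤ x ∧ f - x ∈ T i := by
          intro x hx
          obtain ⟨hx1, hx2⟩ := Finset.mem_filter.1 hx
          unfold win at hx1
          have hx3 := (Finset.mem_Ico.1 (Finset.mem_filter.1 hx1).1).1
          have hxf : x ≤ f := by
            by_contra h
            exact hx2 (hf2 x (by omega))
          exact ⟨hxf, hx3, hf3 x hx2 (by omega)⟩
        refine Finset.card_le_card_of_injOn (fun x => f - x) ?_ ?_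
        · intro x hx
          obtain ⟨h1, h2, h3⟩ := hxf x hx
          rw [Finset.mem_coe]
          unfold low
          have h4 : f - x < w := by omega
          exact Finset.mem_filter.2 ⟨Finset.mem_range.2 h4, h3⟩
        · intro x hx y hy hxy
          obtain ⟨h1, _, _⟩ := hxf x hx
          obtain ⟨h2, _, _⟩ := hxf y hy
          simp only at hxy
          omega
    -- the density
    have h10 : w < M * (w / M + 1) := by
      have := Nat.lt_mul_div_succ w (by omega : 0 < M)
      exact this
    have h11 : w ≤ 4 * N * M * ((low (T i) w).card - 1) := by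
      have h12 : M * (w / M) ≤ M * (N * (low (T i) w).card) := Nat.mul_le_mul_left _ hD
      rcases Nat.eq_zero_or_pos (low (T i) w).card with h0 | h0
      · rw [h0, mul_zero, mul_zero] at h12
        rw [mul_add, mul_one] at h10
        have h13 : Q N N ≤ 8 * N * Q N N := Nat.le_mul_of_pos_left _ (by omega)
        omega
      · obtain ⟨d, hd⟩ : ∃ d, (low (T i) w).card = d + 1 := ⟨(low (T i) w).card - 1, by omega⟩
        rw [hd] at h12 ⊢
        rw [Nat.add_sub_cancel]
        rw [mul_add, mul_one] at h10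
        have h14 : 8 * N * M ≤ w := (Nat.mul_le_mul_left _ hMQN).trans hw
        have h15 : M * (N * (d + 1)) = N * M * d + N * M := by ring
        have h16 : 4 * N * M * d = 4 * (N * M * d) := by ring
        have h17 : 8 * N * M = 8 * (N * M) := by ring
        have h18 : M ≤ N * M := Nat.le_mul_of_pos_left _ (by omega)
        rw [h15] at h12
        rw [h16]
        rw [h17] at h14
        omega
    have h15 : 2 ≤ (low (T i) w).card := by
      by_contra h
      have : (low (T i) w).card - 1 = 0 := by omega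
      rw [this, mul_zero] at h11
      omega
    obtain ⟨g, hg1, hg2, hg3⟩ := dense (T i) w (4 * N * M) h15 h11
    refine ⟨insert i I, by rw [Finset.card_insert_of_notMem hiI, hI], M * g, Nat.mul_pos hM1 hg1, ?_, ?_⟩
    · rw [Q, sq]
      calc M * g ≤ M * (4 * N * M) := Nat.mul_le_mul_left _ hg2
        _ = 4 * N * (M * M) := by ring
        _ ≤ _ := Nat.mul_le_mul_left _ (Nat.mul_le_mul hM2 hM2)
    · intro j hj x hx
      unfold win at hx
      obtain ⟨hx1, hx2⟩ := Finset.mem_filter.1 hx
      rcases Finset.mem_insert.1 hj with rfl | hj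
      · refine hg3 x ?_ ((Dvd.intro_left _ rfl).trans hx2)
        have h16 : 2 * (4 * N * M) ≤ 8 * N * Q N N := by
          have := Nat.mul_le_mul_left (8 * N) hMQN
          calc 2 * (4 * N * M) = 8 * N * M := by ring
            _ ≤ _ := this
        have h17 : 2 ^ (2 * (4 * N * M)) ≤ 2 ^ (8 * N * Q N N) := Nat.pow_le_pow_right (by norm_num) h16
        have h18 : 2 ^ (2 * (4 * N * M)) * w ≤ 2 ^ (8 * N * Q N N) * w := Nat.mul_le_mul_right _ h17
        have h19 := (Finset.mem_Ico.1 hx1).1
        rw [add_mul, one_mul] at hm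
        omega
      · exact hM3 j hj x (Finset.mem_filter.2 ⟨hx1, (Dvd.intro _ rfl).trans hx2⟩)

/-- **`{0} ∪ [m, ∞)` is not an intersection of `N` irreducible numerical semigroups if `m` is large.** -/
theorem main (N : ℕ) : ∃ m₀ : ℕ, ∀ m, m₀ ≤ m → ∀ T : Fin N → AddSubmonoid ℕ, (∀ i, IsIrr (T i)) →
    ¬ ∀ x, (∀ i, x ∈ T i) ↔ (x = 0 ∨ m ≤ x) := by
  rcases Nat.eq_zero_or_pos N with rfl | hN
  · refine ⟨2, fun m hm T _ h => ?_⟩
    have := (h 1).1 (fun i => i.elim0)
    omega
  · refine ⟨(2 ^ (8 * N * Q N N) + 1) * (8 * N * Q N N), fun m hm T hT hS => ?_⟩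
    obtain ⟨I, hI, M, hM1, hM2, hM3⟩ := step N m (8 * N * Q N N) hN le_rfl hm T hT hS N le_rfl
    have hIu : I = Finset.univ := by
      rw [← Finset.card_eq_iff_eq_univ, hI, Fintype.card_fin]
    have hQ := Q_pos N hN N
    have h1 : 1 ≤ (8 * N * Q N N) / M := by
      rw [Nat.one_le_div_iff (by omega)]
      nlinarith
    have hpow : 1 ≤ 2 ^ (8 * N * Q N N) := Nat.one_le_two_pow
    have h2 := card_win m (8 * N * Q N N) M hM1 (by nlinarith)
    obtain ⟨x, hx⟩ := Finset.card_pos.1 (lt_of_lt_of_le (by omega : 0 < 1) (h1.trans h2))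
    have h3 : ∀ i, x ∈ T i := fun i => hM3 i (by rw [hIu]; exact Finset.mem_univ _) x hx
    have h4 := (hS x).1 h3
    unfold win at hx
    have h5 := Finset.mem_Ico.1 (Finset.mem_filter.1 hx).1
    have h6 : 0 < 8 * N * Q N N := by positivity
    have h7 : 8 * N * Q N N < m := by nlinarith
    omega

end Q264.Irred
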