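import Mathlib

/-!
# Modular numerical semigroups: the type is less than the embedding dimension

`S(a, b, 1) = {x : a x mod b ≤ x}`.  If `x` is not in `S` then `b - x` is in `S`, and this symmetry
describes the pseudo-Frobenius numbers `f` completely: `b - f` is an atom of `S`, or it is the sum of
the least `u > 0` with `a u ≡ 0` and of the least `u' > 0` with `(a - 1) u' ≡ 0 (mod b)`.
-/

namespace Q264.MNS

open Finset

variable {a b : ℕ}

/-- membership in `S(a, b, 1)` -/
def M (a b x : ℕ) : Prop := a * x % b ≤ x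

instance (a b x : ℕ) : Decidable (M a b x) := by unfold M; infer_instance

theorem M_zero : M a b 0 := by simp [M]

theorem M_add {x y : ℕ} (hx : M a b x) (hy : M a b y) : M a b (x + y) := by
  unfold M at *
  rw [mul_add, Nat.add_mod]
  exact (Nat.mod_le _ _).trans (add_le_add hx hy)

theorem M_of_le (hb : 0 < b) {x : ℕ} (hx : b ≤ x) : M a b x :=
  (Nat.mod_lt _ hb).le.trans hx

theorem lt_of_not_M (hb : 0 < b) {x : ℕ} (hx : ¬ M a b x) : x < b := by
  by_contra h
  exact hx (M_of_le hb (not_lt.mp h))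

/-- `x` and `b - x` -/
theorem mod_sub {x : ℕ} (hx : x ≤ b) :
    (a * x % b + a * (b - x) % b) % b = 0 := by
  rw [← Nat.add_mod, ← mul_add]
  have : x + (b - x) = b := by omega
  rw [this]
  exact Nat.mul_mod_left a b

/-- the sum of two remainders which is `0` modulo `b` -/
theorem sum_cases {r s : ℕ} (hr : r < b) (hs : s < b) (h : (r + s) % b = 0) :
    (r = 0 ∧ s = 0) ∨ r + s = b := by
  obtain ⟨k, hk⟩ := Nat.dvd_of_mod_eq_zero h
  rcases Nat.eq_zero_or_pos k with h0 | h0
  · left
    subst h0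
    omega
  · right
    have h1 : k < 2 := by
      by_contra h2
      have : b * 2 ≤ b * k := Nat.mul_le_mul_left b (by omega)
      omega
    have : k = 1 := by omega
    subst this
    omega

/-- an atom -/
def Atom (a b x : ℕ) : Prop :=
  x ≠ 0 ∧ M a b x ∧ ∀ y z, y ≠ 0 → z ≠ 0 → M a b y → M a b z → y + z ≠ x

/-- a pseudo-Frobenius number -/
def PF (a b f : ℕ) : Prop := ¬ M a b f ∧ ∀ s, s ≠ 0 → M a b s → M a b (f + s)

/-- complement of a gap -/
theorem compl_gap (hb : 0 < b) {x : ℕ} (hx : ¬ M a b x) :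
    0 < a * (b - x) % b ∧ a * (b - x) % b < b - x := by
  have h1 := lt_of_not_M hb hx
  have h2 := mod_sub (a := a) h1.le
  have h3 : x < a * x % b := not_le.mp hx
  have h4 : a * x % b < b := Nat.mod_lt _ hb
  rcases sum_cases h4 (Nat.mod_lt _ hb) h2 with h | h
  · omega
  · omega

/-- both `s` and `b - s` in the semigroup -/
theorem both (hb : 0 < b) {s : ℕ} (hs : s ≤ b) (h1 : M a b s) (h2 : M a b (b - s)) :
    a * s % b = 0 ∨ a * s % b = s := by
  have h3 := mod_sub (a := a) hs
  unfold M at h1 h2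
  rcases sum_cases (Nat.mod_lt _ hb) (Nat.mod_lt _ hb) h3 with h | h
  · left; exact h.1
  · right; omega

theorem pf_parts (hb : 0 < b) {f s s' : ℕ} (hf : PF a b f) (hs : s ≠ 0) (hs' : s' ≠ 0)
    (h1 : M a b s) (h2 : M a b s') (h : s + s' = b - f) :
    (a * s % b = 0 ∧ a * s' % b = s') ∨ (a * s % b = s ∧ a * s' % b = 0) := by
  have hfb := lt_of_not_M hb hf.1
  have hf0 : f ≠ 0 := by
    rintro rfl
    exact hf.1 M_zero
  obtain ⟨g1, g2⟩ := compl_gap hb hf.1
  have k1 : a * s' % b = 0 ∨ a * s' % b = s' := by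
    refine both hb (by omega) h2 ?_
    have : b - s' = f + s := by omega
    rw [this]
    exact hf.2 s hs h1
  have k2 : a * s % b = 0 ∨ a * s % b = s := by
    refine both hb (by omega) h1 ?_
    have : b - s = f + s' := by omega
    rw [this]
    exact hf.2 s' hs' h2
  have key : a * (b - f) % b = (a * s % b + a * s' % b) % b := by
    rw [← h, mul_add, Nat.add_mod]
  rcases k1 with k1 | k1 <;> rcases k2 with k2 | k2
  · rw [key, k1, k2] at g1
    simp at g1
  · right; exact ⟨k2, k1⟩
  · left; exact ⟨k2, k1⟩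
  · rw [key, k1, k2, h, Nat.mod_eq_of_lt (by omega)] at g2
    omega

/-- the set of the `s`, `0 < s < b`, with `a s ≡ 0` -/
def Z (a b s : ℕ) : Prop := 0 < s ∧ s < b ∧ a * s % b = 0

/-- the set of the `s`, `0 < s < b`, with `a s ≡ s` -/
def W (a b s : ℕ) : Prop := 0 < s ∧ s < b ∧ a * s % b = s

theorem atom_Z (hb : 0 < b) {u : ℕ} (hu : Z a b u) (hmin : ∀ s, Z a b s → u ≤ s) : Atom a b u := by
  obtain ⟨h0, h1, h2⟩ := hu
  refine ⟨by omega, by unfold M; omega, ?_⟩
  intro y z hy hz my mz h
  unfold M at my mz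
  have key : (a * y % b + a * z % b) % b = 0 := by
    rw [← Nat.add_mod, ← mul_add, h, h2]
  rcases sum_cases (Nat.mod_lt _ hb) (Nat.mod_lt _ hb) key with h3 | h3
  · have := hmin y ⟨by omega, by omega, h3.1⟩
    omega
  · omega

theorem atom_W {u : ℕ} (hu : W a b u) (hmin : ∀ s, W a b s → u ≤ s) : Atom a b u := by
  obtain ⟨h0, h1, h2⟩ := hu
  refine ⟨by omega, by unfold M; omega, ?_⟩
  intro y z hy hz my mz h
  unfold M at my mz
  have key : (a * y % b + a * z % b) % b = u := by
    rw [← Nat.add_mod, ← mul_add, h, h2]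
  rw [Nat.mod_eq_of_lt (by omega)] at key
  have := hmin y ⟨by omega, by omega, by omega⟩
  omega

theorem atom_b (hb : 0 < b) (hZ : ∀ s, ¬ Z a b s) (hW : ∀ s, ¬ W a b s) : Atom a b b := by
  refine ⟨by omega, M_of_le hb le_rfl, ?_⟩
  intro y z hy hz my mz h
  have h1 : z = b - y := by omega
  subst h1
  rcases both hb (by omega) my mz with h2 | h2
  · exact hZ y ⟨by omega, by omega, h2⟩
  · exact hW y ⟨by omega, by omega, h2⟩

/-- a pseudo-Frobenius number gives an atom or is the special one -/
theorem pf_cases (hb : 0 < b) {f : ℕ} (hf : PF a b f) (hna : ¬ Atom a b (b - f)) :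
    ∃ u u', Z a b u ∧ (∀ s, Z a b s → u ≤ s) ∧ W a b u' ∧ (∀ s, W a b s → u' ≤ s) ∧
      b - f = u + u' := by
  classical
  have hfb := lt_of_not_M hb hf.1
  obtain ⟨g1, g2⟩ := compl_gap hb hf.1
  have hM : M a b (b - f) := g2.le
  unfold Atom at hna
  push Not at hna
  obtain ⟨y, z, hy, hz, my, mz, hyz⟩ := hna (by omega) hM
  obtain ⟨s, s', hs, hs', ms, ms', hss, k1, k2⟩ : ∃ s s', s ≠ 0 ∧ s' ≠ 0 ∧ M a b s ∧ M a b s' ∧
      s + s' = b - f ∧ a * s % b = 0 ∧ a * s' % b = s' := by
    rcases pf_parts hb hf hy hz my mz hyz with h | h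
    · exact ⟨y, z, hy, hz, my, mz, hyz, h.1, h.2⟩
    · exact ⟨z, y, hz, hy, mz, my, by omega, h.2, h.1⟩
  have hZs : Z a b s := ⟨by omega, by omega, k1⟩
  have hWs : W a b s' := ⟨by omega, by omega, k2⟩
  have eZ : ∃ u, Z a b u := ⟨s, hZs⟩
  have eW : ∃ u, W a b u := ⟨s', hWs⟩
  refine ⟨Nat.find eZ, Nat.find eW, Nat.find_spec eZ, fun s hs => Nat.find_min' eZ hs,
    Nat.find_spec eW, fun s hs => Nat.find_min' eW hs, ?_⟩
  set u := Nat.find eZ with hu
  set u' := Nat.find eW with hu'
  obtain ⟨p1, p2, p3⟩ := Nat.find_spec eZ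
  obtain ⟨q1, q2, q3⟩ := Nat.find_spec eW
  rw [← hu] at p1 p2 p3
  rw [← hu'] at q1 q2 q3
  have l1 : u ≤ s := Nat.find_min' eZ hZs
  have l2 : u' ≤ s' := Nat.find_min' eW hWs
  have e1 : s = u := by
    by_contra hne
    have hlt : u < s := by omega
    have m1 : M a b u := by unfold M; omega
    have r1 : a * (s - u) % b = 0 := by
      have : (a * (s - u) % b + a * u % b) % b = 0 := by
        rw [← Nat.add_mod, ← mul_add, Nat.sub_add_cancel hlt.le, k1]
      rw [p3, add_zero, Nat.mod_mod] at this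
      exact this
    have m2 : M a b (s - u) := by unfold M; omega
    have m3 : M a b (s - u + s') := M_add m2 ms'
    rcases pf_parts hb hf (by omega) (by omega) m1 m3 (by omega) with h | h
    · have : a * (s - u + s') % b = s' := by
        rw [mul_add, Nat.add_mod, r1, k2, zero_add, Nat.mod_eq_of_lt (by omega)]
      omega
    · omega
  have e2 : s' = u' := by
    by_contra hne
    have hlt : u' < s' := by omega
    have m1 : M a b u' := by unfold M; omega
    have r1 : a * (s' - u') % b = s' - u' := by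
      have h5 : (a * (s' - u') % b + a * u' % b) % b = s' := by
        rw [← Nat.add_mod, ← mul_add, Nat.sub_add_cancel hlt.le, k2]
      rw [q3] at h5
      have h6 : a * (s' - u') % b < b := Nat.mod_lt _ hb
      have h7 : a * (s' - u') % b + u' < 2 * b := by omega
      rcases Nat.lt_or_ge (a * (s' - u') % b + u') b with h8 | h8
      · rw [Nat.mod_eq_of_lt h8] at h5
        omega
      · rw [Nat.mod_eq_sub_mod h8, Nat.mod_eq_of_lt (by omega)] at h5
        omega
    have m2 : M a b (s' - u') := by unfold M; omega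
    have m3 : M a b (s' - u' + s) := M_add m2 ms
    rcases pf_parts hb hf (by omega) (by omega) m1 m3 (by omega) with h | h
    · omega
    · have : a * (s' - u' + s) % b = s' - u' := by
        rw [mul_add, Nat.add_mod, r1, k1, add_zero, Nat.mod_eq_of_lt (by omega)]
      omega
  omega

theorem atom_lt {x : ℕ} (hb : 0 < b) (h : Atom a b x) : x < 2 * b := by
  by_contra h1
  exact h.2.2 b (x - b) (by omega) (by omega) (M_of_le hb le_rfl) (M_of_le hb (by omega)) (by omega)

open Classical in
/-- the finset of the atoms -/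
noncomputable def atoms (a b : ℕ) : Finset ℕ := (range (2 * b)).filter (fun x => Atom a b x)

open Classical in
/-- the finset of the pseudo-Frobenius numbers -/
noncomputable def pfs (a b : ℕ) : Finset ℕ := (range b).filter (fun x => PF a b x)

theorem mem_atoms (hb : 0 < b) {x : ℕ} : x ∈ atoms a b ↔ Atom a b x := by
  classical
  unfold atoms
  rw [mem_filter, mem_range]
  exact ⟨fun h => h.2, fun h => ⟨atom_lt hb h, h⟩⟩

theorem mem_pfs (hb : 0 < b) {x : ℕ} : x ∈ pfs a b ↔ PF a b x := by
  classical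
  unfold pfs
  rw [mem_filter, mem_range]
  exact ⟨fun h => h.2, fun h => ⟨lt_of_not_M hb h.1, h⟩⟩

/-- **The type is less than the embedding dimension.** -/
theorem type_lt (hb : 0 < b) : (pfs a b).card + 1 ≤ (atoms a b).card := by
  classical
  -- the omitted atom `w`, and the atom `v` which takes the special number
  obtain ⟨w, v, hw, hv, hvw, hwn, hvn, hsp⟩ : ∃ w v, Atom a b w ∧ Atom a b v ∧
      ((∃ u, Z a b u) → (∃ u, W a b u) → v ≠ w) ∧
      (∀ f, PF a b f → b - f ≠ w) ∧ (∀ f, PF a b f → b - f ≠ v) ∧ True := by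
    have nz : ∀ f u, PF a b f → Z a b u → b - f ≠ u := by
      intro f u hf hu h
      have := (compl_gap hb hf.1).1
      rw [h, hu.2.2] at this
      omega
    have nw : ∀ f u, PF a b f → W a b u → b - f ≠ u := by
      intro f u hf hu h
      have := (compl_gap hb hf.1).2
      rw [h, hu.2.2] at this
      omega
    have nb : ∀ f, PF a b f → b - f ≠ b := by
      intro f hf h
      have := (compl_gap hb hf.1).1
      rw [h, Nat.mul_mod_left] at this
      omega
    by_cases hZ : ∃ u, Z a b u
    · have z1 := Nat.find_spec hZ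
      have z2 := atom_Z hb z1 (fun s hs => Nat.find_min' hZ hs)
      by_cases hW : ∃ u, W a b u
      · have w1 := Nat.find_spec hW
        have w2 := atom_W w1 (fun s hs => Nat.find_min' hW hs)
        refine ⟨Nat.find hW, Nat.find hZ, w2, z2, ?_, fun f hf => nw f _ hf w1,
          fun f hf => nz f _ hf z1, trivial⟩
        intro _ _ h
        have h1 := z1.2.2
        have h2 := w1.2.2
        have h3 := w1.1
        rw [h, h2] at h1
        omega
      · refine ⟨Nat.find hZ, Nat.find hZ, z2, z2, fun _ h => absurd h hW, fun f hf => nz f _ hf z1,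
          fun f hf => nz f _ hf z1, trivial⟩
    · by_cases hW : ∃ u, W a b u
      · have w1 := Nat.find_spec hW
        have w2 := atom_W w1 (fun s hs => Nat.find_min' hW hs)
        exact ⟨Nat.find hW, Nat.find hW, w2, w2, fun h => absurd h hZ, fun f hf => nw f _ hf w1,
          fun f hf => nw f _ hf w1, trivial⟩
      · push Not at hZ hW
        exact ⟨b, b, atom_b hb hZ hW, atom_b hb hZ hW, fun ⟨u, hu⟩ => absurd hu (hZ u), nb, nb,
          trivial⟩
  have hinj : Set.InjOn (fun f => if Atom a b (b - f) then b - f else v) (pfs a b) := by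
    intro f hf g hg h
    rw [mem_coe, mem_pfs hb] at hf hg
    have hfb := lt_of_not_M hb hf.1
    have hgb := lt_of_not_M hb hg.1
    simp only at h
    by_cases h1 : Atom a b (b - f)
    · rw [if_pos h1] at h
      by_cases h2 : Atom a b (b - g)
      · rw [if_pos h2] at h
        omega
      · rw [if_neg h2] at h
        exact absurd h (hvn f hf)
    · rw [if_neg h1] at h
      by_cases h2 : Atom a b (b - g)
      · rw [if_pos h2] at h
        exact absurd h.symm (hvn g hg)
      · obtain ⟨u, u', p1, p2, p3, p4, p5⟩ := pf_cases hb hf h1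
        obtain ⟨x, x', q1, q2, q3, q4, q5⟩ := pf_cases hb hg h2
        have e1 : u = x := le_antisymm (p2 x q1) (q2 u p1)
        have e2 : u' = x' := le_antisymm (p4 x' q3) (q4 u' p3)
        omega
  have hsub : (pfs a b).image (fun f => if Atom a b (b - f) then b - f else v) ⊆
      (atoms a b).erase w := by
    intro x hx
    rw [mem_image] at hx
    obtain ⟨f, hf, rfl⟩ := hx
    rw [mem_pfs hb] at hf
    rw [mem_erase, mem_atoms hb]
    by_cases h1 : Atom a b (b - f)
    · rw [if_pos h1]
      exact ⟨hwn f hf, h1⟩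
    · rw [if_neg h1]
      obtain ⟨u, u', p1, p2, p3, p4, p5⟩ := pf_cases hb hf h1
      exact ⟨hvw ⟨u, p1⟩ ⟨u', p3⟩, hv⟩
  have h1 := card_le_card hsub
  rw [card_image_of_injOn hinj, card_erase_of_mem ((mem_atoms hb).mpr hw)] at h1
  have h2 : 0 < (atoms a b).card := card_pos.mpr ⟨w, (mem_atoms hb).mpr hw⟩
  omega

/-- the finset of the gaps -/
def gaps (a b : ℕ) : Finset ℕ := (range b).filter (fun x => ¬ M a b x)

theorem mem_gaps (hb : 0 < b) {x : ℕ} : x ∈ gaps a b ↔ ¬ M a b x := by
  unfold gaps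
  rw [mem_filter, mem_range]
  exact ⟨fun h => h.2, fun h => ⟨lt_of_not_M hb h, h⟩⟩

/-- above every gap there is a pseudo-Frobenius number -/
theorem exists_pf (hb : 0 < b) {x : ℕ} (hx : ¬ M a b x) :
    ∃ f, PF a b f ∧ x ≤ f ∧ M a b (f - x) := by
  classical
  have hne : ((gaps a b).filter (fun f => x ≤ f ∧ M a b (f - x))).Nonempty := by
    refine ⟨x, ?_⟩
    rw [mem_filter, mem_gaps hb]
    exact ⟨hx, le_rfl, by rw [Nat.sub_self]; exact M_zero⟩
  obtain ⟨f, hf, hmax⟩ := exists_max_image _ id hne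
  rw [mem_filter, mem_gaps hb] at hf
  refine ⟨f, ⟨hf.1, ?_⟩, hf.2.1, hf.2.2⟩
  intro s hs ms
  by_contra hcon
  have := hmax (f + s) (by
    rw [mem_filter, mem_gaps hb]
    refine ⟨hcon, by omega, ?_⟩
    have : f + s - x = f - x + s := by omega
    rw [this]
    exact M_add hf.2.2 ms)
  simp only [id] at this
  omega

/-- the number of the gaps; `F` is a bound for the gaps -/
theorem gaps_le (hb : 0 < b) {F : ℕ} (hF : ∀ x, ¬ M a b x → x ≤ F) :
    (gaps a b).card ≤ (pfs a b).card * ((range (F + 1)).filter (fun x => M a b x)).card := by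
  classical
  rw [← card_product]
  have hch : ∀ x, ∃ f, ¬ M a b x → (PF a b f ∧ x ≤ f ∧ M a b (f - x)) := by
    intro x
    by_cases h : M a b x
    · exact ⟨0, fun h' => absurd h h'⟩
    · obtain ⟨f, hf⟩ := exists_pf hb h
      exact ⟨f, fun _ => hf⟩
  choose φ hφ using hch
  refine card_le_card_of_injOn (fun x => (φ x, φ x - x)) ?_ ?_
  · intro x hx
    rw [mem_coe, mem_gaps hb] at hx
    obtain ⟨h1, h2, h3⟩ := hφ x hx
    rw [mem_coe, mem_product, mem_pfs hb, mem_filter, mem_range]
    have := hF _ h1.1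
    exact ⟨h1, by simp only; omega, h3⟩
  · intro x hx y hy h
    rw [mem_coe, mem_gaps hb] at hx hy
    obtain ⟨h1, h2, h3⟩ := hφ x hx
    obtain ⟨g1, g2, g3⟩ := hφ y hy
    simp only [Prod.mk.injEq] at h
    omega

/-- **Wilf's inequality.** `F` is the largest gap. -/
theorem wilf (hb : 0 < b) {F : ℕ} (hF : ∀ x, ¬ M a b x → x ≤ F) :
    (atoms a b).card * (gaps a b).card ≤ ((atoms a b).card - 1) * (F + 1) := by
  classical
  have h1 := gaps_le hb hF
  have h2 := type_lt (a := a) hb
  have h3 : ((range (F + 1)).filter (fun x => M a b x)).card + (gaps a b).card = F + 1 := by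
    have e : gaps a b = (range (F + 1)).filter (fun x => ¬ M a b x) := by
      ext x
      rw [mem_gaps hb, mem_filter, mem_range]
      exact ⟨fun h => ⟨Nat.lt_succ_of_le (hF x h), h⟩, fun h => h.2⟩
    rw [e, card_filter_add_card_filter_not, card_range]
  set n := ((range (F + 1)).filter (fun x => M a b x)).card
  set g := (gaps a b).card
  obtain ⟨e, he⟩ : ∃ e, (atoms a b).card = e + 1 := ⟨(atoms a b).card - 1, by omega⟩
  rw [he] at h2 ⊢
  rw [← h3]
  have h4 : g ≤ e * n := h1.trans (Nat.mul_le_mul_right n (by omega))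
  have : e + 1 - 1 = e := by omega
  rw [this]
  nlinarith

end Q264.MNS
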