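import Mathlib

/-!
# The parity positions of the meta-Fibonacci sequence `h(n) = h(n - h(n-1)) + h(n-2)`
-/

set_option autoImplicit false

namespace Q264.MetaFib

/-- the defining conditions of the sequence -/
def IsH (h : ℤ → ℤ) : Prop :=
  (∀ n : ℤ, n ≤ 0 → h n = 1) ∧ h 1 = 1 ∧ ∀ n : ℤ, 1 < n → h n = h (n - h (n - 1)) + h (n - 2)

/-- a solution -/
def h0 (n : ℤ) : ℤ := if n ≤ 1 then 1 else h0 (n - max 1 (h0 (n - 1))) + h0 (n - 2)
termination_by n.toNat
decreasing_by all_goals omega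

theorem h0_pos : ∀ (k : ℕ) (n : ℤ), n ≤ k → 1 ≤ h0 n := by
  intro k
  induction k with
  | zero =>
    intro n hn
    rw [h0, if_pos (by omega)]
  | succ k ih =>
    intro n hn
    rw [h0]
    split_ifs with h1
    · exact le_rfl
    · have := ih (n - max 1 (h0 (n - 1))) (by push_cast at hn; omega)
      have := ih (n - 2) (by push_cast at hn; omega)
      omega

theorem h0_isH : IsH h0 := by
  refine ⟨fun n hn => ?_, ?_, fun n hn => ?_⟩
  · rw [h0, if_pos (by omega)]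
  · rw [h0, if_pos (by omega)]
  · conv_lhs => rw [h0]
    rw [if_neg (by omega), max_eq_right (h0_pos (n - 1).toNat (n - 1) (by omega))]

theorem IsH.pos {h : ℤ → ℤ} (hh : IsH h) : ∀ (k : ℕ) (n : ℤ), n ≤ k → 1 ≤ h n := by
  obtain ⟨a1, a2, a3⟩ := hh
  have key : ∀ (k : ℕ), ∀ n : ℤ, n ≤ k → 1 ≤ h n := by
    intro k
    induction k with
    | zero =>
      intro n hn
      rw [a1 n (by simpa using hn)]
    | succ k ih =>
      intro n hn
      rcases lt_or_ge 1 n with h1 | h1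
      · rw [a3 n h1]
        have e1 := ih (n - 1) (by push_cast at hn; omega)
        have e2 := ih (n - h (n - 1)) (by push_cast at hn; omega)
        have e3 := ih (n - 2) (by push_cast at hn; omega)
        omega
      · rcases eq_or_lt_of_le h1 with h2 | h2
        · rw [h2, a2]
        · rw [a1 n (by omega)]
  exact key

theorem isH_unique {h h' : ℤ → ℤ} (hh : IsH h) (hh' : IsH h') : h = h' := by
  have key : ∀ (k : ℕ), ∀ n : ℤ, n ≤ k → h n = h' n := by
    intro k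
    induction k with
    | zero =>
      intro n hn
      rw [hh.1 n (by simpa using hn), hh'.1 n (by simpa using hn)]
    | succ k ih =>
      intro n hn
      rcases lt_or_ge 1 n with h1 | h1
      · rw [hh.2.2 n h1, hh'.2.2 n h1]
        have p := hh.pos (n - 1).toNat (n - 1) (by omega)
        push_cast at hn
        rw [← ih (n - 1) (by omega), ih (n - h (n - 1)) (by omega), ih (n - 2) (by omega)]
      · rcases eq_or_lt_of_le h1 with h2 | h2
        · rw [h2, hh.2.1, hh'.2.1]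
        · rw [hh.1 n (by omega), hh'.1 n (by omega)]
  funext n
  exact key n.toNat n (by omega)

theorem existsUnique_isH : ∃! h : ℤ → ℤ, IsH h := ⟨h0, h0_isH, fun _ hy => isH_unique hy h0_isH⟩

/-- `h(2n+1) = n+1` and `h(2n+2) = h(2n) + h(n+1)` -/
theorem IsH.rec {h : ℤ → ℤ} (hh : IsH h) : ∀ n : ℕ, h (2 * n + 1) = n + 1 ∧ h (2 * n + 2) = h (2 * n) + h (n + 1) ∧
    (2 * n + 2 : ℤ) ≤ h (2 * n + 2) := by
  intro n
  induction n using Nat.strong_induction_on with
  | _ n ih =>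
    obtain ⟨a1, a2, a3⟩ := hh
    have h00 : h 0 = 1 := a1 0 le_rfl
    have e1 : h (2 * n + 1) = n + 1 := by
      rcases n with _ | n
      · simpa using a2
      · obtain ⟨i1, i2, i3⟩ := ih n (by omega)
        have := a3 (2 * ((n + 1 : ℕ) : ℤ) + 1) (by push_cast; omega)
        rw [this]
        rw [show 2 * ((n + 1 : ℕ) : ℤ) + 1 - 1 = 2 * n + 2 by push_cast; ring,
          show 2 * ((n + 1 : ℕ) : ℤ) + 1 - 2 = 2 * n + 1 by push_cast; ring, i1]
        have e2 : h (2 * ((n + 1 : ℕ) : ℤ) + 1 - h (2 * n + 2)) = 1 := by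
          have : 2 * ((n + 1 : ℕ) : ℤ) + 1 - h (2 * n + 2) ≤ 1 := by push_cast; omega
          rcases eq_or_lt_of_le this with h2 | h2
          · rw [h2, a2]
          · exact a1 _ (by omega)
        rw [e2]
        push_cast
        ring
    have e2 : h (2 * n + 2) = h (2 * n) + h (n + 1) := by
      have := a3 (2 * (n : ℤ) + 2) (by omega)
      rw [this, show 2 * (n : ℤ) + 2 - 1 = 2 * n + 1 by ring, e1, show 2 * (n : ℤ) + 2 - (n + 1) = n + 1 by ring,
        show 2 * (n : ℤ) + 2 - 2 = 2 * n by ring]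
      ring
    refine ⟨e1, e2, ?_⟩
    rcases n with _ | n
    · rw [e2]
      norm_num
      rw [h00, a2]
      norm_num
    · have i3 := (ih n (by omega)).2.2
      have e3 : 2 ≤ h (((n + 1 : ℕ) : ℤ) + 1) := by
        rcases Nat.even_or_odd' n with ⟨k, hk | hk⟩
        · obtain ⟨j1, j2, j3⟩ := ih k (by omega)
          have : ((n + 1 : ℕ) : ℤ) + 1 = 2 * k + 2 := by subst hk; push_cast; ring
          rw [this]
          omega
        · -- `n + 2 = 2 (k + 1) + 1`
          obtain ⟨j1, j2, j3⟩ := ih (k + 1) (by omega)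
          have : ((n + 1 : ℕ) : ℤ) + 1 = 2 * ((k + 1 : ℕ) : ℤ) + 1 := by subst hk; push_cast; ring
          rw [this, j1]
          push_cast
          omega
      rw [e2]
      have : 2 * ((n + 1 : ℕ) : ℤ) = 2 * n + 2 := by push_cast; ring
      rw [this] at *
      omega

/-! ### Parities -/

/-- `e n` is the parity of `h (2 n)` -/
def e (h : ℤ → ℤ) (n : ℕ) : ZMod 2 := (h (2 * n) : ZMod 2)

section

variable {h : ℤ → ℤ} (hh : IsH h)

include hh

theorem par_odd (n : ℕ) : ((h ((2 * n + 1 : ℕ) : ℤ) : ℤ) : ZMod 2) = n + 1 := by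
  have := (hh.rec n).1
  push_cast
  rw [this]
  push_cast
  rfl

theorem par1 (m : ℕ) : ((h ((4 * m + 1 : ℕ) : ℤ) : ℤ) : ZMod 2) = 1 := by
  have := par_odd hh (2 * m)
  rw [show 2 * (2 * m) + 1 = 4 * m + 1 by ring] at this
  rw [this]
  have h2 : (2 : ZMod 2) = 0 := rfl
  push_cast
  rw [h2]
  ring

theorem par3 (m : ℕ) : ((h ((4 * m + 3 : ℕ) : ℤ) : ℤ) : ZMod 2) = 0 := by
  have := par_odd hh (2 * m + 1)
  rw [show 2 * (2 * m + 1) + 1 = 4 * m + 3 by ring] at this
  rw [this]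
  have h2 : (2 : ZMod 2) = 0 := rfl
  push_cast
  linear_combination (m + 1 : ZMod 2) * h2

omit hh in
theorem par_even (n : ℕ) : ((h ((2 * n : ℕ) : ℤ) : ℤ) : ZMod 2) = e h n := by
  unfold e
  push_cast
  rfl

theorem e_succ (n : ℕ) : e h (n + 1) = e h n + ((h ((n + 1 : ℕ) : ℤ) : ℤ) : ZMod 2) := by
  have := (hh.rec n).2.1
  unfold e
  push_cast
  rw [show 2 * ((n : ℤ) + 1) = 2 * n + 2 by ring, this]
  push_cast
  rfl

theorem e_zero : e h 0 = 1 := by
  unfold e
  simp [hh.1 0 le_rfl]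

theorem e1 (m : ℕ) : e h (4 * m + 1) = e h (4 * m) + 1 := by
  rw [e_succ hh, par1 hh]

theorem e2 (m : ℕ) : e h (4 * m + 2) = e h (4 * m) + 1 + e h (2 * m + 1) := by
  rw [show 4 * m + 2 = (4 * m + 1) + 1 by ring, e_succ hh, e1 hh, show 4 * m + 1 + 1 = 2 * (2 * m + 1) by ring,
    par_even]

theorem e3 (m : ℕ) : e h (4 * m + 3) = e h (4 * m) + 1 + e h (2 * m + 1) := by
  rw [show 4 * m + 3 = (4 * m + 2) + 1 by ring, e_succ hh, e2 hh, show 4 * m + 2 + 1 = 4 * m + 3 by ring, par3 hh,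
    add_zero]

theorem e4 (m : ℕ) : e h (4 * m + 4) = e h (4 * m) + 1 + e h (2 * m + 1) + e h (2 * m + 2) := by
  rw [show 4 * m + 4 = (4 * m + 3) + 1 by ring, e_succ hh, e3 hh, show 4 * m + 3 + 1 = 2 * (2 * m + 2) by ring,
    par_even]

/-- the four consecutive values -/
theorem e_four (m : ℕ) : e h (2 * m) + e h (2 * m + 1) + e h (2 * m + 2) + e h (2 * m + 3) = 1 := by
  have h1 := e_succ hh (2 * m)
  have h2 := e_succ hh (2 * m + 2)
  have h3 := par_odd hh m
  have h4 := par_odd hh (m + 1)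
  rw [show 2 * (m + 1) + 1 = 2 * m + 2 + 1 by ring] at h4
  rw [h3] at h1
  rw [h4] at h2
  rw [show 2 * m + 3 = 2 * m + 2 + 1 by ring, h2, h1]
  have h2 : (2 : ZMod 2) = 0 := rfl
  push_cast
  linear_combination (e h (2 * m) + e h (2 * m + 2) + (m + 1 : ZMod 2)) * h2

theorem e8 (n : ℕ) : e h (8 * n) = e h (2 * n + 1) + e h (4 * n) + 1 + e h (2 * n) ∧
    e h (8 * n + 4) = e h (2 * n) + e h (4 * n) := by
  have h2 : (2 : ZMod 2) = 0 := rfl
  have step : ∀ n, e h (8 * n + 4) = e h (8 * n) + e h (2 * n + 1) + 1 := by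
    intro n
    have k1 := e4 hh (2 * n)
    have k2 := e1 hh n
    have k3 := e2 hh n
    rw [show 4 * (2 * n) + 4 = 8 * n + 4 by ring, show 4 * (2 * n) = 8 * n by ring, show 2 * (2 * n) + 1 = 4 * n + 1 by ring,
      show 2 * (2 * n) + 2 = 4 * n + 2 by ring, k2, k3] at k1
    rw [k1]
    linear_combination (e h (4 * n) + 1) * h2
  induction n with
  | zero =>
    have k1 := e1 hh 0
    have k0 := e_zero hh
    simp only [mul_zero, zero_add] at k1 ⊢
    have k2 := step 0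
    simp only [mul_zero, zero_add] at k2
    rw [k2, k1, k0]
    constructor <;> decide
  | succ n ih =>
    obtain ⟨i1, i2⟩ := ih
    have k1 := e4 hh (2 * n + 1)
    rw [show 4 * (2 * n + 1) + 4 = 8 * (n + 1) by ring, show 4 * (2 * n + 1) = 8 * n + 4 by ring,
      show 2 * (2 * n + 1) + 1 = 4 * n + 3 by ring, show 2 * (2 * n + 1) + 2 = 4 * n + 4 by ring] at k1
    have k2 := e3 hh n
    have k3 := e4 hh n
    have k4 := e_four hh n
    have k5 : e h (8 * (n + 1)) = e h (2 * (n + 1) + 1) + e h (4 * (n + 1)) + 1 + e h (2 * (n + 1)) := by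
      rw [show 2 * (n + 1) + 1 = 2 * n + 3 by ring, show 4 * (n + 1) = 4 * n + 4 by ring,
        show 2 * (n + 1) = 2 * n + 2 by ring, k1, k2, k3, i2]
      linear_combination k4 - (e h (2 * n + 3)) * h2 + (1 + e h (4 * n) - e h (2 * n + 2)) * h2
    refine ⟨k5, ?_⟩
    rw [step (n + 1), k5]
    linear_combination (e h (2 * (n + 1) + 1) + 1) * h2

end

/-- the states -/
abbrev State := ZMod 2 × ZMod 2 × ZMod 2

def S (h : ℤ → ℤ) (m : ℕ) : State := (e h (2 * m), e h (2 * m + 1), e h (4 * m))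

/-- the transition functions -/
def tr0 (σ : State) : State := (σ.2.2, σ.2.2 + 1, σ.2.1 + σ.2.2 + 1 + σ.1)
def tr1 (σ : State) : State := (σ.2.2 + 1 + σ.2.1, σ.2.2 + 1 + σ.2.1, σ.1 + σ.2.2)

/-- the pattern of the parities in `[16 m, 16 m + 16)` -/
def pat (σ : State) (k : ℕ) : ZMod 2 :=
  match k with
  | 1 | 5 | 9 | 13 => 1
  | 0 => σ.2.1 + σ.2.2 + 1 + σ.1
  | 2 => σ.2.1 + σ.2.2 + σ.1
  | 4 => σ.2.1 + σ.1 + 1
  | 6 => σ.2.1 + σ.1 + 1
  | 8 => σ.1 + σ.2.2
  | 10 => σ.1 + σ.2.2 + 1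
  | 12 => σ.2.1 + σ.1
  | 14 => σ.2.1 + σ.1
  | _ => 0

section

variable {h : ℤ → ℤ} (hh : IsH h)

include hh

theorem S_even (m : ℕ) : S h (2 * m) = tr0 (S h m) := by
  unfold S tr0
  simp only
  rw [show 2 * (2 * m) = 4 * m by ring, show 4 * (2 * m) = 8 * m by ring, e1 hh, (e8 hh m).1]

theorem S_odd (m : ℕ) : S h (2 * m + 1) = tr1 (S h m) := by
  unfold S tr1
  simp only
  rw [show 2 * (2 * m + 1) = 4 * m + 2 by ring, show 4 * m + 2 + 1 = 4 * m + 3 by ring,
    show 4 * (2 * m + 1) = 8 * m + 4 by ring, e2 hh, e3 hh, (e8 hh m).2]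

theorem pattern (m k : ℕ) (hk : k < 16) : ((h ((16 * m + k : ℕ) : ℤ) : ℤ) : ZMod 2) = pat (S h m) k := by
  have h2 : (2 : ZMod 2) = 0 := rfl
  have q0 := (e8 hh m).1
  have q4 := (e8 hh m).2
  have q1 := e1 hh (2 * m)
  have q2 := e2 hh (2 * m)
  have q3 := e3 hh (2 * m)
  have q5 := e1 hh (2 * m + 1)
  have q6 := e2 hh (2 * m + 1)
  have q7 := e3 hh (2 * m + 1)
  have p1 := e1 hh m
  have p3 := e3 hh m
  rw [show 4 * (2 * m) = 8 * m by ring] at q1 q2 q3
  rw [show 2 * (2 * m) + 1 = 4 * m + 1 by ring, p1, q0] at q2 q3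
  rw [q0] at q1
  rw [show 4 * (2 * m + 1) = 8 * m + 4 by ring] at q5 q6 q7
  rw [show 2 * (2 * m + 1) + 1 = 4 * m + 3 by ring, p3, q4] at q6 q7
  rw [q4] at q5
  rw [show 8 * m + 4 + 1 = 8 * m + 5 by ring] at q5
  rw [show 8 * m + 4 + 2 = 8 * m + 6 by ring] at q6
  rw [show 8 * m + 4 + 3 = 8 * m + 7 by ring] at q7
  interval_cases k <;> simp only [pat, S]
  · rw [show 16 * m + 0 = 2 * (8 * m) by ring, par_even, q0]
  · rw [show 16 * m + 1 = 4 * (4 * m) + 1 by ring, par1 hh]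
  · rw [show 16 * m + 2 = 2 * (8 * m + 1) by ring, par_even, q1]
    linear_combination h2
  · rw [show 16 * m + 3 = 4 * (4 * m) + 3 by ring, par3 hh]
  · rw [show 16 * m + 4 = 2 * (8 * m + 2) by ring, par_even, q2]
    linear_combination (e h (4 * m) + 1) * h2
  · rw [show 16 * m + 5 = 4 * (4 * m + 1) + 1 by ring, par1 hh]
  · rw [show 16 * m + 6 = 2 * (8 * m + 3) by ring, par_even, q3]
    linear_combination (e h (4 * m) + 1) * h2
  · rw [show 16 * m + 7 = 4 * (4 * m + 1) + 3 by ring, par3 hh]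
  · rw [show 16 * m + 8 = 2 * (8 * m + 4) by ring, par_even, q4]
  · rw [show 16 * m + 9 = 4 * (4 * m + 2) + 1 by ring, par1 hh]
  · rw [show 16 * m + 10 = 2 * (8 * m + 5) by ring, par_even, q5]
  · rw [show 16 * m + 11 = 4 * (4 * m + 2) + 3 by ring, par3 hh]
  · rw [show 16 * m + 12 = 2 * (8 * m + 6) by ring, par_even, q6]
    linear_combination (e h (4 * m) + 1) * h2
  · rw [show 16 * m + 13 = 4 * (4 * m + 3) + 1 by ring, par1 hh]
  · rw [show 16 * m + 14 = 2 * (8 * m + 7) by ring, par_even, q7]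
    linear_combination (e h (4 * m) + 1) * h2
  · rw [show 16 * m + 15 = 4 * (4 * m + 3) + 3 by ring, par3 hh]

end

/-! ### The enumerations -/

theorem finite_facts : ∀ (σ : State) (i : ZMod 2), Nat.count (fun k => pat σ k = i) 16 = 8 ∧
    ∀ c < 8, ∃ t < 16, pat σ t = i ∧ Nat.count (fun k => pat σ k = i) t = c := by
  decide +kernel

section

variable {h : ℤ → ℤ} (hh : IsH h)

include hh

theorem count_block (i : ZMod 2) (m t : ℕ) (ht : t ≤ 16) :
    Nat.count (fun k : ℕ => ((h ((16 * m + k : ℕ) : ℤ) : ℤ) : ZMod 2) = i) t =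
    Nat.count (fun k => pat (S h m) k = i) t := by
  induction t with
  | zero => rfl
  | succ t ih =>
    rw [Nat.count_succ, Nat.count_succ, ih (by omega), pattern hh m t (by omega)]

theorem count_all (i : ZMod 2) (m : ℕ) : Nat.count (fun k : ℕ => ((h (k : ℤ) : ℤ) : ZMod 2) = i) (16 * m) = 8 * m := by
  induction m with
  | zero => rfl
  | succ m ih =>
    rw [show 16 * (m + 1) = 16 * m + 16 by ring, Nat.count_add, ih, count_block hh i m 16 le_rfl,
      (finite_facts (S h m) i).1]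
    ring

/-- the enumeration of the positions of the parity `i` -/
theorem nth_eq (i : ZMod 2) : ∃ q : ℕ → State → ℕ, ∀ m c : ℕ, c < 8 →
    Nat.nth (fun k : ℕ => ((h (k : ℤ) : ℤ) : ZMod 2) = i) (8 * m + c) = 16 * m + q c (S h m) := by
  have key : ∀ (c : ℕ) (σ : State), ∃ t, c < 8 → t < 16 ∧ pat σ t = i ∧ Nat.count (fun k => pat σ k = i) t = c := by
    intro c σ
    by_cases hc : c < 8
    · obtain ⟨t, h1, h2, h3⟩ := (finite_facts σ i).2 c hc
      exact ⟨t, fun _ => ⟨h1, h2, h3⟩⟩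
    · exact ⟨0, fun h => absurd h hc⟩
  choose q hq using key
  refine ⟨q, fun m c hc => ?_⟩
  obtain ⟨h1, h2, h3⟩ := hq c (S h m) hc
  have e1 : Nat.count (fun k : ℕ => ((h (k : ℤ) : ℤ) : ZMod 2) = i) (16 * m + q c (S h m)) = 8 * m + c := by
    rw [Nat.count_add, count_all hh, count_block hh i m _ h1.le, h3]
  rw [← e1]
  refine Nat.nth_count ?_
  rw [pattern hh m _ h1, h2]

theorem S_trans (a : ℕ) : ∀ c, c < 2 ^ a → ∃ Φ : State → State, ∀ n, S h (2 ^ a * n + c) = Φ (S h n) := by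
  induction a with
  | zero =>
    intro c hc
    refine ⟨id, fun n => ?_⟩
    have : c = 0 := by simpa using hc
    rw [this]
    simp
  | succ a ih =>
    intro c hc
    obtain ⟨Φ, hΦ⟩ := ih (c / 2) (by rw [pow_succ] at hc; omega)
    rcases Nat.even_or_odd' c with ⟨d, rfl | rfl⟩
    · refine ⟨fun σ => tr0 (Φ σ), fun n => ?_⟩
      simp only
      rw [← hΦ, ← S_even hh]
      congr 1
      rw [pow_succ]
      have : 2 * d / 2 = d := by omega
      rw [this]
      ring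
    · refine ⟨fun σ => tr1 (Φ σ), fun n => ?_⟩
      simp only
      rw [← hΦ, ← S_odd hh]
      congr 1
      rw [pow_succ]
      have : (2 * d + 1) / 2 = d := by omega
      rw [this]
      ring

end

/-- the `ℤ`-module generated by the `k`-kernel is finitely generated -/
def KRegular (k : ℕ) (a : ℕ → ℤ) : Prop :=
  (Submodule.span ℤ {b : ℕ → ℤ | ∃ j c : ℕ, c < k ^ j ∧ b = fun n => a (k ^ j * n + c)}).FG

/-- the linear map producing the functions `α n + g (S n)` -/
def L (h : ℤ → ℤ) : (ℤ × (State → ℤ)) →ₗ[ℤ] (ℕ → ℤ) where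
  toFun x n := x.1 * n + x.2 (S h n)
  map_add' x y := by
    funext n
    simp only [Prod.fst_add, Prod.snd_add, Pi.add_apply]
    ring
  map_smul' c x := by
    funext n
    simp only [Prod.smul_fst, Prod.smul_snd, Pi.smul_apply, smul_eq_mul, RingHom.id_apply]
    ring

theorem regular {h : ℤ → ℤ} (hh : IsH h) (i : ZMod 2) :
    KRegular 2 (fun n => (Nat.nth (fun k : ℕ => ((h (k : ℤ) : ℤ) : ZMod 2) = i) n : ℤ)) := by
  obtain ⟨q, hq⟩ := nth_eq hh i
  set u : ℕ → ℤ := fun n => (Nat.nth (fun k : ℕ => ((h (k : ℤ) : ℤ) : ZMod 2) = i) n : ℤ) with hu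
  have hq' : ∀ m c : ℕ, c < 8 → u (8 * m + c) = 16 * m + (q c (S h m) : ℤ) := by
    intro m c hc
    simp only [hu]
    rw [hq m c hc]
    push_cast
    rfl
  let F : Set (ℕ → ℤ) := (fun p : ℕ × ℕ => fun n => u (2 ^ p.1 * n + p.2)) '' ((Set.Iio 3) ×ˢ (Set.Iio 8))
  have hF : F.Finite := ((Set.finite_Iio 3).prod (Set.finite_Iio 8)).image _
  have hfg : (LinearMap.range (L h) ⊔ Submodule.span ℤ F).FG := by
    refine Submodule.FG.sup ?_ (Submodule.fg_span hF)
    rw [LinearMap.range_eq_map]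
    exact Submodule.FG.map _ (Module.finite_def.1 inferInstance)
  refine hfg.of_le ?_
  rw [Submodule.span_le]
  rintro _ ⟨j, c, hc, rfl⟩
  rcases Nat.lt_or_ge j 3 with hj | hj
  · refine Submodule.mem_sup_right (Submodule.subset_span ?_)
    refine ⟨(j, c), ⟨hj, ?_⟩, rfl⟩
    have : 2 ^ j ≤ 2 ^ 3 := Nat.pow_le_pow_right (by norm_num) hj.le
    exact lt_of_lt_of_le hc this
  · refine Submodule.mem_sup_left ?_
    obtain ⟨a, rfl⟩ : ∃ a, j = a + 3 := ⟨j - 3, by omega⟩
    obtain ⟨Φ, hΦ⟩ := S_trans hh a (c / 8) (by rw [pow_add] at hc; omega)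
    refine ⟨(16 * 2 ^ a, fun σ => 16 * (c / 8 : ℕ) + q (c % 8) (Φ σ)), ?_⟩
    funext n
    have e1 : 2 ^ (a + 3) * n + c = 8 * (2 ^ a * n + c / 8) + c % 8 := by
      rw [pow_add]
      have := Nat.div_add_mod c 8
      calc 2 ^ a * 2 ^ 3 * n + c = 8 * (2 ^ a * n) + (8 * (c / 8) + c % 8) := by rw [this]; ring
        _ = _ := by ring
    rw [e1, hq' _ _ (Nat.mod_lt _ (by norm_num)), hΦ]
    simp only [L, LinearMap.coe_mk, AddHom.coe_mk]
    push_cast
    ring

end Q264.MetaFib
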