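import Mathlib

/-!
Beta expansions of one: transfer of a coincidence in the orbit of one to a conjugate, and two
escape criteria.
-/

namespace Q264.PY

open Polynomial

/-- The beta transformation `x ↦ γ x - ⌊γ x⌋`. -/
noncomputable def T (γ x : ℝ) : ℝ := γ * x - (⌊γ * x⌋ : ℤ)

/-- `γ` is a Parry number: the orbit `T γ 1, T γ (T γ 1), ...` is a finite set. -/
def IsParry (γ : ℝ) : Prop := {y : ℝ | ∃ n : ℕ, 1 ≤ n ∧ y = (T γ)^[n] 1}.Finite

/-- the orbit of `1` -/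
noncomputable def v (γ : ℝ) (n : ℕ) : ℝ := (T γ)^[n] 1

/-- the digits: `t γ n = ⌊γ * v n⌋`, used to go from step `n` to step `n + 1` -/
noncomputable def t (γ : ℝ) (n : ℕ) : ℤ := ⌊γ * v γ n⌋

/-- the conjugate orbit -/
noncomputable def u (γ : ℝ) (w : ℂ) : ℕ → ℂ
  | 0 => 1
  | n + 1 => w * u γ w n - (t γ n : ℂ)

lemma v_zero (γ : ℝ) : v γ 0 = 1 := rfl

lemma v_succ (γ : ℝ) (n : ℕ) : v γ (n + 1) = γ * v γ n - (t γ n : ℝ) := by
  unfold v t
  rw [Function.iterate_succ_apply']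
  rfl

lemma v_nonneg (γ : ℝ) (n : ℕ) : 0 ≤ v γ n := by
  cases n with
  | zero => rw [v_zero]; norm_num
  | succ n =>
    rw [v_succ]
    unfold t
    linarith [Int.floor_le (γ * v γ n)]

lemma v_lt_one (γ : ℝ) (n : ℕ) : v γ (n + 1) < 1 := by
  rw [v_succ]
  unfold t
  linarith [Int.lt_floor_add_one (γ * v γ n)]

lemma v_le_one (γ : ℝ) (n : ℕ) : v γ n ≤ 1 := by
  cases n with
  | zero => rw [v_zero]
  | succ n => exact (v_lt_one γ n).le

lemma t_nonneg {γ : ℝ} (h : 0 ≤ γ) (n : ℕ) : 0 ≤ t γ n := by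
  unfold t
  exact Int.floor_nonneg.mpr (mul_nonneg h (v_nonneg γ n))

/-- the polynomials behind the orbit -/
noncomputable def p (k : ℕ) (γ : ℝ) : ℕ → ℚ[X]
  | 0 => 1
  | n + 1 => X ^ k * p k γ n - C ((t γ n : ℤ) : ℚ)

lemma aeval_p_real (k : ℕ) (β : ℝ) (n : ℕ) : aeval β (p k (β ^ k) n) = v (β ^ k) n := by
  induction n with
  | zero => simp [p, v_zero]
  | succ n ih =>
    rw [p, v_succ]
    simp only [map_sub, map_mul, map_pow, aeval_X, ih]
    simp

lemma aeval_p_complex (k : ℕ) (β : ℝ) (x : ℂ) (n : ℕ) :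
    aeval x (p k (β ^ k) n) = u (β ^ k) (x ^ k) n := by
  induction n with
  | zero => simp [p, u]
  | succ n ih =>
    rw [p, u]
    simp only [map_sub, map_mul, map_pow, aeval_X, ih]
    simp

lemma transfer_zero {d : ℕ} (hd : 2 ≤ d) {β : ℝ} (hβ : β ^ d = β + 1) {x : ℂ}
    (hx : x ^ d = x + 1) (q : ℚ[X]) (h : aeval β q = 0) : aeval x q = 0 := by
  have hirr : Irreducible (X ^ d - X - 1 : ℚ[X]) :=
    X_pow_sub_X_sub_one_irreducible_rat (by omega)
  have hmon : (X ^ d - X - 1 : ℚ[X]).Monic := by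
    have : (X ^ d - X - 1 : ℚ[X]) = X ^ d - (X + 1) := by ring
    rw [this]
    apply monic_X_pow_sub
    rw [show (X + 1 : ℚ[X]) = X + C 1 by simp]
    rw [degree_X_add_C]
    exact_mod_cast (by omega : 1 < d)
  have hroot : aeval β (X ^ d - X - 1 : ℚ[X]) = 0 := by
    simp [hβ]
  have hmin : X ^ d - X - 1 = minpoly ℚ β :=
    minpoly.eq_of_irreducible_of_monic hirr hroot hmon
  have hdvd : minpoly ℚ β ∣ q := minpoly.dvd ℚ β h
  rw [← hmin] at hdvd
  obtain ⟨r, hr⟩ := hdvd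
  rw [hr]
  simp [hx]

/-- If `β ^ k` is a Parry number then the conjugate orbit is bounded. -/
lemma bounded_of_parry {d k : ℕ} (hd : 2 ≤ d) {β : ℝ} (hβ : β ^ d = β + 1) {x : ℂ}
    (hx : x ^ d = x + 1) (hP : IsParry (β ^ k)) : ∃ M : ℝ, ∀ j, ‖u (β ^ k) (x ^ k) j‖ ≤ M := by
  set γ := β ^ k with hγ
  have hex : ∃ m n : ℕ, m < n ∧ v γ m = v γ n := by
    by_contra hcon
    push Not at hcon
    have hinj : Function.Injective (fun n : ℕ => v γ (n + 1)) := by
      intro a b hab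
      by_contra hne
      rcases lt_or_gt_of_ne hne with h | h
      · exact hcon (a + 1) (b + 1) (by omega) hab
      · exact hcon (b + 1) (a + 1) (by omega) hab.symm
    have hmem : ∀ n : ℕ, (fun n : ℕ => v γ (n + 1)) n ∈
        {y : ℝ | ∃ n : ℕ, 1 ≤ n ∧ y = (T γ)^[n] 1} := by
      intro n
      exact ⟨n + 1, by omega, rfl⟩
    exact (Set.infinite_of_injective_forall_mem hinj hmem) hP
  obtain ⟨m, n, hmn, hv⟩ := hex
  have hu : u γ (x ^ k) m = u γ (x ^ k) n := by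
    have h0 : aeval β (p k γ m - p k γ n) = 0 := by
      rw [map_sub, hγ, aeval_p_real, aeval_p_real, ← hγ, hv, sub_self]
    have h1 := transfer_zero hd hβ hx _ h0
    rw [map_sub, hγ, aeval_p_complex, aeval_p_complex, sub_eq_zero] at h1
    exact h1
  have hstep : ∀ j, ∃ i < n, u γ (x ^ k) j = u γ (x ^ k) i ∧ v γ j = v γ i := by
    intro j
    induction j with
    | zero => exact ⟨0, by omega, rfl, rfl⟩
    | succ j ih =>
      obtain ⟨i, hi, h1, h2⟩ := ih
      have h3 : u γ (x ^ k) (j + 1) = u γ (x ^ k) (i + 1) := by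
        rw [u, u, h1]
        unfold t
        rw [h2]
      have h4 : v γ (j + 1) = v γ (i + 1) := by
        rw [v_succ, v_succ, h2]
        unfold t
        rw [h2]
      by_cases hin : i + 1 < n
      · exact ⟨i + 1, hin, h3, h4⟩
      · have : i + 1 = n := by omega
        refine ⟨m, hmn, ?_, ?_⟩
        · rw [h3, this, hu]
        · rw [h4, this, hv]
  refine ⟨∑ i ∈ Finset.range n, ‖u γ (x ^ k) i‖, fun j => ?_⟩
  obtain ⟨i, hi, h1, -⟩ := hstep j
  rw [h1]
  exact Finset.single_le_sum (f := fun i => ‖u γ (x ^ k) i‖) (fun _ _ => norm_nonneg _)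
    (Finset.mem_range.mpr hi)

/-- a sequence that grows geometrically from a positive value is not bounded -/
lemma geom_unbounded {R : ℝ} (hR : 1 < R) (f : ℕ → ℝ) (n₀ : ℕ) (h0 : 0 < f n₀)
    (hf : ∀ n, n₀ ≤ n → R * f n ≤ f (n + 1)) (M : ℝ) (hM : ∀ n, f n ≤ M) : False := by
  have h1 : ∀ i, R ^ i * f n₀ ≤ f (n₀ + i) := by
    intro i
    induction i with
    | zero => simp
    | succ i ih =>
      have := hf (n₀ + i) (by omega)
      calc R ^ (i + 1) * f n₀ = R * (R ^ i * f n₀) := by ring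
        _ ≤ R * f (n₀ + i) := by
            apply mul_le_mul_of_nonneg_left ih (by linarith)
        _ ≤ f (n₀ + (i + 1)) := this
  obtain ⟨i, hi⟩ := pow_unbounded_of_one_lt (M / f n₀) hR
  have h2 := h1 i
  have h3 := hM (n₀ + i)
  rw [div_lt_iff₀ h0] at hi
  linarith

/-- Criterion B. -/
lemma critB {γ : ℝ} {w : ℂ} (hR : 1 < ‖w‖) (hle : ‖w‖ ≤ γ) {M : ℝ}
    (hM : ∀ j, ‖u γ w j‖ ≤ M) (n : ℕ) :
    ‖u γ w n‖ ≤ v γ n + (γ - ‖w‖) / (‖w‖ - 1) := by
  by_contra hcon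
  push Not at hcon
  set R := ‖w‖ with hRdef
  set c := (γ - R) / (R - 1) with hc
  have hR1 : 0 < R - 1 := by linarith
  have hcR : c * (R - 1) = γ - R := by
    rw [hc]; field_simp
  have hstep : ∀ j, R * (‖u γ w j‖ - v γ j - c) ≤ ‖u γ w (j + 1)‖ - v γ (j + 1) - c := by
    intro j
    have h1 : R * ‖u γ w j‖ - (t γ j : ℝ) ≤ ‖u γ w (j + 1)‖ := by
      rw [u]
      have h2 : ‖w * u γ w j‖ - ‖(t γ j : ℂ)‖ ≤ ‖w * u γ w j - (t γ j : ℂ)‖ := norm_sub_norm_le _ _
      rw [norm_mul] at h2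
      have h3 : ‖((t γ j : ℤ) : ℂ)‖ = (t γ j : ℝ) := by
        rw [Complex.norm_intCast]
        have : (0 : ℤ) ≤ t γ j := t_nonneg (by linarith) j
        exact abs_of_nonneg (by exact_mod_cast this)
      rw [h3] at h2
      exact h2
    rw [v_succ]
    have h4 : (γ - R) * v γ j ≤ γ - R := by
      have := v_le_one γ j
      nlinarith
    nlinarith
  apply geom_unbounded hR (fun j => ‖u γ w j‖ - v γ j - c) n (by simpa using by linarith)
    (fun j _ => hstep j) (M - c)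
  intro j
  have h1 := hM j
  have h2 := v_nonneg γ j
  linarith

/-- Criterion A. -/
lemma critA {γ : ℝ} {w : ℂ} (hR : 1 < ‖w‖) (hγ : 0 ≤ γ) (hne : w ≠ (γ : ℂ)) {M : ℝ}
    (hM : ∀ j, ‖u γ w j‖ ≤ M) :
    ‖w + (v γ 1 : ℂ)‖ ≤ 1 / (‖w‖ - 1) := by
  by_contra hcon
  push Not at hcon
  set R := ‖w‖ with hRdef
  have hR1 : 0 < R - 1 := by linarith
  set D := ‖w - (γ : ℂ)‖ with hD
  have hDpos : 0 < D := by
    rw [hD]
    exact norm_pos_iff.mpr (sub_ne_zero.mpr hne)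
  set s : ℕ → ℂ := fun j => u γ w j - (v γ j : ℂ) with hs
  have hs_succ : ∀ j, s (j + 1) = w * s j + (w - γ) * (v γ j : ℂ) := by
    intro j
    simp only [hs]
    rw [u, v_succ]
    push_cast
    ring
  have hs0 : s 0 = 0 := by
    simp only [hs]
    rw [u, v_zero]
    simp
  have hs1 : s 1 = w - γ := by
    have := hs_succ 0
    rw [hs0, v_zero] at this
    rw [this]
    simp
  have hs2 : s 2 = (w - γ) * (w + (v γ 1 : ℂ)) := by
    have := hs_succ 1
    rw [hs1] at this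
    rw [this]
    ring
  have hstep : ∀ j, R * (‖s j‖ - D / (R - 1)) ≤ ‖s (j + 1)‖ - D / (R - 1) := by
    intro j
    have h1 : R * ‖s j‖ - D * v γ j ≤ ‖s (j + 1)‖ := by
      rw [hs_succ]
      have h2 : ‖w * s j‖ - ‖-((w - γ) * (v γ j : ℂ))‖ ≤ ‖w * s j - -((w - γ) * (v γ j : ℂ))‖ :=
        norm_sub_norm_le _ _
      rw [norm_mul, norm_neg, norm_mul, sub_neg_eq_add] at h2
      have h3 : ‖((v γ j : ℝ) : ℂ)‖ = v γ j := by
        rw [Complex.norm_real]
        exact abs_of_nonneg (v_nonneg γ j)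
      rw [h3] at h2
      exact h2
    have h4 : D * v γ j ≤ D := by
      have := v_le_one γ j
      nlinarith
    have h5 : D / (R - 1) * (R - 1) = D := by field_simp
    nlinarith
  have h2 : 0 < ‖s 2‖ - D / (R - 1) := by
    rw [hs2, norm_mul, ← hD]
    have : D * (1 / (R - 1)) < D * ‖w + (v γ 1 : ℂ)‖ := by
      apply mul_lt_mul_of_pos_left hcon hDpos
    have h3 : D * (1 / (R - 1)) = D / (R - 1) := by ring
    linarith
  apply geom_unbounded hR (fun j => ‖s j‖ - D / (R - 1)) 2 h2 (fun j _ => hstep j)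
    (M + 1 - D / (R - 1))
  intro j
  have h1 : ‖s j‖ ≤ ‖u γ w j‖ + ‖((v γ j : ℝ) : ℂ)‖ := norm_sub_le _ _
  have h3 : ‖((v γ j : ℝ) : ℂ)‖ = v γ j := by
    rw [Complex.norm_real]
    exact abs_of_nonneg (v_nonneg γ j)
  rw [h3] at h1
  have h4 := v_le_one γ j
  have h5 := hM j
  linarith

end Q264.PY
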