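import Mathlib
import Pool.Agent.Q264.PY1

/-!
A conjugate of the root of `x ^ d = x + 1` near `exp (2 π i / d)`, with elementary estimates.
-/

namespace Q264.PY

open Real

/-- Existence of the conjugate in polar coordinates. -/
lemma exists_polar {d : ℕ} (hd : 5 ≤ d) : ∃ b ρ : ℝ, 2 * π / d < b ∧ b < 2 * π / ((d : ℝ) - 1) ∧
    0 < ρ ∧ ρ ^ d * cos (d * b) = ρ * cos b + 1 ∧ ρ ^ d * sin (d * b) = ρ * sin b := by
  have hD : (5 : ℝ) ≤ d := by exact_mod_cast hd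
  have hπ := Real.pi_pos
  set G : ℝ → ℝ := fun b => sin (d * b) ^ d - sin b * (-sin (((d : ℝ) - 1) * b)) ^ (d - 1) with hG
  have hcont : Continuous G := by
    rw [hG]; fun_prop
  have hd0 : (d : ℝ) ≠ 0 := by positivity
  have hd1 : (d : ℝ) - 1 ≠ 0 := by linarith
  have hlt : 2 * π / d < 2 * π / ((d : ℝ) - 1) := by
    apply div_lt_div_of_pos_left (by positivity) (by linarith) (by linarith)
  have hup : 2 * π / ((d : ℝ) - 1) < π := by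
    rw [div_lt_iff₀ (by linarith)]
    nlinarith
  have hlo : 0 < 2 * π / (d : ℝ) := by positivity
  have hG1 : G (2 * π / d) < 0 := by
    simp only [hG]
    have e1 : (d : ℝ) * (2 * π / d) = 2 * π := by field_simp
    have e2 : ((d : ℝ) - 1) * (2 * π / d) = 2 * π - 2 * π / d := by field_simp
    rw [e1, e2, Real.sin_two_pi, Real.sin_two_pi_sub]
    have hs : 0 < sin (2 * π / d) := Real.sin_pos_of_pos_of_lt_pi hlo (by linarith)
    rw [zero_pow (by omega), neg_neg]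
    have := pow_pos hs (d - 1)
    nlinarith
  have hG2 : 0 < G (2 * π / ((d : ℝ) - 1)) := by
    simp only [hG]
    have e1 : (d : ℝ) * (2 * π / ((d : ℝ) - 1)) = 2 * π / ((d : ℝ) - 1) + 2 * π := by
      field_simp
      ring
    have e2 : ((d : ℝ) - 1) * (2 * π / ((d : ℝ) - 1)) = 2 * π := by field_simp
    rw [e1, e2, Real.sin_two_pi, Real.sin_add_two_pi]
    have hs : 0 < sin (2 * π / ((d : ℝ) - 1)) :=
      Real.sin_pos_of_pos_of_lt_pi (by linarith) hup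
    rw [neg_zero, zero_pow (by omega), mul_zero, sub_zero]
    exact pow_pos hs d
  have hivt := intermediate_value_Ioo hlt.le hcont.continuousOn
  obtain ⟨b, ⟨hb1, hb2⟩, hb0⟩ := hivt ⟨hG1, hG2⟩
  have hdb1 : 2 * π < d * b := by
    rw [div_lt_iff₀ (by positivity)] at hb1
    linarith
  have hdb2 : ((d : ℝ) - 1) * b < 2 * π := by
    rw [lt_div_iff₀ (by linarith)] at hb2
    linarith
  have hb_pos : 0 < b := by linarith
  have hb_pi : b < π := by linarith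
  have hsb : 0 < sin b := Real.sin_pos_of_pos_of_lt_pi hb_pos hb_pi
  have hsdb : 0 < sin (d * b) := by
    have h1 : sin (d * b) = sin (d * b - 2 * π) := by rw [Real.sin_sub_two_pi]
    rw [h1]
    apply Real.sin_pos_of_pos_of_lt_pi (by linarith)
    nlinarith
  have hsd1 : 0 < -sin (((d : ℝ) - 1) * b) := by
    have h1 : -sin (((d : ℝ) - 1) * b) = sin (2 * π - ((d : ℝ) - 1) * b) := by
      rw [Real.sin_two_pi_sub]
    rw [h1]
    apply Real.sin_pos_of_pos_of_lt_pi (by linarith)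
    nlinarith
  set S := -sin (((d : ℝ) - 1) * b) with hS
  have hkey : sin (d * b) ^ d = sin b * S ^ (d - 1) := by
    have : G b = 0 := hb0
    simp only [hG] at this
    linarith
  refine ⟨b, sin (d * b) / S, hb1, hb2, div_pos hsdb hsd1, ?_, ?_⟩
  all_goals
    have hsplit : (sin (d * b) / S) ^ d = (sin (d * b) / S) * (sin b / sin (d * b)) := by
      have h1 : (sin (d * b) / S) ^ d = sin (d * b) ^ d / S ^ d := by rw [div_pow]
      rw [h1, hkey]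
      have h2 : S ^ d = S ^ (d - 1) * S := by
        rw [← pow_succ]; congr 1; omega
      rw [h2]
      field_simp
    rw [hsplit]
  · have hsub : sin (((d : ℝ) - 1) * b) = sin (d * b) * cos b - cos (d * b) * sin b := by
      have : ((d : ℝ) - 1) * b = d * b - b := by ring
      rw [this, Real.sin_sub]
    have hS2 : S = cos (d * b) * sin b - sin (d * b) * cos b := by
      rw [hS, hsub]; ring
    have hSne : S ≠ 0 := hsd1.ne'
    have hsne : sin (d * b) ≠ 0 := hsdb.ne'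
    field_simp
    rw [hS2]
    ring
  · have hSne : S ≠ 0 := hsd1.ne'
    have hsne : sin (d * b) ≠ 0 := hsdb.ne'
    field_simp

lemma exp_bound : Real.exp (13 / 20) < 197 / 100 := by
  have h1 : Real.exp (13 / 20) ^ 20 = Real.exp 1 ^ 13 := by
    rw [← Real.exp_nat_mul, ← Real.exp_nat_mul]
    norm_num
  have h2 : Real.exp 1 ^ 13 < (2.7182818286 : ℝ) ^ 13 :=
    pow_lt_pow_left₀ Real.exp_one_lt_d9 (Real.exp_pos 1).le (by norm_num)
  have h3 : (2.7182818286 : ℝ) ^ 13 < (197 / 100 : ℝ) ^ 20 := by norm_num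
  apply lt_of_pow_lt_pow_left₀ 20 (by norm_num)
  rw [h1]
  linarith

/-- the package of real estimates -/
structure Est (d : ℕ) (β b ρ : ℝ) : Prop where
  b_lo : 2 * π < d * b
  b_hi : ((d : ℝ) - 1) * b < 2 * π
  b_pos : 0 < b
  ρ_gt : 1 < ρ
  ρ_lt : ρ < β
  β_lt : β < 26 / 25
  pow_lo : 2 ≤ ρ ^ d
  tau : 13 / 20 < (d : ℝ) * (ρ - 1)
  diff : (d : ℝ) ^ 3 * (β - ρ) ≤ 6.22

lemma est_b {d : ℕ} (hd : 20 ≤ d) {b : ℝ}
    (hb1 : 2 * π / d < b) (hb2 : b < 2 * π / ((d : ℝ) - 1)) :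
    2 * π < d * b ∧ ((d : ℝ) - 1) * b < 2 * π ∧ 0 < b ∧ b < 0.3308 ∧
      ((d : ℝ) - 1) ^ 2 * b ^ 2 < 39.4789 := by
  have hD : (20 : ℝ) ≤ d := by exact_mod_cast hd
  have hπ := Real.pi_pos
  have hπ2 := Real.pi_lt_d4
  have hdb1 : 2 * π < d * b := by
    rw [div_lt_iff₀ (by positivity)] at hb1
    linarith
  have hdb2 : ((d : ℝ) - 1) * b < 2 * π := by
    rw [lt_div_iff₀ (by linarith)] at hb2
    linarith
  have hb_pos : 0 < b := lt_of_le_of_lt (by positivity) hb1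
  have hb_small : b < 0.3308 := by nlinarith
  have hb_sq : ((d : ℝ) - 1) ^ 2 * b ^ 2 < 39.4789 := by
    have h1 : ((d : ℝ) - 1) * b < 6.2832 := by linarith
    have h0 : 0 < ((d : ℝ) - 1) * b := mul_pos (by linarith) hb_pos
    nlinarith
  exact ⟨hdb1, hdb2, hb_pos, hb_small, hb_sq⟩

lemma est_mod {d : ℕ} {b ρ : ℝ}
    (hc : ρ ^ d * cos (d * b) = ρ * cos b + 1) (hs : ρ ^ d * sin (d * b) = ρ * sin b) :
    (ρ ^ d) ^ 2 = 1 + 2 * ρ * cos b + ρ ^ 2 := by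
  have h1 := Real.sin_sq_add_cos_sq (d * b)
  have h2 := Real.sin_sq_add_cos_sq b
  have h3 : (ρ ^ d) ^ 2 * (sin (d * b) ^ 2 + cos (d * b) ^ 2) =
      (ρ * sin b) ^ 2 + (ρ * cos b + 1) ^ 2 := by
    rw [← hc, ← hs]; ring
  rw [h1] at h3
  have h4 : (ρ * sin b) ^ 2 + (ρ * cos b + 1) ^ 2 =
      ρ ^ 2 * (sin b ^ 2 + cos b ^ 2) + 2 * ρ * cos b + 1 := by ring
  rw [h4, h2] at h3
  linarith

lemma est_rho {d : ℕ} (hd : 20 ≤ d) {b ρ : ℝ} (hρ : 0 < ρ) (hcos : 0.945 ≤ cos b)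
    (hmod : (ρ ^ d) ^ 2 = 1 + 2 * ρ * cos b + ρ ^ 2) :
    1 < ρ ∧ 1.97 ≤ ρ ^ d ∧ 13 / 20 < (d : ℝ) * (ρ - 1) := by
  have h0 : 0 < ρ ^ d := pow_pos hρ d
  have hρ1 : 1 < ρ := by
    by_contra hcon
    push Not at hcon
    have h1 : ρ ^ d ≤ ρ := by
      calc ρ ^ d ≤ ρ ^ 1 := pow_le_pow_of_le_one hρ.le hcon (by omega)
        _ = ρ := pow_one ρ
    have h3 : (ρ ^ d) ^ 2 ≤ ρ ^ 2 := by nlinarith
    nlinarith
  have hpow197 : 1.97 ≤ ρ ^ d := by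
    by_contra hcon
    push Not at hcon
    nlinarith
  have htau : 13 / 20 < (d : ℝ) * (ρ - 1) := by
    by_contra hcon
    push Not at hcon
    have h1 : ρ ≤ Real.exp (ρ - 1) := by
      have := Real.add_one_le_exp (ρ - 1)
      linarith
    have h2 : ρ ^ d ≤ Real.exp (ρ - 1) ^ d := pow_le_pow_left₀ hρ.le h1 d
    rw [← Real.exp_nat_mul] at h2
    have h3 : Real.exp ((d : ℝ) * (ρ - 1)) ≤ Real.exp (13 / 20) := Real.exp_le_exp.mpr hcon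
    have := exp_bound
    linarith
  exact ⟨hρ1, hpow197, htau⟩

lemma est_beta {d : ℕ} (hd : 20 ≤ d) {β : ℝ} (hβ1 : 1 < β) (hβ : β ^ d = β + 1) :
    β < 26 / 25 := by
  by_contra hcon
  push Not at hcon
  have h1 : β ^ d = β * β ^ (d - 1) := by
    rw [← pow_succ']; congr 1; omega
  have h2 : (26 / 25 : ℝ) ^ 19 ≤ β ^ (d - 1) := by
    calc (26 / 25 : ℝ) ^ 19 ≤ β ^ 19 := pow_le_pow_left₀ (by norm_num) hcon 19
      _ ≤ β ^ (d - 1) := pow_le_pow_right₀ hβ1.le (by omega)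
  have h3 : (2.1 : ℝ) ≤ (26 / 25 : ℝ) ^ 19 := by norm_num
  rw [hβ] at h1
  nlinarith

/-- a positive number with `ρ ^ d < ρ + 1` is below the root `β` -/
lemma rho_lt_beta {d : ℕ} (hd : 2 ≤ d) {β ρ : ℝ} (hβ1 : 1 < β) (hβ : β ^ d = β + 1)
    (hρpow : ρ ^ d < ρ + 1) : ρ < β := by
  by_contra hcon
  push Not at hcon
  have hρ : 0 < ρ := by linarith
  have h1 : ρ ^ d = ρ * ρ ^ (d - 1) := by
    rw [← pow_succ']; congr 1; omega
  have h1' : β ^ d = β * β ^ (d - 1) := by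
    rw [← pow_succ']; congr 1; omega
  have h2 : β ^ (d - 1) ≤ ρ ^ (d - 1) := pow_le_pow_left₀ (by linarith) hcon _
  rw [hβ] at h1'
  have h4 : 1 ≤ β ^ (d - 1) := one_le_pow₀ hβ1.le
  have h5 : 0 ≤ (ρ - β) * (β ^ (d - 1) - 1) :=
    mul_nonneg (by linarith) (by linarith)
  have h6 : ρ * β ^ (d - 1) ≤ ρ * ρ ^ (d - 1) := mul_le_mul_of_nonneg_left h2 hρ.le
  rw [h1] at hρpow
  linarith

lemma est_pow2 {d : ℕ} (hd : 20 ≤ d) {b ρ : ℝ} (hρ1 : 1 < ρ) (hρ104 : ρ < 26 / 25)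
    (hb : ((d : ℝ) - 1) ^ 2 * b ^ 2 < 39.4789)
    (hcosb : 1 - b ^ 2 / 2 ≤ cos b)
    (htau : 13 / 20 < (d : ℝ) * (ρ - 1))
    (hmod : (ρ ^ d) ^ 2 = 1 + 2 * ρ * cos b + ρ ^ 2) : 2 ≤ ρ ^ d := by
  have hD : (20 : ℝ) ≤ d := by exact_mod_cast hd
  by_contra hcon
  push Not at hcon
  have h2 : 0 < ρ ^ d := by positivity
  have h3 : (ρ ^ d) ^ 2 < 4 := by nlinarith
  have hfac : (1 + ρ) ^ 2 - 2 * ρ * (1 - cos b) = (ρ ^ d) ^ 2 := by
    rw [hmod]; ring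
  have h1c : 1 - cos b ≤ b ^ 2 / 2 := by linarith
  have h4 : 2 * ρ * (1 - cos b) ≤ 1.04 * b ^ 2 := by
    have e1 : 2 * ρ * (1 - cos b) ≤ 2 * ρ * (b ^ 2 / 2) :=
      mul_le_mul_of_nonneg_left h1c (by linarith)
    have e2 : ρ * b ^ 2 ≤ 1.04 * b ^ 2 := mul_le_mul_of_nonneg_right (by linarith) (sq_nonneg b)
    linarith
  have h5 : 4 * (ρ - 1) < 1.04 * b ^ 2 := by nlinarith
  have h6 : 2.6 < (d : ℝ) * (1.04 * b ^ 2) := by
    have : (d : ℝ) * (4 * (ρ - 1)) < (d : ℝ) * (1.04 * b ^ 2) :=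
      mul_lt_mul_of_pos_left h5 (by linarith)
    linarith
  have h7 : 2.6 * ((d : ℝ) - 1) ^ 2 < (d : ℝ) * (1.04 * (((d : ℝ) - 1) ^ 2 * b ^ 2)) := by
    have hpos : 0 < ((d : ℝ) - 1) ^ 2 := by
      apply pow_pos; linarith
    have := mul_lt_mul_of_pos_left h6 hpos
    linarith
  have h8 : (d : ℝ) * (1.04 * (((d : ℝ) - 1) ^ 2 * b ^ 2)) ≤ (d : ℝ) * (1.04 * 39.4789) := by
    apply mul_le_mul_of_nonneg_left _ (by linarith)
    linarith
  nlinarith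

lemma est_diff {d : ℕ} (hd : 20 ≤ d) {β b ρ : ℝ} (hρ1 : 1 < ρ) (hρβ : ρ < β)
    (hρ104 : ρ < 26 / 25) (hβ : β ^ d = β + 1)
    (hb : ((d : ℝ) - 1) ^ 2 * b ^ 2 < 39.4789)
    (hcosb : 1 - b ^ 2 / 2 ≤ cos b) (hpow2 : 2 ≤ ρ ^ d) (hρpow : ρ ^ d < ρ + 1)
    (hmod : (ρ ^ d) ^ 2 = 1 + 2 * ρ * cos b + ρ ^ 2) : (d : ℝ) ^ 3 * (β - ρ) ≤ 6.22 := by
  have hD : (20 : ℝ) ≤ d := by exact_mod_cast hd
  have hρ : 0 < ρ := by linarith
  have hfac : (1 + ρ) ^ 2 - 2 * ρ * (1 - cos b) = (ρ ^ d) ^ 2 := by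
    rw [hmod]; ring
  have h1c : 1 - cos b ≤ b ^ 2 / 2 := by linarith
  have hB : ρ * ρ ^ d + d * ρ ^ d * (β - ρ) ≤ ρ * β ^ d := by
    have h1 := one_add_mul_le_pow (a := β / ρ - 1) (by
      have : 0 < β / ρ := div_pos (by linarith) hρ
      linarith) d
    have h2 : (1 + (β / ρ - 1)) ^ d = β ^ d / ρ ^ d := by
      rw [← div_pow]; congr 1; ring
    rw [h2, le_div_iff₀ (by positivity)] at h1
    have h3 : ρ * ((1 + (d : ℝ) * (β / ρ - 1)) * ρ ^ d) =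
        ρ * ρ ^ d + d * ρ ^ d * (β - ρ) := by
      field_simp
    rw [← h3]
    exact mul_le_mul_of_nonneg_left h1 hρ.le
  rw [hβ] at hB
  have hx0 : 0 < (1 + ρ) - ρ ^ d := by linarith
  have hx : (1 + ρ) - ρ ^ d ≤ 0.262 * b ^ 2 := by
    have h2 : ((1 + ρ) - ρ ^ d) * ((1 + ρ) + ρ ^ d) = 2 * ρ * (1 - cos b) := by
      have : ((1 + ρ) - ρ ^ d) * ((1 + ρ) + ρ ^ d) = (1 + ρ) ^ 2 - (ρ ^ d) ^ 2 := by ring
      rw [this, ← hfac]; ring
    have h3 : 2 * ρ * (1 - cos b) ≤ 1.04 * b ^ 2 := by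
      have e1 : 2 * ρ * (1 - cos b) ≤ 2 * ρ * (b ^ 2 / 2) :=
        mul_le_mul_of_nonneg_left h1c (by linarith)
      have e2 : ρ * b ^ 2 ≤ 1.04 * b ^ 2 := mul_le_mul_of_nonneg_right (by linarith) (sq_nonneg b)
      linarith
    have h4 : 4 * ((1 + ρ) - ρ ^ d) ≤ ((1 + ρ) - ρ ^ d) * ((1 + ρ) + ρ ^ d) := by
      have : ((1 + ρ) - ρ ^ d) * 4 ≤ ((1 + ρ) - ρ ^ d) * ((1 + ρ) + ρ ^ d) :=
        mul_le_mul_of_nonneg_left (by linarith) hx0.le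
      linarith
    have := sq_nonneg b
    linarith
  have hβρ : 0 < β - ρ := by linarith
  have h5 : d * ρ ^ d * (β - ρ) ≤ 1.04 * ((β - ρ) + 0.262 * b ^ 2) := by
    have h6 : d * ρ ^ d * (β - ρ) ≤ ρ * ((β - ρ) + ((1 + ρ) - ρ ^ d)) := by linarith
    have h7 : ρ * ((β - ρ) + ((1 + ρ) - ρ ^ d)) ≤ 1.04 * ((β - ρ) + ((1 + ρ) - ρ ^ d)) :=
      mul_le_mul_of_nonneg_right (by linarith) (by linarith)
    linarith
  have h6 : (d : ℝ) * (1.94 * (β - ρ)) ≤ 0.2725 * b ^ 2 := by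
    have h8 : 0 ≤ (d : ℝ) * (β - ρ) := mul_nonneg (by linarith) hβρ.le
    have h7 : (d : ℝ) * 2 * (β - ρ) ≤ d * ρ ^ d * (β - ρ) := by
      have : (d : ℝ) * (β - ρ) * 2 ≤ (d : ℝ) * (β - ρ) * ρ ^ d :=
        mul_le_mul_of_nonneg_left hpow2 h8
      linarith
    have h9 : 1.04 * (β - ρ) ≤ (d : ℝ) * 0.06 * (β - ρ) :=
      mul_le_mul_of_nonneg_right (by linarith) hβρ.le
    have := sq_nonneg b
    linarith
  have h7 : (d : ℝ) ^ 2 * b ^ 2 ≤ 43.745 := by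
    have h8 : (d : ℝ) ^ 2 ≤ 1.10804 * ((d : ℝ) - 1) ^ 2 := by nlinarith
    have h9 : (d : ℝ) ^ 2 * b ^ 2 ≤ 1.10804 * ((d : ℝ) - 1) ^ 2 * b ^ 2 :=
      mul_le_mul_of_nonneg_right h8 (sq_nonneg b)
    linarith
  have h8 : (d : ℝ) ^ 2 * ((d : ℝ) * (1.94 * (β - ρ))) ≤ (d : ℝ) ^ 2 * (0.2725 * b ^ 2) :=
    mul_le_mul_of_nonneg_left h6 (by positivity)
  linarith

lemma est {d : ℕ} (hd : 20 ≤ d) {β b ρ : ℝ} (hβ1 : 1 < β) (hβ : β ^ d = β + 1)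
    (hb1 : 2 * π / d < b) (hb2 : b < 2 * π / ((d : ℝ) - 1)) (hρ : 0 < ρ)
    (hc : ρ ^ d * cos (d * b) = ρ * cos b + 1) (hs : ρ ^ d * sin (d * b) = ρ * sin b) :
    Est d β b ρ := by
  obtain ⟨hdb1, hdb2, hb_pos, hb_small, hb_sq⟩ := est_b hd hb1 hb2
  have hπ3 := Real.pi_gt_three
  have hcosb : 1 - b ^ 2 / 2 ≤ cos b := Real.one_sub_sq_div_two_le_cos
  have hcosb2 : 0.945 ≤ cos b := by nlinarith
  have hmod := est_mod hc hs
  obtain ⟨hρ1, hpow197, htau⟩ := est_rho hd hρ hcosb2 hmod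
  have hβlt := est_beta hd hβ1 hβ
  have hρpow : ρ ^ d < ρ + 1 := by
    have h2 : 0 < ρ ^ d := pow_pos hρ d
    have hcos_lt : cos b < 1 := by
      have := Real.cos_lt_cos_of_nonneg_of_le_pi (le_refl 0) (by linarith : b ≤ π) hb_pos
      rwa [Real.cos_zero] at this
    by_contra hcon
    push Not at hcon
    nlinarith
  have hρβ := rho_lt_beta (by omega) hβ1 hβ hρpow
  have hρ104 : ρ < 26 / 25 := by linarith
  have hpow2 := est_pow2 hd hρ1 hρ104 hb_sq hcosb htau hmod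
  have hdiff := est_diff hd hρ1 hρβ hρ104 hβ hb_sq hcosb hpow2 hρpow hmod
  exact ⟨hdb1, hdb2, hb_pos, hρ1, hρβ, hβlt, hpow2, htau, hdiff⟩

end Q264.PY
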