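import Mathlib
import Pool.Agent.Q264.PY1
import Pool.Agent.Q264.PY2

/-!
For every `d ≥ 20` and `k ≥ 1` the number `β ^ k` (with `β ^ d = β + 1`, `β > 1`) is not Parry.
-/

namespace Q264.PY

open Real

/-- `v` at step one is nonnegative and below one -/
lemma v_one_bounds (γ : ℝ) : 0 ≤ v γ 1 ∧ v γ 1 < 1 := ⟨v_nonneg γ 1, v_lt_one γ 0⟩

lemma t_zero_eq_one {γ : ℝ} (h1 : 1 ≤ γ) (h2 : γ < 2) : t γ 0 = 1 := by
  unfold t
  rw [v_zero, mul_one, Int.floor_eq_iff]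
  constructor
  · push_cast; linarith
  · push_cast; linarith

/-- powers of the conjugate in polar form -/
lemma polar_pow (ρ b : ℝ) (k : ℕ) :
    (((ρ : ℂ) * (Complex.cos b + Complex.sin b * Complex.I)) ^ k) =
      ((ρ ^ k * Real.cos (k * b) : ℝ) : ℂ) + ((ρ ^ k * Real.sin (k * b) : ℝ) : ℂ) * Complex.I := by
  rw [mul_pow, Complex.cos_add_sin_mul_I_pow]
  push_cast
  ring

lemma norm_sq_re_im (a b : ℝ) : ‖((a : ℝ) : ℂ) + ((b : ℝ) : ℂ) * Complex.I‖ ^ 2 = a ^ 2 + b ^ 2 := by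
  rw [Complex.sq_norm, Complex.normSq_add_mul_I]

lemma beta_pow_pred {d : ℕ} (hd : 2 ≤ d) {β : ℝ} (hβ1 : 1 < β) (hβ : β ^ d = β + 1) :
    β ^ (d - 1) < 2 := by
  have h1' : β ^ d = β * β ^ (d - 1) := by
    rw [← pow_succ']; congr 1; omega
  by_contra hcon
  push Not at hcon
  rw [hβ] at h1'
  nlinarith

lemma gamma_sub_one {d k : ℕ} (hd : 2 ≤ d) (hk : k ≤ d) {β : ℝ} (hβ1 : 1 < β)
    (hβ : β ^ d = β + 1) : (d : ℝ) * (β ^ k - 1) ≤ k * β := by
  have hD : (0 : ℝ) < d := by exact_mod_cast (by omega : 0 < d)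
  have h1 : β ^ k = (1 + β) ^ ((k : ℝ) / d) := by
    have : (1 + β) = β ^ (d : ℝ) := by
      rw [Real.rpow_natCast, hβ]; ring
    rw [this, ← Real.rpow_mul (by linarith), mul_div_cancel₀ _ hD.ne', Real.rpow_natCast]
  have h2 : (1 + β) ^ ((k : ℝ) / d) ≤ 1 + ((k : ℝ) / d) * β := by
    apply rpow_one_add_le_one_add_mul_self (by linarith) (by positivity)
    rw [div_le_one hD]
    exact_mod_cast hk
  rw [h1]
  have h3 : (d : ℝ) * ((1 + β) ^ ((k : ℝ) / d) - 1) ≤ d * (1 + ((k : ℝ) / d) * β - 1) :=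
    mul_le_mul_of_nonneg_left (by linarith) hD.le
  have h4 : (d : ℝ) * (1 + ((k : ℝ) / d) * β - 1) = k * β := by field_simp; ring
  linarith

/-- the quotient in criterion B is small -/
lemma quot_small {d k : ℕ} (hd : 20 ≤ d) (hk1 : 1 ≤ k) (hk : k ≤ d - 1) {β b ρ : ℝ}
    (hβ : β ^ d = β + 1) (E : Est d β b ρ) :
    (d : ℝ) ^ 2 * ((β ^ k - ρ ^ k) / (ρ ^ k - 1)) ≤ 19.2 := by
  have hD : (20 : ℝ) ≤ d := by exact_mod_cast hd
  have hK : (1 : ℝ) ≤ k := by exact_mod_cast hk1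
  have hρ1 := E.ρ_gt
  have hρβ := E.ρ_lt
  have hβ1 : 1 < β := by linarith
  have hγ2 : β ^ k < 2 := by
    calc β ^ k ≤ β ^ (d - 1) := pow_le_pow_right₀ hβ1.le hk
      _ < 2 := beta_pow_pred (by omega) hβ1 hβ
  have hR : (k : ℝ) * (ρ - 1) ≤ ρ ^ k - 1 := by
    have := one_add_mul_le_pow (a := ρ - 1) (by linarith) k
    have h2 : (1 + (ρ - 1)) = ρ := by ring
    rw [h2] at this
    linarith
  have hRpos : 0 < ρ ^ k - 1 := by
    have : 0 < (k : ℝ) * (ρ - 1) := mul_pos (by linarith) (by linarith)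
    linarith
  have hnum : β ^ k - ρ ^ k ≤ 2 * k * (β - ρ) := by
    have h1 := one_add_mul_le_pow (a := ρ / β - 1) (by
      have : 0 < ρ / β := div_pos (by linarith) (by linarith)
      linarith) k
    have h2 : (1 + (ρ / β - 1)) ^ k = ρ ^ k / β ^ k := by
      rw [← div_pow]; congr 1; ring
    rw [h2, le_div_iff₀ (by positivity)] at h1
    have h3 : (1 + (k : ℝ) * (ρ / β - 1)) * β ^ k = β ^ k - k * (β - ρ) * (β ^ k / β) := by
      field_simp
      ring
    rw [h3] at h1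
    have h4 : β ^ k / β ≤ 2 := by
      rw [div_le_iff₀ (by linarith)]
      nlinarith
    have h5 : (k : ℝ) * (β - ρ) * (β ^ k / β) ≤ k * (β - ρ) * 2 :=
      mul_le_mul_of_nonneg_left h4 (mul_nonneg (by linarith) (by linarith))
    linarith
  rw [← mul_div_assoc, div_le_iff₀ hRpos]
  have hτ := E.tau
  have hdf := E.diff
  have h6 : (d : ℝ) ^ 2 * (β ^ k - ρ ^ k) ≤ (d : ℝ) ^ 2 * (2 * k * (β - ρ)) :=
    mul_le_mul_of_nonneg_left hnum (by positivity)
  have h7 : 19.2 * ((k : ℝ) * (ρ - 1)) ≤ 19.2 * (ρ ^ k - 1) :=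
    mul_le_mul_of_nonneg_left hR (by norm_num)
  have h8 : (d : ℝ) * ((d : ℝ) ^ 2 * (2 * k * (β - ρ))) ≤ d * (19.2 * ((k : ℝ) * (ρ - 1))) := by
    have e1 : (d : ℝ) * ((d : ℝ) ^ 2 * (2 * k * (β - ρ))) = 2 * k * ((d : ℝ) ^ 3 * (β - ρ)) := by
      ring
    have e2 : (d : ℝ) * (19.2 * ((k : ℝ) * (ρ - 1))) = 19.2 * k * ((d : ℝ) * (ρ - 1)) := by
      ring
    rw [e1, e2]
    have e3 : 2 * (k : ℝ) * ((d : ℝ) ^ 3 * (β - ρ)) ≤ 2 * k * 6.22 :=
      mul_le_mul_of_nonneg_left hdf (by positivity)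
    have e4 : 19.2 * (k : ℝ) * (13 / 20) ≤ 19.2 * k * ((d : ℝ) * (ρ - 1)) :=
      mul_le_mul_of_nonneg_left hτ.le (by positivity)
    linarith
  have h9 : (d : ℝ) ^ 2 * (2 * k * (β - ρ)) ≤ 19.2 * ((k : ℝ) * (ρ - 1)) :=
    le_of_mul_le_mul_left h8 (by linarith)
  linarith

theorem large {d k : ℕ} (hd : 20 ≤ d) (hk1 : 1 ≤ k) {β : ℝ} (hβ1 : 1 < β)
    (hβ : β ^ d = β + 1) : ¬ IsParry (β ^ k) := by
  intro hP
  have hD : (20 : ℝ) ≤ d := by exact_mod_cast hd
  have hK : (1 : ℝ) ≤ k := by exact_mod_cast hk1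
  have hπ := Real.pi_pos
  obtain ⟨b, ρ, hb1, hb2, hρ, hc, hs⟩ := exists_polar (d := d) (by omega)
  have E := est hd hβ1 hβ hb1 hb2 hρ hc hs
  set x : ℂ := (ρ : ℂ) * (Complex.cos b + Complex.sin b * Complex.I) with hx
  have hxd : x ^ d = x + 1 := by
    have h1 := polar_pow ρ b d
    have h2 := polar_pow ρ b 1
    rw [hx, h1, hc, hs]
    push_cast
    ring
  obtain ⟨M, hM⟩ := bounded_of_parry (k := k) (by omega) hβ hxd hP
  have hw := polar_pow ρ b k
  rw [← hx] at hw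
  set θ := (k : ℝ) * b with hθ
  set R := ρ ^ k with hRdef
  have hρ1 := E.ρ_gt
  have hR1 : 1 < R := one_lt_pow₀ hρ1 (by omega)
  have hnorm2 : ‖x ^ k‖ ^ 2 = R ^ 2 := by
    rw [hw, norm_sq_re_im]
    have := Real.sin_sq_add_cos_sq θ
    have e : (R * cos θ) ^ 2 + (R * sin θ) ^ 2 = R ^ 2 * (sin θ ^ 2 + cos θ ^ 2) := by ring
    rw [e, this, mul_one]
  have hnorm : ‖x ^ k‖ = R := by
    have h0 : 0 ≤ ‖x ^ k‖ := norm_nonneg _
    have h1 : (0 : ℝ) ≤ R := by linarith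
    exact (sq_eq_sq₀ h0 h1).mp hnorm2
  have hRlt : R < β ^ k := pow_lt_pow_left₀ E.ρ_lt hρ.le (by omega)
  have hne : x ^ k ≠ ((β ^ k : ℝ) : ℂ) := by
    intro h
    rw [h, Complex.norm_real, Real.norm_of_nonneg (by positivity)] at hnorm
    linarith
  have hv := v_one_bounds (β ^ k)
  by_cases hkd : d ≤ k
  · -- k ≥ d
    have hR2 : 2 ≤ R := by
      calc (2 : ℝ) ≤ ρ ^ d := E.pow_lo
        _ ≤ ρ ^ k := pow_le_pow_right₀ hρ1.le hkd
    have hA := critA (w := x ^ k) (γ := β ^ k) (by rw [hnorm]; exact hR1) (by positivity) hne hM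
    rw [hnorm] at hA
    have h1 : R - v (β ^ k) 1 ≤ ‖x ^ k + (v (β ^ k) 1 : ℂ)‖ := by
      have h2 : ‖x ^ k‖ - ‖-((v (β ^ k) 1 : ℝ) : ℂ)‖ ≤ ‖x ^ k - -((v (β ^ k) 1 : ℝ) : ℂ)‖ :=
        norm_sub_norm_le _ _
      rw [norm_neg, sub_neg_eq_add, Complex.norm_real, Real.norm_of_nonneg hv.1, hnorm] at h2
      exact h2
    have h2 : 1 / (R - 1) ≤ 1 := by
      rw [div_le_one (by linarith)]
      linarith
    linarith [hv.2]
  push Not at hkd
  have hkd' : k ≤ d - 1 := by omega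
  have hKD : (k : ℝ) ≤ d - 1 := by
    have : ((k + 1 : ℕ) : ℝ) ≤ (d : ℝ) := by exact_mod_cast hkd
    push_cast at this
    linarith
  have hθlo : 2 * π * k ≤ d * θ := by
    rw [hθ]
    have := E.b_lo
    nlinarith
  have hθhi : ((d : ℝ) - 1) * θ ≤ 2 * π * k := by
    rw [hθ]
    have := E.b_hi
    nlinarith
  by_cases hk34 : 3 * d ≤ 4 * k
  · -- 3 d / 4 ≤ k ≤ d - 1
    have h34 : 3 * (d : ℝ) ≤ 4 * k := by exact_mod_cast hk34
    have hcos : 0 ≤ cos θ := by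
      have h1 : cos θ = cos (2 * π - θ) := by rw [Real.cos_two_pi_sub]
      rw [h1]
      apply Real.cos_nonneg_of_neg_pi_div_two_le_of_le
      · have : θ ≤ 2 * π := by nlinarith
        linarith
      · have : 3 * π / 2 ≤ θ := by nlinarith
        linarith
    have hA := critA (w := x ^ k) (γ := β ^ k) (by rw [hnorm]; exact hR1) (by positivity) hne hM
    rw [hnorm] at hA
    have h1 : R ≤ ‖x ^ k + (v (β ^ k) 1 : ℂ)‖ := by
      have h2 : ‖x ^ k + (v (β ^ k) 1 : ℂ)‖ ^ 2 =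
          (R * cos θ + v (β ^ k) 1) ^ 2 + (R * sin θ) ^ 2 := by
        rw [← norm_sq_re_im, hw]
        congr 2
        push_cast
        ring
      have h3 : R ^ 2 ≤ ‖x ^ k + (v (β ^ k) 1 : ℂ)‖ ^ 2 := by
        rw [h2]
        have h4 := Real.sin_sq_add_cos_sq θ
        have h5 : 0 ≤ R * cos θ * v (β ^ k) 1 :=
          mul_nonneg (mul_nonneg (by linarith) hcos) hv.1
        have h6 : (R * cos θ + v (β ^ k) 1) ^ 2 + (R * sin θ) ^ 2 =
          R ^ 2 * (sin θ ^ 2 + cos θ ^ 2) + 2 * (R * cos θ * v (β ^ k) 1) + v (β ^ k) 1 ^ 2 := by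
          ring
        rw [h6, h4]
        have := sq_nonneg (v (β ^ k) 1)
        linarith
      exact (sq_le_sq₀ (by linarith) (norm_nonneg _)).mp h3
    have hR165 : 1.65 < R := by
      by_contra hcon
      push Not at hcon
      have h4 : R ^ 4 ≤ 1.65 ^ 4 := pow_le_pow_left₀ (by linarith) hcon 4
      have h5 : (ρ ^ d) ^ 3 ≤ R ^ 4 := by
        rw [hRdef, ← pow_mul, ← pow_mul]
        apply pow_le_pow_right₀ hρ1.le
        omega
      have h6 : (2 : ℝ) ^ 3 ≤ (ρ ^ d) ^ 3 := pow_le_pow_left₀ (by norm_num) E.pow_lo 3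
      norm_num at h4 h6
      linarith
    have h2 : 1 / (R - 1) < R := by
      rw [div_lt_iff₀ (by linarith)]
      nlinarith
    linarith
  · -- k < 3 d / 4
    push Not at hk34
    have h34 : 4 * (k : ℝ) ≤ 3 * d := by exact_mod_cast hk34.le
    have hγ2 : β ^ k < 2 := by
      calc β ^ k ≤ β ^ (d - 1) := pow_le_pow_right₀ hβ1.le hkd'
        _ < 2 := beta_pow_pred (by omega) hβ1 hβ
    have hγ1 : 1 ≤ β ^ k := by linarith
    have hB := critB (w := x ^ k) (γ := β ^ k) (by rw [hnorm]; exact hR1)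
      (by rw [hnorm]; exact hRlt.le) hM 1
    have ht : t (β ^ k) 0 = 1 := t_zero_eq_one hγ1 hγ2
    have hu1 : u (β ^ k) (x ^ k) 1 = x ^ k - 1 := by
      rw [u, u, ht]; simp
    have hv1 : v (β ^ k) 1 = β ^ k - 1 := by
      rw [v_succ, v_zero, ht]; simp
    rw [hu1, hv1, hnorm] at hB
    have hQ := quot_small hd hk1 hkd' hβ E
    rw [← hRdef] at hQ
    set Q := (β ^ k - R) / (R - 1) with hQdef
    have hG := gamma_sub_one (by omega) (by omega : k ≤ d) hβ1 hβ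
    have hβlt := E.β_lt
    have hsq : ‖x ^ k - 1‖ ^ 2 = (R - 1) ^ 2 + 2 * R * (1 - cos θ) := by
      have h2 : x ^ k - 1 = (((R * cos θ - 1 : ℝ) : ℝ) : ℂ) + ((R * sin θ : ℝ) : ℂ) * Complex.I := by
        rw [hw]; push_cast; ring
      rw [h2, norm_sq_re_im]
      have h4 := Real.sin_sq_add_cos_sq θ
      have h6 : (R * cos θ - 1) ^ 2 + (R * sin θ) ^ 2 =
        R ^ 2 * (sin θ ^ 2 + cos θ ^ 2) - 2 * (R * cos θ) + 1 := by ring
      rw [h6, h4]; ring
    have hθpos : 0 < θ := mul_pos (by linarith) E.b_pos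
    by_cases hk2 : 2 * k ≤ d - 1
    · have h2k : 2 * (k : ℝ) ≤ d - 1 := by
        have : ((2 * k + 1 : ℕ) : ℝ) ≤ (d : ℝ) := by exact_mod_cast (by omega : 2 * k + 1 ≤ d)
        push_cast at this
        linarith
      have hθπ : θ / 2 ≤ π / 2 := by
        have : ((d : ℝ) - 1) * θ ≤ ((d : ℝ) - 1) * π := by nlinarith
        have := le_of_mul_le_mul_left this (by linarith)
        linarith
      have hsin := Real.mul_le_sin (by linarith : 0 ≤ θ / 2) hθπ
      have hsin2 : 2 * (k : ℝ) / d ≤ sin (θ / 2) := by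
        have h1 : 2 / π * (θ / 2) = θ / π := by field_simp
        rw [h1] at hsin
        have h2 : 2 * (k : ℝ) / d ≤ θ / π := by
          rw [div_le_div_iff₀ (by linarith) hπ]
          linarith
        linarith
      have hcos2 : 1 - cos θ = 2 * sin (θ / 2) ^ 2 := by
        have h1 : cos θ = cos (2 * (θ / 2)) := by congr 1; ring
        rw [h1, Real.cos_two_mul]
        have := Real.sin_sq_add_cos_sq (θ / 2)
        linarith
      have hge : 4 * (k : ℝ) / d ≤ ‖x ^ k - 1‖ := by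
        have hk0 : 0 ≤ 2 * (k : ℝ) / d := by positivity
        have h1 : (4 * (k : ℝ) / d) ^ 2 ≤ ‖x ^ k - 1‖ ^ 2 := by
          rw [hsq, hcos2]
          have h3 : (2 * (k : ℝ) / d) ^ 2 ≤ sin (θ / 2) ^ 2 := pow_le_pow_left₀ hk0 hsin2 2
          have h5 : (4 * (k : ℝ) / d) ^ 2 = 4 * (2 * (k : ℝ) / d) ^ 2 := by ring
          rw [h5]
          have h6 : 0 ≤ sin (θ / 2) ^ 2 := sq_nonneg _
          have h7 : 4 * sin (θ / 2) ^ 2 ≤ 2 * R * (2 * sin (θ / 2) ^ 2) := by nlinarith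
          have := sq_nonneg (R - 1)
          linarith
        have h2 : 0 ≤ 4 * (k : ℝ) / d := by positivity
        exact (sq_le_sq₀ h2 (norm_nonneg _)).mp h1
      -- combine
      have hfin : (d : ℝ) ^ 2 * (4 * (k : ℝ) / d) ≤ (d : ℝ) ^ 2 * (β ^ k - 1 + Q) :=
        mul_le_mul_of_nonneg_left (by linarith) (by positivity)
      have e1 : (d : ℝ) ^ 2 * (4 * (k : ℝ) / d) = 4 * k * d := by field_simp
      have e2 : (d : ℝ) ^ 2 * (β ^ k - 1) ≤ d * (k * 1.04) := by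
        have : (d : ℝ) * (β ^ k - 1) ≤ k * 1.04 := by nlinarith
        nlinarith
      rw [e1] at hfin
      nlinarith
    · push Not at hk2
      have h2k : (d : ℝ) ≤ 2 * k := by exact_mod_cast (by omega : d ≤ 2 * k)
      have hθ1 : π ≤ θ := by
        have : (d : ℝ) * π ≤ d * θ := by nlinarith
        exact le_of_mul_le_mul_left this (by linarith)
      have hθ2 : θ ≤ 5 * π / 3 := by
        have : ((d : ℝ) - 1) * θ ≤ ((d : ℝ) - 1) * (5 * π / 3) := by nlinarith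
        exact le_of_mul_le_mul_left this (by linarith)
      have hcos : cos θ ≤ 1 / 2 := by
        have h1 : cos θ = cos (2 * π - θ) := by rw [Real.cos_two_pi_sub]
        rw [h1, ← Real.cos_pi_div_three]
        apply Real.cos_le_cos_of_nonneg_of_le_pi
        · positivity
        · linarith
        · linarith
      have hge : 1 ≤ ‖x ^ k - 1‖ := by
        have h1 : (1 : ℝ) ^ 2 ≤ ‖x ^ k - 1‖ ^ 2 := by
          rw [hsq]
          nlinarith
        exact (sq_le_sq₀ (by norm_num) (norm_nonneg _)).mp h1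
      have e2 : (d : ℝ) * (β ^ k - 1) ≤ d * 0.78 := by nlinarith
      have e3 : β ^ k - 1 ≤ 0.78 := le_of_mul_le_mul_left e2 (by linarith)
      have e4 : Q ≤ 0.048 := by
        by_contra hcon
        push Not at hcon
        nlinarith
      linarith

end Q264.PY
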