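import Mathlib
import Pool.Agent.Q264.PY1

/-!
A rational-arithmetic checker for small `d`.
-/

namespace Q264.PY

open Polynomial in
lemma exists_root_near {d : ℕ} (hd : 2 ≤ d) (z : ℂ) {δ : ℝ} (hδ : 0 < δ)
    (h : d * ‖z ^ d - z - 1‖ < δ * ‖d * z ^ (d - 1) - 1‖) :
    ∃ x : ℂ, x ^ d = x + 1 ∧ ‖x - z‖ ≤ δ := by
  by_contra hcon
  push Not at hcon
  set P : ℂ[X] := X ^ d - X - 1 with hP
  have hPz : P.eval z = z ^ d - z - 1 := by simp [hP]
  have hP'z : P.derivative.eval z = d * z ^ (d - 1) - 1 := by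
    rw [hP]; simp [derivative_X_pow]
  have hne : P.eval z ≠ 0 := by
    intro h0
    rw [hPz] at h0
    have := hcon z (by linear_combination h0)
    simp at this
    linarith
  have hP0 : P ≠ 0 := by
    intro h0
    rw [h0] at hne
    simp at hne
  have hs : P.Splits := IsAlgClosed.splits P
  have hsum := hs.eval_derivative_eq_eval_mul_sum hne
  rw [hPz, hP'z] at hsum
  have hcard : (Multiset.card P.roots : ℝ) ≤ d := by
    have h1 : Multiset.card P.roots ≤ P.natDegree := card_roots' P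
    have h2 : P.natDegree ≤ d := by
      have h3 : P.natDegree ≤ max (max d 1) 0 := by
        rw [hP]
        exact natDegree_sub_le_of_le
          (natDegree_sub_le_of_le (natDegree_X_pow_le d) natDegree_X_le) natDegree_one.le
      have h4 : max (max d 1) 0 = d := by omega
      rwa [h4] at h3
    exact_mod_cast h1.trans h2
  have hbound : ‖(P.roots.map fun r ↦ 1 / (z - r)).sum‖ ≤ d / δ := by
    refine (norm_multiset_sum_le _).trans ?_
    rw [Multiset.map_map]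
    have h1 : (Multiset.map (norm ∘ fun r ↦ 1 / (z - r)) P.roots).sum ≤
        Multiset.card (Multiset.map (norm ∘ fun r ↦ 1 / (z - r)) P.roots) • (1 / δ) := by
      apply Multiset.sum_le_card_nsmul
      intro y hy
      rw [Multiset.mem_map] at hy
      obtain ⟨r, hr, rfl⟩ := hy
      have hr0 : P.IsRoot r := (mem_roots hP0).mp hr
      have hr1 : r ^ d = r + 1 := by
        have : P.eval r = 0 := hr0
        simp only [hP, eval_sub, eval_pow, eval_X, eval_one] at this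
        linear_combination this
      have := hcon r hr1
      simp only [Function.comp, norm_div, norm_one]
      rw [norm_sub_rev] at this
      exact one_div_le_one_div_of_le hδ this.le
    rw [Multiset.card_map, nsmul_eq_mul] at h1
    refine h1.trans ?_
    rw [div_eq_mul_one_div (d : ℝ) δ]
    exact mul_le_mul_of_nonneg_right hcard (by positivity)
  have h2 : ‖(d : ℂ) * z ^ (d - 1) - 1‖ ≤ ‖z ^ d - z - 1‖ * (d / δ) := by
    rw [hsum, norm_mul]
    exact mul_le_mul_of_nonneg_left hbound (norm_nonneg _)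
  have h3 : δ * ‖(d : ℂ) * z ^ (d - 1) - 1‖ ≤ d * ‖z ^ d - z - 1‖ := by
    calc δ * ‖(d : ℂ) * z ^ (d - 1) - 1‖ ≤ δ * (‖z ^ d - z - 1‖ * (d / δ)) :=
          mul_le_mul_of_nonneg_left h2 hδ.le
      _ = d * ‖z ^ d - z - 1‖ := by field_simp
  linarith

/-! ### Gaussian rationals -/

def cmul (a b : ℚ × ℚ) : ℚ × ℚ := (a.1 * b.1 - a.2 * b.2, a.1 * b.2 + a.2 * b.1)

def cpow (a : ℚ × ℚ) : ℕ → ℚ × ℚ
  | 0 => (1, 0)
  | n + 1 => cmul a (cpow a n)

def nsq (a : ℚ × ℚ) : ℚ := a.1 * a.1 + a.2 * a.2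

noncomputable def toC (a : ℚ × ℚ) : ℂ := ((a.1 : ℝ) : ℂ) + ((a.2 : ℝ) : ℂ) * Complex.I

lemma toC_mul (a b : ℚ × ℚ) : toC (cmul a b) = toC a * toC b := by
  unfold toC cmul
  push_cast
  ring_nf
  rw [Complex.I_sq]
  ring

lemma toC_one : toC (1, 0) = 1 := by simp [toC]

lemma toC_pow (a : ℚ × ℚ) (n : ℕ) : toC (cpow a n) = toC a ^ n := by
  induction n with
  | zero => simp [cpow, toC_one]
  | succ n ih => rw [cpow, toC_mul, ih, pow_succ']

lemma norm_toC_sq (a : ℚ × ℚ) : ‖toC a‖ ^ 2 = ((nsq a : ℚ) : ℝ) := by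
  unfold toC nsq
  rw [Complex.sq_norm, Complex.normSq_add_mul_I]
  push_cast
  ring

/-- the approximate orbit -/
def st (g : ℚ) (W : ℚ × ℚ) : ℕ → ℚ × (ℚ × ℚ)
  | 0 => (1, (1, 0))
  | n + 1 =>
    (g * (st g W n).1 - (⌊g * (st g W n).1⌋ : ℤ),
      ((cmul W (st g W n).2).1 - (⌊g * (st g W n).1⌋ : ℤ), (cmul W (st g W n).2).2))

/-- one step of the check -/
def okStep (g : ℚ) (W : ℚ × ℚ) (E : ℚ) (n : ℕ) : Bool :=
  decide ((st g W n).1 ≤ 2) && decide (0 ≤ (st g W n).1) && decide (nsq (st g W n).2 ≤ 64) &&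
    decide (E * 32 ^ (n + 1) ≤ (st g W (n + 1)).1) &&
    decide ((st g W (n + 1)).1 + E * 32 ^ (n + 1) < 1)

def okSteps (g : ℚ) (W : ℚ × ℚ) (E : ℚ) : ℕ → Bool
  | 0 => true
  | n + 1 => okSteps g W E n && okStep g W E n

lemma steps_sound {g E : ℚ} {W : ℚ × ℚ} {γ : ℝ} {w : ℂ} (hE : 0 ≤ E) (hg : |γ - g| ≤ E)
    (hW : ‖w - toC W‖ ≤ E) (hγ0 : 0 ≤ γ) (hγ : γ ≤ 16) (hw : ‖w‖ ≤ 16) (n : ℕ)
    (h : okSteps g W E n = true) :
    |v γ n - ((st g W n).1 : ℝ)| ≤ E * 32 ^ n ∧ ‖u γ w n - toC (st g W n).2‖ ≤ E * 32 ^ n := by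
  have hE' : (0 : ℝ) ≤ E := by exact_mod_cast hE
  induction n with
  | zero =>
    constructor
    · rw [v_zero]; simp [st]; exact hE
    · simp [u, st, toC_one]; exact hE
  | succ n ih =>
    rw [okSteps, Bool.and_eq_true] at h
    obtain ⟨h1, h2⟩ := h
    obtain ⟨ihv, ihu⟩ := ih h1
    simp only [okStep, Bool.and_eq_true, decide_eq_true_eq] at h2
    obtain ⟨⟨⟨⟨c1, c2⟩, c3⟩, c4⟩, c5⟩ := h2
    set V := (st g W n).1 with hV
    set U := (st g W n).2 with hU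
    have c1' : (V : ℝ) ≤ 2 := by exact_mod_cast c1
    have c2' : (0 : ℝ) ≤ V := by exact_mod_cast c2
    have c3' : ‖toC U‖ ≤ 8 := by
      have : ‖toC U‖ ^ 2 ≤ 64 := by rw [norm_toC_sq]; exact_mod_cast c3
      have h0 := norm_nonneg (toC U)
      nlinarith
    have c4' : (E : ℝ) * 32 ^ (n + 1) ≤ ((st g W (n + 1)).1 : ℝ) := by exact_mod_cast c4
    have c5' : ((st g W (n + 1)).1 : ℝ) + (E : ℝ) * 32 ^ (n + 1) < 1 := by exact_mod_cast c5
    have e1 : (st g W (n + 1)).1 = g * V - (⌊g * V⌋ : ℤ) := rfl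
    have e2 : (st g W (n + 1)).2 = ((cmul W U).1 - (⌊g * V⌋ : ℤ), (cmul W U).2) := rfl
    set τ := ⌊g * V⌋ with hτ
    have hp : (1 : ℝ) ≤ 32 ^ n := one_le_pow₀ (by norm_num)
    have hpow : (32 : ℝ) ^ (n + 1) = 32 * 32 ^ n := pow_succ' _ _
    -- the real part
    have hv1 : |(γ * v γ n - τ) - ((st g W (n + 1)).1 : ℝ)| ≤ E * 32 ^ (n + 1) := by
      rw [e1]
      push_cast
      have : (γ * v γ n - τ) - ((g : ℝ) * V - τ) = γ * (v γ n - V) + (γ - g) * V := by ring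
      rw [this]
      refine (abs_add_le _ _).trans ?_
      rw [abs_mul, abs_mul, abs_of_nonneg hγ0, abs_of_nonneg c2']
      have a1 : γ * |v γ n - V| ≤ 16 * (E * 32 ^ n) :=
        mul_le_mul hγ ihv (abs_nonneg _) (by norm_num)
      have a2 : |γ - g| * (V : ℝ) ≤ E * 2 := mul_le_mul hg c1' c2' hE'
      rw [hpow]
      nlinarith
    have ht : t γ n = τ := by
      unfold t
      rw [Int.floor_eq_iff]
      rw [abs_le] at hv1
      constructor
      · linarith [hv1.1]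
      · linarith [hv1.2]
    constructor
    · rw [v_succ, ht]
      exact hv1
    · rw [u, ht, e2]
      have e3 : toC ((cmul W U).1 - (τ : ℚ), (cmul W U).2) = toC (cmul W U) - (τ : ℂ) := by
        unfold toC
        push_cast
        ring
      rw [e3, toC_mul]
      have : w * u γ w n - (τ : ℂ) - (toC W * toC U - (τ : ℂ)) =
          w * (u γ w n - toC U) + (w - toC W) * toC U := by ring
      rw [this]
      refine (norm_add_le _ _).trans ?_
      rw [norm_mul, norm_mul]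
      have a1 : ‖w‖ * ‖u γ w n - toC U‖ ≤ 16 * (E * 32 ^ n) :=
        mul_le_mul hw ihu (norm_nonneg _) (by norm_num)
      have a2 : ‖w - toC W‖ * ‖toC U‖ ≤ E * 8 := mul_le_mul hW c3' (norm_nonneg _) hE'
      rw [hpow]
      nlinarith

/-- the final comparison at step `n`, with `r` a lower bound for the modulus of `w` -/
def okEnd (g : ℚ) (W : ℚ × ℚ) (E : ℚ) (n : ℕ) (r : ℚ) : Bool :=
  decide (1 < r) && decide ((r + E) ^ 2 ≤ nsq W) &&
    decide (0 ≤ (st g W n).1 + E * 32 ^ n + ((g + E - 1) / (r - 1) - 1)) &&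
    decide (((st g W n).1 + E * 32 ^ n + ((g + E - 1) / (r - 1) - 1) + E * 32 ^ n) ^ 2 <
      nsq (st g W n).2)

lemma end_sound {g E r : ℚ} {W : ℚ × ℚ} {γ : ℝ} {w : ℂ} (hE : 0 ≤ E) (hg : |γ - g| ≤ E)
    (hW : ‖w - toC W‖ ≤ E) (hγ : γ ≤ 16) (hwγ : ‖w‖ ≤ γ) (n : ℕ)
    (h1 : okSteps g W E n = true) (h2 : okEnd g W E n r = true) (M : ℝ)
    (hM : ∀ j, ‖u γ w j‖ ≤ M) : False := by
  have hE' : (0 : ℝ) ≤ E := by exact_mod_cast hE
  have hw0 := norm_nonneg w
  obtain ⟨hv, hu⟩ := steps_sound hE hg hW (by linarith) hγ (by linarith) n h1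
  simp only [okEnd, Bool.and_eq_true, decide_eq_true_eq] at h2
  obtain ⟨⟨⟨c1, c2⟩, c3⟩, c4⟩ := h2
  set V := (st g W n).1
  set U := (st g W n).2
  have c1' : (1 : ℝ) < r := by exact_mod_cast c1
  have hr : (r : ℝ) ≤ ‖w‖ := by
    have h3 : ((r : ℝ) + E) ^ 2 ≤ ‖toC W‖ ^ 2 := by rw [norm_toC_sq]; exact_mod_cast c2
    have h4 : (r : ℝ) + E ≤ ‖toC W‖ := by
      have h5 := norm_nonneg (toC W)
      exact (sq_le_sq₀ (by linarith) h5).mp h3
    have h6 : ‖toC W‖ ≤ ‖w‖ + ‖w - toC W‖ := by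
      have := norm_le_norm_add_norm_sub' (toC W) w
      rw [norm_sub_rev] at this
      exact this
    linarith
  have hB := critB (γ := γ) (w := w) (by linarith) hwγ hM n
  have hq : (γ - ‖w‖) / (‖w‖ - 1) ≤ ((g : ℝ) + E - 1) / (r - 1) - 1 := by
    have hw1 : 0 < ‖w‖ - 1 := by linarith
    have h3 : (γ - ‖w‖) / (‖w‖ - 1) = (γ - 1) / (‖w‖ - 1) - 1 := by
      field_simp
      ring
    rw [h3]
    have h4 : (γ - 1) / (‖w‖ - 1) ≤ ((g : ℝ) + E - 1) / (r - 1) := by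
      rw [abs_le] at hg
      apply div_le_div₀
      · linarith [hg.1, hg.2]
      · linarith [hg.1, hg.2]
      · linarith
      · linarith
    linarith
  have c3' : (0 : ℝ) ≤ (V : ℝ) + E * 32 ^ n + (((g : ℝ) + E - 1) / (r - 1) - 1) := by
    exact_mod_cast c3
  have c4' : ((V : ℝ) + E * 32 ^ n + (((g : ℝ) + E - 1) / (r - 1) - 1) + E * 32 ^ n) ^ 2 <
      ‖toC U‖ ^ 2 := by
    rw [norm_toC_sq]
    exact_mod_cast c4
  have hp : (0 : ℝ) ≤ E * 32 ^ n := by positivity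
  have h5 := lt_of_pow_lt_pow_left₀ 2 (norm_nonneg (toC U)) c4'
  have h6 : ‖toC U‖ ≤ ‖u γ w n‖ + ‖u γ w n - toC U‖ := by
    have := norm_le_norm_add_norm_sub' (toC U) (u γ w n)
    rw [norm_sub_rev] at this
    exact this
  rw [abs_le] at hv
  linarith [hv.1, hv.2]

end Q264.PY
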