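import Mathlib
import Pool.Agent.Q264.PY1
import Pool.Agent.Q264.PY2
import Pool.Agent.Q264.PY4

/-!
Soundness of the checker for small `d`.
-/

namespace Q264.PY

/-- the tolerance -/
def dq : ℚ := 1 / 10 ^ 30

def okAll (β₀ : ℚ) (X : ℚ × ℚ) : ℕ → List (ℕ × ℚ) → Bool
  | _, [] => true
  | k, a :: l => okSteps (β₀ ^ k) (cpow X k) (dq * 4 ^ k) a.1 &&
      okEnd (β₀ ^ k) (cpow X k) (dq * 4 ^ k) a.1 a.2 && okAll β₀ X (k + 1) l

def okD (d : ℕ) (β₀ : ℚ) (X : ℚ × ℚ) (lo : ℚ) (l : List (ℕ × ℚ)) : Bool :=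
  decide (1 < β₀ - dq) && decide ((β₀ - dq) ^ d < (β₀ - dq) + 1) &&
    decide ((β₀ + dq) + 1 < (β₀ + dq) ^ d) && decide (β₀ + dq ≤ 5 / 4) &&
    decide ((β₀ + dq) ^ l.length ≤ 16) &&
    decide ((d : ℚ) ^ 2 * nsq ((cpow X d).1 - X.1 - 1, (cpow X d).2 - X.2) <
      dq ^ 2 * nsq (d * (cpow X (d - 1)).1 - 1, d * (cpow X (d - 1)).2)) &&
    decide (1 < lo) && decide ((lo + dq) ^ 2 ≤ nsq X) && decide (2 ≤ lo ^ (l.length + 1)) &&
    decide (nsq X < (β₀ - 2 * dq) ^ 2) && okAll β₀ X 1 l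

lemma okAll_get {β₀ : ℚ} {X : ℚ × ℚ} (l : List (ℕ × ℚ)) (k : ℕ) (h : okAll β₀ X k l = true)
    (i : ℕ) (hi : i < l.length) : ∃ a : ℕ × ℚ,
      okSteps (β₀ ^ (k + i)) (cpow X (k + i)) (dq * 4 ^ (k + i)) a.1 = true ∧
      okEnd (β₀ ^ (k + i)) (cpow X (k + i)) (dq * 4 ^ (k + i)) a.1 a.2 = true := by
  induction l generalizing k i with
  | nil => simp at hi
  | cons a l ih =>
    simp only [okAll, Bool.and_eq_true] at h
    obtain ⟨⟨h1, h2⟩, h3⟩ := h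
    cases i with
    | zero => exact ⟨a, h1, h2⟩
    | succ i =>
      have h4 : i < l.length := by simpa using hi
      obtain ⟨a', h5, h6⟩ := ih (k + 1) h3 i h4
      have e : k + 1 + i = k + (i + 1) := by ring
      rw [e] at h5 h6
      exact ⟨a', h5, h6⟩

lemma pow_close {F : Type*} [NormedField F] (a b : F) {δ : ℝ} (hδ : 0 ≤ δ) (ha : ‖a‖ ≤ 2)
    (hb : ‖b‖ ≤ 2) (hab : ‖a - b‖ ≤ δ) (k : ℕ) : ‖a ^ k - b ^ k‖ ≤ δ * 4 ^ k := by
  induction k with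
  | zero => simp; exact hδ
  | succ k ih =>
    have e : a ^ (k + 1) - b ^ (k + 1) = a * (a ^ k - b ^ k) + (a - b) * b ^ k := by ring
    rw [e]
    refine (norm_add_le _ _).trans ?_
    rw [norm_mul, norm_mul, norm_pow]
    have h1 : ‖a‖ * ‖a ^ k - b ^ k‖ ≤ 2 * (δ * 4 ^ k) :=
      mul_le_mul ha ih (norm_nonneg _) (by norm_num)
    have h2 : ‖b‖ ^ k ≤ 4 ^ k := by
      calc ‖b‖ ^ k ≤ 2 ^ k := pow_le_pow_left₀ (norm_nonneg _) hb k
        _ ≤ 4 ^ k := pow_le_pow_left₀ (by norm_num) (by norm_num) k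
    have h3 : ‖a - b‖ * ‖b‖ ^ k ≤ δ * 4 ^ k :=
      mul_le_mul hab h2 (by positivity) hδ
    have h4 : 0 ≤ δ * 4 ^ k := by positivity
    rw [pow_succ]
    nlinarith

lemma beta_lt_of {d : ℕ} (hd : 2 ≤ d) {β y : ℝ} (hβ1 : 1 < β) (hβ : β ^ d = β + 1)
    (hy : 0 < y) (h : y + 1 < y ^ d) : β < y := by
  by_contra hcon
  push Not at hcon
  have h1 : y ^ d = y * y ^ (d - 1) := by
    rw [← pow_succ']; congr 1; omega
  have h1' : β ^ d = β * β ^ (d - 1) := by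
    rw [← pow_succ']; congr 1; omega
  have h2 : y ^ (d - 1) ≤ β ^ (d - 1) := pow_le_pow_left₀ hy.le hcon _
  rw [hβ] at h1'
  have h4 : 1 ≤ β ^ (d - 1) := one_le_pow₀ hβ1.le
  have h5 : 0 ≤ (β - y) * (β ^ (d - 1) - 1) :=
    mul_nonneg (by linarith) (by linarith)
  have h6 : y * y ^ (d - 1) ≤ y * β ^ (d - 1) := mul_le_mul_of_nonneg_left h2 hy.le
  rw [h1] at h
  linarith

/-- a conjugate power of modulus at least two -/
lemma big_case {γ : ℝ} {w : ℂ} (hw : 2 ≤ ‖w‖) (hwγ : ‖w‖ < γ) {M : ℝ}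
    (hM : ∀ j, ‖u γ w j‖ ≤ M) : False := by
  have hγ0 : 0 ≤ γ := by linarith
  have hne : w ≠ (γ : ℂ) := by
    intro h
    rw [h, Complex.norm_real, Real.norm_of_nonneg hγ0] at hwγ
    linarith
  have hA := critA (w := w) (γ := γ) (by linarith) hγ0 hne hM
  have hv0 := v_nonneg γ 1
  have hv1 := v_lt_one γ 0
  have h1 : ‖w‖ - v γ 1 ≤ ‖w + (v γ 1 : ℂ)‖ := by
    have h2 : ‖w‖ - ‖-((v γ 1 : ℝ) : ℂ)‖ ≤ ‖w - -((v γ 1 : ℝ) : ℂ)‖ :=
      norm_sub_norm_le _ _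
    rw [norm_neg, sub_neg_eq_add, Complex.norm_real, Real.norm_of_nonneg hv0] at h2
    exact h2
  have h2 : 1 / (‖w‖ - 1) ≤ 1 := by
    rw [div_le_one (by linarith)]
    linarith
  linarith

theorem small {d : ℕ} (hd : 2 ≤ d) {β₀ : ℚ} {X : ℚ × ℚ} {lo : ℚ} {l : List (ℕ × ℚ)}
    (h : okD d β₀ X lo l = true) {β : ℝ} (hβ1 : 1 < β) (hβ : β ^ d = β + 1) {k : ℕ}
    (hk : 1 ≤ k) : ¬ IsParry (β ^ k) := by
  intro hP
  simp only [okD, Bool.and_eq_true, decide_eq_true_eq] at h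
  obtain ⟨⟨⟨⟨⟨⟨⟨⟨⟨⟨c1, c2⟩, c3⟩, c4⟩, c5⟩, c6⟩, c7⟩, c8⟩, c9⟩, c10⟩, c11⟩ := h
  have hδ : (0 : ℝ) < (dq : ℝ) := by
    have : (0 : ℚ) < dq := by unfold dq; norm_num
    exact_mod_cast this
  have c1' : (1 : ℝ) < (β₀ : ℝ) - dq := by exact_mod_cast c1
  have c2' : ((β₀ : ℝ) - dq) ^ d < ((β₀ : ℝ) - dq) + 1 := by exact_mod_cast c2
  have c3' : ((β₀ : ℝ) + dq) + 1 < ((β₀ : ℝ) + dq) ^ d := by exact_mod_cast c3
  have c4' : (β₀ : ℝ) + dq ≤ 5 / 4 := by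
    have : ((β₀ + dq : ℚ) : ℝ) ≤ ((5 / 4 : ℚ) : ℝ) := by exact_mod_cast c4
    push_cast at this
    exact this
  have c5' : ((β₀ : ℝ) + dq) ^ l.length ≤ 16 := by exact_mod_cast c5
  have c7' : (1 : ℝ) < lo := by exact_mod_cast c7
  have c8' : ((lo : ℝ) + dq) ^ 2 ≤ ‖toC X‖ ^ 2 := by rw [norm_toC_sq]; exact_mod_cast c8
  have c9' : (2 : ℝ) ≤ (lo : ℝ) ^ (l.length + 1) := by exact_mod_cast c9
  have c10' : ‖toC X‖ ^ 2 < ((β₀ : ℝ) - 2 * dq) ^ 2 := by rw [norm_toC_sq]; exact_mod_cast c10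
  -- localisation of beta
  have hβlo : (β₀ : ℝ) - dq < β := rho_lt_beta hd hβ1 hβ c2'
  have hβhi : β < (β₀ : ℝ) + dq := beta_lt_of hd hβ1 hβ (by linarith) c3'
  -- the conjugate
  obtain ⟨x, hx, hxX⟩ := exists_root_near hd (toC X) hδ (by
    have e1 : toC X ^ d - toC X - 1 =
        toC ((cpow X d).1 - X.1 - 1, (cpow X d).2 - X.2) := by
      rw [← toC_pow]
      unfold toC
      push_cast
      ring
    have e2 : (d : ℂ) * toC X ^ (d - 1) - 1 =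
        toC (d * (cpow X (d - 1)).1 - 1, d * (cpow X (d - 1)).2) := by
      rw [← toC_pow]
      unfold toC
      push_cast
      ring
    rw [e1, e2]
    have h0 : (0 : ℝ) ≤ dq * ‖toC (d * (cpow X (d - 1)).1 - 1, d * (cpow X (d - 1)).2)‖ := by
      positivity
    apply lt_of_pow_lt_pow_left₀ 2 h0
    rw [mul_pow, mul_pow, norm_toC_sq, norm_toC_sq]
    exact_mod_cast c6)
  have hX0 := norm_nonneg (toC X)
  have hXβ : ‖toC X‖ < (β₀ : ℝ) - 2 * dq := by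
    apply lt_of_pow_lt_pow_left₀ 2 _ c10'
    by_contra hcon
    push Not at hcon
    have : (dq : ℝ) = 1 / 10 ^ 30 := by unfold dq; push_cast; ring
    rw [this] at hcon c1'
    norm_num at hcon c1'
    linarith
  have hlo : (lo : ℝ) + dq ≤ ‖toC X‖ := (sq_le_sq₀ (by linarith) hX0).mp c8'
  have hx1 : ‖x‖ ≤ ‖toC X‖ + dq := by
    have := norm_le_norm_add_norm_sub' x (toC X)
    linarith
  have hx2 : (lo : ℝ) ≤ ‖x‖ := by
    have := norm_le_norm_add_norm_sub' (toC X) x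
    rw [norm_sub_rev] at this
    linarith
  have hxβ : ‖x‖ < β := by linarith
  obtain ⟨M, hM⟩ := bounded_of_parry (k := k) hd hβ hx hP
  have hwγ : ‖x ^ k‖ < β ^ k := by
    rw [norm_pow]
    exact pow_lt_pow_left₀ hxβ (norm_nonneg _) (by omega)
  by_cases hkl : k ≤ l.length
  · obtain ⟨a, h1, h2⟩ := okAll_get l 1 c11 (k - 1) (by omega)
    have e : 1 + (k - 1) = k := by omega
    rw [e] at h1 h2
    have hE : (0 : ℚ) ≤ dq * 4 ^ k := by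
      unfold dq; positivity
    have hg : |β ^ k - ((β₀ ^ k : ℚ) : ℝ)| ≤ ((dq * 4 ^ k : ℚ) : ℝ) := by
      have := pow_close (F := ℝ) β (β₀ : ℝ) hδ.le
        (by rw [Real.norm_of_nonneg (by linarith)]; linarith)
        (by rw [Real.norm_of_nonneg (by linarith)]; linarith)
        (by rw [Real.norm_eq_abs, abs_le]; constructor <;> linarith) k
      rw [Real.norm_eq_abs] at this
      push_cast
      exact this
    have hW : ‖x ^ k - toC (cpow X k)‖ ≤ ((dq * 4 ^ k : ℚ) : ℝ) := by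
      rw [toC_pow]
      have := pow_close (F := ℂ) x (toC X) hδ.le (by linarith) (by linarith) hxX k
      push_cast
      exact this
    have hγ16 : β ^ k ≤ 16 := by
      calc β ^ k ≤ ((β₀ : ℝ) + dq) ^ k := pow_le_pow_left₀ (by linarith) hβhi.le k
        _ ≤ ((β₀ : ℝ) + dq) ^ l.length := pow_le_pow_right₀ (by linarith) hkl
        _ ≤ 16 := c5'
    exact end_sound hE hg hW hγ16 hwγ.le a.1 h1 h2 M hM
  · have hw2 : 2 ≤ ‖x ^ k‖ := by
      rw [norm_pow]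
      calc (2 : ℝ) ≤ (lo : ℝ) ^ (l.length + 1) := c9'
        _ ≤ (lo : ℝ) ^ k := pow_le_pow_right₀ c7'.le (by omega)
        _ ≤ ‖x‖ ^ k := pow_le_pow_left₀ (by linarith) hx2 k
    exact big_case hw2 hwγ hM

end Q264.PY
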