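import Mathlib
import Pool.Agent.Q264.Gap

/-!
# The perturbed Hofstadter sequence: block structure
-/

set_option autoImplicit false

namespace Q264.PertQ

/-- the recursions of the two strands -/
structure Rec (A B : ℤ → ℤ) : Prop where
  eA : ∀ m : ℤ, 2 ≤ m → A m + 1 = B (m - B (m - 1)) + B (m - A (m - 1))
  eB : ∀ m : ℤ, 2 ≤ m → B m = A (m - A m + 1) + A (m - B (m - 1) + 1)

/-- the block `[2 a - r - 2, 4 a - r - 2]` -/
structure Pos (A B : ℤ → ℤ) (a r : ℤ) : Prop where
  ha : r + 3 ≤ a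
  hr : 0 ≤ r
  sum : ∀ x, 2 * a - r - 2 ≤ x → x ≤ 4 * a - r - 2 → A x + B x = x + r + 2
  inc : ∀ x, 2 * a - r - 2 ≤ x → x < 4 * a - r - 2 → A (x + 1) = A x ∨ A (x + 1) = A x + 1
  lt : ∀ x, 2 * a - r - 2 < x → x < 4 * a - r - 2 → 2 * A x ≤ x + r + 1
  Au : A (2 * a - r - 2) = a
  Av : A (4 * a - r - 2) = 2 * a
  last : A (4 * a - r - 2 - 1) = 2 * a - 1

/-- the block `[4 a - r - 2, 8 a - r - 5]` -/
structure Neg (A B : ℤ → ℤ) (a r : ℤ) : Prop where
  ha : r + 3 ≤ a
  hr : 0 ≤ r
  sum : ∀ x, 4 * a - r - 2 - 1 ≤ x → x ≤ 8 * a - r - 5 - 1 → B x + A (x + 1) = x + r + 3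
  inc : ∀ x, 4 * a - r - 2 - 1 ≤ x → x ≤ 8 * a - r - 5 - 1 → B (x + 1) = B x ∨ B (x + 1) = B x + 1
  le : ∀ x, 4 * a - r - 2 - 1 ≤ x → x ≤ 8 * a - r - 5 - 1 → 2 * B x ≤ x + r + 3
  Bv : B (4 * a - r - 2 - 1) = 2 * a
  Av : A (4 * a - r - 2) = 2 * a
  Au : A (8 * a - r - 5) = 4 * a - 1
  Bu : B (8 * a - r - 5) = 4 * a - 1

section

variable {A B : ℤ → ℤ} (hR : Rec A B) {a r : ℤ}

theorem mono_of_inc {f : ℤ → ℤ} {x y : ℤ} (h : ∀ z, x ≤ z → z < y → f (z + 1) = f z ∨ f (z + 1) = f z + 1) :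
    ∀ z w, x ≤ z → z ≤ w → w ≤ y → f z ≤ f w ∧ f w ≤ f z + (w - z) := by
  intro z w hz hzw hw
  obtain ⟨k, rfl⟩ : ∃ k : ℕ, w = z + k := ⟨(w - z).toNat, by omega⟩
  clear hzw
  induction k with
  | zero => simp
  | succ k ih =>
    push_cast at hw ⊢
    have i1 := ih (by omega)
    have i2 := h (z + k) (by omega) (by omega)
    rw [show z + ((k : ℤ) + 1) = z + k + 1 by ring]
    rcases i2 with i2 | i2 <;> rw [i2] <;> constructor <;> omega

theorem Pos.incB (hP : Pos A B a r) : ∀ x, 2 * a - r - 2 ≤ x → x < 4 * a - r - 2 → B (x + 1) = B x ∨ B (x + 1) = B x + 1 := by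
  intro x h1 h2
  have s1 := hP.sum x h1 h2.le
  have s2 := hP.sum (x + 1) (by omega) (by omega)
  rcases hP.inc x h1 h2 with h | h
  · right; omega
  · left; omega

include hR

/-- the induction in the negative block -/
theorem neg_induct (hP : Pos A B a r) : ∀ k : ℕ, (4 * a - r - 2 : ℤ) + k ≤ 8 * a - r - 5 →
    (∀ x, 4 * a - r - 2 ≤ x → x ≤ 4 * a - r - 2 + k →
      B (x - 1) + A x = x + r + 2 ∧ 2 * a ≤ A x ∧ 2 * a ≤ B (x - 1) ∧ 2 * B (x - 1) ≤ x + r + 2 ∧
      (B x = B (x - 1) ∨ B x = B (x - 1) + 1)) ∧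
    ((A (4 * a - r - 2 + k) ≤ 4 * a - 2 ∧ (B (4 * a - r - 2 + k) = B (4 * a - r - 2 + k - 1) + 1 →
        A (A (4 * a - r - 2 + k) - r - 2) + 1 = A (A (4 * a - r - 2 + k) - r - 1))) ∨
      (A (4 * a - r - 2 + k) = 4 * a - 1 ∧
        ∀ z, B (4 * a - r - 2 + k - 1) - r - 1 ≤ z → z ≤ 4 * a - r - 2 → B z = 2 * a)) := by
  have ha := hP.ha
  have hr := hP.hr
  have Bv : B (4 * a - r - 2) = 2 * a := by
    have := hP.sum (4 * a - r - 2) (by omega) le_rfl
    rw [hP.Av] at this
    omega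
  have Bv1 : B (4 * a - r - 2 - 1) = 2 * a := by
    have := hP.sum (4 * a - r - 2 - 1) (by omega) (by omega)
    rw [hP.last] at this
    omega
  have mA := mono_of_inc hP.inc
  have mB := mono_of_inc hP.incB
  intro k
  induction k with
  | zero =>
    intro _
    simp only [Nat.cast_zero, add_zero]
    refine ⟨fun x h1 h2 => ?_, Or.inl ⟨?_, ?_⟩⟩
    · obtain rfl : x = 4 * a - r - 2 := le_antisymm h2 h1
      rw [hP.Av, Bv, Bv1]
      refine ⟨by ring, le_rfl, le_rfl, by omega, Or.inl rfl⟩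
    · rw [hP.Av]; omega
    · rw [Bv, Bv1]; intro h; omega
  | succ k ih =>
    intro hk
    push_cast at hk ⊢
    obtain ⟨ih1, ih2⟩ := ih (by omega)
    set x : ℤ := 4 * a - r - 2 + k with hx
    rw [show 4 * a - r - 2 + ((k : ℤ) + 1) = x + 1 by omega] at *
    obtain ⟨s1, s2, s3, s4, s5⟩ := ih1 x (by omega) le_rfl
    have hxx : x + 1 - 1 = x := by ring
    rw [hxx]
    have eB := hR.eB x (by omega)
    have eA := hR.eA (x + 1) (by omega)
    have eB' := hR.eB (x + 1) (by omega)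
    rw [hxx] at eA eB'
    -- the pointers
    have q1 : x - A x + 1 = B (x - 1) - r - 1 := by omega
    have p1 : x - B (x - 1) + 1 = A x - r - 1 := by omega
    rw [q1, p1] at eB
    have q2 : x + 1 - A x = B (x - 1) - r - 1 := by omega
    rw [q2] at eA
    have main : B x + A (x + 1) = x + r + 3 ∧ 2 * a ≤ A (x + 1) ∧ 2 * B x ≤ x + r + 3 ∧
        (B (x + 1) = B x ∨ B (x + 1) = B x + 1) ∧
        ((A (x + 1) ≤ 4 * a - 2 ∧ (B (x + 1) = B x + 1 → A (A (x + 1) - r - 2) + 1 = A (A (x + 1) - r - 1))) ∨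
          (A (x + 1) = 4 * a - 1 ∧ ∀ z, B x - r - 1 ≤ z → z ≤ 4 * a - r - 2 → B z = 2 * a)) := by
      rcases ih2 with ⟨hA, hinv⟩ | ⟨hA, hF⟩
      · -- first phase
        have sp := hP.sum (A x - r - 1) (by omega) (by omega)
        have sq := hP.sum (B (x - 1) - r - 1) (by omega) (by omega)
        have lp := hP.lt (A x - r - 1) (by omega) (by omega)
        have lq := hP.lt (B (x - 1) - r - 1) (by omega) (by omega)
        rcases s5 with h5 | h5
        · -- `B x = B (x-1)`
          rw [show x + 1 - B x = A x - r - 1 by omega] at eA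
          have hsum : B x + A (x + 1) = x + r + 3 := by omega
          have hA1 : A (x + 1) = A x + 1 := by omega
          have hi := hP.inc (A x - r - 1) (by omega) (by omega)
          rw [show x + 1 - A (x + 1) + 1 = B (x - 1) - r - 1 by omega, show x + 1 - B x + 1 = A x - r - 1 + 1 by omega] at eB'
          have hle : 2 * B x ≤ x + r + 3 := by omega
          refine ⟨hsum, by omega, hle, ?_, ?_⟩
          · rcases hi with hi | hi
            · left; omega
            · right; omega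
          · rcases lt_or_ge (A x) (4 * a - 2) with h6 | h6
            · left
              refine ⟨by omega, fun h7 => ?_⟩
              rw [hA1, show A x + 1 - r - 2 = A x - r - 1 by ring, show A x + 1 - r - 1 = A x - r - 1 + 1 by ring]
              rcases hi with hi | hi
              · omega
              · omega
            · right
              have h7 : A x = 4 * a - 2 := by omega
              refine ⟨by omega, ?_⟩
              -- `B (q) = 2 a`
              have h8 : A x - r - 1 = 4 * a - r - 2 - 1 := by omega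
              rw [h8, Bv1] at eA
              have h9 : B (B (x - 1) - r - 1) = 2 * a := by omega
              intro z hz1 hz2
              rw [h5] at hz1
              have m1 := mB (B (x - 1) - r - 1) z (by omega) hz1 hz2
              have m2 := mB z (4 * a - r - 2) (by omega) hz2 le_rfl
              omega
        · -- `B x = B (x-1) + 1`
          have hinv' := hinv h5
          have sp1 := hP.sum (A x - r - 2) (by omega) (by omega)
          rw [show x + 1 - B x = A x - r - 2 by omega] at eA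
          have hsum : B x + A (x + 1) = x + r + 3 := by omega
          have hA1 : A (x + 1) = A x := by omega
          have hi := hP.inc (B (x - 1) - r - 1) (by omega) (by omega)
          rw [show x + 1 - A (x + 1) + 1 = B (x - 1) - r - 1 + 1 by omega, show x + 1 - B x + 1 = A x - r - 1 by omega] at eB'
          have hle : 2 * B x ≤ x + r + 3 := by omega
          refine ⟨hsum, by omega, hle, ?_, ?_⟩
          · rcases hi with hi | hi
            · left; omega
            · right; omega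
          · left
            refine ⟨by omega, fun _ => ?_⟩
            rw [hA1]
            exact hinv'
      · -- second phase
        have hB1 : B (x - 1) = x + r + 2 - (4 * a - 1) := by omega
        have hq : B (B (x - 1) - r - 1) = 2 * a := hF _ le_rfl (by omega)
        have sq := hP.sum (B (x - 1) - r - 1) (by omega) (by omega)
        rw [show A x - r - 1 = 4 * a - r - 2 by omega, hP.Av] at eB
        have h5 : B x = B (x - 1) + 1 := by omega
        rw [show x + 1 - B x = 4 * a - r - 2 - 1 by omega, Bv1, hq] at eA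
        have hA1 : A (x + 1) = 4 * a - 1 := by omega
        rw [show x + 1 - A (x + 1) + 1 = B (x - 1) - r - 1 + 1 by omega, show x + 1 - B x + 1 = 4 * a - r - 2 by omega,
          hP.Av] at eB'
        have hq1 : B (B (x - 1) - r - 1 + 1) = 2 * a := hF _ (by omega) (by omega)
        have sq1 := hP.sum (B (x - 1) - r - 1 + 1) (by omega) (by omega)
        refine ⟨by omega, by omega, by omega, Or.inr (by omega), Or.inr ⟨hA1, fun z hz1 hz2 => hF z (by omega) hz2⟩⟩
    obtain ⟨m1, m2, m3, m4, m5⟩ := main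
    refine ⟨fun y hy1 hy2 => ?_, m5⟩
    rcases eq_or_lt_of_le hy2 with h | h
    · rw [h, hxx]
      have : 2 * a ≤ B x := by rcases s5 with h5 | h5 <;> omega
      exact ⟨by omega, m2, this, by omega, m4⟩
    · exact ih1 y hy1 (by omega)

theorem neg_of_pos (hP : Pos A B a r) : Neg A B a r := by
  have ha := hP.ha
  have hr := hP.hr
  obtain ⟨k, hk⟩ : ∃ k : ℕ, (4 * a - r - 2 : ℤ) + k = 8 * a - r - 5 := ⟨(4 * a - 3).toNat, by omega⟩
  obtain ⟨h1, h2⟩ := neg_induct hR hP k hk.le
  rw [hk] at h1 h2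
  have hlast := h1 (8 * a - r - 5) (by omega) le_rfl
  have hA : A (8 * a - r - 5) = 4 * a - 1 := by
    rcases h2 with h2 | h2
    · omega
    · exact h2.1
  refine ⟨ha, hr, fun x hx1 hx2 => ?_, fun x hx1 hx2 => ?_, fun x hx1 hx2 => ?_, ?_, hP.Av, hA, ?_⟩
  · have := (h1 (x + 1) (by omega) (by omega)).1
    rw [add_sub_cancel_right] at this
    omega
  · have := (h1 (x + 1) (by omega) (by omega)).2.2.2.2
    rw [add_sub_cancel_right] at this
    exact this
  · have := (h1 (x + 1) (by omega) (by omega)).2.2.2.1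
    rw [add_sub_cancel_right] at this
    omega
  · have := hP.sum (4 * a - r - 2 - 1) (by omega) (by omega)
    rw [hP.last] at this
    omega
  · have eB := hR.eB (8 * a - r - 5) (by omega)
    have hF : ∀ z, B (8 * a - r - 5 - 1) - r - 1 ≤ z → z ≤ 4 * a - r - 2 → B z = 2 * a := by
      rcases h2 with h2 | h2
      · omega
      · exact h2.2
    have hB1 : B (8 * a - r - 5 - 1) = 4 * a - 2 := by omega
    rw [hB1, hA, show 8 * a - r - 5 - (4 * a - 1) + 1 = 4 * a - r - 2 - 1 by ring,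
      show 8 * a - r - 5 - (4 * a - 2) + 1 = 4 * a - r - 2 by ring, hP.Av, hP.last] at eB
    omega

/-- the induction in the positive block -/
theorem pos_induct (hN : Neg A B a r) (b ρ : ℤ) (hb : b = 4 * a - 1) (hρ : ρ = r + 1) :
    A (2 * b - ρ - 2 + 1) = b ∧ B (2 * b - ρ - 2 + 1) = b + 1 ∧
    ∀ k : ℕ, (2 * b - ρ - 2 + 1 : ℤ) + k ≤ 4 * b - ρ - 2 →
    (∀ x, 2 * b - ρ - 2 + 1 ≤ x → x ≤ 2 * b - ρ - 2 + 1 + k →
      A (x - 1) + B (x - 1) = x + ρ + 1 ∧ b ≤ A (x - 1) ∧ b ≤ B (x - 1) ∧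
      (2 * b - ρ - 2 + 2 ≤ x → b + 1 ≤ B (x - 1) ∧ 2 * A (x - 1) ≤ x + ρ) ∧
      (A x = A (x - 1) ∨ A x = A (x - 1) + 1)) ∧
    ((B (2 * b - ρ - 2 + 1 + k - 1) ≤ 2 * b - 1 ∧
        (A (2 * b - ρ - 2 + 1 + k) = A (2 * b - ρ - 2 + 1 + k - 1) + 1 →
          B (B (2 * b - ρ - 2 + 1 + k - 1) - ρ - 2) + 1 = B (B (2 * b - ρ - 2 + 1 + k - 1) - ρ - 1))) ∨
      (B (2 * b - ρ - 2 + 1 + k - 1) = 2 * b ∧ A (2 * b - ρ - 2 + 1 + k) = A (2 * b - ρ - 2 + 1 + k - 1) + 1 ∧
        ∀ z, A (2 * b - ρ - 2 + 1 + k - 1) - ρ - 1 ≤ z → z ≤ 2 * b - ρ - 2 → B z = z + ρ + 2 - b)) := by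
  have ha := hN.ha
  have hr := hN.hr
  -- translation of the facts on the previous block
  have nsum : ∀ x, b - ρ - 1 ≤ x → x ≤ 2 * b - ρ - 2 - 1 → B x + A (x + 1) = x + ρ + 2 := by
    intro x h1 h2
    have := hN.sum x (by omega) (by omega)
    omega
  have ninc : ∀ x, b - ρ - 1 ≤ x → x < 2 * b - ρ - 2 → B (x + 1) = B x ∨ B (x + 1) = B x + 1 :=
    fun x h1 h2 => hN.inc x (by omega) (by omega)
  have nle : ∀ x, b - ρ - 1 ≤ x → x ≤ 2 * b - ρ - 2 - 1 → 2 * B x ≤ x + ρ + 2 := by
    intro x h1 h2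
    have := hN.le x (by omega) (by omega)
    omega
  have Bv : 2 * B (b - ρ - 1) = b + 1 := by
    have := hN.Bv
    rw [show 4 * a - r - 2 - 1 = b - ρ - 1 by omega] at this
    omega
  have Av : 2 * A (b - ρ) = b + 1 := by
    have := hN.Av
    rw [show 4 * a - r - 2 = b - ρ by omega] at this
    omega
  have Au : A (2 * b - ρ - 2) = b := by
    have := hN.Au
    rw [show 8 * a - r - 5 = 2 * b - ρ - 2 by omega] at this
    omega
  have Bu : B (2 * b - ρ - 2) = b := by
    have := hN.Bu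
    rw [show 8 * a - r - 5 = 2 * b - ρ - 2 by omega] at this
    omega
  clear hN
  -- the first step
  have A1 : A (2 * b - ρ - 2 + 1) = b := by
    have := hR.eA (2 * b - ρ - 2 + 1) (by omega)
    rw [add_sub_cancel_right, Au, Bu, show 2 * b - ρ - 2 + 1 - b = b - ρ - 1 by ring] at this
    omega
  have B1 : B (2 * b - ρ - 2 + 1) = b + 1 := by
    have := hR.eB (2 * b - ρ - 2 + 1) (by omega)
    rw [add_sub_cancel_right, A1, Bu, show 2 * b - ρ - 2 + 1 - b + 1 = b - ρ by ring] at this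
    omega
  refine ⟨A1, B1, ?_⟩
  -- extended facts
  have xsum : ∀ x, b - ρ - 1 ≤ x → x ≤ 2 * b - ρ - 2 → B x + A (x + 1) = x + ρ + 2 := by
    intro x h1 h2
    rcases eq_or_lt_of_le h2 with h | h
    · rw [h, A1, Bu]; ring
    · exact nsum x h1 (by omega)
  have xle : ∀ x, b - ρ - 1 ≤ x → x ≤ 2 * b - ρ - 2 → 2 * B x ≤ x + ρ + 2 := by
    intro x h1 h2
    rcases eq_or_lt_of_le h2 with h | h
    · rw [h, Bu]; omega
    · exact nle x h1 (by omega)
  have xinc : ∀ x, b - ρ - 1 ≤ x → x ≤ 2 * b - ρ - 2 → B (x + 1) = B x ∨ B (x + 1) = B x + 1 := by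
    intro x h1 h2
    rcases eq_or_lt_of_le h2 with h | h
    · rw [h, Bu, B1]; exact Or.inr rfl
    · exact ninc x h1 h
  have mB := mono_of_inc ninc
  intro k
  induction k with
  | zero =>
    intro _
    simp only [Nat.cast_zero, add_zero, add_sub_cancel_right]
    refine ⟨fun x h1 h2 => ?_, Or.inl ⟨?_, ?_⟩⟩
    · obtain rfl : x = 2 * b - ρ - 2 + 1 := le_antisymm h2 h1
      rw [add_sub_cancel_right, Au, Bu, A1]
      exact ⟨by omega, le_rfl, le_rfl, fun h => by omega, Or.inl rfl⟩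
    · rw [Bu]; omega
    · rw [A1, Au]; intro h; omega
  | succ k ih =>
    intro hk
    push_cast at hk ⊢
    obtain ⟨ih1, ih2⟩ := ih (by omega)
    set m : ℤ := 2 * b - ρ - 2 + 1 + k with hm
    rw [show 2 * b - ρ - 2 + 1 + ((k : ℤ) + 1) = m + 1 by omega] at *
    obtain ⟨s1, s2, s3, s4, s5⟩ := ih1 m (by omega) le_rfl
    rw [show m + 1 - 1 = m by ring]
    have eA := hR.eA m (by omega)
    have eB := hR.eB m (by omega)
    have eA' := hR.eA (m + 1) (by omega)
    rw [show m + 1 - 1 = m by ring] at eA'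
    -- the pointers
    rw [show m - B (m - 1) = A (m - 1) - ρ - 1 by omega, show m - A (m - 1) = B (m - 1) - ρ - 1 by omega] at eA
    rw [show m - B (m - 1) + 1 = A (m - 1) - ρ - 1 + 1 by omega] at eB
    have main : A m + B m = m + ρ + 2 ∧ b ≤ A m ∧ b ≤ B m ∧ (b + 1 ≤ B m ∧ 2 * A m ≤ m + ρ + 1) ∧
        (A (m + 1) = A m ∨ A (m + 1) = A m + 1) ∧
        ((B m ≤ 2 * b - 1 ∧ (A (m + 1) = A m + 1 → B (B m - ρ - 2) + 1 = B (B m - ρ - 1))) ∨
          (B m = 2 * b ∧ A (m + 1) = A m + 1 ∧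
            ∀ z, A m - ρ - 1 ≤ z → z ≤ 2 * b - ρ - 2 → B z = z + ρ + 2 - b)) := by
      rcases ih2 with ⟨hB, hinv⟩ | ⟨hB, hA, hF⟩
      · -- first phase
        have hAB : A (m - 1) ≤ B (m - 1) := by
          rcases eq_or_lt_of_le (show 2 * b - ρ - 2 + 1 ≤ m by omega) with h | h
          · rw [← h, add_sub_cancel_right, Au, Bu]
          · have := (s4 (by omega)).2
            omega
        have sp := xsum (A (m - 1) - ρ - 1) (by omega) (by omega)
        have sq := xsum (B (m - 1) - ρ - 1) (by omega) (by omega)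
        have lp := xle (A (m - 1) - ρ - 1) (by omega) (by omega)
        have lq := xle (B (m - 1) - ρ - 1) (by omega) (by omega)
        have hlt : 2 * A m ≤ m + ρ + 1 := by omega
        rcases s5 with h5 | h5
        · -- `A m = A (m-1)`
          rw [show m - A m + 1 = B (m - 1) - ρ - 1 + 1 by omega] at eB
          have hsum : A m + B m = m + ρ + 2 := by omega
          have hB1 : B m = B (m - 1) + 1 := by omega
          rw [show m + 1 - B m = A (m - 1) - ρ - 1 by omega, show m + 1 - A m = B (m - 1) - ρ - 1 + 1 by omega] at eA'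
          have hi := xinc (B (m - 1) - ρ - 1) (by omega) (by omega)
          refine ⟨hsum, by omega, by omega, ⟨by omega, hlt⟩, ?_, ?_⟩
          · rcases hi with hi | hi
            · left; omega
            · right; omega
          · rcases lt_or_ge (B (m - 1)) (2 * b - 1) with h6 | h6
            · left
              refine ⟨by omega, fun h7 => ?_⟩
              rw [hB1, show B (m - 1) + 1 - ρ - 2 = B (m - 1) - ρ - 1 by ring,
                show B (m - 1) + 1 - ρ - 1 = B (m - 1) - ρ - 1 + 1 by ring]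
              rcases hi with hi | hi
              · omega
              · omega
            · right
              have h7 : B (m - 1) = 2 * b - 1 := by omega
              have h8 : B (m - 1) - ρ - 1 = 2 * b - ρ - 2 := by omega
              rw [h8, Bu] at eA
              rw [h8, B1] at eA'
              refine ⟨by omega, by omega, fun z hz1 hz2 => ?_⟩
              have h9 : B (A (m - 1) - ρ - 1) = A (m - 1) - ρ - 1 + ρ + 2 - b := by omega
              rw [h5] at hz1
              have m1 := mB (A (m - 1) - ρ - 1) z (by omega) hz1 hz2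
              have m2 := mB z (2 * b - ρ - 2) (by omega) hz2 le_rfl
              rw [Bu] at m2
              omega
        · -- `A m = A (m-1) + 1`
          have hinv' := hinv h5
          have hm2 : 2 * b - ρ - 2 + 2 ≤ m := by
            by_contra hcon
            have h6 : m = 2 * b - ρ - 2 + 1 := by omega
            rw [h6, add_sub_cancel_right, A1, Au] at h5
            omega
          obtain ⟨s6, s7⟩ := s4 hm2
          have sq1 := xsum (B (m - 1) - ρ - 2) (by omega) (by omega)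
          rw [show B (m - 1) - ρ - 2 + 1 = B (m - 1) - ρ - 1 by ring] at sq1
          rw [show m - A m + 1 = B (m - 1) - ρ - 1 by omega] at eB
          have hsum : A m + B m = m + ρ + 2 := by omega
          have hB1 : B m = B (m - 1) := by omega
          rw [show m + 1 - B m = A (m - 1) - ρ - 1 + 1 by omega, show m + 1 - A m = B (m - 1) - ρ - 1 by omega] at eA'
          have hi := xinc (A (m - 1) - ρ - 1) (by omega) (by omega)
          refine ⟨hsum, by omega, by omega, ⟨by omega, hlt⟩, ?_, ?_⟩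
          · rcases hi with hi | hi
            · left; omega
            · right; omega
          · left
            refine ⟨by omega, fun _ => ?_⟩
            rw [hB1]
            exact hinv'
      · -- second phase
        have hA1 : A (m - 1) = m + ρ + 1 - 2 * b := by omega
        have hp : B (A (m - 1) - ρ - 1) = A (m - 1) - ρ - 1 + ρ + 2 - b := hF _ le_rfl (by omega)
        have sp := xsum (A (m - 1) - ρ - 1) (by omega) (by omega)
        rw [show m - A m + 1 = 2 * b - ρ - 2 + 1 by omega, A1] at eB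
        have hB1 : B m = 2 * b := by omega
        have hp1 : A m ≤ 2 * b - 1 := by omega
        rw [show m + 1 - B m = A (m - 1) - ρ - 1 + 1 by omega, show m + 1 - A m = 2 * b - ρ - 2 + 1 by omega, B1] at eA'
        have hp2 : B (A (m - 1) - ρ - 1 + 1) = A (m - 1) - ρ - 1 + 1 + ρ + 2 - b := hF _ (by omega) (by omega)
        refine ⟨by omega, by omega, by omega, ⟨by omega, by omega⟩, Or.inr (by omega), Or.inr ⟨hB1, by omega,
          fun z hz1 hz2 => hF z (by omega) hz2⟩⟩
    obtain ⟨m1, m2, m3, m4, m5, m6⟩ := main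
    refine ⟨fun y hy1 hy2 => ?_, m6⟩
    rcases eq_or_lt_of_le hy2 with h | h
    · rw [h, show m + 1 - 1 = m by ring]
      exact ⟨by omega, m2, m3, fun _ => ⟨m4.1, by omega⟩, m5⟩
    · exact ih1 y hy1 (by omega)

theorem pos_of_neg (hN : Neg A B a r) : Pos A B (4 * a - 1) (r + 1) := by
  have ha := hN.ha
  have hr := hN.hr
  obtain ⟨b, hb⟩ : ∃ b, b = 4 * a - 1 := ⟨_, rfl⟩
  obtain ⟨ρ, hρ⟩ : ∃ ρ, ρ = r + 1 := ⟨_, rfl⟩
  obtain ⟨A1, B1, hind⟩ := pos_induct hR hN b ρ hb hρ
  have Au : A (2 * b - ρ - 2) = b := by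
    have := hN.Au
    rw [show 8 * a - r - 5 = 2 * b - ρ - 2 by omega] at this
    omega
  have Bu : B (2 * b - ρ - 2) = b := by
    have := hN.Bu
    rw [show 8 * a - r - 5 = 2 * b - ρ - 2 by omega] at this
    omega
  rw [← hb, ← hρ]
  obtain ⟨k, hk⟩ : ∃ k : ℕ, (2 * b - ρ - 2 + 1 : ℤ) + k = 4 * b - ρ - 2 := ⟨(2 * b - 1).toNat, by omega⟩
  obtain ⟨h1, h2⟩ := hind k hk.le
  rw [hk] at h1 h2
  obtain ⟨l1, l2, l3, l4, l5⟩ := h1 (4 * b - ρ - 2) (by omega) le_rfl
  have l4' := l4 (by omega)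
  have hB : B (4 * b - ρ - 2 - 1) = 2 * b := by
    rcases h2 with h2 | h2
    · omega
    · exact h2.1
  have hA : A (4 * b - ρ - 2) = A (4 * b - ρ - 2 - 1) + 1 := by
    rcases h2 with h2 | h2
    · omega
    · exact h2.2.1
  have hF : ∀ z, A (4 * b - ρ - 2 - 1) - ρ - 1 ≤ z → z ≤ 2 * b - ρ - 2 → B z = z + ρ + 2 - b := by
    rcases h2 with h2 | h2
    · omega
    · exact h2.2.2
  have hA1 : A (4 * b - ρ - 2 - 1) = 2 * b - 1 := by omega
  have hA2 : A (4 * b - ρ - 2) = 2 * b := by omega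
  have hB2 : B (4 * b - ρ - 2) = 2 * b := by
    have := hR.eB (4 * b - ρ - 2) (by omega)
    rw [hA2, hB, show 4 * b - ρ - 2 - 2 * b + 1 = 2 * b - ρ - 2 + 1 by ring, A1] at this
    omega
  refine ⟨by omega, by omega, fun x hx1 hx2 => ?_, fun x hx1 hx2 => ?_, fun x hx1 hx2 => ?_, Au, hA2, hA1⟩
  · rcases eq_or_lt_of_le hx2 with h | h
    · rw [h, hA2, hB2]; omega
    · have := (h1 (x + 1) (by omega) (by omega)).1
      rw [add_sub_cancel_right] at this
      omega
  · have := (h1 (x + 1) (by omega) (by omega)).2.2.2.2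
    rw [add_sub_cancel_right] at this
    exact this
  · have := ((h1 (x + 1) (by omega) (by omega)).2.2.2.1 (by omega)).2
    rw [add_sub_cancel_right] at this
    omega

end

/-! ### The sequence -/

/-- the perturbed Hofstadter sequence, as a total function -/
def Q (n : ℤ) : ℤ := if n ≤ 2 then 1 else Q (n - max 1 (Q (n - 1))) + Q (n - max 1 (Q (n - 2))) + (-1) ^ n.toNat
termination_by n.toNat
decreasing_by all_goals omega

theorem Q_small (n : ℤ) (hn : n ≤ 2) : Q n = 1 := by rw [Q, if_pos hn]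

theorem Q_facts : ∀ (k : ℕ) (n : ℤ), n ≤ k → 1 ≤ Q n ∧ Q n % 2 = 1 := by
  intro k
  induction k with
  | zero =>
    intro n hn
    rw [Q_small n (by push_cast at hn; omega)]
    norm_num
  | succ k ih =>
    intro n hn
    rcases le_or_gt n 2 with h | h
    · rw [Q_small n h]; norm_num
    · rw [Q, if_neg (by omega)]
      push_cast at hn
      have h1 := ih (n - max 1 (Q (n - 1))) (by omega)
      have h2 := ih (n - max 1 (Q (n - 2))) (by omega)
      rcases neg_one_pow_eq_or ℤ n.toNat with h3 | h3 <;> rw [h3] <;> omega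

theorem Q_pos (n : ℤ) : 1 ≤ Q n := (Q_facts n.toNat n (by omega)).1
theorem Q_odd (n : ℤ) : Q n % 2 = 1 := (Q_facts n.toNat n (by omega)).2

theorem Q_rec (n : ℤ) (hn : 3 ≤ n) : Q n = Q (n - Q (n - 1)) + Q (n - Q (n - 2)) + (-1) ^ n.toNat := by
  conv_lhs => rw [Q]
  rw [if_neg (by omega), max_eq_right (Q_pos _), max_eq_right (Q_pos _)]

def SA (m : ℤ) : ℤ := (Q (2 * m - 1) + 1) / 2
def SB (m : ℤ) : ℤ := (Q (2 * m) + 1) / 2

theorem SA_eq (m : ℤ) : Q (2 * m - 1) = 2 * SA m - 1 := by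
  have := Q_odd (2 * m - 1)
  unfold SA
  omega

theorem SB_eq (m : ℤ) : Q (2 * m) = 2 * SB m - 1 := by
  have := Q_odd (2 * m)
  unfold SB
  omega

theorem SA_small (m : ℤ) (hm : m ≤ 1) : SA m = 1 := by
  unfold SA
  rw [Q_small _ (by omega)]
  norm_num

theorem SB_small (m : ℤ) (hm : m ≤ 1) : SB m = 1 := by
  unfold SB
  rw [Q_small _ (by omega)]
  norm_num

theorem isRec : Rec SA SB := by
  constructor
  · intro m hm
    have h := Q_rec (2 * m - 1) (by omega)
    rw [show 2 * m - 1 - 1 = 2 * (m - 1) by ring, show 2 * m - 1 - 2 = 2 * (m - 1) - 1 by ring, SB_eq (m - 1),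
      SA_eq (m - 1), show 2 * m - 1 - (2 * SB (m - 1) - 1) = 2 * (m - SB (m - 1)) by ring,
      show 2 * m - 1 - (2 * SA (m - 1) - 1) = 2 * (m - SA (m - 1)) by ring, SA_eq m, SB_eq (m - SB (m - 1)),
      SB_eq (m - SA (m - 1))] at h
    have h2 : (-1 : ℤ) ^ (2 * m - 1).toNat = -1 := by
      refine Odd.neg_one_pow ?_
      rw [Nat.odd_iff]
      omega
    rw [h2] at h
    omega
  · intro m hm
    have h := Q_rec (2 * m) (by omega)
    rw [show 2 * m - 2 = 2 * (m - 1) by ring, SA_eq m, SB_eq (m - 1),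
      show 2 * m - (2 * SA m - 1) = 2 * (m - SA m + 1) - 1 by ring,
      show 2 * m - (2 * SB (m - 1) - 1) = 2 * (m - SB (m - 1) + 1) - 1 by ring, SB_eq m, SA_eq (m - SA m + 1),
      SA_eq (m - SB (m - 1) + 1)] at h
    have h2 : (-1 : ℤ) ^ (2 * m).toNat = 1 := by
      refine Even.neg_one_pow ?_
      rw [Nat.even_iff]
      omega
    rw [h2] at h
    omega

theorem values : SA 1 = 1 ∧ SB 1 = 1 ∧ SA 2 = 1 ∧ SB 2 = 2 ∧ SA 3 = 2 ∧ SB 3 = 2 ∧ SA 4 = 3 ∧ SB 4 = 3 ∧ SA 5 = 3 ∧
    SB 5 = 4 ∧ SA 6 = 3 ∧ SB 6 = 5 ∧ SA 7 = 4 ∧ SB 7 = 5 ∧ SA 8 = 4 ∧ SB 8 = 6 ∧ SA 9 = 5 ∧ SB 9 = 6 ∧ SA 10 = 6 ∧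
    SB 10 = 6 := by
  have a1 := SA_small 1 (by norm_num)
  have b1 := SB_small 1 (by norm_num)
  have a2 : SA 2 = 1 := by
    have := isRec.eA 2 (by norm_num)
    norm_num [a1, b1] at this; omega
  have b2 : SB 2 = 2 := by
    have := isRec.eB 2 (by norm_num)
    norm_num [a1, b1, a2] at this; omega
  have a3 : SA 3 = 2 := by
    have := isRec.eA 3 (by norm_num)
    norm_num [a1, b1, a2, b2] at this; omega
  have b3 : SB 3 = 2 := by
    have := isRec.eB 3 (by norm_num)
    norm_num [a1, b1, a2, b2, a3] at this; omega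
  have a4 : SA 4 = 3 := by
    have := isRec.eA 4 (by norm_num)
    norm_num [a1, b1, a2, b2, a3, b3] at this; omega
  have b4 : SB 4 = 3 := by
    have := isRec.eB 4 (by norm_num)
    norm_num [a1, b1, a2, b2, a3, b3, a4] at this; omega
  have a5 : SA 5 = 3 := by
    have := isRec.eA 5 (by norm_num)
    norm_num [a1, b1, a2, b2, a3, b3, a4, b4] at this; omega
  have b5 : SB 5 = 4 := by
    have := isRec.eB 5 (by norm_num)
    norm_num [a1, b1, a2, b2, a3, b3, a4, b4, a5] at this; omega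
  have a6 : SA 6 = 3 := by
    have := isRec.eA 6 (by norm_num)
    norm_num [a1, b1, a2, b2, a3, b3, a4, b4, a5, b5] at this; omega
  have b6 : SB 6 = 5 := by
    have := isRec.eB 6 (by norm_num)
    norm_num [a1, b1, a2, b2, a3, b3, a4, b4, a5, b5, a6] at this; omega
  have a7 : SA 7 = 4 := by
    have := isRec.eA 7 (by norm_num)
    norm_num [a1, b1, a2, b2, a3, b3, a4, b4, a5, b5, a6, b6] at this; omega
  have b7 : SB 7 = 5 := by
    have := isRec.eB 7 (by norm_num)
    norm_num [a1, b1, a2, b2, a3, b3, a4, b4, a5, b5, a6, b6, a7] at this; omega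
  have a8 : SA 8 = 4 := by
    have := isRec.eA 8 (by norm_num)
    norm_num [a1, b1, a2, b2, a3, b3, a4, b4, a5, b5, a6, b6, a7, b7] at this; omega
  have b8 : SB 8 = 6 := by
    have := isRec.eB 8 (by norm_num)
    norm_num [a1, b1, a2, b2, a3, b3, a4, b4, a5, b5, a6, b6, a7, b7, a8] at this; omega
  have a9 : SA 9 = 5 := by
    have := isRec.eA 9 (by norm_num)
    norm_num [a1, b1, a2, b2, a3, b3, a4, b4, a5, b5, a6, b6, a7, b7, a8, b8] at this; omega
  have b9 : SB 9 = 6 := by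
    have := isRec.eB 9 (by norm_num)
    norm_num [a1, b1, a2, b2, a3, b3, a4, b4, a5, b5, a6, b6, a7, b7, a8, b8, a9] at this; omega
  have a10 : SA 10 = 6 := by
    have := isRec.eA 10 (by norm_num)
    norm_num [a1, b1, a2, b2, a3, b3, a4, b4, a5, b5, a6, b6, a7, b7, a8, b8, a9, b9] at this; omega
  have b10 : SB 10 = 6 := by
    have := isRec.eB 10 (by norm_num)
    norm_num [a1, b1, a2, b2, a3, b3, a4, b4, a5, b5, a6, b6, a7, b7, a8, b8, a9, b9, a10] at this; omega
  exact ⟨a1, b1, a2, b2, a3, b3, a4, b4, a5, b5, a6, b6, a7, b7, a8, b8, a9, b9, a10, b10⟩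

theorem pos_zero : Pos SA SB 3 0 := by
  obtain ⟨a1, b1, a2, b2, a3, b3, a4, b4, a5, b5, a6, b6, a7, b7, a8, b8, a9, b9, a10, b10⟩ := values
  refine ⟨by norm_num, by norm_num, fun x h1 h2 => ?_, fun x h1 h2 => ?_, fun x h1 h2 => ?_, a4, a10, a9⟩
  · norm_num at h1 h2
    interval_cases x <;> norm_num [*]
  · norm_num at h1 h2
    interval_cases x <;> norm_num [*]
  · norm_num at h1 h2
    interval_cases x <;> norm_num [*]

/-- `a_r` -/
def aR : ℕ → ℤ
  | 0 => 3
  | r + 1 => 4 * aR r - 1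

theorem aR_eq (r : ℕ) : 3 * aR r = 2 * 4 ^ (r + 1) + 1 := by
  induction r with
  | zero => norm_num [aR]
  | succ r ih =>
    rw [aR, pow_succ]
    linarith

theorem pos_all (r : ℕ) : Pos SA SB (aR r) r := by
  induction r with
  | zero => simpa [aR] using pos_zero
  | succ r ih =>
    have := pos_of_neg isRec (neg_of_pos isRec ih)
    rw [aR]
    push_cast
    exact this

theorem Pos.bounds {A B : ℤ → ℤ} {a r : ℤ} (hP : Pos A B a r) (x : ℤ) (h1 : 2 * a - r - 2 ≤ x) (h2 : x ≤ 4 * a - r - 2) :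
    A x ≤ x ∧ B x ≤ x := by
  have ha := hP.ha
  have s0 := hP.sum (2 * a - r - 2) le_rfl (by omega)
  have s := hP.sum x h1 h2
  have m1 := (mono_of_inc hP.inc (2 * a - r - 2) x le_rfl h1 h2).1
  have m2 := (mono_of_inc hP.incB (2 * a - r - 2) x le_rfl h1 h2).1
  have := hP.Au
  omega

theorem Neg.bounds {A B : ℤ → ℤ} {a r : ℤ} (hN : Neg A B a r) (x : ℤ) (h1 : 4 * a - r - 2 - 1 ≤ x)
    (h2 : x ≤ 8 * a - r - 5 - 1) : A (x + 1) ≤ x + 1 ∧ B x ≤ x := by
  have ha := hN.ha
  have hr := hN.hr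
  have s := hN.sum x h1 h2
  have m1 := mono_of_inc (f := B) (x := 4 * a - r - 2 - 1) (y := 8 * a - r - 5)
    (fun z hz1 hz2 => hN.inc z hz1 (by omega)) (4 * a - r - 2 - 1) x le_rfl h1 (by omega)
  rw [hN.Bv] at m1
  omega

theorem bounds_upto (r : ℕ) : ∀ m : ℤ, 1 ≤ m → m ≤ 2 * aR r - r - 2 → SA m ≤ m ∧ SB m ≤ m := by
  induction r with
  | zero =>
    intro m h1 h2
    obtain ⟨a1, b1, a2, b2, a3, b3, a4, b4, -⟩ := values
    norm_num [aR] at h2
    interval_cases m <;> norm_num [*]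
  | succ r ih =>
    intro m h1 h2
    have hP := pos_all r
    have hN := neg_of_pos isRec hP
    have ha := hP.ha
    rw [aR] at h2
    push_cast at h2
    rcases le_or_gt m (2 * aR r - r - 2) with h3 | h3
    · exact ih m h1 h3
    · rcases le_or_gt m (4 * aR r - r - 2) with h4 | h4
      · exact hP.bounds m h3.le h4
      · have e1 := (hN.bounds (m - 1) (by omega) (by omega)).1
        rw [sub_add_cancel] at e1
        refine ⟨e1, ?_⟩
        rcases eq_or_lt_of_le h2 with h5 | h5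
        · have := hN.Bu
          rw [show 8 * aR r - (r : ℤ) - 5 = m by omega] at this
          omega
        · exact (hN.bounds m (by omega) (by omega)).2

theorem bounds_all (m : ℤ) (hm : 1 ≤ m) : SA m ≤ m ∧ SB m ≤ m := by
  have := (pos_all m.toNat).ha
  exact bounds_upto m.toNat m hm (by omega)

theorem Q_le (n : ℤ) (hn : 1 ≤ n) : Q n ≤ n := by
  rcases Int.even_or_odd' n with ⟨m, rfl | rfl⟩
  · have := (bounds_all m (by omega)).2
    rw [SB_eq]
    omega
  · have := (bounds_all (m + 1) (by omega)).1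
    rw [show 2 * m + 1 = 2 * (m + 1) - 1 by ring, SA_eq]
    omega

/-- the defining conditions, with well-definedness -/
def IsQ (f : ℤ → ℤ) : Prop :=
  f 1 = 1 ∧ f 2 = 1 ∧ ∀ n : ℤ, 3 ≤ n → (1 ≤ f (n - 1) ∧ f (n - 1) ≤ n - 1) ∧ (1 ≤ f (n - 2) ∧ f (n - 2) ≤ n - 1) ∧
    f n = f (n - f (n - 1)) + f (n - f (n - 2)) + (-1) ^ n.toNat

theorem isQ : IsQ Q := by
  refine ⟨Q_small 1 (by norm_num), Q_small 2 (by norm_num), fun n hn => ⟨⟨Q_pos _, Q_le _ (by omega)⟩,
    ⟨Q_pos _, ?_⟩, Q_rec n hn⟩⟩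
  have := Q_le (n - 2) (by omega)
  omega

theorem IsQ.unique {f g : ℤ → ℤ} (hf : IsQ f) (hg : IsQ g) : ∀ n : ℤ, 1 ≤ n → f n = g n := by
  have key : ∀ k : ℕ, ∀ n : ℤ, 1 ≤ n → n ≤ k → f n = g n := by
    intro k
    induction k with
    | zero => intro n h1 h2; push_cast at h2; omega
    | succ k ih =>
      intro n h1 h2
      push_cast at h2
      rcases le_or_gt n 2 with h | h
      · interval_cases n
        · rw [hf.1, hg.1]
        · rw [hf.2.1, hg.2.1]
      · obtain ⟨⟨f1, f2⟩, ⟨f3, f4⟩, f5⟩ := hf.2.2 n (by omega)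
        obtain ⟨⟨g1, g2⟩, ⟨g3, g4⟩, g5⟩ := hg.2.2 n (by omega)
        rw [f5, g5]
        rw [← ih (n - 1) (by omega) (by omega), ← ih (n - 2) (by omega) (by omega),
          ih (n - f (n - 1)) (by omega) (by omega), ih (n - f (n - 2)) (by omega) (by omega)]
  intro n hn
  exact key n.toNat n hn (by omega)

/-- the sign at odd places -/
theorem sign_eq (m : ℤ) : (Q (2 * m) - Q (2 * m - 1)).sign = (SB m - SA m).sign := by
  rw [SA_eq, SB_eq, show 2 * SB m - 1 - (2 * SA m - 1) = 2 * (SB m - SA m) by ring, Int.sign_mul,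
    show Int.sign 2 = 1 from rfl, one_mul]

theorem sign_u (r : ℕ) : (SB (2 * aR r - r - 2) - SA (2 * aR r - r - 2)).sign = 0 := by
  have hP := pos_all r
  have := hP.Au
  have ha := hP.ha
  have s := hP.sum (2 * aR r - r - 2) le_rfl (by omega)
  rw [this] at s
  rw [this, show SB (2 * aR r - r - 2) = aR r by omega]
  simp

theorem sign_mid (r : ℕ) (m : ℤ) (h1 : 2 * aR r - r - 2 < m) (h2 : m < 4 * aR r - r - 2) : (SB m - SA m).sign = 1 := by
  have hP := pos_all r
  have s := hP.sum m h1.le h2.le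
  have l := hP.lt m h1 h2
  exact Int.sign_eq_one_of_pos (by omega)

open Q264.Gap in
/-- **The sign sequence is not eventually 4-regular.** -/
theorem main (t : ℕ → ℤ) (ht : (Submodule.span ℤ (kernel 4 t)).FG) (N : ℕ)
    (hN : ∀ n : ℕ, N ≤ n → 1 ≤ n → t n = (Q (n + 1) - Q n).sign) : False := by
  classical
  -- the sequence at the odd places, modulo 3
  set c : ℕ → ZMod 3 := fun n => ((t (2 * n + 1) : ℤ) : ZMod 3) with hc
  have h1 := finite_mod (m := 3) (by norm_num) _ ht
  have hfin : (kernel 4 c).Finite := by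
    refine ((h1.prod (Set.finite_Iio 2)).image fun p : (ℕ → ZMod 3) × ℕ => fun n : ℕ => p.1 (2 * n + p.2)).subset ?_
    rintro _ ⟨e, r, hr, rfl⟩
    refine ⟨(fun n => ((t (4 ^ e * n + (2 * r + 1) % 4 ^ e) : ℤ) : ZMod 3), (2 * r + 1) / 4 ^ e), ⟨⟨_, ⟨e, (2 * r + 1) % 4 ^ e,
      Nat.mod_lt _ (by positivity), rfl⟩, rfl⟩, ?_⟩, ?_⟩
    · change (2 * r + 1) / 4 ^ e < 2
      rw [Nat.div_lt_iff_lt_mul (by positivity)]
      omega
    · funext n
      simp only [hc]
      congr 2
      have := Nat.div_add_mod (2 * r + 1) (4 ^ e)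
      calc 4 ^ e * (2 * n + (2 * r + 1) / 4 ^ e) + (2 * r + 1) % 4 ^ e
          = 4 ^ e * (2 * n) + (4 ^ e * ((2 * r + 1) / 4 ^ e) + (2 * r + 1) % 4 ^ e) := by ring
        _ = _ := by rw [this]; ring
  obtain ⟨M, hM⟩ := starts_bound (by norm_num) hfin
  -- the starts
  have hx : ∀ r : ℕ, ∃ x : ℕ, (x : ℤ) = 2 * aR r - r - 3 := by
    intro r
    have := (pos_all r).ha
    exact ⟨(2 * aR r - r - 3).toNat, by omega⟩
  choose x hx using hx
  have hxr : ∀ r, r ≤ x r := by
    intro r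
    have := (pos_all r).ha
    have := hx r
    omega
  have hval : ∀ n : ℕ, N ≤ n → c n = (((SB (n + 1) - SA (n + 1)).sign : ℤ) : ZMod 3) := by
    intro n hn
    simp only [hc]
    rw [hN (2 * n + 1) (by omega) (by omega), ← sign_eq]
    push_cast
    rw [show 2 * (n : ℤ) + 1 + 1 = 2 * (n + 1) by ring, show 2 * ((n : ℤ) + 1) - 1 = 2 * n + 1 by ring]
  have hstart : ∀ (e r : ℕ), N ≤ r → e ≤ r → Start c (4 ^ e) (x r) := by
    intro e r hr her
    have hxr' := hx r
    have hlen : (4 : ℤ) ^ e < 2 * aR r := by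
      have h2 := aR_eq r
      have h3 : (4 : ℤ) ^ e ≤ 4 ^ r := pow_le_pow_right₀ (by norm_num) her
      have h4 : (0 : ℤ) < 4 ^ e := by positivity
      rw [pow_succ] at h2
      omega
    have hone : ∀ y : ℕ, x r < y → y ≤ x r + 4 ^ e → c y = 1 := by
      intro y hy1 hy2
      have := hxr r
      rw [hval y (by omega), sign_mid r]
      · norm_num
      · omega
      · have : (y : ℤ) ≤ x r + 4 ^ e := by exact_mod_cast hy2
        omega
    have h1e : 1 ≤ 4 ^ e := Nat.one_le_pow _ _ (by norm_num)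
    have hone1 := hone (x r + 1) (by omega) (by omega)
    refine ⟨?_, fun y hy1 hy2 => ?_⟩
    · rw [hone1]
      have := hxr r
      rw [hval (x r) (by omega), hxr', show 2 * aR r - (r : ℤ) - 3 + 1 = 2 * aR r - r - 2 by ring, sign_u]
      decide
    · rw [hone1]
      exact hone y hy1 hy2
  -- many residues
  obtain ⟨e, he⟩ : ∃ e : ℕ, M < 4 ^ e := ⟨M, Nat.lt_pow_self (by norm_num)⟩
  have hbound := hM e ((Finset.range (M + 1)).image fun j => x (N + e + j)) (by
    intro y hy
    obtain ⟨j, -, rfl⟩ := Finset.mem_image.1 hy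
    exact hstart e _ (by omega) (by omega))
  rw [Finset.image_image, Finset.card_image_of_injOn, Finset.card_range] at hbound
  · omega
  · intro i hi j hj hij
    simp only [Finset.coe_range, Set.mem_Iio, Function.comp] at hi hj hij
    have h3x : ∀ j : ℕ, (((4 ^ e : ℕ) : ℤ)) ∣ (3 * (x (N + e + j) : ℤ) + 3 * (N + e + j) + 7) := by
      intro j
      have h2 := aR_eq (N + e + j)
      have h3 := hx (N + e + j)
      refine ⟨4 ^ (N + j + 2), ?_⟩
      push_cast at h3 ⊢
      rw [h3]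
      have : (4 : ℤ) ^ e * 4 ^ (N + j + 2) = 4 * 4 ^ (N + e + j + 1) := by ring
      rw [this]
      linarith
    have hmod : ((4 ^ e : ℕ) : ℤ) ∣ ((x (N + e + i) : ℤ) - x (N + e + j)) := by
      exact (Nat.modEq_iff_dvd.1 (show x (N + e + j) ≡ x (N + e + i) [MOD 4 ^ e] from hij.symm))
    have h5 : ((4 ^ e : ℕ) : ℤ) ∣ 3 * ((i : ℤ) - j) := by
      have h6 := dvd_sub (h3x i) (h3x j)
      have h7 := dvd_sub h6 (hmod.mul_left 3)
      refine Q264.Gap.dvd_conv h7 ?_
      ring
    have hcop : IsCoprime ((4 ^ e : ℕ) : ℤ) 3 := by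
      rw [Nat.cast_pow]
      exact IsCoprime.pow_left (by norm_num [Int.isCoprime_iff_gcd_eq_one])
    have h6 := hcop.dvd_of_dvd_mul_left h5
    by_contra hne
    have h7 : (i : ℤ) - j ≠ 0 := by
      intro h8
      exact hne (by omega)
    have h8 := Int.le_of_dvd (abs_pos.2 h7) ((dvd_abs _ _).2 h6)
    have h9 : |(i : ℤ) - j| < 4 ^ e := by
      rw [abs_lt]
      have : (M : ℤ) < 4 ^ e := by exact_mod_cast he
      constructor <;> omega
    push_cast at h8
    omega

end Q264.PertQ
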