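import Mathlib

/-!
# Coloured 4-ary partitions: the generating function
-/

set_option autoImplicit false

namespace Q264.Quad

open PowerSeries Finset

/-- `1 / (1 - x ^ j)` -/
def geo (j : ℕ) : PowerSeries ℤ := PowerSeries.mk fun n => if j ∣ n then 1 else 0

theorem coeff_geo (j n : ℕ) : coeff n (geo j) = if j ∣ n then 1 else 0 := by
  simp [geo]

theorem geo_mul (j : ℕ) (hj : 1 ≤ j) : (1 - X ^ j) * geo j = 1 := by
  ext n
  rw [sub_mul, one_mul, map_sub, coeff_X_pow_mul', coeff_geo, coeff_one]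
  rcases Nat.eq_zero_or_pos n with rfl | hn
  · rw [if_pos (dvd_zero _), if_neg (by omega), if_pos rfl, sub_zero]
  · rw [if_neg (show n ≠ 0 by omega)]
    by_cases h1 : j ≤ n
    · rw [if_pos h1, coeff_geo]
      have : (j ∣ n - j) ↔ (j ∣ n) := by
        constructor
        · intro h
          have := dvd_add h (dvd_refl j)
          rwa [Nat.sub_add_cancel h1] at this
        · intro h
          exact Nat.dvd_sub h (dvd_refl j)
      by_cases h2 : j ∣ n
      · rw [if_pos h2, if_pos (this.2 h2)]; ring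
      · rw [if_neg h2, if_neg (fun h => h2 (this.1 h))]; ring
    · rw [if_neg h1, if_neg]
      · ring
      · intro h2
        exact h1 (Nat.le_of_dvd hn h2)

/-- the coefficients of `(1 - x)^{-m} ∏_i (1 - x^{4^i})^{-3m}` -/
noncomputable def SZ (m n : ℕ) : ℤ :=
  coeff n (geo 1 ^ m * ∏ i ∈ range (n + 1), geo (4 ^ i) ^ (m * 3))

noncomputable def FN (N : ℕ) : PowerSeries ℤ := geo 1 * ∏ i ∈ range N, geo (4 ^ i) ^ 3

theorem FN_pow (N m : ℕ) : FN N ^ m = geo 1 ^ m * ∏ i ∈ range N, geo (4 ^ i) ^ (m * 3) := by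
  unfold FN
  rw [mul_pow, ← Finset.prod_pow]
  congr 1
  refine Finset.prod_congr rfl fun i _ => ?_
  rw [← pow_mul, mul_comm]

/-- congruence modulo `X ^ d` -/
def Cg (d : ℕ) (f g : PowerSeries ℤ) : Prop := X ^ d ∣ f - g

theorem Cg.coeff {d : ℕ} {f g : PowerSeries ℤ} (h : Cg d f g) {n : ℕ} (hn : n < d) : coeff n f = coeff n g := by
  have := (X_pow_dvd_iff.1 h) n hn
  rw [map_sub] at this
  linarith

theorem cg_of_coeff {d : ℕ} {f g : PowerSeries ℤ} (h : ∀ n < d, coeff n f = coeff n g) : Cg d f g := by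
  unfold Cg
  rw [X_pow_dvd_iff]
  intro n hn
  rw [map_sub, h n hn, sub_self]

theorem Cg.rfl' {d : ℕ} (f : PowerSeries ℤ) : Cg d f f := by
  unfold Cg
  rw [sub_self]
  exact dvd_zero _

theorem Cg.symm' {d : ℕ} {f g : PowerSeries ℤ} (h : Cg d f g) : Cg d g f := by
  unfold Cg at *
  rw [← neg_sub]
  exact (dvd_neg).2 h

theorem Cg.trans' {d : ℕ} {f g h : PowerSeries ℤ} (h1 : Cg d f g) (h2 : Cg d g h) : Cg d f h := by
  unfold Cg at *
  have := dvd_add h1 h2
  rwa [sub_add_sub_cancel] at this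

theorem Cg.mul' {d : ℕ} {f g f' g' : PowerSeries ℤ} (h1 : Cg d f g) (h2 : Cg d f' g') : Cg d (f * f') (g * g') := by
  unfold Cg at *
  have e : f * f' - g * g' = f * (f' - g') + g' * (f - g) := by ring
  rw [e]
  exact dvd_add (Dvd.dvd.mul_left h2 _) (Dvd.dvd.mul_left h1 _)

theorem Cg.pow' {d : ℕ} {f g : PowerSeries ℤ} (h : Cg d f g) (m : ℕ) : Cg d (f ^ m) (g ^ m) := by
  induction m with
  | zero => simp only [pow_zero]; exact Cg.rfl' _
  | succ m ih => rw [pow_succ, pow_succ]; exact ih.mul' h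

theorem geo_cg (d j : ℕ) (h : d ≤ j) : Cg d (geo j) 1 := by
  refine cg_of_coeff fun n hn => ?_
  rw [coeff_geo, coeff_one]
  rcases Nat.eq_zero_or_pos n with rfl | hn'
  · simp
  · rw [if_neg, if_neg (by omega)]
    intro h2
    exact absurd (Nat.le_of_dvd hn' h2) (by omega)

theorem FN_cg (d N : ℕ) (h : d ≤ N) : Cg d (FN N) (FN d) := by
  induction N with
  | zero =>
    obtain rfl : d = 0 := by omega
    exact Cg.rfl' _
  | succ N ih =>
    rcases eq_or_lt_of_le h with h1 | h1
    · rw [h1]; exact Cg.rfl' _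
    · have e : FN (N + 1) = FN N * geo (4 ^ N) ^ 3 := by
        unfold FN
        rw [Finset.prod_range_succ, mul_assoc]
      rw [e]
      have h2 : Cg d (geo (4 ^ N) ^ 3) 1 := by
        have := (geo_cg d (4 ^ N) (by
          have : N < 4 ^ N := Nat.lt_pow_self (by norm_num)
          omega)).pow' 3
        rwa [one_pow] at this
      have := (ih (by omega)).mul' h2
      rwa [mul_one] at this

/-- the generating function for `m = 1` -/
noncomputable def F : PowerSeries ℤ := PowerSeries.mk fun n => coeff n (FN (n + 1))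

theorem F_cg (N : ℕ) : Cg N F (FN N) := by
  refine cg_of_coeff fun n hn => ?_
  unfold F
  rw [coeff_mk]
  exact ((FN_cg (n + 1) N (by omega)).coeff (by omega)).symm

theorem F_pow (m n : ℕ) : coeff n (F ^ m) = SZ m n := by
  unfold SZ
  rw [← FN_pow]
  exact ((F_cg (n + 1)).pow' m).coeff (by omega)

noncomputable abbrev E (f : PowerSeries ℤ) : PowerSeries ℤ := expand 4 (by norm_num) f

theorem E_geo (j : ℕ) : E (geo j) = geo (4 * j) := by
  ext n
  rw [E, coeff_expand, coeff_geo, coeff_geo]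
  by_cases h : 4 ∣ n
  · obtain ⟨q, rfl⟩ := h
    rw [if_pos (dvd_mul_right _ _), Nat.mul_div_cancel_left _ (by norm_num)]
    simp only [Nat.mul_dvd_mul_iff_left (show 0 < 4 by norm_num)]
  · rw [if_neg h, if_neg]
    intro h2
    exact h ((dvd_mul_right 4 j).trans h2)

theorem E_cg {d : ℕ} {f g : PowerSeries ℤ} (h : Cg d f g) : Cg d (E f) (E g) := by
  refine cg_of_coeff fun n hn => ?_
  rw [E, E, coeff_expand, coeff_expand]
  split_ifs with h1
  · exact h.coeff (lt_of_le_of_lt (Nat.div_le_self _ _) hn)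
  · rfl

theorem FN_eq (N : ℕ) : FN (N + 1) * (1 - X) ^ 4 = (1 - X ^ 4) * E (FN N) := by
  have h1 := geo_mul 1 le_rfl
  have h4 := geo_mul 4 (by norm_num)
  rw [pow_one] at h1
  have e1 : E (FN N) = geo 4 * ∏ i ∈ range N, geo (4 ^ (i + 1)) ^ 3 := by
    unfold FN
    rw [E, map_mul, map_prod]
    congr 1
    · have := E_geo 1
      rw [mul_one] at this
      exact this
    · refine Finset.prod_congr rfl fun i _ => ?_
      rw [map_pow]
      have := E_geo (4 ^ i)
      rw [show 4 * 4 ^ i = 4 ^ (i + 1) by rw [pow_succ, mul_comm]] at this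
      rw [E] at this
      rw [this]
  rw [e1]
  unfold FN
  rw [Finset.prod_range_succ', pow_zero]
  calc geo 1 * ((∏ i ∈ range N, geo (4 ^ (i + 1)) ^ 3) * geo 1 ^ 3) * (1 - X) ^ 4
      = (∏ i ∈ range N, geo (4 ^ (i + 1)) ^ 3) * ((1 - X) * geo 1) ^ 4 := by ring
    _ = (∏ i ∈ range N, geo (4 ^ (i + 1)) ^ 3) * ((1 - X ^ 4) * geo 4) := by rw [h1, h4, one_pow]
    _ = _ := by ring

/-- the functional equation -/
theorem F_eq : F * (1 - X) ^ 4 = (1 - X ^ 4) * E F := by
  have key : ∀ N, Cg N (F * (1 - X) ^ 4) ((1 - X ^ 4) * E F) := by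
    intro N
    have h1 : Cg N (F * (1 - X) ^ 4) (FN (N + 1) * (1 - X) ^ 4) := by
      refine Cg.mul' ?_ (Cg.rfl' _)
      exact (F_cg N).trans' (FN_cg N (N + 1) (by omega)).symm'
    rw [FN_eq] at h1
    refine h1.trans' ?_
    exact Cg.mul' (Cg.rfl' _) (E_cg (F_cg N)).symm'
  ext n
  exact (key (n + 1)).coeff (by omega)

theorem F_zero : constantCoeff F = 1 := by
  have h := (F_cg 1).coeff (show 0 < 1 by norm_num)
  rw [coeff_zero_eq_constantCoeff_apply, coeff_zero_eq_constantCoeff_apply] at h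
  rw [h]
  unfold FN
  rw [map_mul, map_prod]
  have : ∀ j, constantCoeff (geo j) = 1 := by
    intro j
    rw [← coeff_zero_eq_constantCoeff_apply, coeff_geo, if_pos (dvd_zero _)]
  simp [this]

/-- a series invariant under `x ↦ x ^ 4` is constant -/
theorem const_of_expand {R : Type*} [CommRing R] (f : PowerSeries R) (h : f = expand 4 (by norm_num) f) :
    f = C (constantCoeff f) := by
  ext n
  induction n using Nat.strong_induction_on with
  | _ n ih =>
    rcases Nat.eq_zero_or_pos n with rfl | hn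
    · simp
    · rw [h, coeff_expand]
      have hc : coeff n (C (constantCoeff f)) = 0 := by
        rw [coeff_C, if_neg (by omega)]
      split_ifs with h4
      · rw [ih (n / 4) (Nat.div_lt_self hn (by norm_num))]
        have : n / 4 ≠ 0 := by
          obtain ⟨q, rfl⟩ := h4
          omega
        rw [coeff_C, if_neg this, coeff_C, if_neg (by omega)]
      · rw [coeff_C, if_neg (by omega)]

/-- `F = 1` modulo `2` -/
theorem F_mod_two : ∃ U : PowerSeries ℤ, F = 1 + 2 * U := by
  set φ := Int.castRingHom (ZMod 2) with hφ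
  have h1 : PowerSeries.map φ F = 1 := by
    have h := congrArg (PowerSeries.map φ) F_eq
    rw [map_mul, map_mul, map_pow, map_sub, map_sub, map_one, map_pow, map_X] at h
    have h2 : PowerSeries.map φ (E F) = expand 4 (by norm_num) (PowerSeries.map φ F) := by
      rw [E, map_expand]
    rw [h2] at h
    have h3 : ((1 : PowerSeries (ZMod 2)) - X) ^ 4 = 1 - X ^ 4 := by
      have h4 : (2 : PowerSeries (ZMod 2)) = 0 := by
        have : (2 : ZMod 2) = 0 := rfl
        rw [← map_ofNat (C (R := ZMod 2)) 2, this, map_zero]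
      linear_combination (-2 * X + 3 * X ^ 2 - 2 * X ^ 3 + X ^ 4) * h4
    rw [h3, mul_comm] at h
    have h5 : (1 - X ^ 4 : PowerSeries (ZMod 2)) ≠ 0 := by
      intro h6
      have := congrArg (constantCoeff (R := ZMod 2)) h6
      simp at this
    have h7 := mul_left_cancel₀ h5 h
    have h8 := const_of_expand _ h7
    rw [h8]
    have : constantCoeff (PowerSeries.map φ F) = 1 := by
      rw [← coeff_zero_eq_constantCoeff_apply, coeff_map, coeff_zero_eq_constantCoeff_apply, F_zero, map_one]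
    rw [this, map_one]
  have h2 : ∀ n, ∃ u : ℤ, coeff n F - coeff n (1 : PowerSeries ℤ) = 2 * u := by
    intro n
    have := congrArg (coeff n) h1
    rw [coeff_map] at this
    have h3 : (((coeff n F - coeff n (1 : PowerSeries ℤ) : ℤ)) : ZMod 2) = 0 := by
      push_cast
      have h4 : ((coeff n F : ℤ) : ZMod 2) = coeff n (1 : PowerSeries (ZMod 2)) := this
      rw [h4, coeff_one, coeff_one]
      split_ifs <;> simp
    exact (ZMod.intCast_zmod_eq_zero_iff_dvd _ 2).1 h3
  choose u hu using h2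
  refine ⟨PowerSeries.mk u, ?_⟩
  ext n
  rw [map_add, show (2 : PowerSeries ℤ) = C 2 from (map_ofNat C 2).symm, coeff_C_mul, coeff_mk, ← hu]
  ring

end Q264.Quad
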