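import Pool.Agent.Q264.QuadV

/-!
# Coloured 4-ary partitions: the inverse series and the powers
-/

set_option autoImplicit false

namespace Q264.Quad

open PowerSeries Finset

/-- the sign pattern `1, -3, 3, -1` -/
def eps (d : ℕ) : ℤ := if d = 0 then 1 else if d = 1 then -3 else if d = 2 then 3 else -1

/-- the coefficients of `∏ (1 - x ^ (4 ^ i)) ^ 3` -/
def c (n : ℕ) : ℤ := if h : n = 0 then 1 else eps (n % 4) * c (n / 4)
decreasing_by exact Nat.div_lt_self (Nat.pos_of_ne_zero h) (by norm_num)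

theorem c_zero : c 0 = 1 := by
  rw [c]; simp

theorem c_digit (q d : ℕ) (hd : d < 4) : c (4 * q + d) = eps d * c q := by
  by_cases h : 4 * q + d = 0
  · obtain ⟨rfl, rfl⟩ : q = 0 ∧ d = 0 := by omega
    simp [c_zero, eps]
  · rw [c, dif_neg h, show (4 * q + d) % 4 = d by omega, show (4 * q + d) / 4 = q by omega]

theorem c_d0 (q : ℕ) : c (4 * q) = c q := by
  have := c_digit q 0 (by norm_num)
  simpa [eps] using this

theorem c_d1 (q : ℕ) : c (4 * q + 1) = -3 * c q := by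
  have := c_digit q 1 (by norm_num)
  simpa [eps] using this

theorem c_d2 (q : ℕ) : c (4 * q + 2) = 3 * c q := by
  have := c_digit q 2 (by norm_num)
  simpa [eps] using this

theorem c_d3 (q : ℕ) : c (4 * q + 3) = -c q := by
  have := c_digit q 3 (by norm_num)
  simpa [eps] using this

theorem c_odd (n : ℕ) : c n % 2 = 1 := by
  induction n using Nat.strong_induction_on with
  | _ n ih =>
    rcases Nat.eq_zero_or_pos n with rfl | hn
    · rw [c_zero]; norm_num
    · have h := ih (n / 4) (Nat.div_lt_self hn (by norm_num))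
      rcases (show n = 4 * (n / 4) ∨ n = 4 * (n / 4) + 1 ∨ n = 4 * (n / 4) + 2 ∨ n = 4 * (n / 4) + 3 by omega) with
        h1 | h1 | h1 | h1
      · rw [h1, c_d0]; exact h
      · rw [h1, c_d1]; omega
      · rw [h1, c_d2]; omega
      · rw [h1, c_d3]; omega

noncomputable def Cs : PowerSeries ℤ := PowerSeries.mk c

theorem Cs_eq : Cs = (1 - X) ^ 3 * E Cs := by
  have e : (1 - X) ^ 3 * E Cs = E Cs - C 3 * (X ^ 1 * E Cs) + C 3 * (X ^ 2 * E Cs) - X ^ 3 * E Cs := by
    rw [show (C (3 : ℤ) : PowerSeries ℤ) = 3 from map_ofNat C 3]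
    ring
  rw [e]
  have hE : ∀ n, coeff n (E Cs) = if 4 ∣ n then c (n / 4) else 0 := by
    intro n
    rw [E, coeff_expand]
    unfold Cs
    rw [coeff_mk]
  ext n
  rw [map_sub, map_add, map_sub, coeff_C_mul, coeff_C_mul, coeff_X_pow_mul', coeff_X_pow_mul', coeff_X_pow_mul']
  simp only [hE]
  conv_lhs => rw [Cs, coeff_mk]
  rcases (show n = 4 * (n / 4) ∨ n = 4 * (n / 4) + 1 ∨ n = 4 * (n / 4) + 2 ∨ n = 4 * (n / 4) + 3 by omega) with
    h1 | h1 | h1 | h1
  · rw [if_pos (show 4 ∣ n by omega)]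
    have a1 : (if 1 ≤ n then if 4 ∣ n - 1 then c ((n - 1) / 4) else 0 else 0) = 0 := by
      split_ifs <;> first | rfl | omega
    have a2 : (if 2 ≤ n then if 4 ∣ n - 2 then c ((n - 2) / 4) else 0 else 0) = 0 := by
      split_ifs <;> first | rfl | omega
    have a3 : (if 3 ≤ n then if 4 ∣ n - 3 then c ((n - 3) / 4) else 0 else 0) = 0 := by
      split_ifs <;> first | rfl | omega
    rw [a1, a2, a3]
    conv_lhs => rw [h1, c_d0]
    ring
  · have a1 : (if 1 ≤ n then if 4 ∣ n - 1 then c ((n - 1) / 4) else 0 else 0) = c (n / 4) := by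
      rw [if_pos (by omega), if_pos (by omega), show (n - 1) / 4 = n / 4 by omega]
    have a2 : (if 2 ≤ n then if 4 ∣ n - 2 then c ((n - 2) / 4) else 0 else 0) = 0 := by
      split_ifs <;> first | rfl | omega
    have a3 : (if 3 ≤ n then if 4 ∣ n - 3 then c ((n - 3) / 4) else 0 else 0) = 0 := by
      split_ifs <;> first | rfl | omega
    rw [a1, a2, a3, if_neg (by omega)]
    conv_lhs => rw [h1, c_d1]
    ring
  · have a1 : (if 1 ≤ n then if 4 ∣ n - 1 then c ((n - 1) / 4) else 0 else 0) = 0 := by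
      split_ifs <;> first | rfl | omega
    have a2 : (if 2 ≤ n then if 4 ∣ n - 2 then c ((n - 2) / 4) else 0 else 0) = c (n / 4) := by
      rw [if_pos (by omega), if_pos (by omega), show (n - 2) / 4 = n / 4 by omega]
    have a3 : (if 3 ≤ n then if 4 ∣ n - 3 then c ((n - 3) / 4) else 0 else 0) = 0 := by
      split_ifs <;> first | rfl | omega
    rw [a1, a2, a3, if_neg (by omega)]
    conv_lhs => rw [h1, c_d2]
    ring
  · have a1 : (if 1 ≤ n then if 4 ∣ n - 1 then c ((n - 1) / 4) else 0 else 0) = 0 := by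
      split_ifs <;> first | rfl | omega
    have a2 : (if 2 ≤ n then if 4 ∣ n - 2 then c ((n - 2) / 4) else 0 else 0) = 0 := by
      split_ifs <;> first | rfl | omega
    have a3 : (if 3 ≤ n then if 4 ∣ n - 3 then c ((n - 3) / 4) else 0 else 0) = c (n / 4) := by
      rw [if_pos (by omega), if_pos (by omega), show (n - 3) / 4 = n / 4 by omega]
    rw [a1, a2, a3, if_neg (by omega)]
    conv_lhs => rw [h1, c_d3]
    ring

noncomputable def G : PowerSeries ℤ := (1 - X) * Cs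

theorem F_mul_G : F * G = 1 := by
  have h : F * G = E (F * G) := by
    calc F * G = F * (1 - X) * Cs := by unfold G; ring
      _ = F * (1 - X) * ((1 - X) ^ 3 * E Cs) := by rw [← Cs_eq]
      _ = F * (1 - X) ^ 4 * E Cs := by ring
      _ = (1 - X ^ 4) * E F * E Cs := by rw [F_eq]
      _ = E F * ((1 - X ^ 4) * E Cs) := by ring
      _ = E F * E G := by
        congr 1
        unfold G
        simp only [E, map_mul, map_sub, map_one, expand_X]
      _ = E (F * G) := by simp only [E, map_mul]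
  have h1 := const_of_expand (F * G) h
  rw [h1]
  have h2 : constantCoeff (F * G) = 1 := by
    rw [map_mul, F_zero, one_mul]
    unfold G
    rw [map_mul]
    have : constantCoeff Cs = 1 := by
      rw [← coeff_zero_eq_constantCoeff_apply, Cs, coeff_mk, c_zero]
    rw [this]
    simp
  rw [h2, map_one]

noncomputable def g (n : ℕ) : ℤ := coeff n G

theorem g_succ (n : ℕ) : g (n + 1) = c (n + 1) - c n := by
  unfold g G
  rw [show (1 - X) * Cs = Cs - X ^ 1 * Cs by ring, map_sub, coeff_X_pow_mul', if_pos (by omega), Cs,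
    coeff_mk, coeff_mk]
  simp

/-- the companion sums -/
def gp (n : ℕ) : ℤ := c n + c (n - 1)

theorem g_pos {n : ℕ} (hn : 1 ≤ n) : g n = c n - c (n - 1) := by
  obtain ⟨k, rfl⟩ := Nat.exists_eq_add_of_le' hn
  rw [g_succ]; rfl

theorem c_four_sub {n : ℕ} (hn : 1 ≤ n) : c (4 * n - 1) = -c (n - 1) := by
  obtain ⟨k, rfl⟩ := Nat.exists_eq_add_of_le' hn
  rw [show 4 * (k + 1) - 1 = 4 * k + 3 by omega, c_d3]; rfl

theorem g_four {n : ℕ} (hn : 1 ≤ n) : g (4 * n) = gp n := by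
  rw [g_pos (by omega), c_four_sub hn, c_d0, gp]; ring

theorem gp_four {n : ℕ} (hn : 1 ≤ n) : gp (4 * n) = g n := by
  rw [g_pos hn, gp, c_four_sub hn, c_d0]; ring

theorem g_base {r : ℕ} (hr : r % 4 ≠ 0) : (r % 2 = 1 → g r % 8 = 4) ∧ (r % 4 = 2 → g r % 4 = 2) := by
  have h := c_odd (r / 4)
  rw [g_pos (by omega)]
  rcases (show r = 4 * (r / 4) + 1 ∨ r = 4 * (r / 4) + 2 ∨ r = 4 * (r / 4) + 3 by omega) with
    h1 | h1 | h1
  · refine ⟨fun _ => ?_, fun h2 => by omega⟩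
    rw [h1, show 4 * (r / 4) + 1 - 1 = 4 * (r / 4) by omega, c_d1, c_d0]
    omega
  · refine ⟨fun h2 => by omega, fun _ => ?_⟩
    rw [h1, show 4 * (r / 4) + 2 - 1 = 4 * (r / 4) + 1 by omega, c_d1, c_d2]
    omega
  · refine ⟨fun _ => ?_, fun h2 => by omega⟩
    rw [h1, show 4 * (r / 4) + 3 - 1 = 4 * (r / 4) + 2 by omega, c_d3, c_d2]
    omega

theorem gp_base {r : ℕ} (hr : r % 4 ≠ 0) : (r % 2 = 1 → gp r % 4 = 2) ∧ (r % 4 = 2 → gp r = 0) := by
  have h := c_odd (r / 4)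
  unfold gp
  rcases (show r = 4 * (r / 4) + 1 ∨ r = 4 * (r / 4) + 2 ∨ r = 4 * (r / 4) + 3 by omega) with
    h1 | h1 | h1
  · refine ⟨fun _ => ?_, fun h2 => by omega⟩
    rw [h1, show 4 * (r / 4) + 1 - 1 = 4 * (r / 4) by omega, c_d1, c_d0]
    omega
  · refine ⟨fun h2 => by omega, fun _ => ?_⟩
    rw [h1, show 4 * (r / 4) + 2 - 1 = 4 * (r / 4) + 1 by omega, c_d1, c_d2]
    ring
  · refine ⟨fun _ => ?_, fun h2 => by omega⟩
    rw [h1, show 4 * (r / 4) + 3 - 1 = 4 * (r / 4) + 2 by omega, c_d3, c_d2]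
    omega

theorem g_shape (i r : ℕ) (hr : 1 ≤ r) : (i % 2 = 0 → g (4 ^ i * r) = g r ∧ gp (4 ^ i * r) = gp r) ∧
    (i % 2 = 1 → g (4 ^ i * r) = gp r ∧ gp (4 ^ i * r) = g r) := by
  induction i with
  | zero => simp
  | succ i ih =>
    have e : 4 ^ (i + 1) * r = 4 * (4 ^ i * r) := by rw [pow_succ]; ring
    have h1 : 1 ≤ 4 ^ i * r := Nat.mul_pos (by positivity) hr
    rw [e, g_four h1, gp_four h1]
    refine ⟨fun h => ?_, fun h => ?_⟩
    · obtain ⟨h2, h3⟩ := ih.2 (by omega)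
      exact ⟨h3, h2⟩
    · obtain ⟨h2, h3⟩ := ih.1 (by omega)
      exact ⟨h3, h2⟩

/-- `V G = V` modulo `2` -/
theorem VG_two (n : ℕ) : ∃ y : ℤ, coeff n (V * G) = v n + 2 * y := by
  obtain ⟨U, hU⟩ := F_mod_two
  have h := F_mul_G
  rw [hU] at h
  have e : V * G = V + C 2 * (-(U * V * G)) := by
    rw [show (C (2 : ℤ) : PowerSeries ℤ) = 2 from map_ofNat C 2]
    linear_combination V * h
  refine ⟨coeff n (-(U * V * G)), ?_⟩
  rw [e, map_add, coeff_C_mul]
  rfl

/-- squares modulo `2` -/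
theorem sq_two (f : PowerSeries ℤ) (n : ℕ) :
    ∃ y : ℤ, coeff n (f ^ 2) = (if 2 ∣ n then coeff (n / 2) f else 0) + 2 * y := by
  set φ := Int.castRingHom (ZMod 2) with hφ
  have h1 : (PowerSeries.map φ f) ^ 2 = expand 2 (by norm_num) (PowerSeries.map φ f) := by
    have h2 := MvPowerSeries.map_frobenius_expand (σ := Unit) (R := ZMod 2) 2 (by norm_num)
      (f := PowerSeries.map φ f)
    have h3 : frobenius (ZMod 2) 2 = RingHom.id _ := by
      ext x
      rw [frobenius_def, RingHom.id_apply, ZMod.pow_card]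
    rw [h3, MvPowerSeries.map_id] at h2
    exact h2.symm
  have h4 := congrArg (coeff n) h1
  rw [← map_pow, coeff_map, coeff_expand, coeff_map] at h4
  have h5 : ((coeff n (f ^ 2) - (if 2 ∣ n then coeff (n / 2) f else 0) : ℤ) : ZMod 2) = 0 := by
    push_cast
    have h6 : ((coeff n (f ^ 2) : ℤ) : ZMod 2) = if 2 ∣ n then ((coeff (n / 2) f : ℤ) : ZMod 2) else 0 := h4
    rw [h6]
    split_ifs <;> simp
  obtain ⟨y, hy⟩ := (ZMod.intCast_zmod_eq_zero_iff_dvd _ 2).1 h5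
  refine ⟨y, ?_⟩
  push_cast at hy
  linarith

theorem pow_odd_part (f : PowerSeries ℤ) (b : ℕ) : ∃ R : PowerSeries ℤ,
    (1 + 4 * f) ^ b = 1 + 4 * (b : PowerSeries ℤ) * f + 8 * (b : PowerSeries ℤ) * ((b : PowerSeries ℤ) - 1) * f ^ 2
      + 32 * R := by
  induction b with
  | zero => exact ⟨0, by simp⟩
  | succ b ih =>
    obtain ⟨R, hR⟩ := ih
    refine ⟨(b : PowerSeries ℤ) * ((b : PowerSeries ℤ) - 1) * f ^ 3 + R * (1 + 4 * f), ?_⟩
    rw [pow_succ, hR]
    push_cast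
    ring

theorem pow_shape (f : PowerSeries ℤ) (a b : ℕ) : ∃ R : PowerSeries ℤ,
    (1 + 4 * f) ^ (2 ^ a * b) = 1 + 4 * ((2 ^ a * b : ℕ) : PowerSeries ℤ) * f
      + 8 * ((2 ^ a * b : ℕ) : PowerSeries ℤ) * (((2 ^ a * b : ℕ) : PowerSeries ℤ) - 1) * f ^ 2
      + 32 * 2 ^ a * R := by
  induction a with
  | zero =>
    obtain ⟨R, hR⟩ := pow_odd_part f b
    refine ⟨R, ?_⟩
    rw [pow_zero, one_mul, hR]
    ring
  | succ a ih =>
    obtain ⟨R, hR⟩ := ih
    set M : PowerSeries ℤ := ((2 ^ a * b : ℕ) : PowerSeries ℤ) with hM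
    have hM2 : ((2 ^ (a + 1) * b : ℕ) : PowerSeries ℤ) = 2 * M := by
      rw [hM]; push_cast; ring
    have hM3 : M = 2 ^ a * (b : PowerSeries ℤ) := by
      rw [hM]; push_cast; ring
    rw [hM2, show 2 ^ (a + 1) * b = (2 ^ a * b) * 2 by ring, pow_mul, hR]
    refine ⟨(b : PowerSeries ℤ) * M * (M - 1) * f ^ 3 + (b : PowerSeries ℤ) * M * (M - 1) ^ 2 * f ^ 4
      + R * (1 + 4 * M * f + 8 * M * (M - 1) * f ^ 2) + 16 * 2 ^ a * R ^ 2, ?_⟩
    rw [pow_succ 2 a]
    linear_combination (64 * M * (M - 1) * f ^ 3 + 64 * M * (M - 1) ^ 2 * f ^ 4) * hM3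

end Q264.Quad
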