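import Pool.Agent.Q264.QuadG

/-!
# Coloured 4-ary partitions: exact 2-adic valuations
-/

set_option autoImplicit false

namespace Q264.Quad

open PowerSeries Finset

/-- `x = 2 ^ s * odd` -/
def IsVal (s : ℕ) (x : ℤ) : Prop := ∃ u : ℤ, x = 2 ^ s * (2 * u + 1)

theorem coeff_nat_mul (k : ℕ) (f : PowerSeries ℤ) (n : ℕ) : coeff n ((k : PowerSeries ℤ) * f) = (k : ℤ) * coeff n f := by
  rw [show ((k : PowerSeries ℤ)) = C (k : ℤ) from (map_natCast C k).symm, coeff_C_mul]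

theorem coeff_C_mul' (k : ℤ) (f : PowerSeries ℤ) (n : ℕ) : coeff n (C k * f) = k * coeff n f := coeff_C_mul _ _ _

/-- coefficients of `(1 + 4 V) ^ M` -/
theorem coeff_even (a b n : ℕ) (hn : 1 ≤ n) : ∃ ρ : ℤ, SZ (2 * (2 ^ a * b)) n =
    4 * (2 ^ a * b) * (v n + 2 * (2 ^ a * b - 1) * coeff n (V ^ 2)) + 32 * 2 ^ a * ρ := by
  rw [← F_pow, pow_mul, V_spec]
  obtain ⟨R, hR⟩ := pow_shape V a b
  refine ⟨coeff n R, ?_⟩
  rw [hR]
  have e : 1 + 4 * ((2 ^ a * b : ℕ) : PowerSeries ℤ) * V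
      + 8 * ((2 ^ a * b : ℕ) : PowerSeries ℤ) * (((2 ^ a * b : ℕ) : PowerSeries ℤ) - 1) * V ^ 2
      + 32 * 2 ^ a * R = 1 + C (4 * (2 ^ a * b) : ℤ) * V + C (8 * (2 ^ a * b) * (2 ^ a * b - 1) : ℤ) * V ^ 2
      + C (32 * 2 ^ a : ℤ) * R := by
    simp only [map_mul, map_sub, map_pow, map_ofNat, map_natCast, map_one]
    push_cast
    ring
  rw [e, map_add, map_add, map_add, coeff_C_mul, coeff_C_mul, coeff_C_mul, coeff_one, if_neg (by omega)]
  unfold v
  ring

/-- coefficients of `(1 + 4 V) ^ M * G` -/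
theorem coeff_odd (a b n m : ℕ) (hm : m + 1 = 2 * (2 ^ a * b)) : ∃ ρ : ℤ, SZ m n =
    g n + 4 * (2 ^ a * b) * coeff n (V * G) + 8 * 2 ^ a * ρ := by
  rw [← F_pow]
  have h1 : F ^ m = (1 + 4 * V) ^ (2 ^ a * b) * G := by
    rw [← V_spec, ← pow_mul, ← hm, pow_succ, mul_assoc, F_mul_G, mul_one]
  obtain ⟨R, hR⟩ := pow_shape V a b
  rw [h1, hR]
  refine ⟨coeff n ((b : PowerSeries ℤ) * (((2 ^ a * b : ℕ) : PowerSeries ℤ) - 1) * V ^ 2 * G + 4 * R * G), ?_⟩
  have e : (1 + 4 * ((2 ^ a * b : ℕ) : PowerSeries ℤ) * V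
      + 8 * ((2 ^ a * b : ℕ) : PowerSeries ℤ) * (((2 ^ a * b : ℕ) : PowerSeries ℤ) - 1) * V ^ 2
      + 32 * 2 ^ a * R) * G = G + C (4 * (2 ^ a * b) : ℤ) * (V * G)
      + C (8 * 2 ^ a : ℤ) * ((b : PowerSeries ℤ) * (((2 ^ a * b : ℕ) : PowerSeries ℤ) - 1) * V ^ 2 * G + 4 * R * G) := by
    simp only [map_mul, map_pow, map_ofNat, map_natCast]
    push_cast
    ring
  rw [e, map_add, map_add, coeff_C_mul, coeff_C_mul]
  unfold g
  ring

/-- the expected valuation for the index `4 ^ i * r` -/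
def expo (m i r : ℕ) : ℕ :=
  if m % 2 = 1 then
    (if r % 2 = 1 then (if i % 2 = 0 then 2 else 1) else (if i % 2 = 0 then 1 else padicValNat 2 (m + 1) + 1))
  else if m % 4 = 0 then (if r % 2 = 1 then padicValNat 2 m + 2 else padicValNat 2 m + 1)
  else (if r % 2 = 1 then (if i = 0 then 3 else 4) else 2)

theorem exists_two_pow_mul {m : ℕ} (hm : 1 ≤ m) : ∃ b, b % 2 = 1 ∧ m = 2 ^ (padicValNat 2 m) * b := by
  obtain ⟨b, hb⟩ := pow_padicValNat_dvd (p := 2) (n := m)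
  refine ⟨b, ?_, hb⟩
  by_contra h
  obtain ⟨d, hd⟩ : 2 ∣ b := by omega
  have : 2 ^ (padicValNat 2 m + 1) ∣ m := ⟨d, by rw [pow_succ, mul_assoc, ← hd, ← hb]⟩
  exact pow_succ_padicValNat_not_dvd (by omega) this

theorem v_shape_odd {i r : ℕ} (hr : r % 4 = 2) : ∃ u, v (4 ^ i * r) = 2 * u + 1 := by
  have := v_pow_odd i r hr
  exact ⟨v (4 ^ i * r) / 2, by omega⟩

theorem v_shape_even {i r : ℕ} (hr : r % 2 = 1) : ∃ u, v (4 ^ i * r) = if i = 0 then 2 * (2 * u + 1) else 4 * (2 * u + 1) := by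
  rcases i with _ | i
  · rw [pow_zero, one_mul]
    rcases (show r % 4 = 1 ∨ r % 4 = 3 by omega) with h | h
    · have := v_one h
      exact ⟨v r / 4, by simp; omega⟩
    · have := v_three h
      exact ⟨v r / 4, by simp; omega⟩
  · have := v_pow_even i r hr
    exact ⟨v (4 ^ (i + 1) * r) / 8, by simp; omega⟩

/-- `V ^ 2` at an index of even valuation -/
theorem sq_shape {i r : ℕ} (hr : r % 2 = 1) : ∃ y, coeff (4 ^ i * r) (V ^ 2) = if i = 0 then 2 * y else 2 * y + 1 := by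
  obtain ⟨y, hy⟩ := sq_two V (4 ^ i * r)
  rcases i with _ | i
  · rw [pow_zero, one_mul] at hy ⊢
    rw [if_neg (by omega)] at hy
    exact ⟨y, by simp [hy]⟩
  · have e : 4 ^ (i + 1) * r = 2 * (4 ^ i * (2 * r)) := by rw [pow_succ]; ring
    rw [if_pos ⟨_, e⟩] at hy
    have e2 : (4 ^ (i + 1) * r) / 2 = 4 ^ i * (2 * r) := by rw [e]; exact Nat.mul_div_cancel_left _ (by norm_num)
    rw [e2] at hy
    obtain ⟨u, hu⟩ := v_shape_odd (i := i) (r := 2 * r) (by omega)
    unfold v at hu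
    refine ⟨u + y, ?_⟩
    rw [hy, hu]
    simp
    ring

theorem val_main (m : ℕ) (hm : 1 ≤ m) (h6 : m % 8 ≠ 6) (i r : ℕ) (hr : r % 4 ≠ 0) :
    IsVal (expo m i r) (SZ m (4 ^ i * r)) := by
  have hn : 1 ≤ 4 ^ i * r := Nat.mul_pos (by positivity) (by omega)
  set n := 4 ^ i * r with hnd
  unfold expo
  by_cases hodd : m % 2 = 1
  · rw [if_pos hodd]
    obtain ⟨b, hb, hmb⟩ := exists_two_pow_mul (m := m + 1) (by omega)
    set a' := padicValNat 2 (m + 1) with ha'
    obtain ⟨a, ha⟩ : ∃ a, a' = a + 1 := by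
      rcases Nat.eq_zero_or_pos a' with h | h
      · rw [h, pow_zero, one_mul] at hmb; omega
      · exact Nat.exists_eq_add_of_le' h
    rw [ha] at hmb ⊢
    obtain ⟨ρ, hρ⟩ := coeff_odd a b n m (by rw [hmb]; ring)
    obtain ⟨y, hy⟩ := VG_two n
    rw [hy] at hρ
    obtain ⟨b', hb'⟩ : ∃ b' : ℤ, (b : ℤ) = 2 * b' + 1 := ⟨(b : ℤ) / 2, by omega⟩
    by_cases hr1 : r % 2 = 1
    · rw [if_pos hr1]
      obtain ⟨u, hu⟩ := v_shape_even (i := i) hr1
      rw [← hnd] at hu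
      by_cases hi : i % 2 = 0
      · rw [if_pos hi]
        have h1 := ((g_shape i r (by omega)).1 hi).1
        have h2 := (g_base hr).1 hr1
        rw [← hnd] at h1
        obtain ⟨w, hw⟩ : ∃ w, g n = 8 * w + 4 := ⟨g n / 8, by rw [h1]; omega⟩
        obtain ⟨u', hu'⟩ : ∃ u', v n = 2 * u' := by
          split_ifs at hu
          · exact ⟨_, hu⟩
          · exact ⟨2 * (2 * u + 1), by rw [hu]; ring⟩
        refine ⟨w + 2 ^ a * b * (u' + y) + 2 ^ a * ρ, ?_⟩
        rw [hρ, hw, hu']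
        ring
      · rw [if_neg hi]
        have h1 := ((g_shape i r (by omega)).2 (by omega)).1
        have h2 := (gp_base hr).1 hr1
        rw [← hnd] at h1
        obtain ⟨w, hw⟩ : ∃ w, g n = 4 * w + 2 := ⟨g n / 4, by rw [h1]; omega⟩
        refine ⟨w + 2 ^ a * b * (v n + 2 * y) + 2 * 2 ^ a * ρ, ?_⟩
        rw [hρ, hw]
        ring
    · rw [if_neg hr1]
      have hr2 : r % 4 = 2 := by omega
      by_cases hi : i % 2 = 0
      · rw [if_pos hi]
        have h1 := ((g_shape i r (by omega)).1 hi).1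
        have h2 := (g_base hr).2 hr2
        rw [← hnd] at h1
        obtain ⟨w, hw⟩ : ∃ w, g n = 4 * w + 2 := ⟨g n / 4, by rw [h1]; omega⟩
        refine ⟨w + 2 ^ a * b * (v n + 2 * y) + 2 * 2 ^ a * ρ, ?_⟩
        rw [hρ, hw]
        ring
      · rw [if_neg hi]
        have h1 := ((g_shape i r (by omega)).2 (by omega)).1
        have h2 := (gp_base hr).2 hr2
        rw [← hnd, h2] at h1
        obtain ⟨u, hu⟩ := v_shape_odd (i := i) hr2
        rw [← hnd] at hu
        refine ⟨b' * (2 * u + 1 + 2 * y) + (u + y) + ρ, ?_⟩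
        rw [hρ, h1, hu, hb']
        ring
  · rw [if_neg hodd]
    by_cases h4 : m % 4 = 0
    · rw [if_pos h4]
      obtain ⟨b, hb, hmb⟩ := exists_two_pow_mul (m := m) (by omega)
      set a' := padicValNat 2 m with ha'
      obtain ⟨a, ha⟩ : ∃ a, a' = a + 2 := by
        rcases a' with _ | _ | a
        · rw [pow_zero, one_mul] at hmb; omega
        · rw [zero_add, pow_one] at hmb; omega
        · exact ⟨a, rfl⟩
      rw [ha] at hmb ⊢
      obtain ⟨ρ, hρ⟩ := coeff_even (a + 1) b n hn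
      rw [show 2 * (2 ^ (a + 1) * b) = m by rw [hmb]; ring] at hρ
      obtain ⟨b', hb'⟩ : ∃ b' : ℤ, (b : ℤ) = 2 * b' + 1 := ⟨(b : ℤ) / 2, by omega⟩
      by_cases hr1 : r % 2 = 1
      · rw [if_pos hr1]
        obtain ⟨u, hu⟩ := v_shape_even (i := i) hr1
        obtain ⟨y, hy⟩ := sq_shape (i := i) hr1
        rw [← hnd] at hu hy
        obtain ⟨w, hw⟩ : ∃ w, v n + 2 * (2 ^ (a + 1) * b - 1) * coeff n (V ^ 2) = 4 * w + 2 := by
          rw [hu, hy]
          split_ifs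
          · refine ⟨u + (2 ^ (a + 1) * b - 1) * y, ?_⟩
            ring
          · refine ⟨2 * u + 1 + (2 ^ (a + 1) * b - 1) * y + 2 ^ a * b - 1, ?_⟩
            ring
        refine ⟨b' * (2 * w + 1) + w + 2 * ρ, ?_⟩
        rw [hρ, hw, hb']
        ring
      · rw [if_neg hr1]
        have hr2 : r % 4 = 2 := by omega
        obtain ⟨u, hu⟩ := v_shape_odd (i := i) hr2
        rw [← hnd] at hu
        refine ⟨b' * (2 * u + 1 + 2 * (2 ^ (a + 1) * b - 1) * coeff n (V ^ 2)) + u +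
          (2 ^ (a + 1) * b - 1) * coeff n (V ^ 2) + 4 * ρ, ?_⟩
        rw [hρ, hu, hb']
        ring
    · rw [if_neg h4]
      have h8 : m % 8 = 2 := by omega
      obtain ⟨ρ, hρ⟩ := coeff_even 0 (m / 2) n hn
      rw [show 2 * (2 ^ 0 * (m / 2)) = m by omega] at hρ
      obtain ⟨k, hk⟩ : ∃ k : ℤ, ((m / 2 : ℕ) : ℤ) = 4 * k + 1 := ⟨(m : ℤ) / 8, by omega⟩
      rw [hk] at hρ
      by_cases hr1 : r % 2 = 1
      · rw [if_pos hr1]
        obtain ⟨u, hu⟩ := v_shape_even (i := i) hr1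
        rw [← hnd] at hu
        by_cases hi : i = 0
        · rw [if_pos hi] at hu ⊢
          refine ⟨2 * k * (2 * u + 1) + u + 2 * (4 * k + 1) * k * coeff n (V ^ 2) + 2 * ρ, ?_⟩
          rw [hρ, hu]
          ring
        · rw [if_neg hi] at hu ⊢
          refine ⟨2 * k * (2 * u + 1) + u + (4 * k + 1) * k * coeff n (V ^ 2) + ρ, ?_⟩
          rw [hρ, hu]
          ring
      · rw [if_neg hr1]
        have hr2 : r % 4 = 2 := by omega
        obtain ⟨u, hu⟩ := v_shape_odd (i := i) hr2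
        rw [← hnd] at hu
        refine ⟨2 * k * (2 * u + 1) + u + (4 * k + 1) * (4 * k) * coeff n (V ^ 2) + 4 * ρ, ?_⟩
        rw [hρ, hu]
        ring

/-! ### the 4-kernel -/

theorem exists_shape {n : ℕ} (hn : 1 ≤ n) : ∃ i r, r % 4 ≠ 0 ∧ n = 4 ^ i * r := by
  induction n using Nat.strong_induction_on with
  | _ n ih =>
    by_cases h : n % 4 = 0
    · obtain ⟨i, r, hr, h1⟩ := ih (n / 4) (by omega) (by omega)
      refine ⟨i + 1, r, hr, ?_⟩
      rw [pow_succ, show 4 ^ i * 4 * r = 4 * (4 ^ i * r) by ring, ← h1]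
      omega
    · exact ⟨0, n, h, by simp⟩

theorem pow_lt_of_shape {i e r : ℕ} (hr : r % 4 ≠ 0) (h : 4 ^ e * r < 4 ^ i) : e < i := by
  by_contra hc
  push Not at hc
  have h1 : 4 ^ i ≤ 4 ^ e := Nat.pow_le_pow_right (by norm_num) hc
  have h2 : 4 ^ e * 1 ≤ 4 ^ e * r := Nat.mul_le_mul_left _ (by omega)
  omega

/-- a sequence depending only on the shape has a finite 4-kernel -/
theorem kernel_finite (f : ℕ → ℕ) (H : ℕ → ℕ → ℕ) (hf : ∀ i r, r % 4 ≠ 0 → f (4 ^ i * r) = H i (r % 4))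
    (hH : ∀ i d, 1 ≤ i → H (i + 2) d = H i d) :
    {g : ℕ → ℕ | ∃ i j, j < 4 ^ i ∧ g = fun n => f (4 ^ i * n + j)}.Finite := by
  classical
  -- values
  have hval : ∀ i d, H i d = H 0 d ∨ H i d = H 1 d ∨ H i d = H 2 d := by
    intro i d
    induction i using Nat.strong_induction_on with
    | _ i ih =>
      rcases (show i = 0 ∨ i = 1 ∨ i = 2 ∨ 3 ≤ i by omega) with rfl | rfl | rfl | h
      · exact Or.inl rfl
      · exact Or.inr (Or.inl rfl)
      · exact Or.inr (Or.inr rfl)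
      · have h1 := hH (i - 2) d (by omega)
        rw [show i - 2 + 2 = i by omega] at h1
        rw [h1]
        exact ih (i - 2) (by omega)
  set T : Finset ℕ := (Finset.range 3 ×ˢ Finset.range 4).image fun q => H q.1 q.2 with hT
  have hmem : ∀ i d, d < 4 → H i d ∈ T := by
    intro i d hd
    rw [hT, Finset.mem_image]
    rcases hval i d with h | h | h
    · exact ⟨(0, d), by simp [hd], h.symm⟩
    · exact ⟨(1, d), by simp [hd], h.symm⟩
    · exact ⟨(2, d), by simp [hd], h.symm⟩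
  -- the sequences with j = 0
  have hzero : ∀ i, 1 ≤ i → (fun n => f (4 ^ (i + 2) * n)) = fun n => f (4 ^ i * n) := by
    intro i hi
    funext n
    rcases Nat.eq_zero_or_pos n with rfl | hn
    · simp
    · obtain ⟨e, r, hr, rfl⟩ := exists_shape hn
      rw [← mul_assoc, ← mul_assoc, ← pow_add, ← pow_add, hf _ _ hr, hf _ _ hr,
        show i + 2 + e = (i + e) + 2 by ring, hH _ _ (by omega)]
  have hz : ∀ i, (fun n => f (4 ^ i * n)) ∈ (Finset.range 3).image (fun i => fun n => f (4 ^ i * n)) := by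
    intro i
    induction i using Nat.strong_induction_on with
    | _ i ih =>
      by_cases h : i < 3
      · exact Finset.mem_image.2 ⟨i, Finset.mem_range.2 h, rfl⟩
      · have h1 := hzero (i - 2) (by omega)
        rw [show i - 2 + 2 = i by omega] at h1
        rw [h1]
        exact ih (i - 2) (by omega)
  refine Set.Finite.subset (Finset.finite_toSet
    (T.image (fun x => fun _ => x) ∪ (Finset.range 3).image (fun i => fun n => f (4 ^ i * n)))) ?_
  rintro g ⟨i, j, hj, rfl⟩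
  rw [Finset.mem_coe, Finset.mem_union]
  rcases Nat.eq_zero_or_pos j with rfl | hj0
  · right
    simp only [add_zero]
    exact hz i
  · left
    obtain ⟨e, r, hr, rfl⟩ := exists_shape hj0
    have he := pow_lt_of_shape hr hj
    rw [Finset.mem_image]
    refine ⟨H e (r % 4), hmem _ _ (Nat.mod_lt _ (by norm_num)), ?_⟩
    funext n
    obtain ⟨k, hk⟩ := Nat.exists_eq_add_of_lt he
    have e1 : 4 ^ i * n + 4 ^ e * r = 4 ^ e * (4 * (4 ^ k * n) + r) := by
      rw [hk]; ring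
    rw [e1, hf _ _ (by omega)]
    congr 1
    omega

end Q264.Quad
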