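import Pool.Agent.Q264.QuadF

/-!
# Coloured 4-ary partitions: the square of the generating function
-/

set_option autoImplicit false

namespace Q264.Quad

open PowerSeries Finset

theorem exists_V : ∃ V : PowerSeries ℤ, F ^ 2 = 1 + 4 * V := by
  obtain ⟨U, hU⟩ := F_mod_two
  exact ⟨U + U ^ 2, by rw [hU]; ring⟩

noncomputable def V : PowerSeries ℤ := exists_V.choose

theorem V_spec : F ^ 2 = 1 + 4 * V := exists_V.choose_spec

noncomputable def D : PowerSeries ℤ :=
  2 * X - 7 * X ^ 2 + 14 * X ^ 3 - 18 * X ^ 4 + 14 * X ^ 5 - 7 * X ^ 6 + 2 * X ^ 7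

theorem four_ne : (4 : PowerSeries ℤ) ≠ 0 := by
  intro h
  have := congrArg (coeff 0) h
  rw [show (4 : PowerSeries ℤ) = C 4 from (map_ofNat C 4).symm, coeff_C, if_pos rfl] at this
  simp at this

theorem V_eq : (1 - X ^ 4) ^ 2 * (V - E V) = D * (1 + 4 * V) := by
  have h1 : F ^ 2 * (1 - X) ^ 8 = (1 - X ^ 4) ^ 2 * E (F ^ 2) := by
    have h0 : (F * (1 - X) ^ 4) ^ 2 = ((1 - X ^ 4) * E F) ^ 2 := by rw [F_eq]
    rw [show E (F ^ 2) = (E F) ^ 2 by rw [E, map_pow]]
    rw [← mul_pow, ← h0]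
    ring
  have h2 : E (1 + 4 * V) = 1 + 4 * E V := by
    rw [E, map_add, map_one, map_mul, map_ofNat]
  rw [V_spec, h2] at h1
  apply mul_left_cancel₀ four_ne
  have h3 : ((1 : PowerSeries ℤ) - X) ^ 8 = (1 - X ^ 4) ^ 2 - 4 * D := by
    unfold D
    ring
  rw [h3] at h1
  linear_combination h1

noncomputable def v (n : ℕ) : ℤ := coeff n V

noncomputable def z (n : ℕ) : ℤ := coeff n (V - E V)

theorem z_eq (n : ℕ) : z n = v n - if 4 ∣ n then v (n / 4) else 0 := by
  unfold z v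
  rw [map_sub, E, coeff_expand]

theorem z_series : (V - E V) = C 2 * (X ^ 4 * (V - E V)) - X ^ 8 * (V - E V)
    + (C 2 * X ^ 1 - C 7 * X ^ 2 + C 14 * X ^ 3 - C 18 * X ^ 4 + C 14 * X ^ 5 - C 7 * X ^ 6 + C 2 * X ^ 7)
    + C 4 * (C 2 * (X ^ 1 * V) - C 7 * (X ^ 2 * V) + C 14 * (X ^ 3 * V) - C 18 * (X ^ 4 * V)
      + C 14 * (X ^ 5 * V) - C 7 * (X ^ 6 * V) + C 2 * (X ^ 7 * V)) := by
  have h := V_eq
  unfold D at h
  have e2 : (C (2 : ℤ) : PowerSeries ℤ) = 2 := map_ofNat C 2
  have e7 : (C (7 : ℤ) : PowerSeries ℤ) = 7 := map_ofNat C 7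
  have e14 : (C (14 : ℤ) : PowerSeries ℤ) = 14 := map_ofNat C 14
  have e18 : (C (18 : ℤ) : PowerSeries ℤ) = 18 := map_ofNat C 18
  have e4 : (C (4 : ℤ) : PowerSeries ℤ) = 4 := map_ofNat C 4
  rw [e2, e7, e14, e18, e4]
  linear_combination h

theorem z_rec (n : ℕ) : z n = 2 * (if 4 ≤ n then z (n - 4) else 0) - (if 8 ≤ n then z (n - 8) else 0)
    + (2 * (if n = 1 then 1 else 0) - 7 * (if n = 2 then 1 else 0) + 14 * (if n = 3 then 1 else 0)
      - 18 * (if n = 4 then 1 else 0) + 14 * (if n = 5 then 1 else 0) - 7 * (if n = 6 then 1 else 0)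
      + 2 * (if n = 7 then 1 else 0))
    + 4 * (2 * (if 1 ≤ n then v (n - 1) else 0) - 7 * (if 2 ≤ n then v (n - 2) else 0)
      + 14 * (if 3 ≤ n then v (n - 3) else 0) - 18 * (if 4 ≤ n then v (n - 4) else 0)
      + 14 * (if 5 ≤ n then v (n - 5) else 0) - 7 * (if 6 ≤ n then v (n - 6) else 0)
      + 2 * (if 7 ≤ n then v (n - 7) else 0)) := by
  have h := congrArg (coeff n) z_series
  rw [map_add, map_add, map_sub] at h
  simp only [map_add, map_sub, coeff_C_mul, coeff_X_pow_mul', coeff_X_pow] at h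
  simp only [← map_sub] at h
  exact h

theorem v_zero : v 0 = 0 := by
  have h := congrArg (coeff 0) V_spec
  have h2 : coeff 0 (F ^ 2) = 1 := by
    rw [coeff_zero_eq_constantCoeff_apply, map_pow, F_zero, one_pow]
  rw [h2, map_add, show (4 : PowerSeries ℤ) = C 4 from (map_ofNat C 4).symm, coeff_C_mul, coeff_one, if_pos rfl] at h
  unfold v
  linarith

/-! ### congruences for the coefficients -/

theorem z_big (n : ℕ) : z (n + 8) = 2 * z (n + 4) - z n + 4 * (2 * v (n + 7) - 7 * v (n + 6) + 14 * v (n + 5)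
    - 18 * v (n + 4) + 14 * v (n + 3) - 7 * v (n + 2) + 2 * v (n + 1)) := by
  rw [z_rec (n + 8)]
  rw [if_pos (by omega), if_pos (by omega), if_neg (by omega), if_neg (by omega), if_neg (by omega),
    if_neg (by omega), if_neg (by omega), if_neg (by omega), if_neg (by omega),
    if_pos (by omega), if_pos (by omega), if_pos (by omega), if_pos (by omega), if_pos (by omega),
    if_pos (by omega), if_pos (by omega)]
  simp only [show n + 8 - 4 = n + 4 by omega, show n + 8 - 8 = n by omega, show n + 8 - 1 = n + 7 by omega,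
    show n + 8 - 2 = n + 6 by omega, show n + 8 - 3 = n + 5 by omega, show n + 8 - 5 = n + 3 by omega,
    show n + 8 - 6 = n + 2 by omega, show n + 8 - 7 = n + 1 by omega]
  ring

theorem z_small : z 0 = 0 ∧ z 1 = 2 ∧ z 2 = -7 + 8 * v 1 ∧ z 3 = 14 + 4 * (2 * v 2 - 7 * v 1) ∧
    z 4 = -18 + 4 * (2 * v 3 - 7 * v 2 + 14 * v 1) ∧
    z 5 = 2 * z 1 + 14 + 4 * (2 * v 4 - 7 * v 3 + 14 * v 2 - 18 * v 1) ∧
    z 6 = 2 * z 2 - 7 + 4 * (2 * v 5 - 7 * v 4 + 14 * v 3 - 18 * v 2 + 14 * v 1) ∧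
    z 7 = 2 * z 3 + 2 + 4 * (2 * v 6 - 7 * v 5 + 14 * v 4 - 18 * v 3 + 14 * v 2 - 7 * v 1) := by
  have h0 := z_rec 0
  have h1 := z_rec 1
  have h2 := z_rec 2
  have h3 := z_rec 3
  have h4 := z_rec 4
  have h5 := z_rec 5
  have h6 := z_rec 6
  have h7 := z_rec 7
  norm_num [v_zero] at h0 h1 h2 h3 h4 h5 h6 h7
  refine ⟨?_, ?_, ?_, ?_, ?_, ?_, ?_, ?_⟩ <;> linarith

theorem z_two (n : ℕ) : z n % 2 = if n % 4 = 2 then 1 else 0 := by
  induction n using Nat.strong_induction_on with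
  | _ n ih =>
    obtain ⟨s0, s1, s2, s3, s4, s5, s6, s7⟩ := z_small
    rcases lt_or_ge n 8 with h | h
    · interval_cases n
      · rw [s0]; norm_num
      · rw [s1]; norm_num
      · rw [s2]; norm_num; omega
      · rw [s3]; norm_num; omega
      · rw [s4]; norm_num; omega
      · rw [s5]; norm_num; omega
      · rw [s6]; norm_num; omega
      · rw [s7]; norm_num; omega
    · obtain ⟨k, rfl⟩ := Nat.exists_eq_add_of_le' h
      have h1 := ih k (by omega)
      rw [z_big, show (k + 8) % 4 = k % 4 by omega, ← h1]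
      omega

theorem v_eq (n : ℕ) : v n = z n + if 4 ∣ n then v (n / 4) else 0 := by
  rw [z_eq]; ring

theorem v_odd_index {n : ℕ} (h : n % 2 = 1) : v n = z n := by
  rw [v_eq, if_neg (by omega), add_zero]

theorem v_two_mod {n : ℕ} (h : n % 4 = 2) : v n % 2 = 1 := by
  rw [v_eq, if_neg (by omega), add_zero, z_two, if_pos h]

theorem v_odd_even {n : ℕ} (h : n % 2 = 1) : v n % 2 = 0 := by
  rw [v_odd_index h, z_two, if_neg (by omega)]

theorem v_four_two (n : ℕ) : v (4 * n) % 2 = v n % 2 := by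
  have h1 := z_two (4 * n)
  rw [if_neg (by omega)] at h1
  rw [v_eq, if_pos (dvd_mul_right _ _), Nat.mul_div_cancel_left _ (by norm_num)]
  omega

/-- `z` modulo `8` -/
theorem z_eight (n : ℕ) (hn : n % 4 ≠ 2) :
    z n % 8 = if n % 4 = 1 then 2 else if n % 4 = 3 then 6 else (2 * (n / 4 : ℕ) : ℤ) % 8 := by
  induction n using Nat.strong_induction_on with
  | _ n ih =>
    obtain ⟨s0, s1, s2, s3, s4, s5, s6, s7⟩ := z_small
    have e1 : v 1 % 2 = 0 := v_odd_even (by norm_num)
    have e2 : v 2 % 2 = 1 := v_two_mod (by norm_num)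
    have e3 : v 3 % 2 = 0 := v_odd_even (by norm_num)
    have e5 : v 5 % 2 = 0 := v_odd_even (by norm_num)
    rcases lt_or_ge n 8 with h | h
    · interval_cases n
      · rw [s0]; norm_num
      · rw [s1]; norm_num
      · omega
      · rw [s3]; norm_num; omega
      · rw [s4]; norm_num; omega
      · rw [s5, s1]; norm_num; omega
      · omega
      · rw [s7, s3]; norm_num; omega
    · obtain ⟨k, rfl⟩ := Nat.exists_eq_add_of_le' h
      have h1 := ih k (by omega) (by omega)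
      have h2 := ih (k + 4) (by omega) (by omega)
      rw [z_big]
      rw [show (k + 4) % 4 = k % 4 by omega, show (k + 4) / 4 = k / 4 + 1 by omega] at h2
      rw [show (k + 8) % 4 = k % 4 by omega, show (k + 8) / 4 = k / 4 + 2 by omega]
      have h3 : v (k + 6) % 2 = v (k + 2) % 2 := by
        rcases (show k % 4 = 0 ∨ k % 4 = 1 ∨ k % 4 = 3 by omega) with h4 | h4 | h4
        · rw [v_two_mod (by omega), v_two_mod (by omega)]
        · rw [v_odd_even (by omega), v_odd_even (by omega)]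
        · rw [v_odd_even (by omega), v_odd_even (by omega)]
      push_cast at h2 ⊢
      split_ifs at h1 h2 ⊢ <;> omega

theorem v_one {n : ℕ} (h : n % 4 = 1) : v n % 8 = 2 := by
  rw [v_odd_index (by omega), z_eight n (by omega), if_pos h]

theorem v_three {n : ℕ} (h : n % 4 = 3) : v n % 8 = 6 := by
  rw [v_odd_index (by omega), z_eight n (by omega), if_neg (by omega), if_pos h]

theorem v_four (n : ℕ) : v (4 * n) % 8 = (v n + 2 * n) % 8 := by
  have h1 := z_eight (4 * n) (by omega)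
  rw [if_neg (by omega), if_neg (by omega), Nat.mul_div_cancel_left _ (by norm_num)] at h1
  rw [v_eq, if_pos (dvd_mul_right _ _), Nat.mul_div_cancel_left _ (by norm_num)]
  omega

/-- the coefficients of `V`, by the shape `n = 4 ^ i * r` of the index -/
theorem v_pow_odd (i r : ℕ) (hr : r % 4 = 2) : v (4 ^ i * r) % 2 = 1 := by
  induction i with
  | zero => rw [pow_zero, one_mul]; exact v_two_mod hr
  | succ i ih => rw [pow_succ, show 4 ^ i * 4 * r = 4 * (4 ^ i * r) by ring, v_four_two, ih]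

theorem v_pow_even (i r : ℕ) (hr : r % 2 = 1) : v (4 ^ (i + 1) * r) % 8 = 4 := by
  induction i with
  | zero =>
    rw [zero_add, pow_one, v_four]
    rcases (show r % 4 = 1 ∨ r % 4 = 3 by omega) with h | h
    · have := v_one h; omega
    · have := v_three h; omega
  | succ i ih =>
    rw [pow_succ, show 4 ^ (i + 1) * 4 * r = 4 * (4 ^ (i + 1) * r) by ring, v_four]
    have : (4 ^ (i + 1) * r) % 4 = 0 := by
      rw [pow_succ]
      rw [show 4 ^ i * 4 * r = 4 * (4 ^ i * r) by ring]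
      omega
    omega

end Q264.Quad
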