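import Mathlib

/-!
Deterministic part: a binary number with ones only in the blocks `[M^t, 2 M^t]` (up to finitely many
ones elsewhere) has powers with long blocks of zeros.
-/

set_option autoImplicit false

namespace Q264.RP

open Filter Topology

/-- the real number with the binary digits `x 1, x 2, ...` -/
noncomputable def val (x : ℕ → Bool) : ℝ := ∑' n : ℕ, (if x (n + 1) then (1 : ℝ) else 0) / 2 ^ (n + 1)

/-- the `n+1`-st digit of the fractional part of `y` in base `b` -/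
noncomputable def digit (b : ℕ) (y : ℝ) (n : ℕ) : ℤ := ⌊(b : ℝ) ^ (n + 1) * y⌋ % (b : ℤ)

/-- normality in base `b` -/
def NormalBase (b : ℕ) (y : ℝ) : Prop :=
  ∀ k : ℕ, 1 ≤ k → ∀ w : Fin k → ℕ, (∀ i, w i < b) →
    Tendsto (fun N : ℕ =>
      (Nat.card {n : ℕ // n < N ∧ ∀ i : Fin k, digit b y (n + i) = w i} : ℝ) / N)
      atTop (𝓝 (1 / (b : ℝ) ^ k))

/-- the blocks -/
def A (M : ℕ) : Set ℕ := {n | ∃ t : ℕ, M ^ t ≤ n ∧ n ≤ 2 * M ^ t}

lemma summ (x : ℕ → Bool) : Summable (fun n : ℕ => (if x (n + 1) then (1 : ℝ) else 0) / 2 ^ (n + 1)) := by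
  have h : Summable (fun n : ℕ => (1 / 2 : ℝ) ^ (n + 1)) :=
    (summable_nat_add_iff 1).2 (summable_geometric_of_lt_one (by norm_num) (by norm_num))
  refine Summable.of_nonneg_of_le (fun n => by positivity) (fun n => ?_) h
  rw [one_div, inv_pow, ← one_div]
  gcongr
  split_ifs <;> norm_num

lemma geo (K : ℕ) : ∑' n : ℕ, (1 / 2 : ℝ) ^ (n + K + 1) = (1 / 2) ^ K := by
  have : ∀ n : ℕ, (1 / 2 : ℝ) ^ (n + K + 1) = (1 / 2) ^ n * ((1 / 2) ^ K * (1 / 2)) := by
    intro n; ring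
  simp_rw [this]
  rw [tsum_mul_right, tsum_geometric_of_lt_one (by norm_num) (by norm_num)]
  ring

lemma val_le_one (x : ℕ → Bool) : val x ≤ 1 := by
  have h : Summable (fun n : ℕ => (1 / 2 : ℝ) ^ (n + 0 + 1)) :=
    (summable_nat_add_iff 1).2 (summable_geometric_of_lt_one (by norm_num) (by norm_num))
  have := geo 0
  rw [pow_zero] at this
  rw [← this]
  refine Summable.tsum_le_tsum (fun n => ?_) (summ x) h
  rw [add_zero, one_div, inv_pow, ← one_div]
  gcongr
  split_ifs <;> norm_num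

lemma val_split (x : ℕ → Bool) {K L : ℕ} (hKL : K ≤ L) (hx : ∀ n, K < n → n < L → x n = false) :
    ∃ m : ℕ, (m : ℝ) / 2 ^ K ≤ val x ∧ val x ≤ (m : ℝ) / 2 ^ K + 2 * (1 / 2) ^ L := by
  have h1 := (summ x).sum_add_tsum_nat_add K
  have hm : ∃ m : ℕ, ∑ n ∈ Finset.range K, (if x (n + 1) then (1 : ℝ) else 0) / 2 ^ (n + 1) =
      (m : ℝ) / 2 ^ K := by
    refine ⟨∑ n ∈ Finset.range K, if x (n + 1) then 2 ^ (K - (n + 1)) else 0, ?_⟩
    push_cast
    rw [Finset.sum_div]
    refine Finset.sum_congr rfl fun n hn => ?_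
    rw [Finset.mem_range] at hn
    split_ifs
    · have : (2 : ℝ) ^ K = 2 ^ (K - (n + 1)) * 2 ^ (n + 1) := by
        rw [← pow_add]; congr 1; omega
      rw [this, div_eq_div_iff (by positivity) (by positivity)]
      ring
    · simp
  obtain ⟨m, hm⟩ := hm
  refine ⟨m, ?_, ?_⟩
  · unfold val
    rw [← h1, hm]
    have : 0 ≤ ∑' n : ℕ, (if x (n + K + 1) then (1 : ℝ) else 0) / 2 ^ (n + K + 1) :=
      tsum_nonneg fun n => by positivity
    linarith
  · unfold val
    rw [← h1, hm]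
    have h2 : ∑' n : ℕ, (if x (n + K + 1) then (1 : ℝ) else 0) / 2 ^ (n + K + 1) ≤ 2 * (1 / 2) ^ L := by
      rcases Nat.eq_or_lt_of_le hKL with hE | hlt
      · subst hE
        have h3 : Summable (fun n : ℕ => (1 / 2 : ℝ) ^ (n + K + 1)) := by
          have := (summable_nat_add_iff (K + 1)).2
            (summable_geometric_of_lt_one (r := (1 / 2 : ℝ)) (by norm_num) (by norm_num))
          simpa [add_assoc] using this
        refine (Summable.tsum_le_tsum (fun n => ?_) ((summable_nat_add_iff K).2 (summ x)) h3).trans ?_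
        · rw [one_div, inv_pow, ← one_div]
          gcongr
          split_ifs <;> norm_num
        · rw [geo]
          have : 0 ≤ (1 / 2 : ℝ) ^ K := by positivity
          linarith
      · obtain ⟨J, rfl⟩ : ∃ J, L = K + (J + 1) := ⟨L - K - 1, by omega⟩
        have h4 := ((summable_nat_add_iff K).2 (summ x)).sum_add_tsum_nat_add J
        rw [← h4]
        have h5 : ∑ i ∈ Finset.range J, (if x (i + K + 1) then (1 : ℝ) else 0) / 2 ^ (i + K + 1) = 0 := by
          refine Finset.sum_eq_zero fun i hi => ?_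
          rw [Finset.mem_range] at hi
          rw [hx (i + K + 1) (by omega) (by omega)]
          simp
        rw [h5, zero_add]
        have h3 : Summable (fun n : ℕ => (1 / 2 : ℝ) ^ (n + (K + J) + 1)) := by
          have := (summable_nat_add_iff (K + J + 1)).2
            (summable_geometric_of_lt_one (r := (1 / 2 : ℝ)) (by norm_num) (by norm_num))
          simpa [add_assoc] using this
        have h6 : Summable (fun n : ℕ => (if x (n + J + K + 1) then (1 : ℝ) else 0) / 2 ^ (n + J + K + 1)) :=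
          (summable_nat_add_iff J).2 ((summable_nat_add_iff K).2 (summ x))
        refine (Summable.tsum_le_tsum (fun n => ?_) h6 h3).trans ?_
        · have : n + J + K + 1 = n + (K + J) + 1 := by omega
          rw [this, one_div, inv_pow, ← one_div]
          gcongr
          split_ifs <;> norm_num
        · rw [geo, pow_add, pow_add, pow_add]
          have : 0 ≤ (1 / 2 : ℝ) ^ K * (1 / 2) ^ J := by positivity
          linarith
    linarith

lemma pow_diff {a b : ℝ} (ha : 0 ≤ a) (hab : a ≤ b) (hb : b ≤ 1) (d : ℕ) :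
    b ^ d - a ^ d ≤ d * (b - a) := by
  induction d with
  | zero => simp
  | succ d ih =>
    have h1 : b ^ (d + 1) - a ^ (d + 1) = b * (b ^ d - a ^ d) + (b - a) * a ^ d := by ring
    have h2 : a ^ d ≤ 1 := pow_le_one₀ ha (hab.trans hb)
    have h3 : 0 ≤ b ^ d - a ^ d := sub_nonneg.2 (pow_le_pow_left₀ ha hab d)
    have h4 : b * (b ^ d - a ^ d) ≤ 1 * (b ^ d - a ^ d) := mul_le_mul_of_nonneg_right hb h3
    have h5 : (b - a) * a ^ d ≤ (b - a) * 1 := mul_le_mul_of_nonneg_left h2 (by linarith)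
    push_cast
    linarith

/-- digits of the power are zero in a long block -/
lemma digit_zero (x : ℕ → Bool) (d : ℕ) (hd : 1 ≤ d) {K L : ℕ} (hKL : K ≤ L)
    (hx : ∀ n, K < n → n < L → x n = false) {n : ℕ} (hn : d * K ≤ n) (hn2 : n + 2 + d < L) :
    digit 2 (val x ^ d) n = 0 := by
  obtain ⟨m, h1, h2⟩ := val_split x hKL hx
  have hm0 : (0 : ℝ) ≤ (m : ℝ) / 2 ^ K := by positivity
  have h3 : ((m : ℝ) / 2 ^ K) ^ d ≤ val x ^ d := pow_le_pow_left₀ hm0 h1 d
  have h4 := pow_diff hm0 h1 (val_le_one x) d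
  have h5 : val x ^ d - ((m : ℝ) / 2 ^ K) ^ d < (1 / 2) ^ (n + 1) := by
    have h6 : (d : ℝ) * (val x - (m : ℝ) / 2 ^ K) ≤ d * (2 * (1 / 2) ^ L) := by
      gcongr
      linarith
    have h7 : (d : ℝ) < 2 ^ d := by exact_mod_cast Nat.lt_two_pow_self
    have h8 : (d : ℝ) * (2 * (1 / 2) ^ L) < 2 ^ d * (2 * (1 / 2) ^ L) := by gcongr
    have h9 : (2 : ℝ) ^ d * (2 * (1 / 2) ^ L) ≤ (1 / 2) ^ (n + 1) := by
      have h10 : (1 / 2 : ℝ) ^ L ≤ (1 / 2) ^ (n + 1 + (d + 1)) :=
        pow_le_pow_of_le_one (by norm_num) (by norm_num) (by omega)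
      have h11 : (1 / 2 : ℝ) ^ (n + 1 + (d + 1)) * (2 ^ d * 2) = (1 / 2) ^ (n + 1) := by
        rw [pow_add, mul_assoc, ← pow_succ, ← mul_pow]
        norm_num
      calc (2 : ℝ) ^ d * (2 * (1 / 2) ^ L) = (1 / 2 : ℝ) ^ L * (2 ^ d * 2) := by ring
        _ ≤ (1 / 2 : ℝ) ^ (n + 1 + (d + 1)) * (2 ^ d * 2) := by gcongr
        _ = _ := h11
    linarith
  unfold digit
  have h6 : ((2 : ℕ) : ℝ) ^ (n + 1) * ((m : ℝ) / 2 ^ K) ^ d =
      ((2 * (2 ^ (n - d * K) * m ^ d) : ℤ) : ℝ) := by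
    push_cast
    rw [div_pow, ← pow_mul, mul_comm K d]
    have : (2 : ℝ) ^ (n + 1) = 2 ^ (n - d * K) * 2 ^ (d * K) * 2 := by
      rw [← pow_add, ← pow_succ]; congr 1; omega
    rw [this]
    field_simp
  have h7 : ⌊((2 : ℕ) : ℝ) ^ (n + 1) * val x ^ d⌋ = 2 * (2 ^ (n - d * K) * (m : ℤ) ^ d) := by
    rw [Int.floor_eq_iff]
    constructor
    · rw [← h6]
      gcongr
    · rw [← h6]
      have h8 : ((2 : ℕ) : ℝ) ^ (n + 1) * (1 / 2) ^ (n + 1) = 1 := by
        rw [← mul_pow]; norm_num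
      have h9 : (0 : ℝ) < ((2 : ℕ) : ℝ) ^ (n + 1) := by positivity
      nlinarith
  rw [h7]
  simp

/-- a binary number with ones essentially only in the blocks has a non-normal power -/
theorem not_normal (x : ℕ → Bool) (d : ℕ) (hd : 1 ≤ d)
    (hfin : {n : ℕ | n ∉ A (8 * d) ∧ x n = true}.Finite) : ¬ NormalBase 2 (val x ^ d) := by
  intro hN
  have h1 := hN 1 le_rfl (fun _ => 0) (fun _ => by norm_num)
  obtain ⟨B, hB⟩ := hfin.bddAbove
  -- eventually the frequency is close to 1/2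
  have h2 : ∀ᶠ N : ℕ in atTop,
      (Nat.card {n : ℕ // n < N ∧ ∀ i : Fin 1, digit 2 (val x ^ d) (n + i) = (0 : ℕ)} : ℝ) / N < 3 / 5 :=
    h1.eventually_lt_const (by norm_num)
  obtain ⟨N0, hN0⟩ := eventually_atTop.1 h2
  have hM : 8 ≤ 8 * d := by omega
  -- choose t large
  obtain ⟨t, ht⟩ : ∃ t : ℕ, B + N0 + 8 * d + 20 ≤ t := ⟨_, le_rfl⟩
  have ht1 : t < (8 * d) ^ t := Nat.lt_pow_self (by omega)
  set N := (8 * d) ^ t with hNd
  have hNN : (8 * d) ^ (t + 1) = 8 * d * N := by rw [pow_succ, hNd]; ring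
  have hdN : N ≤ d * N := Nat.le_mul_of_pos_left N (by omega)
  have hz : ∀ n, 2 * N < n → n < 8 * d * N → x n = false := by
    intro n hn1 hn2
    by_contra hcon
    have h3 : x n = true := by
      cases h : x n
      · exact absurd h hcon
      · rfl
    have h4 : n ∉ A (8 * d) := by
      rintro ⟨s, hs1, hs2⟩
      rcases le_or_gt s t with h | h
      · have : (8 * d) ^ s ≤ N := Nat.pow_le_pow_right (by omega) h
        omega
      · have : (8 * d) ^ (t + 1) ≤ (8 * d) ^ s := Nat.pow_le_pow_right (by omega) h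
        rw [hNN] at this
        omega
    have := hB ⟨h4, h3⟩
    omega
  have hassoc : 8 * d * N = 8 * (d * N) := by ring
  have hassoc2 : d * (2 * N) = 2 * (d * N) := by ring
  have h5 : ∀ n, 2 * (d * N) ≤ n → n < 8 * (d * N) - d - 2 → digit 2 (val x ^ d) n = 0 := by
    intro n hn1 hn2
    refine digit_zero x d hd (K := 2 * N) (L := 8 * d * N) (by omega) hz (by omega) (by omega)
  have h6 := hN0 (8 * (d * N) - d - 2) (by omega)
  have h7 : 6 * (d * N) - d - 2 ≤ Nat.card {n : ℕ // n < 8 * (d * N) - d - 2 ∧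
      ∀ i : Fin 1, digit 2 (val x ^ d) (n + i) = (0 : ℕ)} := by
    have hfin2 : Finite {n : ℕ // n < 8 * (d * N) - d - 2 ∧
      ∀ i : Fin 1, digit 2 (val x ^ d) (n + i) = (0 : ℕ)} :=
      Set.Finite.subset (Set.finite_lt_nat (8 * (d * N) - d - 2)) (fun n hn => hn.1)
    have h8 : Nat.card (Fin (6 * (d * N) - d - 2)) ≤ Nat.card {n : ℕ // n < 8 * (d * N) - d - 2 ∧
      ∀ i : Fin 1, digit 2 (val x ^ d) (n + i) = (0 : ℕ)} := by
      refine Nat.card_le_card_of_injective
        (fun j => ⟨2 * (d * N) + j.1, by have := j.2; omega, fun i => ?_⟩) ?_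
      · have := j.2
        have hi : (i : ℕ) = 0 := by omega
        rw [hi, add_zero, h5 _ (by omega) (by omega)]
        rfl
      · intro j1 j2 h
        have := congrArg Subtype.val h
        simp only at this
        exact Fin.ext (by omega)
    rwa [Nat.card_fin] at h8
  have h9 : (0 : ℝ) < ((8 * (d * N) - d - 2 : ℕ) : ℝ) := by
    have : 0 < 8 * (d * N) - d - 2 := by omega
    exact_mod_cast this
  rw [div_lt_iff₀ h9] at h6
  have h10 : ((6 * (d * N) - d - 2 : ℕ) : ℝ) ≤ _ := Nat.cast_le.2 h7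
  have h11 : ((6 * (d * N) - d - 2 : ℕ) : ℝ) < 3 / 5 * ((8 * (d * N) - d - 2 : ℕ) : ℝ) := by
    exact lt_of_le_of_lt h10 h6
  have h12 : 5 * (6 * (d * N) - d - 2) < 3 * (8 * (d * N) - d - 2) := by
    have : (5 : ℝ) * ((6 * (d * N) - d - 2 : ℕ) : ℝ) < 3 * ((8 * (d * N) - d - 2 : ℕ) : ℝ) := by linarith
    exact_mod_cast this
  omega

end Q264.RP
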