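import Pool.Agent.Q264.RP1

/-!
The sums `R_d(s)` for the block sequence, and the probabilistic statement.
-/

set_option autoImplicit false

namespace Q264.RP

open Filter Topology MeasureTheory ProbabilityTheory

/-- `R_d(s)`: the sum over the `d`-element sets of positive integers with sum `s` -/
noncomputable def R (p : ℕ → ℝ) (d s : ℕ) : ℝ :=
  ∑ I ∈ ((Finset.Icc 1 s).powersetCard d).filter (fun I => ∑ i ∈ I, i = s),
    ∏ i ∈ I, p i * (1 - p i)

open Classical in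
/-- the probabilities: `1/2` on the blocks, `n^(-3/2) / 2` elsewhere -/
noncomputable def pp (d : ℕ) (n : ℕ) : ℝ :=
  if n ∈ A (8 * d) then 1 / 2 else (n : ℝ) ^ (-(3 / 2) : ℝ) / 2

lemma pp_bd (d n : ℕ) : 0 ≤ pp d n ∧ pp d n ≤ 1 / 2 := by
  unfold pp
  split_ifs
  · norm_num
  · constructor
    · positivity
    · rcases Nat.eq_zero_or_pos n with h | h
      · subst h
        rw [Nat.cast_zero, Real.zero_rpow (by norm_num)]
        norm_num
      · have : (n : ℝ) ^ (-(3 / 2) : ℝ) ≤ 1 :=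
          Real.rpow_le_one_of_one_le_of_nonpos (by exact_mod_cast h) (by norm_num)
        linarith

lemma v_nonneg (d n : ℕ) : 0 ≤ pp d n * (1 - pp d n) := by
  have := pp_bd d n
  exact mul_nonneg this.1 (by linarith)

lemma v_block {d n : ℕ} (h : n ∈ A (8 * d)) : pp d n * (1 - pp d n) = 1 / 4 := by
  unfold pp
  rw [if_pos h]
  norm_num

lemma v_low {d n s : ℕ} (h0 : 1 ≤ n) (hs : n ≤ s) :
    (s : ℝ) ^ (-(3 / 2) : ℝ) / 4 ≤ pp d n * (1 - pp d n) := by
  have hn : (0 : ℝ) < n := by exact_mod_cast h0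
  have hns : (n : ℝ) ≤ s := by exact_mod_cast hs
  have h1 : (s : ℝ) ^ (-(3 / 2) : ℝ) ≤ (n : ℝ) ^ (-(3 / 2) : ℝ) :=
    Real.rpow_le_rpow_of_nonpos hn hns (by norm_num)
  have h2 : (n : ℝ) ^ (-(3 / 2) : ℝ) ≤ 1 :=
    Real.rpow_le_one_of_one_le_of_nonpos (by exact_mod_cast h0) (by norm_num)
  have h3 : (0 : ℝ) ≤ (n : ℝ) ^ (-(3 / 2) : ℝ) := by positivity
  unfold pp
  split_ifs
  · norm_num
    linarith
  · nlinarith

/-- many sets with sum `s` -/
lemma R_low {d : ℕ} (hd : 2 ≤ d) {N s : ℕ} (hN : ∃ t, N = (8 * d) ^ t) (hs : 2 * d * N < s) :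
    ((N + 1).choose (d - 1) : ℝ) * ((1 / 4) ^ (d - 1) * ((s : ℝ) ^ (-(3 / 2) : ℝ) / 4)) ≤
      R (pp d) d s := by
  classical
  have hNpos : 1 ≤ N := by
    obtain ⟨t, rfl⟩ := hN
    exact Nat.one_le_pow _ _ (by omega)
  have hsum : ∀ J ∈ (Finset.Icc N (2 * N)).powersetCard (d - 1), ∑ i ∈ J, i ≤ (d - 1) * (2 * N) := by
    intro J hJ
    rw [Finset.mem_powersetCard] at hJ
    rw [← hJ.2, ← smul_eq_mul]
    exact Finset.sum_le_card_nsmul _ _ _ fun i hi => (Finset.mem_Icc.1 (hJ.1 hi)).2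
  have hdN : 2 * d * N = (d - 1) * (2 * N) + 2 * N := by
    obtain ⟨e, rfl⟩ : ∃ e, d = e + 1 := ⟨d - 1, by omega⟩
    simp only [Nat.add_sub_cancel]
    ring
  set S := (Finset.Icc N (2 * N)).powersetCard (d - 1) with hS
  have hb : ∀ J ∈ S, 2 * N < s - ∑ i ∈ J, i := fun J hJ => by
    have := hsum J hJ
    omega
  have hbs : ∀ J ∈ S, s - ∑ i ∈ J, i ≤ s := fun J _ => Nat.sub_le _ _
  have hnot : ∀ J ∈ S, s - ∑ i ∈ J, i ∉ J := by
    intro J hJ hmem
    have h1 := hb J hJ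
    have h2 := (Finset.mem_powersetCard.1 hJ).1 hmem
    rw [Finset.mem_Icc] at h2
    omega
  have hcard : S.card = (N + 1).choose (d - 1) := by
    rw [hS, Finset.card_powersetCard, Nat.card_Icc]
    congr 1
    omega
  have hinj : Set.InjOn (fun J : Finset ℕ => insert (s - ∑ i ∈ J, i) J) (S : Set (Finset ℕ)) := by
    intro J hJ J' hJ' h
    simp only at h
    have key : ∀ J ∈ S, (insert (s - ∑ i ∈ J, i) J).filter (fun i => i ≤ 2 * N) = J := by
      intro J hJ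
      rw [Finset.filter_insert, if_neg (by have := hb J hJ; omega), Finset.filter_true_of_mem]
      intro i hi
      exact (Finset.mem_Icc.1 ((Finset.mem_powersetCard.1 hJ).1 hi)).2
    rw [← key J hJ, ← key J' hJ', h]
  have himg : S.image (fun J : Finset ℕ => insert (s - ∑ i ∈ J, i) J) ⊆
      ((Finset.Icc 1 s).powersetCard d).filter (fun I => ∑ i ∈ I, i = s) := by
    intro I hI
    rw [Finset.mem_image] at hI
    obtain ⟨J, hJ, rfl⟩ := hI
    have hJ2 := Finset.mem_powersetCard.1 hJ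
    have h1 := hb J hJ
    have h3 := hsum J hJ
    rw [Finset.mem_filter, Finset.mem_powersetCard]
    refine ⟨⟨?_, ?_⟩, ?_⟩
    · intro i hi
      rw [Finset.mem_insert] at hi
      rw [Finset.mem_Icc]
      rcases hi with rfl | hi
      · exact ⟨by omega, Nat.sub_le _ _⟩
      · have := Finset.mem_Icc.1 (hJ2.1 hi)
        constructor
        · omega
        · have : 2 * N ≤ 2 * d * N := by omega
          omega
    · rw [Finset.card_insert_of_notMem (hnot J hJ), hJ2.2]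
      omega
    · rw [Finset.sum_insert (hnot J hJ)]
      omega
  unfold R
  refine le_trans ?_ (Finset.sum_le_sum_of_subset_of_nonneg himg fun I _ _ =>
    Finset.prod_nonneg fun i _ => v_nonneg d i)
  rw [Finset.sum_image hinj]
  have hterm : ∀ J ∈ S, (1 / 4 : ℝ) ^ (d - 1) * ((s : ℝ) ^ (-(3 / 2) : ℝ) / 4) ≤
      ∏ i ∈ insert (s - ∑ i ∈ J, i) J, pp d i * (1 - pp d i) := by
    intro J hJ
    have hJ2 := Finset.mem_powersetCard.1 hJ
    rw [Finset.prod_insert (hnot J hJ), mul_comm]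
    have h1 : ∏ i ∈ J, pp d i * (1 - pp d i) = (1 / 4 : ℝ) ^ (d - 1) := by
      rw [← hJ2.2, ← Finset.prod_const]
      refine Finset.prod_congr rfl fun i hi => v_block ?_
      obtain ⟨t, ht⟩ := hN
      have := Finset.mem_Icc.1 (hJ2.1 hi)
      exact ⟨t, by rw [← ht]; exact this.1, by rw [← ht]; exact this.2⟩
    rw [h1]
    refine mul_le_mul_of_nonneg_right (v_low ?_ (hbs J hJ)) (by positivity)
    have := hb J hJ
    omega
  have := Finset.card_nsmul_le_sum S _ _ hterm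
  rw [nsmul_eq_mul, hcard] at this
  exact this

/-- `R_d(s) ≥ κ √s` for large `s` -/
lemma R_sqrt {d : ℕ} (hd : 3 ≤ d) : ∃ κ : ℝ, 0 < κ ∧ ∃ s0 : ℕ, ∀ s : ℕ, s0 ≤ s →
    κ * Real.sqrt s ≤ R (pp d) d s := by
  refine ⟨(1 / (32 * d ^ 2)) ^ 2 / (d - 1).factorial * (1 / 4) ^ d, by positivity,
    2 * d * (8 * d) ^ (d + 2) + 1, fun s hs => ?_⟩
  -- the block
  have hex : ∃ t : ℕ, 2 * d * (8 * d) ^ t < s ∧ s ≤ 2 * d * (8 * d) ^ (t + 1) ∧ d + 2 ≤ t := by
    have hex1 : ∃ t : ℕ, s ≤ 2 * d * (8 * d) ^ t := by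
      refine ⟨s, ?_⟩
      have h1 : s < (8 * d) ^ s := Nat.lt_pow_self (by omega)
      have h2 : (8 * d) ^ s ≤ 2 * d * (8 * d) ^ s := Nat.le_mul_of_pos_left _ (by omega)
      omega
    classical
    have h1 := Nat.find_spec hex1
    have h2 : Nat.find hex1 ≠ 0 := by
      intro h
      rw [h] at h1
      have h3 : 1 ≤ (8 * d) ^ (d + 2) := Nat.one_le_pow _ _ (by omega)
      have h4 : 2 * d * 1 ≤ 2 * d * (8 * d) ^ (d + 2) := Nat.mul_le_mul_left _ h3
      rw [pow_zero] at h1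
      omega
    obtain ⟨t, ht⟩ : ∃ t, Nat.find hex1 = t + 1 := ⟨Nat.find hex1 - 1, by omega⟩
    have h3 := Nat.find_min hex1 (m := t) (by omega)
    rw [ht] at h1
    refine ⟨t, by omega, h1, ?_⟩
    by_contra hcon
    have h4 : (8 * d) ^ (t + 1) ≤ (8 * d) ^ (d + 2) := Nat.pow_le_pow_right (by omega) (by omega)
    have h5 : 2 * d * (8 * d) ^ (t + 1) ≤ 2 * d * (8 * d) ^ (d + 2) := Nat.mul_le_mul_left _ h4
    omega
  obtain ⟨t, ht1, ht2, ht3⟩ := hex
  set N := (8 * d) ^ t with hN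
  have hR := R_low (d := d) (by omega) (N := N) (s := s) ⟨t, hN⟩ ht1
  refine le_trans ?_ hR
  have hs0 : (0 : ℝ) < s := by
    have : 0 < s := by omega
    exact_mod_cast this
  have hdN : 2 * d ≤ N := by
    have h1 : d + 2 < N := lt_of_le_of_lt ht3 (Nat.lt_pow_self (by omega))
    have h2 : 8 * d ≤ N := by
      rw [hN]
      calc 8 * d = (8 * d) ^ 1 := (pow_one _).symm
        _ ≤ (8 * d) ^ t := Nat.pow_le_pow_right (by omega) (by omega)
    omega
  -- the binomial coefficient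
  have hc : ((N : ℝ) / 2) ^ 2 / (d - 1).factorial ≤ ((N + 1).choose (d - 1) : ℝ) := by
    refine le_trans ?_ (Nat.pow_le_choose (d - 1) (N + 1))
    have h1 : (N : ℝ) / 2 ≤ ((N + 1 + 1 - (d - 1) : ℕ) : ℝ) := by
      rw [div_le_iff₀ (by norm_num)]
      have : N ≤ (N + 1 + 1 - (d - 1)) * 2 := by omega
      exact_mod_cast this
    have h2 : (1 : ℝ) ≤ (N : ℝ) / 2 := by
      rw [le_div_iff₀ (by norm_num)]
      have : 1 * 2 ≤ N := by omega
      exact_mod_cast this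
    have h3 : ((N : ℝ) / 2) ^ 2 ≤ (((N + 1 + 1 - (d - 1) : ℕ) : ℝ)) ^ (d - 1) :=
      calc ((N : ℝ) / 2) ^ 2 ≤ ((N : ℝ) / 2) ^ (d - 1) := pow_le_pow_right₀ h2 (by omega)
        _ ≤ _ := pow_le_pow_left₀ (by positivity) h1 _
    gcongr
  have hNs : (s : ℝ) / (16 * d ^ 2) ≤ N := by
    rw [div_le_iff₀ (by positivity)]
    have : s ≤ N * (16 * d ^ 2) := by
      calc s ≤ 2 * d * (8 * d) ^ (t + 1) := ht2
        _ = N * (16 * d ^ 2) := by rw [pow_succ, hN]; ring
    exact_mod_cast this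
  have h32 : (s : ℝ) ^ (-(3 / 2) : ℝ) * s ^ 2 = Real.sqrt s := by
    rw [Real.sqrt_eq_rpow, ← Real.rpow_natCast, ← Real.rpow_add hs0]
    norm_num
  have hpos : (0 : ℝ) ≤ (s : ℝ) ^ (-(3 / 2) : ℝ) := by positivity
  have h4 : (1 / 4 : ℝ) ^ d = (1 / 4) ^ (d - 1) * (1 / 4) := by
    rw [← pow_succ]; congr 1; omega
  calc (1 / (32 * (d : ℝ) ^ 2)) ^ 2 / (d - 1).factorial * (1 / 4) ^ d * Real.sqrt s
      = ((s : ℝ) / (16 * d ^ 2) / 2) ^ 2 / (d - 1).factorial *
        ((1 / 4) ^ (d - 1) * ((s : ℝ) ^ (-(3 / 2) : ℝ) / 4)) := by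
        rw [h4, ← h32]
        have : (s : ℝ) / (16 * d ^ 2) / 2 = s * (1 / (32 * d ^ 2)) := by
          field_simp
          norm_num
        rw [this]
        ring
    _ ≤ ((N : ℝ) / 2) ^ 2 / (d - 1).factorial *
        ((1 / 4) ^ (d - 1) * ((s : ℝ) ^ (-(3 / 2) : ℝ) / 4)) := by
        gcongr
    _ ≤ _ := by gcongr

lemma summ_R {d : ℕ} (hd : 3 ≤ d) {c : ℝ} (hc : 0 < c) :
    Summable (fun s : ℕ => (s : ℝ) * Real.exp (-(c * R (pp d) d s))) := by
  obtain ⟨κ, hκ, s0, hs⟩ := R_sqrt hd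
  have h1 : Summable (fun s : ℕ => 720 / (c * κ) ^ 6 * (1 / (s : ℝ) ^ 2)) :=
    (Real.summable_one_div_nat_pow.2 (by norm_num)).mul_left _
  refine Summable.of_norm_bounded_eventually_nat h1 ?_
  filter_upwards [eventually_ge_atTop (max s0 1)] with s hs1
  have hs0 : (0 : ℝ) < s := by
    have : 0 < s := lt_of_lt_of_le (by norm_num) (le_trans (le_max_right _ _) hs1)
    exact_mod_cast this
  have h2 := hs s (le_trans (le_max_left _ _) hs1)
  rw [Real.norm_of_nonneg (by positivity)]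
  set y := c * κ * Real.sqrt s with hy
  have hsq : 0 < Real.sqrt s := Real.sqrt_pos.2 hs0
  have hy0 : 0 < y := by positivity
  have h3 : Real.exp (-(c * R (pp d) d s)) ≤ Real.exp (-y) := by
    rw [Real.exp_le_exp, hy]
    have := mul_le_mul_of_nonneg_left h2 hc.le
    linarith
  have h4 : y ^ 6 / 720 ≤ Real.exp y := by
    have := Real.pow_div_factorial_le_exp y hy0.le 6
    have h6 : ((6 : ℕ).factorial : ℝ) = 720 := by norm_num [Nat.factorial]
    rwa [h6] at this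
  have h5 : Real.exp (-y) ≤ 720 / y ^ 6 := by
    rw [Real.exp_neg, inv_le_comm₀ (Real.exp_pos _) (by positivity), inv_div]
    exact h4
  have h6 : y ^ 6 = (c * κ) ^ 6 * (s : ℝ) ^ 3 := by
    rw [hy, mul_pow]
    congr 1
    calc Real.sqrt s ^ 6 = (Real.sqrt s ^ 2) ^ 3 := by ring
      _ = _ := by rw [Real.sq_sqrt hs0.le]
  calc (s : ℝ) * Real.exp (-(c * R (pp d) d s)) ≤ s * (720 / y ^ 6) := by
        gcongr
        exact h3.trans h5
    _ = _ := by
        rw [h6]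
        field_simp

lemma summ_pp : Summable (fun n : ℕ => (n : ℝ) ^ (-(3 / 2) : ℝ) / 2) := by
  refine Summable.div_const ?_ 2
  exact Real.summable_nat_rpow.2 (by norm_num)

/-- almost surely the power is not normal in base two -/
lemma ae_not_normal {d : ℕ} (hd : 1 ≤ d) {Ω : Type*} [MeasurableSpace Ω] (μ : Measure Ω)
    (ξ : ℕ → Ω → Bool)
    (hlaw : ∀ n, μ (ξ n ⁻¹' {true}) = ENNReal.ofReal (pp d n)) :
    ∀ᵐ ω ∂μ, ¬ NormalBase 2 (val (fun n => ξ n ω) ^ d) := by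
  classical
  have h1 : ∑' n, μ (if n ∈ A (8 * d) then ∅ else ξ n ⁻¹' {true}) ≠ ⊤ := by
    have h2 : ∀ n, μ (if n ∈ A (8 * d) then ∅ else ξ n ⁻¹' {true}) ≤
        ENNReal.ofReal ((n : ℝ) ^ (-(3 / 2) : ℝ) / 2) := by
      intro n
      split_ifs with h
      · simp
      · rw [hlaw]
        unfold pp
        rw [if_neg h]
    refine ne_top_of_le_ne_top ?_ (ENNReal.tsum_le_tsum h2)
    exact summ_pp.tsum_ofReal_ne_top
  filter_upwards [ae_finite_setOfPred_mem h1] with ω hω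
  refine not_normal _ d hd (hω.subset ?_)
  rintro n ⟨hn1, hn2⟩
  simp only [Set.mem_ofPred_eq]
  rw [if_neg hn1]
  exact hn2

/-- independent bits with prescribed laws exist -/
lemma exists_bits (p : ℕ → ℝ) (hp : ∀ n, 0 ≤ p n ∧ p n ≤ 1) :
    ∃ μ : Measure (ℕ → Bool), IsProbabilityMeasure μ ∧
      iIndepFun (fun (n : ℕ) (ω : ℕ → Bool) => ω n) μ ∧
      ∀ n, μ ((fun ω : ℕ → Bool => ω n) ⁻¹' {true}) = ENNReal.ofReal (p n) := by
  have hle : ∀ n, (p n).toNNReal ≤ 1 := fun n => Real.toNNReal_le_one.2 (hp n).2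
  set ν : ℕ → Measure Bool := fun n => (PMF.bernoulli (p n).toNNReal (hle n)).toMeasure with hν
  have : ∀ n, IsProbabilityMeasure (ν n) := fun n => by rw [hν]; infer_instance
  refine ⟨Measure.infinitePi ν, inferInstance, ?_, fun n => ?_⟩
  · exact iIndepFun_infinitePi (X := fun _ x => x) (fun _ => measurable_id)
  · have h1 := Measure.infinitePi_map_eval ν n
    have h2 : Measure.map (fun ω : ℕ → Bool => ω n) (Measure.infinitePi ν) {true} = ν n {true} := by
      rw [← h1]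
    rw [Measure.map_apply (measurable_pi_apply n) (measurableSet_singleton _)] at h2
    rw [h2, hν]
    simp only
    rw [PMF.toMeasure_apply_singleton _ _ (measurableSet_singleton _)]
    rw [PMF.bernoulli_apply]
    rfl

end Q264.RP
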