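import Pool.Agent.Q264.TMPow

/-!
# Windows of coefficients modulo `M` for series with a functional equation `f = P(x) f(x ^ p)`

The windows are lists of natural numbers, so that the finite closure check can be done by evaluation.
-/

set_option autoImplicit false

namespace Q264.RegWin

open PowerSeries Finset Q264.Quad Q264.TMPow

/-- `∑ j < n, f j`, by recursion -/
def sumTo (f : ℕ → ℕ) : ℕ → ℕ
  | 0 => 0
  | n + 1 => sumTo f n + f n

theorem sumTo_eq (f : ℕ → ℕ) (n : ℕ) : sumTo f n = ∑ j ∈ range n, f j := by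
  induction n with
  | zero => rfl
  | succ n ih => rw [sumTo, ih, Finset.sum_range_succ]

/-- entry of a list, `0` outside -/
def get : List ℕ → ℕ → ℕ
  | [], _ => 0
  | a :: _, 0 => a
  | _ :: s, n + 1 => get s n

/-- the list `f lo, f (lo + 1), ..., f (lo + n - 1)` -/
def tabulate (f : ℕ → ℕ) : ℕ → ℕ → List ℕ
  | 0, _ => []
  | n + 1, lo => f lo :: tabulate f n (lo + 1)

theorem get_tabulate (f : ℕ → ℕ) : ∀ n lo k, k < n → get (tabulate f n lo) k = f (lo + k) := by
  intro n
  induction n with
  | zero => intro lo k hk; omega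
  | succ n ih =>
    intro lo k hk
    rcases k with _ | k
    · rfl
    · rw [tabulate, get, ih _ _ (by omega)]
      congr 1
      omega

theorem tabulate_congr {f g : ℕ → ℕ} : ∀ n lo, (∀ k, lo ≤ k → k < lo + n → f k = g k) →
    tabulate f n lo = tabulate g n lo := by
  intro n
  induction n with
  | zero => intro lo _; rfl
  | succ n ih =>
    intro lo h
    rw [tabulate, tabulate, h lo le_rfl (by omega), ih (lo + 1) (fun k h1 h2 => h k (by omega) (by omega))]

/-- the residue of the coefficient -/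
noncomputable def res (M : ℕ) (f : PowerSeries ℤ) (n : ℤ) : ℕ := (ext0 f n % (M : ℤ)).toNat

theorem res_cast {M : ℕ} (hM : 0 < M) (f : PowerSeries ℤ) (n : ℤ) : (res M f n : ℤ) = ext0 f n % (M : ℤ) := by
  unfold res
  exact Int.toNat_of_nonneg (Int.emod_nonneg _ (by omega))

theorem res_modEq {M : ℕ} (hM : 0 < M) (f : PowerSeries ℤ) (n : ℤ) : (res M f n : ℤ) ≡ ext0 f n [ZMOD (M : ℤ)] := by
  rw [res_cast hM]
  exact Int.mod_modEq _ _

/-- the window of length `w` at `n` -/
noncomputable def wn (M : ℕ) (f : PowerSeries ℤ) (w : ℕ) (n : ℤ) : List ℕ := tabulate (fun l => res M f (n - l)) w 0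

/-- the linear form giving the entry `l` of the window at `p n + d` -/
def lin (p D : ℕ) (c : List ℕ) (d l : ℕ) (s : List ℕ) : ℕ :=
  sumTo (fun j => if (Nat.ble d (l + j) && Nat.beq ((l + j - d) % p) 0) = true
    then get c j * get s ((l + j - d) / p) else 0) (D + 1)

theorem ext0_expand' (p : ℕ) (hp : p ≠ 0) (f : PowerSeries ℤ) (n : ℤ) :
    ext0 (expand p hp f) n = if (p : ℤ) ∣ n then ext0 f (n / p) else 0 := by
  have hp' : (0 : ℤ) < p := by omega
  unfold ext0
  by_cases h0 : 0 ≤ n
  · rw [if_pos h0, coeff_expand]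
    obtain ⟨k, rfl⟩ := Int.eq_ofNat_of_zero_le h0
    simp only [Int.toNat_natCast]
    by_cases h1 : p ∣ k
    · rw [if_pos h1, if_pos (by exact_mod_cast h1), if_pos (by positivity)]
      norm_cast
    · rw [if_neg h1, if_neg (by exact_mod_cast h1)]
  · rw [if_neg h0]
    split_ifs with h1 h2
    · exfalso
      have := Int.ediv_neg_of_neg_of_pos (show n < 0 by omega) hp'
      omega
    · rfl
    · rfl

theorem ext0_poly_expand (p : ℕ) (hp : p ≠ 0) (g : PowerSeries ℤ) (D : ℕ) (c : ℕ → ℤ) (n : ℤ) (d l : ℕ) (hd : d < p) :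
    ext0 ((∑ j ∈ range (D + 1), C (c j) * X ^ j) * expand p hp g) (p * n + d - l) =
      ∑ j ∈ range (D + 1), (if d ≤ l + j ∧ (l + j - d) % p = 0
        then c j * ext0 g (n - ((l + j - d) / p : ℕ)) else 0) := by
  have e1 : (∑ j ∈ range (D + 1), C (c j) * X ^ j) * expand p hp g =
      ∑ j ∈ range (D + 1), C (c j) * (X ^ j * expand p hp g) := by
    rw [Finset.sum_mul]
    exact Finset.sum_congr rfl fun j _ => by ring
  rw [e1, ext0_sum]
  refine Finset.sum_congr rfl fun j _ => ?_
  rw [ext0_X_pow_mul, ext0_expand']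
  by_cases h1 : d ≤ l + j
  · obtain ⟨e, he⟩ := Nat.exists_eq_add_of_le h1
    have h2 : l + j - d = e := by omega
    rw [h2]
    have h3 : (p : ℤ) * n + d - l - j = p * n - e := by
      have : (l : ℤ) + j = d + e := by exact_mod_cast he
      linarith
    rw [h3]
    by_cases h4 : e % p = 0
    · have hR : (d ≤ l + j ∧ e % p = 0) := ⟨h1, h4⟩
      obtain ⟨q, hq⟩ := Nat.dvd_of_mod_eq_zero h4
      have h5 : (p : ℤ) * n - (e : ℤ) = p * (n - q) := by rw [hq]; push_cast; ring
      rw [h5, if_pos (dvd_mul_right _ _), if_pos hR, Int.mul_ediv_cancel_left _ (by omega), hq,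
        Nat.mul_div_cancel_left _ (by omega)]
    · have hR : ¬ (d ≤ l + j ∧ e % p = 0) := fun h => h4 h.2
      have hL : ¬ (p : ℤ) ∣ p * n - e := by
        intro h5
        apply h4
        have h6 : (p : ℤ) ∣ e := by
          have := dvd_sub (dvd_mul_right (p : ℤ) n) h5
          rwa [sub_sub_cancel] at this
        exact Nat.mod_eq_zero_of_dvd (by exact_mod_cast h6)
      rw [if_neg hL, if_neg hR, mul_zero]
  · have hR : ¬ (d ≤ l + j ∧ (l + j - d) % p = 0) := fun h => h1 h.1
    have hL : ¬ (p : ℤ) ∣ p * n + d - l - j := by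
      intro h5
      obtain ⟨e, he⟩ := Nat.exists_eq_add_of_lt (show l + j < d by omega)
      have h6 : (p : ℤ) ∣ ((e + 1 : ℕ) : ℤ) := by
        have h7 : (p : ℤ) * n + d - l - j = p * n + ((e + 1 : ℕ) : ℤ) := by
          have : (d : ℤ) = l + j + e + 1 := by exact_mod_cast he
          push_cast
          linarith
        rw [h7] at h5
        exact (Int.dvd_add_right (dvd_mul_right _ _)).1 h5
      have h8 : p ∣ e + 1 := by exact_mod_cast h6
      have := Nat.le_of_dvd (by omega) h8
      omega
    rw [if_neg hL, if_neg hR, mul_zero]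

theorem lin_spec {M p : ℕ} (hM : 0 < M) (hp : p ≠ 0) (g : PowerSeries ℤ) (D : ℕ) (c : ℕ → ℤ) (cl : List ℕ)
    (hc : ∀ j ≤ D, (get cl j : ℤ) ≡ c j [ZMOD (M : ℤ)]) (n : ℤ) (d l w : ℕ) (hd : d < p) (hw : (l + D) / p < w) :
    (lin p D cl d l (wn M g w n) : ℤ) ≡
      ext0 ((∑ j ∈ range (D + 1), C (c j) * X ^ j) * expand p hp g) (p * n + d - l) [ZMOD (M : ℤ)] := by
  rw [ext0_poly_expand p hp g D c n d l hd]
  unfold lin
  rw [sumTo_eq, Nat.cast_sum]
  refine Int.ModEq.sum fun j hj => ?_
  rw [mem_range] at hj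
  by_cases h : d ≤ l + j ∧ (l + j - d) % p = 0
  · rw [if_pos h, if_pos]
    · push_cast
      refine Int.ModEq.mul (hc j (by omega)) ?_
      have h1 : (l + j - d) / p < w := by
        refine lt_of_le_of_lt (Nat.div_le_div_right ?_) hw
        omega
      unfold wn
      rw [get_tabulate _ _ _ _ h1, zero_add]
      exact res_modEq hM g _
    · rw [Bool.and_eq_true]
      exact ⟨Nat.ble_eq.mpr h.1, Nat.beq_eq.mpr h.2⟩
  · rw [if_neg h, if_neg]
    · simp
    · intro h1
      rw [Bool.and_eq_true] at h1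
      exact h ⟨Nat.le_of_ble_eq_true h1.1, Nat.eq_of_beq_eq_true h1.2⟩

theorem res_eq_of_modEq {M : ℕ} (hM : 0 < M) {f : PowerSeries ℤ} {n : ℤ} {x : ℕ} (h : (x : ℤ) ≡ ext0 f n [ZMOD (M : ℤ)]) :
    res M f n = x % M := by
  have h1 := res_cast hM f n
  have h2 : ((x % M : ℕ) : ℤ) = ext0 f n % M := by
    push_cast
    exact h
  omega

/-- membership of a list in a table -/
def eqL : List ℕ → List ℕ → Bool
  | [], [] => true
  | a :: s, b :: t => Nat.beq a b && eqL s t
  | _, _ => false

theorem eqL_spec : ∀ s t : List ℕ, eqL s t = true → s = t := by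
  intro s
  induction s with
  | nil => intro t h; cases t with
    | nil => rfl
    | cons b t => simp [eqL] at h
  | cons a s ih => intro t h; cases t with
    | nil => simp [eqL] at h
    | cons b t =>
      rw [eqL, Bool.and_eq_true] at h
      rw [Nat.eq_of_beq_eq_true h.1, ih t h.2]

def memL (s : List ℕ) : List (List ℕ) → Bool
  | [] => false
  | t :: T => eqL s t || memL s T

theorem memL_spec (s : List ℕ) : ∀ T, memL s T = true → s ∈ T := by
  intro T
  induction T with
  | nil => intro h; simp [memL] at h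
  | cons t T ih =>
    intro h
    rw [memL, Bool.or_eq_true] at h
    rcases h with h | h
    · rw [eqL_spec _ _ h]; exact List.mem_cons_self
    · exact List.mem_cons_of_mem _ (ih h)

/-- check a predicate on all elements -/
def allL (P : List ℕ → Bool) : List (List ℕ) → Bool
  | [] => true
  | t :: T => P t && allL P T

theorem allL_spec (P : List ℕ → Bool) : ∀ T, allL P T = true → ∀ s ∈ T, P s = true := by
  intro T
  induction T with
  | nil => intro _ s hs; simp at hs
  | cons t T ih =>
    intro h s hs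
    rw [allL, Bool.and_eq_true] at h
    rcases List.mem_cons.1 hs with h1 | h1
    · rw [h1]; exact h.1
    · exact ih h.2 s h1

end Q264.RegWin
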