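import Pool.Agent.Q264.RegWin

/-!
# Closure check for the windows of one series
-/

set_option autoImplicit false

namespace Q264.RegWin

open PowerSeries Finset Q264.Quad Q264.TMPow

/-- the step on windows -/
def stepL (M p D : ℕ) (cl : List ℕ) (w d : ℕ) (s : List ℕ) : List ℕ := tabulate (fun l => lin p D cl d l s % M) w 0

theorem wn_step {M p w D : ℕ} (hM : 0 < M) (hp : p ≠ 0) (f g : PowerSeries ℤ) (c : ℕ → ℤ) (cl : List ℕ)
    (hf : f = (∑ j ∈ range (D + 1), C (c j) * X ^ j) * expand p hp g)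
    (hc : ∀ j ≤ D, (get cl j : ℤ) ≡ c j [ZMOD (M : ℤ)]) (hw : ∀ l < w, (l + D) / p < w) (n : ℤ) (d : ℕ) (hd : d < p) :
    wn M f w (p * n + d) = stepL M p D cl w d (wn M g w n) := by
  unfold stepL
  rw [wn]
  refine tabulate_congr _ _ fun l _ hl => ?_
  refine res_eq_of_modEq hM ?_
  rw [hf]
  exact lin_spec hM hp g D c cl hc n d l w hd (hw l (by omega))

/-- all digits -/
def allD (P : ℕ → Bool) : ℕ → Bool
  | 0 => true
  | n + 1 => allD P n && P n

theorem allD_spec (P : ℕ → Bool) : ∀ n, allD P n = true → ∀ d < n, P d = true := by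
  intro n
  induction n with
  | zero => intro _ d hd; omega
  | succ n ih =>
    intro h d hd
    rw [allD, Bool.and_eq_true] at h
    rcases Nat.lt_succ_iff_lt_or_eq.1 hd with h1 | h1
    · exact ih h.1 d h1
    · rw [h1]; exact h.2

theorem wn_zero {M : ℕ} (f : PowerSeries ℤ) (hf : coeff 0 f = 1) (w : ℕ) :
    wn M f w 0 = tabulate (fun l => if Nat.beq l 0 then 1 % M else 0) w 0 := by
  unfold wn
  refine tabulate_congr _ _ fun l _ _ => ?_
  unfold res ext0
  by_cases h : l = 0
  · subst h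
    simp only [Nat.cast_zero, sub_zero, le_refl, if_true, Int.toNat_zero, hf]
    rfl
  · rw [if_neg (by omega), if_neg (by simpa using h)]
    simp

theorem closure {M p w D : ℕ} (hM : 0 < M) (hp : p ≠ 0) (hp2 : 2 ≤ p) (f : PowerSeries ℤ) (c : ℕ → ℤ) (cl : List ℕ)
    (hf : f = (∑ j ∈ range (D + 1), C (c j) * X ^ j) * expand p hp f) (hf0 : coeff 0 f = 1)
    (hc : ∀ j ≤ D, (get cl j : ℤ) ≡ c j [ZMOD (M : ℤ)]) (hw : ∀ l < w, (l + D) / p < w)
    (T : List (List ℕ)) (h0 : memL (tabulate (fun l => if Nat.beq l 0 then 1 % M else 0) w 0) T = true)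
    (hT : allL (fun s => allD (fun d => memL (stepL M p D cl w d s) T) p) T = true) :
    ∀ n : ℕ, wn M f w n ∈ T := by
  intro n
  induction n using Nat.strong_induction_on with
  | _ n ih =>
    rcases Nat.eq_zero_or_pos n with rfl | hn
    · rw [Nat.cast_zero, wn_zero f hf0]
      exact memL_spec _ _ h0
    · have h1 := ih (n / p) (Nat.div_lt_self hn hp2)
      have h2 := allD_spec _ _ (allL_spec _ _ hT _ h1) (n % p) (Nat.mod_lt _ (by omega))
      have h3 := wn_step hM hp f f c cl hf hc hw ((n / p : ℕ) : ℤ) (n % p) (Nat.mod_lt _ (by omega))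
      have h4 : (p : ℤ) * ((n / p : ℕ) : ℤ) + ((n % p : ℕ) : ℤ) = (n : ℤ) := by
        exact_mod_cast Nat.div_add_mod n p
      rw [h4] at h3
      rw [h3]
      exact memL_spec _ _ h2

end Q264.RegWin
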