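import Mathlib

/-!
# Exhaustive search for bounded additive bases of `ℤ/36`

A subset `A` of `ℤ/36` is encoded by its even part `E` and its odd part `O` (subsets of `ℤ/18`).
-/

namespace Q264.Ruzsa

/-- rotation modulus -/
def NN : ℕ := 16 ^ 18 - 1
/-- `1111...` in base 16 -/
def ONES : ℕ := NN / 15

/-- some digit of `K` is at least 3 (digits at most 10) or some digit of `S` is at least 6
(digits at most 9) -/
def viol (K S : ℕ) : Bool :=
  !(Nat.beq (Nat.land (K + 5 * ONES) (8 * ONES)) 0 && Nat.beq (Nat.land (S + 2 * ONES) (8 * ONES)) 0)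

/-- loop over a list of candidates -/
def loop (En : ℕ) (r : ℕ → ℕ → ℕ → ℕ → Bool) (Cn K S : ℕ) : List ℕ → ℕ → Bool
  | [], _ => true
  | o :: L, F =>
    cond (Nat.beq (Nat.land (Nat.shiftRight F o) 1) 1) (loop En r Cn K S L F)
      (cond (cond (viol (K + (En * 16 ^ o) % NN)
          (S + 2 * ((Cn * 16 ^ (o + 1)) % NN) + 16 ^ ((2 * o + 1) % 18))) true
        (r (Cn + 16 ^ o) (Nat.lor F (2 ^ o)) (K + (En * 16 ^ o) % NN)
          (S + 2 * ((Cn * 16 ^ (o + 1)) % NN) + 16 ^ ((2 * o + 1) % 18))))
        (loop En r Cn K S L (Nat.lor F (2 ^ o))) false)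

/-- candidates at a stage -/
def cand (E : List ℕ) (stage : ℕ) : List ℕ := E.map (fun a => (stage + 18 - a) % 18)

/-- depth first search; `true` means: no completion -/
def go (E : List ℕ) (En : ℕ) : ℕ → ℕ → ℕ → ℕ → ℕ → ℕ → Bool
  | 0, _, _, _, _, _ => false
  | fuel + 1, stage, Cn, F, K, S =>
    cond (Nat.blt stage 18)
      (cond (Nat.beq (K / 16 ^ stage % 16) 0)
        (loop En (go E En fuel (stage + 1)) Cn K S (cand E stage) F)
        (go E En fuel (stage + 1) Cn F K S))
      (cond (Nat.blt stage 36)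
        (cond (Nat.beq (S / 16 ^ (stage - 18) % 16) 0)
          (loop En (go E En fuel stage) Cn K S (List.range 18) F)
          (go E En fuel (stage + 1) Cn F K S))
        false)

/-- sum of powers over a list -/
def encL (b : ℕ) : List ℕ → ℕ
  | [] => 0
  | a :: L => b ^ a + encL b L

/-- the sums inside `E` -/
def selfS (En : ℕ) : List ℕ → ℕ
  | [] => 0
  | a :: L => (En * 16 ^ a) % NN + selfS En L

/-- mask of `u (E - b)` -/
def img (E : List ℕ) (u b : ℕ) : ℕ := encL 2 (E.map (fun a => (u * (a + 18 - b)) % 18))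

/-- `E` is minimal among its images -/
def canon (E : List ℕ) : Bool :=
  let m := encL 2 E
  E.all (fun b => Nat.ble m (img E 1 b)) &&
  [5, 7, 11, 13, 17].all (fun u => E.all (fun b => Nat.ble m (img E u b)))

/-- the check at a leaf -/
def leaf (E : List ℕ) : Bool :=
  cond (canon E)
    (cond (viol 0 (selfS (encL 16 E) E)) true
      (go E (encL 16 E) 40 0 0 0 0 (selfS (encL 16 E) E))) true

/-- enumeration of the lists with at most `c` further elements among `pos, ..., 17` -/
def enumE : ℕ → ℕ → ℕ → List ℕ → Bool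
  | 0, _, _, cur => leaf cur
  | k + 1, pos, c, cur =>
    cond (enumE k (pos + 1) c cur)
      (cond (Nat.beq c 0) true (enumE k (pos + 1) (c - 1) (cur ++ [pos]))) false

theorem search : enumE 17 1 5 [0] = true := by decide +kernel

end Q264.Ruzsa
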