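import Mathlib
import Pool.Agent.Q264.RuzsaC

/-!
# Soundness of the search
-/

namespace Q264.Ruzsa

open Finset

/-- base 16 encoding of the first `m` values of `f` -/
def encm (m : ℕ) (f : ℕ → ℕ) : ℕ := ∑ n ∈ range m, f n * 16 ^ n

lemma encm_succ (m : ℕ) (f : ℕ → ℕ) : encm (m + 1) f = encm m f + f m * 16 ^ m := by
  simp [encm, sum_range_succ]

lemma encm_lt (m : ℕ) (f : ℕ → ℕ) (h : ∀ n < m, f n < 16) : encm m f < 16 ^ m := by
  induction m with
  | zero => simp [encm]
  | succ m ih =>
    rw [encm_succ, pow_succ]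
    have h1 := ih (fun n hn => h n (by omega))
    have h2 := h m (by omega)
    have h3 : f m * 16 ^ m ≤ 15 * 16 ^ m := Nat.mul_le_mul_right _ (by omega)
    omega

lemma encm_digit (m : ℕ) (f : ℕ → ℕ) (h : ∀ n < m, f n < 16) (n : ℕ) (hn : n < m) :
    encm m f / 16 ^ n % 16 = f n := by
  induction m with
  | zero => omega
  | succ m ih =>
    rw [encm_succ]
    rcases Nat.lt_or_ge n m with h1 | h1
    · have e : f m * 16 ^ m = (f m * 16 ^ (m - n - 1) * 16) * 16 ^ n := by
        rw [mul_assoc, mul_assoc, ← pow_succ', ← pow_add]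
        congr 2
        omega
      rw [e, Nat.add_mul_div_right _ _ (by positivity), Nat.add_mul_mod_self_right]
      exact ih (fun k hk => h k (by omega)) h1
    · have e : n = m := by omega
      subst e
      rw [Nat.add_mul_div_right _ _ (by positivity),
        Nat.div_eq_of_lt (encm_lt n f (fun k hk => h k (by omega))), zero_add]
      exact Nat.mod_eq_of_lt (h n (by omega))

lemma land_add (m a b c d : ℕ) (hb : b < 16 ^ m) (hd : d < 16 ^ m) :
    Nat.land (a * 16 ^ m + b) (c * 16 ^ m + d) = Nat.land a c * 16 ^ m + Nat.land b d := by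
  have e : (16 : ℕ) ^ m = 2 ^ (4 * m) := by rw [pow_mul]; norm_num
  rw [e] at hb hd ⊢
  have hbd : Nat.land b d < 2 ^ (4 * m) := Nat.and_lt_two_pow b hd
  apply Nat.eq_of_testBit_eq
  intro i
  rw [mul_comm a, mul_comm c, mul_comm (Nat.land a c)]
  change ((2 ^ (4 * m) * a + b) &&& (2 ^ (4 * m) * c + d)).testBit i = _
  rw [Nat.testBit_and, Nat.testBit_two_pow_mul_add _ hb, Nat.testBit_two_pow_mul_add _ hd,
    Nat.testBit_two_pow_mul_add _ hbd]
  split_ifs with h
  · exact (Nat.testBit_and _ _ _).symm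
  · exact (Nat.testBit_and _ _ _).symm

lemma land_encm (m : ℕ) (f g : ℕ → ℕ) (hf : ∀ n < m, f n < 16) (hg : ∀ n < m, g n < 16) :
    Nat.land (encm m f) (encm m g) = encm m (fun n => Nat.land (f n) (g n)) := by
  induction m with
  | zero => simp [encm]
  | succ m ih =>
    rw [encm_succ, encm_succ, encm_succ, add_comm (encm m f), add_comm (encm m g),
      land_add m _ _ _ _ (encm_lt m f (fun n hn => hf n (by omega)))
        (encm_lt m g (fun n hn => hg n (by omega))),
      ih (fun n hn => hf n (by omega)) (fun n hn => hg n (by omega))]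
    exact add_comm _ _

lemma encm_add (m : ℕ) (f g : ℕ → ℕ) : encm m f + encm m g = encm m (fun n => f n + g n) := by
  simp [encm, ← sum_add_distrib, add_mul]

lemma encm_mul (m c : ℕ) (f : ℕ → ℕ) : c * encm m f = encm m (fun n => c * f n) := by
  simp [encm, mul_sum, mul_assoc]

lemma encm_congr (m : ℕ) (f g : ℕ → ℕ) (h : ∀ n < m, f n = g n) : encm m f = encm m g := by
  unfold encm
  apply sum_congr rfl
  intro n hn
  rw [h n (mem_range.1 hn)]

lemma ONES_eq (c : ℕ) : c * ONES = encm 18 (fun _ => c) := by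
  have : ONES = encm 18 (fun _ => 1) := by decide +kernel
  rw [this, encm_mul]
  apply encm_congr
  intro n _
  ring

lemma viol_false (k s : ℕ → ℕ) (hk : ∀ n < 18, k n ≤ 2) (hs : ∀ n < 18, s n ≤ 5) :
    viol (encm 18 k) (encm 18 s) = false := by
  have land7 : ∀ x ≤ 7, Nat.land x 8 = 0 := by decide
  unfold viol
  rw [ONES_eq 5, ONES_eq 8, ONES_eq 2, encm_add, encm_add,
    land_encm 18 _ _ (fun n hn => by have := hk n hn; omega) (fun n hn => by norm_num),
    land_encm 18 _ _ (fun n hn => by have := hs n hn; omega) (fun n hn => by norm_num),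
    encm_congr 18 _ (fun _ => 0) (fun n hn => land7 _ (by have := hk n hn; omega)),
    encm_congr 18 (fun n => Nat.land (s n + 2) 8) (fun _ => 0)
      (fun n hn => land7 _ (by have := hs n hn; omega))]
  have : encm 18 (fun _ => 0) = 0 := by simp [encm]
  rw [this]
  rfl

/-! ### rotations -/

/-- indicator -/
def ind (C : Finset ℕ) (n : ℕ) : ℕ := if n ∈ C then 1 else 0

/-- encoding of a set -/
def encF (C : Finset ℕ) : ℕ := ∑ c ∈ C, 16 ^ c

lemma pow_mod_NN (n : ℕ) (hn : n < 36) : 16 ^ n ≡ 16 ^ (n % 18) [MOD NN] := by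
  rcases Nat.lt_or_ge n 18 with h | h
  · rw [Nat.mod_eq_of_lt h]
  · obtain ⟨k, rfl⟩ : ∃ k, n = k + 18 := ⟨n - 18, by omega⟩
    have e : (k + 18) % 18 = k := by omega
    rw [e, pow_add]
    have h1 : 16 ^ 18 ≡ 1 [MOD NN] := by decide +kernel
    calc 16 ^ k * 16 ^ 18 ≡ 16 ^ k * 1 [MOD NN] := Nat.ModEq.mul_left _ h1
      _ = 16 ^ k := mul_one _

lemma rot_lemma (C : Finset ℕ) (hC : C ⊆ range 18) (s : ℕ) (hs : s ≤ 18) :
    (encF C * 16 ^ s) % NN = encm 18 (fun n => ind C ((n + 18 - s) % 18)) := by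
  have h1 : encF C * 16 ^ s ≡ ∑ c ∈ C, 16 ^ ((c + s) % 18) [MOD NN] := by
    unfold encF
    rw [sum_mul]
    have : ∀ D : Finset ℕ, D ⊆ range 18 →
        (∑ c ∈ D, 16 ^ c * 16 ^ s) ≡ ∑ c ∈ D, 16 ^ ((c + s) % 18) [MOD NN] := by
      intro D
      induction D using Finset.induction_on with
      | empty => intro _; simp [Nat.ModEq]
      | insert a D ha ih =>
        intro hD
        rw [sum_insert ha, sum_insert ha]
        apply Nat.ModEq.add
        · rw [← pow_add]
          have := mem_range.1 (hD (mem_insert_self a D))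
          rcases Nat.lt_or_ge (a + s) 36 with h | h
          · exact pow_mod_NN _ h
          · omega
        · exact ih (fun x hx => hD (mem_insert_of_mem hx))
    exact this C hC
  have h2 : ∑ c ∈ C, 16 ^ ((c + s) % 18) = encm 18 (fun n => ind C ((n + 18 - s) % 18)) := by
    unfold encm ind
    simp only [ite_mul, one_mul, zero_mul]
    rw [← sum_filter]
    refine sum_nbij' (fun c => (c + s) % 18) (fun n => (n + 18 - s) % 18) ?_ ?_ ?_ ?_ ?_
    · intro c hc
      have h3 := mem_range.1 (hC hc)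
      simp only [mem_filter, mem_range]
      refine ⟨Nat.mod_lt _ (by norm_num), ?_⟩
      have : ((c + s) % 18 + 18 - s) % 18 = c := by omega
      rw [this]; exact hc
    · intro n hn
      simp only [mem_filter] at hn
      exact hn.2
    · intro c hc
      have h3 := mem_range.1 (hC hc)
      omega
    · intro n hn
      simp only [mem_filter, mem_range] at hn
      omega
    · intro c _
      rfl
  rw [h2] at h1
  have h3 : encm 18 (fun n => ind C ((n + 18 - s) % 18)) < NN := by
    have h4 : encm 18 (fun n => ind C ((n + 18 - s) % 18)) ≤ encm 18 (fun _ => 1) := by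
      unfold encm
      apply sum_le_sum
      intro n _
      apply Nat.mul_le_mul_right
      unfold ind
      beta_reduce
      split_ifs <;> norm_num
    have h5 : encm 18 (fun _ => 1) < NN := by decide +kernel
    omega
  rw [h1, Nat.mod_eq_of_lt h3]

/-! ### counting functions -/

/-- odd residue counts -/
def kf (E C : Finset ℕ) (n : ℕ) : ℕ := ∑ c ∈ C, ind E ((n + 18 - c) % 18)

/-- counts inside the even part -/
def sE (E : Finset ℕ) (n : ℕ) : ℕ := ∑ a ∈ E, ind E ((n + 18 - a) % 18)

/-- even residue counts -/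
def sf (E C : Finset ℕ) (n : ℕ) : ℕ := sE E n + ∑ c ∈ C, ind C ((n + 17 - c) % 18)

lemma kf_mono (E : Finset ℕ) {C D : Finset ℕ} (h : C ⊆ D) (n : ℕ) : kf E C n ≤ kf E D n :=
  sum_le_sum_of_subset h

lemma ind_mono {C D : Finset ℕ} (h : C ⊆ D) (n : ℕ) : ind C n ≤ ind D n := by
  unfold ind
  split_ifs with h1 h2
  · exact le_refl _
  · exact absurd (h h1) h2
  · norm_num
  · norm_num

lemma sf_mono (E : Finset ℕ) {C D : Finset ℕ} (h : C ⊆ D) (n : ℕ) : sf E C n ≤ sf E D n := by
  unfold sf
  apply Nat.add_le_add_left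
  calc ∑ c ∈ C, ind C ((n + 17 - c) % 18) ≤ ∑ c ∈ C, ind D ((n + 17 - c) % 18) :=
        sum_le_sum (fun c _ => ind_mono h _)
    _ ≤ ∑ c ∈ D, ind D ((n + 17 - c) % 18) := sum_le_sum_of_subset h

lemma kf_insert (E C : Finset ℕ) (o : ℕ) (ho : o ∉ C) (n : ℕ) :
    kf E (insert o C) n = kf E C n + ind E ((n + 18 - o) % 18) := by
  unfold kf
  rw [sum_insert ho]; ring

lemma sf_insert (E C : Finset ℕ) (hC : C ⊆ range 18) (o : ℕ) (ho18 : o < 18) (ho : o ∉ C) (n : ℕ)
    (hn : n < 18) :
    sf E (insert o C) n = sf E C n + 2 * ind C ((n + 17 - o) % 18)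
      + (if n = (2 * o + 1) % 18 then 1 else 0) := by
  unfold sf
  rw [sum_insert ho]
  have h1 : ∀ x, ind (insert o C) x = ind C x + (if x = o then 1 else 0) := by
    intro x
    unfold ind
    by_cases hx : x = o
    · subst hx; simp [ho]
    · simp [hx]
  simp only [h1]
  rw [sum_add_distrib]
  have h2 : ∑ c ∈ C, (if (n + 17 - c) % 18 = o then 1 else 0) = ind C ((n + 17 - o) % 18) := by
    have h3 : ∀ c ∈ C, ((n + 17 - c) % 18 = o ↔ c = (n + 17 - o) % 18) := by
      intro c hc
      have := mem_range.1 (hC hc)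
      omega
    rw [sum_congr rfl (fun c hc => by rw [if_congr (h3 c hc) rfl rfl])]
    rw [sum_ite_eq' C]
    rfl
  rw [h2]
  have h4 : ((n + 17 - o) % 18 = o) ↔ n = (2 * o + 1) % 18 := by omega
  rw [if_congr h4 rfl rfl]
  ring

end Q264.Ruzsa
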