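import Mathlib
import Pool.Agent.Q264.RuzsaS

/-!
# Soundness of the depth first search
-/

namespace Q264.Ruzsa

open Finset

/-- the state invariant -/
structure Inv (E O C X : Finset ℕ) (Cn F K S : ℕ) : Prop where
  sub : C ⊆ O
  cn : Cn = encF C
  f : ∀ i, F.testBit i = decide (i ∈ X)
  cx : C ⊆ X
  xo : ∀ x ∈ X, x ∈ O → x ∈ C
  k : K = encm 18 (kf E C)
  s : S = encm 18 (sf E C)

/-- the constraints on the odd part -/
structure Good (E O : Finset ℕ) : Prop where
  he : E ⊆ range 18
  ho : O ⊆ range 18
  k1 : ∀ n < 18, 1 ≤ kf E O n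
  k2 : ∀ n < 18, kf E O n ≤ 2
  s1 : ∀ n < 18, 1 ≤ sf E O n
  s2 : ∀ n < 18, sf E O n ≤ 5

lemma beq_testBit (F o : ℕ) :
    Nat.beq (Nat.land (Nat.shiftRight F o) 1) 1 = F.testBit o := by
  have h := Nat.testBit_eq_decide_div_mod_eq (x := F) (i := o)
  rw [h]
  have e1 : Nat.land (Nat.shiftRight F o) 1 = F / 2 ^ o % 2 := by
    have : Nat.shiftRight F o = F / 2 ^ o := Nat.shiftRight_eq_div_pow F o
    rw [this]
    exact Nat.and_one_is_mod _
  rw [e1]
  rcases Nat.mod_two_eq_zero_or_one (F / 2 ^ o) with h0 | h0
  · rw [h0]; decide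
  · rw [h0]; decide

lemma inv_insert {E O C X : Finset ℕ} {Cn F K S : ℕ} (hg : Good E O)
    (h : Inv E O C X Cn F K S) (o : ℕ) (ho18 : o < 18) (hoX : o ∉ X) (hoO : o ∈ O) :
    Inv E O (insert o C) (insert o X) (Cn + 16 ^ o) (Nat.lor F (2 ^ o))
      (K + (encF E * 16 ^ o) % NN)
      (S + 2 * ((Cn * 16 ^ (o + 1)) % NN) + 16 ^ ((2 * o + 1) % 18)) := by
  have hoC : o ∉ C := fun hc => hoX (h.cx hc)
  have hC : C ⊆ range 18 := h.sub.trans hg.ho
  refine ⟨?_, ?_, ?_, ?_, ?_, ?_, ?_⟩
  · exact insert_subset hoO h.sub
  · rw [h.cn]; unfold encF; rw [sum_insert hoC]; ring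
  · intro i
    have : (Nat.lor F (2 ^ o)).testBit i = (F.testBit i || (2 ^ o).testBit i) :=
      Nat.testBit_or _ _ _
    rw [this, h.f i, Nat.testBit_two_pow]
    by_cases hi : i = o
    · subst hi; simp
    · have hi' : ¬ (o = i) := fun e => hi e.symm
      simp [hi, hi']
  · exact insert_subset_insert _ h.cx
  · intro x hx hxO
    rcases mem_insert.1 hx with rfl | hx
    · exact mem_insert_self _ _
    · exact mem_insert_of_mem (h.xo x hx hxO)
  · rw [h.k, rot_lemma E hg.he o (by omega), encm_add]
    apply encm_congr
    intro n _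
    rw [kf_insert E C o hoC]
  · rw [h.s, h.cn, rot_lemma C hC (o + 1) (by omega)]
    have h1 : 16 ^ ((2 * o + 1) % 18)
        = encm 18 (fun n => if n = (2 * o + 1) % 18 then 1 else 0) := by
      unfold encm
      simp only [ite_mul, one_mul, zero_mul]
      rw [sum_ite_eq' (range 18), if_pos (mem_range.2 (Nat.mod_lt _ (by norm_num)))]
    rw [h1, encm_mul, encm_add, encm_add]
    apply encm_congr
    intro n hn
    rw [sf_insert E C hC o ho18 hoC n hn]
    have e : n + 18 - (o + 1) = n + 17 - o := by omega
    rw [e]

lemma cond_split {a b c : Bool} (h : cond (cond a true b) c false = true) :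
    (a = false → b = true) ∧ c = true := by
  revert h
  cases a <;> cases b <;> cases c <;> decide

lemma loop_cons_mem (En : ℕ) (r : ℕ → ℕ → ℕ → ℕ → Bool) (Cn K S o : ℕ) (L : List ℕ) (F : ℕ)
    (ht : F.testBit o = true) (h : loop En r Cn K S (o :: L) F = true) :
    loop En r Cn K S L F = true := by
  rw [loop, beq_testBit, ht, cond_true] at h
  exact h

lemma loop_cons_not (En : ℕ) (r : ℕ → ℕ → ℕ → ℕ → Bool) (Cn K S o : ℕ) (L : List ℕ) (F : ℕ)
    (ht : F.testBit o = false) (h : loop En r Cn K S (o :: L) F = true) :
    (viol (K + (En * 16 ^ o) % NN)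
          (S + 2 * ((Cn * 16 ^ (o + 1)) % NN) + 16 ^ ((2 * o + 1) % 18)) = false →
      r (Cn + 16 ^ o) (Nat.lor F (2 ^ o)) (K + (En * 16 ^ o) % NN)
          (S + 2 * ((Cn * 16 ^ (o + 1)) % NN) + 16 ^ ((2 * o + 1) % 18)) = true) ∧
    loop En r Cn K S L (Nat.lor F (2 ^ o)) = true := by
  rw [loop, beq_testBit, ht, cond_false] at h
  exact cond_split h

lemma loop_sound {E O : Finset ℕ} (hg : Good E O) (r : ℕ → ℕ → ℕ → ℕ → Bool)
    (hr : ∀ C X Cn F K S, Inv E O C X Cn F K S → r Cn F K S = true → False)
    {C : Finset ℕ} {Cn K S : ℕ} :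
    ∀ (L : List ℕ) (F : ℕ) (X : Finset ℕ), (∀ o ∈ L, o < 18) → Inv E O C X Cn F K S →
      loop (encF E) r Cn K S L F = true → ∀ o ∈ L, o ∈ O → o ∈ C := by
  intro L
  induction L with
  | nil => intro F X _ _ _ o ho; simp at ho
  | cons o L ih =>
    intro F X hL hI hl p hp hpO
    have ho18 : o < 18 := hL o (by simp)
    by_cases hoX : o ∈ X
    · have hl := loop_cons_mem _ _ _ _ _ _ _ _ (by rw [hI.f o]; simpa using hoX) hl
      rcases List.mem_cons.1 hp with rfl | hp
      · exact hI.xo _ hoX hpO
      · exact ih F X (fun q hq => hL q (by simp [hq])) hI hl p hp hpO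
    · have hl := loop_cons_not _ _ _ _ _ _ _ _ (by rw [hI.f o]; simpa using hoX) hl
      by_cases hoO : o ∈ O
      · exfalso
        have hI' := inv_insert hg hI o ho18 hoX hoO
        refine hr _ _ _ _ _ _ hI' (hl.1 ?_)
        rw [hI'.k, hI'.s]
        apply viol_false
        · intro n hn; exact (kf_mono E hI'.sub n).trans (hg.k2 n hn)
        · intro n hn; exact (sf_mono E hI'.sub n).trans (hg.s2 n hn)
      · rcases List.mem_cons.1 hp with rfl | hp
        · exact absurd hpO hoO
        · have hI2 : Inv E O C (insert o X) Cn (Nat.lor F (2 ^ o)) K S := by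
            refine ⟨hI.sub, hI.cn, ?_, hI.cx.trans (subset_insert _ _), ?_, hI.k, hI.s⟩
            · intro i
              have : (Nat.lor F (2 ^ o)).testBit i = (F.testBit i || (2 ^ o).testBit i) :=
                Nat.testBit_or _ _ _
              rw [this, hI.f i, Nat.testBit_two_pow]
              by_cases hi : i = o
              · subst hi; simp
              · have hi' : ¬ (o = i) := fun e => hi e.symm
                simp [hi, hi']
            · intro x hx hxO
              rcases mem_insert.1 hx with rfl | hx
              · exact absurd hxO hoO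
              · exact hI.xo x hx hxO
          exact ih _ _ (fun q hq => hL q (by simp [hq])) hI2 hl.2 p hp hpO

lemma go_succ (E : List ℕ) (En fuel stage Cn F K S : ℕ) :
    go E En (fuel + 1) stage Cn F K S =
    cond (Nat.blt stage 18)
      (cond (Nat.beq (K / 16 ^ stage % 16) 0)
        (loop En (go E En fuel (stage + 1)) Cn K S (cand E stage) F)
        (go E En fuel (stage + 1) Cn F K S))
      (cond (Nat.blt stage 36)
        (cond (Nat.beq (S / 16 ^ (stage - 18) % 16) 0)
          (loop En (go E En fuel stage) Cn K S (List.range 18) F)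
          (go E En fuel (stage + 1) Cn F K S))
        false) := rfl

lemma beq_zero_false {x : ℕ} (h : ¬ x = 0) : Nat.beq x 0 = false := by
  rw [← Bool.not_eq_true]
  intro hh
  exact h (Nat.eq_of_beq_eq_true hh)

lemma beq_zero_true {x : ℕ} (h : x = 0) : Nat.beq x 0 = true := by rw [h]; rfl

lemma blt_true {x y : ℕ} (h : x < y) : Nat.blt x y = true := by rw [Nat.blt_eq]; exact h

lemma blt_false {x y : ℕ} (h : ¬ x < y) : Nat.blt x y = false := by
  rw [← Bool.not_eq_true, Nat.blt_eq]; exact h

lemma go1 {E : List ℕ} {En fuel stage Cn F K S : ℕ} (h18 : stage < 18)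
    (hz : K / 16 ^ stage % 16 = 0) (h : go E En (fuel + 1) stage Cn F K S = true) :
    loop En (go E En fuel (stage + 1)) Cn K S (cand E stage) F = true := by
  rw [go_succ, blt_true h18, beq_zero_true hz, cond_true, cond_true] at h
  exact h

lemma go2 {E : List ℕ} {En fuel stage Cn F K S : ℕ} (h18 : stage < 18)
    (hz : ¬ K / 16 ^ stage % 16 = 0) (h : go E En (fuel + 1) stage Cn F K S = true) :
    go E En fuel (stage + 1) Cn F K S = true := by
  rw [go_succ, blt_true h18, beq_zero_false hz, cond_true, cond_false] at h
  exact h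

lemma go3 {E : List ℕ} {En fuel stage Cn F K S : ℕ} (h18 : ¬ stage < 18) (h36 : stage < 36)
    (hz : S / 16 ^ (stage - 18) % 16 = 0) (h : go E En (fuel + 1) stage Cn F K S = true) :
    loop En (go E En fuel stage) Cn K S (List.range 18) F = true := by
  rw [go_succ, blt_false h18, blt_true h36, beq_zero_true hz, cond_false, cond_true,
    cond_true] at h
  exact h

lemma go4 {E : List ℕ} {En fuel stage Cn F K S : ℕ} (h18 : ¬ stage < 18) (h36 : stage < 36)
    (hz : ¬ S / 16 ^ (stage - 18) % 16 = 0) (h : go E En (fuel + 1) stage Cn F K S = true) :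
    go E En fuel (stage + 1) Cn F K S = true := by
  rw [go_succ, blt_false h18, blt_true h36, beq_zero_false hz, cond_false, cond_true,
    cond_false] at h
  exact h

lemma go5 {E : List ℕ} {En fuel stage Cn F K S : ℕ} (h18 : ¬ stage < 18) (h36 : ¬ stage < 36)
    (h : go E En (fuel + 1) stage Cn F K S = true) : False := by
  rw [go_succ, blt_false h18, blt_false h36, cond_false, cond_false] at h
  exact Bool.false_ne_true h

lemma go_sound {E O : Finset ℕ} (hg : Good E O) (El : List ℕ) (hEl : ∀ a, a ∈ El ↔ a ∈ E) :
    ∀ (fuel stage : ℕ) (C X : Finset ℕ) (Cn F K S : ℕ), Inv E O C X Cn F K S →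
      go El (encF E) fuel stage Cn F K S = true → False := by
  intro fuel
  induction fuel with
  | zero =>
    intro stage C X Cn F K S _ h
    exact Bool.false_ne_true h
  | succ fuel ih =>
    intro stage C X Cn F K S hI h
    have hC : C ⊆ range 18 := hI.sub.trans hg.ho
    have hkd : ∀ n < 18, kf E C n < 16 := fun n hn =>
      lt_of_le_of_lt ((kf_mono E hI.sub n).trans (hg.k2 n hn)) (by norm_num)
    have hsd : ∀ n < 18, sf E C n < 16 := fun n hn =>
      lt_of_le_of_lt ((sf_mono E hI.sub n).trans (hg.s2 n hn)) (by norm_num)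
    by_cases h18 : stage < 18
    · by_cases hz : K / 16 ^ stage % 16 = 0
      · have h' := go1 h18 hz h
        have hL : ∀ o ∈ cand El stage, o < 18 := by
          intro o ho
          simp only [cand, List.mem_map] at ho
          obtain ⟨a, _, rfl⟩ := ho
          exact Nat.mod_lt _ (by norm_num)
        have hls := loop_sound hg (go El (encF E) fuel (stage + 1))
          (fun C X Cn F K S hI' h' => ih (stage + 1) C X Cn F K S hI' h') _ F X hL hI h'
        clear h h' ih
        rw [hI.k, encm_digit 18 _ hkd stage h18] at hz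
        have h1 := hg.k1 stage h18
        have h2 : ∃ c ∈ O, ind E ((stage + 18 - c) % 18) ≠ 0 := by
          by_contra hne
          push Not at hne
          have : kf E O stage = 0 := sum_eq_zero hne
          omega
        obtain ⟨c, hcO, hc⟩ := h2
        have hcE : (stage + 18 - c) % 18 ∈ E := by
          unfold ind at hc
          by_contra hh
          simp [hh] at hc
        have hc18 := mem_range.1 (hg.ho hcO)
        have hcand : c ∈ cand El stage := by
          simp only [cand, List.mem_map]
          refine ⟨(stage + 18 - c) % 18, (hEl _).2 hcE, ?_⟩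
          clear hls hz hI
          omega
        have hcC := hls c hcand hcO
        have : kf E C stage ≠ 0 := by
          have : ind E ((stage + 18 - c) % 18) ≤ kf E C stage :=
            single_le_sum (f := fun c => ind E ((stage + 18 - c) % 18))
              (fun _ _ => Nat.zero_le _) hcC
          intro h0
          rw [h0] at this
          exact hc (Nat.le_zero.1 this)
        exact this hz
      · exact ih _ _ _ _ _ _ _ hI (go2 h18 hz h)
    · by_cases h36 : stage < 36
      · by_cases hz : S / 16 ^ (stage - 18) % 16 = 0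
        · have h' := go3 h18 h36 hz h
          have hls := loop_sound hg (go El (encF E) fuel stage)
            (fun C X Cn F K S hI' h' => ih stage C X Cn F K S hI' h') _ F X
            (fun o ho => List.mem_range.1 ho) hI h'
          clear h h' ih
          have hOC : O ⊆ C := by
            intro o ho
            exact hls o (List.mem_range.2 (mem_range.1 (hg.ho ho))) ho
          have hCO : C = O := Subset.antisymm hI.sub hOC
          rw [hI.s, encm_digit 18 _ hsd (stage - 18) (by omega), hCO] at hz
          have h5 := hg.s1 (stage - 18) (by omega)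
          rw [hz] at h5
          exact absurd h5 (by norm_num)
        · exact ih _ _ _ _ _ _ _ hI (go4 h18 h36 hz h)
      · exact go5 h18 h36 h

lemma encL_eq (b : ℕ) (L : List ℕ) (h : L.Nodup) : encL b L = ∑ a ∈ L.toFinset, b ^ a := by
  induction L with
  | nil => simp [encL]
  | cons a L ih =>
    rw [List.nodup_cons] at h
    rw [encL, List.toFinset_cons, sum_insert (by simpa using h.1), ih h.2]

lemma selfS_eq (E : Finset ℕ) (hE : E ⊆ range 18) (L : List ℕ) (h : L.Nodup)
    (hL : ∀ a ∈ L, a < 18) :
    selfS (encF E) L = encm 18 (fun n => ∑ a ∈ L.toFinset, ind E ((n + 18 - a) % 18)) := by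
  induction L with
  | nil => simp [selfS, encm]
  | cons a L ih =>
    rw [List.nodup_cons] at h
    rw [selfS, ih h.2 (fun b hb => hL b (by simp [hb])),
      rot_lemma E hE a (by have := hL a (by simp); omega), encm_add]
    apply encm_congr
    intro n _
    rw [List.toFinset_cons, sum_insert (by simpa using h.1)]

lemma leaf_elim {E : List ℕ} (hc : canon E = true)
    (hv : viol 0 (selfS (encL 16 E) E) = false) (hl : leaf E = true) :
    go E (encL 16 E) 40 0 0 0 0 (selfS (encL 16 E) E) = true := by
  rw [leaf, hc, hv, cond_true, cond_false] at hl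
  exact hl

/-- a list passing the leaf test, canonical, has no good odd part -/
lemma leaf_sound (L : List ℕ) (hnd : L.Nodup) (hL : ∀ a ∈ L, a < 18)
    (hc : canon L = true) (hl : leaf L = true) (O : Finset ℕ) (hg : Good L.toFinset O) : False := by
  have henc : encL 16 L = encF L.toFinset := encL_eq 16 L hnd
  have hself : selfS (encF L.toFinset) L = encm 18 (sf L.toFinset ∅) := by
    rw [selfS_eq _ hg.he L hnd hL]
    apply encm_congr
    intro n _
    simp [sf, sE]
  have hI : Inv L.toFinset O ∅ ∅ 0 0 0 (selfS (encF L.toFinset) L) := by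
    refine ⟨empty_subset _, by simp [encF], ?_, empty_subset _, by simp, ?_, hself⟩
    · intro i; simp
    · simp [encm, kf]
  have hv : viol 0 (selfS (encL 16 L) L) = false := by
    rw [henc, hself]
    have h0 : (0 : ℕ) = encm 18 (fun _ => 0) := by simp [encm]
    rw [h0]
    apply viol_false
    · intro n _; norm_num
    · intro n hn; exact (sf_mono _ (empty_subset O) n).trans (hg.s2 n hn)
  have hgo := leaf_elim hc hv hl
  rw [henc] at hgo
  exact go_sound hg L (fun a => by simp) 40 0 ∅ ∅ 0 0 0 _ hI hgo

lemma enumE_sound (p : ℕ → Bool) : ∀ (k pos c : ℕ) (cur : List ℕ),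
    enumE k pos c cur = true → ((List.range' pos k).filter p).length ≤ c →
      leaf (cur ++ (List.range' pos k).filter p) = true := by
  intro k
  induction k with
  | zero => intro pos c cur h _; simpa [enumE] using h
  | succ k ih =>
    intro pos c cur h hlen
    rw [List.range'_succ] at hlen ⊢
    simp only [enumE] at h
    have h1 : enumE k (pos + 1) c cur = true := by
      revert h; cases enumE k (pos + 1) c cur <;> simp
    rw [h1] at h
    simp only [cond_true] at h
    by_cases hp : p pos = true
    · rw [List.filter_cons_of_pos hp] at hlen ⊢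
      have hc : c ≠ 0 := by
        intro hc
        rw [hc] at hlen
        simp at hlen
      have e : Nat.beq c 0 = false := by
        rw [← Bool.not_eq_true]
        intro hh
        exact hc (Nat.eq_of_beq_eq_true hh)
      rw [e] at h
      simp only [cond_false] at h
      have := ih (pos + 1) (c - 1) (cur ++ [pos]) h (by
        simp only [List.length_cons] at hlen
        omega)
      simpa using this
    · rw [List.filter_cons_of_neg hp] at hlen ⊢
      exact ih (pos + 1) c cur h1 hlen

end Q264.Ruzsa
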