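import Mathlib
import Pool.Agent.Q264.RuzsaT

/-!
# From subsets of `ℤ/36` to pairs of subsets of `ℤ/18`
-/

namespace Q264.Ruzsa

open Finset

/-- number of ordered representations -/
def sigma (m : ℕ) (A : Finset (ZMod m)) (n : ZMod m) : ℕ :=
  ((A ×ˢ A).filter (fun p => p.1 + p.2 = n)).card

/-- even part -/
def Ev (A : Finset (ZMod 36)) : Finset ℕ :=
  (range 18).filter (fun i => (((2 * i : ℕ)) : ZMod 36) ∈ A)

/-- odd part -/
def Od (A : Finset (ZMod 36)) : Finset ℕ :=
  (range 18).filter (fun i => (((2 * i + 1 : ℕ)) : ZMod 36) ∈ A)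

lemma univ36 : (univ : Finset (ZMod 36)) =
    (range 18).image (fun i => ((2 * i : ℕ) : ZMod 36)) ∪
    (range 18).image (fun i => ((2 * i + 1 : ℕ) : ZMod 36)) := by decide +kernel

lemma disj36 : Disjoint ((range 18).image (fun i => ((2 * i : ℕ) : ZMod 36)))
    ((range 18).image (fun i => ((2 * i + 1 : ℕ) : ZMod 36))) := by decide +kernel

lemma inj_even : ∀ i ∈ range 18, ∀ j ∈ range 18,
    ((2 * i : ℕ) : ZMod 36) = ((2 * j : ℕ) : ZMod 36) → i = j := by decide +kernel

lemma inj_odd : ∀ i ∈ range 18, ∀ j ∈ range 18,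
    ((2 * i + 1 : ℕ) : ZMod 36) = ((2 * j + 1 : ℕ) : ZMod 36) → i = j := by decide +kernel

lemma sum_split (A : Finset (ZMod 36)) (g : ZMod 36 → ℕ) :
    ∑ y ∈ A, g y = ∑ i ∈ Ev A, g ((2 * i : ℕ) : ZMod 36)
      + ∑ i ∈ Od A, g ((2 * i + 1 : ℕ) : ZMod 36) := by
  have h1 : ∑ y ∈ A, g y = ∑ y : ZMod 36, if y ∈ A then g y else 0 := by
    rw [← sum_filter]
    congr 1
    ext y; simp
  rw [h1, univ36, sum_union disj36, sum_image inj_even, sum_image inj_odd, ← sum_filter,
    ← sum_filter]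
  rfl

lemma sigma_eq (A : Finset (ZMod 36)) (n : ZMod 36) :
    sigma 36 A n = ∑ y ∈ A, if n - y ∈ A then 1 else 0 := by
  unfold sigma
  rw [card_filter, sum_product]
  apply sum_congr rfl
  intro y _
  have : ∀ x ∈ A, ((if y + x = n then 1 else 0) : ℕ) = if x = n - y then 1 else 0 := by
    intro x _
    have : y + x = n ↔ x = n - y := by
      constructor
      · intro h; rw [← h]; ring
      · intro h; rw [h]; ring
    simp only [this]
  rw [sum_congr rfl this]
  rw [sum_ite_eq' A]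

lemma ee : ∀ n < 18, ∀ a < 18, ((2 * n : ℕ) : ZMod 36) - ((2 * a : ℕ) : ZMod 36)
    = ((2 * ((n + 18 - a) % 18) : ℕ) : ZMod 36) := by decide +kernel
lemma eo : ∀ n < 18, ∀ a < 18, ((2 * n : ℕ) : ZMod 36) - ((2 * a + 1 : ℕ) : ZMod 36)
    = ((2 * ((n + 17 - a) % 18) + 1 : ℕ) : ZMod 36) := by decide +kernel
lemma oe : ∀ n < 18, ∀ a < 18, ((2 * n + 1 : ℕ) : ZMod 36) - ((2 * a : ℕ) : ZMod 36)
    = ((2 * ((n + 18 - a) % 18) + 1 : ℕ) : ZMod 36) := by decide +kernel
lemma oo : ∀ n < 18, ∀ a < 18, ((2 * n + 1 : ℕ) : ZMod 36) - ((2 * a + 1 : ℕ) : ZMod 36)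
    = ((2 * ((n + 18 - a) % 18) : ℕ) : ZMod 36) := by decide +kernel

lemma mem_Ev (A : Finset (ZMod 36)) (i : ℕ) (hi : i < 18) :
    i ∈ Ev A ↔ ((2 * i : ℕ) : ZMod 36) ∈ A := by
  simp [Ev, hi]

lemma mem_Od (A : Finset (ZMod 36)) (i : ℕ) (hi : i < 18) :
    i ∈ Od A ↔ ((2 * i + 1 : ℕ) : ZMod 36) ∈ A := by
  simp [Od, hi]

lemma Ev_sub (A : Finset (ZMod 36)) : Ev A ⊆ range 18 := filter_subset _ _
lemma Od_sub (A : Finset (ZMod 36)) : Od A ⊆ range 18 := filter_subset _ _

lemma sigma_even (A : Finset (ZMod 36)) (n : ℕ) (hn : n < 18) :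
    sigma 36 A ((2 * n : ℕ) : ZMod 36) = sf (Ev A) (Od A) n := by
  rw [sigma_eq, sum_split, sf, sE]
  congr 1
  · apply sum_congr rfl
    intro a ha
    rw [ee n hn a (mem_range.1 (Ev_sub A ha))]
    unfold ind
    exact if_congr (mem_Ev A _ (Nat.mod_lt _ (by norm_num))).symm rfl rfl
  · apply sum_congr rfl
    intro a ha
    rw [eo n hn a (mem_range.1 (Od_sub A ha))]
    unfold ind
    exact if_congr (mem_Od A _ (Nat.mod_lt _ (by norm_num))).symm rfl rfl

lemma sigma_odd (A : Finset (ZMod 36)) (n : ℕ) (hn : n < 18) :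
    sigma 36 A ((2 * n + 1 : ℕ) : ZMod 36) = 2 * kf (Ev A) (Od A) n := by
  rw [sigma_eq, sum_split]
  have h1 : (∑ i ∈ Od A, if ((2 * n + 1 : ℕ) : ZMod 36) - ((2 * i + 1 : ℕ) : ZMod 36) ∈ A
      then 1 else 0) = kf (Ev A) (Od A) n := by
    apply sum_congr rfl
    intro a ha
    rw [oo n hn a (mem_range.1 (Od_sub A ha))]
    unfold ind
    exact if_congr (mem_Ev A _ (Nat.mod_lt _ (by norm_num))).symm rfl rfl
  have h2 : (∑ i ∈ Ev A, if ((2 * n + 1 : ℕ) : ZMod 36) - ((2 * i : ℕ) : ZMod 36) ∈ A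
      then 1 else 0) = kf (Ev A) (Od A) n := by
    have h3 : (∑ i ∈ Ev A, if ((2 * n + 1 : ℕ) : ZMod 36) - ((2 * i : ℕ) : ZMod 36) ∈ A
      then 1 else 0) = ∑ i ∈ Ev A, ind (Od A) ((n + 18 - i) % 18) := by
      apply sum_congr rfl
      intro a ha
      rw [oe n hn a (mem_range.1 (Ev_sub A ha))]
      unfold ind
      exact if_congr (mem_Od A _ (Nat.mod_lt _ (by norm_num))).symm rfl rfl
    rw [h3]
    unfold kf ind
    rw [← card_filter, ← card_filter]
    refine card_nbij' (fun i => (n + 18 - i) % 18) (fun i => (n + 18 - i) % 18) ?_ ?_ ?_ ?_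
    · intro i hi
      simp only [coe_filter, Set.mem_ofPred_eq] at hi ⊢
      have := mem_range.1 (Ev_sub A hi.1)
      refine ⟨hi.2, ?_⟩
      have e : (n + 18 - (n + 18 - i) % 18) % 18 = i := by omega
      rw [e]; exact hi.1
    · intro i hi
      simp only [coe_filter, Set.mem_ofPred_eq] at hi ⊢
      have := mem_range.1 (Od_sub A hi.1)
      refine ⟨hi.2, ?_⟩
      have e : (n + 18 - (n + 18 - i) % 18) % 18 = i := by omega
      rw [e]; exact hi.1
    · intro i hi
      simp only [coe_filter, Set.mem_ofPred_eq] at hi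
      have := mem_range.1 (Ev_sub A hi.1)
      simp only
      omega
    · intro i hi
      simp only [coe_filter, Set.mem_ofPred_eq] at hi
      have := mem_range.1 (Od_sub A hi.1)
      simp only
      omega
  rw [h1, h2]; ring

/-- the property to be refuted -/
def Adm5 (A : Finset (ZMod 36)) : Prop := ∀ n : ZMod 36, 1 ≤ sigma 36 A n ∧ sigma 36 A n ≤ 5

lemma good_of_adm {A : Finset (ZMod 36)} (h : Adm5 A) : Good (Ev A) (Od A) := by
  refine ⟨Ev_sub A, Od_sub A, ?_, ?_, ?_, ?_⟩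
  · intro n hn
    have := h ((2 * n + 1 : ℕ) : ZMod 36)
    rw [sigma_odd A n hn] at this
    omega
  · intro n hn
    have := h ((2 * n + 1 : ℕ) : ZMod 36)
    rw [sigma_odd A n hn] at this
    omega
  · intro n hn
    have := h ((2 * n : ℕ) : ZMod 36)
    rw [sigma_even A n hn] at this
    exact this.1
  · intro n hn
    have := h ((2 * n : ℕ) : ZMod 36)
    rw [sigma_even A n hn] at this
    exact this.2

/-! ### affine images -/

/-- affine image -/
def aff (u t : ZMod 36) (A : Finset (ZMod 36)) : Finset (ZMod 36) := A.image (fun x => u * x + t)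

lemma mem_aff (u v t : ZMod 36) (huv : v * u = 1) (A : Finset (ZMod 36)) (x : ZMod 36) :
    x ∈ aff u t A ↔ v * (x - t) ∈ A := by
  have huv' : u * v = 1 := by rw [mul_comm]; exact huv
  unfold aff
  rw [mem_image]
  constructor
  · rintro ⟨y, hy, rfl⟩
    have : v * (u * y + t - t) = y := by
      have : v * (u * y + t - t) = (v * u) * y := by ring
      rw [this, huv, one_mul]
    rw [this]; exact hy
  · intro h
    refine ⟨_, h, ?_⟩
    have : u * (v * (x - t)) + t = (u * v) * (x - t) + t := by ring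
    rw [this, huv']; ring

lemma adm_aff (u v t : ZMod 36) (huv : v * u = 1) {A : Finset (ZMod 36)} (h : Adm5 A) :
    Adm5 (aff u t A) := by
  intro n
  have key : sigma 36 (aff u t A) n = sigma 36 A (v * (n - 2 * t)) := by
    rw [sigma_eq, sigma_eq]
    have hinj : ∀ x ∈ A, ∀ y ∈ A, u * x + t = u * y + t → x = y := by
      intro x _ y _ hxy
      have h1 : u * x = u * y := by linear_combination hxy
      calc x = (v * u) * x := by rw [huv, one_mul]
        _ = v * (u * x) := by ring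
        _ = v * (u * y) := by rw [h1]
        _ = (v * u) * y := by ring
        _ = y := by rw [huv, one_mul]
    rw [show aff u t A = A.image (fun x => u * x + t) from rfl, sum_image hinj]
    apply sum_congr rfl
    intro y _
    have h2 := mem_aff u v t huv A (n - (u * y + t))
    have h3 : v * (n - (u * y + t) - t) = v * (n - 2 * t) - y := by
      have : v * (n - (u * y + t) - t) = v * (n - 2 * t) - (v * u) * y := by ring
      rw [this, huv, one_mul]
    rw [h3] at h2
    have h4 : (n - (u * y + t) ∈ A.image (fun x => u * x + t)) ↔ v * (n - 2 * t) - y ∈ A := h2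
    simp only [h4]
  rw [key]
  exact h _

/-- the code to be minimised -/
def code (A : Finset (ZMod 36)) : ℕ := (Ev A).card * 2 ^ 18 + ∑ a ∈ Ev A, 2 ^ a

lemma sum_pow_lt (E : Finset ℕ) (hE : E ⊆ range 18) : ∑ a ∈ E, 2 ^ a < 2 ^ 18 := by
  calc ∑ a ∈ E, 2 ^ a ≤ ∑ a ∈ range 18, 2 ^ a := sum_le_sum_of_subset hE
    _ < 2 ^ 18 := by decide +kernel

/-- even part of an affine image with even shift `-2 u b` -/
lemma Ev_aff (u v b : ℕ) (hb : b < 18) (huv : (u * v) % 36 = 1)
    (A : Finset (ZMod 36)) :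
    Ev (aff (u : ZMod 36) (-(2 * u * b : ℕ) : ZMod 36) A)
      = (Ev A).image (fun a => (u * (a + 18 - b)) % 18) := by
  have huvc : (v : ZMod 36) * (u : ZMod 36) = 1 := by
    have : ((u * v : ℕ) : ZMod 36) = ((1 : ℕ) : ZMod 36) := by
      rw [ZMod.natCast_eq_natCast_iff]
      exact huv
    push_cast at this
    rw [mul_comm]; exact this
  have hkey : ∀ i < 18, ∀ a < 18, i = (u * (a + 18 - b)) % 18 ↔
      (v : ZMod 36) * (((2 * i : ℕ) : ZMod 36) - (-(2 * u * b : ℕ) : ZMod 36))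
        = ((2 * a : ℕ) : ZMod 36) := by
    intro i hi a ha
    have huvc' : (u : ZMod 36) * (v : ZMod 36) = 1 := by rw [mul_comm]; exact huvc
    have e1 : (v : ZMod 36) * (((2 * i : ℕ) : ZMod 36) - (-(2 * u * b : ℕ) : ZMod 36))
        = ((2 * a : ℕ) : ZMod 36) ↔
        ((2 * i : ℕ) : ZMod 36) + ((2 * u * b : ℕ) : ZMod 36) = ((u * (2 * a) : ℕ) : ZMod 36) := by
      constructor
      · intro h
        have : (u : ZMod 36) * ((v : ZMod 36) * (((2 * i : ℕ) : ZMod 36)
            - (-(2 * u * b : ℕ) : ZMod 36))) = (u : ZMod 36) * ((2 * a : ℕ) : ZMod 36) := by rw [h]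
        push_cast at this ⊢
        linear_combination this - (2 * (i : ZMod 36) + 2 * u * b) * huvc'
      · intro h
        push_cast at h ⊢
        linear_combination (v : ZMod 36) * h + (2 * (a : ZMod 36)) * huvc
    rw [e1, ← Nat.cast_add, ZMod.natCast_eq_natCast_iff]
    have e2 : (2 * i + 2 * u * b ≡ u * (2 * a) [MOD 36]) ↔ (i + u * b ≡ u * a [MOD 18]) := by
      have : (2 * i + 2 * u * b) = 2 * (i + u * b) := by ring
      rw [this, show u * (2 * a) = 2 * (u * a) by ring, show (36 : ℕ) = 2 * 18 by norm_num]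
      constructor
      · intro h; exact Nat.ModEq.mul_left_cancel' (by norm_num) h
      · intro h; exact Nat.ModEq.mul_left' 2 h
    rw [e2]
    have e3 : u * (a + 18 - b) + u * b = u * a + 18 * u := by
      rw [← mul_add, Nat.sub_add_cancel (by omega)]; ring
    constructor
    · intro h
      have h1 : i ≡ u * (a + 18 - b) [MOD 18] := by
        rw [h]; exact Nat.mod_modEq _ _
      calc i + u * b ≡ u * (a + 18 - b) + u * b [MOD 18] := Nat.ModEq.add_right _ h1
        _ = u * a + 18 * u := e3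
        _ ≡ u * a [MOD 18] := by
          unfold Nat.ModEq
          exact Nat.add_mul_mod_self_left _ _ _
    · intro h
      have h1 : i + u * b ≡ u * (a + 18 - b) + u * b [MOD 18] := by
        rw [e3]
        refine h.trans ?_
        unfold Nat.ModEq
        exact (Nat.add_mul_mod_self_left _ _ _).symm
      have h2 := Nat.ModEq.add_right_cancel' _ h1
      have h3 : i % 18 = (u * (a + 18 - b)) % 18 := h2
      rw [← h3, Nat.mod_eq_of_lt hi]
  ext i
  rw [mem_image]
  constructor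
  · intro hi
    have hi18 := mem_range.1 (Ev_sub _ hi)
    rw [mem_Ev _ i hi18, mem_aff _ _ _ huvc] at hi
    -- the preimage is even
    have hex : ∃ a < 18, (v : ZMod 36) * (((2 * i : ℕ) : ZMod 36) - (-(2 * u * b : ℕ) : ZMod 36))
        = ((2 * a : ℕ) : ZMod 36) := by
      refine ⟨(v * (i + u * b)) % 18, Nat.mod_lt _ (by norm_num), ?_⟩
      have : (v : ZMod 36) * (((2 * i : ℕ) : ZMod 36) - (-(2 * u * b : ℕ) : ZMod 36))
          = ((2 * (v * (i + u * b)) : ℕ) : ZMod 36) := by push_cast; ring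
      rw [this, ZMod.natCast_eq_natCast_iff, show (36 : ℕ) = 2 * 18 by norm_num]
      exact Nat.ModEq.mul_left' 2 (Nat.mod_modEq _ _).symm
    obtain ⟨a, ha18, ha⟩ := hex
    refine ⟨a, ?_, ?_⟩
    · rw [mem_Ev A a ha18, ← ha]; exact hi
    · exact ((hkey i hi18 a ha18).2 ha).symm
  · rintro ⟨a, ha, rfl⟩
    have ha18 := mem_range.1 (Ev_sub _ ha)
    have hi18 : (u * (a + 18 - b)) % 18 < 18 := Nat.mod_lt _ (by norm_num)
    rw [mem_Ev _ _ hi18, mem_aff _ _ _ huvc, (hkey _ hi18 a ha18).1 rfl]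
    exact (mem_Ev A a ha18).1 ha

end Q264.Ruzsa
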