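import Mathlib
import Pool.Agent.Q264.RuzsaW

/-!
# No subset of `ℤ/36` has all representation counts between 1 and 5
-/

namespace Q264.Ruzsa

open Finset

lemma card_Ev_shift (A : Finset (ZMod 36)) : (Ev (aff 1 1 A)).card = (Od A).card := by
  have h1 : ∀ i < 18, i ∈ Ev (aff 1 1 A) ↔ (i + 17) % 18 ∈ Od A := by
    intro i hi
    rw [mem_Ev _ i hi, mem_aff 1 1 1 (by norm_num), mem_Od A _ (Nat.mod_lt _ (by norm_num))]
    have key : ∀ i < 18, (1 : ZMod 36) * (((2 * i : ℕ) : ZMod 36) - 1)
        = ((2 * ((i + 17) % 18) + 1 : ℕ) : ZMod 36) := by decide +kernel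
    rw [key i hi]
  refine card_nbij' (fun i => (i + 17) % 18) (fun i => (i + 1) % 18) ?_ ?_ ?_ ?_
  · intro i hi
    have hi' : i ∈ Ev (aff 1 1 A) := by simpa using hi
    have h18 := mem_range.1 (Ev_sub _ hi')
    simpa using (h1 i h18).1 hi'
  · intro i hi
    have hi' : i ∈ Od A := by simpa using hi
    have h18 := mem_range.1 (Od_sub _ hi')
    have h2 : ((i + 1) % 18 + 17) % 18 = i := by omega
    have : (i + 1) % 18 ∈ Ev (aff 1 1 A) := by
      rw [h1 _ (Nat.mod_lt _ (by norm_num)), h2]; exact hi'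
    simpa using this
  · intro i hi
    have hi' : i ∈ Ev (aff 1 1 A) := by simpa using hi
    have h18 := mem_range.1 (Ev_sub _ hi')
    change ((i + 17) % 18 + 1) % 18 = i
    omega
  · intro i hi
    have hi' : i ∈ Od A := by simpa using hi
    have h18 := mem_range.1 (Od_sub _ hi')
    change ((i + 1) % 18 + 17) % 18 = i
    omega

lemma sum_ind (E : Finset ℕ) (hE : E ⊆ range 18) (c : ℕ) (hc : c < 18) :
    ∑ n ∈ range 18, ind E ((n + 18 - c) % 18) = E.card := by
  unfold ind
  rw [← card_filter]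
  refine card_nbij' (fun n => (n + 18 - c) % 18) (fun a => (a + c) % 18) ?_ ?_ ?_ ?_
  · intro n hn
    have hn' : n ∈ (range 18).filter (fun n => (n + 18 - c) % 18 ∈ E) := by simpa using hn
    simpa using (mem_filter.1 hn').2
  · intro a ha
    have ha' : a ∈ E := by simpa using ha
    have h18 := mem_range.1 (hE ha')
    have : (a + c) % 18 ∈ (range 18).filter (fun n => (n + 18 - c) % 18 ∈ E) := by
      rw [mem_filter, mem_range]
      refine ⟨Nat.mod_lt _ (by norm_num), ?_⟩
      have e : ((a + c) % 18 + 18 - c) % 18 = a := by omega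
      rw [e]; exact ha'
    simpa using this
  · intro n hn
    have hn' : n ∈ (range 18).filter (fun n => (n + 18 - c) % 18 ∈ E) := by simpa using hn
    have h18 := mem_range.1 (mem_filter.1 hn').1
    change ((n + 18 - c) % 18 + c) % 18 = n
    omega
  · intro a ha
    have ha' : a ∈ E := by simpa using ha
    have h18 := mem_range.1 (hE ha')
    change ((a + c) % 18 + 18 - c) % 18 = a
    omega

lemma card_mul_le {E O : Finset ℕ} (hg : Good E O) : E.card * O.card ≤ 36 := by
  have h1 : ∑ n ∈ range 18, kf E O n = E.card * O.card := by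
    unfold kf
    rw [sum_comm, sum_congr rfl (fun c hc => sum_ind E hg.he c (mem_range.1 (hg.ho hc)))]
    rw [sum_const, smul_eq_mul, mul_comm]
  have h2 : ∑ n ∈ range 18, kf E O n ≤ ∑ n ∈ range 18, 2 :=
    sum_le_sum (fun n hn => hg.k2 n (mem_range.1 hn))
  rw [h1] at h2
  simpa using h2

lemma map_inj (u b : ℕ) (hu : Nat.Coprime 18 u) (a a' : ℕ) (ha : a < 18) (ha' : a' < 18)
    (hb : b < 18) (h : (u * (a + 18 - b)) % 18 = (u * (a' + 18 - b)) % 18) : a = a' := by
  have h1 : u * (a + 18 - b) ≡ u * (a' + 18 - b) [MOD 18] := h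
  have h2 := Nat.ModEq.cancel_left_of_coprime hu h1
  have h3 : (a + 18 - b) % 18 = (a' + 18 - b) % 18 := h2
  omega

/-- the list of the even part -/
def EvL (A : Finset (ZMod 36)) : List ℕ := (List.range 18).filter (fun i => decide (i ∈ Ev A))

lemma mem_EvL (A : Finset (ZMod 36)) (i : ℕ) : i ∈ EvL A ↔ i ∈ Ev A := by
  unfold EvL
  rw [List.mem_filter, List.mem_range]
  constructor
  · intro h; simpa using h.2
  · intro h; exact ⟨mem_range.1 (Ev_sub A h), by simpa using h⟩

lemma EvL_nodup (A : Finset (ZMod 36)) : (EvL A).Nodup := List.Nodup.filter _ List.nodup_range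

lemma EvL_toFinset (A : Finset (ZMod 36)) : (EvL A).toFinset = Ev A := by
  ext i; rw [List.mem_toFinset, mem_EvL]

lemma min_img (A : Finset (ZMod 36)) (hA : Adm5 A) (hmin : ∀ B, Adm5 B → code A ≤ code B)
    (u v b : ℕ) (hu : Nat.Coprime 18 u) (huv : (u * v) % 36 = 1) (hb : b ∈ EvL A) :
    encL 2 (EvL A) ≤ img (EvL A) u b := by
  have hb18 : b < 18 := mem_range.1 (Ev_sub A ((mem_EvL A b).1 hb))
  have huvc : (v : ZMod 36) * (u : ZMod 36) = 1 := by
    have : ((u * v : ℕ) : ZMod 36) = ((1 : ℕ) : ZMod 36) := by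
      rw [ZMod.natCast_eq_natCast_iff]
      exact huv
    push_cast at this
    rw [mul_comm]; exact this
  have h1 := hmin _ (adm_aff (u : ZMod 36) (v : ZMod 36) (-(2 * u * b : ℕ) : ZMod 36) huvc hA)
  unfold code at h1
  rw [Ev_aff u v b hb18 huv A] at h1
  have hinj : ∀ a ∈ Ev A, ∀ a' ∈ Ev A,
      (u * (a + 18 - b)) % 18 = (u * (a' + 18 - b)) % 18 → a = a' := by
    intro a ha a' ha' h
    exact map_inj u b hu a a' (mem_range.1 (Ev_sub A ha)) (mem_range.1 (Ev_sub A ha')) hb18 h
  rw [card_image_of_injOn (fun a ha a' ha' h => hinj a (by simpa using ha) a'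
    (by simpa using ha') h)] at h1
  have h2 : encL 2 (EvL A) = ∑ a ∈ Ev A, 2 ^ a := by
    rw [encL_eq 2 _ (EvL_nodup A), EvL_toFinset]
  have hnd : ((EvL A).map (fun a => (u * (a + 18 - b)) % 18)).Nodup := by
    apply List.Nodup.map_on _ (EvL_nodup A)
    intro a ha a' ha' h
    exact hinj a ((mem_EvL A a).1 ha) a' ((mem_EvL A a').1 ha') h
  have h3 : img (EvL A) u b
      = ∑ x ∈ (Ev A).image (fun a => (u * (a + 18 - b)) % 18), 2 ^ x := by
    unfold img
    rw [encL_eq 2 _ hnd]
    apply sum_congr _ (fun _ _ => rfl)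
    ext x
    simp only [List.mem_toFinset, List.mem_map, mem_image, mem_EvL]
  rw [h2, h3]
  omega

lemma canon_of_min (A : Finset (ZMod 36)) (hA : Adm5 A)
    (hmin : ∀ B, Adm5 B → code A ≤ code B) : canon (EvL A) = true := by
  unfold canon
  simp only [Bool.and_eq_true, List.all_eq_true]
  constructor
  · intro b hb
    exact Nat.ble_eq_true_of_le (min_img A hA hmin 1 1 b (by norm_num) (by norm_num) hb)
  · intro u hu b hb
    simp only [List.mem_cons, List.not_mem_nil, or_false] at hu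
    rcases hu with rfl | rfl | rfl | rfl | rfl
    · exact Nat.ble_eq_true_of_le (min_img A hA hmin 5 29 b (by norm_num) (by norm_num) hb)
    · exact Nat.ble_eq_true_of_le (min_img A hA hmin 7 31 b (by norm_num) (by norm_num) hb)
    · exact Nat.ble_eq_true_of_le (min_img A hA hmin 11 23 b (by norm_num) (by norm_num) hb)
    · exact Nat.ble_eq_true_of_le (min_img A hA hmin 13 25 b (by norm_num) (by norm_num) hb)
    · exact Nat.ble_eq_true_of_le (min_img A hA hmin 17 17 b (by norm_num) (by norm_num) hb)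

lemma zero_mem (A : Finset (ZMod 36)) (hA : Adm5 A) (hmin : ∀ B, Adm5 B → code A ≤ code B) :
    0 ∈ Ev A := by
  have hne : (Ev A).Nonempty := by
    by_contra h
    rw [not_nonempty_iff_eq_empty] at h
    have h1 := (good_of_adm hA).k1 0 (by norm_num)
    rw [h] at h1
    simp [kf, ind] at h1
  by_contra h0
  set b := (Ev A).min' hne with hb
  have hbm : b ∈ Ev A := min'_mem _ _
  have hb0 : b ≠ 0 := fun h => h0 (h ▸ hbm)
  have h1 := min_img A hA hmin 1 1 b (by norm_num) (by norm_num) ((mem_EvL A b).2 hbm)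
  have h2 : encL 2 (EvL A) = ∑ a ∈ Ev A, 2 ^ a := by
    rw [encL_eq 2 _ (EvL_nodup A), EvL_toFinset]
  have hb18 := mem_range.1 (Ev_sub A hbm)
  have hmap : (EvL A).map (fun a => (1 * (a + 18 - b)) % 18) = (EvL A).map (fun a => a - b) := by
    apply List.map_congr_left
    intro a ha
    have ha' := (mem_EvL A a).1 ha
    have h3 : b ≤ a := min'_le _ _ ha'
    have h4 := mem_range.1 (Ev_sub A ha')
    omega
  have hnd : ((EvL A).map (fun a => a - b)).Nodup := by
    apply List.Nodup.map_on _ (EvL_nodup A)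
    intro a ha a' ha' h
    have h3 : b ≤ a := min'_le _ _ ((mem_EvL A a).1 ha)
    have h4 : b ≤ a' := min'_le _ _ ((mem_EvL A a').1 ha')
    omega
  have h3 : img (EvL A) 1 b = ∑ a ∈ Ev A, 2 ^ (a - b) := by
    unfold img
    rw [hmap, encL_eq 2 _ hnd]
    have : ((EvL A).map (fun a => a - b)).toFinset = (Ev A).image (fun a => a - b) := by
      ext x
      simp only [List.mem_toFinset, List.mem_map, mem_image, mem_EvL]
    rw [this, sum_image]
    intro a ha a' ha' h
    have h3 : b ≤ a := min'_le _ _ (by simpa using ha)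
    have h4 : b ≤ a' := min'_le _ _ (by simpa using ha')
    have h5 : a - b = a' - b := h
    omega
  rw [h2, h3] at h1
  have h4 : ∑ a ∈ Ev A, 2 ^ (a - b) < ∑ a ∈ Ev A, 2 ^ a := by
    apply sum_lt_sum_of_nonempty hne
    intro a ha
    have h5 : b ≤ a := min'_le _ _ ha
    exact Nat.pow_lt_pow_right (by norm_num) (by omega)
  omega

theorem no_adm5 : ¬ ∃ A : Finset (ZMod 36), Adm5 A := by
  rintro ⟨A0, h0⟩
  obtain ⟨A, hA, hmin'⟩ := WellFounded.has_min (measure code).wf {A | Adm5 A} ⟨A0, h0⟩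
  have hmin : ∀ B, Adm5 B → code A ≤ code B := fun B hB => Nat.le_of_not_lt (hmin' B hB)
  have hg := good_of_adm hA
  have hcard : (Ev A).card ≤ (Od A).card := by
    by_contra hlt
    push Not at hlt
    have h1 := hmin _ (adm_aff 1 1 1 (by norm_num) hA)
    unfold code at h1
    rw [card_Ev_shift] at h1
    have h2 := sum_pow_lt (Ev (aff 1 1 A)) (Ev_sub _)
    have h3 : ((Od A).card + 1) * 2 ^ 18 ≤ (Ev A).card * 2 ^ 18 := Nat.mul_le_mul_right _ hlt
    omega
  have h6 : (Ev A).card ≤ 6 := by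
    have := card_mul_le hg
    nlinarith
  have hz := zero_mem A hA hmin
  have hcan := canon_of_min A hA hmin
  have hsplit : EvL A = [0] ++ (List.range' 1 17).filter (fun i => decide (i ∈ Ev A)) := by
    unfold EvL
    have : List.range 18 = 0 :: List.range' 1 17 := by decide
    rw [this, List.filter_cons_of_pos (by simpa using hz)]
    rfl
  have hlen : (EvL A).length ≤ 6 := by
    have : (EvL A).length = (Ev A).card := by
      rw [← EvL_toFinset, List.toFinset_card_of_nodup (EvL_nodup A)]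
    omega
  have hlen' : ((List.range' 1 17).filter (fun i => decide (i ∈ Ev A))).length ≤ 5 := by
    rw [hsplit] at hlen
    simp only [List.length_append, List.length_cons, List.length_nil] at hlen
    omega
  have hleaf := enumE_sound (fun i => decide (i ∈ Ev A)) 17 1 5 [0] search hlen'
  rw [← hsplit] at hleaf
  apply leaf_sound (EvL A) (EvL_nodup A)
    (fun a ha => mem_range.1 (Ev_sub A ((mem_EvL A a).1 ha))) hcan hleaf (Od A)
  rw [EvL_toFinset]
  exact hg

/-- the Ruzsa number `R_m` -/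
noncomputable def R (m : ℕ) : ℕ :=
  sInf {r : ℕ | 1 ≤ r ∧ ∃ A : Finset (ZMod m), ∀ n : ZMod m, 1 ≤ sigma m A n ∧ sigma m A n ≤ r}

lemma R37 : R 37 ≤ 4 := by
  apply Nat.sInf_le
  refine ⟨by norm_num, {0, 1, 3, 7, 17, 24, 25, 28, 29, 35}, ?_⟩
  decide +kernel

lemma R36_le : R 36 ≤ 6 := by
  apply Nat.sInf_le
  refine ⟨by norm_num, {0, 1, 2, 3, 4, 5, 7, 11, 20, 25, 27, 28}, ?_⟩
  decide +kernel

lemma R36 : R 36 = 6 := by
  apply le_antisymm R36_le
  apply le_csInf
  · refine ⟨6, by norm_num, {0, 1, 2, 3, 4, 5, 7, 11, 20, 25, 27, 28}, ?_⟩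
    decide +kernel
  · rintro r ⟨_, A, hA⟩
    by_contra hlt
    push Not at hlt
    exact no_adm5 ⟨A, fun n => ⟨(hA n).1, (hA n).2.trans (by omega)⟩⟩

end Q264.Ruzsa
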