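import Pool.Agent.Q264.Salem6c

/-!
A family of Salem numbers of degree 6 with unbounded preperiod: the digits and the remainders.
-/

set_option autoImplicit false

namespace Q264.SP

/-- the period word, `k = 2 j` -/
def E (j t : ℕ) : ℤ :=
  if t = 0 then 1
  else if t = 1 then 0
  else if t = 2 then 2 * j - 3
  else if t < 2 * j - 3 then 2 * j - 2 - t
  else if t = 2 * j - 3 then 0
  else if t = 2 * j - 2 then 2 * j - 3
  else if t = 2 * j - 1 then 2 * j - 4
  else if t = 2 * j then 2 * j - 4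
  else if t = 2 * j + 1 then 2 * j - 3
  else if t = 2 * j + 2 then 0
  else if t < 4 * j - 3 then t - 2 * j - 1
  else if t = 4 * j - 3 then 2 * j - 3
  else if t = 4 * j - 2 then 0
  else 1

/-- the digits, indexed from `0`; preperiod `4 j - 4`, period `4 j` -/
def D (j n : ℕ) : ℤ :=
  if n < 4 * j - 4 then
    if n = 0 then 2 * j - 2
    else if n = 1 then 0
    else if n = 4 * j - 6 then 2 * j - 2
    else if n = 4 * j - 5 then 0
    else
      if (n - 2) % 4 = 0 then 2 * ((n - 2) / 4 : ℕ) + 1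
      else if (n - 2) % 4 = 1 then 2 * ((n - 2) / 4 : ℕ) + 1
      else if (n - 2) % 4 = 2 then 2 * ((n - 2) / 4 : ℕ) + 2
      else 2 * ((n - 2) / 4 : ℕ) + 3
  else E j ((n - (4 * j - 4)) % (4 * j))

lemma D_per (j : ℕ) {n : ℕ} (hn : 4 * j - 4 ≤ n) : D j (n + 4 * j) = D j n := by
  unfold D
  rw [if_neg (by omega), if_neg (by omega)]
  congr 1
  rw [show n + 4 * j - (4 * j - 4) = n - (4 * j - 4) + 4 * j from by omega, Nat.add_mod_right]

lemma D_E {j t : ℕ} (ht : t < 4 * j) : D j (4 * j - 4 + t) = E j t := by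
  unfold D
  rw [if_neg (by omega), show 4 * j - 4 + t - (4 * j - 4) = t from by omega, Nat.mod_eq_of_lt ht]

lemma D_block {j i s : ℕ} (hj : 3 ≤ j) (hi : i + 3 ≤ j) (hs : s < 4) : D j (2 + 4 * i + s) =
    if s = 0 then 2 * (i : ℤ) + 1 else if s = 1 then 2 * (i : ℤ) + 1
    else if s = 2 then 2 * (i : ℤ) + 2 else 2 * (i : ℤ) + 3 := by
  unfold D
  have h1 : (2 + 4 * i + s - 2) % 4 = s := by omega
  have h2 : (2 + 4 * i + s - 2) / 4 = i := by omega
  rw [if_pos (by omega), if_neg (by omega), if_neg (by omega), if_neg (by omega),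
    if_neg (by omega), h1, h2]

section

variable {j : ℕ} (hj : 3 ≤ j)

include hj

lemma D0 : D j 0 = 2 * j - 2 := by unfold D; rw [if_pos (by omega), if_pos rfl]

lemma D1 : D j 1 = 0 := by
  unfold D; rw [if_pos (by omega), if_neg (by omega), if_pos rfl]

lemma Dm6 : D j (4 * j - 6) = 2 * j - 2 := by
  unfold D; rw [if_pos (by omega), if_neg (by omega), if_neg (by omega), if_pos rfl]

lemma Dm5 : D j (4 * j - 5) = 0 := by
  unfold D
  rw [if_pos (by omega), if_neg (by omega), if_neg (by omega), if_neg (by omega), if_pos rfl]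

lemma E_bd {t : ℕ} (ht : t < 4 * j) : 0 ≤ E j t ∧ E j t ≤ 2 * j - 3 := by
  unfold E
  constructor
  · omega
  · omega

/-- all digits are between `0` and `2 j - 2` -/
lemma D_bd {n : ℕ} (h0 : n ≠ 0) (h6 : n ≠ 4 * j - 6) : 0 ≤ D j n ∧ D j n ≤ 2 * j - 3 := by
  rcases lt_or_ge n (4 * j - 4) with h | h
  · rcases eq_or_ne n 1 with h1 | h1
    · subst h1; rw [D1 hj]; omega
    rcases eq_or_ne n (4 * j - 5) with h5 | h5
    · subst h5; rw [Dm5 hj]; omega
    have e1 : n = 2 + 4 * ((n - 2) / 4) + (n - 2) % 4 := by omega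
    have hs : (n - 2) % 4 < 4 := Nat.mod_lt _ (by norm_num)
    have hi : (n - 2) / 4 + 3 ≤ j := by omega
    rw [e1, D_block hj hi hs]
    have hi' : ((((n - 2) / 4 : ℕ)) : ℤ) + 3 ≤ j := by exact_mod_cast hi
    split_ifs <;> constructor <;> linarith
  · have e1 : n = 4 * j - 4 + (n - (4 * j - 4)) := by omega
    unfold D
    rw [if_neg (by omega)]
    exact E_bd hj (Nat.mod_lt _ (by omega))

lemma D_nonneg (n : ℕ) : 0 ≤ D j n := by
  rcases eq_or_ne n 0 with h | h
  · subst h; rw [D0 hj]; omega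
  rcases eq_or_ne n (4 * j - 6) with h6 | h6
  · subst h6; rw [Dm6 hj]; omega
  exact (D_bd hj h h6).1

end

/-- the candidate remainders -/
noncomputable def f (j : ℕ) (b : ℝ) : ℕ → ℝ
  | 0 => 1
  | n + 1 => b * f j b n - D j n

section

variable {j : ℕ} {b : ℝ} (hj : 3 ≤ j) (hb : 1 < b)
  (hS : b ^ 6 - (2 * j) * b ^ 5 + (2 * (2 * j) - 2) * b ^ 4 - (2 * (2 * j) - 1) * b ^ 3 +
    (2 * (2 * j) - 2) * b ^ 2 - (2 * j) * b + 1 = 0)

/-- the slope -/
noncomputable def w (b : ℝ) : ℝ := 1 / (b - 1)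

/-- the values at the beginning of the segments -/
noncomputable def vv (b : ℝ) : ℝ := (b ^ 3 - b ^ 2 + 2 * b - 1) / ((b - 1) ^ 2 * (b ^ 2 + 1))

noncomputable def qq (j : ℕ) (b : ℝ) : ℝ := ((2 * j - 5) * (b - 1) - 1) / (b - 1) ^ 2

noncomputable def rr (b : ℝ) : ℝ := (2 * b - 1) / (b - 1) ^ 2

noncomputable def FM (j : ℕ) (b : ℝ) : ℝ := b ^ 2 * (vv b + (2 * j - 4) * w b) - (2 * j - 2) * b

include hb hS in
lemma I1 : b ^ 2 - (2 * j - 2) * b = vv b := by
  have h1 : b - 1 ≠ 0 := by intro h; linarith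
  unfold vv
  rw [eq_div_iff (by positivity)]
  linear_combination hS

include hb hS in
lemma I2 : b ^ 3 * FM j b - b ^ 2 - (2 * j - 3) = qq j b := by
  have h1 : b - 1 ≠ 0 := by intro h; linarith
  have h2 : b ^ 2 + 1 ≠ 0 := by positivity
  unfold FM vv w qq
  field_simp
  linear_combination (-b ^ 2 - b - 1) * hS

include hb hS in
lemma I3 : b ^ 6 * (qq j b - (2 * j - 6) * w b) - (2 * j - 3) * b ^ 4 - (2 * j - 4) * b ^ 3 -
    (2 * j - 4) * b ^ 2 - (2 * j - 3) * b = rr b := by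
  have h1 : b - 1 ≠ 0 := by intro h; linarith
  have h2 : b ^ 2 + 1 ≠ 0 := by positivity
  have key : (b ^ 6 * (((2 * j - 5) * (b - 1) - 1) - (2 * j - 6) * (b - 1)) -
      ((2 * j - 3) * b ^ 4 + (2 * j - 4) * b ^ 3 +
      (2 * j - 4) * b ^ 2 + (2 * j - 3) * b) * (b - 1) ^ 2 - (2 * b - 1)) * (b ^ 2 + 1) = 0 := by
    linear_combination (b ^ 3 + b ^ 2 + b + 1) * hS
  have key2 := (mul_eq_zero.1 key).resolve_right h2
  unfold w qq rr
  field_simp
  linear_combination key2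

include hb hS in
lemma I4 : b ^ 3 * (rr b + (2 * j - 6) * w b) - (2 * j - 3) * b ^ 2 - 1 = FM j b := by
  have h1 : b - 1 ≠ 0 := by intro h; linarith
  have h2 : b ^ 2 + 1 ≠ 0 := by positivity
  unfold FM vv w rr
  field_simp
  linear_combination (-1 : ℝ) * hS

end

end Q264.SP
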