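import Pool.Agent.Q264.SP1

/-!
The candidate remainders are the remainders of the greedy expansion.
-/

set_option autoImplicit false

namespace Q264.SP

open Q264.Salem6

section

variable {j : ℕ} {b : ℝ} (hj : 3 ≤ j) (hb : 1 < b)
  (hS : b ^ 6 - (2 * j) * b ^ 5 + (2 * (2 * j) - 2) * b ^ 4 - (2 * (2 * j) - 1) * b ^ 3 +
    (2 * (2 * j) - 2) * b ^ 2 - (2 * j) * b + 1 = 0)

lemma f_succ (j : ℕ) (b : ℝ) (n : ℕ) : f j b (n + 1) = b * f j b n - D j n := rfl

lemma w_mul (hb : 1 < b) : w b * (b - 1) = 1 := by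
  unfold w
  have h1 : b - 1 ≠ 0 := by intro h; linarith
  field_simp

/-- the digit `E` as a real number, for the remainders in the periodic part -/
lemma f_per {t : ℕ} (ht : t < 4 * j) :
    f j b (4 * j - 4 + (t + 1)) = b * f j b (4 * j - 4 + t) - (E j t : ℤ) := by
  rw [← add_assoc, f_succ, D_E ht]

include hj hb hS in
lemma fA (i : ℕ) (hi : i + 2 ≤ j) : f j b (2 + 4 * i) = vv b + 2 * i * w b := by
  induction i with
  | zero =>
    have h0 : f j b 0 = 1 := rfl
    rw [show 2 + 4 * 0 = 0 + 1 + 1 from rfl, f_succ, f_succ, h0, D0 hj, D1 hj, ← I1 hb hS]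
    push_cast
    ring
  | succ i ih =>
    have h := ih (by omega)
    have d0 := D_block hj (show i + 3 ≤ j by omega) (show 0 < 4 by norm_num)
    have d1 := D_block hj (show i + 3 ≤ j by omega) (show 1 < 4 by norm_num)
    have d2 := D_block hj (show i + 3 ≤ j by omega) (show 2 < 4 by norm_num)
    have d3 := D_block hj (show i + 3 ≤ j by omega) (show 3 < 4 by norm_num)
    norm_num at d0 d1 d2 d3
    rw [show 2 + 4 * (i + 1) = 2 + 4 * i + 3 + 1 from by ring, f_succ,
      show 2 + 4 * i + 3 = 2 + 4 * i + 2 + 1 from by ring, f_succ,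
      show 2 + 4 * i + 2 = 2 + 4 * i + 1 + 1 from by ring, f_succ, f_succ, h,
      show 2 + 4 * i + 1 + 1 = 2 + 4 * i + 2 from by ring,
      show 2 + 4 * i + 2 + 1 = 2 + 4 * i + 3 from by ring, d0, d1, d2, d3]
    have hw := w_mul hb
    have h1 : b - 1 ≠ 0 := by intro h; linarith
    have h2 : b ^ 2 + 1 ≠ 0 := by positivity
    have hv : vv b * ((b - 1) * (b ^ 4 - 1)) = b ^ 4 + b ^ 2 + b - 1 := by
      unfold vv
      field_simp
      ring
    apply mul_left_cancel₀ h1
    push_cast
    linear_combination hv + (2 * (i : ℝ) * (b ^ 4 - 1) - 2) * hw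

include hj hb hS in
lemma fM : f j b (4 * j - 4) = FM j b := by
  have h := fA hj hb hS (j - 2) (by omega)
  rw [show 2 + 4 * (j - 2) = 4 * j - 6 from by omega] at h
  rw [show 4 * j - 4 = 4 * j - 6 + 1 + 1 from by omega, f_succ, f_succ, h, Dm6 hj,
    show 4 * j - 6 + 1 = 4 * j - 5 from by omega, Dm5 hj]
  unfold FM
  have : ((j - 2 : ℕ) : ℝ) = j - 2 := by
    rw [Nat.cast_sub (by omega)]; norm_num
  rw [this]
  push_cast
  ring

include hj hb hS in
lemma fB (i : ℕ) (hi : i + 6 ≤ 2 * j) : f j b (4 * j - 4 + (3 + i)) = qq j b - i * w b := by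
  have hw := w_mul hb
  have h1 : b - 1 ≠ 0 := by intro h; linarith
  induction i with
  | zero =>
    rw [show 3 + 0 = 0 + 1 + 1 + 1 from rfl, f_per (by omega), f_per (by omega),
      f_per (by omega), add_zero, fM hj hb hS, ← I2 hb hS]
    have e0 : E j 0 = 1 := by unfold E; omega
    have e1 : E j (0 + 1) = 0 := by unfold E; omega
    have e2 : E j (0 + 1 + 1) = 2 * j - 3 := by unfold E; omega
    rw [e0, e1, e2]
    push_cast
    ring
  | succ i ih =>
    have h := ih (by omega)
    rw [show 3 + (i + 1) = 3 + i + 1 from by ring, f_per (by omega), h]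
    have e0 : E j (3 + i) = 2 * j - 2 - (3 + i : ℕ) := by unfold E; omega
    rw [e0]
    have hq : qq j b * (b - 1) ^ 2 = (2 * j - 5) * (b - 1) - 1 := by
      unfold qq; field_simp
    apply mul_left_cancel₀ h1
    apply mul_left_cancel₀ h1
    push_cast
    linear_combination (b - 1) * hq + (-(i : ℝ) * (b - 1) ^ 2 + (b - 1)) * hw

include hj hb hS in
lemma fC (i : ℕ) (hi : i + 6 ≤ 2 * j) : f j b (4 * j - 4 + (2 * j + 3 + i)) = rr b + i * w b := by
  have hw := w_mul hb
  have h1 : b - 1 ≠ 0 := by intro h; linarith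
  induction i with
  | zero =>
    have h := fB hj hb hS (2 * j - 6) (by omega)
    rw [show 3 + (2 * j - 6) = 2 * j - 3 from by omega] at h
    have e0 : E j (2 * j - 3) = 0 := by unfold E; omega
    have e1 : E j (2 * j - 2) = 2 * j - 3 := by unfold E; omega
    have e2 : E j (2 * j - 1) = 2 * j - 4 := by unfold E; omega
    have e3 : E j (2 * j) = 2 * j - 4 := by unfold E; omega
    have e4 : E j (2 * j + 1) = 2 * j - 3 := by unfold E; omega
    have e5 : E j (2 * j + 2) = 0 := by unfold E; omega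
    rw [add_zero, show 2 * j + 3 = 2 * j + 2 + 1 from rfl, f_per (by omega), e5,
      show 2 * j + 2 = 2 * j + 1 + 1 from rfl, f_per (by omega), e4,
      f_per (by omega), e3, show 4 * j - 4 + 2 * j = 4 * j - 4 + (2 * j - 1 + 1) from by omega,
      f_per (by omega), e2,
      show 4 * j - 4 + (2 * j - 1) = 4 * j - 4 + (2 * j - 2 + 1) from by omega,
      f_per (by omega), e1,
      show 4 * j - 4 + (2 * j - 2) = 4 * j - 4 + (2 * j - 3 + 1) from by omega,
      f_per (by omega), e0, h, ← I3 hb hS]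
    have : ((2 * j - 6 : ℕ) : ℝ) = 2 * j - 6 := by
      rw [Nat.cast_sub (by omega)]; push_cast; norm_num
    rw [this]
    push_cast
    ring
  | succ i ih =>
    have h := ih (by omega)
    rw [show 2 * j + 3 + (i + 1) = 2 * j + 3 + i + 1 from by ring, f_per (by omega), h]
    have e0 : E j (2 * j + 3 + i) = (2 * j + 3 + i : ℕ) - 2 * j - 1 := by unfold E; omega
    rw [e0]
    have hq : rr b * (b - 1) ^ 2 = 2 * b - 1 := by
      unfold rr; field_simp
    apply mul_left_cancel₀ h1
    apply mul_left_cancel₀ h1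
    push_cast
    linear_combination (b - 1) * hq + ((i : ℝ) * (b - 1) ^ 2 - (b - 1)) * hw

include hj hb hS in
lemma f_close : f j b (4 * j - 4 + 4 * j) = f j b (4 * j - 4) := by
  have h := fC hj hb hS (2 * j - 6) (by omega)
  rw [show 2 * j + 3 + (2 * j - 6) = 4 * j - 3 from by omega] at h
  have e0 : E j (4 * j - 3) = 2 * j - 3 := by unfold E; omega
  have e1 : E j (4 * j - 2) = 0 := by unfold E; omega
  have e2 : E j (4 * j - 1) = 1 := by unfold E; omega
  rw [show 4 * j - 4 + 4 * j = 4 * j - 4 + (4 * j - 1 + 1) from by omega, f_per (by omega), e2,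
    show 4 * j - 4 + (4 * j - 1) = 4 * j - 4 + (4 * j - 2 + 1) from by omega,
    f_per (by omega), e1,
    show 4 * j - 4 + (4 * j - 2) = 4 * j - 4 + (4 * j - 3 + 1) from by omega,
    f_per (by omega), e0, h, fM hj hb hS, ← I4 hb hS]
  have : ((2 * j - 6 : ℕ) : ℝ) = 2 * j - 6 := by
    rw [Nat.cast_sub (by omega)]; push_cast; norm_num
  rw [this]
  push_cast
  ring

include hj hb hS in
lemma f_periodic (n : ℕ) (hn : 4 * j - 4 ≤ n) : f j b (n + 4 * j) = f j b n := by
  induction n, hn using Nat.le_induction with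
  | base => exact f_close hj hb hS
  | succ n hn ih =>
    rw [show n + 1 + 4 * j = n + 4 * j + 1 from by ring, f_succ, f_succ, ih, D_per j hn]

include hj hb hS in
lemma f_bdd : ∃ C : ℝ, 0 < C ∧ ∀ n, |f j b n| ≤ C := by
  refine ⟨∑ n ∈ Finset.range (4 * j - 4 + 4 * j), |f j b n| + 1, by positivity, ?_⟩
  intro n
  induction n using Nat.strong_induction_on with
  | _ n ih =>
    rcases lt_or_ge n (4 * j - 4 + 4 * j) with h | h
    · have := Finset.single_le_sum (f := fun n => |f j b n|) (fun i _ => abs_nonneg _)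
        (Finset.mem_range.2 h)
      linarith
    · have h1 := f_periodic hj hb hS (n - 4 * j) (by omega)
      rw [show n - 4 * j + 4 * j = n from by omega] at h1
      rw [h1]
      exact ih _ (by omega)

lemma tendsto_aux {C b x : ℝ} (hb : 1 < b) (h : ∀ N : ℕ, x ≤ C * (b⁻¹) ^ N) : x ≤ 0 := by
  have h1 : Filter.Tendsto (fun N : ℕ => C * (b⁻¹) ^ N) Filter.atTop (nhds (C * 0)) :=
    (tendsto_pow_atTop_nhds_zero_of_lt_one (by positivity) (inv_lt_one_of_one_lt₀ hb)).const_mul C
  rw [mul_zero] at h1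
  exact ge_of_tendsto' h1 h

include hj hb hS in
lemma f_nonneg (n : ℕ) : 0 ≤ f j b n := by
  obtain ⟨C, hC, hf⟩ := f_bdd hj hb hS
  have hb0 : 0 < b := by linarith
  have key : ∀ N n : ℕ, -f j b n ≤ C * (b⁻¹) ^ N := by
    intro N
    induction N with
    | zero => intro n; rw [pow_zero, mul_one]; exact (neg_le_abs _).trans (hf n)
    | succ N ih =>
      intro n
      have h1 := ih (n + 1)
      rw [f_succ] at h1
      have h2 : (0 : ℝ) ≤ D j n := by exact_mod_cast D_nonneg hj n
      have h3 : b * (-f j b n) ≤ C * (b⁻¹) ^ N := by linarith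
      calc -f j b n = b⁻¹ * (b * (-f j b n)) := by field_simp
        _ ≤ b⁻¹ * (C * (b⁻¹) ^ N) := mul_le_mul_of_nonneg_left h3 (by positivity)
        _ = _ := by ring
  have := tendsto_aux hb (fun N => key N n)
  linarith

include hj hb hS in
lemma f_pos_succ {n : ℕ} (h : 0 < D j n) : 0 < f j b n := by
  have h1 := f_nonneg hj hb hS (n + 1)
  rw [f_succ] at h1
  have h2 : (0 : ℝ) < D j n := by exact_mod_cast h
  by_contra hcon
  push Not at hcon
  nlinarith

include hj hb hS in
/-- comparison with the first remainders -/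
lemma f_cmp {n : ℕ} (hn : 1 ≤ n) :
    f j b n - 1 ≤ b⁻¹ * (f j b (n + 1) - 1 - f j b 1) ∨
    f j b n - 1 = b⁻¹ ^ 4 * (f j b (n + 4) - 1 - f j b 4) := by
  have hb0 : 0 < b := by linarith
  rcases eq_or_ne n (4 * j - 6) with h | h
  · right
    have d0 := D0 hj
    have d1 := D1 hj
    have d2 : D j 2 = 1 := by
      have := D_block hj (show 0 + 3 ≤ j by omega) (show 0 < 4 by norm_num)
      simpa using this
    have d3 : D j 3 = 1 := by
      have := D_block hj (show 0 + 3 ≤ j by omega) (show 1 < 4 by norm_num)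
      simpa using this
    have c0 := Dm6 hj
    have c1 := Dm5 hj
    have c2 : D j (4 * j - 4 + 0) = 1 := by rw [D_E (by omega)]; unfold E; omega
    have c3 : D j (4 * j - 4 + 1) = 0 := by rw [D_E (by omega)]; unfold E; omega
    have e1 : f j b 4 = b ^ 4 - (2 * j - 2) * b ^ 3 - b - 1 := by
      have e0 : f j b 4 = b * (b * (b * (b * 1 - (D j 0 : ℤ)) - (D j 1 : ℤ)) - (D j 2 : ℤ)) -
        (D j 3 : ℤ) := rfl
      rw [e0, d0, d1, d2, d3]
      push_cast; ring
    have e2 : f j b (n + 4) = b ^ 4 * f j b n - (2 * j - 2) * b ^ 3 - b := by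
      rw [show n + 4 = n + 1 + 1 + 1 + 1 from rfl, f_succ, f_succ, f_succ, f_succ, h,
        show 4 * j - 6 + 1 + 1 + 1 = 4 * j - 4 + 1 from by omega,
        show 4 * j - 6 + 1 + 1 = 4 * j - 4 + 0 from by omega,
        show 4 * j - 6 + 1 = 4 * j - 5 from by omega, c0, c1, c2, c3]
      push_cast; ring
    rw [e1, e2]
    field_simp
    ring
  · left
    have h1 := (D_bd hj (by omega : n ≠ 0) h).2
    have h2 : (D j n : ℝ) ≤ 2 * j - 3 := by exact_mod_cast h1
    have e1 : f j b 1 = b - (2 * j - 2) := by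
      have e0 : f j b 1 = b * 1 - (D j 0 : ℤ) := rfl
      rw [e0, D0 hj]
      push_cast; ring
    have e2 := f_succ j b n
    have h3 : b * (f j b n - 1) ≤ f j b (n + 1) - 1 - f j b 1 := by rw [e1, e2]; linarith
    calc f j b n - 1 = b⁻¹ * (b * (f j b n - 1)) := by field_simp
      _ ≤ _ := mul_le_mul_of_nonneg_left h3 (by positivity)

include hj hb hS in
lemma f_le_one {n : ℕ} (hn : 1 ≤ n) : f j b n ≤ 1 := by
  obtain ⟨C, hC, hf⟩ := f_bdd hj hb hS
  have hb0 : 0 < b := by linarith
  have hbi : b⁻¹ ≤ 1 := (inv_lt_one_of_one_lt₀ hb).le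
  have hbi0 : 0 < b⁻¹ := by positivity
  have key : ∀ N n : ℕ, 1 ≤ n → f j b n - 1 ≤ C * (b⁻¹) ^ N := by
    intro N
    induction N with
    | zero =>
      intro n _
      rw [pow_zero, mul_one]
      have := (le_abs_self _).trans (hf n)
      linarith
    | succ N ih =>
      intro n hn
      rcases f_cmp hj hb hS hn with h | h
      · have h1 := ih (n + 1) (by omega)
        have h2 := f_nonneg hj hb hS 1
        calc f j b n - 1 ≤ b⁻¹ * (f j b (n + 1) - 1 - f j b 1) := h
          _ ≤ b⁻¹ * (C * (b⁻¹) ^ N) := mul_le_mul_of_nonneg_left (by linarith) hbi0.le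
          _ = _ := by ring
      · have h1 := ih (n + 4) (by omega)
        have h2 := f_nonneg hj hb hS 4
        have h3 : (b⁻¹) ^ 4 ≤ b⁻¹ := by
          calc (b⁻¹) ^ 4 ≤ (b⁻¹) ^ 1 := pow_le_pow_of_le_one hbi0.le hbi (by norm_num)
            _ = _ := pow_one _
        have h4 : 0 ≤ C * (b⁻¹) ^ N := by positivity
        calc f j b n - 1 = b⁻¹ ^ 4 * (f j b (n + 4) - 1 - f j b 4) := h
          _ ≤ b⁻¹ ^ 4 * (C * (b⁻¹) ^ N) := mul_le_mul_of_nonneg_left (by linarith) (by positivity)
          _ ≤ b⁻¹ * (C * (b⁻¹) ^ N) := mul_le_mul_of_nonneg_right h3 h4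
          _ = _ := by ring
  have := tendsto_aux hb (fun N => key N n hn)
  linarith

include hj hb hS in
lemma f_lt_one {n : ℕ} (hn : 1 ≤ n) : f j b n < 1 := by
  have hb0 : 0 < b := by linarith
  have hbi0 : 0 < b⁻¹ := by positivity
  have d2 : D j 2 = 1 := by
    have := D_block hj (show 0 + 3 ≤ j by omega) (show 0 < 4 by norm_num)
    simpa using this
  have d4 : D j 4 = 2 := by
    have := D_block hj (show 0 + 3 ≤ j by omega) (show 2 < 4 by norm_num)
    simpa using this
  have p2 : 0 < f j b 2 := f_pos_succ hj hb hS (by rw [d2]; norm_num)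
  have p4 : 0 < f j b 4 := f_pos_succ hj hb hS (by rw [d4]; norm_num)
  have p1 : 0 < f j b 1 := by
    have h1 := f_succ j b 1
    rw [D1 hj] at h1
    push_cast at h1
    have h2 : 0 < b * f j b 1 := by
      have : f j b (1 + 1) = f j b 2 := rfl
      linarith
    exact pos_of_mul_pos_right h2 hb0.le
  rcases f_cmp hj hb hS hn with h | h
  · have h1 := f_le_one hj hb hS (show 1 ≤ n + 1 by omega)
    have h2 : b⁻¹ * (f j b (n + 1) - 1 - f j b 1) < 0 :=
      mul_neg_of_pos_of_neg hbi0 (by linarith)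
    linarith
  · have h1 := f_le_one hj hb hS (show 1 ≤ n + 4 by omega)
    have h2 : b⁻¹ ^ 4 * (f j b (n + 4) - 1 - f j b 4) < 0 :=
      mul_neg_of_pos_of_neg (by positivity) (by linarith)
    linarith

include hj hb hS in
/-- the candidate remainders are the remainders -/
lemma rem_eq (n : ℕ) : rem b n = f j b n ∧ digit b (n + 1) = D j n := by
  have key : ∀ n, rem b n = f j b n → digit b (n + 1) = D j n := by
    intro n h
    unfold digit
    rw [Nat.add_sub_cancel, h, Int.floor_eq_iff]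
    have h1 := f_nonneg hj hb hS (n + 1)
    have h2 := f_lt_one hj hb hS (show 1 ≤ n + 1 by omega)
    rw [f_succ] at h1 h2
    constructor <;> linarith
  induction n with
  | zero => exact ⟨rfl, key 0 rfl⟩
  | succ n ih =>
    have h : rem b (n + 1) = f j b (n + 1) := by
      rw [rem_succ, ih.2, ih.1, f_succ]
    exact ⟨h, key _ h⟩

end

end Q264.SP
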