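import Pool.Agent.Q264.SP2

/-!
The Salem property, and the exact preperiod and period.
-/

set_option autoImplicit false

namespace Q264.SP

open Q264.Salem6 Polynomial

/-- the minimal polynomial, `k = 2 j` -/
noncomputable def PZ (j : ℕ) : ℤ[X] :=
  X ^ 6 + C (-(2 * j : ℤ)) * X ^ 5 + C (4 * j - 2 : ℤ) * X ^ 4 + C (1 - 4 * j : ℤ) * X ^ 3 +
    C (4 * j - 2 : ℤ) * X ^ 2 + C (-(2 * j : ℤ)) * X + C 1

lemma PZ_monic (j : ℕ) : (PZ j).Monic := by unfold PZ; monicity!

lemma PZ_natDegree (j : ℕ) : (PZ j).natDegree = 6 := by unfold PZ; compute_degree!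

lemma cyc_irr : Irreducible (X ^ 6 + X ^ 3 + 1 : (ZMod 2)[X]) := by
  have hcyc : cyclotomic 9 (ZMod 2) = X ^ 6 + X ^ 3 + 1 := by
    have h3 : Fact (Nat.Prime 3) := ⟨Nat.prime_three⟩
    have := cyclotomic_prime_pow_eq_geom_sum (R := ZMod 2) (p := 3) (n := 1) Nat.prime_three
    rw [show 3 ^ (1 + 1) = 9 from rfl] at this
    rw [this]
    simp only [Finset.sum_range_succ, Finset.sum_range_zero]
    ring
  apply ZMod.irreducible_of_dvd_cyclotomic_of_natDegree (n := 9) (by norm_num) (by rw [hcyc])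
  have hdeg : (X ^ 6 + X ^ 3 + 1 : (ZMod 2)[X]).natDegree = 6 := by compute_degree!
  rw [hdeg]
  symm
  rw [orderOf_eq_iff (by norm_num)]
  constructor
  · decide
  · decide

lemma PZ_irr (j : ℕ) : Irreducible (PZ j) := by
  apply (PZ_monic j).irreducible_of_irreducible_map (Int.castRingHom (ZMod 2))
  have h2 : (2 : ZMod 2) = 0 := rfl
  have h4 : (4 : ZMod 2) = 0 := rfl
  have hmap : (PZ j).map (Int.castRingHom (ZMod 2)) = X ^ 6 + X ^ 3 + 1 := by
    unfold PZ
    simp only [Polynomial.map_add, Polynomial.map_mul, Polynomial.map_pow, Polynomial.map_X,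
      Polynomial.map_C, eq_intCast (Int.castRingHom (ZMod 2))]
    have e1 : ((-(2 * j : ℤ) : ℤ) : ZMod 2) = 0 := by push_cast; rw [h2]; ring
    have e2 : ((4 * j - 2 : ℤ) : ZMod 2) = 0 := by push_cast; rw [h2, h4]; ring
    have e3 : ((1 - 4 * j : ℤ) : ZMod 2) = 1 := by push_cast; rw [h4]; ring
    rw [e1, e2, e3]
    simp
  rw [hmap]
  exact cyc_irr

/-- the defining equation -/
def Eqn (j : ℕ) (b : ℝ) : Prop :=
  b ^ 6 - (2 * j) * b ^ 5 + (2 * (2 * j) - 2) * b ^ 4 - (2 * (2 * j) - 1) * b ^ 3 +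
    (2 * (2 * j) - 2) * b ^ 2 - (2 * j) * b + 1 = 0

lemma exists_beta (j : ℕ) (hj : 3 ≤ j) : ∃ b : ℝ, 1 < b ∧ Eqn j b := by
  have hc : Continuous (fun b : ℝ => b ^ 6 - (2 * j) * b ^ 5 + (2 * (2 * j) - 2) * b ^ 4 -
    (2 * (2 * j) - 1) * b ^ 3 + (2 * (2 * j) - 2) * b ^ 2 - (2 * j) * b + 1) := by fun_prop
  have hj' : (3 : ℝ) ≤ j := by exact_mod_cast hj
  obtain ⟨b, hb, hb0⟩ := intermediate_value_Ioo (a := (1 : ℝ)) (b := 2 * j) (by linarith)
    hc.continuousOn (show (0 : ℝ) ∈ Set.Ioo _ _ by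
      constructor
      · ring_nf; norm_num
      · have h1 : (2 * (j : ℝ)) ^ 6 - (2 * j) * (2 * j) ^ 5 + (2 * (2 * j) - 2) * (2 * j) ^ 4 -
          (2 * (2 * j) - 1) * (2 * j) ^ 3 + (2 * (2 * j) - 2) * (2 * j) ^ 2 - (2 * j) * (2 * j) + 1
          = (2 * j) ^ 3 * (8 * j ^ 2 - 8 * j + 1) + (2 * j) ^ 2 * (4 * j - 3) + 1 := by ring
        rw [h1]
        have h2 : 0 < 8 * (j : ℝ) ^ 2 - 8 * j + 1 := by nlinarith
        have h3 : 0 < 4 * (j : ℝ) - 3 := by linarith
        positivity)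
  exact ⟨b, hb.1, hb0⟩

lemma aeval_PZ {R : Type} [CommRing R] (j : ℕ) (z : R) : aeval z (PZ j) =
    z ^ 6 - (2 * j) * z ^ 5 + (2 * (2 * j) - 2) * z ^ 4 - (2 * (2 * j) - 1) * z ^ 3 +
    (2 * (2 * j) - 2) * z ^ 2 - (2 * j) * z + 1 := by
  unfold PZ
  simp only [map_add, map_mul, map_pow, aeval_X, aeval_C]
  simp only [algebraMap_int_eq, eq_intCast]
  push_cast
  ring

lemma minpoly_eq {j : ℕ} {b : ℝ} (h : Eqn j b) : minpoly ℤ b = PZ j := by
  have hroot : aeval b (PZ j) = 0 := by rw [aeval_PZ]; exact h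
  have hint : IsIntegral ℤ b := ⟨PZ j, PZ_monic j, by simpa [aeval_def] using hroot⟩
  have hirr : Irreducible ((PZ j).map (algebraMap ℤ ℚ)) :=
    ((PZ_monic j).irreducible_iff_irreducible_map_fraction_map (K := ℚ)).1 (PZ_irr j)
  have h1 : (PZ j).map (algebraMap ℤ ℚ) = minpoly ℚ b :=
    minpoly.eq_of_irreducible_of_monic hirr (by rw [aeval_map_algebraMap]; exact hroot)
      ((PZ_monic j).map _)
  have h2 := minpoly.isIntegrallyClosed_eq_field_fractions' ℚ hint
  apply (Polynomial.map_injective (algebraMap ℤ ℚ) (by exact (algebraMap ℤ ℚ).injective_int))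
  rw [← h2, h1]

lemma trace_roots {j : ℕ} (hj : 3 ≤ j) : ∃ y1 y2 : ℝ, (-2 < y1 ∧ y1 < 0) ∧ (1 < y2 ∧ y2 < 2) ∧
    y1 ^ 3 - (2 * j) * y1 ^ 2 + (4 * j - 5) * y1 + 1 = 0 ∧
    y2 ^ 3 - (2 * j) * y2 ^ 2 + (4 * j - 5) * y2 + 1 = 0 := by
  have hj' : (3 : ℝ) ≤ j := by exact_mod_cast hj
  let f : ℝ → ℝ := fun y => y ^ 3 - (2 * j) * y ^ 2 + (4 * j - 5) * y + 1
  have hf : Continuous f := by fun_prop
  obtain ⟨y1, h1, h1'⟩ := intermediate_value_Ioo (show (-2 : ℝ) ≤ 0 by norm_num) hf.continuousOn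
    (show (0 : ℝ) ∈ Set.Ioo (f (-2)) (f 0) by
      simp only [f]; constructor
      · nlinarith
      · norm_num)
  obtain ⟨y2, h2, h2'⟩ := intermediate_value_Ioo' (show (1 : ℝ) ≤ 2 by norm_num) hf.continuousOn
    (show (0 : ℝ) ∈ Set.Ioo (f 2) (f 1) by
      simp only [f]; constructor
      · nlinarith
      · nlinarith)
  exact ⟨y1, y2, ⟨h1.1, h1.2⟩, ⟨h2.1, h2.2⟩, h1', h2'⟩

/-- the trace cubic splits over the three numbers -/
lemma trace_split {k y1 y2 t : ℝ} (h1 : -2 < y1 ∧ y1 < 0) (h2 : 1 < y2 ∧ y2 < 2) (ht : 2 < t)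
    (e1 : y1 ^ 3 - k * y1 ^ 2 + (2 * k - 5) * y1 + 1 = 0)
    (e2 : y2 ^ 3 - k * y2 ^ 2 + (2 * k - 5) * y2 + 1 = 0)
    (e3 : t ^ 3 - k * t ^ 2 + (2 * k - 5) * t + 1 = 0) :
    y1 + y2 + t = k ∧ y1 * y2 + y1 * t + y2 * t = 2 * k - 5 ∧ y1 * y2 * t = -1 := by
  have a12 : y1 - y2 ≠ 0 := by intro h; linarith
  have a1t : y1 - t ≠ 0 := by intro h; linarith
  have a2t : y2 - t ≠ 0 := by intro h; linarith
  have b12 : y1 ^ 2 + y1 * y2 + y2 ^ 2 - k * (y1 + y2) + (2 * k - 5) = 0 := by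
    apply mul_left_cancel₀ a12; linear_combination e1 - e2
  have b1t : y1 ^ 2 + y1 * t + t ^ 2 - k * (y1 + t) + (2 * k - 5) = 0 := by
    apply mul_left_cancel₀ a1t; linear_combination e1 - e3
  have c : y1 + y2 + t = k := by
    have : y1 + y2 + t - k = 0 := by
      apply mul_left_cancel₀ a2t; linear_combination b12 - b1t
    linarith
  have ht' : t = k - y1 - y2 := by linarith
  subst ht'
  refine ⟨by ring, by linear_combination -b12, ?_⟩
  linear_combination e1 - y1 * b12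

lemma isSalem {j : ℕ} (hj : 3 ≤ j) {β : ℝ} (hβ : Eqn j β) (h1 : 1 < β) : IsSalem β := by
  have hmin := minpoly_eq hβ
  have hβ0 : β ≠ 0 := by intro h; rw [h] at h1; linarith
  have hroot : aeval β (PZ j) = 0 := by rw [aeval_PZ]; exact hβ
  have hint : IsIntegral ℤ β := ⟨PZ j, PZ_monic j, by simpa [aeval_def] using hroot⟩
  obtain ⟨y1, y2, hy1, hy2, e1, e2⟩ := trace_roots hj
  have ht : 2 < β + β⁻¹ := by
    have h2 : (β - 1) ^ 2 > 0 := by
      have : β - 1 ≠ 0 := by intro h; linarith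
      positivity
    have h3 : β + β⁻¹ - 2 = (β - 1) ^ 2 / β := by field_simp; ring
    have h4 : 0 < (β - 1) ^ 2 / β := by positivity
    linarith
  have e3 : (β + β⁻¹) ^ 3 - (2 * j) * (β + β⁻¹) ^ 2 + (2 * (2 * j) - 5) * (β + β⁻¹) + 1 = 0 := by
    unfold Eqn at hβ
    field_simp
    linear_combination hβ
  obtain ⟨v1, v2, v3⟩ := trace_split (k := 2 * j) hy1 hy2 ht (by linear_combination e1)
    (by linear_combination e2) e3
  refine ⟨by linarith, hint, ?_, ?_⟩
  · intro z hz hne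
    rw [hmin, aeval_PZ] at hz
    have hβc : (β : ℂ) ≠ 0 := by exact_mod_cast hβ0
    have v1c : (y1 : ℂ) + y2 + (β + (β : ℂ)⁻¹) = 2 * j := by
      exact_mod_cast congrArg (Complex.ofReal) v1
    have v2c : (y1 : ℂ) * y2 + y1 * (β + (β : ℂ)⁻¹) + y2 * (β + (β : ℂ)⁻¹) = 2 * (2 * j) - 5 := by
      exact_mod_cast congrArg (Complex.ofReal) v2
    have v3c : (y1 : ℂ) * y2 * (β + (β : ℂ)⁻¹) = -1 := by
      exact_mod_cast congrArg (Complex.ofReal) v3
    have hprod : (z ^ 2 - y1 * z + 1) * (z ^ 2 - y2 * z + 1)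
        * (z ^ 2 - (β + (β : ℂ)⁻¹) * z + 1) = 0 := by
      linear_combination hz - v1c * z * (z ^ 2 + 1) ^ 2 + v2c * z ^ 2 * (z ^ 2 + 1) - v3c * z ^ 3
    rcases mul_eq_zero.1 hprod with h | h
    · rcases mul_eq_zero.1 h with h | h
      · exact (norm_of_quadratic hy1.1 (by linarith [hy1.2]) h).le
      · exact (norm_of_quadratic (by linarith [hy2.1]) hy2.2 h).le
    · have h' : (z - β) * (z - (β : ℂ)⁻¹) = 0 := by
        have hm : (β : ℂ) * (β : ℂ)⁻¹ = 1 := mul_inv_cancel₀ hβc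
        linear_combination h + hm
      rcases mul_eq_zero.1 h' with h | h
      · exact absurd (sub_eq_zero.1 h) hne
      · rw [sub_eq_zero.1 h]
        rw [norm_inv, Complex.norm_real, Real.norm_of_nonneg (by linarith)]
        apply inv_le_one_of_one_le₀
        linarith
  · have hs : 0 < 1 - y1 ^ 2 / 4 := by nlinarith [hy1.1, hy1.2]
    set s := Real.sqrt (1 - y1 ^ 2 / 4) with hsdef
    have hs0 : 0 < s := Real.sqrt_pos.2 hs
    have hs2 : s ^ 2 = 1 - y1 ^ 2 / 4 := Real.sq_sqrt hs.le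
    let z : ℂ := ⟨y1 / 2, s⟩
    have hz : z ^ 2 - y1 * z + 1 = 0 := by
      apply Complex.ext
      · simp [z, pow_two]
        nlinarith
      · simp [z, pow_two]
        ring
    refine ⟨z, ?_, ?_, norm_of_quadratic hy1.1 (by linarith [hy1.2]) hz⟩
    · rw [hmin, aeval_PZ]
      have e1c : (y1 : ℂ) ^ 3 - (2 * j) * y1 ^ 2 + (4 * j - 5) * y1 + 1 = 0 := by
        exact_mod_cast congrArg (Complex.ofReal) e1
      have hz' : z ^ 2 + 1 = y1 * z := by linear_combination hz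
      have : z ^ 6 - (2 * j) * z ^ 5 + (2 * (2 * j) - 2) * z ^ 4 - (2 * (2 * j) - 1) * z ^ 3 +
          (2 * (2 * j) - 2) * z ^ 2 - (2 * j) * z + 1
          = (z ^ 2 + 1) ^ 3 - (2 * j) * z * (z ^ 2 + 1) ^ 2 +
            (4 * j - 5) * z ^ 2 * (z ^ 2 + 1) + z ^ 3 := by
        ring
      rw [this, hz']
      linear_combination z ^ 3 * e1c
    · intro h
      have := congrArg Complex.im h
      simp [z] at this
      exact hs0.ne' this

lemma E_pair {j t : ℕ} (hj : 3 ≤ j) (ht : t < 4 * j) (h1 : E j t = 2 * j - 4)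
    (h2 : E j ((t + 1) % (4 * j)) = 2 * j - 4) : t = 2 * j - 1 := by
  have h3 : t = 2 * j - 1 ∨ t = 2 * j := by
    unfold E at h1
    omega
  rcases h3 with h | h
  · exact h
  · exfalso
    subst h
    rw [Nat.mod_eq_of_lt (by omega)] at h2
    unfold E at h2
    omega

/-- the exact preperiod and period -/
lemma exact {j : ℕ} (hj : 3 ≤ j) {β : ℝ} (hβ : Eqn j β) (h1 : 1 < β) :
    IsPreperiodPeriod β (4 * j - 4) (4 * j) := by
  have hd : ∀ n, digit β (n + 1) = D j n := fun n => (rem_eq hj h1 hβ n).2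
  have hper : PerAt β (4 * j - 4) (4 * j) := by
    intro n hn
    obtain ⟨k, rfl⟩ : ∃ k, n = k + 1 := ⟨n - 1, by omega⟩
    rw [show k + 1 + (4 * j - 4) = k + (4 * j - 4) + 1 from by omega,
      show k + (4 * j - 4) + 1 + 4 * j = k + (4 * j - 4) + 4 * j + 1 from by omega, hd, hd,
      D_per j (by omega)]
  refine ⟨by omega, hper, fun m' p' hp' hper' => ⟨?_, ?_⟩⟩
  · by_contra hm
    push Not at hm
    have a1 := perAt_iter β m' p' hper' (4 * j) (4 * j - 4) hm
    have a2 := perAt_iter β (4 * j - 4) (4 * j) hper (p' - 1) (4 * j - 4 + 4 * j) (by omega)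
    have e : 4 * j - 4 + 4 * j * p' = 4 * j - 4 + 4 * j + (p' - 1) * (4 * j) := by
      obtain ⟨q, rfl⟩ : ∃ q, p' = q + 1 := ⟨p' - 1, by omega⟩
      simp only [Nat.add_sub_cancel]
      ring
    rw [e, a2] at a1
    rw [show 4 * j - 4 + 4 * j = (4 * j - 4 + (4 * j - 1)) + 1 from by omega, hd, D_E (by omega),
      show 4 * j - 4 = 4 * j - 5 + 1 from by omega, hd, Dm5 hj] at a1
    have e2 : E j (4 * j - 1) = 1 := by unfold E; omega
    rw [e2] at a1
    norm_num at a1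
  · by_contra hp
    push Not at hp
    have key : ∀ c t : ℕ, t < 4 * j → digit β (4 * j - 4 + (t + c * (4 * j)) + 1) = E j t := by
      intro c t ht
      rw [hd, ← D_E ht]
      induction c with
      | zero => simp
      | succ c ih =>
        rw [show 4 * j - 4 + (t + (c + 1) * (4 * j)) = 4 * j - 4 + (t + c * (4 * j)) + 4 * j by
          ring, D_per j (by omega), ih]
    have eA : E j (2 * j - 1) = 2 * j - 4 := by unfold E; omega
    have eB : E j (2 * j) = 2 * j - 4 := by unfold E; omega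
    -- far positions
    have k1 := key m' (2 * j - 1) (by omega)
    have k2 := key m' (2 * j) (by omega)
    have hm' : m' ≤ m' * (4 * j) := Nat.le_mul_of_pos_right _ (by omega)
    obtain ⟨n0, hn0⟩ : ∃ n0, n0 = 4 * j - 4 + (2 * j - 1 + m' * (4 * j)) + 1 := ⟨_, rfl⟩
    have p1 := hper' (n0 - m') (by omega)
    have p2 := hper' (n0 + 1 - m') (by omega)
    rw [show n0 - m' + m' = n0 from by omega] at p1
    rw [show n0 + 1 - m' + m' = n0 + 1 from by omega] at p2
    rw [show n0 + 1 = 4 * j - 4 + (2 * j + m' * (4 * j)) + 1 from by omega, k2, eB] at p2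
    rw [hn0, k1, eA] at p1
    -- residues
    have h3 : ∀ x c t : ℕ, x = t + c * (4 * j) → t < 4 * j →
        digit β (4 * j - 4 + x + 1) = E j t := by
      rintro x c t rfl ht
      exact key c t ht
    rcases lt_or_ge (2 * j - 1 + p') (4 * j) with h | h
    · have q1 := h3 (2 * j - 1 + m' * (4 * j) + p') m' (2 * j - 1 + p') (by omega) h
      have q2 : digit β (4 * j - 4 + (2 * j + m' * (4 * j)) + 1 + p') =
          E j ((2 * j - 1 + p' + 1) % (4 * j)) := by
        rcases lt_or_ge (2 * j - 1 + p' + 1) (4 * j) with h' | h'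
        · rw [Nat.mod_eq_of_lt h', ← h3 (2 * j + m' * (4 * j) + p') m' (2 * j - 1 + p' + 1)
            (by omega) h']
          congr 1; omega
        · have e0 : 2 * j - 1 + p' + 1 = 4 * j := by omega
          rw [e0, Nat.mod_self, ← h3 (2 * j + m' * (4 * j) + p') (m' + 1) 0
            (by rw [add_mul, one_mul]; omega) (by omega)]
          congr 1; omega
      have e1 : E j (2 * j - 1 + p') = 2 * j - 4 := by
        rw [← q1, p1]; congr 1; omega
      have e2 : E j ((2 * j - 1 + p' + 1) % (4 * j)) = 2 * j - 4 := by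
        rw [← q2, p2]
      have := E_pair hj h e1 e2
      omega
    · have hlt : 2 * j - 1 + p' - 4 * j < 4 * j := by omega
      have q1 := h3 (2 * j - 1 + m' * (4 * j) + p') (m' + 1) (2 * j - 1 + p' - 4 * j)
        (by rw [add_mul, one_mul]; omega) hlt
      have q2 := h3 (2 * j + m' * (4 * j) + p') (m' + 1) (2 * j - 1 + p' - 4 * j + 1)
        (by rw [add_mul, one_mul]; omega) (by omega)
      have e1 : E j (2 * j - 1 + p' - 4 * j) = 2 * j - 4 := by
        rw [← q1, p1]; congr 1; omega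
      have e2 : E j ((2 * j - 1 + p' - 4 * j + 1) % (4 * j)) = 2 * j - 4 := by
        rw [Nat.mod_eq_of_lt (by omega), ← q2, p2]; congr 1; omega
      have := E_pair hj hlt e1 e2
      omega

end Q264.SP
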