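import Mathlib

/-!
# A Salem number of degree 6 with a nonreciprocal co-factor: tools

Beta expansions of `1`, rational enclosures of the remainders, and the factorisation of the
concrete sextic.
-/

open Polynomial

namespace Q264.Salem6

/-- remainders of the greedy expansion of `1` in base `β` -/
noncomputable def rem (β : ℝ) : ℕ → ℝ
  | 0 => 1
  | n + 1 => β * rem β n - ⌊β * rem β n⌋

/-- digits of the greedy expansion of `1` in base `β` (used for `n ≥ 1`) -/
noncomputable def digit (β : ℝ) (n : ℕ) : ℤ := ⌊β * rem β (n - 1)⌋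

/-- the digits are periodic with preperiod `m` and period `p` -/
def PerAt (β : ℝ) (m p : ℕ) : Prop := ∀ n : ℕ, 1 ≤ n → digit β (n + m) = digit β (n + m + p)

/-- `m` is the preperiod length and `p` is the period length: `(m, p)` is admissible and both
are least possible -/
def IsPreperiodPeriod (β : ℝ) (m p : ℕ) : Prop :=
  1 ≤ p ∧ PerAt β m p ∧ ∀ m' p' : ℕ, 1 ≤ p' → PerAt β m' p' → m ≤ m' ∧ p ≤ p'

/-- `P_k(x) = x^k - c_1 x^(k-1) - … - c_k` -/
noncomputable def Pk (β : ℝ) (k : ℕ) : ℤ[X] :=
  X ^ k - ∑ i ∈ Finset.Icc 1 k, C (digit β i) * X ^ (k - i)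

/-- the companion polynomial `P_(m+p) - P_m` -/
noncomputable def companion (β : ℝ) (m p : ℕ) : ℤ[X] := Pk β (m + p) - Pk β m

/-- a Salem number: a real algebraic integer `β > 1` all of whose other conjugates lie in the
closed unit disc, at least one of them on the unit circle -/
def IsSalem (β : ℝ) : Prop :=
  1 < β ∧ IsIntegral ℤ β ∧
    (∀ z : ℂ, aeval z (minpoly ℤ β) = 0 → z ≠ (β : ℂ) → ‖z‖ ≤ 1) ∧
    ∃ z : ℂ, aeval z (minpoly ℤ β) = 0 ∧ z ≠ (β : ℂ) ∧ ‖z‖ = 1

lemma rem_succ (β : ℝ) (n : ℕ) : rem β (n + 1) = β * rem β n - (digit β (n + 1) : ℤ) := by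
  simp [rem, digit]

lemma Pk_succ (β : ℝ) (k : ℕ) : Pk β (k + 1) = X * Pk β k - C (digit β (k + 1)) := by
  unfold Pk
  rw [Finset.sum_Icc_succ_top (by omega)]
  have h : ∑ i ∈ Finset.Icc 1 k, C (digit β i) * X ^ (k + 1 - i)
      = X * ∑ i ∈ Finset.Icc 1 k, C (digit β i) * (X : ℤ[X]) ^ (k - i) := by
    rw [Finset.mul_sum]
    apply Finset.sum_congr rfl
    intro i hi
    rw [Finset.mem_Icc] at hi
    have : k + 1 - i = (k - i) + 1 := by omega
    rw [this]; ring
  rw [h]
  simp only [Nat.sub_self, pow_zero, mul_one]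
  ring

lemma aeval_Pk (β : ℝ) (k : ℕ) : aeval β (Pk β k) = rem β k := by
  induction k with
  | zero => simp [Pk, rem]
  | succ k ih => rw [Pk_succ, rem_succ]; simp [ih]

lemma rem_nonneg (β : ℝ) (n : ℕ) : 0 ≤ rem β n := by
  cases n with
  | zero => simp [rem]
  | succ n => simp only [rem]; linarith [Int.floor_le (β * rem β n)]

/-! ### enclosures -/

/-- the interval step -/
def chk (S lo hi : ℤ) : List ℤ → ℤ → ℤ → Bool
  | [], _, _ => true
  | c :: cs, l, u =>
    let l' := lo * l / S - c * S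
    let u' := hi * u / S + 1 - c * S
    decide (0 ≤ l') && decide (u' < S) && chk S lo hi cs l' u'

lemma chk_sound (S lo hi : ℤ) (hS : 0 < S) (hlo0 : 0 ≤ lo) (β : ℝ) (hlo : (lo : ℝ) ≤ S * β)
    (hhi : (S : ℝ) * β ≤ hi) :
    ∀ (cs : List ℤ) (n : ℕ) (l u : ℤ), chk S lo hi cs l u = true → 0 ≤ l →
      (l : ℝ) ≤ S * rem β n → (S : ℝ) * rem β n ≤ u →
      ∀ (i : ℕ) (h : i < cs.length), digit β (n + i + 1) = cs[i] := by
  have hSr : (0 : ℝ) < S := by exact_mod_cast hS
  intro cs
  induction cs with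
  | nil => intro n l u _ _ _ _ i h; simp at h
  | cons c cs ih =>
    intro n l u hc hl0 hl hu i h
    simp only [chk, Bool.and_eq_true, decide_eq_true_eq] at hc
    obtain ⟨⟨h1, h2⟩, h3⟩ := hc
    have hlo0' : (0 : ℝ) ≤ lo := by exact_mod_cast hlo0
    have hl0' : (0 : ℝ) ≤ l := by exact_mod_cast hl0
    have hr0 := rem_nonneg β n
    have e1 : ((lo * l / S : ℤ) : ℝ) * S ≤ lo * l := by
      have := Int.ediv_mul_le (lo * l) (ne_of_gt hS)
      exact_mod_cast this
    have e2 : (hi * u : ℝ) < (((hi * u / S : ℤ) : ℝ) + 1) * S := by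
      have := Int.lt_ediv_add_one_mul_self (hi * u) hS
      exact_mod_cast this
    have f1 : (lo * l : ℝ) ≤ (S * β) * (S * rem β n) :=
      mul_le_mul hlo hl hl0' (le_trans hlo0' hlo)
    have f2 : ((S : ℝ) * β) * (S * rem β n) ≤ hi * u :=
      mul_le_mul hhi hu (by positivity) (le_trans (le_trans hlo0' hlo) hhi)
    have g1 : ((lo * l / S : ℤ) : ℝ) ≤ S * (β * rem β n) := by
      have : ((lo * l / S : ℤ) : ℝ) * S ≤ (S * (β * rem β n)) * S := by nlinarith
      exact le_of_mul_le_mul_right this hSr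
    have g2 : S * (β * rem β n) < ((hi * u / S : ℤ) : ℝ) + 1 := by
      have : (S * (β * rem β n)) * S < (((hi * u / S : ℤ) : ℝ) + 1) * S := by nlinarith
      exact lt_of_mul_lt_mul_right this hSr.le
    have h1' : (0 : ℝ) ≤ ((lo * l / S : ℤ) : ℝ) - c * S := by exact_mod_cast h1
    have h2' : ((hi * u / S : ℤ) : ℝ) + 1 - c * S < S := by exact_mod_cast h2
    have k1 : (c : ℝ) ≤ β * rem β n := by
      have : (c : ℝ) * S ≤ (β * rem β n) * S := by nlinarith
      exact le_of_mul_le_mul_right this hSr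
    have k2 : β * rem β n < c + 1 := by
      have : (β * rem β n) * S < ((c : ℝ) + 1) * S := by nlinarith
      exact lt_of_mul_lt_mul_right this hSr.le
    have hfl : ⌊β * rem β n⌋ = c := Int.floor_eq_iff.2 ⟨k1, k2⟩
    have hd : digit β (n + 1) = c := by simp [digit, hfl]
    cases i with
    | zero => simpa using hd
    | succ i =>
      have hr : rem β (n + 1) = β * rem β n - c := by rw [rem_succ, hd]
      have := ih (n + 1) _ _ h3 h1 (by rw [hr]; push_cast; nlinarith)
        (by rw [hr]; push_cast; nlinarith) i (by simpa using h)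
      simp only [List.getElem_cons_succ]
      rw [← this]
      congr 1
      omega

/-! ### periodicity -/

lemma rem_periodic (β : ℝ) (m p : ℕ) (h : rem β (m + p) = rem β m) (k : ℕ) :
    rem β (m + k + p) = rem β (m + k) := by
  induction k with
  | zero => simpa using h
  | succ k ih =>
    have e : m + (k + 1) + p = (m + k + p) + 1 := by ring
    rw [e, show m + (k + 1) = (m + k) + 1 from by ring]
    simp only [rem, ih]

lemma perAt_of_rem (β : ℝ) (m p : ℕ) (h : rem β (m + p) = rem β m) : PerAt β m p := by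
  intro n hn
  obtain ⟨k, rfl⟩ : ∃ k, n = k + 1 := ⟨n - 1, by omega⟩
  have := rem_periodic β m p h k
  simp only [digit]
  rw [show k + 1 + m + p - 1 = m + k + p from by omega, this,
    show k + 1 + m - 1 = m + k from by omega]

lemma perAt_iter (β : ℝ) (m p : ℕ) (h : PerAt β m p) (t n : ℕ) (hn : m < n) :
    digit β (n + t * p) = digit β n := by
  induction t with
  | zero => simp
  | succ t ih =>
    have := h (n + t * p - m) (by omega)
    rw [show n + t * p - m + m = n + t * p from by omega] at this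
    rw [← ih, this]
    congr 1
    ring

end Q264.Salem6
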