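import Mathlib
import Pool.Agent.Q264.Salem6

open Polynomial

namespace Q264.Salem6

/-- the sextic -/
noncomputable def P6 : ℤ[X] := X ^ 6 - 10 * X ^ 5 - 6 * X ^ 4 + 3 * X ^ 3 - 6 * X ^ 2 - 10 * X + 1

/-- the cofactor -/
noncomputable def Q27 : ℤ[X] :=
  X ^ 27 + X ^ 25 - X ^ 24 + 2 * X ^ 20 - X ^ 19 + X ^ 18 - 2 * X ^ 17 + X ^ 16 + X ^ 14 + X ^ 13
    - X ^ 12 + X ^ 11 - 2 * X ^ 10 + 2 * X ^ 9 - X ^ 8 + 2 * X ^ 7 - X ^ 3 + X ^ 2 + 1

/-- the digits -/
def D : List ℤ := [10, 5, 8, 2, 1, 8, 2, 10, 2, 0, 0, 9, 5, 5, 2, 4, 8, 3, 9, 1, 7, 6, 10, 1, 10, 2, 8, 1, 2, 8, 5, 9, 9]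

lemma chkD : chk (10 ^ 48) 10547787904986585409741126922602610215763496771003
    10547787904986585409741126922602610215763496771004 D (10 ^ 48) (10 ^ 48) = true := by
  decide +kernel

/-- the value of the sextic -/
def pv (x : ℝ) : ℝ := x ^ 6 - 10 * x ^ 5 - 6 * x ^ 4 + 3 * x ^ 3 - 6 * x ^ 2 - 10 * x + 1

lemma exists_beta : ∃ β : ℝ, pv β = 0 ∧
    (10547787904986585409741126922602610215763496771003 : ℝ) ≤ 10 ^ 48 * β ∧
    (10 : ℝ) ^ 48 * β ≤ 10547787904986585409741126922602610215763496771004 := by
  have hcont : ContinuousOn pv (Set.Icc (10547787904986585409741126922602610215763496771003 / 10 ^ 48)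
      (10547787904986585409741126922602610215763496771004 / 10 ^ 48)) := by
    unfold pv; fun_prop
  have h1 : pv (10547787904986585409741126922602610215763496771003 / 10 ^ 48) ≤ 0 := by
    unfold pv; norm_num
  have h2 : 0 ≤ pv (10547787904986585409741126922602610215763496771004 / 10 ^ 48) := by
    unfold pv; norm_num
  obtain ⟨β, hβ, hβ0⟩ := intermediate_value_Icc (by norm_num) hcont ⟨h1, h2⟩
  refine ⟨β, hβ0, ?_, ?_⟩
  · have := hβ.1
    rw [div_le_iff₀ (by positivity)] at this
    linarith
  · have := hβ.2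
    rw [le_div_iff₀ (by positivity)] at this
    linarith

lemma digits {β : ℝ}
    (hlo : (10547787904986585409741126922602610215763496771003 : ℝ) ≤ 10 ^ 48 * β)
    (hhi : (10 : ℝ) ^ 48 * β ≤ 10547787904986585409741126922602610215763496771004)
    (i : ℕ) (h : i < D.length) : digit β (i + 1) = D[i] := by
  have := chk_sound (10 ^ 48) 10547787904986585409741126922602610215763496771003
    10547787904986585409741126922602610215763496771004 (by positivity) (by norm_num) β
    (by push_cast; linarith) (by push_cast; linarith) D 0 (10 ^ 48) (10 ^ 48) chkD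
    (by positivity) (by simp [rem]) (by simp [rem]) i h
  simpa using this

lemma companion_eq {β : ℝ} (hD : ∀ (i : ℕ) (h : i < D.length), digit β (i + 1) = D[i]) :
    companion β 1 32 = P6 * Q27 := by
  have d1 : digit β 1 = 10 := by simpa [D] using hD 0 (by simp [D])
  have d2 : digit β 2 = 5 := by simpa [D] using hD 1 (by simp [D])
  have d3 : digit β 3 = 8 := by simpa [D] using hD 2 (by simp [D])
  have d4 : digit β 4 = 2 := by simpa [D] using hD 3 (by simp [D])
  have d5 : digit β 5 = 1 := by simpa [D] using hD 4 (by simp [D])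
  have d6 : digit β 6 = 8 := by simpa [D] using hD 5 (by simp [D])
  have d7 : digit β 7 = 2 := by simpa [D] using hD 6 (by simp [D])
  have d8 : digit β 8 = 10 := by simpa [D] using hD 7 (by simp [D])
  have d9 : digit β 9 = 2 := by simpa [D] using hD 8 (by simp [D])
  have d10 : digit β 10 = 0 := by simpa [D] using hD 9 (by simp [D])
  have d11 : digit β 11 = 0 := by simpa [D] using hD 10 (by simp [D])
  have d12 : digit β 12 = 9 := by simpa [D] using hD 11 (by simp [D])
  have d13 : digit β 13 = 5 := by simpa [D] using hD 12 (by simp [D])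
  have d14 : digit β 14 = 5 := by simpa [D] using hD 13 (by simp [D])
  have d15 : digit β 15 = 2 := by simpa [D] using hD 14 (by simp [D])
  have d16 : digit β 16 = 4 := by simpa [D] using hD 15 (by simp [D])
  have d17 : digit β 17 = 8 := by simpa [D] using hD 16 (by simp [D])
  have d18 : digit β 18 = 3 := by simpa [D] using hD 17 (by simp [D])
  have d19 : digit β 19 = 9 := by simpa [D] using hD 18 (by simp [D])
  have d20 : digit β 20 = 1 := by simpa [D] using hD 19 (by simp [D])
  have d21 : digit β 21 = 7 := by simpa [D] using hD 20 (by simp [D])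
  have d22 : digit β 22 = 6 := by simpa [D] using hD 21 (by simp [D])
  have d23 : digit β 23 = 10 := by simpa [D] using hD 22 (by simp [D])
  have d24 : digit β 24 = 1 := by simpa [D] using hD 23 (by simp [D])
  have d25 : digit β 25 = 10 := by simpa [D] using hD 24 (by simp [D])
  have d26 : digit β 26 = 2 := by simpa [D] using hD 25 (by simp [D])
  have d27 : digit β 27 = 8 := by simpa [D] using hD 26 (by simp [D])
  have d28 : digit β 28 = 1 := by simpa [D] using hD 27 (by simp [D])
  have d29 : digit β 29 = 2 := by simpa [D] using hD 28 (by simp [D])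
  have d30 : digit β 30 = 8 := by simpa [D] using hD 29 (by simp [D])
  have d31 : digit β 31 = 5 := by simpa [D] using hD 30 (by simp [D])
  have d32 : digit β 32 = 9 := by simpa [D] using hD 31 (by simp [D])
  have d33 : digit β 33 = 9 := by simpa [D] using hD 32 (by simp [D])
  unfold companion Pk
  simp only [Nat.reduceAdd, Finset.sum_Icc_succ_top, Nat.one_le_ofNat, Finset.Icc_self,
    Finset.sum_singleton, d1, d2, d3, d4, d5, d6, d7, d8, d9, d10, d11, d12, d13, d14, d15, d16, d17, d18, d19, d20, d21, d22, d23, d24, d25, d26, d27, d28, d29, d30, d31, d32, d33, Nat.reduceSub]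
  simp only [map_ofNat, map_zero, map_one, P6, Q27]
  ring

/-- the digit word of the period, indexed from position `2` -/
def dg (n : ℕ) : ℤ := D[(n - 2) % 32 + 1]'(by have := Nat.mod_lt (n - 2) (show 32 > 0 by norm_num); simp [D]; omega)

lemma dg_distinct : ∀ p' ∈ Finset.Icc 1 31, ∃ n ∈ Finset.Icc 2 33, dg n ≠ dg (n + p') := by
  decide +kernel

lemma prePer {β : ℝ} (hD : ∀ (i : ℕ) (h : i < D.length), digit β (i + 1) = D[i])
    (hP : PerAt β 1 32) : IsPreperiodPeriod β 1 32 := by
  have hdg : ∀ n : ℕ, 2 ≤ n → digit β n = dg n := by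
    intro n hn
    have h1 := perAt_iter β 1 32 hP ((n - 2) / 32) ((n - 2) % 32 + 2) (by omega)
    have h2 : (n - 2) % 32 + 2 + (n - 2) / 32 * 32 = n := by omega
    rw [h2] at h1
    rw [h1, dg]
    exact hD ((n - 2) % 32 + 1) _
  refine ⟨by norm_num, hP, fun m' p' hp' hper => ⟨?_, ?_⟩⟩
  · by_contra hm
    have hm0 : m' = 0 := by omega
    subst hm0
    have h1 := perAt_iter β 0 p' hper 32 1 (by norm_num)
    have h2 : digit β (1 + 32 * p') = dg (1 + 32 * p') := hdg _ (by omega)
    have h3 : digit β 1 = 10 := by simpa [D] using hD 0 (by simp [D])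
    have h4 : dg (1 + 32 * p') = 9 := by
      have h5 := hdg (1 + 32 * p') (by omega)
      have h6 := perAt_iter β 1 32 hP (p' - 1) 33 (by norm_num)
      have h7 : 33 + (p' - 1) * 32 = 1 + 32 * p' := by omega
      rw [h7] at h6
      have h8 : digit β 33 = 9 := by simpa [D] using hD 32 (by simp [D])
      rw [← h5, h6, h8]
    rw [h1, h3] at h2
    rw [h4] at h2
    norm_num at h2
  · by_contra hlt
    push Not at hlt
    obtain ⟨n, hn, hne⟩ := dg_distinct p' (Finset.mem_Icc.2 ⟨hp', by omega⟩)
    rw [Finset.mem_Icc] at hn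
    apply hne
    have a1 := perAt_iter β 1 32 hP m' n (by omega)
    have a2 := perAt_iter β 1 32 hP m' (n + p') (by omega)
    rw [← hdg n hn.1, ← hdg (n + p') (by omega), ← a1, ← a2]
    have a3 := hper (n + m' * 32 - m') (by omega)
    rw [show n + m' * 32 - m' + m' = n + m' * 32 from by omega] at a3
    rw [a3]
    congr 1
    ring

lemma P6_monic : P6.Monic := by
  unfold P6
  monicity!

lemma P6_natDegree : P6.natDegree = 6 := by
  unfold P6
  compute_degree!

instance : Fact (Nat.Prime 2) := ⟨Nat.prime_two⟩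

lemma P6_irreducible : Irreducible P6 := by
  apply P6_monic.irreducible_of_irreducible_map (Int.castRingHom (ZMod 2))
  have hmap : P6.map (Int.castRingHom (ZMod 2)) = X ^ 6 + X ^ 3 + 1 := by
    simp only [P6, Polynomial.map_add, Polynomial.map_sub, Polynomial.map_mul, Polynomial.map_pow,
      Polynomial.map_X, Polynomial.map_ofNat, Polynomial.map_one]
    have h2 : (2 : (ZMod 2)[X]) = 0 := CharTwo.two_eq_zero
    linear_combination (-5 * X ^ 5 - 3 * X ^ 4 + X ^ 3 - 3 * X ^ 2 - 5 * X) * h2
  rw [hmap]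
  have hcyc : cyclotomic 9 (ZMod 2) = X ^ 6 + X ^ 3 + 1 := by
    have h3 : Fact (Nat.Prime 3) := ⟨Nat.prime_three⟩
    have := cyclotomic_prime_pow_eq_geom_sum (R := ZMod 2) (p := 3) (n := 1) Nat.prime_three
    rw [show 3 ^ (1 + 1) = 9 from rfl] at this
    rw [this]
    simp only [Finset.sum_range_succ, Finset.sum_range_zero]
    ring
  apply ZMod.irreducible_of_dvd_cyclotomic_of_natDegree (n := 9) (by norm_num) (by rw [hcyc])
  have hdeg : (X ^ 6 + X ^ 3 + 1 : (ZMod 2)[X]).natDegree = 6 := by compute_degree!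
  rw [hdeg]
  symm
  rw [orderOf_eq_iff (by norm_num)]
  constructor
  · decide
  · decide

lemma minpoly_eq {β : ℝ} (hβ : pv β = 0) : minpoly ℤ β = P6 := by
  have hroot : aeval β P6 = 0 := by
    simp only [P6, map_add, map_sub, map_mul, map_pow, aeval_X, map_one, map_ofNat]
    unfold pv at hβ
    linarith
  have hint : IsIntegral ℤ β := ⟨P6, P6_monic, by simpa [aeval_def] using hroot⟩
  have hirr : Irreducible (P6.map (algebraMap ℤ ℚ)) :=
    (P6_monic.irreducible_iff_irreducible_map_fraction_map (K := ℚ)).1 P6_irreducible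
  have h1 : P6.map (algebraMap ℤ ℚ) = minpoly ℚ β :=
    minpoly.eq_of_irreducible_of_monic hirr (by rw [aeval_map_algebraMap]; exact hroot) (P6_monic.map _)
  have h2 := minpoly.isIntegrallyClosed_eq_field_fractions' ℚ hint
  apply (Polynomial.map_injective (algebraMap ℤ ℚ) (by exact (algebraMap ℤ ℚ).injective_int))
  rw [← h2, h1]

lemma Q27_not_reciprocal : Q27.reverse ≠ Q27 := by
  intro h
  have hd : Q27.natDegree = 27 := by unfold Q27; compute_degree!
  have h1 : Q27.reverse.coeff 9 = Q27.coeff 9 := by rw [h]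
  rw [coeff_reverse, hd] at h1
  have h2 : revAt 27 9 = 18 := by decide
  rw [h2] at h1
  simp [Q27, coeff_one, coeff_X_pow] at h1

end Q264.Salem6
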