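import Mathlib
import Pool.Agent.Q264.Salem6b

open Polynomial

namespace Q264.Salem6

/-- a real root strictly between -2 and 0, one between 1 and 2 -/
lemma trace_roots : ∃ y1 y2 : ℝ, (-2 < y1 ∧ y1 < 0) ∧ (1 < y2 ∧ y2 < 2) ∧
    y1 ^ 3 - 10 * y1 ^ 2 - 9 * y1 + 23 = 0 ∧ y2 ^ 3 - 10 * y2 ^ 2 - 9 * y2 + 23 = 0 := by
  let f : ℝ → ℝ := fun y => y ^ 3 - 10 * y ^ 2 - 9 * y + 23
  have hf : Continuous f := by fun_prop
  obtain ⟨y1, h1, h1'⟩ := intermediate_value_Ioo (show (-2 : ℝ) ≤ 0 by norm_num) hf.continuousOn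
    (show (0 : ℝ) ∈ Set.Ioo (f (-2)) (f 0) by simp only [f]; constructor <;> norm_num)
  obtain ⟨y2, h2, h2'⟩ := intermediate_value_Ioo' (show (1 : ℝ) ≤ 2 by norm_num) hf.continuousOn
    (show (0 : ℝ) ∈ Set.Ioo (f 2) (f 1) by simp only [f]; constructor <;> norm_num)
  exact ⟨y1, y2, ⟨h1.1, h1.2⟩, ⟨h2.1, h2.2⟩, h1', h2'⟩

/-- the trace cubic splits over the three numbers -/
lemma trace_split {y1 y2 t : ℝ} (h1 : -2 < y1 ∧ y1 < 0) (h2 : 1 < y2 ∧ y2 < 2) (ht : 2 < t)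
    (e1 : y1 ^ 3 - 10 * y1 ^ 2 - 9 * y1 + 23 = 0) (e2 : y2 ^ 3 - 10 * y2 ^ 2 - 9 * y2 + 23 = 0)
    (e3 : t ^ 3 - 10 * t ^ 2 - 9 * t + 23 = 0) :
    y1 + y2 + t = 10 ∧ y1 * y2 + y1 * t + y2 * t = -9 ∧ y1 * y2 * t = -23 := by
  have a12 : y1 - y2 ≠ 0 := by intro h; linarith
  have a1t : y1 - t ≠ 0 := by intro h; linarith
  have a2t : y2 - t ≠ 0 := by intro h; linarith
  have b12 : y1 ^ 2 + y1 * y2 + y2 ^ 2 - 10 * (y1 + y2) - 9 = 0 := by
    apply mul_left_cancel₀ a12; linear_combination e1 - e2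
  have b1t : y1 ^ 2 + y1 * t + t ^ 2 - 10 * (y1 + t) - 9 = 0 := by
    apply mul_left_cancel₀ a1t; linear_combination e1 - e3
  have c : y1 + y2 + t = 10 := by
    have : y1 + y2 + t - 10 = 0 := by
      apply mul_left_cancel₀ a2t; linear_combination b12 - b1t
    linarith
  have ht' : t = 10 - y1 - y2 := by linarith
  subst ht'
  refine ⟨by ring, by linear_combination -b12, ?_⟩
  linear_combination e1 - y1 * b12

lemma norm_of_quadratic {y : ℝ} (h1 : -2 < y) (h2 : y < 2) {z : ℂ}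
    (hz : z ^ 2 - y * z + 1 = 0) : ‖z‖ = 1 := by
  have hre := congrArg Complex.re hz
  have him := congrArg Complex.im hz
  simp [pow_two] at hre him
  have hb : z.im * (2 * z.re - y) = 0 := by linarith
  rcases mul_eq_zero.1 hb with hb | hb
  · rw [hb] at hre
    nlinarith [sq_nonneg (z.re - y / 2)]
  · have hy : y = 2 * z.re := by linarith
    have hn : Complex.normSq z = 1 := by
      rw [Complex.normSq_apply]
      rw [hy] at hre
      nlinarith
    rw [Complex.norm_def, hn, Real.sqrt_one]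

lemma aeval_P6 (z : ℂ) : aeval z P6
    = z ^ 6 - 10 * z ^ 5 - 6 * z ^ 4 + 3 * z ^ 3 - 6 * z ^ 2 - 10 * z + 1 := by
  simp only [P6, map_add, map_sub, map_mul, map_pow, aeval_X, map_one, map_ofNat]

lemma isSalem {β : ℝ} (hβ : pv β = 0) (h1 : 2 < β) : IsSalem β := by
  have hmin := minpoly_eq hβ
  have hβ0 : β ≠ 0 := by intro h; rw [h] at h1; linarith
  have hroot : aeval β P6 = 0 := by
    simp only [P6, map_add, map_sub, map_mul, map_pow, aeval_X, map_one, map_ofNat]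
    unfold pv at hβ
    linarith
  have hint : IsIntegral ℤ β := ⟨P6, P6_monic, by simpa [aeval_def] using hroot⟩
  obtain ⟨y1, y2, hy1, hy2, e1, e2⟩ := trace_roots
  have ht : 2 < β + β⁻¹ := by
    have : 0 < β⁻¹ := by positivity
    linarith
  have e3 : (β + β⁻¹) ^ 3 - 10 * (β + β⁻¹) ^ 2 - 9 * (β + β⁻¹) + 23 = 0 := by
    unfold pv at hβ
    field_simp
    linear_combination hβ
  obtain ⟨v1, v2, v3⟩ := trace_split hy1 hy2 ht e1 e2 e3
  refine ⟨by linarith, hint, ?_, ?_⟩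
  · intro z hz hne
    rw [hmin, aeval_P6] at hz
    have hz0 : z ≠ 0 := by
      rintro rfl
      norm_num at hz
    have hβc : (β : ℂ) ≠ 0 := by exact_mod_cast hβ0
    have v1c : (y1 : ℂ) + y2 + (β + (β : ℂ)⁻¹) = 10 := by exact_mod_cast congrArg (Complex.ofReal) v1
    have v2c : (y1 : ℂ) * y2 + y1 * (β + (β : ℂ)⁻¹) + y2 * (β + (β : ℂ)⁻¹) = -9 := by
      exact_mod_cast congrArg (Complex.ofReal) v2
    have v3c : (y1 : ℂ) * y2 * (β + (β : ℂ)⁻¹) = -23 := by
      exact_mod_cast congrArg (Complex.ofReal) v3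
    have hprod : (z ^ 2 - y1 * z + 1) * (z ^ 2 - y2 * z + 1)
        * (z ^ 2 - (β + (β : ℂ)⁻¹) * z + 1) = 0 := by
      linear_combination hz - v1c * z * (z ^ 2 + 1) ^ 2 + v2c * z ^ 2 * (z ^ 2 + 1) - v3c * z ^ 3
    rcases mul_eq_zero.1 hprod with h | h
    · rcases mul_eq_zero.1 h with h | h
      · exact (norm_of_quadratic hy1.1 (by linarith [hy1.2]) h).le
      · exact (norm_of_quadratic (by linarith [hy2.1]) hy2.2 h).le
    · have h' : (z - β) * (z - (β : ℂ)⁻¹) = 0 := by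
        have hm : (β : ℂ) * (β : ℂ)⁻¹ = 1 := mul_inv_cancel₀ hβc
        linear_combination h + hm
      rcases mul_eq_zero.1 h' with h | h
      · exact absurd (sub_eq_zero.1 h) hne
      · rw [sub_eq_zero.1 h]
        rw [norm_inv, Complex.norm_real, Real.norm_of_nonneg (by linarith)]
        apply inv_le_one_of_one_le₀
        linarith
  · have hs : 0 < 1 - y1 ^ 2 / 4 := by nlinarith [hy1.1, hy1.2]
    set s := Real.sqrt (1 - y1 ^ 2 / 4) with hsdef
    have hs0 : 0 < s := Real.sqrt_pos.2 hs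
    have hs2 : s ^ 2 = 1 - y1 ^ 2 / 4 := Real.sq_sqrt hs.le
    let z : ℂ := ⟨y1 / 2, s⟩
    have hz : z ^ 2 - y1 * z + 1 = 0 := by
      apply Complex.ext
      · simp [z, pow_two]
        nlinarith
      · simp [z, pow_two]
        ring
    refine ⟨z, ?_, ?_, norm_of_quadratic hy1.1 (by linarith [hy1.2]) hz⟩
    · rw [hmin, aeval_P6]
      have e1c : (y1 : ℂ) ^ 3 - 10 * y1 ^ 2 - 9 * y1 + 23 = 0 := by
        exact_mod_cast congrArg (Complex.ofReal) e1
      have hz' : z ^ 2 + 1 = y1 * z := by linear_combination hz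
      have : z ^ 6 - 10 * z ^ 5 - 6 * z ^ 4 + 3 * z ^ 3 - 6 * z ^ 2 - 10 * z + 1
          = (z ^ 2 + 1) ^ 3 - 10 * z * (z ^ 2 + 1) ^ 2 - 9 * z ^ 2 * (z ^ 2 + 1) + 23 * z ^ 3 := by
        ring
      rw [this, hz']
      linear_combination z ^ 3 * e1c
    · intro h
      have := congrArg Complex.im h
      simp [z] at this
      exact hs0.ne' this

end Q264.Salem6
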