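import Mathlib

/-!
# Slow walks for two-term recurrences

Definitions for slowest pairs, and a pair of recurrences for which the expected witnesses
are beaten by another pair for all large indices.
-/

namespace Q264.SlowWalk

/-- `w_1 = a₁`, `w_2 = a₂`, `w_{k+2} = α w_{k+1} + β w_k` (the value at index `0` is not used) -/
def w (α β a₁ a₂ : ℕ) : ℕ → ℕ
  | 0 => 0
  | 1 => a₁
  | 2 => a₂
  | k + 3 => α * w α β a₁ a₂ (k + 2) + β * w α β a₁ a₂ (k + 1)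

/-- `g_1 = 1`, `g_2 = α`, `g_{k+2} = α g_{k+1} + β g_k` -/
def g (α β : ℕ) : ℕ → ℕ := w α β 1 α

/-- the indices at which an `(α, β)`-recurrence with positive starting values takes the value
`n` -/
def hits (p : ℕ × ℕ) (n : ℕ) : Set ℕ :=
  {s | 1 ≤ s ∧ ∃ a₁ a₂ : ℕ, 1 ≤ a₁ ∧ 1 ≤ a₂ ∧ w p.1 p.2 a₁ a₂ s = n}

/-- `s_{α,β}(n)`, the largest such index -/
noncomputable def slow (p : ℕ × ℕ) (n : ℕ) : ℕ := sSup (hits p n)

/-- `γ_{α,β}` -/
noncomputable def gam (p : ℕ × ℕ) : ℝ := ((p.1 : ℝ) + Real.sqrt ((p.1 : ℝ) ^ 2 + 4 * p.2)) / 2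

/-- `S_T(n)`: the members of `T` whose `s` is maximal over `T` -/
def ST (T : Set (ℕ × ℕ)) (n : ℕ) : Set (ℕ × ℕ) := {p | p ∈ T ∧ ∀ q ∈ T, slow q n ≤ slow p n}

/-- `Γ_T`, the least `γ` over `T` -/
noncomputable def Gam (T : Set (ℕ × ℕ)) : ℝ := sInf (gam '' T)

/-- `R_T'` -/
def RT (T : Set (ℕ × ℕ)) : Set (ℕ × ℕ) := {p | p ∈ T ∧ gam p < Gam T ^ 2}

lemma w_one (α β a₁ a₂ : ℕ) : w α β a₁ a₂ 1 = a₁ := rfl
lemma w_two (α β a₁ a₂ : ℕ) : w α β a₁ a₂ 2 = a₂ := rfl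
lemma w_rec (α β a₁ a₂ k : ℕ) :
    w α β a₁ a₂ (k + 3) = α * w α β a₁ a₂ (k + 2) + β * w α β a₁ a₂ (k + 1) := rfl

lemma w_mono (α β a₁ a₂ : ℕ) (h1 : 1 ≤ a₁) (h2 : 1 ≤ a₂) (s : ℕ) :
    w α β 1 1 (s + 1) ≤ w α β a₁ a₂ (s + 1) ∧ w α β 1 1 (s + 2) ≤ w α β a₁ a₂ (s + 2) := by
  induction s with
  | zero => exact ⟨h1, h2⟩
  | succ s ih =>
    refine ⟨ih.2, ?_⟩
    rw [w_rec, w_rec]
    exact Nat.add_le_add (Nat.mul_le_mul_left _ ih.2) (Nat.mul_le_mul_left _ ih.1)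

lemma w_pos (α β : ℕ) (hα : 1 ≤ α) (hβ : 1 ≤ β) (s : ℕ) :
    1 ≤ w α β 1 1 (s + 1) ∧ w α β 1 1 (s + 2) < w α β 1 1 (s + 3) := by
  induction s with
  | zero =>
    refine ⟨le_refl _, ?_⟩
    rw [w_rec, w_two, w_one]; omega
  | succ s ih =>
    have h0 : 1 ≤ w α β 1 1 (s + 2) := by
      cases s with
      | zero => exact le_refl _
      | succ s =>
        rw [w_rec]
        have := ih.1
        have : w α β 1 1 (s + 1 + 1) ≤ α * w α β 1 1 (s + 2) := by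
          exact Nat.le_mul_of_pos_left _ hα
        have h5 := ih.1
        omega
    refine ⟨h0, ?_⟩
    rw [w_rec α β 1 1 (s + 1)]
    have h1 : w α β 1 1 (s + 1 + 2) ≤ α * w α β 1 1 (s + 1 + 2) := Nat.le_mul_of_pos_left _ hα
    have h2 : w α β 1 1 (s + 1 + 1) ≤ β * w α β 1 1 (s + 1 + 1) := Nat.le_mul_of_pos_left _ hβ
    have h3 : 1 ≤ w α β 1 1 (s + 1 + 1) := h0
    have h4 : w α β 1 1 (s + 1 + 2) = w α β 1 1 (s + 3) := rfl
    omega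

lemma w_lt (α β : ℕ) (hα : 1 ≤ α) (hβ : 1 ≤ β) (s d : ℕ) :
    w α β 1 1 (s + 2) < w α β 1 1 (s + 3 + d) := by
  induction d with
  | zero => exact (w_pos α β hα hβ s).2
  | succ d ih =>
    have := (w_pos α β hα hβ (s + 1 + d)).2
    have e1 : s + 1 + d + 2 = s + 3 + d := by ring
    have e2 : s + 1 + d + 3 = s + 3 + (d + 1) := by ring
    rw [e1, e2] at this
    omega

lemma w_ge (α β : ℕ) (hα : 1 ≤ α) (hβ : 1 ≤ β) (s : ℕ) : s + 1 ≤ w α β 1 1 (s + 2) := by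
  induction s with
  | zero => exact le_refl _
  | succ s ih =>
    have := (w_pos α β hα hβ s).2
    have e : w α β 1 1 (s + 1 + 2) = w α β 1 1 (s + 3) := rfl
    omega

lemma hits_bdd (p : ℕ × ℕ) (h1 : 1 ≤ p.1) (h2 : 1 ≤ p.2) (n s : ℕ) (hs : s ∈ hits p n) :
    s ≤ n + 1 := by
  obtain ⟨hs1, a₁, a₂, ha1, ha2, h⟩ := hs
  rcases Nat.lt_or_ge s 2 with h3 | h3
  · omega
  · obtain ⟨k, rfl⟩ : ∃ k, s = k + 2 := ⟨s - 2, by omega⟩
    have := w_ge p.1 p.2 h1 h2 k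
    have := (w_mono p.1 p.2 a₁ a₂ ha1 ha2 k).2
    omega

/-- for `n ≥ 1` the number `slow p n` really is the largest index -/
lemma slow_isGreatest (p : ℕ × ℕ) (h1 : 1 ≤ p.1) (h2 : 1 ≤ p.2) (n : ℕ) (hn : 1 ≤ n) :
    IsGreatest (hits p n) (slow p n) := by
  have hne : (hits p n).Nonempty := ⟨1, le_refl _, n, 1, hn, le_refl _, rfl⟩
  have hb : BddAbove (hits p n) := ⟨n + 1, fun s hs => hits_bdd p h1 h2 n s hs⟩
  exact ⟨Nat.sSup_mem hne hb, fun s hs => le_csSup hb hs⟩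

lemma w_eq_g (α β : ℕ) (t : ℕ) :
    w α β 1 1 (t + 3) = g α β (t + 2) + β * g α β (t + 1) ∧
    w α β 1 1 (t + 4) = g α β (t + 3) + β * g α β (t + 2) := by
  induction t with
  | zero =>
    constructor
    · simp [w, g]
    · simp [w, g]; ring
  | succ t ih =>
    refine ⟨ih.2, ?_⟩
    rw [w_rec, ih.2, ih.1]
    simp only [g]
    rw [w_rec α β 1 α (t + 1), w_rec α β 1 α t]
    ring

/-- the value `n_t` -/
lemma slow_le (α β : ℕ) (hα : 1 ≤ α) (hβ : 1 ≤ β) (t : ℕ) (ht : 2 ≤ t) :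
    slow (α, β) (g α β t + β * g α β (t - 1)) ≤ t + 1 := by
  obtain ⟨k, rfl⟩ : ∃ k, t = k + 2 := ⟨t - 2, by omega⟩
  have e : g α β (k + 2) + β * g α β (k + 2 - 1) = w α β 1 1 (k + 3) := ((w_eq_g α β k).1).symm
  rw [e]
  have hn : 1 ≤ w α β 1 1 (k + 3) := by have := w_ge α β hα hβ (k + 1); exact le_trans (by omega) this
  have hg := slow_isGreatest (α, β) hα hβ (w α β 1 1 (k + 3)) hn
  obtain ⟨hs1, a₁, a₂, ha1, ha2, h⟩ := hg.1
  by_contra hlt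
  push Not at hlt
  obtain ⟨d, hd⟩ : ∃ d, slow (α, β) (w α β 1 1 (k + 3)) = (k + 1) + 3 + d :=
    ⟨slow (α, β) (w α β 1 1 (k + 3)) - (k + 4), by omega⟩
  rw [hd] at h
  have h1 := w_lt α β hα hβ (k + 1) d
  have h2 := (w_mono α β a₁ a₂ ha1 ha2 ((k + 1) + 1 + d)).2
  have e1 : (k + 1) + 1 + d + 2 = (k + 1) + 3 + d := by ring
  rw [e1] at h2
  have e2 : w α β 1 1 (k + 1 + 2) = w α β 1 1 (k + 3) := rfl
  simp only at h
  omega

/-! ### the concrete pairs `(773, 263424)` and `(33, 784)` -/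

lemma closed_big (t : ℕ) :
    5 * (w 773 263424 1 1 (t + 2) : ℤ) = 1029 ^ (t + 1) + 4 * (-256) ^ (t + 1) ∧
    5 * (w 773 263424 1 1 (t + 3) : ℤ) = 1029 ^ (t + 2) + 4 * (-256) ^ (t + 2) := by
  induction t with
  | zero => constructor <;> norm_num [w]
  | succ t ih =>
    refine ⟨ih.2, ?_⟩
    rw [w_rec]
    push_cast
    have h1 := ih.1
    have h2 := ih.2
    linear_combination 773 * h2 + 263424 * h1

lemma closed_small (a₁ a₂ t : ℕ) :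
    65 * (w 33 784 a₁ a₂ (t + 1) : ℤ) = (a₂ + 16 * a₁) * 49 ^ t + (49 * a₁ - a₂) * (-16) ^ t ∧
    65 * (w 33 784 a₁ a₂ (t + 2) : ℤ)
      = (a₂ + 16 * a₁) * 49 ^ (t + 1) + (49 * a₁ - a₂) * (-16) ^ (t + 1) := by
  induction t with
  | zero => constructor <;> simp only [w] <;> ring
  | succ t ih =>
    refine ⟨ih.2, ?_⟩
    rw [w_rec]
    push_cast
    have h1 := ih.1
    have h2 := ih.2
    linear_combination 33 * h2 + 784 * h1

lemma dvd1 (k : ℕ) : (5 : ℤ) ∣ 9 * 21 ^ k - 4 * 16 ^ (k + 1) := by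
  have h : (9 * 21 ^ k - 4 * 16 ^ (k + 1) : ℤ) ≡ 9 * 1 ^ k - 4 * 1 ^ (k + 1) [ZMOD 5] := by
    apply Int.ModEq.sub
    · exact Int.ModEq.mul_left _ (Int.ModEq.pow _ (by decide))
    · exact Int.ModEq.mul_left _ (Int.ModEq.pow _ (by decide))
  apply Int.modEq_zero_iff_dvd.1
  refine h.trans ?_
  norm_num

lemma dvd2 (k : ℕ) : (5 : ℤ) ∣ 21 ^ k + 4 * 16 ^ k := by
  have h : (21 ^ k + 4 * 16 ^ k : ℤ) ≡ 1 ^ k + 4 * 1 ^ k [ZMOD 5] := by
    apply Int.ModEq.add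
    · exact Int.ModEq.pow _ (by decide)
    · exact Int.ModEq.mul_left _ (Int.ModEq.pow _ (by decide))
  apply Int.modEq_zero_iff_dvd.1
  refine h.trans ?_
  norm_num

lemma pow_ineq (j : ℕ) : (4 * 16 ^ (j + 9) : ℤ) < 9 * 21 ^ (j + 8) := by
  induction j with
  | zero => norm_num
  | succ j ih =>
    have h1 : (16 : ℤ) ^ (j + 1 + 9) = 16 * 16 ^ (j + 9) := by ring
    have h2 : (21 : ℤ) ^ (j + 1 + 8) = 21 * 21 ^ (j + 8) := by ring
    have h3 : (0 : ℤ) < 21 ^ (j + 8) := by positivity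
    rw [h1, h2]
    linarith

/-- for `t ≥ 10` the integer `n_t` of the pair `(773, 263424)` is reached by the pair
`(33, 784)` at index `t + 2` -/
lemma mem_hits (t : ℕ) (ht : 10 ≤ t) :
    t + 2 ∈ hits (33, 784) (g 773 263424 t + 263424 * g 773 263424 (t - 1)) := by
  obtain ⟨j, rfl⟩ : ∃ j, t = j + 10 := ⟨t - 10, by omega⟩
  have e : g 773 263424 (j + 10) + 263424 * g 773 263424 (j + 10 - 1)
      = w 773 263424 1 1 (j + 8 + 3) := ((w_eq_g 773 263424 (j + 8)).1).symm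
  rw [e]
  obtain ⟨x, hx⟩ := dvd1 (j + 8)
  obtain ⟨y, hy⟩ := dvd2 (j + 10)
  have hx0 : 1 ≤ x := by
    have := pow_ineq j
    have e1 : j + 8 + 1 = j + 9 := by ring
    rw [e1] at hx
    omega
  have hy0 : 1 ≤ y := by
    have h1 : (0 : ℤ) < 21 ^ (j + 10) := by positivity
    have h2 : (0 : ℤ) < 16 ^ (j + 10) := by positivity
    omega
  obtain ⟨a, rfl⟩ := Int.eq_ofNat_of_zero_le (show 0 ≤ x by omega)
  obtain ⟨b, rfl⟩ := Int.eq_ofNat_of_zero_le (show 0 ≤ y by omega)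
  refine ⟨by omega, a, b, by exact_mod_cast hx0, by exact_mod_cast hy0, ?_⟩
  have h1 := (closed_small a b (j + 10)).2
  have h2 := (closed_big (j + 8)).2
  simp only
  have e2 : j + 8 + 2 = j + 10 := by ring
  rw [e2] at h2
  have h3 : (325 : ℤ) * (w 33 784 a b (j + 10 + 2) : ℤ)
      = 325 * (w 773 263424 1 1 (j + 8 + 3) : ℤ) := by
    have p1 : (49 : ℤ) ^ (j + 10 + 1) = 49 ^ 3 * 49 ^ (j + 8) := by ring
    have p2 : (1029 : ℤ) ^ (j + 10) = 1029 ^ 2 * (49 ^ (j + 8) * 21 ^ (j + 8)) := by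
      rw [← mul_pow]; norm_num; ring
    have p3 : (-16 : ℤ) ^ (j + 10 + 1) = -16 * (-16) ^ (j + 10) := by ring
    have p4 : (-256 : ℤ) ^ (j + 10) = (-16) ^ (j + 10) * 16 ^ (j + 10) := by
      rw [← mul_pow]; norm_num
    have p5 : (16 : ℤ) ^ (j + 8 + 1) * 16 = 16 ^ (j + 10) := by ring
    have p6 : (21 : ℤ) ^ (j + 10) = 441 * 21 ^ (j + 8) := by ring
    rw [p1, p3] at h1
    rw [p2, p4] at h2
    rw [p6] at hy
    have q1 : (5 : ℤ) * (b + 16 * a) = 585 * 21 ^ (j + 8) := by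
      linear_combination (-1 : ℤ) * hy - 16 * hx - 4 * p5
    have q2 : (20 : ℤ) * (49 * a - b) = -65 * 16 ^ (j + 10) := by
      linear_combination (-4 * 49 : ℤ) * hx + 4 * hy - 49 * p5
    linear_combination 5 * h1 - 65 * h2 + 49 ^ 3 * 49 ^ (j + 8) * q1
      - 4 * (-16) ^ (j + 10) * q2
  have h4 : (w 33 784 a b (j + 10 + 2) : ℤ) = (w 773 263424 1 1 (j + 8 + 3) : ℤ) := by
    linarith
  exact_mod_cast h4

lemma gam_small : gam (33, 784) = 49 := by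
  have h : Real.sqrt (((33 : ℕ) : ℝ) ^ 2 + 4 * ((784 : ℕ) : ℝ)) = 65 := by
    rw [show ((33 : ℕ) : ℝ) ^ 2 + 4 * ((784 : ℕ) : ℝ) = 65 ^ 2 by norm_num]
    exact Real.sqrt_sq (by norm_num)
  simp only [gam]
  rw [h]; norm_num

lemma gam_big : gam (773, 263424) = 1029 := by
  have h : Real.sqrt (((773 : ℕ) : ℝ) ^ 2 + 4 * ((263424 : ℕ) : ℝ)) = 1285 := by
    rw [show ((773 : ℕ) : ℝ) ^ 2 + 4 * ((263424 : ℕ) : ℝ) = 1285 ^ 2 by norm_num]
    exact Real.sqrt_sq (by norm_num)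
  simp only [gam]
  rw [h]; norm_num

lemma Gam_pair : Gam {(33, 784), (773, 263424)} = 49 := by
  have h : gam '' {((33, 784) : ℕ × ℕ), (773, 263424)} = {49, 1029} := by
    rw [Set.image_pair, gam_small, gam_big]
  unfold Gam
  rw [h, csInf_pair]
  norm_num

end Q264.SlowWalk
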