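import Mathlib

/-!
# The Thue-Morse-twisted Fibonacci sequence: reduction to nonnegative matrices
-/

set_option autoImplicit false

namespace Q264.TMFib

/-- the Prouhet-Thue-Morse sequence `(-1) ^ s_2(n)` -/
def t (n : ℕ) : ℤ := (-1) ^ (Nat.digits 2 n).sum

/-- the twisted Fibonacci sequence -/
def h : ℕ → ℤ
  | 0 => 0
  | 1 => 1
  | n + 2 => t (n + 2) * h (n + 1) + h n

theorem t_zero : t 0 = 1 := by simp [t]

theorem digits_two_mul_sum (n : ℕ) : (Nat.digits 2 (2 * n)).sum = (Nat.digits 2 n).sum := by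
  rcases Nat.eq_zero_or_pos n with rfl | hn
  · simp
  · rw [Nat.digits_def' (by norm_num) (by omega)]
    simp

theorem digits_two_mul_add_sum (n : ℕ) : (Nat.digits 2 (2 * n + 1)).sum = (Nat.digits 2 n).sum + 1 := by
  rw [Nat.digits_def' (by norm_num) (by omega)]
  rw [List.sum_cons, show (2 * n + 1) % 2 = 1 by omega, show (2 * n + 1) / 2 = n by omega]
  ring

theorem t_even (n : ℕ) : t (2 * n) = t n := by
  unfold t
  rw [digits_two_mul_sum]

theorem t_odd (n : ℕ) : t (2 * n + 1) = -t n := by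
  unfold t
  rw [digits_two_mul_add_sum, pow_succ]
  ring

theorem t_sq (n : ℕ) : t n * t n = 1 := by
  unfold t
  rw [← pow_add, ← two_mul, pow_mul]
  norm_num

theorem t_cases (n : ℕ) : t n = 1 ∨ t n = -1 := by
  unfold t
  exact neg_one_pow_eq_or ℤ _

theorem abs_t (n : ℕ) : |t n| = 1 := by
  rcases t_cases n with h | h <;> rw [h] <;> norm_num

/-- `W j = (-1) ^ v_2(j + 1)` -/
def W (j : ℕ) : ℤ := -(t (j + 1) * t j)

theorem W_even (j : ℕ) : W (2 * j) = 1 := by
  unfold W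
  rw [t_odd, t_even]
  linear_combination t_sq j

theorem W_odd (j : ℕ) : W (2 * j + 1) = -W j := by
  unfold W
  rw [show 2 * j + 1 + 1 = 2 * (j + 1) by ring, t_even, t_odd]
  ring

theorem W_cases (j : ℕ) : W j = 1 ∨ W j = -1 := by
  unfold W
  rcases t_cases j with h1 | h1 <;> rcases t_cases (j + 1) with h2 | h2 <;> rw [h1, h2] <;> norm_num

/-- the state `(x, y) = (|h_{4m}|, |h_{4m+1}|)` -/
def s : ℕ → ℕ × ℕ
  | 0 => (0, 1)
  | m + 1 => if W m = 1 then ((s m).2, (s m).1 + (s m).2) else (2 * (s m).1 + (s m).2, (s m).1 + (s m).2)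

theorem h_succ (n : ℕ) : h (n + 2) = t (n + 2) * h (n + 1) + h n := rfl

/-- `h_{2n+3} = t_{2n+3} h_{2n}` -/
theorem h_odd (n : ℕ) : h (2 * n + 3) = -t (n + 1) * h (2 * n) := by
  have h1 := h_succ (2 * n + 1)
  have h2 := h_succ (2 * n)
  rw [show 2 * n + 1 + 2 = 2 * n + 3 by ring, show 2 * n + 1 + 1 = 2 * n + 2 by ring] at h1
  rw [h1, h2, show 2 * n + 3 = 2 * (n + 1) + 1 by ring, show 2 * n + 2 = 2 * (n + 1) by ring, t_odd, t_even]
  linear_combination (-h (2 * n + 1)) * t_sq (n + 1)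

/-- `h_{2n+4} = h_{2n+2} + W_{n+1} h_{2n}` -/
theorem h_even (n : ℕ) : h (2 * n + 4) = h (2 * n + 2) + W (n + 1) * h (2 * n) := by
  have h1 := h_succ (2 * n + 2)
  rw [show 2 * n + 2 + 2 = 2 * n + 4 by ring, show 2 * n + 2 + 1 = 2 * n + 3 by ring] at h1
  rw [h1, h_odd, show 2 * n + 4 = 2 * (n + 2) by ring, t_even]
  unfold W
  rw [show n + 1 + 1 = n + 2 by ring]
  ring

theorem h_state (m : ℕ) : h (4 * m) = -((s m).1 : ℤ) ∧ h (4 * m + 2) = -(((s m).1 : ℤ) + (s m).2) := by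
  induction m with
  | zero =>
    constructor
    · simp [h, s]
    · rw [h_succ]
      have : t 2 = -1 := by
        have := t_odd 0
        rw [t_zero] at this
        have h2 := t_even 1
        simp only [mul_zero, zero_add, mul_one] at this h2
        rw [h2, this]
      simp [h, s, this]
  | succ m ih =>
    obtain ⟨ih1, ih2⟩ := ih
    have e1 : h (4 * (m + 1)) = -((s (m + 1)).1 : ℤ) := by
      have h1 := h_even (2 * m)
      rw [show 2 * (2 * m) + 4 = 4 * (m + 1) by ring, show 2 * (2 * m) + 2 = 4 * m + 2 by ring,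
        show 2 * (2 * m) = 4 * m by ring, W_odd, ih1, ih2] at h1
      rw [h1, s]
      rcases W_cases m with hW | hW
      · rw [if_pos hW, hW]; push_cast; ring
      · rw [if_neg (by rw [hW]; norm_num), hW]; push_cast; ring
    refine ⟨e1, ?_⟩
    have h2 := h_even (2 * m + 1)
    rw [show 2 * (2 * m + 1) + 4 = 4 * (m + 1) + 2 by ring, show 2 * (2 * m + 1) + 2 = 4 * (m + 1) by ring,
      show 2 * (2 * m + 1) = 4 * m + 2 by ring, show 2 * m + 1 + 1 = 2 * (m + 1) by ring, W_even, e1, ih2] at h2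
    rw [h2]
    rw [s]
    rcases W_cases m with hW | hW
    · rw [if_pos hW]; push_cast; ring
    · rw [if_neg (by rw [hW]; norm_num)]; push_cast; ring

/-- the second component after one step -/
theorem s_succ_two (m : ℕ) : (s (m + 1)).2 = (s m).1 + (s m).2 := by
  rw [s]
  split_ifs <;> rfl

theorem abs_h0 (m : ℕ) : |h (4 * m)| = (s m).1 := by
  rw [(h_state m).1, abs_neg, Nat.abs_cast]

theorem abs_h2 (m : ℕ) : |h (4 * m + 2)| = (s m).1 + (s m).2 := by
  rw [(h_state m).2, abs_neg, ← Nat.cast_add, Nat.abs_cast]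

theorem abs_h3 (m : ℕ) : |h (4 * m + 3)| = (s m).1 := by
  have := h_odd (2 * m)
  rw [show 2 * (2 * m) + 3 = 4 * m + 3 by ring, show 2 * (2 * m) = 4 * m by ring] at this
  rw [this, abs_mul, abs_neg, abs_t, one_mul, abs_h0]

theorem abs_h1 (m : ℕ) : |h (4 * m + 1)| = (s m).2 := by
  rcases m with _ | m
  · simp [h, s]
  · have := h_odd (2 * m + 1)
    rw [show 2 * (2 * m + 1) + 3 = 4 * (m + 1) + 1 by ring, show 2 * (2 * m + 1) = 4 * m + 2 by ring] at this
    rw [this, abs_mul, abs_neg, abs_t, one_mul, abs_h2, s_succ_two]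
    push_cast
    rfl

/-! ### Matrices -/

/-- `2 × 2` matrices with entries in `ℕ` -/
structure M2 where
  a : ℕ
  b : ℕ
  c : ℕ
  d : ℕ

namespace M2

def mul (X Y : M2) : M2 :=
  ⟨X.a * Y.a + X.b * Y.c, X.a * Y.b + X.b * Y.d, X.c * Y.a + X.d * Y.c, X.c * Y.b + X.d * Y.d⟩

def app (X : M2) (v : ℕ × ℕ) : ℕ × ℕ := (X.a * v.1 + X.b * v.2, X.c * v.1 + X.d * v.2)

def sum (X : M2) : ℕ := X.a + X.b + X.c + X.d

/-- the column sums -/
def c1 (X : M2) : ℕ := X.a + X.c
def c2 (X : M2) : ℕ := X.b + X.d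

def det (X : M2) : ℤ := X.a * X.d - X.b * X.c

theorem app_mul (X Y : M2) (v : ℕ × ℕ) : (X.mul Y).app v = X.app (Y.app v) := by
  simp only [mul, app, Prod.mk.injEq]
  constructor <;> ring

theorem det_mul (X Y : M2) : (X.mul Y).det = X.det * Y.det := by
  simp only [mul, det]
  push_cast
  ring

end M2

open M2

def NP : M2 := ⟨0, 1, 1, 1⟩
def NM : M2 := ⟨2, 1, 1, 1⟩

/-- the block matrices -/
def A : ℕ → M2 × M2
  | 0 => (NP, NM)
  | k + 1 => ((A k).2.mul (A k).1, (A k).1.mul (A k).1)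

/-- the block matrix for the sign `e` -/
def blk (k : ℕ) (e : ℤ) : M2 := if e = 1 then (A k).1 else (A k).2

theorem block (k : ℕ) : ∀ j, s (2 ^ k * (j + 1)) = (blk k (W j)).app (s (2 ^ k * j)) := by
  induction k with
  | zero =>
    intro j
    rw [pow_zero, one_mul, one_mul, s, blk]
    split_ifs
    · simp [A, NP, app]
    · simp [A, NM, app]
  | succ k ih =>
    intro j
    rw [pow_succ, show 2 ^ k * 2 * (j + 1) = 2 ^ k * ((2 * j + 1) + 1) by ring, ih (2 * j + 1), ih (2 * j), W_odd, W_even,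
      show 2 ^ k * 2 * j = 2 ^ k * (2 * j) by ring, ← app_mul]
    congr 1
    unfold blk
    rcases W_cases j with hW | hW
    · rw [hW]; simp [A]
    · rw [hW]; simp [A]

end Q264.TMFib
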