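import Mathlib
import Pool.Agent.Q264.TMFib

/-!
# Doubling congruences
-/

set_option autoImplicit false

namespace Q264.TMFib

open M2

theorem W_pow (j n : ℕ) (hn : 1 ≤ n) : W (2 ^ j * n - 1) = (-1) ^ j * W (n - 1) := by
  induction j with
  | zero => simp
  | succ j ih =>
    have h1 : 1 ≤ 2 ^ j * n := Nat.mul_pos (by positivity) hn
    rw [show 2 ^ (j + 1) * n - 1 = 2 * (2 ^ j * n - 1) + 1 by rw [pow_succ, mul_comm (2 ^ j) 2, mul_assoc]; omega,
      W_odd, ih, pow_succ]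
    ring

/-- the product of the first `2 ^ j - 1` matrices -/
def X : ℕ → M2
  | 0 => ⟨1, 0, 0, 1⟩
  | j + 1 => (X j).mul ((if Even j then NP else NM).mul (X j))

theorem s_app (m : ℕ) : s (m + 1) = (if W m = 1 then NP else NM).app (s m) := by
  rw [s]
  split_ifs <;> simp [NP, NM, app]

theorem X_spec (j : ℕ) : ∀ i, s (2 ^ j * i + (2 ^ j - 1)) = (X j).app (s (2 ^ j * i)) := by
  induction j with
  | zero => intro i; simp [X, app]
  | succ j ih =>
    intro i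
    have h1 : 1 ≤ 2 ^ j := Nat.one_le_two_pow
    rw [show 2 ^ (j + 1) * i + (2 ^ (j + 1) - 1) = 2 ^ j * (2 * i + 1) + (2 ^ j - 1) by
      rw [pow_succ, mul_add]
      have : 2 ^ j * 2 * i = 2 ^ j * (2 * i) := by ring
      omega, ih (2 * i + 1)]
    rw [show 2 ^ j * (2 * i + 1) = (2 ^ j * (2 * i) + (2 ^ j - 1)) + 1 by rw [mul_add]; omega, s_app, ih (2 * i)]
    rw [show 2 ^ j * (2 * i) + (2 ^ j - 1) = 2 ^ j * (2 * i + 1) - 1 by rw [mul_add]; omega,
      W_pow j (2 * i + 1) (by omega), show 2 * i + 1 - 1 = 2 * i by omega, W_even, mul_one,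
      show 2 ^ (j + 1) * i = 2 ^ j * (2 * i) by rw [pow_succ]; ring, X, app_mul, app_mul]
    congr 3
    rw [eq_iff_iff]
    by_cases hj : Even j
    · exact ⟨fun _ => hj, fun _ => hj.neg_one_pow⟩
    · refine ⟨fun h => ?_, fun h => absurd h hj⟩
      rw [(Nat.not_even_iff_odd.1 hj).neg_one_pow] at h
      norm_num at h

theorem X_det (j : ℕ) : (X j).det * (X j).det = 1 ∧ (Odd j → (X j).det = -1) := by
  induction j with
  | zero => simp [X, det]
  | succ j ih =>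
    obtain ⟨ih1, ih2⟩ := ih
    have h0 : (X (j + 1)).det = (if Even j then NP else NM).det := by
      rw [X, det_mul, det_mul]
      linear_combination (if Even j then NP else NM).det * ih1
    by_cases hj : Even j
    · rw [if_pos hj] at h0
      rw [h0]
      constructor
      · simp [NP, det]
      · intro _; simp [NP, det]
    · rw [if_neg hj] at h0
      rw [h0]
      constructor
      · simp [NM, det]
      · intro hodd
        exact absurd hodd (by rw [Nat.not_odd_iff_even]; exact (Nat.not_even_iff_odd.1 hj).add_one)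

/-- `y_{2^j - 1}` is the last entry of `X j` -/
theorem y_eq (j : ℕ) : (s (2 ^ j - 1)).2 = (X j).d := by
  have := X_spec j 0
  rw [mul_zero, zero_add] at this
  rw [this]
  simp [app, s]

theorem y_even (j : ℕ) (hj : Even j) : (s (2 ^ j - 1)).2 ∣ (s (2 ^ (j + 1) - 1)).2 := by
  rw [y_eq, y_eq, X, if_pos hj]
  refine ⟨(X j).b + (X j).c + (X j).d, ?_⟩
  simp only [mul, NP]
  ring

theorem y_odd (j : ℕ) (hj : Odd j) : ((s (2 ^ j - 1)).2 : ℤ) ∣ (s (2 ^ (j + 1) - 1)).2 - 2 := by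
  have hdet := (X_det j).2 hj
  rw [y_eq, y_eq, X, if_neg (by rw [Nat.not_even_iff_odd]; exact hj)]
  refine ⟨2 * (X j).a + (X j).b + (X j).c + (X j).d, ?_⟩
  simp only [mul, NM]
  unfold det at hdet
  push_cast
  linear_combination (-2 : ℤ) * hdet

theorem h_dvd_iff (j : ℕ) (z : ℤ) : h (2 ^ (j + 2) - 3) ∣ z ↔ ((s (2 ^ j - 1)).2 : ℤ) ∣ z := by
  have h1 : 1 ≤ 2 ^ j := Nat.one_le_two_pow
  rw [show 2 ^ (j + 2) - 3 = 4 * (2 ^ j - 1) + 1 by rw [pow_succ, pow_succ]; omega, ← abs_dvd, abs_h1]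

theorem h_double (j : ℕ) : h (2 * (2 ^ (j + 2) - 3)) = -((s (2 ^ (j + 1) - 1)).2 : ℤ) := by
  have h1 : 1 ≤ 2 ^ j := Nat.one_le_two_pow
  rw [show 2 * (2 ^ (j + 2) - 3) = 4 * (2 ^ (j + 1) - 2) + 2 by rw [pow_succ, pow_succ]; omega, (h_state _).2,
    show 2 ^ (j + 1) - 1 = (2 ^ (j + 1) - 2) + 1 by rw [pow_succ]; omega, s_succ_two]
  push_cast
  rfl

/-- the first congruence -/
theorem cong_even (n : ℕ) (hn : 1 ≤ n) : h (2 ^ (2 * n) - 3) ∣ h (2 * (2 ^ (2 * n) - 3)) := by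
  obtain ⟨j, rfl⟩ : ∃ j, n = j + 1 := ⟨n - 1, by omega⟩
  rw [show 2 * (j + 1) = 2 * j + 2 by ring, h_dvd_iff, h_double, dvd_neg]
  exact_mod_cast y_even (2 * j) (even_two_mul j)

/-- the second congruence -/
theorem cong_odd (k : ℕ) (hk : 3 ≤ k) (hodd : Odd k) : h (2 ^ k - 3) ∣ h (2 * (2 ^ k - 3)) - (-2) := by
  obtain ⟨j, rfl⟩ : ∃ j, k = j + 2 := ⟨k - 2, by omega⟩
  have hj : Odd j := by
    rcases hodd with ⟨l, hl⟩
    exact ⟨l - 1, by omega⟩
  rw [h_dvd_iff, h_double]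
  have := y_odd j hj
  have h2 : -((s (2 ^ (j + 1) - 1)).2 : ℤ) - (-2) = -(((s (2 ^ (j + 1) - 1)).2 : ℤ) - 2) := by ring
  rw [h2, dvd_neg]
  exact this

end Q264.TMFib
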