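import Mathlib
import Pool.Agent.Q264.TMCong

/-!
# Ratios of consecutive terms
-/

set_option autoImplicit false

namespace Q264.TMFib

open M2

theorem s_pos (m : ℕ) : 0 < (s m).2 ∧ (0 < m → 0 < (s m).1) := by
  induction m with
  | zero => simp [s]
  | succ m ih =>
    rw [s]
    split_ifs
    · exact ⟨by simp only; omega, fun _ => ih.1⟩
    · exact ⟨by simp only; omega, fun _ => by simp only; omega⟩

/-- `z m = |h_{4m}| / |h_{4m+1}|` -/
def z (m : ℕ) : ℚ := (s m).1 / (s m).2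

theorem z_zero : z 0 = 0 := by simp [z, s]

theorem z_nonneg (m : ℕ) : 0 ≤ z m := by unfold z; positivity

theorem z_pos (m : ℕ) (hm : 0 < m) : 0 < z m := by
  have h := s_pos m
  have h1 := h.1
  have h2 := h.2 hm
  unfold z
  positivity

/-- the Möbius transformation of a matrix -/
def mob (M : M2) (q : ℚ) : ℚ := (M.a * q + M.b) / (M.c * q + M.d)

theorem mob_app (M : M2) (v : ℕ × ℕ) (hv : 0 < v.2) :
    ((M.app v).1 : ℚ) / (M.app v).2 = mob M ((v.1 : ℚ) / v.2) := by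
  have h : (v.2 : ℚ) ≠ 0 := by positivity
  unfold mob app
  push_cast
  by_cases h0 : ((M.c : ℚ) * v.1 + M.d * v.2) = 0
  · rw [h0, div_zero]
    have : (M.c : ℚ) * ((v.1 : ℚ) / v.2) + M.d = 0 := by
      field_simp
      linarith
    rw [this, div_zero]
  · have : (M.c : ℚ) * ((v.1 : ℚ) / v.2) + M.d ≠ 0 := by
      intro h1
      apply h0
      field_simp at h1
      linarith
    rw [div_eq_div_iff h0 this]
    field_simp

theorem mob_mono (M : M2) (hd : 0 < M.d) (hdet : 0 ≤ M.det) {p q : ℚ} (hp : 0 ≤ p) (hpq : p ≤ q) : mob M p ≤ mob M q := by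
  have hd' : (0 : ℚ) < M.d := by exact_mod_cast hd
  have h1 : (0 : ℚ) < M.c * p + M.d := by positivity
  have hq : 0 ≤ q := hp.trans hpq
  have h2 : (0 : ℚ) < M.c * q + M.d := by positivity
  unfold mob
  rw [div_le_div_iff₀ h1 h2]
  have h3 : (0 : ℚ) ≤ (M.a * M.d - M.b * M.c : ℚ) := by
    unfold det at hdet
    exact_mod_cast hdet
  nlinarith [mul_nonneg h3 (sub_nonneg.2 hpq)]

theorem mob_anti (M : M2) (hd : 0 < M.d) (hdet : M.det ≤ 0) {p q : ℚ} (hp : 0 ≤ p) (hpq : p ≤ q) : mob M q ≤ mob M p := by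
  have hd' : (0 : ℚ) < M.d := by exact_mod_cast hd
  have h1 : (0 : ℚ) < M.c * p + M.d := by positivity
  have hq : 0 ≤ q := hp.trans hpq
  have h2 : (0 : ℚ) < M.c * q + M.d := by positivity
  unfold mob
  rw [div_le_div_iff₀ h2 h1]
  have h3 : (M.a * M.d - M.b * M.c : ℚ) ≤ 0 := by
    unfold det at hdet
    exact_mod_cast hdet
  nlinarith [mul_nonneg (neg_nonneg.2 h3) (sub_nonneg.2 hpq)]

/-- the rows of `M` are increasing -/
def RowLe (M : M2) : Prop := M.a ≤ M.c ∧ M.b ≤ M.d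
def RowGe (M : M2) : Prop := M.c ≤ M.a ∧ M.d ≤ M.b

theorem mob_le_one (M : M2) (hd : 0 < M.d) (h : RowLe M) {p : ℚ} (hp : 0 ≤ p) : mob M p ≤ 1 := by
  have hd' : (0 : ℚ) < M.d := by exact_mod_cast hd
  have h1 : (0 : ℚ) < M.c * p + M.d := by positivity
  unfold mob
  rw [div_le_one h1]
  have h2 : (M.a : ℚ) ≤ M.c := by exact_mod_cast h.1
  have h3 : (M.b : ℚ) ≤ M.d := by exact_mod_cast h.2
  nlinarith

theorem one_le_mob (M : M2) (hd : 0 < M.d) (h : RowGe M) {p : ℚ} (hp : 0 ≤ p) : 1 ≤ mob M p := by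
  have hd' : (0 : ℚ) < M.d := by exact_mod_cast hd
  have h1 : (0 : ℚ) < M.c * p + M.d := by positivity
  unfold mob
  rw [one_le_div h1]
  have h2 : (M.c : ℚ) ≤ M.a := by exact_mod_cast h.1
  have h3 : (M.d : ℚ) ≤ M.b := by exact_mod_cast h.2
  nlinarith

theorem A_facts (j : ℕ) : 0 < (A j).1.d ∧ 0 < (A j).2.d ∧ (A j).1.det = -1 ∧ (A j).2.det = 1 ∧
    (Even j → RowLe (A j).1 ∧ RowGe (A j).2) ∧ (¬ Even j → RowGe (A j).1 ∧ RowLe (A j).2) := by
  induction j with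
  | zero => simp [A, NP, NM, det, RowLe, RowGe]
  | succ j ih =>
    obtain ⟨h1, h2, h3, h4, h5, h6⟩ := ih
    refine ⟨?_, ?_, ?_, ?_, ?_, ?_⟩
    · simp only [A, mul]
      positivity
    · simp only [A, mul]
      positivity
    · simp only [A]
      rw [det_mul, h3, h4]; norm_num
    · simp only [A]
      rw [det_mul, h3]; norm_num
    · intro hj
      have hj' : ¬ Even j := by
        intro h
        rw [Nat.even_add_one] at hj
        exact hj h
      obtain ⟨⟨a1, a2⟩, ⟨b1, b2⟩⟩ := h6 hj'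
      simp only [A]
      refine ⟨⟨?_, ?_⟩, ⟨?_, ?_⟩⟩ <;> simp only [mul] <;> gcongr
    · intro hj
      have hj' : Even j := by
        rw [Nat.even_add_one, not_not] at hj
        exact hj
      obtain ⟨⟨a1, a2⟩, ⟨b1, b2⟩⟩ := h5 hj'
      simp only [A]
      refine ⟨⟨?_, ?_⟩, ⟨?_, ?_⟩⟩ <;> simp only [mul] <;> gcongr

/-- `Z j n = z (2 ^ j n)` -/
def Z (j n : ℕ) : ℚ := z (2 ^ j * n)

theorem Z_zero (j : ℕ) : Z j 0 = 0 := by simp [Z, z_zero]

theorem Z_nonneg (j n : ℕ) : 0 ≤ Z j n := z_nonneg _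

theorem Z_succ (j n : ℕ) : Z j (n + 1) = mob (blk j (W n)) (Z j n) := by
  unfold Z z
  rw [block, mob_app _ _ (s_pos _).1]

theorem Z_plus (j n : ℕ) (h : W n = 1) : Z j (n + 1) = mob (A j).1 (Z j n) := by
  rw [Z_succ, blk, if_pos h]

theorem Z_minus (j n : ℕ) (h : W n = -1) : Z j (n + 1) = mob (A j).2 (Z j n) := by
  rw [Z_succ, blk, if_neg (by rw [h]; norm_num)]

theorem W0 : W 0 = 1 := W_even 0
theorem W1 : W 1 = -1 := by have := W_odd 0; rw [W0] at this; exact this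
theorem W2 : W 2 = 1 := W_even 1
theorem W3 : W 3 = 1 := by have := W_odd 1; rw [W1] at this; simpa using this
theorem W4 : W 4 = 1 := W_even 2
theorem W5 : W 5 = -1 := by have := W_odd 2; rw [W2] at this; simpa using this

/-- the maximum of `Z j n` is at `n = 2` (`j` even) or `n = 1` (`j` odd) -/
theorem Z_max (j : ℕ) : ∃ N, (if Even j then N = 2 else N = 1) ∧ ∀ n, Z j n ≤ Z j N := by
  obtain ⟨h1, h2, h3, h4, h5, h6⟩ := A_facts j
  by_cases hj : Even j
  · obtain ⟨h7, h8⟩ := h5 hj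
    refine ⟨2, by rw [if_pos hj], fun n => ?_⟩
    have e2 : Z j 2 = mob (A j).2 (Z j 1) := Z_minus j 1 W1
    have e1 : Z j 1 = mob (A j).1 (Z j 0) := Z_plus j 0 W0
    have hge : 1 ≤ Z j 2 := by rw [e2]; exact one_le_mob _ h2 h8 (Z_nonneg _ _)
    rcases n with _ | n
    · rw [Z_zero]; exact Z_nonneg _ _
    · rcases W_cases n with hW | hW
      · refine le_trans ?_ hge
        rw [Z_plus j n hW]
        exact mob_le_one _ h1 h7 (Z_nonneg _ _)
      · rcases n with _ | n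
        · rw [W0] at hW; norm_num at hW
        · have hn : W n = 1 := by
            rcases Nat.even_or_odd' (n + 1) with ⟨l, hl | hl⟩
            · rw [hl, W_even] at hW; norm_num at hW
            · rw [show n = 2 * l by omega, W_even]
          rw [Z_minus j (n + 1) hW, Z_plus j n hn, e2, e1]
          refine mob_mono _ h2 (by rw [h4]; norm_num) ?_ ?_
          · rw [← Z_plus j n hn]; exact Z_nonneg _ _
          · exact mob_anti _ h1 (by rw [h3]; norm_num) (Z_nonneg _ _) (by rw [Z_zero]; exact Z_nonneg _ _)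
  · obtain ⟨h7, h8⟩ := h6 hj
    refine ⟨1, by rw [if_neg hj], fun n => ?_⟩
    have e1 : Z j 1 = mob (A j).1 (Z j 0) := Z_plus j 0 W0
    have hge : 1 ≤ Z j 1 := by rw [e1]; exact one_le_mob _ h1 h7 (Z_nonneg _ _)
    rcases n with _ | n
    · rw [Z_zero]; exact Z_nonneg _ _
    · rcases W_cases n with hW | hW
      · rw [Z_plus j n hW, e1]
        exact mob_anti _ h1 (by rw [h3]; norm_num) (Z_nonneg _ _) (by rw [Z_zero]; exact Z_nonneg _ _)
      · refine le_trans ?_ hge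
        rw [Z_minus j n hW]
        exact mob_le_one _ h2 h8 (Z_nonneg _ _)

/-- for odd `j`: the minimum of `Z j n` over the `n` with `W n = -1` is at `n = 5` -/
theorem Z_five (j : ℕ) (hj : ¬ Even j) (n : ℕ) (hn : W n = -1) : Z j 5 ≤ Z j n := by
  obtain ⟨h1, h2, h3, h4, h5, h6⟩ := A_facts j
  obtain ⟨h7, h8⟩ := h6 hj
  have hd1 : (A j).1.det ≤ 0 := by rw [h3]; norm_num
  have hd2 : 0 ≤ (A j).2.det := by rw [h4]; norm_num
  have e5 : Z j 5 = mob (A j).1 (Z j 4) := Z_plus j 4 W4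
  have e4 : Z j 4 = mob (A j).1 (Z j 3) := Z_plus j 3 W3
  have e3 : Z j 3 = mob (A j).1 (Z j 2) := Z_plus j 2 W2
  have e2 : Z j 2 = mob (A j).2 (Z j 1) := Z_minus j 1 W1
  have e1 : Z j 1 = mob (A j).1 (Z j 0) := Z_plus j 0 W0
  -- `n` is odd
  obtain ⟨l, rfl⟩ : ∃ l, n = 2 * l + 1 := by
    rcases Nat.even_or_odd' n with ⟨l, rfl | rfl⟩
    · rw [W_even] at hn; norm_num at hn
    · exact ⟨l, rfl⟩
  rw [Z_plus j (2 * l) (W_even l), e5]
  refine mob_anti _ h1 hd1 (Z_nonneg _ _) ?_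
  have h4ge : 1 ≤ Z j 4 := by rw [e4]; exact one_le_mob _ h1 h7 (Z_nonneg _ _)
  rcases l with _ | l
  · rw [mul_zero, Z_zero]; exact Z_nonneg _ _
  · have hodd : 2 * (l + 1) = (2 * l + 1) + 1 := by ring
    rcases W_cases (2 * l + 1) with hW | hW
    · -- `l + 1` even
      have hWl : W l = -1 := by rw [W_odd] at hW; linarith
      obtain ⟨i, rfl⟩ : ∃ i, l = 2 * i + 1 := by
        rcases Nat.even_or_odd' l with ⟨i, rfl | rfl⟩
        · rw [W_even] at hWl; norm_num at hWl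
        · exact ⟨i, rfl⟩
      -- `n - 1 = 4 i + 4`
      have hWn : W (2 * (2 * i + 1 + 1) + 1) = -1 := hn
      have f4 : Z j (2 * (2 * i + 1 + 1)) = mob (A j).1 (Z j (4 * i + 3)) := by
        have := Z_plus j (2 * (2 * i + 1) + 1) hW
        rw [show 2 * (2 * i + 1) + 1 = 4 * i + 3 by ring] at this
        rw [show 2 * (2 * i + 1 + 1) = 4 * i + 3 + 1 by ring]
        exact this
      have f3 : Z j (4 * i + 3) = mob (A j).1 (Z j (4 * i + 2)) := by
        have := Z_plus j (4 * i + 2) (by rw [show 4 * i + 2 = 2 * (2 * i + 1) by ring]; exact W_even _)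
        exact this
      have f2 : Z j (4 * i + 2) = mob (A j).2 (Z j (4 * i + 1)) := by
        have := Z_minus j (4 * i + 1) (by rw [show 4 * i + 1 = 2 * (2 * i) + 1 by ring, W_odd, W_even])
        exact this
      have f1 : Z j (4 * i + 1) = mob (A j).1 (Z j (4 * i)) := by
        have := Z_plus j (4 * i) (by rw [show 4 * i = 2 * (2 * i) by ring]; exact W_even _)
        exact this
      have g1 : Z j (4 * i + 1) ≤ Z j 1 := by
        rw [f1, e1]
        exact mob_anti _ h1 hd1 (Z_nonneg _ _) (by rw [Z_zero]; exact Z_nonneg _ _)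
      have g2 : Z j (4 * i + 2) ≤ Z j 2 := by
        rw [f2, e2]
        exact mob_mono _ h2 hd2 (Z_nonneg _ _) g1
      have g3 : Z j 3 ≤ Z j (4 * i + 3) := by
        rw [f3, e3]
        exact mob_anti _ h1 hd1 (Z_nonneg _ _) g2
      rw [f4, e4]
      exact mob_anti _ h1 hd1 (Z_nonneg _ _) g3
    · refine le_trans ?_ h4ge
      rw [hodd, Z_minus j _ hW]
      exact mob_le_one _ h2 h8 (Z_nonneg _ _)

/-- the minimum of `Z j n`, `n ≥ 1` -/
theorem Z_min (j : ℕ) : ∃ N, (if Even j then N = 3 else N = 6) ∧ ∀ n, 1 ≤ n → Z j N ≤ Z j n := by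
  obtain ⟨h1, h2, h3, h4, h5, h6⟩ := A_facts j
  have hd1 : (A j).1.det ≤ 0 := by rw [h3]; norm_num
  have hd2 : 0 ≤ (A j).2.det := by rw [h4]; norm_num
  by_cases hj : Even j
  · obtain ⟨h7, h8⟩ := h5 hj
    obtain ⟨N, hN, hmax⟩ := Z_max j
    rw [if_pos hj] at hN
    subst hN
    refine ⟨3, by rw [if_pos hj], fun n hn => ?_⟩
    obtain ⟨n, rfl⟩ : ∃ l, n = l + 1 := ⟨n - 1, by omega⟩
    have e3 : Z j 3 = mob (A j).1 (Z j 2) := Z_plus j 2 W2
    rcases W_cases n with hW | hW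
    · rw [e3, Z_plus j n hW]
      exact mob_anti _ h1 hd1 (Z_nonneg _ _) (hmax n)
    · have g1 : Z j 3 ≤ 1 := by rw [e3]; exact mob_le_one _ h1 h7 (Z_nonneg _ _)
      refine g1.trans ?_
      rw [Z_minus j n hW]
      exact one_le_mob _ h2 h8 (Z_nonneg _ _)
  · obtain ⟨h7, h8⟩ := h6 hj
    refine ⟨6, by rw [if_neg hj], fun n hn => ?_⟩
    obtain ⟨n, rfl⟩ : ∃ l, n = l + 1 := ⟨n - 1, by omega⟩
    have e6 : Z j 6 = mob (A j).2 (Z j 5) := Z_minus j 5 W5
    rcases W_cases n with hW | hW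
    · have g1 : Z j 6 ≤ 1 := by rw [e6]; exact mob_le_one _ h2 h8 (Z_nonneg _ _)
      refine g1.trans ?_
      rw [Z_plus j n hW]
      exact one_le_mob _ h1 h7 (Z_nonneg _ _)
    · rw [e6, Z_minus j n hW]
      exact mob_mono _ h2 hd2 (Z_nonneg _ _) (Z_five j hj n hW)

/-! ### Prefixes -/

/-- the product of the first `c` matrices -/
def P : ℕ → M2
  | 0 => ⟨1, 0, 0, 1⟩
  | c + 1 => (if W c = 1 then NP else NM).mul (P c)

theorem W_prefix (j : ℕ) : ∀ n c, c + 1 < 2 ^ j → W (2 ^ j * n + c) = W c := by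
  induction j with
  | zero => intro n c hc; simp at hc
  | succ j ih =>
    intro n c hc
    rcases Nat.even_or_odd' c with ⟨c', rfl | rfl⟩
    · rw [show 2 ^ (j + 1) * n + 2 * c' = 2 * (2 ^ j * n + c') by rw [pow_succ]; ring, W_even, W_even]
    · rw [show 2 ^ (j + 1) * n + (2 * c' + 1) = 2 * (2 ^ j * n + c') + 1 by rw [pow_succ]; ring, W_odd, W_odd,
        ih n c' (by rw [pow_succ] at hc; omega)]

theorem P_spec (j n c : ℕ) (hc : c < 2 ^ j) : s (2 ^ j * n + c) = (P c).app (s (2 ^ j * n)) := by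
  induction c with
  | zero => simp [P, app]
  | succ c ih =>
    rw [← add_assoc, s_app, ih (by omega), W_prefix j n c hc, P, app_mul]

theorem P_facts (c : ℕ) : 0 < (P c).d ∧ ((P c).det = 1 ∨ (P c).det = -1) := by
  induction c with
  | zero => simp [P, det]
  | succ c ih =>
    obtain ⟨h1, h2⟩ := ih
    rw [P]
    constructor
    · split_ifs <;> simp only [mul, NP, NM] <;> omega
    · rw [det_mul]
      split_ifs <;> rcases h2 with h2 | h2 <;> rw [h2] <;> simp [NP, NM, det]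

theorem z_prefix (j n c : ℕ) (hc : c < 2 ^ j) : z (2 ^ j * n + c) = mob (P c) (Z j n) := by
  unfold z Z
  rw [P_spec j n c hc, mob_app _ _ (s_pos _).1]
  rfl

/-- the extreme values of `z m`, `m ≡ c` modulo `2 ^ j`, `m ≥ 1`, are attained -/
theorem extreme (j c : ℕ) (hc : c < 2 ^ j) :
    (∃ N, 1 ≤ 2 ^ j * N + c ∧ ∀ n, 1 ≤ 2 ^ j * n + c → z (2 ^ j * n + c) ≤ z (2 ^ j * N + c)) ∧
    (∃ N, 1 ≤ 2 ^ j * N + c ∧ ∀ n, 1 ≤ 2 ^ j * n + c → z (2 ^ j * N + c) ≤ z (2 ^ j * n + c)) := by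
  obtain ⟨N, hN, hmax⟩ := Z_max j
  have hN1 : 1 ≤ N := by split_ifs at hN <;> omega
  have h2j : 1 ≤ 2 ^ j := Nat.one_le_two_pow
  rcases Nat.eq_zero_or_pos c with rfl | hc0
  · obtain ⟨N', hN'', hmin⟩ := Z_min j
    have hN' : 1 ≤ N' := by split_ifs at hN'' <;> omega
    refine ⟨⟨N, ?_, fun n _ => ?_⟩, ⟨N', ?_, fun n hn => ?_⟩⟩
    · rw [add_zero]; exact Nat.mul_pos h2j hN1
    · rw [add_zero, add_zero]; exact hmax n
    · rw [add_zero]; exact Nat.mul_pos h2j hN'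
    · rw [add_zero] at hn ⊢
      rw [add_zero]
      refine hmin n ?_
      by_contra h
      have : n = 0 := by omega
      subst this
      simp at hn
  · obtain ⟨hd, hdet⟩ := P_facts c
    have hmin : ∀ n, Z j 0 ≤ Z j n := fun n => by rw [Z_zero]; exact Z_nonneg _ _
    rcases hdet with hdet | hdet
    · refine ⟨⟨N, by omega, fun n _ => ?_⟩, ⟨0, by omega, fun n _ => ?_⟩⟩
      · rw [z_prefix j n c hc, z_prefix j N c hc]
        exact mob_mono _ hd (by rw [hdet]; norm_num) (Z_nonneg _ _) (hmax n)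
      · rw [z_prefix j n c hc, z_prefix j 0 c hc]
        exact mob_mono _ hd (by rw [hdet]; norm_num) (Z_nonneg _ _) (hmin n)
    · refine ⟨⟨0, by omega, fun n _ => ?_⟩, ⟨N, by omega, fun n _ => ?_⟩⟩
      · rw [z_prefix j n c hc, z_prefix j 0 c hc]
        exact mob_anti _ hd (by rw [hdet]; norm_num) (Z_nonneg _ _) (hmin n)
      · rw [z_prefix j n c hc, z_prefix j N c hc]
        exact mob_anti _ hd (by rw [hdet]; norm_num) (Z_nonneg _ _) (hmax n)

theorem P_det (c : ℕ) : (P c).det = t c := by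
  induction c with
  | zero => simp [P, det, t_zero]
  | succ c ih =>
    rw [P, det_mul, ih]
    have h1 : (if W c = 1 then NP else NM).det = t (c + 1) * t c := by
      rcases W_cases c with hW | hW
      · rw [if_pos hW]
        unfold W at hW
        simp only [NP, det]
        push_cast
        linarith
      · rw [if_neg (by rw [hW]; norm_num)]
        unfold W at hW
        simp only [NM, det]
        push_cast
        linarith
    rw [h1]
    linear_combination t (c + 1) * t_sq c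

theorem t_pow (j : ℕ) : t (2 ^ j - 1) = (-1) ^ j := by
  induction j with
  | zero => simp [t_zero]
  | succ j ih =>
    have h1 : 1 ≤ 2 ^ j := Nat.one_le_two_pow
    rw [show 2 ^ (j + 1) - 1 = 2 * (2 ^ j - 1) + 1 by rw [pow_succ]; omega, t_odd, ih, pow_succ]
    ring

/-- the maximum of `z m` over the `m ≡ -1` modulo `2 ^ j` with `W m = 1` is attained -/
theorem extreme' (j : ℕ) : ∃ N, 1 ≤ 2 ^ j * N + (2 ^ j - 1) ∧ W (2 ^ j * N + (2 ^ j - 1)) = 1 ∧
    ∀ n, W (2 ^ j * n + (2 ^ j - 1)) = 1 → z (2 ^ j * n + (2 ^ j - 1)) ≤ z (2 ^ j * N + (2 ^ j - 1)) := by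
  have h2j : 1 ≤ 2 ^ j := Nat.one_le_two_pow
  have hW : ∀ n, W (2 ^ j * n + (2 ^ j - 1)) = (-1) ^ j * W n := by
    intro n
    have := W_pow j (n + 1) (by omega)
    rw [show 2 ^ j * n + (2 ^ j - 1) = 2 ^ j * (n + 1) - 1 by rw [mul_add]; omega, this, Nat.add_sub_cancel]
  have hdet := P_det (2 ^ j - 1)
  rw [t_pow] at hdet
  have hd := (P_facts (2 ^ j - 1)).1
  have hc : 2 ^ j - 1 < 2 ^ j := by omega
  by_cases hj : Even j
  · rw [hj.neg_one_pow] at hdet
    obtain ⟨N, hN, hmax⟩ := Z_max j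
    rw [if_pos hj] at hN
    subst hN
    refine ⟨2, by omega, by rw [hW, hj.neg_one_pow, W2]; norm_num, fun n _ => ?_⟩
    rw [z_prefix j n _ hc, z_prefix j 2 _ hc]
    exact mob_mono _ hd (by rw [hdet]; norm_num) (Z_nonneg _ _) (hmax n)
  · have hodd := Nat.not_even_iff_odd.1 hj
    rw [hodd.neg_one_pow] at hdet
    refine ⟨5, by omega, by rw [hW, hodd.neg_one_pow, W5]; norm_num, fun n hn => ?_⟩
    rw [z_prefix j n _ hc, z_prefix j 5 _ hc]
    refine mob_anti _ hd (by rw [hdet]; norm_num) (Z_nonneg _ _) (Z_five j hj n ?_)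
    rw [hW, hodd.neg_one_pow] at hn
    linarith

/-! ### The ratios -/

/-- `|h_n| / |h_{n-1}|` -/
def rho (n : ℕ) : ℚ := |(h n : ℚ)| / |(h (n - 1) : ℚ)|

theorem abs_q (n : ℕ) (v : ℕ) (hv : |h n| = v) : |(h n : ℚ)| = v := by
  have : ((|h n| : ℤ) : ℚ) = (v : ℚ) := by rw [hv]; norm_cast
  rw [← this]
  push_cast
  rfl

theorem rho1 (m : ℕ) : rho (4 * m + 1) = (z m)⁻¹ := by
  unfold rho z
  rw [abs_q _ _ (abs_h1 m), show 4 * m + 1 - 1 = 4 * m by omega, abs_q _ _ (abs_h0 m), inv_div]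

theorem rho2 (m : ℕ) : rho (4 * m + 2) = 1 + z m := by
  unfold rho z
  have h1 : |h (4 * m + 2)| = ((s m).1 + (s m).2 : ℕ) := by rw [abs_h2]; push_cast; rfl
  rw [abs_q _ _ h1, show 4 * m + 2 - 1 = 4 * m + 1 by omega, abs_q _ _ (abs_h1 m)]
  have h2 := (s_pos m).1
  have h3 : ((s m).2 : ℚ) ≠ 0 := by positivity
  push_cast
  field_simp
  ring

theorem rho3 (m : ℕ) : rho (4 * m + 3) = z m / (1 + z m) := by
  unfold rho z
  have h1 : |h (4 * m + 2)| = ((s m).1 + (s m).2 : ℕ) := by rw [abs_h2]; push_cast; rfl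
  rw [abs_q _ _ (abs_h3 m), show 4 * m + 3 - 1 = 4 * m + 2 by omega, abs_q _ _ h1]
  have h2 := (s_pos m).1
  have h3 : ((s m).2 : ℚ) ≠ 0 := by positivity
  push_cast
  field_simp
  rw [add_comm]

theorem rho4 (m : ℕ) (hm : 1 ≤ m) : rho (4 * m + 4) = if W m = 1 then (z m)⁻¹ else 2 + (z m)⁻¹ := by
  unfold rho
  rw [show 4 * m + 4 = 4 * (m + 1) by ring, abs_q _ _ (abs_h0 (m + 1)), show 4 * (m + 1) - 1 = 4 * m + 3 by omega,
    abs_q _ _ (abs_h3 m)]
  unfold z
  have h2 := (s_pos m).2 hm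
  have h3 : ((s m).1 : ℚ) ≠ 0 := by positivity
  rw [s]
  split_ifs
  · rw [inv_div]
  · rw [inv_div]
    push_cast
    field_simp

theorem s1 : s 1 = (1, 1) := by rw [s, if_pos W0]; rfl
theorem s2 : s 2 = (3, 2) := by rw [s, if_neg (by rw [W1]; norm_num), s1]; rfl
theorem s3 : s 3 = (2, 5) := by rw [s, if_pos W2, s2]; rfl

theorem z_le (m : ℕ) : z m ≤ 3 / 2 := by
  obtain ⟨N, hN, hmax⟩ := Z_max 0
  rw [if_pos (by decide)] at hN
  subst hN
  have := hmax m
  unfold Z at this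
  rw [pow_zero, one_mul, one_mul] at this
  refine this.trans (le_of_eq ?_)
  unfold z
  rw [s2]
  norm_num

theorem le_z (m : ℕ) (hm : 1 ≤ m) : 2 / 5 ≤ z m := by
  obtain ⟨N, hN, hmin⟩ := Z_min 0
  rw [if_pos (by decide)] at hN
  subst hN
  have := hmin m hm
  unfold Z at this
  rw [pow_zero, one_mul, one_mul] at this
  refine le_trans (le_of_eq ?_) this
  unfold z
  rw [s3]
  norm_num

theorem inv_anti {p q : ℚ} (hp : 0 < p) (hpq : p ≤ q) : q⁻¹ ≤ p⁻¹ := inv_anti₀ hp hpq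

/-- `2 / 7 ≤ ρ n` for `n ≥ 5` -/
theorem rho_ge (n : ℕ) (hn : 5 ≤ n) : 2 / 7 ≤ rho n := by
  obtain ⟨m, r, hm, hr, rfl⟩ : ∃ m r, 1 ≤ m ∧ r < 4 ∧ n = 4 * m + r + 1 :=
    ⟨(n - 1) / 4, (n - 1) % 4, by omega, Nat.mod_lt _ (by norm_num), by omega⟩
  have h1 := le_z m hm
  have h2 := z_le m
  have h3 : (2 : ℚ) / 3 ≤ (z m)⁻¹ := by
    have := inv_anti (z_pos m hm) h2
    norm_num at this
    exact this
  interval_cases r
  · rw [add_zero, rho1]; linarith
  · rw [show 4 * m + 1 + 1 = 4 * m + 2 by ring, rho2]; linarith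
  · rw [show 4 * m + 2 + 1 = 4 * m + 3 by ring, rho3, div_le_div_iff₀ (by norm_num) (by linarith)]; linarith
  · rw [show 4 * m + 3 + 1 = 4 * m + 4 by ring, rho4 m hm]
    split_ifs <;> linarith

theorem h_ne_zero (n : ℕ) (hn : 4 ≤ n) : h n ≠ 0 := by
  obtain ⟨m, r, hm, hr, rfl⟩ : ∃ m r, 1 ≤ m ∧ r < 4 ∧ n = 4 * m + r :=
    ⟨n / 4, n % 4, by omega, Nat.mod_lt _ (by norm_num), by omega⟩
  have h1 := s_pos m
  have h2 := h1.2 hm
  rw [← abs_pos]
  interval_cases r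
  · rw [add_zero, abs_h0]; exact_mod_cast h2
  · rw [abs_h1]; exact_mod_cast h1.1
  · rw [abs_h2]; positivity
  · rw [abs_h3]; exact_mod_cast h2

/-- Q1 -/
theorem two_sevenths (n : ℕ) (hn : 4 ≤ n) : (2 / 7 : ℚ) * |(h (n - 1) : ℚ)| ≤ |(h n : ℚ)| := by
  rcases Nat.lt_or_ge 4 n with h1 | h1
  · have h2 := rho_ge n h1
    unfold rho at h2
    have h3 : h (n - 1) ≠ 0 := h_ne_zero _ (by omega)
    have h4 : (0 : ℚ) < |(h (n - 1) : ℚ)| := by
      rw [abs_pos]; exact_mod_cast h3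
    rwa [le_div_iff₀ h4] at h2
  · obtain rfl : n = 4 := by omega
    have : |h 3| = ((s 0).1 : ℤ) := abs_h3 0
    have h5 : h 3 = 0 := by
      rw [← abs_eq_zero, this]; rfl
    simp [h5]

/-- the minima of the ratios in residue classes are attained -/
theorem attained (k : ℕ) (hk : 1 ≤ k) (i : ℕ) (hi : i < 2 ^ k) :
    ∃ N, 4 ≤ 2 ^ k * N + i ∧ ∀ n, 4 ≤ 2 ^ k * n + i → rho (2 ^ k * N + i + 1) ≤ rho (2 ^ k * n + i + 1) := by
  rcases Nat.lt_or_ge k 2 with hk2 | hk2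
  · obtain rfl : k = 1 := by omega
    rw [pow_one] at hi ⊢
    have hi' : i = 0 ∨ i = 1 := by omega
    rcases hi' with rfl | rfl
    · refine ⟨7, by norm_num, fun n hn => ?_⟩
      have : rho (2 * 7 + 0 + 1) = 2 / 7 := by
        have := rho3 3
        rw [show 2 * 7 + 0 + 1 = 4 * 3 + 3 by norm_num, this]
        unfold z
        rw [s3]
        norm_num
      rw [this]
      exact rho_ge _ (by omega)
    · refine ⟨5, by norm_num, fun n hn => ?_⟩
      have : rho (2 * 5 + 1 + 1) = 2 / 3 := by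
        have := rho4 2 (by norm_num)
        rw [show 2 * 5 + 1 + 1 = 4 * 2 + 4 by norm_num, this, if_pos W2]
        unfold z
        rw [s2]
        norm_num
      rw [this]
      rcases Nat.even_or_odd' n with ⟨m, rfl | rfl⟩
      · rw [show 2 * (2 * m) + 1 + 1 = 4 * m + 2 by ring, rho2]
        have := z_nonneg m
        linarith
      · have hm : 1 ≤ m := by omega
        rw [show 2 * (2 * m + 1) + 1 + 1 = 4 * m + 4 by ring, rho4 m hm]
        have h3 : (2 : ℚ) / 3 ≤ (z m)⁻¹ := by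
          have := inv_anti (z_pos m hm) (z_le m)
          norm_num at this
          exact this
        split_ifs <;> linarith
  · obtain ⟨j, rfl⟩ : ∃ j, k = j + 2 := ⟨k - 2, by omega⟩
    obtain ⟨c, r, hc, hr, rfl⟩ : ∃ c r, c < 2 ^ j ∧ r < 4 ∧ i = 4 * c + r :=
      ⟨i / 4, i % 4, by rw [pow_add] at hi; omega, Nat.mod_lt _ (by norm_num), by omega⟩
    have hidx : ∀ n, 2 ^ (j + 2) * n + (4 * c + r) = 4 * (2 ^ j * n + c) + r := fun n => by rw [pow_add]; ring
    have hcond : ∀ n, 4 ≤ 4 * (2 ^ j * n + c) + r ↔ 1 ≤ 2 ^ j * n + c := fun n => by omega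
    simp only [hidx, hcond]
    obtain ⟨⟨N, hN, hmax⟩, ⟨N', hN', hmin⟩⟩ := extreme j c hc
    interval_cases r
    · refine ⟨N, hN, fun n hn => ?_⟩
      rw [add_zero, add_zero, rho1, rho1]
      exact inv_anti (z_pos _ hn) (hmax n hn)
    · refine ⟨N', hN', fun n hn => ?_⟩
      rw [show 4 * (2 ^ j * N' + c) + 1 + 1 = 4 * (2 ^ j * N' + c) + 2 by ring,
        show 4 * (2 ^ j * n + c) + 1 + 1 = 4 * (2 ^ j * n + c) + 2 by ring, rho2, rho2]
      linarith [hmin n hn]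
    · refine ⟨N', hN', fun n hn => ?_⟩
      rw [show 4 * (2 ^ j * N' + c) + 2 + 1 = 4 * (2 ^ j * N' + c) + 3 by ring,
        show 4 * (2 ^ j * n + c) + 2 + 1 = 4 * (2 ^ j * n + c) + 3 by ring, rho3, rho3]
      have h1 := z_pos _ hn
      have h2 := z_pos _ hN'
      rw [div_le_div_iff₀ (by linarith) (by linarith)]
      nlinarith [hmin n hn]
    · rcases Nat.lt_or_ge (c + 1) (2 ^ j) with hc1 | hc1
      · refine ⟨N, hN, fun n hn => ?_⟩
        rw [show 4 * (2 ^ j * N + c) + 3 + 1 = 4 * (2 ^ j * N + c) + 4 by ring,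
          show 4 * (2 ^ j * n + c) + 3 + 1 = 4 * (2 ^ j * n + c) + 4 by ring, rho4 _ hN, rho4 _ hn,
          W_prefix j N c hc1, W_prefix j n c hc1]
        have := inv_anti (z_pos _ hn) (hmax n hn)
        split_ifs <;> linarith
      · obtain rfl : c = 2 ^ j - 1 := by omega
        obtain ⟨N, hN, hWN, hmax'⟩ := extreme' j
        refine ⟨N, hN, fun n hn => ?_⟩
        rw [show 4 * (2 ^ j * N + (2 ^ j - 1)) + 3 + 1 = 4 * (2 ^ j * N + (2 ^ j - 1)) + 4 by ring,
          show 4 * (2 ^ j * n + (2 ^ j - 1)) + 3 + 1 = 4 * (2 ^ j * n + (2 ^ j - 1)) + 4 by ring, rho4 _ hN, rho4 _ hn,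
          if_pos hWN]
        split_ifs with hWn
        · exact inv_anti (z_pos _ hn) (hmax' n hWn)
        · have h1 : (z (2 ^ j * N + (2 ^ j - 1)))⁻¹ ≤ 5 / 2 := by
            have := inv_anti (by norm_num) (le_z _ hN)
            norm_num at this
            exact this
          have h3 : (2 : ℚ) / 3 ≤ (z (2 ^ j * n + (2 ^ j - 1)))⁻¹ := by
            have := inv_anti (z_pos _ hn) (z_le (2 ^ j * n + (2 ^ j - 1)))
            norm_num at this
            exact this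
          linarith

/-- the minimum in the class of `1` modulo `2 ^ k`, `k ≥ 2` -/
theorem class_zero (j : ℕ) : ∃ N, (if Even j then N = 2 else N = 1) ∧
    ∀ n, 4 ≤ 2 ^ (j + 2) * n + 0 → rho (2 ^ (j + 2) * N + 0 + 1) ≤ rho (2 ^ (j + 2) * n + 0 + 1) := by
  obtain ⟨N, hN, hmax⟩ := Z_max j
  refine ⟨N, hN, fun n hn => ?_⟩
  have hidx : ∀ n, 2 ^ (j + 2) * n + 0 + 1 = 4 * (2 ^ j * n) + 1 := fun n => by rw [pow_add]; ring
  have hn' : 0 < 2 ^ j * n := by
    rcases Nat.eq_zero_or_pos n with rfl | h0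
    · simp at hn
    · positivity
  rw [hidx, hidx, rho1, rho1]
  exact inv_anti (z_pos _ hn') (hmax n)

theorem rho_class (j : ℕ) (N : ℕ) : rho (2 ^ (j + 2) * N + 0 + 1) = (z (2 ^ j * N))⁻¹ := by
  rw [show 2 ^ (j + 2) * N + 0 + 1 = 4 * (2 ^ j * N) + 1 by rw [pow_add]; ring, rho1]

theorem s_pow (j : ℕ) : s (2 ^ j) = (A j).1.app (0, 1) := by
  have := block j 0
  rw [zero_add, mul_one, mul_zero, W0] at this
  rw [this]
  simp [blk, s]

/-- the refinement with minima -/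
theorem refinement : ∃ C : ℕ → ℕ → ℚ,
    (∀ k, 1 ≤ k → ∀ i, i < 2 ^ k → IsLeast {q : ℚ | ∃ n : ℕ, 4 ≤ 2 ^ k * n + i ∧ q = rho (2 ^ k * n + i + 1)} (C k i)) ∧
    (∀ k, 1 ≤ k → C (2 * k) 0 = C (2 * k + 1) 0) ∧ C 1 0 = 2 / 7 ∧ C 2 0 = 2 / 3 ∧ C 4 0 = 64 / 83 ∧
    C 6 0 = 52071130 / 67519091 := by
  choose! N hN1 hN2 using attained
  refine ⟨fun k i => rho (2 ^ k * N k i + i + 1), ?_, ?_, ?_, ?_, ?_, ?_⟩
  · intro k hk i hi
    refine ⟨⟨N k i, hN1 k hk i hi, rfl⟩, ?_⟩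
    rintro _ ⟨n, hn, rfl⟩
    exact hN2 k hk i hi n hn
  all_goals
    have hval : ∀ j : ℕ, ∀ M, (if Even j then M = 2 else M = 1) →
        rho (2 ^ (j + 2) * N (j + 2) 0 + 0 + 1) = (z (2 ^ j * M))⁻¹ := by
      intro j M hM
      obtain ⟨M', hM', hmin⟩ := class_zero j
      have hMM : M' = M := by split_ifs at hM hM' <;> omega
      subst hMM
      have hM1 : 1 ≤ M' := by split_ifs at hM <;> omega
      have h2j : 1 ≤ 2 ^ j := Nat.one_le_two_pow
      have h2k : 0 < 2 ^ (j + 2) := by positivity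
      rw [← rho_class]
      apply le_antisymm
      · refine hN2 (j + 2) (by omega) 0 h2k M' ?_
        rw [pow_add]
        nlinarith
      · exact hmin _ (hN1 (j + 2) (by omega) 0 h2k)
  · intro k hk
    obtain ⟨l, rfl⟩ : ∃ l, k = l + 1 := ⟨k - 1, by omega⟩
    have e1 := hval (2 * l) 2 (by rw [if_pos (even_two_mul l)])
    have e2 := hval (2 * l + 1) 1 (by rw [if_neg]; rw [Nat.not_even_iff_odd]; exact ⟨l, rfl⟩)
    rw [show 2 * (l + 1) = 2 * l + 2 by ring, show 2 * l + 2 + 1 = 2 * l + 1 + 2 by ring]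
    change rho (2 ^ (2 * l + 2) * N (2 * l + 2) 0 + 0 + 1) = rho (2 ^ (2 * l + 1 + 2) * N (2 * l + 1 + 2) 0 + 0 + 1)
    rw [e1, e2, pow_succ, mul_one]
  · have h2 : (0 : ℕ) < 2 ^ 1 := by norm_num
    apply le_antisymm
    · have := hN2 1 le_rfl 0 h2 7 (by norm_num)
      refine this.trans (le_of_eq ?_)
      have := rho3 3
      rw [show 2 ^ 1 * 7 + 0 + 1 = 4 * 3 + 3 by norm_num, this]
      unfold z
      rw [s3]
      norm_num
    · refine rho_ge _ ?_
      have := hN1 1 le_rfl 0 h2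
      omega
  · have := hval 0 2 (by rw [if_pos (by decide)])
    rw [show (0 : ℕ) + 2 = 2 by norm_num] at this
    change rho (2 ^ 2 * N 2 0 + 0 + 1) = 2 / 3
    rw [this]
    unfold z
    rw [show 2 ^ 0 * 2 = 2 by norm_num, s2]
    norm_num
  · have := hval 2 2 (by rw [if_pos (by decide)])
    rw [show (2 : ℕ) + 2 = 4 by norm_num] at this
    change rho (2 ^ 4 * N 4 0 + 0 + 1) = 64 / 83
    rw [this]
    unfold z
    rw [show 2 ^ 2 * 2 = 2 ^ 3 by norm_num, s_pow]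
    norm_num [A, NP, NM, mul, app]
  · have := hval 4 2 (by rw [if_pos (by decide)])
    rw [show (4 : ℕ) + 2 = 6 by norm_num] at this
    change rho (2 ^ 6 * N 6 0 + 0 + 1) = 52071130 / 67519091
    rw [this]
    unfold z
    rw [show 2 ^ 4 * 2 = 2 ^ 5 by norm_num, s_pow]
    norm_num [A, NP, NM, mul, app]

end Q264.TMFib
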