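import Mathlib
import Pool.Agent.Q264.TMRatio

/-!
# Exponential growth rate of the Thue-Morse-twisted Fibonacci sequence
-/

set_option autoImplicit false

namespace Q264.TMFib

open M2 Filter Topology

namespace M2

/-- the row sums -/
def r1 (X : M2) : ℕ := X.a + X.b
def r2 (X : M2) : ℕ := X.c + X.d

end M2

/-- a cone of vectors with comparable entries -/
def Cone (v : ℕ × ℕ) : Prop := v.2 ≤ 3 * v.1 ∧ 3 * v.1 ≤ 5 * v.2

/-- matrices preserving the cone -/
def CP (X : M2) : Prop := ∀ v, Cone v → Cone (X.app v)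

theorem CP_NP : CP NP := by
  rintro ⟨x, y⟩ ⟨h1, h2⟩
  simp only [Cone, NP, app] at *
  omega

theorem CP_NM : CP NM := by
  rintro ⟨x, y⟩ ⟨h1, h2⟩
  simp only [Cone, NM, app] at *
  omega

theorem CP_mul {X Y : M2} (hX : CP X) (hY : CP Y) : CP (X.mul Y) := by
  intro v hv
  rw [app_mul]
  exact hX _ (hY _ hv)

theorem CP_A (k : ℕ) : CP (A k).1 ∧ CP (A k).2 := by
  induction k with
  | zero => exact ⟨CP_NP, CP_NM⟩
  | succ k ih => exact ⟨CP_mul ih.2 ih.1, CP_mul ih.1 ih.1⟩

theorem sum_mul (X Y : M2) : (X.mul Y).sum = X.c1 * Y.r1 + X.c2 * Y.r2 := by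
  simp only [mul, M2.sum, c1, c2, r1, r2]
  ring

theorem sum_mul_le (X Y : M2) : (X.mul Y).sum ≤ X.sum * Y.sum := by
  rw [sum_mul]
  simp only [M2.sum, c1, c2, r1, r2]
  nlinarith [Nat.zero_le (X.a * Y.c), Nat.zero_le (X.a * Y.d), Nat.zero_le (X.c * Y.c), Nat.zero_le (X.c * Y.d),
    Nat.zero_le (X.b * Y.a), Nat.zero_le (X.b * Y.b), Nat.zero_le (X.d * Y.a), Nat.zero_le (X.d * Y.b)]

theorem le_sum_mul (X : M2) {Y : M2} (hY : CP Y) : X.sum * Y.sum ≤ 4 * (X.mul Y).sum := by
  have h := hY (1, 1) (by constructor <;> norm_num)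
  simp only [Cone, app, mul_one] at h
  obtain ⟨h1, h2⟩ := h
  rw [sum_mul]
  have e1 : Y.sum ≤ 4 * Y.r1 := by simp only [M2.sum, r1]; omega
  have e2 : Y.sum ≤ 4 * Y.r2 := by simp only [M2.sum, r2]; omega
  have e3 : X.sum = X.c1 + X.c2 := by simp only [M2.sum, c1, c2]; ring
  rw [e3]
  nlinarith [Nat.mul_le_mul_left X.c1 e1, Nat.mul_le_mul_left X.c2 e2]

/-- the sums of the entries of the block matrices -/
def aa (k : ℕ) : ℕ := (A k).1.sum
def bb (k : ℕ) : ℕ := (A k).2.sum

theorem aa_succ_le (k : ℕ) : aa (k + 1) ≤ bb k * aa k := sum_mul_le _ _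
theorem bb_succ_le (k : ℕ) : bb (k + 1) ≤ aa k * aa k := sum_mul_le _ _
theorem le_aa_succ (k : ℕ) : bb k * aa k ≤ 4 * aa (k + 1) := le_sum_mul _ (CP_A k).1
theorem le_bb_succ (k : ℕ) : aa k * aa k ≤ 4 * bb (k + 1) := le_sum_mul _ (CP_A k).1

theorem c_mul (X Y : M2) : (X.mul Y).c1 = X.c1 * Y.a + X.c2 * Y.c ∧ (X.mul Y).c2 = X.c1 * Y.b + X.c2 * Y.d := by
  simp only [mul, c1, c2]
  constructor <;> ring

theorem two_le_c (k : ℕ) : (2 ≤ (A (k + 1)).1.c1 ∧ 2 ≤ (A (k + 1)).1.c2) ∧ 2 ≤ (A (k + 1)).2.c1 ∧ 2 ≤ (A (k + 1)).2.c2 := by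
  induction k with
  | zero => simp [A, NP, NM, mul, c1, c2]
  | succ k ih =>
    obtain ⟨⟨h1, h2⟩, h3, h4⟩ := ih
    have h5 : 1 ≤ (A (k + 1)).1.c1 := by omega
    have h6 : 1 ≤ (A (k + 1)).1.c2 := by omega
    rw [show A (k + 1 + 1) = ((A (k + 1)).2.mul (A (k + 1)).1, (A (k + 1)).1.mul (A (k + 1)).1) from rfl]
    generalize (A (k + 1)).1 = X at *
    generalize (A (k + 1)).2 = Y at *
    simp only
    rw [(c_mul Y X).1, (c_mul Y X).2, (c_mul X X).1, (c_mul X X).2]
    simp only [c1, c2] at h5 h6 ⊢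
    simp only [c1, c2] at h1 h2 h3 h4
    refine ⟨⟨?_, ?_⟩, ?_, ?_⟩ <;> nlinarith

theorem r_sum (X : M2) : X.r1 + X.r2 = X.sum := by
  simp only [r1, r2, M2.sum]
  ring

theorem pow_le_ab (k : ℕ) : 2 ^ k ≤ aa k ∧ 2 ^ k ≤ bb k := by
  induction k with
  | zero => simp [aa, bb, A, NP, NM, M2.sum]
  | succ k ih =>
    obtain ⟨h1, h2⟩ := ih
    rcases k with _ | k
    · simp [aa, bb, A, NP, NM, M2.sum, mul]
    · obtain ⟨⟨g1, g2⟩, g3, g4⟩ := two_le_c k
      have e1 : aa (k + 1 + 1) = (A (k + 1)).2.c1 * (A (k + 1)).1.r1 + (A (k + 1)).2.c2 * (A (k + 1)).1.r2 := sum_mul _ _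
      have e2 : bb (k + 1 + 1) = (A (k + 1)).1.c1 * (A (k + 1)).1.r1 + (A (k + 1)).1.c2 * (A (k + 1)).1.r2 := sum_mul _ _
      have e3 := r_sum (A (k + 1)).1
      have e4 : (A (k + 1)).1.sum = aa (k + 1) := rfl
      rw [e4] at e3
      rw [e1, e2, pow_succ]
      constructor
      · nlinarith
      · nlinarith

theorem det_A (k : ℕ) : |(A k).1.det| = 1 ∧ |(A k).2.det| = 1 := by
  induction k with
  | zero => simp [A, NP, NM, det]
  | succ k ih =>
    rw [show A (k + 1) = ((A k).2.mul (A k).1, (A k).1.mul (A k).1) from rfl]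
    simp only
    rw [det_mul, det_mul, abs_mul, abs_mul, ih.1, ih.2]
    simp

theorem cdet (k : ℕ) : |((A k).2.c1 : ℤ) * (A k).1.c2 - (A k).1.c1 * (A k).2.c2| = 4 := by
  induction k with
  | zero => simp [A, NP, NM, c1, c2]
  | succ k ih =>
    have hd := (det_A k).1
    rw [show A (k + 1) = ((A k).2.mul (A k).1, (A k).1.mul (A k).1) from rfl]
    generalize (A k).1 = X at *
    generalize (A k).2 = Y at *
    simp only
    rw [(c_mul Y X).1, (c_mul Y X).2, (c_mul X X).1, (c_mul X X).2]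
    have : (((X.c1 * X.a + X.c2 * X.c : ℕ) : ℤ) * ((Y.c1 * X.b + Y.c2 * X.d : ℕ) : ℤ) -
        ((Y.c1 * X.a + Y.c2 * X.c : ℕ) : ℤ) * ((X.c1 * X.b + X.c2 * X.d : ℕ) : ℤ)) =
        -(((Y.c1 : ℤ) * X.c2 - X.c1 * Y.c2) * X.det) := by
      unfold det
      push_cast
      ring
    rw [this, abs_neg, abs_mul, hd, ih, mul_one]

theorem cross (k : ℕ) : |((aa (k + 1) : ℤ) * aa k - bb (k + 1) * bb k)| ≤ 4 * aa k := by
  have hc := cdet k
  have e1 : aa (k + 1) = (A k).2.c1 * (A k).1.r1 + (A k).2.c2 * (A k).1.r2 := sum_mul _ _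
  have e2 : bb (k + 1) = (A k).1.c1 * (A k).1.r1 + (A k).1.c2 * (A k).1.r2 := sum_mul _ _
  have e3 : aa k = (A k).1.c1 + (A k).1.c2 := by simp only [aa, M2.sum, c1, c2]; ring
  have e4 : bb k = (A k).2.c1 + (A k).2.c2 := by simp only [bb, M2.sum, c1, c2]; ring
  have e5 : aa k = (A k).1.r1 + (A k).1.r2 := (r_sum _).symm
  have : ((aa (k + 1) : ℤ) * aa k - bb (k + 1) * bb k) =
      (((A k).2.c1 : ℤ) * (A k).1.c2 - (A k).1.c1 * (A k).2.c2) * ((A k).1.r1 - (A k).1.r2) := by
    rw [e1, e2, e3, e4]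
    push_cast
    ring
  rw [this, abs_mul, hc, e5]
  push_cast
  have h1 : |(((A k).1.r1 : ℤ) - (A k).1.r2)| ≤ (A k).1.r1 + (A k).1.r2 := by
    rw [abs_le]
    constructor <;> omega
  linarith

/-! ### Logarithms -/

noncomputable def al (k : ℕ) : ℝ := Real.log (aa k)
noncomputable def be (k : ℕ) : ℝ := Real.log (bb k)

theorem aa_pos (k : ℕ) : 0 < aa k := lt_of_lt_of_le (by positivity) (pow_le_ab k).1
theorem bb_pos (k : ℕ) : 0 < bb k := lt_of_lt_of_le (by positivity) (pow_le_ab k).2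

theorem al_succ_le (k : ℕ) : al (k + 1) ≤ be k + al k := by
  have h1 : (0 : ℝ) < aa (k + 1) := by exact_mod_cast aa_pos _
  have h2 : (0 : ℝ) < aa k := by exact_mod_cast aa_pos _
  have h3 : (0 : ℝ) < bb k := by exact_mod_cast bb_pos _
  unfold al be
  rw [← Real.log_mul h3.ne' h2.ne']
  exact Real.log_le_log h1 (by exact_mod_cast aa_succ_le k)

theorem be_succ_le (k : ℕ) : be (k + 1) ≤ 2 * al k := by
  have h1 : (0 : ℝ) < bb (k + 1) := by exact_mod_cast bb_pos _
  have h2 : (0 : ℝ) < aa k := by exact_mod_cast aa_pos _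
  unfold al be
  rw [two_mul, ← Real.log_mul h2.ne' h2.ne']
  exact Real.log_le_log h1 (by exact_mod_cast bb_succ_le k)

theorem le_al_succ (k : ℕ) : be k + al k ≤ Real.log 4 + al (k + 1) := by
  have h1 : (0 : ℝ) < aa (k + 1) := by exact_mod_cast aa_pos _
  have h2 : (0 : ℝ) < aa k := by exact_mod_cast aa_pos _
  have h3 : (0 : ℝ) < bb k := by exact_mod_cast bb_pos _
  unfold al be
  rw [← Real.log_mul h3.ne' h2.ne', ← Real.log_mul (by norm_num) h1.ne']
  exact Real.log_le_log (by positivity) (by exact_mod_cast le_aa_succ k)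

theorem le_be_succ (k : ℕ) : 2 * al k ≤ Real.log 4 + be (k + 1) := by
  have h1 : (0 : ℝ) < bb (k + 1) := by exact_mod_cast bb_pos _
  have h2 : (0 : ℝ) < aa k := by exact_mod_cast aa_pos _
  unfold al be
  rw [two_mul, ← Real.log_mul h2.ne' h2.ne', ← Real.log_mul (by norm_num) h1.ne']
  exact Real.log_le_log (by positivity) (by exact_mod_cast le_bb_succ k)

theorem log_four_le : Real.log 4 ≤ 7 / 5 := by
  have h := Real.log_two_lt_d9
  rw [show (4 : ℝ) = 2 ^ 2 by norm_num, Real.log_pow]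
  push_cast
  linarith

theorem D_step (k : ℕ) : |(al (k + 1) - be (k + 1)) + (al k - be k)| ≤ 16 / 4 ^ k := by
  have hc := cross k
  rw [abs_le] at hc
  obtain ⟨hc1, hc2⟩ := hc
  have hc1' : -(4 * (aa k : ℝ)) ≤ (aa (k + 1) : ℝ) * aa k - bb (k + 1) * bb k := by exact_mod_cast hc1
  have hc2' : (aa (k + 1) : ℝ) * aa k - bb (k + 1) * bb k ≤ 4 * (aa k : ℝ) := by exact_mod_cast hc2
  have h1 : (0 : ℝ) < aa (k + 1) := by exact_mod_cast aa_pos _
  have h2 : (0 : ℝ) < aa k := by exact_mod_cast aa_pos _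
  have h3 : (0 : ℝ) < bb k := by exact_mod_cast bb_pos _
  have h4 : (0 : ℝ) < bb (k + 1) := by exact_mod_cast bb_pos _
  have g1 : (bb k : ℝ) * aa k ≤ 4 * aa (k + 1) := by exact_mod_cast le_aa_succ k
  have g2 : (aa k : ℝ) * aa k ≤ 4 * bb (k + 1) := by exact_mod_cast le_bb_succ k
  have p1 : (2 : ℝ) ^ k ≤ aa k := by exact_mod_cast (pow_le_ab k).1
  have p2 : (2 : ℝ) ^ k ≤ bb k := by exact_mod_cast (pow_le_ab k).2
  have p3 : (4 : ℝ) ^ k ≤ bb k * aa k := by
    calc (4 : ℝ) ^ k = 2 ^ k * 2 ^ k := by rw [← mul_pow]; norm_num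
      _ ≤ bb k * aa k := mul_le_mul p2 p1 (by positivity) h3.le
  have e : (al (k + 1) - be (k + 1)) + (al k - be k) =
      Real.log ((aa (k + 1) : ℝ) * aa k / (bb (k + 1) * bb k)) := by
    unfold al be
    rw [Real.log_div (by positivity) (by positivity), Real.log_mul (by positivity) (by positivity),
      Real.log_mul (by positivity) (by positivity)]
    ring
  have h4k : (0 : ℝ) < 4 ^ k := by positivity
  rw [e, abs_le]
  constructor
  · -- the quotient is bounded below
    have e2 : Real.log ((aa (k + 1) : ℝ) * aa k / (bb (k + 1) * bb k)) =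
        -Real.log ((bb (k + 1) : ℝ) * bb k / (aa (k + 1) * aa k)) := by
      rw [← Real.log_inv, inv_div]
    rw [e2]
    have e3 : Real.log ((bb (k + 1) : ℝ) * bb k / (aa (k + 1) * aa k)) ≤
        (bb (k + 1) : ℝ) * bb k / (aa (k + 1) * aa k) - 1 := Real.log_le_sub_one_of_pos (by positivity)
    have e4 : (bb (k + 1) : ℝ) * bb k / (aa (k + 1) * aa k) - 1 ≤ 16 / 4 ^ k := by
      rw [div_sub_one (by positivity), div_le_div_iff₀ (by positivity) h4k]
      have : (4 : ℝ) ^ k ≤ 4 * aa (k + 1) := p3.trans g1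
      nlinarith [mul_le_mul_of_nonneg_right this (by positivity : (0 : ℝ) ≤ 4 * aa k)]
    linarith
  · have e3 : Real.log ((aa (k + 1) : ℝ) * aa k / (bb (k + 1) * bb k)) ≤
        (aa (k + 1) : ℝ) * aa k / (bb (k + 1) * bb k) - 1 := Real.log_le_sub_one_of_pos (by positivity)
    have e4 : (aa (k + 1) : ℝ) * aa k / (bb (k + 1) * bb k) - 1 ≤ 16 / 4 ^ k := by
      rw [div_sub_one (by positivity), div_le_div_iff₀ (by positivity) h4k]
      -- `4 aa k * 4 ^ k ≤ 16 bb (k+1) bb k`
      have q1 : (4 * (aa k : ℝ)) * 4 ^ k ≤ 4 * aa k * (bb k * aa k) := mul_le_mul_of_nonneg_left p3 (by positivity)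
      have q2 : 4 * (aa k : ℝ) * (bb k * aa k) ≤ 16 * (bb (k + 1) * bb k) := by
        nlinarith [mul_le_mul_of_nonneg_right g2 (by positivity : (0 : ℝ) ≤ 4 * bb k)]
      nlinarith [mul_le_mul_of_nonneg_right hc2' h4k.le]
    linarith

theorem D_bound (k : ℕ) : |al k - be k| ≤ 23 - 22 / 4 ^ k := by
  induction k with
  | zero =>
    have h1 : al 0 - be 0 = -Real.log (5 / 3) := by
      have e1 : (aa 0 : ℝ) = 3 := by simp [aa, A, NP, M2.sum]
      have e2 : (bb 0 : ℝ) = 5 := by simp [bb, A, NM, M2.sum]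
      unfold al be
      rw [e1, e2, Real.log_div (by norm_num) (by norm_num)]
      ring
    rw [h1, abs_neg, abs_of_nonneg (Real.log_nonneg (by norm_num))]
    have := Real.log_le_sub_one_of_pos (show (0 : ℝ) < 5 / 3 by norm_num)
    norm_num at this ⊢
    linarith
  | succ k ih =>
    have h := D_step k
    have h2 : |al (k + 1) - be (k + 1)| ≤ |(al (k + 1) - be (k + 1)) + (al k - be k)| + |al k - be k| := by
      have := abs_sub ((al (k + 1) - be (k + 1)) + (al k - be k)) (al k - be k)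
      rwa [add_sub_cancel_right] at this
    have h4k : (0 : ℝ) < 1 / 4 ^ k := by positivity
    have e1 : (16 : ℝ) / 4 ^ k = 16 * (1 / 4 ^ k) := by ring
    have e2 : (22 : ℝ) / 4 ^ k = 22 * (1 / 4 ^ k) := by ring
    have e3 : (22 : ℝ) / 4 ^ (k + 1) = (22 / 4) * (1 / 4 ^ k) := by
      rw [pow_succ]; field_simp
    rw [e3]
    rw [e1] at h
    rw [e2] at ih
    linarith

/-- the basic combination -/
noncomputable def TT (k : ℕ) : ℝ := 2 * al k + be k

theorem TT_succ_le (k : ℕ) : TT (k + 1) ≤ 2 * TT k := by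
  unfold TT
  have := al_succ_le k
  have := be_succ_le k
  linarith

theorem le_TT_succ (k : ℕ) : 2 * TT k - 3 * Real.log 4 ≤ TT (k + 1) := by
  unfold TT
  have := le_al_succ k
  have := le_be_succ k
  linarith

theorem TT_anti : Antitone (fun k => TT k / 2 ^ k) := by
  refine antitone_nat_of_succ_le fun k => ?_
  have h := TT_succ_le k
  rw [div_le_div_iff₀ (by positivity) (by positivity), pow_succ]
  nlinarith [mul_le_mul_of_nonneg_right h (show (0 : ℝ) ≤ 2 ^ k by positivity)]

theorem TT_mono : Monotone (fun k => (TT k - 3 * Real.log 4) / 2 ^ k) := by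
  refine monotone_nat_of_le_succ fun k => ?_
  have h := le_TT_succ k
  rw [div_le_div_iff₀ (by positivity) (by positivity), pow_succ]
  nlinarith [mul_le_mul_of_nonneg_right h (show (0 : ℝ) ≤ 2 ^ k by positivity)]

theorem log_four_pos : 0 < Real.log 4 := Real.log_pos (by norm_num)

/-- `Γ` -/
theorem exists_Gam : ∃ Γ : ℝ, ∀ k, (TT k - 3 * Real.log 4) ≤ 3 * Γ * 2 ^ k ∧ 3 * Γ * 2 ^ k ≤ TT k := by
  have key : ∀ j k : ℕ, (TT j - 3 * Real.log 4) / 2 ^ j ≤ TT k / 2 ^ k := by
    intro j k
    rcases le_total j k with hjk | hjk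
    · refine (TT_mono hjk).trans ?_
      exact div_le_div_of_nonneg_right (by linarith [log_four_pos]) (by positivity)
    · refine le_trans ?_ (TT_anti hjk)
      exact div_le_div_of_nonneg_right (by linarith [log_four_pos]) (by positivity)
  have hbdd : BddBelow (Set.range fun k => TT k / 2 ^ k) := ⟨(TT 0 - 3 * Real.log 4) / 2 ^ 0, by
    rintro _ ⟨k, rfl⟩
    exact key 0 k⟩
  refine ⟨(⨅ k, TT k / 2 ^ k) / 3, fun k => ?_⟩
  have h2k : (0 : ℝ) < 2 ^ k := by positivity
  rw [mul_div_cancel₀ _ (by norm_num : (3 : ℝ) ≠ 0)]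
  constructor
  · rw [← div_le_iff₀ h2k]
    exact le_ciInf fun j => key k j
  · rw [← le_div_iff₀ h2k]
    exact ciInf_le hbdd k

/-- `u_m = |h_{4m}| + |h_{4m+1}|` -/
def u (m : ℕ) : ℕ := (s m).1 + (s m).2

theorem sum_app (X : M2) (v : ℕ × ℕ) : (X.app v).1 + (X.app v).2 = X.c1 * v.1 + X.c2 * v.2 := by
  simp only [app, c1, c2]
  ring

theorem rows (k : ℕ) : (A k).1.a ≤ (A k).1.b ∧ (A k).1.c ≤ (A k).1.d := by
  induction k with
  | zero => simp [A, NP]
  | succ k ih =>
    rw [show (A (k + 1)).1 = (A k).2.mul (A k).1 from rfl]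
    simp only [mul]
    constructor <;> exact Nat.add_le_add (Nat.mul_le_mul_left _ ih.1) (Nat.mul_le_mul_left _ ih.2)

theorem c1_le_c2 (k : ℕ) : (A k).1.c1 ≤ (A k).1.c2 := by
  have := rows k
  simp only [c1, c2]
  omega

theorem u_pos (m : ℕ) : 0 < u m := by
  have := (s_pos m).1
  unfold u
  omega

theorem s_le (m : ℕ) : 2 * (s m).1 ≤ 3 * (s m).2 := by
  have h := z_le m
  have h1 : (0 : ℚ) < (s m).2 := by exact_mod_cast (s_pos m).1
  unfold z at h
  rw [div_le_iff₀ h1] at h
  have : (2 * (s m).1 : ℚ) ≤ 3 * (s m).2 := by linarith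
  exact_mod_cast this

theorem le_s (m : ℕ) (hm : 1 ≤ m) : 2 * (s m).2 ≤ 5 * (s m).1 := by
  have h := le_z m hm
  have h1 : (0 : ℚ) < (s m).2 := by exact_mod_cast (s_pos m).1
  unfold z at h
  rw [le_div_iff₀ h1] at h
  have : (2 * (s m).2 : ℚ) ≤ 5 * (s m).1 := by linarith
  exact_mod_cast this

theorem s_step (k i : ℕ) : s (2 ^ k * (2 * i + 1)) = (A k).1.app (s (2 ^ k * (2 * i))) := by
  rw [block, W_even]
  simp [blk]

theorem u_step (k i : ℕ) : u (2 ^ k * (2 * i + 1)) ≤ aa k * u (2 ^ k * (2 * i)) ∧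
    aa k * u (2 ^ k * (2 * i)) ≤ 5 * u (2 ^ k * (2 * i + 1)) := by
  have e1 : u (2 ^ k * (2 * i + 1)) = (A k).1.c1 * (s (2 ^ k * (2 * i))).1 + (A k).1.c2 * (s (2 ^ k * (2 * i))).2 := by
    unfold u
    rw [s_step, sum_app]
  have e3 : aa k = (A k).1.c1 + (A k).1.c2 := by simp only [aa, M2.sum, c1, c2]; ring
  have h1 := s_le (2 ^ k * (2 * i))
  have h2 := c1_le_c2 k
  rw [e1, e3]
  unfold u
  generalize (s (2 ^ k * (2 * i))).1 = x at *
  generalize (s (2 ^ k * (2 * i))).2 = y at *
  generalize (A k).1.c1 = c at *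
  generalize (A k).1.c2 = d at *
  constructor
  · nlinarith [Nat.zero_le (c * y), Nat.zero_le (d * x)]
  · have h3 : c * y ≤ d * y := Nat.mul_le_mul_right _ h2
    have h4 : d * (2 * x) ≤ d * (3 * y) := Nat.mul_le_mul_left _ h1
    nlinarith [Nat.zero_le (c * x), Nat.zero_le (d * y)]

theorem log_five_le : Real.log 5 ≤ 2 := by
  rw [Real.log_le_iff_le_exp (by norm_num)]
  have h := Real.exp_one_gt_d9
  have h2 : Real.exp 2 = Real.exp 1 * Real.exp 1 := by rw [← Real.exp_add]; norm_num
  rw [h2]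
  nlinarith

theorem log_u_step (k i : ℕ) :
    |Real.log (u (2 ^ k * (2 * i + 1))) - al k - Real.log (u (2 ^ k * (2 * i)))| ≤ 2 := by
  obtain ⟨h1, h2⟩ := u_step k i
  have g1 : (0 : ℝ) < u (2 ^ k * (2 * i + 1)) := by exact_mod_cast u_pos _
  have g2 : (0 : ℝ) < u (2 ^ k * (2 * i)) := by exact_mod_cast u_pos _
  have g3 : (0 : ℝ) < aa k := by exact_mod_cast aa_pos _
  have h1' : (u (2 ^ k * (2 * i + 1)) : ℝ) ≤ aa k * u (2 ^ k * (2 * i)) := by exact_mod_cast h1
  have h2' : (aa k : ℝ) * u (2 ^ k * (2 * i)) ≤ 5 * u (2 ^ k * (2 * i + 1)) := by exact_mod_cast h2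
  have k1 := Real.log_le_log g1 h1'
  have k2 := Real.log_le_log (by positivity) h2'
  rw [Real.log_mul g3.ne' g2.ne'] at k1 k2
  rw [Real.log_mul (by norm_num) g1.ne'] at k2
  have := log_five_le
  unfold al
  rw [abs_le]
  constructor <;> linarith

/-- the number of binary ones -/
def popc (m : ℕ) : ℕ := (Nat.digits 2 m).sum

theorem popc_pow (k m : ℕ) : popc (2 ^ k * m) = popc m := by
  induction k with
  | zero => rw [pow_zero, one_mul]
  | succ k ih =>
    rw [pow_succ, show 2 ^ k * 2 * m = 2 * (2 ^ k * m) by ring, ← ih]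
    exact digits_two_mul_sum _

theorem popc_le (m : ℕ) (hm : m ≠ 0) : popc m ≤ Nat.log 2 m + 1 := by
  have h1 : popc m ≤ (Nat.digits 2 m).length • 1 := by
    refine List.sum_le_card_nsmul _ _ fun x hx => ?_
    have := Nat.digits_lt_base (by norm_num) hx
    omega
  rw [Nat.length_digits 2 m (by norm_num) hm] at h1
  simpa using h1

theorem al_bound (Γ : ℝ) (hΓ : ∀ k, (TT k - 3 * Real.log 4) ≤ 3 * Γ * 2 ^ k ∧ 3 * Γ * 2 ^ k ≤ TT k) (k : ℕ) :
    |al k - Γ * 2 ^ k| ≤ 10 := by
  obtain ⟨h1, h2⟩ := hΓ k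
  have h3 := abs_le.1 (D_bound k)
  have h4 : (0 : ℝ) < 22 / 4 ^ k := by positivity
  have h5 := log_four_le
  unfold TT at h1 h2
  rw [abs_le]
  constructor <;> linarith [h3.1, h3.2]

theorem log_u (Γ : ℝ) (hΓ : ∀ k, (TT k - 3 * Real.log 4) ≤ 3 * Γ * 2 ^ k ∧ 3 * Γ * 2 ^ k ≤ TT k) :
    ∀ m : ℕ, |Real.log (u m) - Γ * m| ≤ 12 * popc m := by
  intro m
  induction m using Nat.strong_induction_on with
  | _ m ih =>
    rcases Nat.eq_zero_or_pos m with rfl | hm
    · simp [u, s, popc]
    · obtain ⟨k, m', hm', rfl⟩ := Nat.exists_eq_two_pow_mul_odd hm.ne'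
      obtain ⟨i, rfl⟩ := hm'
      have h1 := log_u_step k i
      have h2 := al_bound Γ hΓ k
      have h3 := ih (2 ^ k * (2 * i)) (Nat.mul_lt_mul_of_pos_left (by omega) (by positivity))
      have e1 : popc (2 ^ k * (2 * i + 1)) = popc i + 1 := by rw [popc_pow]; exact digits_two_mul_add_sum i
      have e2 : popc (2 ^ k * (2 * i)) = popc i := by rw [popc_pow]; exact digits_two_mul_sum i
      rw [e1]
      rw [e2] at h3
      have e3 : Real.log (u (2 ^ k * (2 * i + 1))) - Γ * ((2 ^ k * (2 * i + 1) : ℕ) : ℝ) =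
          (Real.log (u (2 ^ k * (2 * i + 1))) - al k - Real.log (u (2 ^ k * (2 * i)))) +
          ((al k - Γ * 2 ^ k) + (Real.log (u (2 ^ k * (2 * i))) - Γ * ((2 ^ k * (2 * i) : ℕ) : ℝ))) := by
        push_cast
        ring
      rw [e3]
      refine (abs_add_le _ _).trans ?_
      have h4 := abs_add_le (al k - Γ * 2 ^ k) (Real.log (u (2 ^ k * (2 * i))) - Γ * ((2 ^ k * (2 * i) : ℕ) : ℝ))
      push_cast at h3 h4 ⊢
      linarith

theorem h_u (n : ℕ) (hn : 4 ≤ n) : |(h n : ℝ)| ≤ u (n / 4) ∧ 2 * (u (n / 4) : ℝ) ≤ 7 * |(h n : ℝ)| := by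
  obtain ⟨m, r, hm, hr, rfl⟩ : ∃ m r, 1 ≤ m ∧ r < 4 ∧ n = 4 * m + r :=
    ⟨n / 4, n % 4, by omega, Nat.mod_lt _ (by norm_num), by omega⟩
  rw [show (4 * m + r) / 4 = m by omega]
  have hx := le_s m hm
  have hy := s_le m
  have key : ∀ (q : ℤ) (v : ℕ), |q| = v → v ≤ u m → 2 * u m ≤ 7 * v → |(q : ℝ)| ≤ u m ∧ 2 * (u m : ℝ) ≤ 7 * |(q : ℝ)| := by
    intro q v hv h1 h2
    have : |(q : ℝ)| = v := by
      rw [← Int.cast_abs, hv]
      rfl
    rw [this]
    exact ⟨by exact_mod_cast h1, by exact_mod_cast h2⟩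
  interval_cases r
  · refine key _ _ (abs_h0 m) ?_ ?_ <;> unfold u <;> omega
  · refine key _ _ (abs_h1 m) ?_ ?_ <;> unfold u <;> omega
  · refine key _ ((s m).1 + (s m).2) (by rw [abs_h2 m]; push_cast; rfl) ?_ ?_ <;> unfold u <;> omega
  · refine key _ _ (abs_h3 m) ?_ ?_ <;> unfold u <;> omega

theorem Gam_bounds (Γ : ℝ) (hΓ : ∀ k, (TT k - 3 * Real.log 4) ≤ 3 * Γ * 2 ^ k ∧ 3 * Γ * 2 ^ k ≤ TT k)
    (hpos : 0 ≤ Γ) (n : ℕ) (hn : 4 ≤ n) : |Real.log |(h n : ℝ)| - Γ / 4 * n| ≤ 18 * Real.log n := by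
  obtain ⟨h1, h2⟩ := h_u n hn
  have hm : n / 4 ≠ 0 := by omega
  have h3 := log_u Γ hΓ (n / 4)
  have h4 := popc_le (n / 4) hm
  have h5 : ((Nat.log 2 (n / 4) : ℕ) : ℝ) ≤ Real.logb 2 ((n / 4 : ℕ) : ℝ) := by
    have := Real.natLog_le_logb (n / 4) 2
    exact_mod_cast this
  have hmR : (0 : ℝ) < ((n / 4 : ℕ) : ℝ) := by exact_mod_cast Nat.pos_of_ne_zero hm
  have hnR : (0 : ℝ) < n := by exact_mod_cast (by omega : 0 < n)
  have h6 : ((n / 4 : ℕ) : ℝ) ≤ (n : ℝ) / 4 := Nat.cast_div_le
  have h7 : (n : ℝ) / 4 ≤ ((n / 4 : ℕ) : ℝ) + 3 / 4 := by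
    have : n ≤ 4 * (n / 4) + 3 := by omega
    have : (n : ℝ) ≤ 4 * ((n / 4 : ℕ) : ℝ) + 3 := by exact_mod_cast this
    linarith
  have h8 : Real.log ((n / 4 : ℕ) : ℝ) ≤ Real.log n - Real.log 4 := by
    rw [← Real.log_div hnR.ne' (by norm_num)]
    exact Real.log_le_log hmR h6
  have hu : (0 : ℝ) < u (n / 4) := by exact_mod_cast u_pos _
  have hh : (0 : ℝ) < |(h n : ℝ)| := by linarith
  have h9 : Real.log |(h n : ℝ)| ≤ Real.log (u (n / 4)) := Real.log_le_log hh h1
  have h10 : Real.log (u (n / 4)) ≤ Real.log |(h n : ℝ)| + Real.log 4 := by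
    rw [← Real.log_mul hh.ne' (by norm_num)]
    refine Real.log_le_log hu ?_
    linarith
  have hl2 := Real.log_two_gt_d9
  have hl2' := Real.log_two_lt_d9
  have hl4 : Real.log 4 = 2 * Real.log 2 := by
    rw [show (4 : ℝ) = 2 ^ 2 by norm_num, Real.log_pow]
    push_cast
    ring
  have h11 : Real.logb 2 ((n / 4 : ℕ) : ℝ) ≤ 3 / 2 * (Real.log n - Real.log 4) := by
    rw [Real.logb, div_le_iff₀ (by linarith)]
    have h12 : 0 ≤ Real.log n - Real.log 4 := by
      have h13 : 0 ≤ Real.log ((n / 4 : ℕ) : ℝ) := Real.log_nonneg (by exact_mod_cast Nat.one_le_iff_ne_zero.2 hm)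
      linarith
    nlinarith
  have hΓ3 : Γ ≤ 2 := by
    have := (hΓ 0).2
    unfold TT at this
    have e1 := al_bound
    have e2 : al 0 ≤ 2 := by
      unfold al
      have : (aa 0 : ℝ) = 3 := by simp [aa, A, NP, M2.sum]
      rw [this]
      have := Real.log_le_sub_one_of_pos (show (0 : ℝ) < 3 by norm_num)
      linarith
    have e3 : be 0 ≤ 2 := by
      unfold be
      have : (bb 0 : ℝ) = 5 := by simp [bb, A, NM, M2.sum]
      rw [this]
      exact log_five_le
    simp only [pow_zero, mul_one] at this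
    linarith
  have h4' : (popc (n / 4) : ℝ) ≤ Nat.log 2 (n / 4) + 1 := by exact_mod_cast h4
  rw [abs_le] at h3 ⊢
  obtain ⟨h31, h32⟩ := h3
  have q1 : Γ * ((n / 4 : ℕ) : ℝ) ≤ Γ / 4 * n := by nlinarith
  have q2 : Γ / 4 * n ≤ Γ * ((n / 4 : ℕ) : ℝ) + 3 / 2 := by nlinarith
  constructor <;> linarith

theorem A_v0 : A 0 = (⟨0, 1, 1, 1⟩, ⟨2, 1, 1, 1⟩) := rfl
theorem A_v1 : A 1 = (⟨1, 3, 1, 2⟩, ⟨1, 1, 1, 2⟩) := by
  rw [A, A_v0]
  rfl
theorem A_v2 : A 2 = (⟨2, 5, 3, 7⟩, ⟨4, 9, 3, 7⟩) := by
  rw [A, A_v1]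
  rfl
theorem A_v3 : A 3 = (⟨35, 83, 27, 64⟩, ⟨19, 45, 27, 64⟩) := by
  rw [A, A_v2]
  rfl
theorem A_v4 : A 4 = (⟨1880, 4457, 2673, 6337⟩, ⟨3466, 8217, 2673, 6337⟩) := by
  rw [A, A_v3]
  rfl
theorem A_v5 : A 5 = (⟨28480121, 67519091, 21964041, 52071130⟩, ⟨15447961, 36623169, 21964041, 52071130⟩) := by
  rw [A, A_v4]
  rfl
theorem A_v6 : A 6 = (⟨1244352583949210, 2950042078534421, 1769230979565291, 4194394662483631⟩, ⟨2294109375181372, 5438747246432841, 1769230979565291, 4194394662483631⟩) := by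
  rw [A, A_v5]
  rfl
theorem A_v7 : A 7 = (⟨12477081047283452311564392237851, 29579971610580810109599123331283, 9622400118414404409864606121731, 22812252421035453601434303325672⟩, ⟨6767719189545356508164820005611, 16044533231490097093269483320061, 9622400118414404409864606121731, 22812252421035453601434303325672⟩) := by
  rw [A, A_v6]
  rfl
theorem A_v8 : A 8 = (⟨238828299299807050794633151796574068127242821538299541666927552, 566200883549578371382910555959280559467057592035459369365734905, 339568086544317244929323536101207809946229556644546576581218313, 805029182849385422177543707755854627594300413573758911032662457⟩, ⟨440307873788827439064013920405841551765216291750793611495509074, 1043857482149192472972176859552428695721543235112058452699590009, 339568086544317244929323536101207809946229556644546576581218313, 805029182849385422177543707755854627594300413573758911032662457⟩) := by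
  rw [A, A_v7]
  rfl
theorem A_v9 : A 9 = (⟨459618668503669830833546305359409176779724846354184125824025605260959617253555802005627058317057168534374870207679144539241665, 1089638443038851682362437579333685453341643736802503036107361399332172889836889366787886195366286923356504481375838316692620083, 354460687838370083275077797662059783921186899054481926294932784609259915073142727944861227160666265465877680740205184822634817, 840335735865781346645828289368975062278994785047723309341521435374612676944159712903790799362011560959123990103107091586592114⟩, ⟨249302707173070335716609289964710391062648951754779726765839963957560212892729653884095396004275362397380491272731225106027969, 591033028692711010929218999404264671216345833292943582575681471417052464051430059019695403357736198561743498830375866480564145, 354460687838370083275077797662059783921186899054481926294932784609259915073142727944861227160666265465877680740205184822634817, 840335735865781346645828289368975062278994785047723309341521435374612676944159712903790799362011560959123990103107091586592114⟩)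 := by
  rw [A, A_v8]
  rfl
theorem A_v10 : A 10 = (⟨324082152210860351830451304887004360650178205462414020067385951372032302198031069855073459415891348576285125336071717454387061797715311740981610915964869766157404180195162367572568247779383701152835631978875633475832973049456637710763102625859018964850, 768315988776905889736453443465364893236403321086903276031627991523864070992439536857339237398501328338046464328242663388528292308900680753746064207028486043012641264429674780218361337914185027941018840322592090755595976873790009616073050757036417253957, 460782732331314348427318988120644001611569292362709283402468676066103713510991457336957781731909397144913003784676485075819711019507343533174239795923838115830869773627913987550035301647814151228048172002564511700086662443824763815158019604395760083443, 1092398140987766241566904748352369253886581526549317296099013942895896373190470606712412696814392676914331589664314380842915354106615992494727675122993355809170045444624837147790929585693568729093854472301467724231428949923246647326836153382895436218807⟩,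 ⟨597483312451768345024186671354283642572960379263004546737551400760175124823951844818842104047927445713540882233281252697252360241299375325366868675882806465504335367060665607527502355516244601303260712026253389924340351838192889919552936582932501202036, 1416480293198626593397356053239373614536759732011731316166399894267928675388501676567486156230284025490616715000386098297302415904331304235709286038958225575327449624819999515363497833472952430246690104280343357707261922972703285037599256008754455183657, 460782732331314348427318988120644001611569292362709283402468676066103713510991457336957781731909397144913003784676485075819711019507343533174239795923838115830869773627913987550035301647814151228048172002564511700086662443824763815158019604395760083443, 1092398140987766241566904748352369253886581526549317296099013942895896373190470606712412696814392676914331589664314380842915354106615992494727675122993355809170045444624837147790929585693568729093854472301467724231428949923246647326836153382895436218807⟩)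 := by
  rw [A, A_v9]
  rfl

theorem num_lo (a b N : ℕ) (ha : 0 < a) (hb : 0 < b) (hN : 1152 ^ N * 64 < a ^ 2 * b * 1000 ^ N) :
    (N : ℝ) * Real.log (1152 / 1000) + 3 * Real.log 4 < 2 * Real.log a + Real.log b := by
  have ha' : (0 : ℝ) < a := by exact_mod_cast ha
  have hb' : (0 : ℝ) < b := by exact_mod_cast hb
  have h : (1152 : ℝ) ^ N * 64 < a ^ 2 * b * 1000 ^ N := by exact_mod_cast hN
  have h2 := Real.log_lt_log (by positivity) h
  rw [Real.log_mul (by positivity) (by positivity), Real.log_mul (by positivity) (by positivity),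
    Real.log_mul (by positivity) (by positivity), Real.log_pow, Real.log_pow, Real.log_pow,
    show (64 : ℝ) = 4 ^ 3 by norm_num, Real.log_pow] at h2
  rw [Real.log_div (by norm_num) (by norm_num)]
  push_cast at h2
  linarith

theorem num_hi (a b N : ℕ) (ha : 0 < a) (hb : 0 < b) (hN : a ^ 2 * b * 10000 ^ N < 11525 ^ N) :
    2 * Real.log a + Real.log b < (N : ℝ) * Real.log (11525 / 10000) := by
  have ha' : (0 : ℝ) < a := by exact_mod_cast ha
  have hb' : (0 : ℝ) < b := by exact_mod_cast hb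
  have h : (a : ℝ) ^ 2 * b * 10000 ^ N < 11525 ^ N := by exact_mod_cast hN
  have h2 := Real.log_lt_log (by positivity) h
  rw [Real.log_mul (by positivity) (by positivity), Real.log_mul (by positivity) (by positivity),
    Real.log_pow, Real.log_pow, Real.log_pow] at h2
  rw [Real.log_div (by norm_num) (by norm_num)]
  push_cast at h2
  linarith

theorem num1 : 1152 ^ 12288 * 64 < aa 10 ^ 2 * bb 10 * 1000 ^ 12288 := by
  unfold aa bb
  rw [A_v10]
  decide +kernel

theorem num2 : aa 10 ^ 2 * bb 10 * 10000 ^ 12288 < 11525 ^ 12288 := by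
  unfold aa bb
  rw [A_v10]
  decide +kernel

theorem Gam_num (Γ : ℝ) (hΓ : ∀ k, (TT k - 3 * Real.log 4) ≤ 3 * Γ * 2 ^ k ∧ 3 * Γ * 2 ^ k ≤ TT k) :
    Real.log (1152 / 1000) < Γ / 4 ∧ Γ / 4 < Real.log (11525 / 10000) := by
  obtain ⟨h1, h2⟩ := hΓ 10
  have e1 := num_lo _ _ _ (aa_pos 10) (bb_pos 10) num1
  have e2 := num_hi _ _ _ (aa_pos 10) (bb_pos 10) num2
  unfold TT al be at h1 h2
  norm_num at h1 h2 e1 e2 ⊢
  constructor <;> linarith

/-- **The growth rate.** -/
theorem growth : ∃ g : ℝ, 1.152 < g ∧ g < 1.1525 ∧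
    (∀ n : ℕ, 4 ≤ n → g ^ n / (n : ℝ) ^ 18 ≤ |(h n : ℝ)| ∧ |(h n : ℝ)| ≤ g ^ n * (n : ℝ) ^ 18) ∧
    Tendsto (fun n : ℕ => |(h n : ℝ)| ^ (1 / (n : ℝ))) atTop (𝓝 g) := by
  obtain ⟨Γ, hΓ⟩ := exists_Gam
  obtain ⟨hlo, hhi⟩ := Gam_num Γ hΓ
  have hpos : 0 ≤ Γ := by
    have : 0 < Real.log (1152 / 1000) := Real.log_pos (by norm_num)
    linarith
  have hb := Gam_bounds Γ hΓ hpos
  refine ⟨Real.exp (Γ / 4), ?_, ?_, ?_, ?_⟩
  · have := Real.exp_lt_exp.2 hlo
    rw [Real.exp_log (by norm_num)] at this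
    norm_num at this ⊢
    exact this
  · have := Real.exp_lt_exp.2 hhi
    rw [Real.exp_log (by norm_num)] at this
    norm_num at this ⊢
    exact this
  · intro n hn
    have hnR : (0 : ℝ) < n := by exact_mod_cast (by omega : 0 < n)
    have h1 := abs_le.1 (hb n hn)
    have hh : (0 : ℝ) < |(h n : ℝ)| := by
      rw [abs_pos]
      exact_mod_cast h_ne_zero n hn
    have e1 : Real.exp (Γ / 4) ^ n = Real.exp (Γ / 4 * n) := by
      rw [mul_comm, ← Real.exp_nat_mul]
    have e2 : (n : ℝ) ^ 18 = Real.exp (18 * Real.log n) := by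
      rw [show (18 : ℝ) * Real.log n = ((18 : ℕ) : ℝ) * Real.log n by norm_num, Real.exp_nat_mul, Real.exp_log hnR]
    rw [e1, e2]
    constructor
    · rw [← Real.exp_sub, ← Real.le_log_iff_exp_le hh]
      linarith [h1.1]
    · rw [← Real.exp_add, ← Real.log_le_iff_le_exp hh]
      linarith [h1.2]
  · have hlim : Tendsto (fun n : ℕ => Real.log |(h n : ℝ)| * (1 / (n : ℝ))) atTop (𝓝 (Γ / 4)) := by
      have h0 : Tendsto (fun n : ℕ => 18 * (Real.log n / n)) atTop (𝓝 0) := by
        have h1 : Tendsto (fun x : ℝ => Real.log x / x) atTop (𝓝 0) := by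
          have := Real.isLittleO_log_id_atTop.tendsto_div_nhds_zero
          simpa using this
        have h2 := (h1.comp tendsto_natCast_atTop_atTop).const_mul 18
        rw [mul_zero] at h2
        exact h2
      rw [tendsto_iff_dist_tendsto_zero]
      refine squeeze_zero' (Eventually.of_forall fun _ => dist_nonneg) ?_ h0
      filter_upwards [eventually_ge_atTop 4] with n hn
      have hnR : (0 : ℝ) < n := by exact_mod_cast (by omega : 0 < n)
      have h1 := hb n hn
      rw [Real.dist_eq]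
      have e1 : Real.log |(h n : ℝ)| * (1 / (n : ℝ)) - Γ / 4 = (Real.log |(h n : ℝ)| - Γ / 4 * n) / n := by
        field_simp
      rw [e1, abs_div, abs_of_pos hnR, ← mul_div_assoc]
      exact div_le_div_of_nonneg_right h1 hnR.le
    have h2 := (Real.continuous_exp.tendsto _).comp hlim
    refine h2.congr' ?_
    filter_upwards [eventually_ge_atTop 4] with n hn
    have hh : (0 : ℝ) < |(h n : ℝ)| := by
      rw [abs_pos]
      exact_mod_cast h_ne_zero n hn
    rw [Real.rpow_def_of_pos hh]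
    rfl

end Q264.TMFib
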