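import Mathlib
import Pool.Agent.Q264.TMRatio

/-!
# The cluster points of the ratios are irrational
-/

set_option autoImplicit false

namespace Q264.TMFib

open Filter Topology

theorem z_succ (m : ℕ) : z (m + 1) = if W m = 1 then 1 / (1 + z m) else 2 - 1 / (1 + z m) := by
  unfold z
  have h1 := (s_pos m).1
  have h2 : ((s m).2 : ℚ) ≠ 0 := by positivity
  have h3 : ((s m).1 : ℚ) + (s m).2 ≠ 0 := by positivity
  rw [s]
  split_ifs
  · push_cast
    field_simp
    rw [add_comm]
  · push_cast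
    field_simp
    ring

/-- the real version of `z` -/
noncomputable def zr (m : ℕ) : ℝ := (z m : ℝ)

theorem zr_mem (m : ℕ) : zr m ∈ Set.Icc (0 : ℝ) (3 / 2) := by
  constructor
  · unfold zr
    exact_mod_cast z_nonneg m
  · unfold zr
    have := z_le m
    have h2 : ((z m : ℚ) : ℝ) ≤ ((3 / 2 : ℚ) : ℝ) := by exact_mod_cast this
    refine h2.trans (le_of_eq ?_)
    norm_num

theorem zr_ge (m : ℕ) (hm : 1 ≤ m) : (2 / 5 : ℝ) ≤ zr m := by
  unfold zr
  have := le_z m hm
  have h2 : ((2 / 5 : ℚ) : ℝ) ≤ ((z m : ℚ) : ℝ) := by exact_mod_cast this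
  refine le_trans (le_of_eq ?_) h2
  norm_num

theorem zr_rel (m : ℕ) : (zr (m + 1) - 1 / (1 + zr m)) * (zr (m + 1) - (2 - 1 / (1 + zr m))) = 0 := by
  have h := z_succ m
  unfold zr
  rw [h]
  split_ifs
  · push_cast
    ring
  · push_cast
    ring

/-- along every subsequence the values of `z` have a cluster point in the limit set -/
theorem exists_cluster (g : ℕ → ℕ) (hg : Tendsto g atTop atTop) : ∃ (ζ : ℝ) (ψ : ℕ → ℕ), StrictMono ψ ∧ 2 / 5 ≤ ζ ∧
    Tendsto (fun j => zr (g (ψ j))) atTop (𝓝 ζ) ∧ MapClusterPt ζ atTop zr := by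
  obtain ⟨ζ, hζ, ψ, hψ, hlim⟩ := isCompact_Icc.tendsto_subseq (fun j => zr_mem (g j))
  have hlim' : Tendsto (fun j => zr (g (ψ j))) atTop (𝓝 ζ) := hlim
  have hgψ : Tendsto (fun j => g (ψ j)) atTop atTop := hg.comp hψ.tendsto_atTop
  refine ⟨ζ, ψ, hψ, ?_, hlim', ?_⟩
  · refine ge_of_tendsto hlim' ?_
    filter_upwards [hgψ.eventually_ge_atTop 1] with j hj
    exact zr_ge _ hj
  · exact MapClusterPt.of_comp hgψ hlim'.mapClusterPt

/-- **Infinite descent.** -/
theorem no_rational : ∀ N p q : ℕ, p + q = N → 0 < p → 0 < q → ¬ MapClusterPt ((p : ℝ) / q) atTop zr := by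
  intro N
  induction N using Nat.strong_induction_on with
  | _ N ih =>
    intro p q hN hp hq hcl
    obtain ⟨φ, hφ, hlim⟩ := MapClusterPt.tendsto_subseq hcl
    -- the preceding indices
    have hg : Tendsto (fun j => φ (j + 1) - 1) atTop atTop := by
      refine tendsto_atTop_mono (f := id) (fun j => ?_) tendsto_id
      have := hφ.id_le (j + 1)
      simp only [id] at this ⊢
      omega
    obtain ⟨ζ, ψ, hψ, hζ, hlim2, hcl2⟩ := exists_cluster _ hg
    have hlim3 : Tendsto (fun j => zr (φ (ψ j + 1))) atTop (𝓝 ((p : ℝ) / q)) := by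
      have h1 : Tendsto (fun j => ψ j + 1) atTop atTop := (tendsto_add_atTop_nat 1).comp hψ.tendsto_atTop
      exact hlim.comp h1
    have hp' : (0 : ℝ) < p := by exact_mod_cast hp
    have hq' : (0 : ℝ) < q := by exact_mod_cast hq
    have hζ1 : (0 : ℝ) < 1 + ζ := by linarith
    have hrel : ((p : ℝ) / q - 1 / (1 + ζ)) * ((p : ℝ) / q - (2 - 1 / (1 + ζ))) = 0 := by
      have h1 : Tendsto (fun j => (zr (φ (ψ j + 1)) - 1 / (1 + zr (φ (ψ j + 1) - 1))) *
          (zr (φ (ψ j + 1)) - (2 - 1 / (1 + zr (φ (ψ j + 1) - 1))))) atTop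
          (𝓝 (((p : ℝ) / q - 1 / (1 + ζ)) * ((p : ℝ) / q - (2 - 1 / (1 + ζ))))) := by
        have h2 : Tendsto (fun j => 1 / (1 + zr (φ (ψ j + 1) - 1))) atTop (𝓝 (1 / (1 + ζ))) :=
          tendsto_const_nhds.div (tendsto_const_nhds.add hlim2) (by linarith)
        exact (hlim3.sub h2).mul (hlim3.sub (tendsto_const_nhds.sub h2))
      refine tendsto_nhds_unique h1 ?_
      refine tendsto_const_nhds.congr' ?_
      filter_upwards with j
      have h3 := hφ.id_le (ψ j + 1)
      simp only [id] at h3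
      have h4 := zr_rel (φ (ψ j + 1) - 1)
      rw [show φ (ψ j + 1) - 1 + 1 = φ (ψ j + 1) by omega] at h4
      exact h4.symm
    rcases mul_eq_zero.1 hrel with h | h
    · -- `ζ = (q - p) / p`
      have e1 : (p : ℝ) * (1 + ζ) = q := by
        have : (p : ℝ) / q = 1 / (1 + ζ) := by linarith
        rw [div_eq_div_iff hq'.ne' hζ1.ne'] at this
        linarith
      have e2 : p < q := by
        have : (p : ℝ) < q := by nlinarith
        exact_mod_cast this
      refine ih (q - p + p) (by omega) (q - p) p rfl (by omega) hp ?_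
      have e3 : (((q - p : ℕ) : ℝ) / p) = ζ := by
        rw [Nat.cast_sub e2.le, div_eq_iff hp'.ne']
        linarith
      rw [e3]
      exact hcl2
    · -- `ζ = (p - q) / (2 q - p)`
      have e1 : (2 * (q : ℝ) - p) * (1 + ζ) = q := by
        have : (p : ℝ) / q = 2 - 1 / (1 + ζ) := by linarith
        have h5 : (p : ℝ) = (2 - 1 / (1 + ζ)) * q := by rw [← this]; field_simp
        rw [h5]
        field_simp
        ring
      have e4 : 0 < 2 * (q : ℝ) - p := by
        by_contra hcon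
        have : (2 * (q : ℝ) - p) * (1 + ζ) ≤ 0 := mul_nonpos_of_nonpos_of_nonneg (not_lt.1 hcon) hζ1.le
        linarith
      have e2 : q < p := by
        have : (q : ℝ) < p := by nlinarith
        exact_mod_cast this
      have e5 : p < 2 * q := by
        have : (p : ℝ) < 2 * q := by linarith
        exact_mod_cast this
      refine ih (p - q + (2 * q - p)) (by omega) (p - q) (2 * q - p) rfl (by omega) (by omega) ?_
      have e3 : (((p - q : ℕ) : ℝ) / ((2 * q - p : ℕ) : ℝ)) = ζ := by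
        rw [Nat.cast_sub e2.le, Nat.cast_sub e5.le]
        push_cast
        rw [div_eq_iff e4.ne']
        linarith
      rw [e3]
      exact hcl2

theorem cluster_irrational (ζ : ℝ) (h0 : 0 < ζ) (h : MapClusterPt ζ atTop zr) : Irrational ζ := by
  rintro ⟨r, rfl⟩
  have hr : 0 < r := by exact_mod_cast h0
  obtain ⟨p, hp⟩ : ∃ p : ℕ, r.num = p := ⟨r.num.toNat, by
    have := Rat.num_pos.2 hr
    omega⟩
  have hp0 : 0 < p := by
    have := Rat.num_pos.2 hr
    omega
  refine no_rational (p + r.den) p r.den rfl hp0 r.den_pos ?_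
  have : ((p : ℝ) / r.den) = (r : ℝ) := by
    rw [Rat.cast_def, hp]
    push_cast
    rfl
  rw [this]
  exact h

/-- the relation between `ρ` and `z` -/
theorem rho_rel (n : ℕ) (hn : 5 ≤ n) : ((rho n : ℝ) - (zr ((n - 1) / 4))⁻¹) * ((rho n : ℝ) - (1 + zr ((n - 1) / 4))) *
    (((rho n : ℝ) - zr ((n - 1) / 4) / (1 + zr ((n - 1) / 4))) * ((rho n : ℝ) - (2 + (zr ((n - 1) / 4))⁻¹))) = 0 := by
  obtain ⟨m, r, hm, hr, rfl⟩ : ∃ m r, 1 ≤ m ∧ r < 4 ∧ n = 4 * m + r + 1 :=
    ⟨(n - 1) / 4, (n - 1) % 4, by omega, Nat.mod_lt _ (by norm_num), by omega⟩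
  rw [show (4 * m + r + 1 - 1) / 4 = m by omega]
  unfold zr
  interval_cases r
  · rw [add_zero, rho1]; push_cast; ring
  · rw [show 4 * m + 1 + 1 = 4 * m + 2 by ring, rho2]; push_cast; ring
  · rw [show 4 * m + 2 + 1 = 4 * m + 3 by ring, rho3]; push_cast; ring
  · rw [show 4 * m + 3 + 1 = 4 * m + 4 by ring, rho4 m hm]
    split_ifs
    · push_cast; ring
    · push_cast; ring

theorem rho_cluster (g : ℕ → ℕ) (hg : Tendsto g atTop atTop) (L : ℝ)
    (h : MapClusterPt L atTop (fun n => (rho (g n) : ℝ))) : Irrational L := by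
  obtain ⟨φ, hφ, hlim⟩ := MapClusterPt.tendsto_subseq h
  have hgφ : Tendsto (fun j => g (φ j)) atTop atTop := hg.comp hφ.tendsto_atTop
  have hg' : Tendsto (fun j => (g (φ j) - 1) / 4) atTop atTop := by
    rw [tendsto_atTop]
    intro b
    filter_upwards [hgφ.eventually_ge_atTop (4 * b + 1)] with j hj
    omega
  obtain ⟨ζ, ψ, hψ, hζ, hlim2, hcl2⟩ := exists_cluster _ hg'
  have hζ0 : 0 < ζ := by linarith
  have hirr := cluster_irrational ζ hζ0 hcl2
  have hlim3 : Tendsto (fun j => (rho (g (φ (ψ j))) : ℝ)) atTop (𝓝 L) := hlim.comp hψ.tendsto_atTop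
  have hgψ : Tendsto (fun j => g (φ (ψ j))) atTop atTop := hgφ.comp hψ.tendsto_atTop
  have hrel : (L - ζ⁻¹) * (L - (1 + ζ)) * ((L - ζ / (1 + ζ)) * (L - (2 + ζ⁻¹))) = 0 := by
    have h2 := hlim2.inv₀ hζ0.ne'
    have h3 : Tendsto (fun j => 1 + zr ((g (φ (ψ j)) - 1) / 4)) atTop (𝓝 (1 + ζ)) := tendsto_const_nhds.add hlim2
    have h4 := hlim2.div h3 (by linarith)
    have h5 : Tendsto (fun j => 2 + (zr ((g (φ (ψ j)) - 1) / 4))⁻¹) atTop (𝓝 (2 + ζ⁻¹)) := tendsto_const_nhds.add h2
    have h6 := ((hlim3.sub h2).mul (hlim3.sub h3)).mul ((hlim3.sub h4).mul (hlim3.sub h5))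
    refine tendsto_nhds_unique h6 ?_
    refine tendsto_const_nhds.congr' ?_
    filter_upwards [hgψ.eventually_ge_atTop 5] with j hj
    exact (rho_rel _ hj).symm
  rcases mul_eq_zero.1 hrel with h1 | h1
  · rcases mul_eq_zero.1 h1 with h2 | h2
    · have : L = ζ⁻¹ := by linarith
      rw [this]
      exact irrational_inv_iff.2 hirr
    · have : L = ζ + ((1 : ℚ) : ℝ) := by push_cast; linarith
      rw [this]
      exact hirr.add_ratCast 1
  · rcases mul_eq_zero.1 h1 with h2 | h2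
    · have hz1 : Irrational (1 + ζ)⁻¹ := by
        rw [irrational_inv_iff]
        have := hirr.ratCast_add 1
        push_cast at this
        exact this
      have : L = ((1 : ℚ) : ℝ) - (1 + ζ)⁻¹ := by
        have : L = ζ / (1 + ζ) := by linarith
        rw [this]
        have h3 : (1 + ζ) ≠ 0 := by linarith
        field_simp
        push_cast
        ring
      rw [this]
      exact hz1.ratCast_sub 1
    · have : L = ((2 : ℚ) : ℝ) + ζ⁻¹ := by push_cast; linarith
      rw [this]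
      exact (irrational_inv_iff.2 hirr).ratCast_add 2

theorem rho_le (n : ℕ) (hn : 5 ≤ n) : rho n ≤ 5 := by
  obtain ⟨m, r, hm, hr, rfl⟩ : ∃ m r, 1 ≤ m ∧ r < 4 ∧ n = 4 * m + r + 1 :=
    ⟨(n - 1) / 4, (n - 1) % 4, by omega, Nat.mod_lt _ (by norm_num), by omega⟩
  have h1 := le_z m hm
  have h2 := z_le m
  have h3 : (z m)⁻¹ ≤ 5 / 2 := by
    have := inv_anti (by norm_num) h1
    norm_num at this
    exact this
  interval_cases r
  · rw [add_zero, rho1]; linarith
  · rw [show 4 * m + 1 + 1 = 4 * m + 2 by ring, rho2]; linarith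
  · rw [show 4 * m + 2 + 1 = 4 * m + 3 by ring, rho3, div_le_iff₀ (by linarith)]; linarith
  · rw [show 4 * m + 3 + 1 = 4 * m + 4 by ring, rho4 m hm]
    split_ifs <;> linarith

/-- the lower limit of a bounded sequence is a cluster point -/
theorem liminf_cluster (u : ℕ → ℝ) (a b : ℝ) (h1 : ∀ᶠ n in atTop, a ≤ u n) (h2 : ∀ᶠ n in atTop, u n ≤ b) :
    MapClusterPt (liminf u atTop) atTop u := by
  have hb1 : IsBoundedUnder (· ≥ ·) atTop u := ⟨a, h1⟩
  have hb2 : IsCoboundedUnder (· ≥ ·) atTop u := IsBoundedUnder.isCoboundedUnder_ge ⟨b, h2⟩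
  rw [mapClusterPt_iff_frequently]
  intro S hS
  obtain ⟨ε, hε, hball⟩ := Metric.mem_nhds_iff.1 hS
  have e1 : ∀ᶠ n in atTop, liminf u atTop - ε < u n := eventually_lt_of_lt_liminf (by linarith) hb1
  have e2 : ∃ᶠ n in atTop, u n < liminf u atTop + ε := frequently_lt_of_liminf_lt hb2 (by linarith)
  refine (e2.and_eventually e1).mono fun n hn => hball ?_
  rw [Metric.mem_ball, Real.dist_eq, abs_lt]
  exact ⟨by linarith [hn.2], by linarith [hn.1]⟩

/-- **All the lower limits are irrational.** -/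
theorem liminf_irrational (k i : ℕ) :
    Irrational (liminf (fun n : ℕ => |(h (2 ^ k * n + i + 1) : ℝ)| / |(h (2 ^ k * n + i) : ℝ)|) atTop) := by
  have hg : Tendsto (fun n : ℕ => 2 ^ k * n + i + 1) atTop atTop := by
    refine tendsto_atTop_mono (f := id) (fun j => ?_) tendsto_id
    have : 1 ≤ 2 ^ k := Nat.one_le_two_pow
    simp only [id]
    nlinarith
  have heq : (fun n : ℕ => |(h (2 ^ k * n + i + 1) : ℝ)| / |(h (2 ^ k * n + i) : ℝ)|) =
      fun n => (rho (2 ^ k * n + i + 1) : ℝ) := by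
    funext n
    unfold rho
    push_cast
    rfl
  rw [heq]
  refine rho_cluster _ hg _ (liminf_cluster _ (2 / 7) 5 ?_ ?_)
  · filter_upwards [hg.eventually_ge_atTop 5] with n hn
    have := rho_ge _ hn
    have h2 : ((2 / 7 : ℚ) : ℝ) ≤ (rho (2 ^ k * n + i + 1) : ℝ) := by exact_mod_cast this
    refine le_trans (le_of_eq ?_) h2
    norm_num
  · filter_upwards [hg.eventually_ge_atTop 5] with n hn
    have := rho_le _ hn
    exact_mod_cast this

end Q264.TMFib
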