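import Pool.Agent.Q264.QuadF

/-!
# Powers of the Thue-Morse product: the matrix recursion
-/

set_option autoImplicit false

namespace Q264.TMPow

open PowerSeries Finset Q264.Quad

/-- extension of the coefficients by zero -/
noncomputable def ext0 (f : PowerSeries ℤ) (n : ℤ) : ℤ := if 0 ≤ n then coeff n.toNat f else 0

theorem ext0_nat (f : PowerSeries ℤ) (n : ℕ) : ext0 f (n : ℤ) = coeff n f := by
  unfold ext0
  rw [if_pos (by omega), Int.toNat_natCast]

theorem ext0_X_pow_mul (f : PowerSeries ℤ) (j : ℕ) (n : ℤ) : ext0 (X ^ j * f) n = ext0 f (n - j) := by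
  unfold ext0
  by_cases h0 : 0 ≤ n
  · rw [if_pos h0, coeff_X_pow_mul']
    by_cases h1 : j ≤ n.toNat
    · rw [if_pos h1, if_pos (by omega), show (n - (j : ℤ)).toNat = n.toNat - j by omega]
    · rw [if_neg h1, if_neg (by omega)]
  · rw [if_neg h0, if_neg (by omega)]

theorem ext0_sum {ι : Type*} (s : Finset ι) (c : ι → ℤ) (f : ι → PowerSeries ℤ) (n : ℤ) :
    ext0 (∑ j ∈ s, C (c j) * f j) n = ∑ j ∈ s, c j * ext0 (f j) n := by
  unfold ext0
  split_ifs with h
  · rw [map_sum]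
    refine Finset.sum_congr rfl fun j _ => ?_
    rw [coeff_C_mul]
  · simp

theorem ext0_expand (f : PowerSeries ℤ) (n : ℤ) :
    ext0 (expand 2 (by norm_num) f) n = if 2 ∣ n then ext0 f (n / 2) else 0 := by
  unfold ext0
  by_cases h0 : 0 ≤ n
  · rw [if_pos h0, coeff_expand]
    by_cases h1 : 2 ∣ n
    · rw [if_pos h1, if_pos (by omega), if_pos (by omega), show (n / 2).toNat = n.toNat / 2 by omega]
    · rw [if_neg h1, if_neg (by omega)]
  · rw [if_neg h0]
    split_ifs <;> first | rfl | omega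

/-! ### the product -/

noncomputable def PT (N : ℕ) : PowerSeries ℤ := ∏ i ∈ range N, (1 - X ^ (2 ^ i))

theorem one_sub_cg (d j : ℕ) (h : d ≤ j) : Cg d ((1 : PowerSeries ℤ) - X ^ j) 1 := by
  unfold Cg
  rw [show (1 : PowerSeries ℤ) - X ^ j - 1 = -X ^ j by ring]
  exact (dvd_neg).2 (pow_dvd_pow X h)

theorem PT_cg (d N : ℕ) (h : d ≤ N) : Cg d (PT N) (PT d) := by
  induction N with
  | zero =>
    obtain rfl : d = 0 := by omega
    exact Cg.rfl' _
  | succ N ih =>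
    rcases eq_or_lt_of_le h with h1 | h1
    · rw [h1]; exact Cg.rfl' _
    · have e : PT (N + 1) = PT N * (1 - X ^ (2 ^ N)) := by
        unfold PT
        rw [Finset.prod_range_succ]
      rw [e]
      have h2 : Cg d ((1 : PowerSeries ℤ) - X ^ (2 ^ N)) 1 := one_sub_cg d _ (by
          have : N < 2 ^ N := Nat.lt_two_pow_self
          omega)
      have := (ih (by omega)).mul' h2
      rwa [mul_one] at this

/-- the Thue-Morse product -/
noncomputable def TM : PowerSeries ℤ := PowerSeries.mk fun n => coeff n (PT (n + 1))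

theorem TM_cg (N : ℕ) : Cg N TM (PT N) := by
  refine cg_of_coeff fun n hn => ?_
  unfold TM
  rw [coeff_mk]
  exact ((PT_cg (n + 1) N (by omega)).coeff (by omega)).symm

theorem TM_pow (m n : ℕ) : coeff n (TM ^ m) = coeff n (PT (n + 1) ^ m) :=
  ((TM_cg (n + 1)).pow' m).coeff (by omega)

noncomputable abbrev E2 (f : PowerSeries ℤ) : PowerSeries ℤ := expand 2 (by norm_num) f

theorem E2_cg {d : ℕ} {f g : PowerSeries ℤ} (h : Cg d f g) : Cg d (E2 f) (E2 g) := by
  refine cg_of_coeff fun n hn => ?_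
  rw [E2, E2, coeff_expand, coeff_expand]
  split_ifs with h1
  · exact h.coeff (lt_of_le_of_lt (Nat.div_le_self _ _) hn)
  · rfl

theorem PT_eq (N : ℕ) : PT (N + 1) = (1 - X) * E2 (PT N) := by
  unfold PT
  rw [Finset.prod_range_succ', pow_zero, pow_one, mul_comm, E2, map_prod]
  congr 1
  refine Finset.prod_congr rfl fun i _ => ?_
  rw [map_sub, map_one, map_pow, expand_X, ← pow_mul, show 2 * 2 ^ i = 2 ^ (i + 1) by rw [pow_succ, mul_comm]]

theorem TM_eq : TM = (1 - X) * E2 TM := by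
  ext n
  have h1 : Cg (n + 1) TM (PT (n + 2)) := (TM_cg (n + 1)).trans' (PT_cg (n + 1) (n + 2) (by omega)).symm'
  have h2 : Cg (n + 1) ((1 - X) * E2 (PT (n + 1))) ((1 - X) * E2 TM) :=
    Cg.mul' (Cg.rfl' _) (E2_cg (TM_cg (n + 1)).symm')
  rw [PT_eq] at h1
  exact (h1.trans' h2).coeff (by omega)

theorem TM_pow_eq (m : ℕ) : TM ^ m = (1 - X) ^ m * E2 (TM ^ m) := by
  conv_lhs => rw [TM_eq, mul_pow]
  rw [E2, E2, map_pow]

theorem one_sub_pow (m : ℕ) (f : PowerSeries ℤ) : (1 - X) ^ m * f =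
    ∑ j ∈ range (m + 1), C ((-1) ^ j * (m.choose j : ℤ)) * (X ^ j * f) := by
  have h := add_pow (-X : PowerSeries ℤ) 1 m
  rw [show (-X + 1 : PowerSeries ℤ) = 1 - X by ring] at h
  rw [h, Finset.sum_mul]
  refine Finset.sum_congr rfl fun j _ => ?_
  rw [map_mul, map_pow, map_neg, map_one, map_natCast, one_pow, neg_pow]
  ring

/-- the matrix of the recursion -/
def B (K : ℕ) : Matrix (Fin K) (Fin K) ℤ := fun i l =>
  if (i : ℕ) ≤ 2 * l + 1 then (-1) ^ ((i : ℕ) + 1) * ((K + 1).choose (2 * l + 1 - i) : ℤ) else 0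

/-- the window of coefficients below `M` -/
noncomputable def win (K : ℕ) (M : ℤ) : Fin K → ℤ := fun i => ext0 (TM ^ (K + 1)) (M - ((i : ℕ) + 1))

theorem win_two (K : ℕ) (M : ℤ) : win K (2 * M) = (B K).mulVec (win K M) := by
  funext i
  unfold win Matrix.mulVec dotProduct B
  set g := TM ^ (K + 1) with hg
  have h1 : ext0 g (2 * M - ((i : ℕ) + 1)) = ∑ j ∈ range (K + 1 + 1),
      ((-1) ^ j * ((K + 1).choose j : ℤ)) * ext0 (E2 g) (2 * M - ((i : ℕ) + 1) - j) := by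
    conv_lhs => rw [hg, TM_pow_eq, one_sub_pow, ext0_sum]
    refine Finset.sum_congr rfl fun j _ => ?_
    rw [ext0_X_pow_mul]
  rw [h1]
  have h2 : ∀ j ∈ range (K + 1 + 1), ((-1) ^ j * ((K + 1).choose j : ℤ)) * ext0 (E2 g) (2 * M - ((i : ℕ) + 1) - j) =
      if 2 ∣ (i : ℕ) + 1 + j then ((-1) ^ j * ((K + 1).choose j : ℤ)) * ext0 g (M - (((i : ℕ) + 1 + j) / 2 : ℕ)) else 0 := by
    intro j _
    rw [E2, ext0_expand]
    by_cases h : 2 ∣ (i : ℕ) + 1 + j
    · rw [if_pos h, if_pos (by omega)]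
      congr 2
      omega
    · rw [if_neg h, if_neg (by omega), mul_zero]
  rw [Finset.sum_congr rfl h2, ← Finset.sum_filter]
  rw [Fin.sum_univ_eq_sum_range (fun l => (if (i : ℕ) ≤ 2 * l + 1 then (-1) ^ ((i : ℕ) + 1) *
    ((K + 1).choose (2 * l + 1 - i) : ℤ) else 0) * ext0 g (M - ((l : ℕ) + 1))) K]
  have h3 : ∀ l ∈ range K, (if (i : ℕ) ≤ 2 * l + 1 then (-1) ^ ((i : ℕ) + 1) *
    ((K + 1).choose (2 * l + 1 - i) : ℤ) else 0) * ext0 g (M - ((l : ℕ) + 1)) =
      if ((i : ℕ) ≤ 2 * l + 1 ∧ 2 * l + 1 - i < K + 1 + 1) then (-1) ^ ((i : ℕ) + 1) *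
    ((K + 1).choose (2 * l + 1 - i) : ℤ) * ext0 g (M - ((l : ℕ) + 1)) else 0 := by
    intro l _
    by_cases ha : (i : ℕ) ≤ 2 * l + 1
    · rw [if_pos ha]
      by_cases hb : 2 * l + 1 - i < K + 1 + 1
      · rw [if_pos ⟨ha, hb⟩]
      · rw [if_neg (fun h => hb h.2), Nat.choose_eq_zero_of_lt (by omega)]
        simp
    · rw [if_neg ha, if_neg (fun h => ha h.1), zero_mul]
  rw [Finset.sum_congr rfl h3, ← Finset.sum_filter]
  have hi := i.2
  refine Finset.sum_nbij' (fun j => ((i : ℕ) + 1 + j) / 2 - 1) (fun l => 2 * l + 1 - i) ?_ ?_ ?_ ?_ ?_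
  · intro j hj
    rw [mem_filter, mem_range] at hj ⊢
    refine ⟨by omega, by omega, by omega⟩
  · intro l hl
    rw [mem_filter, mem_range] at hl ⊢
    refine ⟨by omega, by omega⟩
  · intro j hj
    rw [mem_filter, mem_range] at hj
    omega
  · intro l hl
    rw [mem_filter, mem_range] at hl
    omega
  · intro j hj
    rw [mem_filter, mem_range] at hj
    obtain ⟨q, hq⟩ := hj.2
    have e1 : 2 * (((i : ℕ) + 1 + j) / 2 - 1) + 1 - (i : ℕ) = j := by omega
    have e2 : ((M : ℤ) - (((i : ℕ) + 1 + j) / 2 : ℕ)) = M - (((((i : ℕ) + 1 + j) / 2 - 1 : ℕ) : ℤ) + 1) := by omega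
    have e3 : ((-1 : ℤ)) ^ j = (-1) ^ ((i : ℕ) + 1) := by
      have : Even ((i : ℕ) + 1 + j) := ⟨q, by omega⟩
      rw [neg_one_pow_eq_pow_mod_two, neg_one_pow_eq_pow_mod_two (n := (i : ℕ) + 1)]
      congr 1
      omega
    rw [e1, e2, e3]

theorem win_pow (K : ℕ) (e : ℕ) (M : ℤ) : win K (2 ^ e * M) = (B K ^ e).mulVec (win K M) := by
  induction e with
  | zero => simp
  | succ e ih =>
    rw [show (2 : ℤ) ^ (e + 1) * M = 2 * (2 ^ e * M) by ring, win_two, ih, Matrix.mulVec_mulVec, ← pow_succ']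

/-! ### parity -/

theorem two_zero : (2 : PowerSeries (ZMod 2)) = 0 := by
  have : (2 : ZMod 2) = 0 := rfl
  rw [← map_ofNat (C (R := ZMod 2)) 2, this, map_zero]

noncomputable def T2 : PowerSeries (ZMod 2) := PowerSeries.map (Int.castRingHom (ZMod 2)) TM

theorem T2_sq : T2 ^ 2 = expand 2 (by norm_num) T2 := by
  have h2 := MvPowerSeries.map_frobenius_expand (σ := Unit) (R := ZMod 2) 2 (by norm_num) (f := T2)
  have h3 : frobenius (ZMod 2) 2 = RingHom.id _ := by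
    ext x
    rw [frobenius_def, RingHom.id_apply, ZMod.pow_card]
  rw [h3, MvPowerSeries.map_id] at h2
  exact h2.symm

theorem T2_zero : constantCoeff T2 = 1 := by
  unfold T2
  rw [← coeff_zero_eq_constantCoeff_apply, coeff_map]
  have : coeff 0 TM = 1 := by
    unfold TM PT
    rw [coeff_mk]
    simp
  rw [this, map_one]

theorem T2_mul : T2 * (1 + X) = 1 := by
  have h : T2 = (1 + X) * T2 ^ 2 := by
    rw [T2_sq]
    have := congrArg (PowerSeries.map (Int.castRingHom (ZMod 2))) TM_eq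
    rw [map_mul, map_sub, map_one, map_X, E2, map_expand] at this
    rw [show (1 + X : PowerSeries (ZMod 2)) = 1 - X by linear_combination X * two_zero]
    exact this
  have h0 : T2 ≠ 0 := by
    intro h1
    have := T2_zero
    rw [h1, map_zero] at this
    exact absurd this (by decide)
  have h2 : T2 * (T2 * (1 + X)) = T2 * 1 := by
    rw [mul_one]
    conv_rhs => rw [h]
    ring
  exact mul_left_cancel₀ h0 h2

theorem T2_coeff (n : ℕ) : coeff n T2 = 1 := by
  have h : T2 + X ^ 1 * T2 = 1 := by rw [← T2_mul]; ring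
  induction n with
  | zero => rw [coeff_zero_eq_constantCoeff_apply, T2_zero]
  | succ n ih =>
    have h1 := congrArg (coeff (n + 1)) h
    rw [map_add, coeff_X_pow_mul', if_pos (by omega), Nat.add_sub_cancel, ih, coeff_one, if_neg (by omega)] at h1
    have : ∀ x : ZMod 2, x + 1 = 0 → x = 1 := by decide
    exact this _ h1

theorem T2_key (k : ℕ) : (∑ i ∈ range (2 ^ k), (X : PowerSeries (ZMod 2)) ^ i) * T2 ^ (2 ^ k + 1) = T2 ^ 2 := by
  have h1 : (∑ i ∈ range (2 ^ k), (X : PowerSeries (ZMod 2)) ^ i) * (1 + X) = (1 + X) ^ (2 ^ k) := by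
    have h2 := geom_sum_mul (X : PowerSeries (ZMod 2)) (2 ^ k)
    have h3 : (1 + X : PowerSeries (ZMod 2)) ^ (2 ^ k) = 1 + X ^ (2 ^ k) := by
      induction k with
      | zero => simp
      | succ k ih =>
        rw [pow_succ, pow_mul, ih (geom_sum_mul _ _), pow_mul]
        linear_combination X ^ 2 ^ k * two_zero
    rw [h3]
    linear_combination h2 + (∑ i ∈ range (2 ^ k), (X : PowerSeries (ZMod 2)) ^ i) * two_zero - two_zero
  calc (∑ i ∈ range (2 ^ k), (X : PowerSeries (ZMod 2)) ^ i) * T2 ^ (2 ^ k + 1)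
      = (∑ i ∈ range (2 ^ k), (X : PowerSeries (ZMod 2)) ^ i) * (T2 * (1 + X)) * T2 ^ (2 ^ k + 1) := by
        rw [T2_mul, mul_one]
    _ = ((∑ i ∈ range (2 ^ k), (X : PowerSeries (ZMod 2)) ^ i) * (1 + X)) * T2 ^ (2 ^ k) * T2 ^ 2 := by ring
    _ = (T2 * (1 + X)) ^ (2 ^ k) * T2 ^ 2 := by rw [h1, mul_pow]; ring
    _ = T2 ^ 2 := by rw [T2_mul]; ring

/-- the sum of the window below an odd number is odd -/
theorem win_sum_odd (k : ℕ) (N : ℕ) (hN : N % 2 = 1) : (∑ i, win (2 ^ k) (N : ℤ) i) % 2 = 1 := by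
  have h1 : (∑ i, win (2 ^ k) (N : ℤ) i) = ext0 (∑ i ∈ range (2 ^ k), C (1 : ℤ) * (X ^ (i + 1) * TM ^ (2 ^ k + 1))) N := by
    rw [ext0_sum]
    unfold win
    rw [Fin.sum_univ_eq_sum_range (fun i => ext0 (TM ^ (2 ^ k + 1)) ((N : ℤ) - ((i : ℕ) + 1))) (2 ^ k)]
    refine Finset.sum_congr rfl fun i _ => ?_
    rw [ext0_X_pow_mul, one_mul]
    push_cast
    rfl
  have h2 : ((∑ i, win (2 ^ k) (N : ℤ) i : ℤ) : ZMod 2) = 1 := by
    rw [h1, ext0_nat]
    have h3 := congrArg (fun f => coeff N ((X : PowerSeries (ZMod 2)) ^ 1 * f)) (T2_key k)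
    have h4 : PowerSeries.map (Int.castRingHom (ZMod 2))
        (∑ i ∈ range (2 ^ k), C (1 : ℤ) * (X ^ (i + 1) * TM ^ (2 ^ k + 1))) =
        X ^ 1 * ((∑ i ∈ range (2 ^ k), (X : PowerSeries (ZMod 2)) ^ i) * T2 ^ (2 ^ k + 1)) := by
      rw [map_sum, Finset.sum_mul, Finset.mul_sum]
      refine Finset.sum_congr rfl fun i _ => ?_
      rw [map_mul, map_mul, map_pow, map_pow, map_X, map_one, map_one, one_mul, T2]
      ring
    rw [← h4, coeff_map] at h3
    have h5 : ((coeff N (∑ i ∈ range (2 ^ k), C (1 : ℤ) * (X ^ (i + 1) * TM ^ (2 ^ k + 1))) : ℤ) : ZMod 2) =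
        coeff N (X ^ 1 * T2 ^ 2) := h3
    rw [h5, coeff_X_pow_mul', if_pos (by omega), T2_sq, coeff_expand, if_pos (by omega), T2_coeff]
  have h6 : ((∑ i, win (2 ^ k) (N : ℤ) i : ℤ) : ZMod 2) = ((1 : ℤ) : ZMod 2) := by
    rw [h2]; simp
  have := (ZMod.intCast_eq_intCast_iff _ _ 2).1 h6
  unfold Int.ModEq at this
  simpa using this

end Q264.TMPow
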