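import Pool.Agent.Q264.TMPow

/-!
# The exponent 17: the window below `2 ^ 9`
-/

set_option autoImplicit false

namespace Q264.TMPow

open PowerSeries Finset Q264.Quad


def u0 : Fin 16 → ℤ := ![1, 0, 0, 0, 0, 0, 0, 0, 0, 0, 0, 0, 0, 0, 0, 0]

def u1 : Fin 16 → ℤ := ![-17, 1, 0, 0, 0, 0, 0, 0, 0, 0, 0, 0, 0, 0, 0, 0]

def u2 : Fin 16 → ℤ := ![-391, 119, -17, 1, 0, 0, 0, 0, 0, 0, 0, 0, 0, 0, 0, 0]

def u3 : Fin 16 → ℤ := ![11475, -12291, 3349, 187, -391, 119, -17, 1, 0, 0, 0, 0, 0, 0, 0, 0]

def u4 : Fin 16 → ℤ := ![-8124793, 1329417, 1693761, -1382321, 321997, 177123, -167365, 44149, 11475, -12291, 3349, 187, -391, 119, -17, 1]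

def u5 : Fin 16 → ℤ := ![6008995304, -2636780648, -1223926696, 2258525480, -1029408344, -375201832, 776939032, -384695448, -83712216, 233236056, -128607720, -8264856, 58037864, -36253928, 2383960, 11466024]

def u6 : Fin 16 → ℤ := ![-6787585107264, -3091186722496, 7353759095616, -3978458801984, -1806839936448, 4256679596480, -2276192789568, -1039634464704, 2402162428352, -1263460009408, -579915418560, 1310203039680, -674041118400, -316909720896, 689953062080, -343038447808]

def u7 : Fin 16 → ℤ := ![30885340548391424, -8054218184425984, -18350699491004928, 23558054230520320, -6366814438084096, -13710817046516224, 17852293724864000, -5035591715757568, -10117236228185600, 13409007739026944, -3943099979043328, -7399580257586688, 9982134506631680, -3054751935255040, -5367659522572800, 7386169712976384]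

def u8 : Fin 16 → ℤ := ![-56982263246829617152, -67736104687813558272, 116377183641108119552, -49161838846416420864, -59071134428569894912, 100850162091807571968, -42163552652719521792, -51541491877990400000, 87274857215315968000, -36136613099265884160, -44902911463270481920, 75453465076981137408, -30954911799821041664, -38958961165411975168, 65013618736792633344, -26445839383051665408]

def u9 : Fin 16 → ℤ := ![578155974438826307223552, -109876244314663760691200, -443971896068160388857856, 539154521932526347354112, -104231343633686629711872, -411691655776027427733504, 501836607965177424904192, -98392455150140920430592, -382073745322860227067904, 467219626081416348172288, -92556831538856709586944, -354746997819713789362176, 435176819040997583093760, -87671015138345521774592, -328854339870513882202112, 405038508762146334834688]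

theorem u1_eq : (B 16).mulVec u0 = u1 := by decide +kernel

theorem u2_eq : (B 16).mulVec u1 = u2 := by decide +kernel

theorem u3_eq : (B 16).mulVec u2 = u3 := by decide +kernel

theorem u4_eq : (B 16).mulVec u3 = u4 := by decide +kernel

theorem u5_eq : (B 16).mulVec u4 = u5 := by decide +kernel

theorem u6_eq : (B 16).mulVec u5 = u6 := by decide +kernel

theorem u7_eq : (B 16).mulVec u6 = u7 := by decide +kernel

theorem u8_eq : (B 16).mulVec u7 = u8 := by decide +kernel

theorem u9_eq : (B 16).mulVec u8 = u9 := by decide +kernel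

theorem win_one : win 16 1 = u0 := by
  have h : ∀ i : Fin 16, win 16 1 i = if (i : ℕ) = 0 then 1 else 0 := by
    intro i
    unfold win ext0
    by_cases hi : (i : ℕ) = 0
    · rw [if_pos hi, if_pos (by omega), hi]
      simp only [Nat.cast_zero, zero_add, sub_self, Int.toNat_zero]
      rw [TM_pow]
      unfold PT
      simp
    · rw [if_neg hi, if_neg (by omega)]
  funext i
  rw [h]
  revert i
  decide +kernel

theorem win_nine : win 16 (2 ^ 9 * 1) = u9 := by
  rw [win_pow, win_one]
  have : B 16 ^ 9 = B 16 * (B 16 * (B 16 * (B 16 * (B 16 * (B 16 * (B 16 * (B 16 * B 16))))))) := by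
    simp only [pow_succ, pow_zero, one_mul, mul_assoc]
  rw [this]
  simp only [← Matrix.mulVec_mulVec]
  rw [u1_eq, u2_eq, u3_eq, u4_eq, u5_eq, u6_eq, u7_eq, u8_eq, u9_eq]

theorem coeff_511 : (2 : ℤ) ^ 19 ∣ coeff 511 (TM ^ 17) := by
  have h := congrFun win_nine 0
  have h2 : win 16 (2 ^ 9 * 1) 0 = coeff 511 (TM ^ 17) := by
    unfold win
    rw [show ((2 : ℤ) ^ 9 * 1 - (((0 : Fin 16) : ℕ) + 1)) = ((511 : ℕ) : ℤ) by norm_num, ext0_nat]
  rw [← h2, h]
  decide +kernel

theorem coeff_496 : ¬ (2 : ℤ) ^ 19 ∣ coeff 496 (TM ^ 17) := by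
  have h := congrFun win_nine 15
  have h2 : win 16 (2 ^ 9 * 1) 15 = coeff 496 (TM ^ 17) := by
    unfold win
    rw [show ((2 : ℤ) ^ 9 * 1 - (((15 : Fin 16) : ℕ) + 1)) = ((496 : ℕ) : ℤ) by norm_num, ext0_nat]
  rw [← h2, h]
  decide +kernel

end Q264.TMPow
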