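import Pool.Agent.Q264.TMPow

/-!
# Powers of the recursion matrix for the exponents 5 and 9
-/

set_option autoImplicit false

namespace Q264.TMPow

open PowerSeries Finset Q264.Quad

/-- `B ^ e` is `2 ^ a` times a matrix with odd entries -/
def Good (K a e : ℕ) : Prop := ∃ O : Matrix (Fin K) (Fin K) ℤ, (∀ i l, O i l % 2 = 1) ∧ B K ^ e = (2 : ℤ) ^ a • O


def b4 : Matrix (Fin 4) (Fin 4) ℤ := !![-5, -10, -1, 0; 1, 10, 5, 0; 0, -5, -10, -1; 0, 1, 10, 5]

theorem b4_eq : B 4 = b4 := by decide +kernel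

def o4_2 : Matrix (Fin 4) (Fin 4) ℤ := !![15, -45, -35, 1; 5, 65, -1, -5; -5, -1, 65, 5; 1, -35, -45, 15]

def o4_3 : Matrix (Fin 4) (Fin 4) ℤ := !![-15, -53, 15, 5; 5, 75, 35, -3; 3, -35, -75, -5; -5, -15, 53, 15]

def o4_4 : Matrix (Fin 4) (Fin 4) ℤ := !![11, -225, -175, 5; 25, 261, -5, -25; -25, -5, 261, 25; 5, -175, -225, 11]

def o4_5 : Matrix (Fin 4) (Fin 4) ℤ := !![-35, -185, 83, 25; 17, 295, 135, -15; 15, -135, -295, -17; -25, -83, 185, 35]

theorem o4_2_odd : ∀ i l, o4_2 i l % 2 = 1 := by decide +kernel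

theorem o4_3_odd : ∀ i l, o4_3 i l % 2 = 1 := by decide +kernel

theorem o4_4_odd : ∀ i l, o4_4 i l % 2 = 1 := by decide +kernel

theorem o4_5_odd : ∀ i l, o4_5 i l % 2 = 1 := by decide +kernel

theorem o4_2_eq : B 4 ^ 2 = (2 : ℤ) ^ 0 • o4_2 := by
  rw [pow_two, b4_eq]
  decide +kernel

theorem o4_3_eq : B 4 ^ 3 = (2 : ℤ) ^ 3 • o4_3 := by
  rw [pow_succ, o4_2_eq, b4_eq]
  decide +kernel

theorem o4_4_eq : B 4 ^ 4 = (2 : ℤ) ^ 4 • o4_4 := by
  rw [pow_succ, o4_3_eq, b4_eq]
  decide +kernel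

theorem o4_5_eq : B 4 ^ 5 = (2 : ℤ) ^ 7 • o4_5 := by
  rw [pow_succ, o4_4_eq, b4_eq]
  decide +kernel

def b8 : Matrix (Fin 8) (Fin 8) ℤ := !![-9, -84, -126, -36, -1, 0, 0, 0; 1, 36, 126, 84, 9, 0, 0, 0; 0, -9, -84, -126, -36, -1, 0, 0; 0, 1, 36, 126, 84, 9, 0, 0; 0, 0, -9, -84, -126, -36, -1, 0; 0, 0, 1, 36, 126, 84, 9, 0; 0, 0, 0, -9, -84, -126, -36, -1; 0, 0, 0, 1, 36, 126, 84, 9]

theorem b8_eq : B 8 = b8 := by decide +kernel

def o8_3 : Matrix (Fin 8) (Fin 8) ℤ := !![-1143, -35799, 26541, 431613, 256347, -3429, -2385, -1; -81, 29583, 163179, -98277, -315315, -58995, 1369, 9; 387, -6669, -184785, -297873, 109449, 97273, 3717, -27; -171, -9243, 73737, 436041, 232703, -51057, -10269, 3; -3, 10269, 51057, -232703, -436041, -73737, 9243, 171; 27, -3717, -97273, -109449, 297873, 184785, 6669, -387; -9, -1369, 58995, 315315, 98277, -163179, -29583, 81; 1, 2385, 3429, -256347, -431613, -26541, 35799, 1143]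

def o8_4 : Matrix (Fin 8) (Fin 8) ℤ := !![-3189, -125001, 828927, 3304747, 305937, -669771, -25179, 297; 3789, -61887, -1341063, -763155, 2289783, 647091, -33021, -161; -1269, 136575, 377711, -2568573, -2534607, 157869, 78741, -495; -963, -68247, 776889, 2948421, -125145, -940149, -40285, 1287; 1287, -40285, -940149, -125145, 2948421, 776889, -68247, -963; -495, 78741, 157869, -2534607, -2568573, 377711, 136575, -1269; -161, -33021, 647091, 2289783, -763155, -1341063, -61887, 3789; 297, -25179, -669771, 305937, 3304747, 828927, -125001, -3189]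

def o8_5 : Matrix (Fin 8) (Fin 8) ℤ := !![-24075, -2096939, 7642377, 62996121, 31455519, -8787681, -1350621, 6963; -23997, 2190051, 14234895, -25316993, -55149687, -7365879, 1177317, 7893; 36999, -236169, -20964669, -35458173, 26123157, 17757061, 269793, -20799; -14895, -1604895, 8148213, 61236405, 29956467, -10867581, -1694457, 12967; -12967, 1694457, 10867581, -29956467, -61236405, -8148213, 1604895, 14895; 20799, -269793, -17757061, -26123157, 35458173, 20964669, 236169, -36999; -7893, -1177317, 7365879, 55149687, 25316993, -14234895, -2190051, 23997; -6963, 1350621, 8787681, -31455519, -62996121, -7642377, 2096939, 24075]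

def o8_6 : Matrix (Fin 8) (Fin 8) ℤ := !![-235033, -9906597, 134104059, 481604751, 5094981, -142523199, -7667175, 176661; 300753, -9071683, -167398947, -55236951, 412850019, 122152455, -6607953, -138285; -71145, 17701731, 29095931, -425611449, -412932555, 27048249, 15278841, -57123; -183855, -8577819, 129905613, 457815521, -20616957, -154149345, -8209377, 226395; 226395, -8209377, -154149345, -20616957, 457815521, 129905613, -8577819, -183855; -57123, 15278841, 27048249, -412932555, -425611449, 29095931, 17701731, -71145; -138285, -6607953, 122152455, 412850019, -55236951, -167398947, -9071683, 300753; 176661, -7667175, -142523199, 5094981, 481604751, 134104059, -9906597, -235033]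

def o8_7 : Matrix (Fin 8) (Fin 8) ℤ := !![-1947825, -265556625, 1166508747, 9367940475, 4397160109, -1741676499, -249236487, 2314281; -2944615, 274877433, 1824639165, -4215754227, -8693322741, -1029087477, 228198111, 1340847; 4585509, -11059083, -2945811687, -5070279591, 4378168431, 2836423615, 25382547, -3948237; -1730781, -251173165, 1135762767, 9214822287, 4393885545, -1788248295, -263043099, 2561733; -2561733, 263043099, 1788248295, -4393885545, -9214822287, -1135762767, 251173165, 1730781; 3948237, -25382547, -2836423615, -4378168431, 5070279591, 2945811687, 11059083, -4585509; -1340847, -228198111, 1029087477, 8693322741, 4215754227, -1824639165, -274877433, 2944615; -2314281, 249236487, 1741676499, -4397160109, -9367940475, -1166508747, 265556625, 1947825]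

def o8_8 : Matrix (Fin 8) (Fin 8) ℤ := !![-31003275, -1315882431, 20591037009, 72665925309, -1243701297, -23719779693, -1363166933, 33758127; 37672371, -1311821433, -24102555849, -5844292245, 66154968617, 19770728517, -1083870675, -27016311; -6541083, 2582339481, 3297475697, -66833035803, -64561562433, 4282892091, 2488027563, -7614585; -29449517, -1237986369, 20445821415, 70728985875, -3232779543, -24141111219, -1350422883, 35762337; 35762337, -1350422883, -24141111219, -3232779543, 70728985875, 20445821415, -1237986369, -29449517; -7614585, 2488027563, 4282892091, -64561562433, -66833035803, 3297475697, 2582339481, -6541083; -27016311, -1083870675, 19770728517, 66154968617, -5844292245, -24102555849, -1311821433, 37672371; 33758127, -1363166933, -23719779693, -1243701297, 72665925309, 20591037009, -1315882431, -31003275]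

def o8_9 : Matrix (Fin 8) (Fin 8) ℤ := !![-259213239, -39355225047, 177976240173, 1428719755005, 658645973019, -284568349797, -40081155921, 416747519; -412718193, 40172164911, 267139990539, -661637827269, -1347353576595, -154042524819, 37132890553, 210180969; 660302307, -749161197, -442860335601, -766084239153, 688924073385, 441183368665, 3224743461, -639139707; -243235179, -38844289179, 170368188489, 1411852773897, 668586497471, -280174722417, -40604490333, 418070979; -418070979, 40604490333, 280174722417, -668586497471, -1411852773897, -170368188489, 38844289179, 243235179; 639139707, -3224743461, -441183368665, -688924073385, 766084239153, 442860335601, 749161197, -660302307; -210180969, -37132890553, 154042524819, 1347353576595, 661637827269, -267139990539, -40172164911, 412718193; -416747519, 40081155921, 284568349797, -658645973019, -1428719755005, -177976240173, 39355225047, 259213239]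

def o8_10 : Matrix (Fin 8) (Fin 8) ℤ := !![-4627788237, -196010074521, 3168178426359, 11135950058251, -276475963095, -3728969877915, -217729089555, 5478985449; 5485828581, -198128934639, -3646610756415, -792312703731, 10301617660575, 3086376853635, -169769750661, -4405157729; -836485245, 392152948047, 460563735959, -10353699374301, -9990590379399, 664923653757, 388993468077, -1122125103; -4581896571, -187427947239, 3169323252945, 10911399578277, -500632888545, -3737330136261, -211659923125, 5545891143; 5545891143, -211659923125, -3737330136261, -500632888545, 10911399578277, 3169323252945, -187427947239, -4581896571; -1122125103, 388993468077, 664923653757, -9990590379399, -10353699374301, 460563735959, 392152948047, -836485245; -4405157729, -169769750661, 3086376853635, 10301617660575, -792312703731, -3646610756415, -198128934639, 5485828581; 5478985449, -217729089555, -3728969877915, -276475963095, 11135950058251, 3168178426359, -196010074521, -4627788237]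

theorem o8_3_odd : ∀ i l, o8_3 i l % 2 = 1 := by decide +kernel

theorem o8_4_odd : ∀ i l, o8_4 i l % 2 = 1 := by decide +kernel

theorem o8_5_odd : ∀ i l, o8_5 i l % 2 = 1 := by decide +kernel

theorem o8_6_odd : ∀ i l, o8_6 i l % 2 = 1 := by decide +kernel

theorem o8_7_odd : ∀ i l, o8_7 i l % 2 = 1 := by decide +kernel

theorem o8_8_odd : ∀ i l, o8_8 i l % 2 = 1 := by decide +kernel

theorem o8_9_odd : ∀ i l, o8_9 i l % 2 = 1 := by decide +kernel

theorem o8_10_odd : ∀ i l, o8_10 i l % 2 = 1 := by decide +kernel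

def p8_2 : Matrix (Fin 8) (Fin 8) ℤ := !![-3, -1170, -153, 4692, 891, -162, 1, 0; 27, 162, -3231, -3060, 1709, 306, -9, 0; -9, 306, 1709, -3060, -3231, 162, 27, 0; 1, -162, 891, 4692, -153, -1170, -3, 0; 0, -3, -1170, -153, 4692, 891, -162, 1; 0, 27, 162, -3231, -3060, 1709, 306, -9; 0, -9, 306, 1709, -3060, -3231, 162, 27; 0, 1, -162, 891, 4692, -153, -1170, -3]

theorem p8_2_eq : B 8 ^ 2 = p8_2 := by
  rw [pow_two, b8_eq]
  decide +kernel

theorem o8_3_eq : B 8 ^ 3 = (2 : ℤ) ^ 0 • o8_3 := by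
  rw [pow_succ, p8_2_eq, b8_eq]
  decide +kernel

theorem o8_4_eq : B 8 ^ 4 = (2 : ℤ) ^ 3 • o8_4 := by
  rw [pow_succ, o8_3_eq, b8_eq]
  decide +kernel

theorem o8_5_eq : B 8 ^ 5 = (2 : ℤ) ^ 5 • o8_5 := by
  rw [pow_succ, o8_4_eq, b8_eq]
  decide +kernel

theorem o8_6_eq : B 8 ^ 6 = (2 : ℤ) ^ 8 • o8_6 := by
  rw [pow_succ, o8_5_eq, b8_eq]
  decide +kernel

theorem o8_7_eq : B 8 ^ 7 = (2 : ℤ) ^ 10 • o8_7 := by
  rw [pow_succ, o8_6_eq, b8_eq]
  decide +kernel

theorem o8_8_eq : B 8 ^ 8 = (2 : ℤ) ^ 13 • o8_8 := by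
  rw [pow_succ, o8_7_eq, b8_eq]
  decide +kernel

theorem o8_9_eq : B 8 ^ 9 = (2 : ℤ) ^ 15 • o8_9 := by
  rw [pow_succ, o8_8_eq, b8_eq]
  decide +kernel

theorem o8_10_eq : B 8 ^ 10 = (2 : ℤ) ^ 18 • o8_10 := by
  rw [pow_succ, o8_9_eq, b8_eq]
  decide +kernel

theorem ch4 : B 4 ^ 4 = (80 : ℤ) • B 4 ^ 2 - (1024 : ℤ) • 1 := by
  rw [o4_4_eq, o4_2_eq]
  decide +kernel

theorem ch8 : B 8 ^ 8 = (6560 : ℤ) • B 8 ^ 6 - (8472576 : ℤ) • B 8 ^ 4 + (2235564032 : ℤ) • B 8 ^ 2
    - (68719476736 : ℤ) • 1 := by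
  rw [o8_8_eq, o8_6_eq, o8_4_eq, p8_2_eq]
  decide +kernel

def a4 (v : ℕ) : ℕ := 4 * ((v + 1) / 2) - v % 2

def a8 (v : ℕ) : ℕ := 5 * ((v + 1) / 2) - 2 * (v % 2)

theorem a8_even (q : ℕ) : a8 (2 * q) = 5 * q := by unfold a8; omega

theorem a8_odd (q : ℕ) : a8 (2 * q + 1) = 5 * q + 3 := by unfold a8; omega

theorem a8_add (w j : ℕ) : a8 (w + 2 * j) = a8 w + 5 * j := by
  obtain ⟨q, rfl | rfl⟩ : ∃ q, w = 2 * q ∨ w = 2 * q + 1 := ⟨w / 2, by omega⟩
  · rw [show 2 * q + 2 * j = 2 * (q + j) by ring, a8_even, a8_even]; ring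
  · rw [show 2 * q + 1 + 2 * j = 2 * (q + j) + 1 by ring, a8_odd, a8_odd]; ring

theorem good4 (v : ℕ) : Good 4 (a4 v) (v + 2) := by
  induction v using Nat.strong_induction_on with
  | _ v ih =>
    rcases (show v = 0 ∨ v = 1 ∨ v = 2 ∨ v = 3 ∨ 4 ≤ v by omega) with rfl | rfl | rfl | rfl | h
    · exact ⟨o4_2, o4_2_odd, o4_2_eq⟩
    · exact ⟨o4_3, o4_3_odd, o4_3_eq⟩
    · exact ⟨o4_4, o4_4_odd, o4_4_eq⟩
    · exact ⟨o4_5, o4_5_odd, o4_5_eq⟩
    · obtain ⟨w, rfl⟩ := Nat.exists_eq_add_of_le' h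
      obtain ⟨O0, ho0, e0⟩ := ih w (by omega)
      obtain ⟨O2, ho2, e2⟩ := ih (w + 2) (by omega)
      have ea2 : a4 (w + 2) = a4 w + 4 := by unfold a4; omega
      have ea4 : a4 (w + 4) = a4 w + 8 := by unfold a4; omega
      refine ⟨(5 : ℤ) • O2 - (4 : ℤ) • O0, ?_, ?_⟩
      · intro i l
        have h0 := ho0 i l
        have h2 := ho2 i l
        simp only [Matrix.sub_apply, Matrix.smul_apply, smul_eq_mul]
        omega
      · have hp : B 4 ^ (w + 4 + 2) = B 4 ^ (w + 2) * B 4 ^ 4 := by rw [← pow_add]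
        have hq : B 4 ^ (w + 2) * B 4 ^ 2 = B 4 ^ (w + 2 + 2) := by rw [← pow_add]
        rw [hp, ch4, mul_sub, mul_smul_comm, mul_smul_comm, mul_one, hq, e2, e0, ea2, ea4]
        ext i l
        simp only [Matrix.sub_apply, Matrix.smul_apply, smul_eq_mul, pow_add]
        ring

theorem good8 (v : ℕ) : Good 8 (a8 v) (v + 3) := by
  induction v using Nat.strong_induction_on with
  | _ v ih =>
    rcases (show v = 0 ∨ v = 1 ∨ v = 2 ∨ v = 3 ∨ v = 4 ∨ v = 5 ∨ v = 6 ∨ v = 7 ∨ 8 ≤ v by omega) with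
      rfl | rfl | rfl | rfl | rfl | rfl | rfl | rfl | h
    · exact ⟨o8_3, o8_3_odd, o8_3_eq⟩
    · exact ⟨o8_4, o8_4_odd, o8_4_eq⟩
    · exact ⟨o8_5, o8_5_odd, o8_5_eq⟩
    · exact ⟨o8_6, o8_6_odd, o8_6_eq⟩
    · exact ⟨o8_7, o8_7_odd, o8_7_eq⟩
    · exact ⟨o8_8, o8_8_odd, o8_8_eq⟩
    · exact ⟨o8_9, o8_9_odd, o8_9_eq⟩
    · exact ⟨o8_10, o8_10_odd, o8_10_eq⟩
    · obtain ⟨w, rfl⟩ := Nat.exists_eq_add_of_le' h
      obtain ⟨O0, ho0, e0⟩ := ih w (by omega)
      obtain ⟨O2, ho2, e2⟩ := ih (w + 2) (by omega)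
      obtain ⟨O4, ho4, e4⟩ := ih (w + 4) (by omega)
      obtain ⟨O6, ho6, e6⟩ := ih (w + 6) (by omega)
      have ea2 : a8 (w + 2) = a8 w + 5 := a8_add w 1
      have ea4 : a8 (w + 4) = a8 w + 10 := a8_add w 2
      have ea6 : a8 (w + 6) = a8 w + 15 := a8_add w 3
      have ea8 : a8 (w + 8) = a8 w + 20 := a8_add w 4
      refine ⟨(205 : ℤ) • O6 - (8274 : ℤ) • O4 + (68224 : ℤ) • O2 - (65536 : ℤ) • O0, ?_, ?_⟩
      · intro i l
        have h6 := ho6 i l
        simp only [Matrix.sub_apply, Matrix.add_apply, Matrix.smul_apply, smul_eq_mul]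
        omega
      · have hp : B 8 ^ (w + 8 + 3) = B 8 ^ (w + 3) * B 8 ^ 8 := by rw [← pow_add]
        have hq2 : B 8 ^ (w + 3) * B 8 ^ 2 = B 8 ^ (w + 2 + 3) := by rw [← pow_add]
        have hq4 : B 8 ^ (w + 3) * B 8 ^ 4 = B 8 ^ (w + 4 + 3) := by rw [← pow_add]
        have hq6 : B 8 ^ (w + 3) * B 8 ^ 6 = B 8 ^ (w + 6 + 3) := by rw [← pow_add]
        rw [hp, ch8, mul_sub, mul_add, mul_sub, mul_smul_comm, mul_smul_comm, mul_smul_comm, mul_smul_comm, mul_one,
          hq2, hq4, hq6, e6, e4, e2, e0, ea2, ea4, ea6, ea8]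
        ext i l
        simp only [Matrix.sub_apply, Matrix.add_apply, Matrix.smul_apply, smul_eq_mul, pow_add]
        ring

/-- the valuation of the coefficients from `Good` -/
theorem val_of_good {k a e : ℕ} (h : Good (2 ^ k) a e) {N : ℕ} (hN : N % 2 = 1) (i : Fin (2 ^ k)) :
    ∃ u : ℤ, win (2 ^ k) (2 ^ e * N) i = 2 ^ a * (2 * u + 1) := by
  obtain ⟨O, hO, he⟩ := h
  have h1 := win_sum_odd k N hN
  have h2 : ∃ y : ℤ, (O.mulVec (win (2 ^ k) N)) i = (∑ l, win (2 ^ k) (N : ℤ) l) + 2 * y := by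
    unfold Matrix.mulVec dotProduct
    refine ⟨∑ l, (O i l / 2) * win (2 ^ k) N l, ?_⟩
    rw [Finset.mul_sum, ← Finset.sum_add_distrib]
    refine Finset.sum_congr rfl fun l _ => ?_
    have := hO i l
    have h3 : O i l = 2 * (O i l / 2) + 1 := by omega
    show O i l * win (2 ^ k) N l = _
    generalize O i l / 2 = q at h3 ⊢
    rw [h3]
    ring
  obtain ⟨y, hy⟩ := h2
  refine ⟨(∑ l, win (2 ^ k) (N : ℤ) l) / 2 + y, ?_⟩
  have h4 := congrFun (win_pow (2 ^ k) e (N : ℤ)) i
  rw [he, Matrix.smul_mulVec] at h4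
  rw [h4, Pi.smul_apply, smul_eq_mul, hy]
  congr 1
  omega

end Q264.TMPow
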