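import Mathlib

/-!
Expansions in non-integer bases with digits `0`, `1`: basic facts.
-/

set_option autoImplicit false

namespace Q264.Uni

open Filter Topology

/-- the digit as a real number -/
def bt (b : Bool) : ℝ := if b then 1 else 0

/-- the value of a digit sequence in base `q` -/
noncomputable def ev (q : ℝ) (c : ℕ → Bool) : ℝ := ∑' i : ℕ, bt (c i) * (q⁻¹) ^ (i + 1)

/-- partial sums -/
noncomputable def ps (q : ℝ) (c : ℕ → Bool) (n : ℕ) : ℝ :=
  ∑ i ∈ Finset.range n, bt (c i) * (q⁻¹) ^ (i + 1)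

/-- shift -/
def sh (n : ℕ) (c : ℕ → Bool) : ℕ → Bool := fun i => c (n + i)

/-- reflection -/
def ng (c : ℕ → Bool) : ℕ → Bool := fun i => !(c i)

/-- the tail after position `n`, reflected if the digit at `n` is one -/
def g (c : ℕ → Bool) (n : ℕ) : ℕ → Bool := fun i => xor (c n) (c (n + 1 + i))

/-- agreement of the first `n` digits -/
def Ag (n : ℕ) (c d : ℕ → Bool) : Prop := ∀ i, i < n → c i = d i

/-- admissible: all the tails have value less than one -/
def Adm (q : ℝ) (c : ℕ → Bool) : Prop := ∀ n, ev q (g c n) < 1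

/-- weakly admissible -/
def wAdm (q : ℝ) (c : ℕ → Bool) : Prop := ∀ n, ev q (g c n) ≤ 1

lemma bt_nonneg (b : Bool) : 0 ≤ bt b := by unfold bt; split <;> norm_num
lemma bt_le (b : Bool) : bt b ≤ 1 := by unfold bt; split <;> norm_num
lemma bt_true : bt true = 1 := rfl
lemma bt_false : bt false = 0 := rfl
lemma bt_not (b : Bool) : bt (!b) = 1 - bt b := by cases b <;> simp [bt]

lemma inv_pos1 {q : ℝ} (hq : 1 < q) : 0 < q⁻¹ := inv_pos.2 (by linarith)
lemma inv_lt1 {q : ℝ} (hq : 1 < q) : q⁻¹ < 1 := inv_lt_one_of_one_lt₀ hq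

lemma summ {q : ℝ} (hq : 1 < q) (c : ℕ → Bool) :
    Summable (fun i : ℕ => bt (c i) * (q⁻¹) ^ (i + 1)) := by
  have h := (summable_geometric_of_lt_one (inv_pos1 hq).le (inv_lt1 hq)).mul_right q⁻¹
  refine Summable.of_nonneg_of_le (fun i => ?_) (fun i => ?_) h
  · exact mul_nonneg (bt_nonneg _) (pow_nonneg (inv_pos1 hq).le _)
  · rw [pow_succ]
    have : 0 ≤ q⁻¹ ^ i * q⁻¹ := mul_nonneg (pow_nonneg (inv_pos1 hq).le _) (inv_pos1 hq).le
    nlinarith [bt_le (c i), bt_nonneg (c i)]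

lemma ev_split {q : ℝ} (hq : 1 < q) (c : ℕ → Bool) (n : ℕ) :
    ev q c = ps q c n + (q⁻¹) ^ n * ev q (sh n c) := by
  unfold ev ps
  rw [← (summ hq c).sum_add_tsum_nat_add n]
  congr 1
  rw [← tsum_mul_left]
  refine tsum_congr fun i => ?_
  unfold sh
  rw [Nat.add_comm n i]
  ring

lemma ev_nonneg {q : ℝ} (hq : 1 < q) (c : ℕ → Bool) : 0 ≤ ev q c :=
  tsum_nonneg fun _ => mul_nonneg (bt_nonneg _) (pow_nonneg (inv_pos1 hq).le _)

lemma ev_ones {q : ℝ} (hq : 1 < q) : ev q (fun _ => true) = 1 / (q - 1) := by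
  unfold ev
  have h := tsum_geometric_of_lt_one (inv_pos1 hq).le (inv_lt1 hq)
  simp only [bt_true, one_mul, pow_succ]
  rw [tsum_mul_right, h]
  have h1 : q ≠ 0 := by linarith
  have h2 : q - 1 ≠ 0 := by linarith
  have h3 : 1 - q⁻¹ ≠ 0 := by
    have := inv_lt1 hq; linarith
  field_simp

lemma ev_ng {q : ℝ} (hq : 1 < q) (c : ℕ → Bool) : ev q (ng c) = 1 / (q - 1) - ev q c := by
  have h1 : ev q (ng c) + ev q c = 1 / (q - 1) := by
    rw [← ev_ones hq]
    unfold ev
    rw [← (summ hq (ng c)).tsum_add (summ hq c)]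
    refine tsum_congr fun i => ?_
    unfold ng
    rw [bt_not, bt_true]
    ring
  linarith

lemma ev_le {q : ℝ} (hq : 1 < q) (c : ℕ → Bool) : ev q c ≤ 1 / (q - 1) := by
  have := ev_nonneg hq (ng c)
  rw [ev_ng hq] at this
  linarith

lemma ev_zero (q : ℝ) : ev q (fun _ => false) = 0 := by
  unfold ev; simp [bt_false]

lemma ps_nonneg {q : ℝ} (hq : 1 < q) (c : ℕ → Bool) (n : ℕ) : 0 ≤ ps q c n :=
  Finset.sum_nonneg fun _ _ => mul_nonneg (bt_nonneg _) (pow_nonneg (inv_pos1 hq).le _)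

lemma ps_succ (q : ℝ) (c : ℕ → Bool) (n : ℕ) :
    ps q c (n + 1) = ps q c n + bt (c n) * (q⁻¹) ^ (n + 1) := by
  unfold ps; rw [Finset.sum_range_succ]

lemma ps_congr {q : ℝ} {c d : ℕ → Bool} {n : ℕ} (h : Ag n c d) : ps q c n = ps q d n := by
  unfold ps
  refine Finset.sum_congr rfl fun i hi => ?_
  rw [h i (Finset.mem_range.1 hi)]

lemma ps_le_ev {q : ℝ} (hq : 1 < q) (c : ℕ → Bool) (n : ℕ) : ps q c n ≤ ev q c := by
  rw [ev_split hq c n]
  have := mul_nonneg (pow_nonneg (inv_pos1 hq).le n) (ev_nonneg hq (sh n c))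
  linarith

lemma Ag.mono {m n : ℕ} {c d : ℕ → Bool} (h : Ag n c d) (hm : m ≤ n) : Ag m c d :=
  fun i hi => h i (lt_of_lt_of_le hi hm)

lemma Ag.symm {n : ℕ} {c d : ℕ → Bool} (h : Ag n c d) : Ag n d c := fun i hi => (h i hi).symm

lemma Ag.trans {n : ℕ} {c d e : ℕ → Bool} (h : Ag n c d) (h' : Ag n d e) : Ag n c e :=
  fun i hi => (h i hi).trans (h' i hi)

lemma first_diff {c d : ℕ → Bool} (h : c ≠ d) : ∃ n, Ag n c d ∧ c n ≠ d n := by
  have h1 : ∃ n, c n ≠ d n := by
    by_contra hc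
    push Not at hc
    exact h (funext hc)
  classical
  exact ⟨Nat.find h1, fun i hi => by
    have := Nat.find_min h1 hi
    push Not at this
    exact this, Nat.find_spec h1⟩

/-- closeness from agreement -/
lemma ev_close {q : ℝ} (hq : 1 < q) {c d : ℕ → Bool} {n : ℕ} (h : Ag n c d) :
    |ev q c - ev q d| ≤ (q⁻¹) ^ n * (1 / (q - 1)) := by
  rw [ev_split hq c n, ev_split hq d n, ps_congr h]
  have h1 := ev_nonneg hq (sh n c)
  have h2 := ev_nonneg hq (sh n d)
  have h3 := ev_le hq (sh n c)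
  have h4 := ev_le hq (sh n d)
  have h5 : ps q d n + q⁻¹ ^ n * ev q (sh n c) - (ps q d n + q⁻¹ ^ n * ev q (sh n d))
      = q⁻¹ ^ n * (ev q (sh n c) - ev q (sh n d)) := by ring
  rw [h5, abs_mul, abs_of_nonneg (pow_nonneg (inv_pos1 hq).le n)]
  refine mul_le_mul_of_nonneg_left ?_ (pow_nonneg (inv_pos1 hq).le n)
  rw [abs_le]
  constructor <;> linarith

/-- comparison at the first difference -/
lemma ev_diff {q : ℝ} (hq : 1 < q) {c d : ℕ → Bool} {k : ℕ} (h : Ag k c d) (hc : c k = false)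
    (hd : d k = true) : ev q d - ev q c =
      (q⁻¹) ^ (k + 1) * (1 + ev q (sh (k + 1) d) - ev q (sh (k + 1) c)) := by
  rw [ev_split hq c (k + 1), ev_split hq d (k + 1), ps_succ, ps_succ, ps_congr h, hc, hd,
    bt_true, bt_false]
  ring

lemma sh_sh (m n : ℕ) (c : ℕ → Bool) : sh m (sh n c) = sh (n + m) c := by
  funext i; unfold sh; congr 1; ring

lemma sh_zero (c : ℕ → Bool) : sh 0 c = c := by
  funext i; unfold sh; simp

lemma g_false {c : ℕ → Bool} {n : ℕ} (h : c n = false) : g c n = sh (n + 1) c := by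
  funext i; unfold g sh; rw [h]; simp

lemma g_true {c : ℕ → Bool} {n : ℕ} (h : c n = true) : g c n = ng (sh (n + 1) c) := by
  funext i; unfold g sh ng; rw [h]; simp

lemma sh_g_false {c : ℕ → Bool} {n j : ℕ} (h : g c n j = false) :
    sh (j + 1) (g c n) = g c (n + 1 + j) := by
  have h1 : c (n + 1 + j) = c n := by
    unfold g at h
    cases h1 : c n <;> cases h2 : c (n + 1 + j) <;> simp_all
  funext i
  unfold sh g
  rw [h1]
  congr 2
  ring

lemma sh_g_true {c : ℕ → Bool} {n j : ℕ} (h : g c n j = true) :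
    sh (j + 1) (g c n) = ng (g c (n + 1 + j)) := by
  have h1 : c (n + 1 + j) = !(c n) := by
    unfold g at h
    cases h1 : c n <;> cases h2 : c (n + 1 + j) <;> simp_all
  funext i
  show xor (c n) (c (n + 1 + (j + 1 + i))) = !(xor (c (n + 1 + j)) (c (n + 1 + j + 1 + i)))
  rw [h1, show n + 1 + (j + 1 + i) = n + 1 + j + 1 + i by ring]
  cases c n <;> cases c (n + 1 + j + 1 + i) <;> rfl

lemma g_sh (c : ℕ → Bool) (m n : ℕ) : g (sh m c) n = g c (m + n) := by
  funext i; unfold g sh; congr 2; ring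

lemma g_ng (c : ℕ → Bool) (n : ℕ) : g (ng c) n = g c n := by
  funext i; unfold g ng
  cases c n <;> cases c (n + 1 + i) <;> rfl

lemma g_g (c : ℕ → Bool) (m n : ℕ) : g (g c m) n = g c (m + 1 + n) := by
  funext i; unfold g
  rw [show m + 1 + (n + 1 + i) = m + 1 + n + 1 + i by ring]
  cases c m <;> cases c (m + 1 + n) <;> cases c (m + 1 + n + 1 + i) <;> rfl

/-- value of the tail after a zero -/
lemma ev_sh_false {q : ℝ} {c : ℕ → Bool} {n : ℕ} (h : c n = false) :
    ev q (sh (n + 1) c) = ev q (g c n) := by rw [g_false h]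

/-- value of the tail after a one -/
lemma ev_sh_true {q : ℝ} (hq : 1 < q) {c : ℕ → Bool} {n : ℕ} (h : c n = true) :
    ev q (sh (n + 1) c) = 1 / (q - 1) - ev q (g c n) := by
  rw [g_true h, ev_ng hq]; ring

lemma wAdm_of_Adm {q : ℝ} {c : ℕ → Bool} (h : Adm q c) : wAdm q c := fun n => (h n).le

lemma Adm.g {q : ℝ} {c : ℕ → Bool} (h : Adm q c) (n : ℕ) : Adm q (g c n) := fun k => by
  rw [g_g]; exact h _

lemma wAdm.g {q : ℝ} {c : ℕ → Bool} (h : wAdm q c) (n : ℕ) : wAdm q (g c n) := fun k => by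
  rw [g_g]; exact h _

/-- the lexicographic order implies the order of values -/
lemma lt_of_lex {q : ℝ} (hq : 1 < q) (hq2 : q < 2) {c d : ℕ → Bool} {k : ℕ} (h : Ag k c d)
    (hc : c k = false) (hd : d k = true) (h1 : wAdm q c) (h2 : wAdm q d) :
    ev q c < ev q d := by
  have h3 := ev_diff hq h hc hd
  rw [ev_sh_false hc, ev_sh_true hq hd] at h3
  have h4 := h1 k
  have h5 := h2 k
  have h6 : 1 < 1 / (q - 1) := by
    rw [lt_div_iff₀ (by linarith)]; linarith
  have h7 : 0 < (q⁻¹) ^ (k + 1) * (1 + (1 / (q - 1) - ev q (Q264.Uni.g d k))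
      - ev q (Q264.Uni.g c k)) :=
    mul_pos (pow_pos (inv_pos1 hq) _) (by linarith)
  linarith

/-- a weakly admissible tail with value at most one against a sequence of value one -/
lemma lex_of_lt {q : ℝ} (hq : 1 < q) (hq2 : q < 2) {c a : ℕ → Bool} (hne : c ≠ a)
    (h1 : wAdm q c) (h2 : wAdm q a) (h : ev q c ≤ ev q a) :
    ∃ k, Ag k c a ∧ c k = false ∧ a k = true := by
  obtain ⟨k, hk, hk2⟩ := first_diff hne
  refine ⟨k, hk, ?_⟩
  cases hc : c k <;> cases ha : a k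
  · rw [hc, ha] at hk2; exact absurd rfl hk2
  · exact ⟨rfl, rfl⟩
  · have := lt_of_lex hq hq2 hk.symm ha hc h2 h1
    linarith
  · rw [hc, ha] at hk2; exact absurd rfl hk2

end Q264.Uni
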