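import Pool.Agent.Q264.Uni9

/-!
The Cantor set inside the level set.
-/

set_option autoImplicit false

namespace Q264.Uni

open Filter Topology

/-- the prefixes which we use -/
structure Pre (Q : ℝ) (a : ℕ → Bool) (m : ℕ) (P : ℕ) (p : ℕ → Bool) : Prop where
  P1 : 1 ≤ P
  last : p (P - 1) = true
  first : p 0 = true
  sl : ∀ n : ℕ → ℕ, StrictMono n → ∀ i, i < P → SL (g (splice P p (tl a m n)) i) a
  excl : ∀ n : ℕ → ℕ, StrictMono n → Adm Q (splice P p (tl a m n)) → ∀ (q : ℝ) (d : ℕ → Bool),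
    1 < q → q < Q → Adm q d → ev q d = ev Q (splice P p (tl a m n)) → ∀ k, k < P →
    Ag k d (splice P p (tl a m n)) → splice P p (tl a m n) k = true → d k = false → False

variable {Q : ℝ} {a : ℕ → Bool} {m P : ℕ} {p : ℕ → Bool}

/-- the size condition -/
def Size (Q : ℝ) (m P : ℕ) (N : ℕ) : Prop :=
  P ≤ 2 * (m * 2 ^ N) ∧ 8 * (Q⁻¹) ^ (2 * (m * 2 ^ N) - P) / (Q - 1) ^ 3 ≤ 1 / (Q - 1) - 1

lemma size_eventually (hQ : 1 < Q) (hQ2 : Q < 2) (hm : 1 ≤ m) (P : ℕ) :
    ∃ N, ∀ k, N ≤ k → Size Q m P k := by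
  have hlim : Tendsto (fun n : ℕ => 8 * (Q⁻¹) ^ n / (Q - 1) ^ 3) atTop
      (𝓝 (8 * 0 / (Q - 1) ^ 3)) :=
    ((tendsto_pow_atTop_nhds_zero_of_lt_one (inv_pos1 hQ).le (inv_lt1 hQ)).const_mul _).div_const _
  rw [mul_zero, zero_div] at hlim
  have h1 : 0 < 1 / (Q - 1) - 1 := by
    have : 1 < 1 / (Q - 1) := by
      rw [lt_div_iff₀ (by linarith)]; linarith
    linarith
  obtain ⟨N, hN⟩ := eventually_atTop.1 (hlim.eventually (gt_mem_nhds h1))
  refine ⟨N + P, fun k hk => ?_⟩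
  have h2 : k < m * 2 ^ k := lt_level hm k
  exact ⟨by omega, (hN _ (by omega)).le⟩

lemma cc_SL (D : Dat Q a m) (hp : Pre Q a m P p) {n : ℕ → ℕ} (hn : StrictMono n) (i : ℕ) :
    SL (g (splice P p (tl a m n)) i) a := by
  rcases Nat.lt_or_ge i P with h | h
  · exact hp.sl n hn i h
  · have h1 : g (splice P p (tl a m n)) i = g (tl a m n) (i - P) := by
      rw [← sh_splice P p (tl a m n), g_sh, sh_splice]
      congr 1; omega
    rw [h1]
    exact tl_SL D.good.1 D.lex D.good D.gt _ n hn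

lemma cc_adm (D : Dat Q a m) (hp : Pre Q a m P p) {n : ℕ → ℕ} (hn : StrictMono n) :
    Adm Q (splice P p (tl a m n)) :=
  adm_of_lexB_ne D.Q1 (fun i _ hA hg => (cc_SL D hp hn i).lex hA hg) D.val.le
    (fun i => (cc_SL D hp hn i).ne) (GT_inf1 D.good.1 D.gt)

lemma cc_first (hp : Pre Q a m P p) (n : ℕ → ℕ) : splice P p (tl a m n) 0 = true := by
  rw [splice_Ag P p _ 0 (by have := hp.P1; omega)]
  exact hp.first

/-- the points of the Cantor set have smallest univoque base `Q` -/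
lemma cc_least (D : Dat Q a m) (hp : Pre Q a m P p) {n : ℕ → ℕ} (hn : StrictMono n)
    (hsz : Size Q m P (n 0)) : IsLeast (UU (ev Q (splice P p (tl a m n)))) Q := by
  have hA := cc_adm D hp hn
  have hc0 := cc_first (a := a) hp n
  set c := splice P p (tl a m n) with hc
  refine ⟨⟨D.Q1, D.Q2.le, c, hA, rfl⟩, fun q hq => ?_⟩
  by_contra hcon
  push Not at hcon
  obtain ⟨hq1, _, d, hd, hev⟩ := hq
  have hlt : ev Q c < ev q c := ev_strictAnti hq1 hcon hc0
  have hne : d ≠ c := by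
    intro h; rw [h] at hev; linarith
  obtain ⟨k, hk, hk2⟩ := first_diff hne
  have hdQ : Adm Q d := adm_mono hq1 hcon (wAdm_of_Adm hd)
  have hdk : d k = false := by
    by_contra h1
    have h1' : d k = true := by simpa using h1
    have h2 : c k = false := by
      rw [h1'] at hk2
      revert hk2
      cases c k <;> decide
    have h3 := lt_of_lex D.Q1 D.Q2 hk.symm h2 h1' (wAdm_of_Adm hA) (wAdm_of_Adm hdQ)
    have h4 := ev_anti hq1 hcon.le d
    linarith
  have hck : c k = true := by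
    rw [hdk] at hk2
    revert hk2
    cases c k <;> decide
  rcases Nat.lt_or_ge k P with h | h
  · exact hp.excl n hn hA q d hq1 hcon hd hev k h hk hck hdk
  · exact excl D hn hp.P1 (by
      rw [splice_Ag P p _ (P - 1) (by have := hp.P1; omega)]; exact hp.last)
      (sh_splice P p _) hc0 hA hsz.1 hsz.2 hq1 hcon hd hev hk hck hdk h

/-! ### the order and the distances -/

lemma tl_cmp (hm : 1 ≤ m) (hT : GT a m) {n n' : ℕ → ℕ} (h : n 0 < n' 0) :
    ∃ k, Ag k (tl a m n') (tl a m n) ∧ tl a m n' k = false ∧ tl a m n k = true := by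
  have hD := hT (n 0)
  have hM := level_pos hm (n 0)
  have hM1 := level_lt hm h
  have ht' : ∀ i, i < m * 2 ^ (n' 0) → tl a m n' i = !(a i) := fun i hi => tl_1 hi
  set M := m * 2 ^ (n 0) with hMd
  have ht1 : ∀ i, i < M → tl a m n i = !(a i) := fun i hi => tl_1 hi
  have ht2 : ∀ i, i < M → tl a m n (M + i) = a i := fun i hi => tl_2 hi
  refine ⟨2 * M - 1, ?_, ?_, ?_⟩
  · intro i hi
    rw [ht' i (by omega)]
    rcases Nat.lt_or_ge i M with h1 | h1
    · rw [ht1 i h1]
    · obtain ⟨i', hi'⟩ : ∃ i', i = M + i' := ⟨i - M, by omega⟩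
      rw [hi', ht2 i' (by omega), hD.2.2 i' (by omega)]
      simp
  · rw [ht' _ (by omega), hD.2.1]; rfl
  · rw [show 2 * M - 1 = M + (M - 1) by omega, ht2 _ (by omega), hD.1]

lemma off_succ' (m : ℕ) (n : ℕ → ℕ) (j : ℕ) :
    off m n (j + 1) = 2 * (m * 2 ^ (n 0)) + off m (fun i => n (i + 1)) j := by
  unfold off
  rw [Finset.sum_range_succ', add_comm]

lemma tl_agree (hm : 1 ≤ m) : ∀ (j : ℕ) (n n' : ℕ → ℕ), (∀ i, i < j → n i = n' i) →
    Ag (off m n j) (tl a m n) (tl a m n') := by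
  intro j
  induction j with
  | zero =>
    intro n n' _ i hi
    exact absurd hi (Nat.not_lt_zero _)
  | succ j ih =>
    intro n n' h i hi
    have h0 : n 0 = n' 0 := h 0 (by omega)
    rw [off_succ'] at hi
    rcases Nat.lt_or_ge i (m * 2 ^ (n 0)) with h1 | h1
    · rw [tl_1 h1, tl_1 (by rw [← h0]; exact h1)]
    rcases Nat.lt_or_ge i (2 * (m * 2 ^ (n 0))) with h2 | h2
    · obtain ⟨i', hi'⟩ : ∃ i', i = m * 2 ^ (n 0) + i' := ⟨i - m * 2 ^ (n 0), by omega⟩
      rw [hi', tl_2 (by omega), h0, tl_2 (by rw [← h0]; omega)]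
    · obtain ⟨i', hi'⟩ : ∃ i', i = 2 * (m * 2 ^ (n 0)) + i' :=
        ⟨i - 2 * (m * 2 ^ (n 0)), by omega⟩
      rw [hi', tl_3 hm, h0, tl_3 hm]
      exact ih _ _ (fun l hl => h (l + 1) (by omega)) i' (by omega)

lemma off_congr {n n' : ℕ → ℕ} {j : ℕ} (h : ∀ i, i < j → n i = n' i) : off m n j = off m n' j := by
  unfold off
  refine Finset.sum_congr rfl fun i hi => ?_
  rw [h i (Finset.mem_range.1 hi)]

/-- the points of the Cantor set -/
noncomputable def Fv (Q : ℝ) (a : ℕ → Bool) (m P : ℕ) (p : ℕ → Bool) (n : ℕ → ℕ) : ℝ :=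
  ev Q (splice P p (tl a m n))

lemma Fv_lt (D : Dat Q a m) (hp : Pre Q a m P p) {n n' : ℕ → ℕ} (hn : StrictMono n)
    (hn' : StrictMono n') {j : ℕ} (h : ∀ i, i < j → n i = n' i) (hj : n j < n' j) :
    Fv Q a m P p n' < Fv Q a m P p n := by
  have hm := D.good.1
  obtain ⟨k, hk1, hk2, hk3⟩ := tl_cmp (a := a) hm D.gt (n := fun i => n (j + i))
    (n' := fun i => n' (j + i)) (by simpa using hj)
  have h1 := sh_tl (a := a) hm n j
  have h2 := sh_tl (a := a) hm n' j
  rw [← off_congr h] at h2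
  have hA := tl_agree (a := a) hm j n n' h
  have e1 : ∀ i, tl a m n (off m n j + i) = tl a m (fun i => n (j + i)) i := fun i =>
    congrFun h1 i
  have e2 : ∀ i, tl a m n' (off m n j + i) = tl a m (fun i => n' (j + i)) i := fun i =>
    congrFun h2 i
  refine lt_of_lex D.Q1 D.Q2 (k := P + (off m n j + k)) ?_ ?_ ?_
    (wAdm_of_Adm (cc_adm D hp hn')) (wAdm_of_Adm (cc_adm D hp hn))
  · intro i hi
    rcases Nat.lt_or_ge i P with h3 | h3
    · rw [splice_Ag P p _ i h3, splice_Ag P p _ i h3]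
    · obtain ⟨i', hi'⟩ : ∃ i', i = P + i' := ⟨i - P, by omega⟩
      rw [hi', splice_ge, splice_ge]
      rcases Nat.lt_or_ge i' (off m n j) with h4 | h4
      · exact (hA i' h4).symm
      · obtain ⟨l, hl⟩ : ∃ l, i' = off m n j + l := ⟨i' - off m n j, by omega⟩
        rw [hl, e1, e2]
        exact hk1 l (by omega)
  · rw [splice_ge, e2]; exact hk2
  · rw [splice_ge, e1]; exact hk3

lemma Fv_close (hQ : 1 < Q) (hm : 1 ≤ m) {n n' : ℕ → ℕ} {j : ℕ}
    (h : ∀ i, i < j → n i = n' i) :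
    |Fv Q a m P p n - Fv Q a m P p n'| ≤ (Q⁻¹) ^ j * (1 / (Q - 1)) := by
  refine ev_close hQ fun i hi => ?_
  rcases Nat.lt_or_ge i P with h3 | h3
  · rw [splice_Ag P p _ i h3, splice_Ag P p _ i h3]
  · obtain ⟨i', hi'⟩ : ∃ i', i = P + i' := ⟨i - P, by omega⟩
    rw [hi', splice_ge, splice_ge]
    exact tl_agree hm j n n' h i' (by have := le_off hm n j; omega)

/-- the level set, defined with the least element -/
def Lv (Q : ℝ) : Set ℝ := {x | 0 < x ∧ IsLeast (UU x) Q}

lemma Fv_mem (D : Dat Q a m) (hp : Pre Q a m P p) {n : ℕ → ℕ} (hn : StrictMono n)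
    (hsz : Size Q m P (n 0)) : Fv Q a m P p n ∈ Lv Q :=
  ⟨ev_pos D.Q1 (cc_first (a := a) hp n), cc_least D hp hn hsz⟩

/-- strictly increasing sequences from binary sequences -/
def sq (N : ℕ) (b : ℕ → Bool) (i : ℕ) : ℕ := N + 2 * i + (if b i then 1 else 0)

lemma sq_mono (N : ℕ) (b : ℕ → Bool) : StrictMono (sq N b) := by
  refine strictMono_nat_of_lt_succ fun i => ?_
  unfold sq
  split_ifs <;> omega

lemma Fv_sq_inj (D : Dat Q a m) (hp : Pre Q a m P p) (N : ℕ) :
    Function.Injective (fun b => Fv Q a m P p (sq N b)) := by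
  intro b b' hbb
  by_contra hne
  obtain ⟨j, hj, hj2⟩ := first_diff hne
  have h1 : ∀ i, i < j → sq N b i = sq N b' i := fun i hi => by
    unfold sq; rw [hj i hi]
  cases hb : b j
  · have hb' : b' j = true := by
      rw [hb] at hj2
      revert hj2
      cases b' j <;> decide
    have := Fv_lt D hp (sq_mono N b) (sq_mono N b') h1 (by unfold sq; rw [hb, hb']; simp)
    simp only at hbb
    linarith
  · have hb' : b' j = false := by
      rw [hb] at hj2
      revert hj2
      cases b' j <;> decide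
    have := Fv_lt D hp (sq_mono N b') (sq_mono N b) (fun i hi => (h1 i hi).symm)
      (by unfold sq; rw [hb, hb']; simp)
    simp only at hbb
    linarith

lemma not_countable_range {f : (ℕ → Bool) → ℝ} (hf : Function.Injective f) :
    ¬ (Set.range f).Countable := by
  intro h
  have h1 : Countable (Set.range f) := h.to_subtype
  have h2 : Countable (ℕ → Bool) :=
    Function.Injective.countable (f := fun b => (⟨f b, b, rfl⟩ : Set.range f)) (by
      intro x y hxy
      exact hf (Subtype.ext_iff.1 hxy))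
  obtain ⟨e, he⟩ := Countable.exists_injective_nat (ℕ → Bool)
  classical
  refine Function.cantor_injective (α := ℕ) (fun s => e fun n => decide (n ∈ s)) ?_
  intro s t hst
  have h3 := he hst
  ext n
  have h4 := congrFun h3 n
  simpa using h4

/-- every point of the family is an accumulation point from the left -/
lemma acc_left (D : Dat Q a m) (hp : Pre Q a m P p) {N : ℕ} (hN : ∀ k, N ≤ k → Size Q m P k)
    {n : ℕ → ℕ} (hn : StrictMono n) (hn0 : N ≤ n 0) {ε : ℝ} (hε : 0 < ε) :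
    ∃ y ∈ Lv Q, Fv Q a m P p n - ε < y ∧ y < Fv Q a m P p n := by
  have hQ := D.Q1
  have hlim : Tendsto (fun n : ℕ => (Q⁻¹) ^ n * (1 / (Q - 1))) atTop (𝓝 (0 * (1 / (Q - 1)))) :=
    (tendsto_pow_atTop_nhds_zero_of_lt_one (inv_pos1 hQ).le (inv_lt1 hQ)).mul_const _
  rw [zero_mul] at hlim
  obtain ⟨j, hj⟩ := (hlim.eventually (gt_mem_nhds hε)).exists
  let n' : ℕ → ℕ := fun i => if i < j then n i else n i + 1
  have hn' : StrictMono n' := by
    refine strictMono_nat_of_lt_succ fun i => ?_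
    have := hn (Nat.lt_succ_self i)
    show (if i < j then n i else n i + 1) < (if i + 1 < j then n (i + 1) else n (i + 1) + 1)
    have h2 : n i < n (i + 1) := this
    split_ifs <;> omega
  have h1 : ∀ i, i < j → n i = n' i := fun i hi => by
    show n i = if i < j then n i else n i + 1
    rw [if_pos hi]
  have h2 : n j < n' j := by
    show n j < if j < j then n j else n j + 1
    rw [if_neg (lt_irrefl _)]; omega
  have h3 : N ≤ n' 0 := by
    show N ≤ if 0 < j then n 0 else n 0 + 1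
    split_ifs <;> omega
  refine ⟨Fv Q a m P p n', Fv_mem D hp hn' (hN _ h3), ?_, Fv_lt D hp hn hn' h1 h2⟩
  have h4 := Fv_close (Q := Q) (a := a) (P := P) (p := p) hQ D.good.1 h1
  rw [abs_le] at h4
  linarith [h4.2]

/-- a point of the family which is an accumulation point from the right -/
lemma acc_right (D : Dat Q a m) (hp : Pre Q a m P p) {N : ℕ} (hN : ∀ k, N ≤ k → Size Q m P k)
    {ε : ℝ} (hε : 0 < ε) :
    ∃ y ∈ Lv Q, Fv Q a m P p (sq N fun _ => true) < y ∧
      y < Fv Q a m P p (sq N fun _ => true) + ε := by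
  have hQ := D.Q1
  have hlim : Tendsto (fun n : ℕ => (Q⁻¹) ^ n * (1 / (Q - 1))) atTop (𝓝 (0 * (1 / (Q - 1)))) :=
    (tendsto_pow_atTop_nhds_zero_of_lt_one (inv_pos1 hQ).le (inv_lt1 hQ)).mul_const _
  rw [zero_mul] at hlim
  obtain ⟨j, hj⟩ := (hlim.eventually (gt_mem_nhds hε)).exists
  let b : ℕ → Bool := fun i => decide (i < j)
  have h1 : ∀ i, i < j → sq N b i = sq N (fun _ => true) i := fun i hi => by
    unfold sq
    have : b i = true := by simp [b, hi]
    rw [this]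
  have h2 : sq N b j < sq N (fun _ => true) j := by
    unfold sq
    have : b j = false := by simp [b]
    rw [this]; simp
  have h3 : N ≤ sq N b 0 := by unfold sq; omega
  refine ⟨Fv Q a m P p (sq N b), Fv_mem D hp (sq_mono N b) (hN _ h3),
    Fv_lt D hp (sq_mono N b) (sq_mono N _) h1 h2, ?_⟩
  have h4 := Fv_close (Q := Q) (a := a) (P := P) (p := p) hQ D.good.1 h1
  rw [abs_le] at h4
  linarith [h4.2]

/-- summary -/
theorem cantor_summary (D : Dat Q a m) (hp : Pre Q a m P p) :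
    ∃ S : Set ℝ, S ⊆ Lv Q ∧ ¬ S.Countable ∧
      (∀ x ∈ S, ∀ ε > 0, ∃ y ∈ Lv Q, x - ε < y ∧ y < x) ∧
      ∃ x ∈ S, ∀ ε > 0, ∃ y ∈ Lv Q, x < y ∧ y < x + ε := by
  obtain ⟨N, hN⟩ := size_eventually D.Q1 D.Q2 D.good.1 P
  refine ⟨Set.range (fun b => Fv Q a m P p (sq N b)), ?_,
    not_countable_range (Fv_sq_inj D hp N), ?_, ?_⟩
  · rintro x ⟨b, rfl⟩
    exact Fv_mem D hp (sq_mono N b) (hN _ (by unfold sq; omega))
  · rintro x ⟨b, rfl⟩ ε hε
    exact acc_left D hp hN (sq_mono N b) (by unfold sq; omega) hε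
  · exact ⟨_, ⟨fun _ => true, rfl⟩, fun ε hε => acc_right D hp hN hε⟩

end Q264.Uni
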