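import Pool.Agent.Q264.Uni10

/-!
Prefixes and numerical bounds.
-/

set_option autoImplicit false

namespace Q264.Uni

open Filter Topology

lemma ev_one {q : ℝ} (hq : 1 < q) (c : ℕ → Bool) : ev q c = q⁻¹ * (bt (c 0) + ev q (sh 1 c)) := by
  have h := ev_split hq c 1
  simp [ps] at h
  rw [h]; ring

lemma lemZ {q : ℝ} (hq : 1 < q) {d : ℕ → Bool} (hd : Adm q d) (h0 : d 0 = false)
    (hx : 0 < ev q d) (hx2 : 1 ≤ (ev q d) ^ 2 + ev q d) : False := by
  have h1 := ev_one hq d
  rw [h0, bt_false, zero_add, ev_sh_false h0] at h1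
  have h2 := hd 0
  have hs := inv_pos1 hq
  have h3 : ev q d < q⁻¹ := by rw [h1]; nlinarith
  have h4 : 1 < q⁻¹ ^ 2 + q⁻¹ := by nlinarith
  have hex := exists_true_of_pos hx
  classical
  have hj := Nat.find_spec hex
  have hmin := fun {i} (h : i < Nat.find hex) => Nat.find_min hex h
  set j := Nat.find hex with hjd
  have hj0 : j ≠ 0 := by
    intro h
    rw [h, h0] at hj
    exact Bool.noConfusion hj
  obtain ⟨i, hi⟩ : ∃ i, j = i + 1 := ⟨j - 1, by omega⟩
  have hdi : d i = false := by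
    have := hmin (i := i) (by omega)
    simpa using this
  have h5 := hd i
  rw [g_false hdi, ← hi] at h5
  have h6 := ev_one hq (sh j d)
  have h7 : sh j d 0 = true := by unfold sh; rw [Nat.add_zero]; exact hj
  rw [h7, bt_true, sh_sh, ev_sh_true hq hj] at h6
  have h8 := hd j
  have hq1 : 0 < q - 1 := by linarith
  have h9 : q⁻¹ * (1 / (q - 1)) < 1 := by
    have : q⁻¹ * (1 / (q - 1)) < ev q (sh j d) := by
      rw [h6]
      exact mul_lt_mul_of_pos_left (by linarith) hs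
    linarith
  have h10 : 1 < q * (q - 1) := by
    rw [one_div, ← mul_inv] at h9
    exact (inv_lt_one₀ (by positivity)).1 h9
  have h11 : q ^ 2 < 1 + q := by
    have h12 : q ^ 2 * (q⁻¹ ^ 2 + q⁻¹) = 1 + q := by
      field_simp
    have : q ^ 2 * 1 < q ^ 2 * (q⁻¹ ^ 2 + q⁻¹) := mul_lt_mul_of_pos_left h4 (by positivity)
    rw [h12] at this
    linarith
  nlinarith

/-- the prefix `1` -/
lemma pre1 {Q : ℝ} {a : ℕ → Bool} {m : ℕ} (D : Dat Q a m)
    (hy : (Q * (Q - 1)) ^ 2 ≤ Q * (Q - 1) + 1) : Pre Q a m 1 (fun _ => true) where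
  P1 := le_rfl
  last := rfl
  first := rfl
  sl := by
    intro n hn i hi
    have h0 : i = 0 := by omega
    subst h0
    have h1 : splice 1 (fun _ => true) (tl a m n) 0 = true := rfl
    rw [g_true h1, sh_splice]
    exact tl_ng_SL D.good.1 D.gt n
  excl := by
    intro n hn hA q d hq hqQ hd hev k hk hkA hck hdk
    have h0 : k = 0 := by omega
    subst h0
    set c := splice 1 (fun _ => true) (tl a m n) with hc
    have hQ := D.Q1
    have hQ1 : 0 < Q - 1 := by linarith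
    have h1 := ev_one hQ c
    rw [hck, bt_true, ev_sh_true hQ hck] at h1
    have h2 := hA 0
    have hs := inv_pos1 hQ
    have h3 : (Q * (Q - 1))⁻¹ < ev Q c := by
      rw [h1, mul_inv, ← one_div (Q - 1)]
      exact mul_lt_mul_of_pos_left (by linarith) hs
    have hY : 0 < Q * (Q - 1) := by positivity
    have hYi : 0 < (Q * (Q - 1))⁻¹ := by positivity
    have h4 : 1 ≤ ((Q * (Q - 1))⁻¹) ^ 2 + (Q * (Q - 1))⁻¹ := by
      have h5 : ((Q * (Q - 1))⁻¹) ^ 2 + (Q * (Q - 1))⁻¹ =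
          (Q * (Q - 1) + 1) / (Q * (Q - 1)) ^ 2 := by
        have hne : Q * (Q - 1) ≠ 0 := hY.ne'
        generalize Q * (Q - 1) = Y at hne
        field_simp
        ring
      rw [h5, le_div_iff₀ (by positivity)]
      linarith
    refine lemZ hq hd hdk (by rw [hev]; linarith) ?_
    rw [hev]
    nlinarith

/-- the prefix `1001` -/
def p4 (i : ℕ) : Bool := decide (i = 0) || decide (i = 3)

lemma lemY {q : ℝ} (hq : 1 < q) {d : ℕ → Bool} (hd : Adm q d) (h0 : d 0 = true)
    (h1 : d 1 = false) (h2 : d 2 = false) (h3 : d 3 = false)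
    (hx2 : 1 ≤ (ev q d) ^ 2 + ev q d) : False := by
  have hs := inv_pos1 hq
  have hq1 : 0 < q - 1 := by linarith
  have hq0 : 0 < q := by linarith
  have e1 := ev_one hq d
  rw [h0, bt_true, ev_sh_true hq h0] at e1
  have e2 := hd 0
  have e3 : q⁻¹ * (1 / (q - 1)) < ev q d := by
    rw [e1]
    exact mul_lt_mul_of_pos_left (by linarith) hs
  have e4 := ev_split hq d 4
  rw [ev_sh_false h3] at e4
  have e5 : ps q d 4 = q⁻¹ := by
    simp [ps, Finset.sum_range_succ, h0, h1, h2, h3, bt_true, bt_false]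
  rw [e5] at e4
  have e6 := hd 3
  have hs4 : 0 < q⁻¹ ^ 4 := by positivity
  have e7 : ev q d < q⁻¹ + q⁻¹ ^ 4 := by rw [e4]; nlinarith
  have e8 : q⁻¹ * (1 / (q - 1)) < q⁻¹ + q⁻¹ ^ 4 := by linarith
  have e9 : q ^ 3 < (q - 1) * (q ^ 3 + 1) := by
    have h5 : q⁻¹ + q⁻¹ ^ 4 = (q ^ 3 + 1) / q ^ 4 := by
      field_simp
    have h6 : q⁻¹ * (1 / (q - 1)) = 1 / (q * (q - 1)) := by
      field_simp
    rw [h5, h6, div_lt_div_iff₀ (by positivity) (by positivity)] at e8
    have h7 : 1 * q ^ 4 = q * q ^ 3 := by ring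
    have h8 : (q ^ 3 + 1) * (q * (q - 1)) = q * ((q - 1) * (q ^ 3 + 1)) := by ring
    rw [h7, h8] at e8
    exact lt_of_mul_lt_mul_left e8 hq0.le
  have e10 : (q⁻¹ + q⁻¹ ^ 4) ^ 2 + (q⁻¹ + q⁻¹ ^ 4) < 1 := by
    have h5 : (q⁻¹ + q⁻¹ ^ 4) ^ 2 + (q⁻¹ + q⁻¹ ^ 4) =
        ((q ^ 3 + 1) ^ 2 + (q ^ 3 + 1) * q ^ 4) / q ^ 8 := by
      field_simp
    rw [h5, div_lt_one (by positivity)]
    have h6 : 0 < q ^ 4 - 2 * q ^ 3 + q - 1 := by nlinarith
    have h7 : 0 < (q ^ 4 - 2 * q ^ 3 + q - 1) * (q ^ 4 + q ^ 3 + q ^ 2 + q + 1) :=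
      mul_pos h6 (by positivity)
    nlinarith
  have hx : 0 < ev q d := lt_trans (by positivity) e3
  nlinarith

lemma pre4 {Q : ℝ} {a : ℕ → Bool} {m : ℕ} (D : Dat Q a m) (ha0 : a 0 = true) (ha1 : a 1 = true)
    (ha2 : a 2 = true)
    (hy : 1 ≤ (Q⁻¹ + Q⁻¹ ^ 4 * (1 / (Q - 1))) ^ 2 + (Q⁻¹ + Q⁻¹ ^ 4 * (1 / (Q - 1)))) :
    Pre Q a m 4 p4 where
  P1 := by norm_num
  last := rfl
  first := rfl
  sl := by
    intro n hn i hi
    have hc : ∀ j, j < 4 → splice 4 p4 (tl a m n) j = p4 j := fun j hj => splice_Ag 4 p4 _ j hj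
    have hc4 : splice 4 p4 (tl a m n) 4 = false := by
      have := splice_ge 4 p4 (tl a m n) 0
      rw [Nat.add_zero] at this
      rw [this, tl_1 (level_pos D.good.1 _), ha0]; rfl
    have h0 : splice 4 p4 (tl a m n) 0 = true := (hc 0 (by norm_num)).trans rfl
    have h1 : splice 4 p4 (tl a m n) 1 = false := (hc 1 (by norm_num)).trans rfl
    have h2 : splice 4 p4 (tl a m n) 2 = false := (hc 2 (by norm_num)).trans rfl
    have h3 : splice 4 p4 (tl a m n) 3 = true := (hc 3 (by norm_num)).trans rfl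
    interval_cases i
    · refine ⟨2, ?_, ?_, ha2⟩
      · intro j hj
        interval_cases j
        · show xor (splice 4 p4 (tl a m n) 0) (splice 4 p4 (tl a m n) 1) = a 0
          rw [h0, h1, ha0]; rfl
        · show xor (splice 4 p4 (tl a m n) 0) (splice 4 p4 (tl a m n) 2) = a 1
          rw [h0, h2, ha1]; rfl
      · show xor (splice 4 p4 (tl a m n) 0) (splice 4 p4 (tl a m n) 3) = false
        rw [h0, h3]; rfl
    · refine ⟨0, fun j hj => absurd hj (Nat.not_lt_zero _), ?_, ha0⟩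
      show xor (splice 4 p4 (tl a m n) 1) (splice 4 p4 (tl a m n) 2) = false
      rw [h1, h2]; rfl
    · refine ⟨1, ?_, ?_, ha1⟩
      · intro j hj
        interval_cases j
        show xor (splice 4 p4 (tl a m n) 2) (splice 4 p4 (tl a m n) 3) = a 0
        rw [h2, h3, ha0]; rfl
      · show xor (splice 4 p4 (tl a m n) 2) (splice 4 p4 (tl a m n) 4) = false
        rw [h2, hc4]; rfl
    · rw [g_true h3, sh_splice]
      exact tl_ng_SL D.good.1 D.gt n
  excl := by
    intro n hn hA q d hq hqQ hd hev k hk hkA hck hdk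
    have hc : ∀ j, j < 4 → splice 4 p4 (tl a m n) j = p4 j := fun j hj => splice_Ag 4 p4 _ j hj
    set c := splice 4 p4 (tl a m n) with hcdef
    have h0 : c 0 = true := (hc 0 (by norm_num)).trans rfl
    have h1 : c 1 = false := (hc 1 (by norm_num)).trans rfl
    have h2 : c 2 = false := (hc 2 (by norm_num)).trans rfl
    have h3 : c 3 = true := (hc 3 (by norm_num)).trans rfl
    have hQ := D.Q1
    have hQ1 : 0 < Q - 1 := by linarith
    have hs := inv_pos1 hQ
    have e4 := ev_split hQ c 4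
    rw [ev_sh_true hQ h3] at e4
    have e5 : ps Q c 4 = Q⁻¹ + Q⁻¹ ^ 4 := by
      simp [ps, Finset.sum_range_succ, h0, h1, h2, h3, bt_true, bt_false]
    rw [e5] at e4
    have e6 := hA 3
    have e7 : Q⁻¹ + Q⁻¹ ^ 4 * (1 / (Q - 1)) < ev Q c := by
      have := mul_lt_mul_of_pos_left (show 1 / (Q - 1) - 1 < 1 / (Q - 1) - ev Q (g c 3) by
        linarith) (show 0 < Q⁻¹ ^ 4 by positivity)
      rw [e4]
      linarith
    have hf : 0 < Q⁻¹ + Q⁻¹ ^ 4 * (1 / (Q - 1)) := by positivity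
    have hx : 0 < ev Q c := lt_trans hf e7
    have hx2 : 1 ≤ (ev Q c) ^ 2 + ev Q c := by nlinarith
    interval_cases k
    · exact lemZ hq hd hdk (by rw [hev]; exact hx) (by rw [hev]; exact hx2)
    · rw [h1] at hck; exact Bool.noConfusion hck
    · rw [h2] at hck; exact Bool.noConfusion hck
    · exact lemY hq hd ((hkA 0 (by norm_num)).trans h0) ((hkA 1 (by norm_num)).trans h1)
        ((hkA 2 (by norm_num)).trans h2) hdk (by rw [hev]; exact hx2)

/-! ### the Komornik-Loreti constant is less than `1.85` -/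

/-- the sequence `11(01)^∞` -/
def s1 (i : ℕ) : Bool := decide (i = 0) || decide (i % 2 = 1)

lemma s1_ev {q : ℝ} (hq : 1 < q) : ev q s1 = q⁻¹ * (1 + q / (q ^ 2 - 1)) := by
  have h1 := ev_one hq s1
  have h2 : s1 0 = true := rfl
  rw [h2, bt_true] at h1
  have h3 : sh 1 (sh 1 s1) = ng (sh 1 s1) := by
    funext i
    unfold sh ng s1
    rcases Nat.mod_two_eq_zero_or_one i with h | h
    · have e1 : ¬ (1 + (1 + i)) % 2 = 1 := by omega
      have e2 : (1 + i) % 2 = 1 := by omega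
      have e3 : ¬ (1 + (1 + i)) = 0 := by omega
      simp [e1, e2]
    · have e1 : (1 + (1 + i)) % 2 = 1 := by omega
      have e2 : ¬ (1 + i) % 2 = 1 := by omega
      simp [e1, e2]
  have h4 := ev_one hq (sh 1 s1)
  have h5 : sh 1 s1 0 = true := rfl
  rw [h5, bt_true, h3, ev_ng hq] at h4
  have hq1 : 0 < q - 1 := by linarith
  have hq0 : 0 < q := by linarith
  have h6 : ev q (sh 1 s1) = q / (q ^ 2 - 1) := by
    have hq2 : 0 < q ^ 2 - 1 := by nlinarith
    rw [eq_div_iff hq2.ne']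
    field_simp at h4
    nlinarith
  rw [h1, h6]

lemma s1_SL (n : ℕ) : SL (g s1 n) s1 := by
  rcases Nat.eq_zero_or_pos n with h | h
  · subst h
    exact ⟨0, fun j hj => absurd hj (Nat.not_lt_zero _), rfl, rfl⟩
  rcases Nat.mod_two_eq_zero_or_one n with h2 | h2
  · have e0 : s1 n = false := by
      unfold s1
      simp [h2]; omega
    have e1 : s1 (n + 1) = true := by
      unfold s1
      have : (n + 1) % 2 = 1 := by omega
      simp [this]
    have e2 : s1 (n + 1 + 1) = false := by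
      unfold s1
      have : ¬ (n + 1 + 1) % 2 = 1 := by omega
      simp [this]
    refine ⟨1, fun j hj => ?_, ?_, rfl⟩
    · have : j = 0 := by omega
      subst this
      show xor (s1 n) (s1 (n + 1)) = true
      rw [e0, e1]; rfl
    · show xor (s1 n) (s1 (n + 1 + 1)) = false
      rw [e0, e2]; rfl
  · have e0 : s1 n = true := by
      unfold s1
      simp [h2]
    have e1 : s1 (n + 1) = false := by
      unfold s1
      have : ¬ (n + 1) % 2 = 1 := by omega
      simp [this]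
    have e2 : s1 (n + 1 + 1) = true := by
      unfold s1
      have : (n + 1 + 1) % 2 = 1 := by omega
      simp [this]
    refine ⟨1, fun j hj => ?_, ?_, rfl⟩
    · have : j = 0 := by omega
      subst this
      show xor (s1 n) (s1 (n + 1)) = true
      rw [e0, e1]; rfl
    · show xor (s1 n) (s1 (n + 1 + 1)) = false
      rw [e0, e2]; rfl

lemma exists_UU_one : ∃ s, s < 1.85 ∧ s ∈ UU 1 := by
  obtain ⟨s, h1, h2, h3⟩ := ev_ivt (q := 1.7) (r := 1.85) (x := 1) (c := s1) (by norm_num)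
    (by norm_num) (by rw [s1_ev (by norm_num)]; norm_num) (by rw [s1_ev (by norm_num)]; norm_num)
  refine ⟨s, h2, by linarith, by linarith, s1, ?_, h3⟩
  exact adm_of_lexB_ne (by linarith) (fun n _ hA hg => (s1_SL n).lex hA hg) h3.le
    (fun n => (s1_SL n).ne) (fun N => ⟨2 * N + 1, by omega, by
      unfold s1
      have : (2 * N + 1) % 2 = 1 := by omega
      simp [this]⟩)

/-- data from an isolated univoque base -/
lemma dat_of_iso {Q r0 : ℝ} (hr1 : 1 ≤ r0) (hr : r0 < Q) (hQ2 : Q < 2) (hQ : Q ∈ UU 1)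
    (hiso : ∀ s, r0 < s → s < Q → s ∉ UU 1) : ∃ a m, Dat Q a m := by
  obtain ⟨h1, _, a, ha, hev⟩ := hQ
  obtain ⟨m, hm, hT, hL⟩ := iso_GT hr1 hr hQ2 ha hev hiso
  exact ⟨a, m, h1, hQ2, ha, hev, hL, hm, hT⟩

end Q264.Uni
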