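import Pool.Agent.Q264.Uni11

/-!
Existence of the Komornik-Loreti constant, and accumulation points.
-/

set_option autoImplicit false

namespace Q264.Uni

open Filter Topology

lemma ones_lexB : LexB (fun _ => true) (fun _ => true) := fun _ _ _ _ => rfl

lemma Gd_one {a : ℕ → Bool} (h : a 0 = true) : Gd a 1 :=
  ⟨le_rfl, h, fun n hn _ => absurd hn (by omega)⟩

lemma th_one_eq {a : ℕ → Bool} (h : a 0 = true) : th a 1 = th (fun _ => true) 1 := by
  funext i
  induction i using Nat.strong_induction_on with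
  | _ i ih =>
    rcases Nat.eq_zero_or_pos i with h0 | h0
    · rw [h0, th_lt (by norm_num), th_lt (by norm_num), h]
    · obtain ⟨k, j, hj, hjk⟩ := exists_level (m := 1) le_rfl (show 1 ≤ i from h0)
      rw [hj, th_ge le_rfl hjk, th_ge le_rfl hjk, ih j (by omega)]

/-- the first digit of an expansion of one -/
lemma first_one {q : ℝ} (hq : 1 < q) {a : ℕ → Bool} (ha : Adm q a) (h : ev q a = 1) :
    a 0 = true := by
  by_contra h0
  have h0 : a 0 = false := by simpa using h0
  have h1 := ev_one hq a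
  rw [h0, bt_false, zero_add, ev_sh_false h0, h] at h1
  have h2 := ha 0
  have h3 := inv_pos1 hq
  have h4 := inv_lt1 hq
  nlinarith

theorem KL_exists : ∃ Q, IsLeast (UU 1) Q := by
  set τ := th (fun _ => true) 1 with hτ
  have hG : Gd (fun _ : ℕ => true) 1 := Gd_one rfl
  have hT : GT τ 1 := th_GT hG
  have hL : LexB τ τ := GT_lexB le_rfl (th_LW ones_lexB) (th_Gd hG) hT
  have hne : ∀ n, g τ n ≠ τ := fun n => (GT_SL le_rfl (th_LW ones_lexB) (th_Gd hG) hT n).ne
  have hI : Inf1 τ := GT_inf1 le_rfl hT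
  -- for every q in UU 1, the value of τ is at most one
  have key : ∀ q ∈ UU 1, q < 2 → ev q τ ≤ 1 := by
    rintro q ⟨h1, _, a, ha, hev⟩ h2
    have hw := wAdm_of_Adm ha
    have hLa := lexB_of_wAdm h1 h2 hw hw hev.ge
    have h0 := first_one h1 ha hev
    by_cases hc : th a 1 = a
    · rw [hτ, ← th_one_eq h0, hc, hev]
    · have hSL := th_le ha hev hLa (Gd_one h0) hc
      rw [th_one_eq h0] at hSL
      have hwth : wAdm q τ := wAdm_of_lexB h1 (lexB_trans hL hSL) hev.le
      obtain ⟨j, hj, hj1, hj2⟩ := hSL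
      rw [← hev]
      exact (lt_of_lex h1 h2 hj hj1 hj2 hwth hw).le
  obtain ⟨s, hs, hsU⟩ := exists_UU_one
  have hs1 := hsU.1
  have hs2 : ev s τ ≤ 1 := key s hsU (by linarith)
  have h0 : τ 0 = true := th_lt (by norm_num)
  have h1 : τ 1 = true := by
    have := (hT 1).1
    simpa using this
  have hlow : 1 < ev 1.5 τ := by
    have h2 := ps_le_ev (q := 1.5) (by norm_num) τ 2
    have h3 : ps 1.5 τ 2 = (1.5 : ℝ)⁻¹ + (1.5 : ℝ)⁻¹ ^ 2 := by
      simp [ps, Finset.sum_range_succ, h0, h1, bt_true]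
    rw [h3] at h2
    norm_num at h2 ⊢
    linarith
  have hex : ∃ Q, 1.5 < Q ∧ Q ≤ s ∧ ev Q τ = 1 := by
    rcases hs2.eq_or_lt with h | h
    · refine ⟨s, ?_, le_rfl, h⟩
      by_contra h3
      push Not at h3
      have := ev_anti hs1 h3 τ
      linarith
    · have h4 : 1.5 < s := by
        by_contra h3
        push Not at h3
        have := ev_anti hs1 h3 τ
        linarith
      obtain ⟨Q, e1, e2, e3⟩ := ev_ivt (q := 1.5) (by norm_num) h4 hlow h
      exact ⟨Q, e1, e2.le, e3⟩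
  obtain ⟨Q, e1, e2, e3⟩ := hex
  have hQ1 : 1 < Q := by norm_num at e1; linarith
  refine ⟨Q, ⟨hQ1, by linarith, τ, adm_of_lexB_ne hQ1 hL e3.le hne hI, e3⟩, fun q hq => ?_⟩
  by_contra hcon
  push Not at hcon
  have h5 := key q hq (by linarith)
  have h6 := ev_strictAnti hq.1 hcon h0
  linarith

/-- accumulation in the sense of infinitely many points -/
lemma infinite_of_left {A : Set ℝ} {x : ℝ} (h : ∀ ε > 0, ∃ y ∈ A, x - ε < y ∧ y < x) {ε : ℝ}
    (hε : 0 < ε) : (A ∩ Set.Ioo (x - ε) (x + ε)).Infinite := by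
  intro hfin
  have hfin2 : (A ∩ Set.Ioo (x - ε) x).Finite :=
    hfin.subset fun y hy => ⟨hy.1, hy.2.1, by linarith [hy.2.2]⟩
  have hne : (A ∩ Set.Ioo (x - ε) x).Nonempty := by
    obtain ⟨y, h1, h2, h3⟩ := h ε hε
    exact ⟨y, h1, h2, h3⟩
  obtain ⟨z, hz, hmax⟩ := Set.exists_max_image _ id hfin2 hne
  obtain ⟨y, h1, h2, h3⟩ := h (x - z) (by linarith [hz.2.2])
  have h4 := hmax y ⟨h1, by linarith [hz.2.1], h3⟩
  simp only [id] at h4
  linarith

end Q264.Uni
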