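import Pool.Agent.Q264.Uni12

/-!
The inverse of the golden ratio.
-/

set_option autoImplicit false

namespace Q264.Uni

open Filter Topology

lemma mul_ev {q : ℝ} (hq : 1 < q) (c : ℕ → Bool) (i : ℕ) :
    q * ev q (sh i c) = bt (c i) + ev q (sh (i + 1) c) := by
  have h := ev_one hq (sh i c)
  rw [sh_sh] at h
  have h1 : sh i c 0 = c i := by unfold sh; rw [Nat.add_zero]
  rw [h1] at h
  rw [h]
  have : q ≠ 0 := by linarith
  field_simp

/-- a digit which has to be one -/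
lemma digit_one {q : ℝ} (hq : 1 < q) {a : ℕ → Bool} (ha : Adm q a) {i : ℕ}
    (h : 1 ≤ q * ev q (sh i a)) :
    a i = true ∧ ev q (sh (i + 1) a) = q * ev q (sh i a) - 1 := by
  have h1 := mul_ev hq a i
  cases hi : a i
  · exfalso
    rw [hi, bt_false, zero_add, ev_sh_false hi] at h1
    have := ha i
    linarith
  · rw [hi, bt_true] at h1
    exact ⟨rfl, by linarith⟩

/-- a digit which has to be zero -/
lemma digit_zero {q : ℝ} (hq : 1 < q) {a : ℕ → Bool} (ha : Adm q a) {i : ℕ}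
    (h : q * ev q (sh i a) ≤ 1 / (q - 1)) :
    a i = false ∧ ev q (sh (i + 1) a) = q * ev q (sh i a) := by
  have h1 := mul_ev hq a i
  cases hi : a i
  · rw [hi, bt_false, zero_add] at h1
    exact ⟨rfl, h1.symm⟩
  · exfalso
    rw [hi, bt_true, ev_sh_true hq hi] at h1
    have := ha i
    linarith

/-- one step of the computation of the digits, digit one -/
lemma st1 {q : ℝ} (hq : 1 < q) {a : ℕ → Bool} (ha : Adm q a) {lo hi : ℝ} (_ : 0 < lo)
    (h1 : lo ≤ q) (h2 : q ≤ hi) (i : ℕ) {l u l' u' : ℝ} (hl0 : 0 < l)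
    (hR : l ≤ ev q (sh i a) ∧ ev q (sh i a) ≤ u) (hl : 1 ≤ lo * l) (hl' : l' ≤ lo * l - 1)
    (hu' : hi * u - 1 ≤ u') :
    a i = true ∧ l' ≤ ev q (sh (i + 1) a) ∧ ev q (sh (i + 1) a) ≤ u' := by
  have e1 : lo * l ≤ q * ev q (sh i a) := mul_le_mul h1 hR.1 hl0.le (by linarith)
  have e2 : q * ev q (sh i a) ≤ hi * u :=
    mul_le_mul h2 hR.2 (by linarith [hR.1]) (by linarith)
  obtain ⟨h3, h4⟩ := digit_one hq ha (i := i) (by linarith)
  exact ⟨h3, by linarith, by linarith⟩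

/-- one step of the computation of the digits, digit zero -/
lemma st0 {q : ℝ} (hq : 1 < q) {a : ℕ → Bool} (ha : Adm q a) {lo hi : ℝ} (_ : 0 < lo)
    (h1 : lo ≤ q) (h2 : q ≤ hi) (i : ℕ) {l u l' u' : ℝ} (hl0 : 0 < l)
    (hR : l ≤ ev q (sh i a) ∧ ev q (sh i a) ≤ u) (hu : hi * u ≤ 1 / (hi - 1)) (hl' : l' ≤ lo * l)
    (hu' : hi * u ≤ u') :
    a i = false ∧ l' ≤ ev q (sh (i + 1) a) ∧ ev q (sh (i + 1) a) ≤ u' := by
  have e1 : lo * l ≤ q * ev q (sh i a) := mul_le_mul h1 hR.1 hl0.le (by linarith)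
  have e2 : q * ev q (sh i a) ≤ hi * u :=
    mul_le_mul h2 hR.2 (by linarith [hR.1]) (by linarith)
  have e3 : 1 / (hi - 1) ≤ 1 / (q - 1) := one_div_le_one_div_of_le (by linarith) (by linarith)
  obtain ⟨h3, h4⟩ := digit_zero hq ha (i := i) (by linarith)
  exact ⟨h3, by linarith, by linarith⟩

/-- there is no univoque base of one in a small interval around the largest value -/
lemma no_UU {q : ℝ} (h1 : (1.888452 : ℝ) ≤ q) (h2 : q ≤ 1.8884534) : q ∉ UU 1 := by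
  rintro ⟨hq, _, a, ha, hev⟩
  have h0 : (0 : ℝ) < 1.888452 := by norm_num
  have R0 : (1 : ℝ) ≤ ev q (sh 0 a) ∧ ev q (sh 0 a) ≤ 1 := by
    rw [sh_zero, hev]; exact ⟨le_rfl, le_rfl⟩
  have R1 := (st1 hq ha h0 h1 h2 0 (l' := 0.888452) (u' := 0.8884534) (by norm_num) R0
    (by norm_num) (by norm_num) (by norm_num)).2
  have R2 := (st1 hq ha h0 h1 h2 1 (l' := 0.67779) (u' := 0.67781) (by norm_num) R1
    (by norm_num) (by norm_num) (by norm_num)).2
  have R3 := (st1 hq ha h0 h1 h2 2 (l' := 0.27997) (u' := 0.28002) (by norm_num) R2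
    (by norm_num) (by norm_num) (by norm_num)).2
  have R4 := (st0 hq ha h0 h1 h2 3 (l' := 0.52870) (u' := 0.52881) (by norm_num) R3
    (by norm_num) (by norm_num) (by norm_num)).2
  have R5 := (st0 hq ha h0 h1 h2 4 (l' := 0.99842) (u' := 0.99864) (by norm_num) R4
    (by norm_num) (by norm_num) (by norm_num)).2
  have R6 := (st1 hq ha h0 h1 h2 5 (l' := 0.88546) (u' := 0.88590) (by norm_num) R5
    (by norm_num) (by norm_num) (by norm_num)).2
  have R7 := (st1 hq ha h0 h1 h2 6 (l' := 0.67214) (u' := 0.67299) (by norm_num) R6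
    (by norm_num) (by norm_num) (by norm_num)).2
  have R8 := (st1 hq ha h0 h1 h2 7 (l' := 0.26930) (u' := 0.27092) (by norm_num) R7
    (by norm_num) (by norm_num) (by norm_num)).2
  have R9 := (st0 hq ha h0 h1 h2 8 (l' := 0.50855) (u' := 0.51163) (by norm_num) R8
    (by norm_num) (by norm_num) (by norm_num)).2
  have R10 := (st0 hq ha h0 h1 h2 9 (l' := 0.96037) (u' := 0.96619) (by norm_num) R9
    (by norm_num) (by norm_num) (by norm_num)).2
  have R11 := (st1 hq ha h0 h1 h2 10 (l' := 0.81361) (u' := 0.82461) (by norm_num) R10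
    (by norm_num) (by norm_num) (by norm_num)).2
  have R12 := (st1 hq ha h0 h1 h2 11 (l' := 0.53646) (u' := 0.55724) (by norm_num) R11
    (by norm_num) (by norm_num) (by norm_num)).2
  have R13 := st1 hq ha h0 h1 h2 12 (l' := 0.01307) (u' := 0.05233) (by norm_num) R12
    (by norm_num) (by norm_num) (by norm_num)
  have h3 := ev_sh_true hq R13.1
  have h4 := ha 12
  have h5 : (1 : ℝ) / (1.8884534 - 1) ≤ 1 / (q - 1) :=
    one_div_le_one_div_of_le (by linarith) (by linarith)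
  have h6 := R13.2.2
  rw [h3] at h6
  norm_num at h5 h6
  linarith

/-- the first three digits -/
lemma three_ones {q : ℝ} (hq : 1 < q) (h185 : 1.85 < q) {a : ℕ → Bool} (ha : Adm q a)
    (hev : ev q a = 1) : a 0 = true ∧ a 1 = true ∧ a 2 = true := by
  norm_num at h185
  have e0 : ev q (sh 0 a) = 1 := by rw [sh_zero, hev]
  obtain ⟨d0, e1⟩ := digit_one hq ha (i := 0) (by rw [e0]; linarith)
  rw [e0] at e1
  obtain ⟨d1, e2⟩ := digit_one hq ha (i := 1) (by rw [e1]; nlinarith)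
  rw [e1] at e2
  have e4 : 1.57 ≤ q * (q * 1 - 1) := by norm_num; nlinarith
  obtain ⟨d2, e3⟩ := digit_one hq ha (i := 2) (by rw [e2]; norm_num at e4 ⊢; nlinarith)
  exact ⟨d0, d1, d2⟩

/-! ### a univoque base of the inverse golden ratio -/

/-- the sequence `(1110011100110)^∞` -/
def e13 (i : ℕ) : Bool :=
  [true, true, true, false, false, true, true, true, false, false, true, true, false].getD
    (i % 13) false

lemma e13_add (i : ℕ) : e13 (13 + i) = e13 i := by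
  unfold e13; rw [Nat.add_mod_left]

lemma e13_mod (i : ℕ) : e13 (i % 13) = e13 i := by
  unfold e13; rw [Nat.mod_mod]

lemma g_e13_mod (n : ℕ) : g e13 n = g e13 (n % 13) := by
  funext i
  unfold g
  rw [e13_mod]
  congr 1
  rw [← e13_mod (n + 1 + i), ← e13_mod (n % 13 + 1 + i)]
  congr 1
  omega

lemma g_e13_12 : g e13 12 = e13 := by
  funext i
  unfold g
  rw [show 12 + 1 + i = 13 + i by ring, e13_add]
  show xor false (e13 i) = e13 i
  simp

lemma g_e13_lt : ∀ r, r < 12 → ∃ k, k < 8 ∧ (∀ i, i < k → g e13 r i = e13 i) ∧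
    g e13 r k = false ∧ e13 k = true := by
  unfold g
  decide

lemma g_e13 (n : ℕ) : g e13 n = e13 ∨ SL (g e13 n) e13 := by
  rw [g_e13_mod]
  rcases Nat.lt_or_ge (n % 13) 12 with h | h
  · obtain ⟨k, _, h1, h2, h3⟩ := g_e13_lt _ h
    exact Or.inr ⟨k, h1, h2, h3⟩
  · have : n % 13 = 12 := by omega
    rw [this]
    exact Or.inl g_e13_12

/-- the expansion of the inverse golden ratio: `1001(0001100011001)^∞` -/
def dm : ℕ → Bool := splice 4 p4 (ng e13)

lemma dm_lexB : LexB dm e13 := by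
  have key : ∀ n, g dm n = e13 ∨ SL (g dm n) e13 := by
    intro n
    rcases Nat.lt_or_ge n 4 with h | h
    · interval_cases n
      · right
        refine ⟨2, ?_, by decide, by decide⟩
        intro i hi
        interval_cases i <;> decide
      · right
        exact ⟨0, fun j hj => absurd hj (Nat.not_lt_zero _), by decide, by decide⟩
      · right
        refine ⟨1, ?_, by decide, by decide⟩
        intro i hi
        interval_cases i
        decide
      · left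
        have h3 : dm 3 = true := by decide
        rw [g_true h3]
        unfold dm
        rw [sh_splice]
        funext i
        unfold ng
        simp
    · have : g dm n = g e13 (n - 4) := by
        rw [← g_ng e13, ← sh_splice 4 p4 (ng e13), g_sh]
        show g (splice 4 p4 (ng e13)) n = g (splice 4 p4 (ng e13)) (4 + (n - 4))
        congr 1; omega
      rw [this]
      exact g_e13 _
  intro n k hA hg
  rcases key n with h | h
  · rw [h] at hg; exact hg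
  · exact h.lex hA hg

lemma e13_ps (q : ℝ) : ps q e13 13 = q⁻¹ ^ 1 + q⁻¹ ^ 2 + q⁻¹ ^ 3 + q⁻¹ ^ 6 + q⁻¹ ^ 7 + q⁻¹ ^ 8 +
    q⁻¹ ^ 11 + q⁻¹ ^ 12 := by
  have h0 : e13 0 = true := rfl
  have h1 : e13 1 = true := rfl
  have h2 : e13 2 = true := rfl
  have h3 : e13 3 = false := rfl
  have h4 : e13 4 = false := rfl
  have h5 : e13 5 = true := rfl
  have h6 : e13 6 = true := rfl
  have h7 : e13 7 = true := rfl
  have h8 : e13 8 = false := rfl
  have h9 : e13 9 = false := rfl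
  have h10 : e13 10 = true := rfl
  have h11 : e13 11 = true := rfl
  have h12 : e13 12 = false := rfl
  simp [ps, Finset.sum_range_succ, h0, h1, h2, h3, h4, h5, h6, h7, h8, h9, h10, h11, h12, bt_true,
    bt_false]

lemma sh_e13 : sh 13 e13 = e13 := by
  funext i; exact e13_add i

lemma e13_ev {q : ℝ} (hq : 1 < q) : ev q e13 * (1 - q⁻¹ ^ 13) = ps q e13 13 := by
  have h := ev_split hq e13 13
  rw [sh_e13] at h
  linarith

/-- lower bounds for the remainders -/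
lemma stp {q lo l x l' : ℝ} (h1 : lo ≤ q) (h0 : 0 < lo) (hx : l ≤ x) (hl : 0 < l)
    (h : l' ≤ lo * l) : l' ≤ q * x :=
  le_trans h (mul_le_mul h1 hx hl.le (by linarith))

lemma e13_poly {q : ℝ} (h1 : (1.888452 : ℝ) ≤ q) :
    q ^ 12 + q ^ 11 + q ^ 10 + q ^ 7 + q ^ 6 + q ^ 5 + q ^ 2 + q < q ^ 13 - 1 := by
  have h0 : (0 : ℝ) < 1.888452 := by norm_num
  obtain ⟨y1, hy1⟩ : ∃ y, y = q - 1 := ⟨_, rfl⟩
  have x1 : (0.888452 : ℝ) ≤ y1 := by rw [hy1]; norm_num at h1 ⊢; linarith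
  obtain ⟨y2, hy2⟩ : ∃ y, y = q * y1 - 1 := ⟨_, rfl⟩
  have x2 : (0.67779 : ℝ) ≤ y2 := by
    have := stp (l' := 1.67779) h1 h0 x1 (by norm_num) (by norm_num)
    rw [hy2]; norm_num at this ⊢; linarith
  obtain ⟨y3, hy3⟩ : ∃ y, y = q * y2 - 1 := ⟨_, rfl⟩
  have x3 : (0.27997 : ℝ) ≤ y3 := by
    have := stp (l' := 1.27997) h1 h0 x2 (by norm_num) (by norm_num)
    rw [hy3]; norm_num at this ⊢; linarith
  obtain ⟨y4, hy4⟩ : ∃ y, y = q * y3 := ⟨_, rfl⟩
  have x4 : (0.52870 : ℝ) ≤ y4 := by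
    rw [hy4]; exact stp h1 h0 x3 (by norm_num) (by norm_num)
  obtain ⟨y5, hy5⟩ : ∃ y, y = q * y4 := ⟨_, rfl⟩
  have x5 : (0.99842 : ℝ) ≤ y5 := by
    rw [hy5]; exact stp h1 h0 x4 (by norm_num) (by norm_num)
  obtain ⟨y6, hy6⟩ : ∃ y, y = q * y5 - 1 := ⟨_, rfl⟩
  have x6 : (0.88546 : ℝ) ≤ y6 := by
    have := stp (l' := 1.88546) h1 h0 x5 (by norm_num) (by norm_num)
    rw [hy6]; norm_num at this ⊢; linarith
  obtain ⟨y7, hy7⟩ : ∃ y, y = q * y6 - 1 := ⟨_, rfl⟩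
  have x7 : (0.67214 : ℝ) ≤ y7 := by
    have := stp (l' := 1.67214) h1 h0 x6 (by norm_num) (by norm_num)
    rw [hy7]; norm_num at this ⊢; linarith
  obtain ⟨y8, hy8⟩ : ∃ y, y = q * y7 - 1 := ⟨_, rfl⟩
  have x8 : (0.26930 : ℝ) ≤ y8 := by
    have := stp (l' := 1.26930) h1 h0 x7 (by norm_num) (by norm_num)
    rw [hy8]; norm_num at this ⊢; linarith
  obtain ⟨y9, hy9⟩ : ∃ y, y = q * y8 := ⟨_, rfl⟩
  have x9 : (0.50855 : ℝ) ≤ y9 := by
    rw [hy9]; exact stp h1 h0 x8 (by norm_num) (by norm_num)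
  obtain ⟨y10, hy10⟩ : ∃ y, y = q * y9 := ⟨_, rfl⟩
  have x10 : (0.96037 : ℝ) ≤ y10 := by
    rw [hy10]; exact stp h1 h0 x9 (by norm_num) (by norm_num)
  obtain ⟨y11, hy11⟩ : ∃ y, y = q * y10 - 1 := ⟨_, rfl⟩
  have x11 : (0.81361 : ℝ) ≤ y11 := by
    have := stp (l' := 1.81361) h1 h0 x10 (by norm_num) (by norm_num)
    rw [hy11]; norm_num at this ⊢; linarith
  obtain ⟨y12, hy12⟩ : ∃ y, y = q * y11 - 1 := ⟨_, rfl⟩
  have x12 : (0.53646 : ℝ) ≤ y12 := by
    have := stp (l' := 1.53646) h1 h0 x11 (by norm_num) (by norm_num)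
    rw [hy12]; norm_num at this ⊢; linarith
  have x13 : (1.01 : ℝ) ≤ q * y12 := stp h1 h0 x12 (by norm_num) (by norm_num)
  have : q * y12 = q ^ 13 - (q ^ 12 + q ^ 11 + q ^ 10 + q ^ 7 + q ^ 6 + q ^ 5 + q ^ 2 + q) := by
    rw [hy12, hy11, hy10, hy9, hy8, hy7, hy6, hy5, hy4, hy3, hy2, hy1]; ring
  rw [this] at x13
  norm_num at x13
  linarith

lemma e13_ps' {q : ℝ} (hq : 1 < q) : ps q e13 13 =
    (q ^ 12 + q ^ 11 + q ^ 10 + q ^ 7 + q ^ 6 + q ^ 5 + q ^ 2 + q) * q⁻¹ ^ 13 := by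
  have hq0 : q ≠ 0 := by linarith
  rw [e13_ps]
  field_simp

lemma e13_lt {q : ℝ} (h1 : (1.888452 : ℝ) ≤ q) : ev q e13 < 1 := by
  have hq : 1 < q := by norm_num at h1; linarith
  have hq0 : 0 < q := by linarith
  have hpoly := e13_poly h1
  have hp0 : 0 < q⁻¹ ^ 13 := by positivity
  have hp1 : q⁻¹ ^ 13 < 1 := pow_lt_one₀ (inv_pos1 hq).le (inv_lt1 hq) (by norm_num)
  have h2 : ps q e13 13 < 1 - q⁻¹ ^ 13 := by
    have h4 : 1 - q⁻¹ ^ 13 = (q ^ 13 - 1) * q⁻¹ ^ 13 := by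
      field_simp
    rw [e13_ps' hq, h4]
    exact mul_lt_mul_of_pos_right hpoly hp0
  rw [← e13_ev hq] at h2
  by_contra hcon
  push Not at hcon
  have := mul_le_mul_of_nonneg_right hcon (show 0 ≤ 1 - q⁻¹ ^ 13 by linarith)
  linarith

/-- the value of the expansion -/
lemma dm_ev {q : ℝ} (hq : 1 < q) :
    ev q dm = q⁻¹ + q⁻¹ ^ 4 + q⁻¹ ^ 4 * (1 / (q - 1) - ev q e13) := by
  unfold dm
  rw [ev_splice hq, ev_ng hq]
  have h0 : p4 0 = true := rfl
  have h1 : p4 1 = false := rfl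
  have h2 : p4 2 = false := rfl
  have h3 : p4 3 = true := rfl
  have : ps q p4 4 = q⁻¹ + q⁻¹ ^ 4 := by
    simp [ps, Finset.sum_range_succ, h0, h1, h2, h3, bt_true, bt_false]
  rw [this]

lemma golden_lt {v x : ℝ} (hx0 : 0 < x) (hx : x ^ 2 + x = 1) (hv : 1 < v ^ 2 + v) (hv0 : 0 < v) :
    x < v := by nlinarith

lemma lt_golden {v x : ℝ} (hx0 : 0 < x) (hx : x ^ 2 + x = 1) (hv : v ^ 2 + v < 1) (hv0 : 0 < v) :
    v < x := by nlinarith

lemma f3_lo : 1 < ((1.888452 : ℝ)⁻¹ + (1.888452 : ℝ)⁻¹ ^ 4 * (1 / (1.888452 - 1))) ^ 2 +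
    ((1.888452 : ℝ)⁻¹ + (1.888452 : ℝ)⁻¹ ^ 4 * (1 / (1.888452 - 1))) := by
  norm_num

lemma e13_hi : (0.9999908 : ℝ) ≤ ev 1.8884534 e13 := by
  have h2 : (1 : ℝ) < 1.8884534 := by norm_num
  have h3 := e13_ev h2
  have hp1 : (1.8884534 : ℝ)⁻¹ ^ 13 < 1 :=
    pow_lt_one₀ (inv_pos1 h2).le (inv_lt1 h2) (by norm_num)
  have h4 : (0.9999908 : ℝ) * (1 - (1.8884534 : ℝ)⁻¹ ^ 13) ≤ ps 1.8884534 e13 13 := by
    rw [e13_ps]
    norm_num
  rw [← h3] at h4
  exact le_of_mul_le_mul_right h4 (by linarith)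

/-- a univoque base of the inverse golden ratio -/
lemma golden_base {x : ℝ} (hx0 : 0 < x) (hx : x ^ 2 + x = 1) :
    ∃ s ∈ UU x, s < 1.8884534 := by
  have h1 : (1 : ℝ) < 1.888452 := by norm_num
  have h2 : (1 : ℝ) < 1.8884534 := by norm_num
  have hlo : x < ev 1.888452 dm := by
    have h3 : (1.888452 : ℝ)⁻¹ + (1.888452 : ℝ)⁻¹ ^ 4 * (1 / (1.888452 - 1)) <
        ev 1.888452 dm := by
      rw [dm_ev h1]
      have h4 := e13_lt (q := 1.888452) le_rfl
      have h5 : (0 : ℝ) < (1.888452 : ℝ)⁻¹ ^ 4 := by positivity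
      have h6 := mul_lt_mul_of_pos_left h4 h5
      linarith
    exact lt_trans (golden_lt hx0 hx f3_lo (by norm_num)) h3
  have hhi : ev 1.8884534 dm < x := by
    have h3 : ev 1.8884534 dm ≤ (1.8884534 : ℝ)⁻¹ + (1.8884534 : ℝ)⁻¹ ^ 4 +
        (1.8884534 : ℝ)⁻¹ ^ 4 * (1 / (1.8884534 - 1) - 0.9999908) := by
      rw [dm_ev h2]
      have h5 : (0 : ℝ) < (1.8884534 : ℝ)⁻¹ ^ 4 := by positivity
      have h6 := mul_le_mul_of_nonneg_left e13_hi h5.le
      linarith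
    exact lt_of_le_of_lt h3 (lt_golden hx0 hx (by norm_num) (by norm_num))
  obtain ⟨s, s1, s2, s3⟩ := ev_ivt h1 (by norm_num) hlo hhi
  refine ⟨s, ⟨by linarith, by norm_num at s2; linarith, dm, ?_, s3⟩, s2⟩
  exact adm_of_lexB_lt (by linarith) dm_lexB (e13_lt s1.le)

lemma f3_anti {q r : ℝ} (hq : 1 < q) (h : q ≤ r) :
    r⁻¹ + r⁻¹ ^ 4 * (1 / (r - 1)) ≤ q⁻¹ + q⁻¹ ^ 4 * (1 / (q - 1)) := by
  have h1 : r⁻¹ ≤ q⁻¹ := inv_anti₀ (by linarith) h
  have h0 : 0 < r⁻¹ := inv_pos.2 (by linarith)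
  have h2 : r⁻¹ ^ 4 ≤ q⁻¹ ^ 4 := pow_le_pow_left₀ h0.le h1 4
  have h3 : 1 / (r - 1) ≤ 1 / (q - 1) := one_div_le_one_div_of_le (by linarith) (by linarith)
  have h4 : 0 < 1 / (r - 1) := by
    apply div_pos one_pos; linarith
  have h5 : r⁻¹ ^ 4 * (1 / (r - 1)) ≤ q⁻¹ ^ 4 * (1 / (q - 1)) :=
    mul_le_mul h2 h3 h4.le (by positivity)
  linarith

lemma f3_ge {q : ℝ} (hq : 1 < q) (h : q ≤ 1.888452) :
    1 ≤ (q⁻¹ + q⁻¹ ^ 4 * (1 / (q - 1))) ^ 2 + (q⁻¹ + q⁻¹ ^ 4 * (1 / (q - 1))) := by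
  have h1 := f3_anti hq h
  have h2 := f3_lo
  have h3 : (0 : ℝ) < (1.888452 : ℝ)⁻¹ + (1.888452 : ℝ)⁻¹ ^ 4 * (1 / (1.888452 - 1)) := by
    norm_num
  nlinarith

/-- the univoque bases of the inverse golden ratio are large -/
lemma golden_lower {x : ℝ} (hx0 : 0 < x) (hx : x ^ 2 + x = 1) {q : ℝ} (hq : q ∈ UU x) :
    1.888452 < q := by
  by_contra hcon
  push Not at hcon
  obtain ⟨h1, _, d, hd, hev⟩ := hq
  have hq0 : 0 < q := by linarith
  have hs := inv_pos1 h1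
  have hs1 := inv_lt1 h1
  have hK : 0 < 1 / (q - 1) := by
    apply div_pos one_pos; linarith
  have hf := f3_ge h1 hcon
  have hfx : x ≤ q⁻¹ + q⁻¹ ^ 4 * (1 / (q - 1)) := by
    have : 0 < q⁻¹ + q⁻¹ ^ 4 * (1 / (q - 1)) := by positivity
    by_contra h
    push Not at h
    nlinarith
  cases h0 : d 0
  · exact lemZ h1 hd h0 (by rw [hev]; exact hx0) (by rw [hev]; linarith)
  -- a further digit one
  have key : ∀ k, 1 ≤ k → k ≤ 3 → d k = true → False := by
    intro k hk1 hk3 hk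
    have e1 := ev_split h1 d (k + 1)
    rw [ps_succ, hk, bt_true, one_mul, ev_sh_true h1 hk] at e1
    have e2 := hd k
    have e3 : q⁻¹ ≤ ps q d k := by
      obtain ⟨j, rfl⟩ : ∃ j, k = 1 + j := ⟨k - 1, by omega⟩
      rw [ps_split]
      have : ps q d 1 = q⁻¹ := by simp [ps, h0, bt_true]
      rw [this]
      have := mul_nonneg (pow_nonneg hs.le 1) (ps_nonneg h1 (sh 1 d) j)
      linarith
    have e4 : q⁻¹ ^ 4 ≤ q⁻¹ ^ (k + 1) := pow_le_pow_of_le_one hs.le hs1.le (by omega)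
    have e5 : 0 < q⁻¹ ^ (k + 1) := by positivity
    have e6 : q⁻¹ ^ (k + 1) * (1 / (q - 1)) < q⁻¹ ^ (k + 1) * (1 + (1 / (q - 1) - ev q (g d k))) :=
      mul_lt_mul_of_pos_left (by linarith) e5
    have e7 := mul_le_mul_of_nonneg_right e4 hK.le
    rw [hev] at e1
    linarith
  have k1 : d 1 = false := by
    by_contra h; exact key 1 le_rfl (by norm_num) (by simpa using h)
  have k2 : d 2 = false := by
    by_contra h; exact key 2 (by norm_num) (by norm_num) (by simpa using h)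
  have k3 : d 3 = false := by
    by_contra h; exact key 3 (by norm_num) le_rfl (by simpa using h)
  exact lemY h1 hd h0 k1 k2 k3 (by rw [hev]; linarith)

end Q264.Uni
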