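import Pool.Agent.Q264.Uni1

/-!
Expansions in non-integer bases: existence, uniqueness, monotonicity, limits.
-/

set_option autoImplicit false

namespace Q264.Uni

open Filter Topology

/-! ### existence of expansions -/

/-- the remainders of the quasi-greedy algorithm -/
noncomputable def rem (q y : ℝ) : ℕ → ℝ
  | 0 => y
  | n + 1 => if 1 < q * rem q y n then q * rem q y n - 1 else q * rem q y n

/-- the digits of the quasi-greedy algorithm -/
noncomputable def qg (q y : ℝ) (n : ℕ) : Bool := by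
  classical exact decide (1 < q * rem q y n)

lemma rem_bounds {q y : ℝ} (hq : 1 < q) (hq2 : q ≤ 2) (h0 : 0 < y) (h1 : y ≤ 1 / (q - 1)) :
    ∀ n, 0 < rem q y n ∧ rem q y n ≤ 1 / (q - 1) := by
  have hq1 : 0 < q - 1 := by linarith
  have hK : (1 : ℝ) ≤ 1 / (q - 1) := by
    rw [le_div_iff₀ hq1]; linarith
  intro n
  induction n with
  | zero => exact ⟨h0, h1⟩
  | succ n ih =>
    obtain ⟨ha, hb⟩ := ih
    show 0 < (if 1 < q * rem q y n then q * rem q y n - 1 else q * rem q y n) ∧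
      (if 1 < q * rem q y n then q * rem q y n - 1 else q * rem q y n) ≤ 1 / (q - 1)
    split_ifs with h
    · refine ⟨by linarith, ?_⟩
      rw [le_div_iff₀ hq1] at hb ⊢
      nlinarith
    · refine ⟨mul_pos (by linarith) ha, ?_⟩
      push Not at h
      linarith

lemma rem_ps {q y : ℝ} (hq : 1 < q) (n : ℕ) :
    y = ps q (qg q y) n + (q⁻¹) ^ n * rem q y n := by
  have hq0 : q ≠ 0 := by linarith
  induction n with
  | zero => simp [ps, rem]
  | succ n ih =>
    rw [ps_succ]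
    have h2 : rem q y (n + 1) = q * rem q y n - bt (qg q y n) := by
      show (if 1 < q * rem q y n then q * rem q y n - 1 else q * rem q y n) = _
      unfold qg bt
      by_cases h : 1 < q * rem q y n <;> simp [h]
    rw [h2]
    have h3 : (q⁻¹) ^ (n + 1) * q = (q⁻¹) ^ n := by
      rw [pow_succ]; field_simp
    have h4 : (q⁻¹) ^ (n + 1) * (q * rem q y n - bt (qg q y n)) =
        (q⁻¹) ^ n * rem q y n - bt (qg q y n) * (q⁻¹) ^ (n + 1) := by
      rw [← h3]; ring
    rw [h4]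
    linarith

lemma ev_qg {q y : ℝ} (hq : 1 < q) (hq2 : q ≤ 2) (h0 : 0 < y) (h1 : y ≤ 1 / (q - 1)) :
    ev q (qg q y) = y := by
  have hlim : Tendsto (fun n : ℕ => (q⁻¹) ^ n * (1 / (q - 1))) atTop (𝓝 (0 * (1 / (q - 1)))) :=
    (tendsto_pow_atTop_nhds_zero_of_lt_one (inv_pos1 hq).le (inv_lt1 hq)).mul_const _
  rw [zero_mul] at hlim
  have hb : ∀ n : ℕ, |ev q (qg q y) - y| ≤ (q⁻¹) ^ n * (1 / (q - 1)) := by
    intro n
    have ha := ev_split hq (qg q y) n
    have hr := rem_ps (y := y) hq n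
    obtain ⟨hr1, hr2⟩ := rem_bounds hq hq2 h0 h1 n
    have hpn : 0 < (q⁻¹) ^ n := pow_pos (inv_pos1 hq) n
    have he1 := ev_nonneg hq (sh n (qg q y))
    have he2 := ev_le hq (sh n (qg q y))
    have : ev q (qg q y) - y = (q⁻¹) ^ n * (ev q (sh n (qg q y)) - rem q y n) := by
      rw [mul_sub]; linarith
    rw [this, abs_mul, abs_of_pos hpn]
    refine mul_le_mul_of_nonneg_left ?_ hpn.le
    rw [abs_le]; constructor <;> linarith
  have h0' : |ev q (qg q y) - y| ≤ 0 :=
    ge_of_tendsto' hlim hb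
  have := abs_nonpos_iff.1 h0'
  linarith

lemma ev_qg_sh {q y : ℝ} (hq : 1 < q) (hq2 : q ≤ 2) (h0 : 0 < y) (h1 : y ≤ 1 / (q - 1)) (n : ℕ) :
    ev q (sh n (qg q y)) = rem q y n := by
  have ha := ev_split hq (qg q y) n
  rw [ev_qg hq hq2 h0 h1] at ha
  have hr := rem_ps (y := y) hq n
  have hpn : 0 < (q⁻¹) ^ n := pow_pos (inv_pos1 hq) n
  have : (q⁻¹) ^ n * ev q (sh n (qg q y)) = (q⁻¹) ^ n * rem q y n := by linarith
  exact mul_left_cancel₀ hpn.ne' this

/-- every number of the interval has an expansion -/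
lemma exists_ev {q y : ℝ} (hq : 1 < q) (hq2 : q ≤ 2) (h0 : 0 ≤ y) (h1 : y ≤ 1 / (q - 1)) :
    ∃ c, ev q c = y := by
  rcases h0.eq_or_lt with h | h
  · exact ⟨fun _ => false, by rw [ev_zero, h]⟩
  · exact ⟨qg q y, ev_qg hq hq2 h h1⟩

/-! ### uniqueness -/

/-- replace the tail from `n` on -/
def splice (n : ℕ) (c d : ℕ → Bool) : ℕ → Bool := fun i => if i < n then c i else d (i - n)

lemma splice_Ag (n : ℕ) (c d : ℕ → Bool) : Ag n (splice n c d) c := fun i hi => by
  unfold splice; rw [if_pos hi]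

lemma sh_splice (n : ℕ) (c d : ℕ → Bool) : sh n (splice n c d) = d := by
  funext i; unfold sh splice
  rw [if_neg (by omega)]; congr 1; omega

lemma splice_ge (n : ℕ) (c d : ℕ → Bool) (i : ℕ) : splice n c d (n + i) = d i := by
  unfold splice
  rw [if_neg (by omega)]; congr 1; omega

lemma ev_splice {q : ℝ} (hq : 1 < q) (n : ℕ) (c d : ℕ → Bool) :
    ev q (splice n c d) = ps q c n + (q⁻¹) ^ n * ev q d := by
  rw [ev_split hq _ n, ps_congr (splice_Ag n c d), sh_splice]

/-- the other expansion when a tail after a zero is at least one -/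
lemma not_unique_false {q : ℝ} (hq : 1 < q) (hq2 : q ≤ 2) {c : ℕ → Bool} {n : ℕ}
    (hn : c n = false) (h : 1 ≤ ev q (g c n)) : ∃ d, d ≠ c ∧ ev q d = ev q c := by
  have h1 : ev q (g c n) - 1 ≤ 1 / (q - 1) := by linarith [ev_le hq (g c n)]
  obtain ⟨e, he⟩ := exists_ev hq hq2 (sub_nonneg.2 h) h1
  refine ⟨splice n c (fun i => if i = 0 then true else e (i - 1)), ?_, ?_⟩
  · intro h2
    have h3 := congrFun h2 n
    have h4 := splice_ge n c (fun i => if i = 0 then true else e (i - 1)) 0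
    rw [Nat.add_zero] at h4
    rw [h4] at h3
    simp [hn] at h3
  · rw [ev_splice hq]
    have h5 : ev q (fun i => if i = 0 then true else e (i - 1)) = q⁻¹ * (1 + ev q e) := by
      rw [ev_split hq _ 1]
      have : sh 1 (fun i => if i = 0 then true else e (i - 1)) = e := by
        funext i
        show (if 1 + i = 0 then true else e (1 + i - 1)) = e i
        rw [if_neg (by omega)]; congr 1; omega
      rw [this]
      simp [ps, bt_true]
      ring
    rw [h5, he, ev_split hq c (n + 1), ps_succ, hn, bt_false, ev_sh_false hn]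
    ring

/-- the unique expansions are the admissible sequences -/
lemma adm_of_unique {q : ℝ} (hq : 1 < q) (hq2 : q ≤ 2) {c : ℕ → Bool}
    (h : ∀ d, ev q d = ev q c → d = c) : Adm q c := by
  intro n
  by_contra hc
  push Not at hc
  cases hn : c n
  · obtain ⟨d, hd, hd2⟩ := not_unique_false hq hq2 hn hc
    exact hd (h d hd2)
  · have hn' : ng c n = false := by unfold ng; rw [hn]; rfl
    rw [← g_ng] at hc
    obtain ⟨d, hd, hd2⟩ := not_unique_false hq hq2 hn' hc
    have h3 : ng d = c := h (ng d) (by rw [ev_ng hq, hd2, ev_ng hq]; ring)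
    apply hd
    rw [← h3]
    funext i; unfold ng; simp

lemma unique_of_adm {q : ℝ} (hq : 1 < q) {c : ℕ → Bool} (h : Adm q c)
    (d : ℕ → Bool) (hd : ev q d = ev q c) : d = c := by
  by_contra hne
  obtain ⟨k, hk, hk2⟩ := first_diff hne
  cases hc : c k
  · have hdk : d k = true := by
      cases hdk : d k
      · rw [hc, hdk] at hk2; exact absurd rfl hk2
      · rfl
    have h3 := ev_diff hq hk.symm hc hdk
    rw [ev_sh_false hc, hd, sub_self] at h3
    have h4 := h k
    have h5 := ev_nonneg hq (sh (k + 1) d)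
    have h6 : 0 < (q⁻¹) ^ (k + 1) * (1 + ev q (sh (k + 1) d) - ev q (g c k)) :=
      mul_pos (pow_pos (inv_pos1 hq) _) (by linarith)
    linarith
  · have hdk : d k = false := by
      cases hdk : d k
      · rfl
      · rw [hc, hdk] at hk2; exact absurd rfl hk2
    have h3 := ev_diff hq hk hdk hc
    rw [ev_sh_true hq hc, hd, sub_self] at h3
    have h4 := h k
    have h5 := ev_le hq (sh (k + 1) d)
    have h6 : 0 < (q⁻¹) ^ (k + 1) * (1 + (1 / (q - 1) - ev q (g c k)) - ev q (sh (k + 1) d)) :=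
      mul_pos (pow_pos (inv_pos1 hq) _) (by linarith)
    linarith

/-! ### monotonicity -/

lemma inv_lt_inv' {q r : ℝ} (hq : 1 < q) (h : q < r) : r⁻¹ < q⁻¹ :=
  inv_strictAnti₀ (by linarith) h

lemma ev_anti {q r : ℝ} (hq : 1 < q) (h : q ≤ r) (c : ℕ → Bool) : ev r c ≤ ev q c := by
  rcases h.eq_or_lt with h | h
  · rw [h]
  · refine (summ (by linarith) c).tsum_le_tsum (fun i => ?_) (summ hq c)
    refine mul_le_mul_of_nonneg_left ?_ (bt_nonneg _)
    exact pow_le_pow_left₀ (inv_pos.2 (by linarith)).le (inv_lt_inv' hq h).le _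

lemma ev_strictAnti {q r : ℝ} (hq : 1 < q) (h : q < r) {c : ℕ → Bool} {i : ℕ} (hi : c i = true) :
    ev r c < ev q c := by
  refine Summable.tsum_lt_tsum (i := i) (fun j => ?_) ?_ (summ (by linarith) c) (summ hq c)
  · refine mul_le_mul_of_nonneg_left ?_ (bt_nonneg _)
    exact pow_le_pow_left₀ (inv_pos.2 (by linarith)).le (inv_lt_inv' hq h).le _
  · show bt (c i) * _ < bt (c i) * _
    rw [hi, bt_true, one_mul, one_mul]
    exact pow_lt_pow_left₀ (inv_lt_inv' hq h) (inv_pos.2 (by linarith)).le (by omega)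

lemma ps_anti {q r : ℝ} (hq : 1 < q) (h : q ≤ r) (c : ℕ → Bool) (n : ℕ) : ps r c n ≤ ps q c n := by
  rcases h.eq_or_lt with h | h
  · rw [h]
  · refine Finset.sum_le_sum fun i _ => ?_
    refine mul_le_mul_of_nonneg_left ?_ (bt_nonneg _)
    exact pow_le_pow_left₀ (inv_pos.2 (by linarith)).le (inv_lt_inv' hq h).le _

lemma adm_mono {q r : ℝ} (hq : 1 < q) (h : q < r) {c : ℕ → Bool} (hc : wAdm q c) : Adm r c := by
  intro n
  by_cases h1 : ∃ i, g c n i = true
  · obtain ⟨i, hi⟩ := h1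
    exact lt_of_lt_of_le (ev_strictAnti hq h hi) (hc n)
  · have : g c n = fun _ => false := by
      funext i
      by_contra h2
      exact h1 ⟨i, by simpa using h2⟩
    rw [this, ev_zero]
    norm_num

lemma ev_pos {q : ℝ} (hq : 1 < q) {c : ℕ → Bool} {i : ℕ} (hi : c i = true) : 0 < ev q c := by
  have h1 := ev_strictAnti hq (show q < q + 1 by linarith) hi
  have h2 := ev_nonneg (q := q + 1) (by linarith) c
  linarith

lemma exists_true_of_pos {q : ℝ} {c : ℕ → Bool} (h : 0 < ev q c) : ∃ i, c i = true := by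
  by_contra hc
  push Not at hc
  have : c = fun _ => false := by funext i; simpa using hc i
  rw [this, ev_zero] at h
  exact lt_irrefl _ h

/-! ### limits -/

lemma ev_tendsto {q : ℝ} (hq : 1 < q) {qs : ℕ → ℝ} {cs : ℕ → ℕ → Bool} {c : ℕ → Bool}
    (h1 : Tendsto qs atTop (𝓝 q)) (h2 : ∀ i, ∀ᶠ k in atTop, cs k i = c i) :
    Tendsto (fun k => ev (qs k) (cs k)) atTop (𝓝 (ev q c)) := by
  unfold ev
  obtain ⟨r, hr1, hr2⟩ := exists_between hq
  have hr0 := inv_pos1 hr1
  refine tendsto_tsum_of_dominated_convergence (bound := fun i => (r⁻¹) ^ (i + 1)) ?_ ?_ ?_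
  · have h := (summable_geometric_of_lt_one hr0.le (inv_lt1 hr1)).mul_right r⁻¹
    exact h.congr fun i => by rw [pow_succ]
  · intro i
    have h3 : Tendsto (fun k => bt (c i) * ((qs k)⁻¹) ^ (i + 1)) atTop
        (𝓝 (bt (c i) * (q⁻¹) ^ (i + 1))) :=
      ((h1.inv₀ (by linarith)).pow _).const_mul _
    refine h3.congr' ?_
    filter_upwards [h2 i] with k hk
    rw [hk]
  · filter_upwards [h1.eventually (lt_mem_nhds hr2)] with k hk i
    have h4 : 0 < (qs k)⁻¹ := inv_pos.2 (by linarith)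
    rw [Real.norm_eq_abs, abs_of_nonneg (mul_nonneg (bt_nonneg _) (pow_nonneg h4.le _))]
    have h5 : ((qs k)⁻¹) ^ (i + 1) ≤ (r⁻¹) ^ (i + 1) :=
      pow_le_pow_left₀ h4.le (inv_lt_inv' hr1 hk).le _
    have h6 : 0 ≤ ((qs k)⁻¹) ^ (i + 1) := pow_nonneg h4.le _
    nlinarith [bt_le (cs k i), bt_nonneg (cs k i)]

lemma ev_continuousOn (c : ℕ → Bool) : ContinuousOn (fun q => ev q c) (Set.Ioi 1) := by
  intro q hq
  refine ContinuousAt.continuousWithinAt ?_
  rw [ContinuousAt, tendsto_iff_seq_tendsto]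
  intro qs hqs
  exact ev_tendsto hq hqs fun i => Eventually.of_forall fun _ => rfl

/-- intermediate values -/
lemma ev_ivt {q r x : ℝ} (hq : 1 < q) (h : q < r) {c : ℕ → Bool} (h1 : x < ev q c)
    (h2 : ev r c < x) : ∃ s, q < s ∧ s < r ∧ ev s c = x := by
  have h3 : ContinuousOn (fun q => ev q c) (Set.Icc q r) :=
    (ev_continuousOn c).mono fun s hs => lt_of_lt_of_le hq hs.1
  have h4 : x ∈ (fun q => ev q c) '' Set.Icc q r := by
    refine (intermediate_value_Icc' h.le h3) ⟨h2.le, h1.le⟩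
  obtain ⟨s, hs, hs2⟩ := h4
  refine ⟨s, lt_of_le_of_ne hs.1 ?_, lt_of_le_of_ne hs.2 ?_, hs2⟩
  · rintro rfl; exact absurd hs2 h1.ne'
  · rintro rfl; exact absurd hs2 h2.ne

/-- compactness of the space of digit sequences -/
lemma exists_subseq (cs : ℕ → ℕ → Bool) : ∃ (c : ℕ → Bool) (φ : ℕ → ℕ), StrictMono φ ∧
    ∀ i, ∀ᶠ k in atTop, cs (φ k) i = c i := by
  obtain ⟨c, φ, hφ, hc⟩ := CompactSpace.tendsto_subseq cs
  refine ⟨c, φ, hφ, fun i => ?_⟩
  have h1 : Tendsto (fun k => cs (φ k) i) atTop (𝓝 (c i)) :=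
    (tendsto_pi_nhds.1 hc) i
  have h2 : ({c i} : Set Bool) ∈ 𝓝 (c i) := by
    rw [nhds_discrete]; exact Set.mem_singleton _
  exact h1.eventually_mem h2

lemma g_eventually {cs : ℕ → ℕ → Bool} {c : ℕ → Bool} (h : ∀ i, ∀ᶠ k in atTop, cs k i = c i)
    (n i : ℕ) : ∀ᶠ k in atTop, g (cs k) n i = g c n i := by
  filter_upwards [h n, h (n + 1 + i)] with k h1 h2
  unfold g; rw [h1, h2]

lemma wAdm_limit {q : ℝ} (hq : 1 < q) {qs : ℕ → ℝ} {cs : ℕ → ℕ → Bool} {c : ℕ → Bool}
    (h1 : Tendsto qs atTop (𝓝 q)) (h2 : ∀ i, ∀ᶠ k in atTop, cs k i = c i)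
    (h3 : ∀ k, wAdm (qs k) (cs k)) : wAdm q c := fun n =>
  le_of_tendsto' (ev_tendsto hq h1 fun i => g_eventually h2 n i) fun k => h3 k n

lemma Ag_eventually {cs : ℕ → ℕ → Bool} {c : ℕ → Bool} (h : ∀ i, ∀ᶠ k in atTop, cs k i = c i)
    (n : ℕ) : ∀ᶠ k in atTop, Ag n (cs k) c := by
  have : ∀ᶠ k in atTop, ∀ i ∈ Finset.range n, cs k i = c i := by
    rw [Filter.eventually_all_finset]
    exact fun i _ => h i
  filter_upwards [this] with k hk i hi
  exact hk i (Finset.mem_range.2 hi)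

end Q264.Uni
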