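import Pool.Agent.Q264.Uni2

/-!
Lexicographic conditions, periodic approximations.
-/

set_option autoImplicit false

namespace Q264.Uni

open Filter Topology

/-- all the sequences `g c n` are at most `e` in the lexicographic order -/
def LexB (c e : ℕ → Bool) : Prop := ∀ n k, Ag k (g c n) e → g c n k = true → e k = true

lemma lexB_of_wAdm {q : ℝ} (hq : 1 < q) (hq2 : q < 2) {c a : ℕ → Bool} (hc : wAdm q c)
    (ha : wAdm q a) (h1 : 1 ≤ ev q a) : LexB c a := by
  intro n k hk hgt
  by_contra hak
  have hak' : a k = false := by simpa using hak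
  have := lt_of_lex hq hq2 hk.symm hak' hgt ha (hc.g n)
  linarith [hc n]

/-- lexicographic conditions imply conditions on the values -/
lemma wAdm_of_lexB {q : ℝ} (hq : 1 < q) {c e : ℕ → Bool} (h : LexB c e) (he : ev q e ≤ 1) :
    wAdm q c := by
  have key : ∀ j n : ℕ, ev q (g c n) ≤ 1 + (q⁻¹) ^ j * (1 / (q - 1)) := by
    intro j
    induction j with
    | zero =>
      intro n
      have := ev_le hq (g c n)
      rw [pow_zero, one_mul]; linarith
    | succ j ih =>
      intro n
      have hB : 0 ≤ 1 / (q - 1) := div_nonneg one_pos.le (by linarith)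
      have hp : 0 ≤ (q⁻¹) ^ (j + 1) * (1 / (q - 1)) :=
        mul_nonneg (pow_nonneg (inv_pos1 hq).le _) hB
      by_cases hne : g c n = e
      · rw [hne]; linarith
      · obtain ⟨k, hk, hk2⟩ := first_diff hne
        have hgk : g c n k = false := by
          by_contra h3
          have h3' : g c n k = true := by simpa using h3
          exact hk2 (h3'.trans (h n k hk h3').symm)
        have hek : e k = true := by
          by_contra h3
          have h3' : e k = false := by simpa using h3
          exact hk2 (hgk.trans h3'.symm)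
        have h4 := ps_le_ev hq e (k + 1)
        rw [ps_succ, hek, bt_true, one_mul] at h4
        rw [ev_split hq (g c n) (k + 1), ps_succ, hgk, bt_false, ps_congr hk, sh_g_false hgk]
        have h5 := ih (n + 1 + k)
        have h6 : 0 < (q⁻¹) ^ (k + 1) := pow_pos (inv_pos1 hq) _
        have h7 : (q⁻¹) ^ (k + 1) ≤ q⁻¹ := by
          have := pow_le_pow_of_le_one (inv_pos1 hq).le (inv_lt1 hq).le (show 1 ≤ k + 1 by omega)
          simpa using this
        have h8 : 0 ≤ (q⁻¹) ^ j * (1 / (q - 1)) := mul_nonneg (pow_nonneg (inv_pos1 hq).le _) hB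
        have h9 : (q⁻¹) ^ (k + 1) * ((q⁻¹) ^ j * (1 / (q - 1))) ≤
            q⁻¹ * ((q⁻¹) ^ j * (1 / (q - 1))) := mul_le_mul_of_nonneg_right h7 h8
        have h10 : (q⁻¹) ^ (k + 1) * ev q (g c (n + 1 + k)) ≤
            (q⁻¹) ^ (k + 1) * (1 + (q⁻¹) ^ j * (1 / (q - 1))) :=
          mul_le_mul_of_nonneg_left h5 h6.le
        have h11 : (q⁻¹) ^ (j + 1) * (1 / (q - 1)) = q⁻¹ * ((q⁻¹) ^ j * (1 / (q - 1))) := by
          rw [pow_succ]; ring
        rw [h11]
        linarith
  intro n
  have hlim : Tendsto (fun j : ℕ => 1 + (q⁻¹) ^ j * (1 / (q - 1))) atTop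
      (𝓝 (1 + 0 * (1 / (q - 1)))) :=
    ((tendsto_pow_atTop_nhds_zero_of_lt_one (inv_pos1 hq).le (inv_lt1 hq)).mul_const _).const_add _
  rw [zero_mul, add_zero] at hlim
  exact ge_of_tendsto' hlim fun j => key j n

/-- strict version -/
lemma adm_of_lexB_lt {q : ℝ} (hq : 1 < q) {c e : ℕ → Bool} (h : LexB c e) (he : ev q e < 1) :
    Adm q c := by
  intro n
  have hw := wAdm_of_lexB hq h he.le
  by_cases hne : g c n = e
  · rw [hne]; exact he
  · obtain ⟨k, hk, hk2⟩ := first_diff hne
    have hgk : g c n k = false := by
      by_contra h3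
      have h3' : g c n k = true := by simpa using h3
      exact hk2 (h3'.trans (h n k hk h3').symm)
    have hek : e k = true := by
      by_contra h3
      have h3' : e k = false := by simpa using h3
      exact hk2 (hgk.trans h3'.symm)
    have h4 := ps_le_ev hq e (k + 1)
    rw [ps_succ, hek, bt_true, one_mul] at h4
    rw [ev_split hq (g c n) (k + 1), ps_succ, hgk, bt_false, ps_congr hk, sh_g_false hgk]
    have h5 := hw (n + 1 + k)
    have h6 : 0 < (q⁻¹) ^ (k + 1) := pow_pos (inv_pos1 hq) _
    nlinarith

/-- strict version with infinitely many ones -/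
lemma adm_of_lexB_ne {q : ℝ} (hq : 1 < q) {c e : ℕ → Bool} (h : LexB c e) (he : ev q e ≤ 1)
    (hne : ∀ n, g c n ≠ e) (hinf : ∀ N, ∃ i, N ≤ i ∧ e i = true) : Adm q c := by
  intro n
  have hw := wAdm_of_lexB hq h he
  obtain ⟨k, hk, hk2⟩ := first_diff (hne n)
  have hgk : g c n k = false := by
    by_contra h3
    have h3' : g c n k = true := by simpa using h3
    exact hk2 (h3'.trans (h n k hk h3').symm)
  have hek : e k = true := by
    by_contra h3
    have h3' : e k = false := by simpa using h3
    exact hk2 (hgk.trans h3'.symm)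
  have h4 := ev_split hq e (k + 1)
  rw [ps_succ, hek, bt_true, one_mul] at h4
  rw [ev_split hq (g c n) (k + 1), ps_succ, hgk, bt_false, ps_congr hk, sh_g_false hgk]
  have h5 := hw (n + 1 + k)
  have h6 : 0 < (q⁻¹) ^ (k + 1) := pow_pos (inv_pos1 hq) _
  obtain ⟨i, hi, hi2⟩ := hinf (k + 1)
  have h7 : 0 < ev q (sh (k + 1) e) := by
    refine ev_pos hq (i := i - (k + 1)) ?_
    unfold sh
    rw [show k + 1 + (i - (k + 1)) = i by omega]
    exact hi2
  nlinarith

/-! ### ones at infinitely many places -/

/-- infinitely many ones -/
def Inf1 (c : ℕ → Bool) : Prop := ∀ N, ∃ i, N ≤ i ∧ c i = true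

lemma inf1_of_wAdm {q : ℝ} (hq : 1 < q) (hq2 : q < 2) {c : ℕ → Bool} (hc : wAdm q c)
    (h : ∃ i, c i = true) : Inf1 c := by
  by_contra hcon
  unfold Inf1 at hcon
  push Not at hcon
  obtain ⟨N, hN⟩ := hcon
  classical
  -- the last one
  obtain ⟨i0, hi0⟩ := h
  have hi0N : i0 < N := by
    by_contra h2
    exact hN i0 (by omega) hi0
  let P : ℕ → Prop := fun j => c j = true
  have hP : P (Nat.findGreatest P N) := Nat.findGreatest_spec (m := i0) hi0N.le hi0
  set j := Nat.findGreatest P N with hj
  have hlast : ∀ i, j < i → c i = false := by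
    intro i hi
    by_contra h2
    have h2' : c i = true := by simpa using h2
    rcases Nat.lt_or_ge N i with h3 | h3
    · exact hN i h3.le h2'
    · exact Nat.findGreatest_is_greatest hi h3 h2'
  have h4 : g c j = fun _ => true := by
    rw [g_true hP]
    funext i
    unfold ng sh
    rw [hlast _ (by omega)]; rfl
  have h5 := hc j
  rw [h4, ev_ones hq, div_le_one (by linarith)] at h5
  linarith

lemma inf0_of_wAdm {q : ℝ} (hq : 1 < q) (hq2 : q < 2) {c : ℕ → Bool} (hc : wAdm q c)
    (h : ∃ i, c i = false) : ∀ N, ∃ i, N ≤ i ∧ c i = false := by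
  have h1 : wAdm q (ng c) := fun n => by rw [g_ng]; exact hc n
  have h2 := inf1_of_wAdm hq hq2 h1 (by
    obtain ⟨i, hi⟩ := h
    exact ⟨i, by unfold ng; rw [hi]; rfl⟩)
  intro N
  obtain ⟨i, hi, hi2⟩ := h2 N
  refine ⟨i, hi, ?_⟩
  unfold ng at hi2
  simpa using hi2

/-! ### good indices and periodic sequences -/

/-- good length of a prefix -/
def Gd (a : ℕ → Bool) (m : ℕ) : Prop :=
  1 ≤ m ∧ a (m - 1) = true ∧ ∀ n, n + 1 < m → a n = true → ∃ i, n + 1 + i < m ∧ a (n + 1 + i) = a i

/-- the periodic sequence with period the prefix of length `m` with its last digit lowered -/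
def per (a : ℕ → Bool) (m : ℕ) : ℕ → Bool := fun i => if i % m = m - 1 then false else a (i % m)

lemma per_lt {a : ℕ → Bool} {m i : ℕ} (h : i < m - 1) : per a m i = a i := by
  unfold per
  rw [Nat.mod_eq_of_lt (by omega), if_neg (by omega)]

lemma per_last {a : ℕ → Bool} {m : ℕ} (h : 1 ≤ m) : per a m (m - 1) = false := by
  unfold per
  rw [Nat.mod_eq_of_lt (by omega), if_pos rfl]

lemma per_add (a : ℕ → Bool) (m i : ℕ) : per a m (m + i) = per a m i := by
  unfold per
  rw [Nat.add_mod_left]

lemma sh_per (a : ℕ → Bool) (m : ℕ) : sh m (per a m) = per a m := by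
  funext i; exact per_add a m i

lemma g_per_mod (a : ℕ → Bool) (m n : ℕ) : g (per a m) n = g (per a m) (n % m) := by
  induction n using Nat.strong_induction_on with
  | _ n ih =>
    rcases Nat.eq_zero_or_pos m with hm | hm
    · subst hm; rw [Nat.mod_zero]
    rcases Nat.lt_or_ge n m with h | h
    · rw [Nat.mod_eq_of_lt h]
    · have h1 : g (per a m) n = g (per a m) (n - m) := by
        have h2 : n = m + (n - m) := by omega
        conv_lhs => rw [h2]
        rw [← g_sh, sh_per]
      rw [h1, ih (n - m) (by omega)]
      congr 1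
      conv_rhs => rw [show n = m + (n - m) by omega]
      rw [Nat.add_mod_left]

lemma per_lexB {a : ℕ → Bool} {m : ℕ} (ha : LexB a a) (hm : Gd a m) :
    LexB (per a m) (per a m) := by
  obtain ⟨hm1, hm2, hm3⟩ := hm
  have main : ∀ k n, n < m → Ag k (g (per a m) n) (per a m) → g (per a m) n k = true →
      per a m k = true := by
    intro k
    induction k using Nat.strong_induction_on with
    | _ k ih =>
      intro n hn hA hg
      rcases Nat.lt_or_ge n (m - 1) with hn1 | hn1
      swap
      · -- n = m - 1
        have hn2 : n = m - 1 := by omega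
        rw [hn2, g_false (per_last hm1), show m - 1 + 1 = m by omega, sh_per] at hg
        exact hg
      by_contra hek
      have hek : per a m k = false := by simpa using hek
      -- L = m - 1 - n
      obtain ⟨L, hL⟩ : ∃ L, m - 1 = n + L := ⟨m - 1 - n, by omega⟩
      have hL1 : 1 ≤ L := by omega
      have hen : per a m n = a n := per_lt hn1
      -- the values of g e n and g a n
      have hgi : ∀ i, i < L - 1 → g (per a m) n i = g a n i := by
        intro i hi
        unfold g
        rw [hen, per_lt (by omega)]
      have hgL : g (per a m) n (L - 1) = a n := by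
        unfold g
        rw [hen, show n + 1 + (L - 1) = m - 1 by omega, per_last hm1]
        simp
      have hgaL : g a n (L - 1) = !(a n) := by
        unfold g
        rw [show n + 1 + (L - 1) = m - 1 by omega, hm2]
        simp
      have hei : ∀ i, i ≤ L - 1 → per a m i = a i := fun i hi => per_lt (by omega)
      cases han : a n
      · -- digit zero
        rw [han] at hgL hgaL
        simp only [Bool.not_false] at hgaL
        rcases Nat.lt_trichotomy k (L - 1) with h1 | h1 | h1
        · have h2 : Ag k (g a n) a := fun i hi => by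
            rw [← hgi i (by omega), ← hei i (by omega)]; exact hA i hi
          have h3 := ha n k h2 (by rw [← hgi k h1]; exact hg)
          rw [← hei k (by omega), hek] at h3
          exact Bool.noConfusion h3
        · rw [h1, hgL] at hg; exact Bool.noConfusion hg
        · have h2 : a (L - 1) = false := by
            rw [← hei _ le_rfl, ← hA _ h1]; exact hgL
          have h3 : Ag (L - 1) (g a n) a := fun i hi => by
            rw [← hgi i (by omega), ← hei i (by omega)]; exact hA i (by omega)
          have h4 := ha n (L - 1) h3 hgaL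
          rw [h2] at h4; exact Bool.noConfusion h4
      · -- digit one
        rw [han] at hgL hgaL
        simp only [Bool.not_true] at hgaL
        obtain ⟨i0, hi0, hi0'⟩ := hm3 n (by omega) han
        have hex : ∃ j, j < L ∧ g a n j ≠ a j := by
          refine ⟨i0, by omega, ?_⟩
          unfold g
          rw [han, hi0']
          cases a i0 <;> decide
        classical
        obtain ⟨hj1, hj2⟩ := Nat.find_spec hex
        set j := Nat.find hex with hj
        have hjmin : Ag j (g a n) a := by
          intro i hi
          have := Nat.find_min hex hi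
          push Not at this
          exact this (by omega)
        have hgj : g a n j = false := by
          by_contra h3
          have h3' : g a n j = true := by simpa using h3
          exact hj2 (h3'.trans (ha n j hjmin h3').symm)
        have haj : a j = true := by
          by_contra h3
          have h3' : a j = false := by simpa using h3
          exact hj2 (hgj.trans h3'.symm)
        rcases Nat.lt_or_ge j (L - 1) with hjL | hjL
        · rcases Nat.lt_trichotomy k j with h1 | h1 | h1
          · rw [hgi k (by omega), hjmin k h1, ← hei k (by omega), hek] at hg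
            exact Bool.noConfusion hg
          · rw [h1, hgi j hjL, hgj] at hg; exact Bool.noConfusion hg
          · have h2 := hA j h1
            rw [hgi j hjL, hgj, hei j (by omega), haj] at h2
            exact Bool.noConfusion h2
        · have hjeq : j = L - 1 := by omega
          rw [hjeq] at haj hjmin
          rcases Nat.lt_trichotomy k (L - 1) with h1 | h1 | h1
          · rw [hgi k (by omega), hjmin k h1, ← hei k (by omega), hek] at hg
            exact Bool.noConfusion hg
          · rw [h1, hei _ le_rfl, haj] at hek; exact Bool.noConfusion hek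
          · -- recursion
            obtain ⟨k', hk'⟩ : ∃ k', k = L + k' := ⟨k - L, by omega⟩
            have hgLi : ∀ i, g (per a m) n (L + i) = !(per a m i) := by
              intro i
              unfold g
              rw [hen, han, show n + 1 + (L + i) = m + i by omega, per_add]
              simp
            have heL : per a m (L - 1) = true := by rw [hei _ le_rfl]; exact haj
            have hgg : ∀ i, g (per a m) (L - 1) i = !(per a m (L + i)) := by
              intro i
              unfold g
              rw [heL, show L - 1 + 1 + i = L + i by omega]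
              simp
            have h2 : Ag k' (g (per a m) (L - 1)) (per a m) := by
              intro i hi
              have h3 := hA (L + i) (by omega)
              rw [hgLi] at h3
              rw [hgg, ← h3]; simp
            have h4 : g (per a m) (L - 1) k' = true := by
              rw [hgg, ← hk', hek]; rfl
            have h5 := ih k' (by omega) (L - 1) (by omega) h2 h4
            rw [hk', hgLi, h5] at hg
            exact Bool.noConfusion hg
  intro n k hA hg
  rcases Nat.eq_zero_or_pos m with h0 | h0
  · omega
  rw [g_per_mod] at hA hg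
  exact main k (n % m) (Nat.mod_lt _ h0) hA hg

/-- many good indices, or a final segment which is the reflection of the sequence -/
lemma good_or_anti {a : ℕ → Bool} (ha : LexB a a) (hinf : Inf1 a) :
    (∀ M, ∃ m, M ≤ m ∧ Gd a m) ∨ ∃ l, a l = true ∧ ∀ i, a (l + 1 + i) = !(a i) := by
  by_contra hcon
  push Not at hcon
  obtain ⟨⟨M, hM⟩, hanti⟩ := hcon
  -- for every m ≥ M with a (m-1) = true there is a bad n
  have hbad : ∀ m, M + 1 ≤ m → a (m - 1) = true → ∃ n, n + 1 ≤ M ∧ a n = true ∧
      ∀ i, n + 1 + i < m → a (n + 1 + i) = !(a i) := by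
    intro m hm hm2
    have h1 : ∃ n, n + 1 < m ∧ a n = true ∧ ∀ i, n + 1 + i < m → a (n + 1 + i) = !(a i) := by
      by_contra h2
      push Not at h2
      refine hM m (by omega) ⟨by omega, hm2, fun n hn hn2 => ?_⟩
      obtain ⟨i, hi, hi2⟩ := h2 n hn hn2
      refine ⟨i, hi, ?_⟩
      revert hi2
      cases a (n + 1 + i) <;> cases a i <;> decide
    classical
    obtain ⟨hn1, hn2, hn3⟩ := Nat.find_spec h1
    have hmin := fun {n'} (h : n' < Nat.find h1) => Nat.find_min h1 h
    set n := Nat.find h1 with hn
    refine ⟨n, ?_, hn2, hn3⟩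
    by_contra hnM
    refine hM (n + 1) (by omega) ⟨by omega, by simpa using hn2, fun n' hn' hn'2 => ?_⟩
    by_contra hno
    push Not at hno
    refine hmin (n' := n') (by omega) ⟨by omega, hn'2, ?_⟩
    -- first failure
    by_contra hfail
    push Not at hfail
    classical
    obtain ⟨hi1, hi2⟩ := Nat.find_spec hfail
    have himin := fun {i'} (h : i' < Nat.find hfail) => Nat.find_min hfail h
    set i := Nat.find hfail with hi
    have hpre : ∀ i', i' < i → a (n' + 1 + i') = !(a i') := by
      intro i' hi'
      by_contra h3
      exact himin hi' ⟨by omega, h3⟩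
    have hii : n - n' ≤ i := by
      by_contra h3
      have h4 := hno i (by omega)
      apply hi2
      revert h4
      cases a (n' + 1 + i) <;> cases a i <;> decide
    obtain ⟨i2, hi2'⟩ : ∃ i2, i = (n - n') + i2 := ⟨i - (n - n'), by omega⟩
    have hA : Ag i (g a n') a := by
      intro j hj
      unfold g
      rw [hn'2, hpre j hj]
      simp
    have hai : a i = true := by
      by_contra h3
      have h3' : a i = false := by simpa using h3
      have h4 : g a n' i = true := by
        unfold g
        rw [hn'2]
        rw [h3'] at hi2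
        cases h5 : a (n' + 1 + i)
        · rfl
        · rw [h5] at hi2; exact absurd rfl hi2
      have h5 := ha n' i hA h4
      rw [h3'] at h5; exact Bool.noConfusion h5
    have hai2 : a i2 = false := by
      have h4 : a (n' + 1 + i) = !(a i2) := by
        have h5 := hn3 i2 (by omega)
        rw [← h5]; congr 1; omega
      rw [hai] at hi2
      rw [h4] at hi2
      revert hi2
      cases a i2 <;> decide
    have hn0 : a (n - n' - 1) = false := by
      have h4 := hpre (n - n' - 1) (by omega)
      rw [show n' + 1 + (n - n' - 1) = n by omega, hn2] at h4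
      revert h4
      cases a (n - n' - 1) <;> decide
    have hA2 : Ag i2 (g a (n - n' - 1)) a := by
      intro j hj
      unfold g
      rw [hn0]
      have h4 := hpre (n - n' + j) (by omega)
      have h5 := hn3 j (by omega)
      rw [show n' + 1 + (n - n' + j) = n + 1 + j by omega, h5] at h4
      rw [show n - n' - 1 + 1 + j = n - n' + j by omega]
      revert h4
      cases a j <;> cases a (n - n' + j) <;> decide
    have h6 : g a (n - n' - 1) i2 = true := by
      unfold g
      rw [hn0, show n - n' - 1 + 1 + i2 = i by omega, hai]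
      rfl
    have h7 := ha _ _ hA2 h6
    rw [hai2] at h7
    exact Bool.noConfusion h7
  -- pigeonhole
  have hpig : ∃ n, n + 1 ≤ M ∧ a n = true ∧ ∀ K, ∃ m, K ≤ m ∧
      ∀ i, n + 1 + i < m → a (n + 1 + i) = !(a i) := by
    by_contra h1
    push Not at h1
    -- bound for each n
    have h2 : ∀ n, ∃ K, n + 1 ≤ M → a n = true → ∀ m, K ≤ m →
        ∃ i, n + 1 + i < m ∧ a (n + 1 + i) ≠ !(a i) := by
      intro n
      by_cases h3 : n + 1 ≤ M ∧ a n = true
      · obtain ⟨K, hK⟩ := h1 n h3.1 h3.2
        exact ⟨K, fun _ _ => hK⟩
      · exact ⟨0, fun h4 h5 => absurd ⟨h4, h5⟩ h3⟩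
    choose K hK using h2
    obtain ⟨j, hj1, hj2⟩ := hinf (M + 1 + ∑ n ∈ Finset.range M, K n)
    obtain ⟨n, hn1, hn2, hn3⟩ := hbad (j + 1) (by omega) (by simpa using hj2)
    have h4 : K n ≤ ∑ n ∈ Finset.range M, K n :=
      Finset.single_le_sum (fun _ _ => Nat.zero_le _) (Finset.mem_range.2 (by omega))
    obtain ⟨i, hi1, hi2⟩ := hK n hn1 hn2 (j + 1) (by omega)
    exact hi2 (hn3 i hi1)
  obtain ⟨n, _, hn2, hn3⟩ := hpig
  obtain ⟨i, hi⟩ := hanti n hn2
  obtain ⟨m, hm1, hm2⟩ := hn3 (n + 1 + i + 1)
  exact hi (hm2 i (by omega))

end Q264.Uni
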