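import Pool.Agent.Q264.Uni3

/-!
Perturbation of univoque expansions to the right.
-/

set_option autoImplicit false

namespace Q264.Uni

open Filter Topology

lemma ev_per_lt {q : ℝ} (hq : 1 < q) {a : ℕ → Bool} {m : ℕ} (ha : ev q a ≤ 1) (hm : 1 ≤ m)
    (hm2 : a (m - 1) = true) (hinf : Inf1 a) : ev q (per a m) < 1 := by
  have hA : Ag (m - 1) (per a m) a := fun i hi => per_lt hi
  have h1 := ev_diff hq hA (per_last hm) hm2
  rw [show m - 1 + 1 = m by omega, sh_per] at h1
  obtain ⟨i, hi, hi2⟩ := hinf m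
  have hs : 0 < ev q (sh m a) := by
    refine ev_pos hq (i := i - m) ?_
    unfold sh
    rw [show m + (i - m) = i by omega]; exact hi2
  have hp : 0 < (q⁻¹) ^ m := pow_pos (inv_pos1 hq) _
  have hp1 : (q⁻¹) ^ m < 1 := pow_lt_one₀ (inv_pos1 hq).le (inv_lt1 hq) (by omega)
  by_contra hcon
  push Not at hcon
  nlinarith

/-- a sequence of good approximations -/
lemma per_eventually {a : ℕ → Bool} {m : ℕ → ℕ} (hm : ∀ k, k ≤ m k) (i : ℕ) :
    ∀ᶠ k in atTop, per a (m k) i = a i := by
  filter_upwards [eventually_ge_atTop (i + 2)] with k hk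
  exact per_lt (by have := hm k; omega)

lemma seq_below {q' : ℝ} (hq : 1 < q') : ∃ qs : ℕ → ℝ, (∀ k, 1 < qs k ∧ qs k < q') ∧
    Tendsto qs atTop (𝓝 q') := by
  have h := exists_seq_strictMono_tendsto' hq
  obtain ⟨u, _, h2, h3⟩ := h
  exact ⟨u, fun k => ⟨(h2 k).1, (h2 k).2⟩, h3⟩

/-- the limit sequence in the threshold case -/
lemma threshold_limit {q' : ℝ} (hq' : 1 < q') (hq2 : q' < 2) {c : ℕ → Bool} (hc : Adm q' c)
    (hth : ∀ q1, 1 < q1 → q1 < q' → ¬ wAdm q1 c) :
    ∃ a, wAdm q' a ∧ ev q' a = 1 ∧ LexB a a ∧ Inf1 a ∧ ∀ M, ∃ m, M ≤ m ∧ Gd a m := by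
  obtain ⟨qs, hqs, hlim⟩ := seq_below hq'
  have h1 : ∀ k, ∃ n, 1 < ev (qs k) (g c n) := by
    intro k
    have := hth (qs k) (hqs k).1 (hqs k).2
    unfold wAdm at this
    push Not at this
    exact this
  choose n hn using h1
  obtain ⟨a, φ, hφ, ha⟩ := exists_subseq (fun k => g c (n k))
  have hlim' : Tendsto (fun k => qs (φ k)) atTop (𝓝 q') := hlim.comp hφ.tendsto_atTop
  have h2 : 1 ≤ ev q' a :=
    ge_of_tendsto' (ev_tendsto hq' hlim' ha) fun k => (hn (φ k)).le
  have hw : wAdm q' a := wAdm_limit hq' (tendsto_const_nhds) ha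
    fun k => wAdm_of_Adm (hc.g (n (φ k)))
  have h3 : ev q' a ≤ 1 := le_of_tendsto' (ev_tendsto hq' tendsto_const_nhds ha)
    fun k => (hc (n (φ k))).le
  have h4 : ev q' a = 1 := le_antisymm h3 h2
  have hL := lexB_of_wAdm hq' hq2 hw hw h4.ge
  have hI := inf1_of_wAdm hq' hq2 hw (exists_true_of_pos (by rw [h4]; norm_num))
  refine ⟨a, hw, h4, hL, hI, ?_⟩
  rcases good_or_anti hL hI with h5 | ⟨l, hl, hanti⟩
  · exact h5
  · exfalso
    obtain ⟨k, hk⟩ := (Ag_eventually ha (l + 1)).exists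
    have hgl : g c (n (φ k)) l = true := by rw [hk l (by omega)]; exact hl
    have h6 := ev_split hq' (g c (n (φ k))) (l + 1)
    rw [ps_congr hk, sh_g_true hgl, ev_ng hq'] at h6
    have h7 := ev_split hq' a (l + 1)
    have h8 : sh (l + 1) a = ng a := by
      funext i; unfold sh ng; exact hanti i
    rw [h8, ev_ng hq', h4] at h7
    have h9 := hc (n (φ k) + 1 + l)
    have h10 := hc (n (φ k))
    have hp : 0 < (q'⁻¹) ^ (l + 1) := pow_pos (inv_pos1 hq') _
    nlinarith

/-- the main perturbation lemma -/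
lemma exists_right {q' : ℝ} (hq' : 1 < q') (hq2 : q' < 2) {c a : ℕ → Bool} (hc : Adm q' c)
    (hzero : ∀ N, ∃ i, N ≤ i ∧ c i = false)
    (hw : wAdm q' a) (h1 : ev q' a = 1) (hL : LexB a a) (hI : Inf1 a)
    (hG : ∀ M, ∃ m, M ≤ m ∧ Gd a m) (N : ℕ) :
    ∃ d, wAdm q' d ∧ Ag N d c ∧ ev q' c < ev q' d := by
  classical
  -- first differences
  have hfd : ∀ n, ∃ k, c n = false → Ag k (g c n) a ∧ g c n k = false ∧ a k = true := by
    intro n
    by_cases h : c n = false
    · have h2 := hc n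
      have hne : g c n ≠ a := by
        intro h3; rw [h3, h1] at h2; exact lt_irrefl _ h2
      obtain ⟨k, hk⟩ := lex_of_lt hq' hq2 hne (wAdm_of_Adm (hc.g n)) hw (by rw [h1]; exact h2.le)
      exact ⟨k, fun _ => hk⟩
    · exact ⟨0, fun h' => absurd h' h⟩
  choose k hk using hfd
  obtain ⟨n0, hn0, hn0c⟩ := hzero N
  -- the maximum of the reaches
  let Z : Finset ℕ := (Finset.range (n0 + 1)).filter fun n => c n = false
  have hZ : n0 ∈ Z := Finset.mem_filter.2 ⟨Finset.mem_range.2 (by omega), hn0c⟩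
  obtain ⟨nm, hnmZ, hnmax⟩ := Finset.exists_max_image Z (fun n => n + 1 + k n) ⟨n0, hZ⟩
  let P : ℕ → Prop := fun n => n ∈ Z ∧ n + 1 + k n = nm + 1 + k nm
  have hP : ∃ n, P n := ⟨nm, hnmZ, rfl⟩
  obtain ⟨hsZ, hsR⟩ := Nat.find_spec hP
  have hmin := fun {n'} (h : n' < Nat.find hP) => Nat.find_min hP h
  set s := Nat.find hP with hs
  have hsc : c s = false := (Finset.mem_filter.1 hsZ).2
  have hsn0 : s ≤ n0 := by
    have := Finset.mem_range.1 (Finset.mem_filter.1 hsZ).1; omega
  obtain ⟨R, hR⟩ : ∃ R, R = s + 1 + k s := ⟨_, rfl⟩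
  have hRmax : ∀ n, n ≤ n0 → c n = false → n + 1 + k n ≤ R := by
    intro n hn hcn
    rw [hR, hsR]
    exact hnmax n (Finset.mem_filter.2 ⟨Finset.mem_range.2 (by omega), hcn⟩)
  have hRlt : ∀ n, n < s → c n = false → n + 1 + k n < R := by
    intro n hn hcn
    refine lt_of_le_of_ne (hRmax n (by omega) hcn) ?_
    intro h2
    refine hmin hn ⟨Finset.mem_filter.2 ⟨Finset.mem_range.2 (by omega), hcn⟩, ?_⟩
    rw [← hsR, ← hR]; exact h2
  have hRn0 : n0 < R := by
    have := hRmax n0 le_rfl hn0c; omega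
  obtain ⟨hks1, hks2, hks3⟩ := hk s hsc
  obtain ⟨m, hm, hmG⟩ := hG (R + 2)
  -- the new sequence
  let d : ℕ → Bool := splice (s + 1) c (per a m)
  have hd1 : ∀ i, i ≤ s → d i = c i := fun i hi => splice_Ag (s + 1) c _ i (by omega)
  have hd2 : ∀ i, d (s + 1 + i) = per a m i := fun i => splice_ge (s + 1) c _ i
  have hdR : ∀ i, i < R → d i = c i := by
    intro i hi
    rcases Nat.lt_or_ge i (s + 1) with h2 | h2
    · exact hd1 i (by omega)
    · obtain ⟨j, hj⟩ : ∃ j, i = s + 1 + j := ⟨i - (s + 1), by omega⟩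
      rw [hj, hd2, per_lt (by omega)]
      have h3 := hks1 j (by omega)
      unfold g at h3
      rw [hsc] at h3
      simpa using h3.symm
  have hdRt : d R = true := by
    rw [hR, hd2, per_lt (by omega)]; exact hks3
  have hcR : c R = false := by
    have h3 := hks2
    unfold g at h3
    rw [hsc] at h3
    rw [hR]; simpa using h3
  have hper : ev q' (per a m) < 1 := ev_per_lt hq' h1.le hmG.1 hmG.2.1 hI
  have hperA : Adm q' (per a m) := adm_of_lexB_lt hq' (per_lexB hL hmG) hper
  have hge : ∀ n, s ≤ n → ev q' (g d n) ≤ 1 := by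
    intro n hn
    rcases hn.eq_or_lt with h2 | h2
    · rw [← h2, g_false (by rw [hd1 s le_rfl]; exact hsc)]
      have : sh (s + 1) d = per a m := sh_splice _ _ _
      rw [this]; exact hper.le
    · have : g d n = g (per a m) (n - (s + 1)) := by
        have h3 : sh (s + 1) d = per a m := sh_splice _ _ _
        rw [← h3, g_sh]; congr 1; omega
      rw [this]; exact (hperA _).le
  have hwd : wAdm q' d := by
    have : ∀ j n, n + j = s → ev q' (g d n) ≤ 1 := by
      intro j
      induction j using Nat.strong_induction_on with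
      | _ j ih =>
        intro n hn
        rcases Nat.eq_zero_or_pos j with hj | hj
        · exact hge n (by omega)
        have hns : n < s := by omega
        have hdn : d n = c n := hd1 n (by omega)
        cases hcn : c n
        · -- zero digit
          obtain ⟨hA, hA2, hA3⟩ := hk n hcn
          have hRn := hRlt n hns hcn
          have hgd : ∀ i, i ≤ k n → g d n i = g c n i := by
            intro i hi
            unfold g
            rw [hdn, hdR _ (by omega)]
          have hA' : Ag (k n) (g d n) a := fun i hi => by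
            rw [hgd i hi.le]; exact hA i hi
          have hgk : g d n (k n) = false := by rw [hgd _ le_rfl]; exact hA2
          rw [ev_split hq' (g d n) (k n + 1), ps_succ, hgk, bt_false, ps_congr hA',
            sh_g_false hgk]
          have h5 : ev q' (g d (n + 1 + k n)) ≤ 1 := by
            rcases Nat.lt_or_ge (n + 1 + k n) s with h6 | h6
            · exact ih (s - (n + 1 + k n)) (by omega) _ (by omega)
            · exact hge _ h6
          have h4 := ps_le_ev hq' a (k n + 1)
          rw [ps_succ, hA3, bt_true, one_mul, h1] at h4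
          have h6 : 0 < (q'⁻¹) ^ (k n + 1) := pow_pos (inv_pos1 hq') _
          nlinarith
        · -- one digit
          obtain ⟨K, hK⟩ : ∃ K, R = n + 1 + K := ⟨R - (n + 1), by omega⟩
          have hA' : Ag K (g d n) (g c n) := fun i hi => by
            unfold g
            rw [hdn, hdR _ (by omega)]
          have hgk : g d n K = false := by
            unfold g
            rw [hdn, hcn, ← hK, hdRt]; rfl
          have hgk2 : g c n K = true := by
            unfold g
            rw [hcn, ← hK, hcR]; rfl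
          rw [ev_split hq' (g d n) (K + 1), ps_succ, hgk, bt_false, ps_congr hA',
            sh_g_false hgk, ← hK]
          have h5 := hge R (by omega)
          have h4 := ps_le_ev hq' (g c n) (K + 1)
          rw [ps_succ, hgk2, bt_true, one_mul] at h4
          have h6 : 0 < (q'⁻¹) ^ (K + 1) := pow_pos (inv_pos1 hq') _
          have h7 := hc n
          nlinarith
    intro n
    rcases Nat.lt_or_ge n s with h2 | h2
    · exact this (s - n) n (by omega)
    · exact hge n h2
  refine ⟨d, hwd, fun i hi => hdR i (by omega), ?_⟩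
  have h2 := ev_diff hq' (c := c) (d := d) (k := R) (fun i hi => (hdR i hi).symm) hcR hdRt
  rw [ev_sh_false hcR] at h2
  have h3 := hc R
  have h4 := ev_nonneg hq' (sh (R + 1) d)
  have h5 : 0 < (q'⁻¹) ^ (R + 1) * (1 + ev q' (sh (R + 1) d) - ev q' (g c R)) :=
    mul_pos (pow_pos (inv_pos1 hq') _) (by linarith)
  linarith

/-- Claim R -/
lemma claimR {q' q : ℝ} (hq' : 1 < q') (hq2 : q' < 2) (hqq : q' < q) {c : ℕ → Bool}
    (hc : Adm q' c) (h1 : ∃ i, c i = true) :
    ∃ q1 q2 d, 1 < q1 ∧ q1 < q2 ∧ q2 < q ∧ wAdm q1 d ∧ ev q2 d = ev q' c := by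
  by_cases hth : ∃ q1, 1 < q1 ∧ q1 < q' ∧ wAdm q1 c
  · obtain ⟨q1, h2, h3, h4⟩ := hth
    exact ⟨q1, q', c, h2, h3, hqq, h4, rfl⟩
  push Not at hth
  obtain ⟨a, hw, ha1, hL, hI, hG⟩ := threshold_limit hq' hq2 hc hth
  -- c has a zero
  have hz : ∃ i, c i = false := by
    by_contra h2
    push Not at h2
    have h3 : c = fun _ => true := by funext i; simpa using h2 i
    obtain ⟨q1, h4, h5⟩ := exists_between hq'
    refine hth q1 h4 h5 ?_
    intro n
    have : g c n = fun _ => false := by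
      funext i; unfold g; rw [h3]; rfl
    rw [this, ev_zero]; norm_num
  have hzero := inf0_of_wAdm hq' hq2 (wAdm_of_Adm hc) hz
  obtain ⟨r, hr1, hr2⟩ := exists_between hqq
  have hr0 : 1 < r := by linarith
  obtain ⟨i1, hi1⟩ := h1
  have hgap : 0 < ev q' c - ev r c := by
    have := ev_strictAnti hq' hr1 hi1; linarith
  have hlim : Tendsto (fun n : ℕ => (r⁻¹) ^ n * (1 / (r - 1))) atTop (𝓝 (0 * (1 / (r - 1)))) :=
    (tendsto_pow_atTop_nhds_zero_of_lt_one (inv_pos1 hr0).le (inv_lt1 hr0)).mul_const _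
  rw [zero_mul] at hlim
  obtain ⟨N, hN⟩ := (hlim.eventually (gt_mem_nhds hgap)).exists
  obtain ⟨d, hd1, hd2, hd3⟩ := exists_right hq' hq2 hc hzero hw ha1 hL hI hG N
  have h4 := ev_close hr0 hd2
  rw [abs_le] at h4
  obtain ⟨t, ht1, ht2, ht3⟩ := ev_ivt hq' hr1 hd3 (by linarith [h4.2])
  exact ⟨q', t, d, hq', ht1, by linarith, hd1, ht3⟩

end Q264.Uni
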