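import Pool.Agent.Q264.Uni4

/-!
The smallest univoque base and its level sets.
-/

set_option autoImplicit false

namespace Q264.Uni

open Filter Topology

/-- the univoque bases of `x` -/
def UU (x : ℝ) : Set ℝ := {q | 1 < q ∧ q ≤ 2 ∧ ∃ c, Adm q c ∧ ev q c = x}

lemma UU_iff {q x : ℝ} : q ∈ UU x ↔ 1 < q ∧ q ≤ 2 ∧ ∃! c : ℕ → Bool, ev q c = x := by
  constructor
  · rintro ⟨h1, h2, c, h3, h4⟩
    refine ⟨h1, h2, c, h4, fun d hd => unique_of_adm h1 h3 d ?_⟩
    rw [h4]; exact hd
  · rintro ⟨h1, h2, c, h3, h4⟩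
    exact ⟨h1, h2, c, adm_of_unique h1 h2 fun d hd => h4 d (hd.trans h3), h3⟩

/-- openness of the set where the smallest univoque base is less than `q` -/
lemma claimA {x q : ℝ} (hx : 0 < x) (hq2 : q ≤ 2) {q' : ℝ} (h : q' ∈ UU x) (hqq : q' < q) :
    ∃ δ, 0 < δ ∧ ∀ y, |y - x| < δ → ∃ q'' ∈ UU y, q'' < q := by
  obtain ⟨h1, h2, c, h3, h4⟩ := h
  have hc1 : ∃ i, c i = true := exists_true_of_pos (by rw [h4]; exact hx)
  obtain ⟨q1, q2, d, e1, e2, e3, e4, e5⟩ := claimR h1 (by linarith) hqq h3 hc1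
  rw [h4] at e5
  obtain ⟨q3, f1, f2⟩ := exists_between e3
  obtain ⟨i, hi⟩ := exists_true_of_pos (c := d) (by rw [e5]; exact hx)
  have g1 : ev q3 d < x := by rw [← e5]; exact ev_strictAnti (by linarith) f1 hi
  have g2 : x < ev q1 d := by rw [← e5]; exact ev_strictAnti e1 e2 hi
  refine ⟨min (x - ev q3 d) (ev q1 d - x), lt_min (by linarith) (by linarith), fun y hy => ?_⟩
  rw [lt_min_iff, abs_lt, abs_lt] at hy
  obtain ⟨s, s1, s2, s3⟩ := ev_ivt (x := y) e1 (show q1 < q3 by linarith) (by linarith [hy.2.2])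
    (by linarith [hy.1.1])
  exact ⟨s, ⟨by linarith, by linarith, d, adm_mono e1 s1 e4, s3⟩, by linarith⟩

lemma per_tendsto {a : ℕ → Bool} {c : ℕ → Bool} {n : ℕ} (hg : g c n = a) {m : ℕ → ℕ}
    (hm : ∀ k, k ≤ m k) (i : ℕ) :
    ∀ᶠ k in atTop, splice (n + 1) c (fun i => xor (c n) (per a (m k) i)) i = c i := by
  rcases Nat.lt_or_ge i (n + 1) with h | h
  · exact Eventually.of_forall fun k => splice_Ag _ _ _ i h
  · obtain ⟨j, hj⟩ : ∃ j, i = n + 1 + j := ⟨i - (n + 1), by omega⟩
    filter_upwards [per_eventually hm j] with k hk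
    rw [hj, splice_ge]
    show xor (c n) (per a (m k) j) = c (n + 1 + j)
    rw [hk, ← hg]
    unfold g
    cases c n <;> cases c (n + 1 + j) <;> rfl

/-- the perturbed sequence -/
def pert (c : ℕ → Bool) (n m : ℕ) : ℕ → Bool :=
  splice (n + 1) c (fun i => xor (c n) (per (g c n) m i))

lemma pert_lim (c : ℕ → Bool) (n : ℕ) {m : ℕ → ℕ} (hm : ∀ k, k ≤ m k) (i : ℕ) :
    ∀ᶠ k in atTop, pert c n (m k) i = c i := per_tendsto rfl hm i

lemma pert_n (c : ℕ → Bool) (n m : ℕ) : pert c n m n = c n :=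
  splice_Ag _ _ _ n (by omega)

lemma g_pert (c : ℕ → Bool) (n m : ℕ) : g (pert c n m) n = per (g c n) m := by
  funext i
  have h1 := pert_n c n m
  have h2 : pert c n m (n + 1 + i) = xor (c n) (per (g c n) m i) := splice_ge _ _ _ i
  show xor (pert c n m n) (pert c n m (n + 1 + i)) = _
  rw [h1, h2]
  cases c n <;> cases per (g c n) m i <;> rfl

lemma g_pert_gt (c : ℕ → Bool) (n m : ℕ) {n' : ℕ} (h : n < n') :
    g (pert c n m) n' = g (per (g c n) m) (n' - (n + 1)) := by
  rw [← g_pert, g_g]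
  congr 1; omega

/-- admissibility of the perturbed sequences -/
lemma pert_adm {q : ℝ} (hq : 1 < q) {c : ℕ → Bool} {n : ℕ}
    (hlt : ∀ n', n' < n → ev q (g c n') < 1) (hL : LexB (g c n) (g c n))
    {m : ℕ → ℕ} (hm : ∀ k, k ≤ m k) (hG : ∀ k, Gd (g c n) (m k)) {qs : ℕ → ℝ}
    (hqs : Tendsto qs atTop (𝓝 q)) (hqs1 : ∀ k, 1 < qs k)
    (hper : ∀ k, ev (qs k) (per (g c n) (m k)) < 1) :
    ∀ᶠ k in atTop, Adm (qs k) (pert c n (m k)) := by
  have h1 : ∀ᶠ k in atTop, ∀ n' ∈ Finset.range n, ev (qs k) (g (pert c n (m k)) n') < 1 := by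
    rw [Filter.eventually_all_finset]
    intro n' hn'
    have h2 := ev_tendsto hq hqs fun i => g_eventually (pert_lim c n hm) n' i
    exact h2.eventually (gt_mem_nhds (hlt n' (Finset.mem_range.1 hn')))
  filter_upwards [h1] with k hk n'
  rcases Nat.lt_trichotomy n' n with h3 | h3 | h3
  · exact hk n' (Finset.mem_range.2 h3)
  · rw [h3, g_pert]; exact hper k
  · rw [g_pert_gt c n (m k) h3]
    exact adm_of_lexB_lt (hqs1 k) (per_lexB hL (hG k)) (hper k) _

/-- perturbation when the critical digit is zero -/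
lemma pert_false {q : ℝ} (hq : 1 < q) (hq2 : q ≤ 2) {c : ℕ → Bool} {n : ℕ} (hcn : c n = false)
    (hlt : ∀ n', n' < n → ev q (g c n') < 1) (h1 : ev q (g c n) = 1)
    (hL : LexB (g c n) (g c n)) (hI : Inf1 (g c n)) (hG : ∀ M, ∃ m, M ≤ m ∧ Gd (g c n) m) :
    ∃ q' ∈ UU (ev q c), q' < q := by
  obtain ⟨qs, hqs, hlim⟩ := seq_below hq
  -- choose good lengths
  have hch : ∀ j, ∃ m, j ≤ m ∧ Gd (g c n) m ∧ ev q c < ev (qs j) (pert c n m) := by
    intro j
    have h2 : ∀ M, ∃ m, M ≤ m ∧ Gd (g c n) m := hG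
    choose m hm hmG using h2
    have h3 := ev_tendsto (hqs j).1 (tendsto_const_nhds (x := qs j)) (pert_lim c n hm)
    obtain ⟨i, hi, hi2⟩ := hI 0
    have h4 : ev q c < ev (qs j) c := by
      have hex : ∃ i, c i = true := by
        refine ⟨n + 1 + i, ?_⟩
        unfold g at hi2
        rw [hcn] at hi2; simpa using hi2
      obtain ⟨i, hi⟩ := hex
      exact ev_strictAnti (hqs j).1 (hqs j).2 hi
    obtain ⟨k, hk1, hk2⟩ := ((h3.eventually (lt_mem_nhds h4)).and (eventually_ge_atTop j)).exists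
    exact ⟨m k, le_trans hk2 (hm k), hmG k, hk1⟩
  choose m hm hmG hmv using hch
  have hper1 : ∀ k, ev q (per (g c n) (m k)) < 1 := fun k =>
    ev_per_lt hq h1.le (hmG k).1 (hmG k).2.1 hI
  have hpq : ∀ k, ev q (pert c n (m k)) < ev q c := by
    intro k
    rw [ev_split hq _ (n + 1), ev_split hq c (n + 1)]
    have h2 : ps q (pert c n (m k)) (n + 1) = ps q c (n + 1) := ps_congr (splice_Ag _ _ _)
    rw [h2, ev_sh_false hcn, ev_sh_false (by rw [pert_n]; exact hcn), g_pert, h1]
    have h3 : 0 < (q⁻¹) ^ (n + 1) := pow_pos (inv_pos1 hq) _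
    nlinarith [hper1 k]
  have hex : ∀ j, ∃ s, qs j < s ∧ s < q ∧ ev s (pert c n (m j)) = ev q c := fun j =>
    ev_ivt (hqs j).1 (hqs j).2 (hmv j) (hpq j)
  choose s hs1 hs2 hs3 using hex
  have hslim : Tendsto s atTop (𝓝 q) :=
    tendsto_of_tendsto_of_tendsto_of_le_of_le hlim tendsto_const_nhds (fun j => (hs1 j).le)
      fun j => (hs2 j).le
  have hs0 : ∀ j, 1 < s j := fun j => lt_trans (hqs j).1 (hs1 j)
  have hper : ∀ k, ev (s k) (per (g c n) (m k)) < 1 := by
    intro k
    by_contra hcon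
    push Not at hcon
    have h2 := hs3 k
    rw [ev_split (hs0 k) _ (n + 1), ev_split hq c (n + 1)] at h2
    have h3 : ps (s k) (pert c n (m k)) (n + 1) = ps (s k) c (n + 1) := ps_congr (splice_Ag _ _ _)
    rw [h3, ev_sh_false hcn, ev_sh_false (by rw [pert_n]; exact hcn), g_pert, h1] at h2
    have h4 := ps_anti (hs0 k) (hs2 k).le c (n + 1)
    have h5 : (q⁻¹) ^ (n + 1) < ((s k)⁻¹) ^ (n + 1) :=
      pow_lt_pow_left₀ (inv_lt_inv' (hs0 k) (hs2 k)) (inv_pos1 hq).le (by omega)
    have h6 : 0 < (q⁻¹) ^ (n + 1) := pow_pos (inv_pos1 hq) _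
    nlinarith
  obtain ⟨k, hk⟩ := (pert_adm hq hlt hL hm hmG hslim hs0 hper).exists
  exact ⟨s k, ⟨hs0 k, by linarith [hs2 k], _, hk, hs3 k⟩, hs2 k⟩

/-- perturbation when the critical digit is one -/
lemma pert_true {q : ℝ} (hq : 1 < q) (hq2 : q < 2) {c : ℕ → Bool} {n : ℕ} (hcn : c n = true)
    (hlt : ∀ n', n' < n → ev q (g c n') < 1) (h1 : ev q (g c n) = 1)
    (hL : LexB (g c n) (g c n)) (hI : Inf1 (g c n)) (hG : ∀ M, ∃ m, M ≤ m ∧ Gd (g c n) m)
    {ε : ℝ} (hε : 0 < ε) :
    ∃ q' ∈ UU (ev q c), q' < q + ε := by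
  obtain ⟨qs, _, hqs, hlim⟩ := exists_seq_strictAnti_tendsto' (show q < 2 from hq2)
  have hch : ∀ j, ∃ m, j ≤ m ∧ Gd (g c n) m ∧ ev (qs j) (pert c n m) < ev q c := by
    intro j
    have h2 : ∀ M, ∃ m, M ≤ m ∧ Gd (g c n) m := hG
    choose m hm hmG using h2
    have h3 := ev_tendsto (lt_trans hq (hqs j).1) (tendsto_const_nhds (x := qs j)) (pert_lim c n hm)
    have h4 : ev (qs j) c < ev q c := ev_strictAnti hq (hqs j).1 hcn
    obtain ⟨k, hk1, hk2⟩ := ((h3.eventually (gt_mem_nhds h4)).and (eventually_ge_atTop j)).exists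
    exact ⟨m k, le_trans hk2 (hm k), hmG k, hk1⟩
  choose m hm hmG hmv using hch
  have hper1 : ∀ k, ev q (per (g c n) (m k)) < 1 := fun k =>
    ev_per_lt hq h1.le (hmG k).1 (hmG k).2.1 hI
  have hpq : ∀ k, ev q c < ev q (pert c n (m k)) := by
    intro k
    rw [ev_split hq c (n + 1), ev_split hq (pert c n (m k)) (n + 1)]
    have h2 : ps q (pert c n (m k)) (n + 1) = ps q c (n + 1) := ps_congr (splice_Ag _ _ _)
    rw [h2, ev_sh_true hq hcn, ev_sh_true hq (by rw [pert_n]; exact hcn), g_pert, h1]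
    have h3 : 0 < (q⁻¹) ^ (n + 1) := pow_pos (inv_pos1 hq) _
    nlinarith [hper1 k]
  have hex : ∀ j, ∃ s, q < s ∧ s < qs j ∧ ev s (pert c n (m j)) = ev q c := fun j =>
    ev_ivt hq (hqs j).1 (hpq j) (hmv j)
  choose s hs1 hs2 hs3 using hex
  have hslim : Tendsto s atTop (𝓝 q) :=
    tendsto_of_tendsto_of_tendsto_of_le_of_le tendsto_const_nhds hlim (fun j => (hs1 j).le)
      fun j => (hs2 j).le
  have hs0 : ∀ j, 1 < s j := fun j => lt_trans hq (hs1 j)
  have hper : ∀ k, ev (s k) (per (g c n) (m k)) < 1 := fun k =>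
    lt_of_le_of_lt (ev_anti hq (hs1 k).le _) (hper1 k)
  obtain ⟨k, hk, hk2⟩ := ((pert_adm hq hlt hL hm hmG hslim hs0 hper).and
    (hslim.eventually (gt_mem_nhds (show q < q + ε by linarith)))).exists
  exact ⟨s k, ⟨hs0 k, by linarith [hs2 k, (hqs k).2], _, hk, hs3 k⟩, hk2⟩

/-- every positive number has a univoque base -/
lemma UU_nonempty {x : ℝ} (hx : 0 < x) : ∃ q, q ∈ UU x := by
  rcases le_or_gt 1 x with h | h
  · refine ⟨1 + 1 / x, ?_, ?_, fun _ => true, ?_, ?_⟩
    · have : 0 < 1 / x := by positivity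
      linarith
    · have : 1 / x ≤ 1 := by rw [div_le_one hx]; exact h
      linarith
    · intro n
      have : g (fun _ => true) n = fun _ => false := by funext i; rfl
      rw [this, ev_zero]; norm_num
    · have : 0 < 1 / x := by positivity
      rw [ev_ones (by linarith)]
      rw [add_sub_cancel_left, one_div_one_div]
  · -- x < 1
    have h2 : x ≤ 1 / ((2 : ℝ) - 1) := by norm_num; exact h.le
    set c := qg 2 x with hc
    have hev : ev 2 c = x := ev_qg (by norm_num) le_rfl hx h2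
    have hsh : ∀ n, ev 2 (sh n c) = rem 2 x n := fun n => ev_qg_sh (by norm_num) le_rfl hx h2 n
    have hb := rem_bounds (q := 2) (by norm_num) le_rfl hx h2
    have hone : ∀ n, c n = true → ev 2 (g c n) < 1 := by
      intro n hn
      have h3 := ev_sh_true (q := 2) (by norm_num) hn
      rw [hsh] at h3
      have := (hb (n + 1)).1
      norm_num at h3
      linarith
    have hzero : ∀ n, c n = false → ev 2 (g c n) ≤ 1 := by
      intro n hn
      rw [← ev_sh_false hn, hsh]
      have := (hb (n + 1)).2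
      norm_num at this ⊢
      exact this
    by_cases hA : Adm 2 c
    · exact ⟨2, by norm_num, le_rfl, c, hA, hev⟩
    · unfold Adm at hA
      push Not at hA
      classical
      have hn1 := Nat.find_spec hA
      have hmin := fun {n'} (h : n' < Nat.find hA) => Nat.find_min hA h
      set n := Nat.find hA with hn
      have hcn : c n = false := by
        by_contra h3
        have h3' : c n = true := by simpa using h3
        linarith [hone n h3']
      have hE : ev 2 (g c n) = 1 := le_antisymm (hzero n hcn) hn1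
      have ha : g c n = fun _ => true := by
        have h3 : ev 2 (ng (g c n)) = 0 := by
          rw [ev_ng (by norm_num), hE]; norm_num
        funext i
        by_contra h4
        have h5 : ng (g c n) i = true := by
          unfold ng
          revert h4
          cases g c n i <;> decide
        have := ev_pos (q := 2) (by norm_num) h5
        linarith
      obtain ⟨q', hq', _⟩ := pert_false (q := 2) (by norm_num) le_rfl hcn
        (fun n' hn' => by
          have := hmin hn'
          push Not at this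
          exact this) hE
        (by rw [ha]; intro _ k _ _; rfl)
        (by rw [ha]; intro N; exact ⟨N, le_rfl, rfl⟩)
        (by
          rw [ha]
          intro M
          exact ⟨M + 1, by omega, by omega, rfl, fun n' hn' _ => ⟨0, by omega, rfl⟩⟩)
      rw [hev] at hq'
      exact ⟨q', hq'⟩

lemma UU_bdd (x : ℝ) : BddBelow (UU x) := ⟨1, fun _ h => h.1.le⟩

/-- the smallest univoque base -/
noncomputable def qs (x : ℝ) : ℝ := sInf (UU x)

/-- a weakly admissible expansion at the infimum -/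
lemma exists_wAdm {q x : ℝ} (hq : 1 < q) (hx : 0 < x) (h : qs x = q) :
    ∃ c, wAdm q c ∧ ev q c = x := by
  have h1 : ∀ k : ℕ, ∃ r ∈ UU x, r < q + 1 / ((k : ℝ) + 1) := fun k => by
    have h2 : sInf (UU x) < q + 1 / ((k : ℝ) + 1) := by
      have : 0 < 1 / ((k : ℝ) + 1) := by positivity
      unfold qs at h
      linarith
    exact exists_lt_of_csInf_lt (UU_nonempty hx) h2
  choose r hr hr2 using h1
  have hrq : ∀ k, q ≤ r k := fun k => by
    rw [← h]; exact csInf_le (UU_bdd x) (hr k)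
  have hlim : Tendsto r atTop (𝓝 q) := by
    have h3 : Tendsto (fun k : ℕ => q + 1 / ((k : ℝ) + 1)) atTop (𝓝 (q + 0)) :=
      tendsto_one_div_add_atTop_nhds_zero_nat.const_add q
    rw [add_zero] at h3
    exact tendsto_of_tendsto_of_tendsto_of_le_of_le tendsto_const_nhds h3 hrq fun k => (hr2 k).le
  choose hr1 _ cs hcs hev using hr
  obtain ⟨c, φ, hφ, hc⟩ := exists_subseq cs
  have hlim' : Tendsto (fun k => r (φ k)) atTop (𝓝 q) := hlim.comp hφ.tendsto_atTop
  refine ⟨c, wAdm_limit hq hlim' hc fun k => wAdm_of_Adm (hcs (φ k)), ?_⟩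
  have h4 := ev_tendsto hq hlim' hc
  have h5 : (fun k => ev (r (φ k)) (cs (φ k))) = fun _ => x := by
    funext k; exact hev (φ k)
  rw [h5] at h4
  exact (tendsto_nhds_unique h4 tendsto_const_nhds)

/-- the level sets are sequentially closed in the positive numbers -/
lemma level_closed {q x : ℝ} (hq : 1 < q) (hq2 : q ≤ 2) {xs : ℕ → ℝ} (hxs : ∀ k, 0 < xs k)
    (hqs : ∀ k, qs (xs k) = q) (hx : 0 < x) (hlim : Tendsto xs atTop (𝓝 x)) : qs x = q := by
  apply le_antisymm
  · -- upper bound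
    rcases hq2.eq_or_lt with h2 | h2
    · obtain ⟨r, hr⟩ := UU_nonempty hx
      calc qs x ≤ r := csInf_le (UU_bdd x) hr
        _ ≤ q := by rw [h2]; exact hr.2.1
    have h1 : ∀ k, ∃ c, wAdm q c ∧ ev q c = xs k := fun k => exists_wAdm hq (hxs k) (hqs k)
    choose cs hcs hev using h1
    obtain ⟨c, φ, hφ, hc⟩ := exists_subseq cs
    have hw : wAdm q c := wAdm_limit hq tendsto_const_nhds hc fun k => hcs (φ k)
    have hevc : ev q c = x := by
      have h4 := ev_tendsto hq (tendsto_const_nhds (x := q)) hc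
      have h5 : (fun k => ev q (cs (φ k))) = fun k => xs (φ k) := by
        funext k; exact hev (φ k)
      rw [h5] at h4
      exact tendsto_nhds_unique h4 (hlim.comp hφ.tendsto_atTop)
    by_cases hA : Adm q c
    · exact csInf_le (UU_bdd x) ⟨hq, hq2, c, hA, hevc⟩
    unfold Adm at hA
    push Not at hA
    classical
    have hn1 := Nat.find_spec hA
    have hmin := fun {n'} (h : n' < Nat.find hA) => Nat.find_min hA h
    set n := Nat.find hA with hn
    have hE : ev q (g c n) = 1 := le_antisymm (hw n) hn1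
    have hL : LexB (g c n) (g c n) := lexB_of_wAdm hq h2 (hw.g n) (hw.g n) hE.ge
    have hI : Inf1 (g c n) := inf1_of_wAdm hq h2 (hw.g n)
      (exists_true_of_pos (by rw [hE]; norm_num))
    have hlt : ∀ n', n' < n → ev q (g c n') < 1 := fun n' hn' => by
      have := hmin hn'
      push Not at this
      exact this
    rcases good_or_anti hL hI with hG | ⟨l, hl, hanti⟩
    · refine le_of_forall_pos_lt_add fun ε hε => ?_
      cases hcn : c n
      · obtain ⟨q', h3, h4⟩ := pert_false hq hq2 hcn hlt hE hL hI hG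
        rw [hevc] at h3
        calc qs x ≤ q' := csInf_le (UU_bdd x) h3
          _ < q + ε := by linarith
      · obtain ⟨q', h3, h4⟩ := pert_true hq h2 hcn hlt hE hL hI hG hε
        rw [hevc] at h3
        exact lt_of_le_of_lt (csInf_le (UU_bdd x) h3) h4
    · -- then the sequence is eventually constant
      obtain ⟨k, hk⟩ := (Ag_eventually hc (n + 1 + (l + 1))).exists
      have hd : cs (φ k) n = c n := hk n (by omega)
      have hgA : Ag (l + 1) (g (cs (φ k)) n) (g c n) := fun i hi => by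
        unfold g
        rw [hd, hk _ (by omega)]
      have hgl : g (cs (φ k)) n l = true := by rw [hgA l (by omega)]; exact hl
      have h6 := ev_split hq (g (cs (φ k)) n) (l + 1)
      rw [ps_congr hgA, sh_g_true hgl, ev_ng hq] at h6
      have h7 := ev_split hq (g c n) (l + 1)
      have h8 : sh (l + 1) (g c n) = ng (g c n) := by
        funext i; unfold sh ng; exact hanti i
      rw [h8, ev_ng hq, hE] at h7
      have h9 := hcs (φ k) (n + 1 + l)
      have h10 := hcs (φ k) n
      have hp : 0 < (q⁻¹) ^ (l + 1) := pow_pos (inv_pos1 hq) _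
      have h11 : ev q (g (cs (φ k)) n) = 1 := by
        apply le_antisymm h10
        nlinarith
      have h12 : xs (φ k) = x := by
        rw [← hev, ← hevc, ev_split hq (cs (φ k)) (n + 1), ev_split hq c (n + 1),
          ps_congr (hk.mono (show n + 1 ≤ n + 1 + (l + 1) by omega))]
        congr 2
        cases hcn : c n
        · rw [ev_sh_false hcn, ev_sh_false (hd.trans hcn), h11, hE]
        · rw [ev_sh_true hq hcn, ev_sh_true hq (hd.trans hcn), h11, hE]
      rw [← h12, hqs]
  · -- lower bound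
    by_contra hcon
    push Not at hcon
    obtain ⟨q', h1, h2⟩ := exists_lt_of_csInf_lt (UU_nonempty hx) hcon
    obtain ⟨δ, hδ, hy⟩ := claimA hx hq2 h1 h2
    obtain ⟨k, hk⟩ := (hlim.eventually (Metric.ball_mem_nhds x hδ)).exists
    rw [Real.dist_eq] at hk
    obtain ⟨q'', h3, h4⟩ := hy (xs k) hk
    have := csInf_le (UU_bdd (xs k)) h3
    have h5 := hqs k
    unfold qs at h5
    linarith

end Q264.Uni
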