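import Pool.Agent.Q264.Uni5

/-!
Generalized Thue-Morse sequences.
-/

set_option autoImplicit false

namespace Q264.Uni

open Filter Topology

/-- strictly less in the lexicographic order -/
def SL (x y : ℕ → Bool) : Prop := ∃ k, Ag k x y ∧ x k = false ∧ y k = true

lemma SL.ne {x y : ℕ → Bool} (h : SL x y) : x ≠ y := by
  obtain ⟨k, _, h1, h2⟩ := h
  intro h3
  rw [h3, h2] at h1
  exact Bool.noConfusion h1

lemma SL.lex {x y : ℕ → Bool} (h : SL x y) {k : ℕ} (hA : Ag k x y) (hx : x k = true) :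
    y k = true := by
  obtain ⟨j, h0, h1, h2⟩ := h
  rcases Nat.lt_trichotomy k j with h3 | h3 | h3
  · rw [← h0 k h3]; exact hx
  · rw [h3]; exact h2
  · have := hA j h3
    rw [h1, h2] at this
    exact Bool.noConfusion this

/-- the doubling structure at `M` -/
def Db (θ : ℕ → Bool) (M : ℕ) : Prop :=
  θ (M - 1) = true ∧ θ (2 * M - 1) = true ∧ ∀ i, i < M - 1 → θ (M + i) = !(θ i)

/-- window version of the lexicographic conditions -/
def LW (θ : ℕ → Bool) (M : ℕ) : Prop :=
  ∀ n k, n + 1 + k < M → Ag k (g θ n) θ → g θ n k = true → θ k = true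

lemma LW_of_lexB {a : ℕ → Bool} (h : LexB a a) (M : ℕ) : LW a M := fun n k _ => h n k

/-- key comparison lemma -/
lemma sl_window {θ x : ℕ → Bool} {M l L : ℕ} (hLW : LW θ M) (hG : Gd θ M) (hl : l + 1 < M)
    (hL : M - 1 = l + L) (h1 : ∀ i, i < L → x i = g θ l i)
    (h2 : θ l = false → ∀ i, i < M - 1 → x (L + i) = !(θ i)) : SL x θ := by
  classical
  by_cases hin : ∃ i, i < L ∧ g θ l i ≠ θ i
  · obtain ⟨hj1, hj2⟩ := Nat.find_spec hin
    have hmin := fun {i} (h : i < Nat.find hin) => Nat.find_min hin h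
    set j := Nat.find hin with hj
    have hA : Ag j (g θ l) θ := by
      intro i hi
      have := hmin hi
      push Not at this
      exact this (by omega)
    have hg : g θ l j = false := by
      by_contra h3
      have h3' : g θ l j = true := by simpa using h3
      exact hj2 (h3'.trans (hLW l j (by omega) hA h3').symm)
    have ht : θ j = true := by
      by_contra h3
      have h3' : θ j = false := by simpa using h3
      exact hj2 (hg.trans h3'.symm)
    exact ⟨j, fun i hi => by rw [h1 i (by omega)]; exact hA i hi, by rw [h1 j hj1]; exact hg, ht⟩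
  · push Not at hin
    have hθl : θ l = false := by
      by_contra h3
      have h3' : θ l = true := by simpa using h3
      obtain ⟨i, hi, hi2⟩ := hG.2.2 l hl h3'
      have h4 := hin i (by omega)
      unfold g at h4
      rw [h3', hi2] at h4
      revert h4
      cases θ i <;> decide
    have hL1 : θ (L - 1) = true := by
      rw [← hin (L - 1) (by omega)]
      unfold g
      rw [hθl, show l + 1 + (L - 1) = M - 1 by omega, hG.2.1]
      rfl
    obtain ⟨i1, hi1, hi1'⟩ := hG.2.2 (L - 1) (by omega) hL1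
    have hex : ∃ i, L - 1 + 1 + i < M ∧ θ (L - 1 + 1 + i) = θ i := ⟨i1, hi1, hi1'⟩
    obtain ⟨hj1, hj2⟩ := Nat.find_spec hex
    have hmin := fun {i} (h : i < Nat.find hex) => Nat.find_min hex h
    set j := Nat.find hex with hj
    have hpre : ∀ i, i < j → θ (L - 1 + 1 + i) = !(θ i) := by
      intro i hi
      have h3 := hmin hi
      push Not at h3
      have h4 := h3 (by omega)
      revert h4
      cases θ (L - 1 + 1 + i) <;> cases θ i <;> decide
    have hA : Ag j (g θ (L - 1)) θ := by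
      intro i hi
      unfold g
      rw [hL1, hpre i hi]
      simp
    have hjt : θ j = true := by
      by_contra h3
      have h3' : θ j = false := by simpa using h3
      have h4 : g θ (L - 1) j = true := by
        unfold g
        rw [hL1, hj2, h3']; rfl
      have h5 := hLW (L - 1) j (by omega) hA h4
      exact h3 h5
    refine ⟨L + j, ?_, ?_, ?_⟩
    · intro i hi
      rcases Nat.lt_or_ge i L with h3 | h3
      · rw [h1 i h3]; exact hin i h3
      · obtain ⟨i', hi'⟩ : ∃ i', i = L + i' := ⟨i - L, by omega⟩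
        rw [hi', h2 hθl i' (by omega)]
        have := hpre i' (by omega)
        rw [show L - 1 + 1 + i' = L + i' by omega] at this
        rw [this]
    · rw [h2 hθl j (by omega), hjt]; rfl
    · rw [show L + j = L - 1 + 1 + j by omega, hj2]; exact hjt

lemma sl_self {θ : ℕ → Bool} {M : ℕ} (hLW : LW θ M) (hG : Gd θ M) (hD : Db θ M) {l : ℕ}
    (hl : l + 1 < M) : SL (g θ l) θ := by
  obtain ⟨L, hL⟩ : ∃ L, M - 1 = l + L := ⟨M - 1 - l, by omega⟩
  refine sl_window hLW hG hl hL (fun _ _ => rfl) fun h i hi => ?_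
  unfold g
  rw [h, show l + 1 + (L + i) = M + i by omega, hD.2.2 i hi]
  simp

lemma LW_double {θ : ℕ → Bool} {M : ℕ} (hM : 1 ≤ M) (hLW : LW θ M) (hG : Gd θ M) (hD : Db θ M) :
    LW θ (2 * M) := by
  intro n k hnk hA hg
  rcases Nat.lt_trichotomy (n + 1) M with h1 | h1 | h1
  · exact (sl_self hLW hG hD h1).lex hA hg
  · -- n = M - 1
    have hn : θ n = true := by rw [show n = M - 1 by omega]; exact hD.1
    unfold g at hg
    rw [hn, show n + 1 + k = M + k by omega] at hg
    rcases Nat.lt_or_ge k (M - 1) with h2 | h2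
    · rw [hD.2.2 k h2] at hg
      simpa using hg
    · rw [show M + k = 2 * M - 1 by omega, hD.2.1] at hg
      exact absurd hg (by decide)
  · obtain ⟨n', hn'⟩ : ∃ n', n = M + n' := ⟨n - M, by omega⟩
    have hn1 : θ n = !(θ n') := by rw [hn']; exact hD.2.2 n' (by omega)
    have hgi : ∀ i, n' + 1 + i < M - 1 → g θ n i = g θ n' i := by
      intro i hi
      unfold g
      rw [hn1, show n + 1 + i = M + (n' + 1 + i) by omega, hD.2.2 _ hi]
      cases θ n' <;> cases θ (n' + 1 + i) <;> rfl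
    rcases Nat.lt_or_ge (n' + 1 + k) (M - 1) with h2 | h2
    · refine hLW n' k (by omega) (fun i hi => ?_) ?_
      · rw [← hgi i (by omega)]; exact hA i hi
      · rw [← hgi k h2]; exact hg
    · have hk : n' + 1 + k = M - 1 := by omega
      have h3 : θ n' = true := by
        unfold g at hg
        rw [hn1, show n + 1 + k = 2 * M - 1 by omega, hD.2.1] at hg
        revert hg
        cases θ n' <;> decide
      obtain ⟨i, hi, hi2⟩ := hG.2.2 n' (by omega) h3
      have h4 : g θ n' i ≠ θ i := by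
        unfold g
        rw [h3, hi2]
        cases θ i <;> decide
      have h5 : ¬ i < k := by
        intro h6
        apply h4
        rw [← hgi i (by omega)]
        exact hA i h6
      have h6 : i = k := by omega
      rw [h6] at h4
      have h7 : g θ n' k = false := by
        unfold g
        rw [h3, hk, hD.1]; rfl
      rw [h7] at h4
      revert h4
      cases θ k <;> decide

lemma Gd_double {θ : ℕ → Bool} {M : ℕ} (hM : 1 ≤ M) (hLW : LW θ M) (hG : Gd θ M) (hD : Db θ M) :
    Gd θ (2 * M) := by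
  refine ⟨by omega, hD.2.1, fun n hn hnt => ?_⟩
  rcases Nat.lt_trichotomy (n + 1) M with h1 | h1 | h1
  · obtain ⟨i, hi, hi2⟩ := hG.2.2 n h1 hnt
    exact ⟨i, by omega, hi2⟩
  · refine ⟨M - 1, by omega, ?_⟩
    rw [show n + 1 + (M - 1) = 2 * M - 1 by omega, hD.2.1, hD.1]
  · obtain ⟨n', hn'⟩ : ∃ n', n = M + n' := ⟨n - M, by omega⟩
    have hn1 : θ n = !(θ n') := by rw [hn']; exact hD.2.2 n' (by omega)
    have hn'f : θ n' = false := by
      rw [hnt] at hn1
      revert hn1
      cases θ n' <;> decide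
    by_contra hcon
    push Not at hcon
    obtain ⟨i1, hi1⟩ : ∃ i1, n' + 1 + i1 = M - 1 := ⟨M - 1 - (n' + 1), by omega⟩
    have hA : Ag i1 (g θ n') θ := by
      intro i hi
      have h2 := hcon i (by omega)
      rw [show n + 1 + i = M + (n' + 1 + i) by omega, hD.2.2 _ (by omega)] at h2
      unfold g
      rw [hn'f]
      revert h2
      cases θ (n' + 1 + i) <;> cases θ i <;> decide
    have h3 : g θ n' i1 = true := by
      unfold g
      rw [hn'f, hi1, hD.1]; rfl
    have h4 := hLW n' i1 (by omega) hA h3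
    have h5 := hcon i1 (by omega)
    rw [show n + 1 + i1 = 2 * M - 1 by omega, hD.2.1, h4] at h5
    exact h5 rfl

/-- generalized Thue-Morse structure -/
def GT (θ : ℕ → Bool) (m : ℕ) : Prop := ∀ k, Db θ (m * 2 ^ k)

lemma GT_levels {θ : ℕ → Bool} {m : ℕ} (hm : 1 ≤ m) (hLW : LW θ m) (hG : Gd θ m) (hT : GT θ m) :
    ∀ k, LW θ (m * 2 ^ k) ∧ Gd θ (m * 2 ^ k) := by
  intro k
  induction k with
  | zero => rw [pow_zero, mul_one]; exact ⟨hLW, hG⟩
  | succ k ih =>
    have h1 : m * 2 ^ (k + 1) = 2 * (m * 2 ^ k) := by ring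
    have h2 : 1 ≤ m * 2 ^ k := Nat.mul_pos hm (pow_pos (by norm_num) _)
    rw [h1]
    exact ⟨LW_double h2 ih.1 ih.2 (hT k), Gd_double h2 ih.1 ih.2 (hT k)⟩

lemma lt_level {m : ℕ} (hm : 1 ≤ m) (n : ℕ) : n < m * 2 ^ n := by
  have h1 : n < 2 ^ n := Nat.lt_two_pow_self
  calc n < 2 ^ n := h1
    _ = 1 * 2 ^ n := (one_mul _).symm
    _ ≤ m * 2 ^ n := Nat.mul_le_mul_right _ hm

lemma GT_SL {θ : ℕ → Bool} {m : ℕ} (hm : 1 ≤ m) (hLW : LW θ m) (hG : Gd θ m) (hT : GT θ m)
    (n : ℕ) : SL (g θ n) θ := by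
  obtain ⟨h1, h2⟩ := GT_levels hm hLW hG hT (n + 1)
  exact sl_self h1 h2 (hT (n + 1)) (lt_level hm (n + 1))

lemma GT_lexB {θ : ℕ → Bool} {m : ℕ} (hm : 1 ≤ m) (hLW : LW θ m) (hG : Gd θ m) (hT : GT θ m) :
    LexB θ θ := fun n _ hA hg => (GT_SL hm hLW hG hT n).lex hA hg

lemma GT_inf1 {θ : ℕ → Bool} {m : ℕ} (hm : 1 ≤ m) (hT : GT θ m) : Inf1 θ := by
  intro N
  refine ⟨m * 2 ^ (N + 1) - 1, ?_, (hT (N + 1)).1⟩
  have := lt_level hm (N + 1)
  omega

/-! ### the construction -/

/-- the generalized Thue-Morse sequence starting with the first `m` digits of `a` -/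
def th (a : ℕ → Bool) (m : ℕ) (i : ℕ) : Bool :=
  if h : i < m ∨ m = 0 then a i else
    if i + 1 = 2 * (m * 2 ^ (Nat.log 2 (i / m))) then true
    else !(th a m (i - m * 2 ^ (Nat.log 2 (i / m))))
termination_by i
decreasing_by
  push Not at h
  have h1 : 0 < m * 2 ^ (Nat.log 2 (i / m)) := Nat.mul_pos (by omega) (pow_pos (by norm_num) _)
  omega

lemma th_lt {a : ℕ → Bool} {m i : ℕ} (h : i < m) : th a m i = a i := by
  rw [th, dif_pos (Or.inl h)]

lemma log_level {m k i : ℕ} (hm : 1 ≤ m) (hi : i < m * 2 ^ k) :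
    Nat.log 2 ((m * 2 ^ k + i) / m) = k := by
  rw [Nat.mul_add_div hm]
  have h1 : i / m < 2 ^ k := by
    rw [Nat.div_lt_iff_lt_mul hm, mul_comm]; exact hi
  rw [Nat.log_eq_iff (Or.inr ⟨by norm_num, by positivity⟩)]
  constructor
  · exact Nat.le_add_right _ _
  · rw [pow_succ, mul_two]; exact Nat.add_lt_add_left h1 _

lemma th_ge {a : ℕ → Bool} {m k i : ℕ} (hm : 1 ≤ m) (hi : i < m * 2 ^ k) :
    th a m (m * 2 ^ k + i) = if i + 1 = m * 2 ^ k then true else !(th a m i) := by
  have h0 : m ≤ m * 2 ^ k := Nat.le_mul_of_pos_right _ (pow_pos (by norm_num) _)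
  rw [th, dif_neg (by push Not; constructor <;> omega), log_level hm hi]
  by_cases h : i + 1 = m * 2 ^ k
  · rw [if_pos (by omega), if_pos h]
  · rw [if_neg (by omega), if_neg h, Nat.add_sub_cancel_left]

lemma th_GT {a : ℕ → Bool} {m : ℕ} (hm : Gd a m) : GT (th a m) m := by
  have hm1 := hm.1
  have hlast : ∀ k, th a m (m * 2 ^ k - 1) = true := by
    intro k
    rcases k with _ | k
    · rw [pow_zero, mul_one, th_lt (by omega)]; exact hm.2.1
    · have h1 : 1 ≤ m * 2 ^ k := Nat.mul_pos hm1 (pow_pos (by norm_num) _)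
      have h2 : m * 2 ^ (k + 1) - 1 = m * 2 ^ k + (m * 2 ^ k - 1) := by
        have : m * 2 ^ (k + 1) = m * 2 ^ k + m * 2 ^ k := by ring
        omega
      rw [h2, th_ge hm1 (by omega), if_pos (by omega)]
  intro k
  refine ⟨hlast k, ?_, ?_⟩
  · rw [show 2 * (m * 2 ^ k) = m * 2 ^ (k + 1) by ring]
    exact hlast (k + 1)
  · intro i hi
    rw [th_ge hm1 (by omega), if_neg (by omega)]

lemma th_LW {a : ℕ → Bool} {m : ℕ} (ha : LexB a a) : LW (th a m) m := by
  intro n k hnk hA hg
  have hgi : ∀ i, i ≤ k → g (th a m) n i = g a n i := by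
    intro i hi
    unfold g
    rw [th_lt (by omega), th_lt (by omega)]
  rw [th_lt (by omega)]
  refine ha n k (fun i hi => ?_) ?_
  · rw [← hgi i hi.le, hA i hi, th_lt (by omega)]
  · rw [← hgi k le_rfl]; exact hg

lemma th_Gd {a : ℕ → Bool} {m : ℕ} (hm : Gd a m) : Gd (th a m) m := by
  refine ⟨hm.1, by rw [th_lt (by have := hm.1; omega)]; exact hm.2.1, fun n hn hnt => ?_⟩
  rw [th_lt (by omega)] at hnt
  obtain ⟨i, hi, hi2⟩ := hm.2.2 n hn hnt
  exact ⟨i, hi, by rw [th_lt hi, th_lt (by omega)]; exact hi2⟩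

end Q264.Uni
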