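import Pool.Agent.Q264.Uni6

/-!
Bases isolated from the left in the set of univoque bases of `1`.
-/

set_option autoImplicit false

namespace Q264.Uni

open Filter Topology

lemma exists_level {m j : ℕ} (hm : 1 ≤ m) (hj : m ≤ j) :
    ∃ k i, j = m * 2 ^ k + i ∧ i < m * 2 ^ k := by
  refine ⟨Nat.log 2 (j / m), j - m * 2 ^ (Nat.log 2 (j / m)), ?_, ?_⟩
  · have h1 : 2 ^ (Nat.log 2 (j / m)) ≤ j / m :=
      Nat.pow_log_le_self 2 (by
        have := Nat.div_pos hj hm
        omega)
    have h2 : m * 2 ^ (Nat.log 2 (j / m)) ≤ j :=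
      le_trans (Nat.mul_le_mul_left m h1) (Nat.mul_div_le j m)
    omega
  · have h1 : j / m < 2 ^ (Nat.log 2 (j / m) + 1) := Nat.lt_pow_succ_log_self (by norm_num) _
    have h2 : j < m * 2 ^ (Nat.log 2 (j / m) + 1) := by
      rw [Nat.div_lt_iff_lt_mul hm, mul_comm] at h1; exact h1
    rw [pow_succ] at h2
    have h3 : m * (2 ^ (Nat.log 2 (j / m)) * 2) =
      m * 2 ^ (Nat.log 2 (j / m)) + m * 2 ^ (Nat.log 2 (j / m)) := by ring
    rw [h3] at h2
    have h4 : 0 < m * 2 ^ (Nat.log 2 (j / m)) := Nat.mul_pos hm (pow_pos (by norm_num) _)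
    omega

/-- an expansion of `1` is at least the Thue-Morse sequence of each of its good prefixes -/
lemma th_le {q : ℝ} {a : ℕ → Bool} {m : ℕ} (ha : Adm q a) (h1 : ev q a = 1) (hL : LexB a a)
    (hm : Gd a m) (hne : th a m ≠ a) : SL (th a m) a := by
  obtain ⟨j, hj, hj2⟩ := first_diff hne
  cases haj : a j
  swap
  · refine ⟨j, hj, ?_, haj⟩
    rw [haj] at hj2
    simpa using hj2
  exfalso
  have htj : th a m j = true := by
    rw [haj] at hj2; simpa using hj2
  have hmj : m ≤ j := by
    by_contra h
    rw [th_lt (by omega), haj] at htj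
    exact Bool.noConfusion htj
  obtain ⟨k, i, hji, hi⟩ := exists_level hm.1 hmj
  set M := m * 2 ^ k with hM
  have hM1 : 1 ≤ M := Nat.mul_pos hm.1 (pow_pos (by norm_num) _)
  have hD := th_GT hm k
  rw [← hM] at hD
  have haM : a (M - 1) = true := by rw [← hj (M - 1) (by omega)]; exact hD.1
  rcases Nat.lt_or_ge i (M - 1) with h2 | h2
  · have hti : th a m i = false := by
      have := hD.2.2 i h2
      rw [← hji, htj] at this
      revert this
      cases th a m i <;> decide
    have hai : a i = false := by rw [← hj i (by omega)]; exact hti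
    have hA : Ag i (g a (M - 1)) a := by
      intro i' hi'
      unfold g
      rw [haM, show M - 1 + 1 + i' = M + i' by omega, ← hj (M + i') (by omega),
        hD.2.2 i' (by omega), hj i' (by omega)]
      simp
    have hg : g a (M - 1) i = true := by
      unfold g
      rw [haM, show M - 1 + 1 + i = j by omega, haj]; rfl
    have := hL _ _ hA hg
    rw [hai] at this
    exact Bool.noConfusion this
  · have hi' : i = M - 1 := by omega
    -- then the tail is the reflection of `a`
    have hall : ∀ i, a (M + i) = !(a i) := by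
      by_contra hcon
      push Not at hcon
      classical
      have hspec := Nat.find_spec hcon
      have hmin := fun {i'} (h : i' < Nat.find hcon) => Nat.find_min hcon h
      set u := Nat.find hcon with hu
      have hpre : ∀ i', i' < u → a (M + i') = !(a i') := by
        intro i' h'
        have := hmin h'
        push Not at this
        exact this
      have huM : M ≤ u := by
        by_contra h3
        apply hspec
        rcases Nat.lt_or_ge u (M - 1) with h4 | h4
        · rw [← hj (M + u) (by omega), hD.2.2 u h4, hj u (by omega)]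
        · rw [show u = M - 1 by omega, show M + (M - 1) = j by omega, haj, haM]; rfl
      have hA : Ag u (g a (M - 1)) a := by
        intro i' h'
        unfold g
        rw [haM, show M - 1 + 1 + i' = M + i' by omega, hpre i' h']
        simp
      have hau : a u = true := by
        by_contra h3
        have h3' : a u = false := by simpa using h3
        have hg : g a (M - 1) u = true := by
          unfold g
          rw [haM, show M - 1 + 1 + u = M + u by omega]
          rw [h3'] at hspec
          revert hspec
          cases a (M + u) <;> decide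
        exact h3 (hL _ _ hA hg)
      obtain ⟨u1, hu1⟩ : ∃ u1, u = M + u1 := ⟨u - M, by omega⟩
      have hau1 : a u1 = false := by
        have := hpre u1 (by omega)
        rw [← hu1, hau] at this
        revert this
        cases a u1 <;> decide
      have haMu : a (M + u) = true := by
        rw [hau] at hspec
        revert hspec
        cases a (M + u) <;> decide
      have ha2 : a (2 * M - 1) = false := by
        rw [show 2 * M - 1 = j by omega]; exact haj
      have hA2 : Ag u1 (g a (2 * M - 1)) a := by
        intro i' h'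
        unfold g
        have h5 := hpre (M + i') (by omega)
        have h6 := hpre i' (by omega)
        rw [h6] at h5
        rw [ha2, show 2 * M - 1 + 1 + i' = M + (M + i') by omega, h5]
        simp
      have hg2 : g a (2 * M - 1) u1 = true := by
        unfold g
        rw [ha2, show 2 * M - 1 + 1 + u1 = M + u by omega, haMu]; rfl
      have := hL _ _ hA2 hg2
      rw [hau1] at this
      exact Bool.noConfusion this
    have hg : g a (M - 1) = a := by
      funext i'
      unfold g
      rw [haM, show M - 1 + 1 + i' = M + i' by omega, hall i']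
      simp
    have := ha (M - 1)
    rw [hg, h1] at this
    exact lt_irrefl _ this

lemma lexB_trans {x θ a : ℕ → Bool} (h1 : LexB x θ) (h2 : SL θ a) : LexB x a := by
  intro n k hA hg
  by_contra hak
  have hak : a k = false := by simpa using hak
  obtain ⟨j, hj, hj1, hj2⟩ := h2
  rcases Nat.lt_trichotomy j k with h3 | h3 | h3
  · have h4 : Ag j (g x n) θ := fun i hi => by rw [hA i (by omega), hj i hi]
    have h5 := h1 n j h4 (by rw [hA j h3]; exact hj2)
    rw [hj1] at h5; exact Bool.noConfusion h5
  · rw [h3, hak] at hj2; exact Bool.noConfusion hj2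
  · have h4 : Ag k (g x n) θ := fun i hi => by rw [hA i hi, hj i (by omega)]
    have h5 := h1 n k h4 hg
    rw [hj k h3, hak] at h5; exact Bool.noConfusion h5

/-- a univoque base isolated from the left is of Thue-Morse type -/
lemma iso_GT {q r0 : ℝ} (hr1 : 1 ≤ r0) (hr : r0 < q) (hq2 : q < 2) {a : ℕ → Bool}
    (ha : Adm q a) (h1 : ev q a = 1) (hiso : ∀ s, r0 < s → s < q → s ∉ UU 1) :
    ∃ m, Gd a m ∧ GT a m ∧ LexB a a := by
  have hq : 1 < q := lt_of_le_of_lt hr1 hr
  have hw := wAdm_of_Adm ha
  have hL := lexB_of_wAdm hq hq2 hw hw h1.ge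
  have hI := inf1_of_wAdm hq hq2 hw (exists_true_of_pos (by rw [h1]; norm_num))
  have hG : ∀ M, ∃ m, M ≤ m ∧ Gd a m := by
    rcases good_or_anti hL hI with h | ⟨l, hl, hanti⟩
    · exact h
    · exfalso
      have hg : g a l = a := by
        funext i
        unfold g
        rw [hl, hanti i]; simp
      have := ha l
      rw [hg, h1] at this
      exact lt_irrefl _ this
  obtain ⟨r, hrr1, hrr2⟩ := exists_between hr
  have hr0 : 1 < r := lt_of_le_of_lt hr1 hrr1
  obtain ⟨i1, _, hi1⟩ := hI 0
  have hgap : 0 < ev r a - 1 := by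
    have := ev_strictAnti hr0 hrr2 hi1; linarith
  have hlim : Tendsto (fun n : ℕ => (r⁻¹) ^ n * (1 / (r - 1))) atTop (𝓝 (0 * (1 / (r - 1)))) :=
    (tendsto_pow_atTop_nhds_zero_of_lt_one (inv_pos1 hr0).le (inv_lt1 hr0)).mul_const _
  rw [zero_mul] at hlim
  obtain ⟨N, hN⟩ := eventually_atTop.1 (hlim.eventually (gt_mem_nhds hgap))
  obtain ⟨m, hm, hmG⟩ := hG N
  have hth : th a m = a := by
    by_contra hne
    have hSL := th_le ha h1 hL hmG hne
    have hT := th_GT hmG
    have hLB := GT_lexB hmG.1 (th_LW hL) (th_Gd hmG) hT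
    have hwth : wAdm q (th a m) := wAdm_of_lexB hq (lexB_trans hLB hSL) h1.le
    have hlt : ev q (th a m) < 1 := by
      obtain ⟨j, hj, hj1, hj2⟩ := hSL
      rw [← h1]
      exact lt_of_lex hq hq2 hj hj1 hj2 hwth hw
    have hgt : 1 < ev r (th a m) := by
      have h3 : Ag m (th a m) a := fun i hi => th_lt hi
      have h4 := ev_close hr0 h3
      have h5 := hN m hm
      rw [abs_le] at h4
      linarith [h4.1]
    obtain ⟨s, hs1, hs2, hs3⟩ := ev_ivt hr0 hrr2 hgt hlt
    refine hiso s (by linarith) hs2 ⟨by linarith, by linarith, th a m, ?_, hs3⟩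
    exact adm_of_lexB_ne (by linarith) hLB hs3.le
      (fun n => (GT_SL hmG.1 (th_LW hL) (th_Gd hmG) hT n).ne) (GT_inf1 hmG.1 hT)
  exact ⟨m, hmG, by rw [← hth]; exact (by rw [hth]; exact hth ▸ th_GT hmG), hL⟩

end Q264.Uni
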