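import Pool.Agent.Q264.Uni7

/-!
The sequences of the Cantor set inside a level set.
-/

set_option autoImplicit false

namespace Q264.Uni

open Filter Topology

/-- the tail sequence attached to `n` -/
def tl (a : ℕ → Bool) (m : ℕ) (n : ℕ → ℕ) (j : ℕ) : Bool :=
  if h : m = 0 ∨ j < m * 2 ^ (n 0) then !(a j) else
    if j < 2 * (m * 2 ^ (n 0)) then a (j - m * 2 ^ (n 0))
    else tl a m (fun i => n (i + 1)) (j - 2 * (m * 2 ^ (n 0)))
termination_by j
decreasing_by
  push Not at h
  have h1 : 0 < m * 2 ^ (n 0) := Nat.mul_pos (by omega) (pow_pos (by norm_num) _)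
  omega

variable {a : ℕ → Bool} {m : ℕ}

lemma tl_1 {n : ℕ → ℕ} {i : ℕ} (h : i < m * 2 ^ (n 0)) : tl a m n i = !(a i) := by
  rw [tl, dif_pos (Or.inr h)]

lemma tl_2 {n : ℕ → ℕ} {i : ℕ} (h : i < m * 2 ^ (n 0)) :
    tl a m n (m * 2 ^ (n 0) + i) = a i := by
  have hm : m ≠ 0 := by rintro rfl; simp at h
  rw [tl, dif_neg (by push Not; exact ⟨hm, by omega⟩), if_pos (by omega), Nat.add_sub_cancel_left]

lemma tl_3 (hm : 1 ≤ m) (n : ℕ → ℕ) (i : ℕ) :
    tl a m n (2 * (m * 2 ^ (n 0)) + i) = tl a m (fun i => n (i + 1)) i := by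
  rw [tl, dif_neg (by push Not; exact ⟨by omega, by omega⟩), if_neg (by omega),
    Nat.add_sub_cancel_left]

lemma level_pos (hm : 1 ≤ m) (k : ℕ) : 1 ≤ m * 2 ^ k := Nat.mul_pos hm (pow_pos (by norm_num) _)

lemma level_lt (_ : 1 ≤ m) {k l : ℕ} (h : k < l) : 2 * (m * 2 ^ k) ≤ m * 2 ^ l := by
  have h1 : 2 ^ (k + 1) ≤ 2 ^ l := Nat.pow_le_pow_right (by norm_num) h
  calc 2 * (m * 2 ^ k) = m * 2 ^ (k + 1) := by ring
    _ ≤ m * 2 ^ l := Nat.mul_le_mul_left m h1

lemma tl_ng_SL (hm : 1 ≤ m) (hT : GT a m) (n : ℕ → ℕ) : SL (ng (tl a m n)) a := by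
  have hD := hT (n 0)
  have hM := level_pos hm (n 0)
  set M := m * 2 ^ (n 0) with hMd
  have ht1 : ∀ i, i < M → tl a m n i = !(a i) := fun i hi => tl_1 hi
  have ht2 : ∀ i, i < M → tl a m n (M + i) = a i := fun i hi => tl_2 hi
  refine ⟨2 * M - 1, ?_, ?_, hD.2.1⟩
  · intro i hi
    unfold ng
    rcases Nat.lt_or_ge i M with h | h
    · rw [ht1 i h]; simp
    · obtain ⟨i', hi'⟩ : ∃ i', i = M + i' := ⟨i - M, by omega⟩
      rw [hi', ht2 i' (by omega), hD.2.2 i' (by omega)]
  · unfold ng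
    rw [show 2 * M - 1 = M + (M - 1) by omega, ht2 _ (by omega), hD.1]; rfl

lemma tl_SL (hm : 1 ≤ m) (hLB : LexB a a) (hG : Gd a m) (hT : GT a m) :
    ∀ (l : ℕ) (n : ℕ → ℕ), StrictMono n → SL (g (tl a m n) l) a := by
  intro l
  induction l using Nat.strong_induction_on with
  | _ l ih =>
    intro n hn
    have hD := hT (n 0)
    have hM := level_pos hm (n 0)
    have hGM := (GT_levels hm (LW_of_lexB hLB m) hG hT (n 0)).2
    have hM1 : 2 * (m * 2 ^ (n 0)) ≤ m * 2 ^ (n 1) := level_lt hm (hn (by norm_num))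
    have ht3 : ∀ i, tl a m n (2 * (m * 2 ^ (n 0)) + i) = tl a m (fun i => n (i + 1)) i :=
      fun i => tl_3 hm n i
    have ht1' : ∀ i, i < m * 2 ^ (n 1) → tl a m (fun i => n (i + 1)) i = !(a i) :=
      fun i hi => tl_1 (n := fun i => n (i + 1)) hi
    set M := m * 2 ^ (n 0) with hMd
    have ht1 : ∀ i, i < M → tl a m n i = !(a i) := fun i hi => tl_1 hi
    have ht2 : ∀ i, i < M → tl a m n (M + i) = a i := fun i hi => tl_2 hi
    rcases Nat.lt_or_ge l (2 * M) with h1 | h1
    swap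
    · obtain ⟨l', hl'⟩ : ∃ l', l = 2 * M + l' := ⟨l - 2 * M, by omega⟩
      have h2 : g (tl a m n) l = g (tl a m (fun i => n (i + 1))) l' := by
        rw [hl', ← g_sh]
        congr 1
        funext i
        exact ht3 i
      rw [h2]
      exact ih l' (by omega) _ (hn.comp (strictMono_nat_of_lt_succ fun i => Nat.lt_succ_self _))
    rcases Nat.lt_or_ge l (M - 1) with h2 | h2
    · obtain ⟨L, hL⟩ : ∃ L, M - 1 = l + L := ⟨M - 1 - l, by omega⟩
      refine sl_window (LW_of_lexB hLB M) hGM (by omega) hL ?_ ?_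
      · intro i hi
        unfold g
        rw [ht1 l (by omega), ht1 (l + 1 + i) (by omega)]
        cases a l <;> cases a (l + 1 + i) <;> rfl
      · intro hl i hi
        unfold g
        rw [ht1 l (by omega), hl, show l + 1 + (L + i) = M + i by omega, ht2 i (by omega)]
        cases a i <;> rfl
    rcases Nat.lt_or_ge l M with h3 | h3
    · have hl : l = M - 1 := by omega
      have htl : tl a m n l = false := by rw [ht1 l h3, hl, hD.1]; rfl
      have hgi : ∀ i, g (tl a m n) l i = tl a m n (M + i) := by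
        intro i
        unfold g
        rw [htl, show l + 1 + i = M + i by omega]
        simp
      refine ⟨2 * M - 1, ?_, ?_, hD.2.1⟩
      · intro i hi
        rw [hgi]
        rcases Nat.lt_or_ge i M with h4 | h4
        · exact ht2 i h4
        · obtain ⟨i', hi'⟩ : ∃ i', i = M + i' := ⟨i - M, by omega⟩
          rw [hi', show M + (M + i') = 2 * M + i' by omega, ht3, ht1' i' (by omega),
            hD.2.2 i' (by omega)]
      · rw [hgi, show M + (2 * M - 1) = 2 * M + (M - 1) by omega, ht3, ht1' _ (by omega), hD.1]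
        rfl
    obtain ⟨l', hl'⟩ : ∃ l', l = M + l' := ⟨l - M, by omega⟩
    rcases Nat.lt_or_ge l' (M - 1) with h4 | h4
    · obtain ⟨L, hL⟩ : ∃ L, M - 1 = l' + L := ⟨M - 1 - l', by omega⟩
      refine sl_window (LW_of_lexB hLB M) hGM (by omega) hL ?_ ?_
      · intro i hi
        unfold g
        rw [hl', ht2 l' (by omega), show M + l' + 1 + i = M + (l' + 1 + i) by omega,
          ht2 (l' + 1 + i) (by omega)]
      · intro hl i hi
        unfold g
        rw [hl', ht2 l' (by omega), hl, show M + l' + 1 + (L + i) = 2 * M + i by omega, ht3,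
          ht1' i (by omega)]
        cases a i <;> rfl
    · have hl2 : l' = M - 1 := by omega
      have htl : tl a m n l = true := by rw [hl', ht2 l' (by omega), hl2, hD.1]
      have : g (tl a m n) l = ng (tl a m (fun i => n (i + 1))) := by
        rw [g_true htl]
        congr 1
        funext i
        unfold sh
        rw [show l + 1 + i = 2 * M + i by omega]
        exact ht3 i
      rw [this]
      exact tl_ng_SL hm hT _

/-- offsets of the blocks -/
def off (m : ℕ) (n : ℕ → ℕ) (i : ℕ) : ℕ := ∑ j ∈ Finset.range i, 2 * (m * 2 ^ (n j))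

lemma off_succ (n : ℕ → ℕ) (i : ℕ) : off m n (i + 1) = off m n i + 2 * (m * 2 ^ (n i)) := by
  unfold off; rw [Finset.sum_range_succ]

lemma sh_tl (hm : 1 ≤ m) (n : ℕ → ℕ) (i : ℕ) :
    sh (off m n i) (tl a m n) = tl a m (fun j => n (i + j)) := by
  induction i with
  | zero =>
    rw [show off m n 0 = 0 from rfl, sh_zero]
    simp
  | succ i ih =>
    rw [off_succ, ← sh_sh, ih]
    funext j
    unfold sh
    have := tl_3 (a := a) hm (fun j => n (i + j)) j
    simp only [Nat.add_zero] at this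
    rw [this]
    congr 1
    funext l
    congr 1
    ring

lemma le_off (hm : 1 ≤ m) (n : ℕ → ℕ) (i : ℕ) : i ≤ off m n i := by
  induction i with
  | zero => exact Nat.zero_le _
  | succ i ih =>
    rw [off_succ]
    have := level_pos hm (n i)
    omega

lemma off_bound (hm : 1 ≤ m) {n : ℕ → ℕ} (hn : StrictMono n) (i : ℕ) :
    off m n (i + 1) + 2 * (m * 2 ^ (n 0)) ≤ 4 * (m * 2 ^ (n i)) := by
  induction i with
  | zero =>
    rw [off_succ]
    show 0 + 2 * (m * 2 ^ (n 0)) + 2 * (m * 2 ^ (n 0)) ≤ _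
    omega
  | succ i ih =>
    rw [off_succ]
    have h1 : n i < n (i + 1) := hn (Nat.lt_succ_self i)
    have := level_lt (m := m) hm h1
    omega

/-- position of the last digit of a block -/
lemma tl_block_end (hm : 1 ≤ m) (hT : GT a m) (n : ℕ → ℕ) (i : ℕ) :
    tl a m n (off m n (i + 1) - 1) = true := by
  have hM := level_pos hm (n i)
  have h1 : off m n (i + 1) - 1 = off m n i + (m * 2 ^ (n i) + (m * 2 ^ (n i) - 1)) := by
    rw [off_succ]; omega
  have h2 := congrFun (sh_tl (a := a) hm n i) (m * 2 ^ (n i) + (m * 2 ^ (n i) - 1))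
  unfold sh at h2
  rw [h1, h2]
  have h3 := tl_2 (a := a) (m := m) (n := fun j => n (i + j)) (i := m * 2 ^ (n i) - 1) (by
    simp only [Nat.add_zero]; omega)
  simp only [Nat.add_zero] at h3
  rw [h3]
  exact (hT (n i)).1

/-! ### auxiliary estimates -/

lemma ps_split (q : ℝ) (c : ℕ → Bool) (k l : ℕ) :
    ps q c (k + l) = ps q c k + (q⁻¹) ^ k * ps q (sh k c) l := by
  induction l with
  | zero => simp [ps]
  | succ l ih =>
    rw [← add_assoc, ps_succ, ih, ps_succ]
    unfold sh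
    ring

lemma ps_ng (q : ℝ) (c : ℕ → Bool) (k : ℕ) :
    ps q (ng c) k = ps q (fun _ => true) k - ps q c k := by
  unfold ps
  rw [← Finset.sum_sub_distrib]
  refine Finset.sum_congr rfl fun i _ => ?_
  unfold ng
  rw [bt_not, bt_true]; ring

lemma ps_ones {q : ℝ} (hq : 1 < q) (k : ℕ) :
    ps q (fun _ => true) k = (1 - (q⁻¹) ^ k) * (1 / (q - 1)) := by
  have h1 := ev_split hq (fun _ => true) k
  have h2 : sh k (fun _ : ℕ => true) = fun _ => true := rfl
  rw [h2, ev_ones hq] at h1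
  linarith

lemma ps_diff_le {q r : ℝ} (hq : 1 < q) (h : q < r) (c : ℕ → Bool) (k : ℕ) :
    ps q c k - ps r c k ≤ 1 / (q - 1) - 1 / (r - 1) := by
  have hr : 1 < r := by linarith
  have h1 : ps q c k - ps r c k ≤ ps q (fun _ => true) k - ps r (fun _ => true) k := by
    unfold ps
    rw [← Finset.sum_sub_distrib, ← Finset.sum_sub_distrib]
    refine Finset.sum_le_sum fun i _ => ?_
    rw [bt_true, ← mul_sub, ← mul_sub]
    refine mul_le_mul_of_nonneg_right (bt_le _) ?_
    have := pow_le_pow_left₀ (inv_pos1 hr).le (inv_lt_inv' hq h).le (i + 1)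
    linarith
  rw [ps_ones hq, ps_ones hr] at h1
  have h2 : (r⁻¹) ^ k ≤ (q⁻¹) ^ k := pow_le_pow_left₀ (inv_pos1 hr).le (inv_lt_inv' hq h).le _
  have h3 : 1 / (r - 1) ≤ 1 / (q - 1) := one_div_le_one_div_of_le (by linarith) (by linarith)
  have h4 : 0 < 1 / (r - 1) := by
    apply div_pos one_pos; linarith
  have h5 : 0 < (r⁻¹) ^ k := pow_pos (inv_pos1 hr) _
  have h6 : (r⁻¹) ^ k * (1 / (r - 1)) ≤ (q⁻¹) ^ k * (1 / (q - 1)) :=
    mul_le_mul h2 h3 h4.le (le_trans h5.le h2)
  linarith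

lemma ps_diff_ge {q r : ℝ} (hq : 1 < q) (h : q < r) {c : ℕ → Bool} {k : ℕ} (hk : 1 ≤ k)
    (hc : c 0 = true) : q⁻¹ - r⁻¹ ≤ ps q c k - ps r c k := by
  have hr : 1 < r := by linarith
  unfold ps
  rw [← Finset.sum_sub_distrib]
  have h1 : bt (c 0) * (q⁻¹) ^ (0 + 1) - bt (c 0) * (r⁻¹) ^ (0 + 1) ≤
      ∑ i ∈ Finset.range k, (bt (c i) * (q⁻¹) ^ (i + 1) - bt (c i) * (r⁻¹) ^ (i + 1)) := by
    refine Finset.single_le_sum (f := fun i => bt (c i) * (q⁻¹) ^ (i + 1) -
      bt (c i) * (r⁻¹) ^ (i + 1)) (fun i _ => ?_) (Finset.mem_range.2 hk)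
    rw [← mul_sub]
    refine mul_nonneg (bt_nonneg _) ?_
    have := pow_le_pow_left₀ (inv_pos1 hr).le (inv_lt_inv' hq h).le (i + 1)
    linarith
  rw [hc, bt_true] at h1
  simpa using h1

/-- doubling estimate -/
lemma ps_double {q : ℝ} (hq : 1 < q) {W : ℕ} (hW : 1 ≤ W) (hD : Db a W)
    (h : ps q a W + (q⁻¹) ^ W * (1 / (q - 1) - 1) < 1) : ps q a (2 * W) < 1 := by
  have h1 : ps q a (2 * W) = ps q a W + (q⁻¹) ^ W * ps q (sh W a) W := by
    rw [two_mul]; exact ps_split q a W W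
  have h2 : ps q (sh W a) W = ps q (ng a) W + (q⁻¹) ^ W := by
    obtain ⟨V, rfl⟩ : ∃ V, W = V + 1 := ⟨W - 1, by omega⟩
    rw [ps_succ, ps_succ]
    have h3 : ps q (sh (V + 1) a) V = ps q (ng a) V := by
      apply ps_congr
      intro i hi
      unfold sh ng
      exact hD.2.2 i (by omega)
    have h4 : sh (V + 1) a V = true := by
      unfold sh
      have := hD.2.1
      rw [show 2 * (V + 1) - 1 = V + 1 + V by omega] at this
      exact this
    have h5 : ng a V = false := by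
      unfold ng
      have := hD.1
      rw [Nat.add_sub_cancel] at this
      rw [this]; rfl
    rw [h3, h4, h5, bt_true, bt_false]
    ring
  rw [h1, h2, ps_ng, ps_ones hq]
  set p := (q⁻¹) ^ W with hp
  have hp0 : 0 < p := pow_pos (inv_pos1 hq) _
  have hp1 : p < 1 := pow_lt_one₀ (inv_pos1 hq).le (inv_lt1 hq) (by omega)
  set e := ps q a W with he
  set K := 1 / (q - 1) with hK
  have h6 : e + p * ((1 - p) * K - e + p) = 1 - (1 - p) * (1 - (e + p * (K - 1))) := by ring
  rw [h6]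
  have : 0 < (1 - p) * (1 - (e + p * (K - 1))) := mul_pos (by linarith) (by linarith)
  linarith

end Q264.Uni
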