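import Pool.Agent.Q264.Uni8

/-!
No smaller univoque bases for the points of the Cantor set.
-/

set_option autoImplicit false

namespace Q264.Uni

open Filter Topology

/-- the data of the construction -/
structure Dat (Q : ℝ) (a : ℕ → Bool) (m : ℕ) : Prop where
  Q1 : 1 < Q
  Q2 : Q < 2
  adm : Adm Q a
  val : ev Q a = 1
  lex : LexB a a
  good : Gd a m
  gt : GT a m

/-- the final inequality -/
lemma final_ineq {Q q : ℝ} (hQ : 1 < Q) (hQ2 : Q < 2) (hq : 1 < q) (hqQ : q < Q)
    (i6 : Q - 1 < 2 * (q - 1)) {K X E0 : ℕ} (hE : K + E0 ≤ X)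
    (h1 : (Q⁻¹) ^ K * (1 / (Q - 1) - 1) < 1 / (q - 1) - 1 / (Q - 1))
    (g8 : q⁻¹ - Q⁻¹ < (Q⁻¹) ^ X * (1 / (Q - 1)))
    (hsize : 8 * (Q⁻¹) ^ E0 / (Q - 1) ^ 3 ≤ 1 / (Q - 1) - 1) : False := by
  have hq1 : 0 < q - 1 := by linarith
  have hQ1 : 0 < Q - 1 := by linarith
  have hQ0 : 0 < Q := by linarith
  have hq0 : 0 < q := by linarith
  have hu : 0 < Q⁻¹ := inv_pos1 hQ
  have j1 : 1 / (q - 1) - 1 / (Q - 1) = (Q - q) / ((q - 1) * (Q - 1)) := by
    field_simp
    ring
  have j2 : q⁻¹ - Q⁻¹ = (Q - q) / (q * Q) := by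
    field_simp
  rw [j2, div_lt_iff₀ (by positivity)] at g8
  have hX : 0 < (Q⁻¹) ^ X := pow_pos hu _
  have hK : 0 < (Q⁻¹) ^ K := pow_pos hu _
  have j3 : Q - q < 4 * ((Q⁻¹) ^ X * (1 / (Q - 1))) := by
    have h3 : 0 < (Q⁻¹) ^ X * (1 / (Q - 1)) := by positivity
    have h4 : q * Q ≤ 4 := by nlinarith
    have h5 := mul_le_mul_of_nonneg_left h4 h3.le
    linarith
  have j5 : (Q - q) / ((q - 1) * (Q - 1)) < 8 * (Q⁻¹) ^ X / (Q - 1) ^ 3 := by
    rw [div_lt_div_iff₀ (by positivity) (by positivity)]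
    have h3 : Q - q < 4 * (Q⁻¹) ^ X / (Q - 1) := by
      calc Q - q < 4 * ((Q⁻¹) ^ X * (1 / (Q - 1))) := j3
        _ = _ := by ring
    rw [lt_div_iff₀ hQ1] at h3
    have h5 : (Q - q) * (Q - 1) * (Q - 1) ^ 2 < 4 * (Q⁻¹) ^ X * (Q - 1) ^ 2 :=
      mul_lt_mul_of_pos_right h3 (by positivity)
    have h6 : 4 * (Q⁻¹) ^ X * (Q - 1) ^ 2 < 4 * (Q⁻¹) ^ X * (2 * (q - 1) * (Q - 1)) := by
      refine mul_lt_mul_of_pos_left ?_ (by positivity)
      rw [pow_two]
      exact mul_lt_mul_of_pos_right i6 hQ1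
    calc (Q - q) * (Q - 1) ^ 3 = (Q - q) * (Q - 1) * (Q - 1) ^ 2 := by ring
      _ < _ := h5
      _ < _ := h6
      _ = _ := by ring
  obtain ⟨E, hE2⟩ : ∃ E, X = K + E := ⟨X - K, by omega⟩
  have j6 : (Q⁻¹) ^ X ≤ (Q⁻¹) ^ K * (Q⁻¹) ^ E0 := by
    rw [hE2, pow_add]
    exact mul_le_mul_of_nonneg_left
      (pow_le_pow_of_le_one hu.le (inv_lt1 hQ).le (by omega)) hK.le
  have j7 : 8 * (Q⁻¹) ^ X / (Q - 1) ^ 3 ≤ (Q⁻¹) ^ K * (8 * (Q⁻¹) ^ E0 / (Q - 1) ^ 3) := by
    rw [mul_div_assoc', div_le_div_iff_of_pos_right (by positivity)]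
    linarith
  have j8 := mul_le_mul_of_nonneg_left hsize hK.le
  rw [j1] at h1
  linarith

/-- a first difference below `c` inside a block gives a small base near `Q`, which is impossible -/
lemma excl {Q : ℝ} {a : ℕ → Bool} {m : ℕ} (D : Dat Q a m) {c : ℕ → Bool} {P : ℕ} {n : ℕ → ℕ}
    (hn : StrictMono n) (hP : 1 ≤ P) (hcP : c (P - 1) = true) (hsh : sh P c = tl a m n)
    (hc0 : c 0 = true) (hcA : Adm Q c) (hPn : P ≤ 2 * (m * 2 ^ (n 0)))
    (hsize : 8 * (Q⁻¹) ^ (2 * (m * 2 ^ (n 0)) - P) / (Q - 1) ^ 3 ≤ 1 / (Q - 1) - 1)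
    {q : ℝ} (hq : 1 < q) (hqQ : q < Q) {d : ℕ → Bool} (hd : Adm q d) (hev : ev q d = ev Q c)
    {k : ℕ} (hk : Ag k d c) (hck : c k = true) (hdk : d k = false) (hkP : P ≤ k) : False := by
  have hm := D.good.1
  have hQ := D.Q1
  -- the block which contains k
  have hex : ∃ i, k < P + off m n (i + 1) := ⟨k, by have := le_off hm n (k + 1); omega⟩
  classical
  have hi1 := Nat.find_spec hex
  have hmin := fun {i'} (h : i' < Nat.find hex) => Nat.find_min hex h
  set i := Nat.find hex with hi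
  have hi0 : P + off m n i ≤ k := by
    rcases Nat.eq_zero_or_pos i with h | h
    · rw [h]
      show P + 0 ≤ k
      omega
    · have := hmin (i' := i - 1) (by omega)
      rw [show i - 1 + 1 = i by omega] at this
      omega
  have hM := level_pos (m := m) hm (n i)
  have hoff := off_succ (m := m) n i
  have hD := D.gt (n i)
  have hbound := off_bound (m := m) hm hn i
  set M := m * 2 ^ (n i) with hMd
  obtain ⟨k', hk'⟩ : ∃ k', k = P + off m n i + k' := ⟨k - (P + off m n i), by omega⟩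
  -- h is the position before the block
  obtain ⟨h, hh⟩ : ∃ h, h + 1 = P + off m n i := ⟨P + off m n i - 1, by omega⟩
  have hch : c h = true := by
    rcases Nat.eq_zero_or_pos i with h0 | h0
    · rw [h0] at hh
      have : h = P - 1 := by
        have h00 : off m n 0 = 0 := rfl
        omega
      rw [this]; exact hcP
    · obtain ⟨i', hi'⟩ : ∃ i', i = i' + 1 := ⟨i - 1, by omega⟩
      have h2 := tl_block_end (a := a) hm D.gt n i'
      rw [← hi'] at h2
      have h3 := congrFun hsh (off m n i - 1)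
      unfold sh at h3
      rw [h2] at h3
      have h4 : 1 ≤ off m n i := by
        have := le_off (m := m) hm n i; omega
      rw [show P + (off m n i - 1) = h by omega] at h3
      exact h3
  have hdh : d h = true := by rw [hk h (by omega)]; exact hch
  have hcblock : ∀ j, c (h + 1 + j) = tl a m (fun l => n (i + l)) j := by
    intro j
    have h2 := congrFun hsh (off m n i + j)
    have h3 := congrFun (sh_tl (a := a) hm n i) j
    unfold sh at h2 h3
    rw [hh, add_assoc, h2, h3]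
  have hc1 : ∀ j, j < M → c (h + 1 + j) = !(a j) := fun j hj => by
    rw [hcblock]
    exact tl_1 (n := fun l => n (i + l)) hj
  have hc2 : ∀ j, j < M → c (h + 1 + (M + j)) = a j := fun j hj => by
    rw [hcblock]
    exact tl_2 (n := fun l => n (i + l)) hj
  -- agreement with `a`
  have hgd : ∀ j, j < k' → j < 2 * M - 1 → g d h j = a j := by
    intro j hj hj2
    unfold g
    rw [hdh, hk _ (by omega)]
    rcases Nat.lt_or_ge j M with h2 | h2
    · rw [hc1 j h2]; simp
    · obtain ⟨j', hj'⟩ : ∃ j', j = M + j' := ⟨j - M, by omega⟩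
      rw [hj', hc2 j' (by omega), hD.2.2 j' (by omega)]
      simp
  have hgk : g d h k' = true := by
    unfold g
    rw [hdh, show h + 1 + k' = k by omega, hdk]; rfl
  have hwa := wAdm_of_Adm D.adm
  rcases Nat.lt_or_ge k' (2 * M - 1) with h2 | h2
  · -- inside the block
    have hak : a k' = false := by
      have h3 : c (h + 1 + k') = true := by rw [show h + 1 + k' = k by omega]; exact hck
      rcases Nat.lt_or_ge k' M with h4 | h4
      · rw [hc1 k' h4] at h3
        revert h3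
        cases a k' <;> decide
      · obtain ⟨j', hj'⟩ : ∃ j', k' = M + j' := ⟨k' - M, by omega⟩
        rw [hj', hc2 j' (by omega)] at h3
        rw [hj', hD.2.2 j' (by omega), h3]; rfl
    have h3 := hd h
    have h4 := ps_le_ev hq (g d h) (k' + 1)
    have hA : Ag k' (g d h) a := fun j hj => hgd j hj (by omega)
    rw [ps_succ, hgk, bt_true, one_mul, ps_congr hA] at h4
    have h5 := ev_split hQ a (k' + 1)
    rw [ps_succ, hak, bt_false, zero_mul, add_zero, ev_sh_false hak, D.val] at h5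
    have h6 := D.adm k'
    have h7 := ps_anti hq hqQ.le a k'
    have h8 : (Q⁻¹) ^ (k' + 1) ≤ (q⁻¹) ^ (k' + 1) :=
      pow_le_pow_left₀ (inv_pos1 hQ).le (inv_lt_inv' hq hqQ).le _
    have h9 : 0 < (Q⁻¹) ^ (k' + 1) := pow_pos (inv_pos1 hQ) _
    nlinarith
  · -- the end of the block
    have hk2 : k' = 2 * M - 1 := by omega
    have hK : k + 1 = P + off m n (i + 1) := by omega
    -- upper bound for x from d
    have e1 := ev_split hq d (k + 1)
    rw [ps_succ, hdk, bt_false, zero_mul, add_zero, ev_sh_false hdk, ps_congr hk] at e1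
    have e2 := ps_succ q c k
    rw [hck, bt_true, one_mul] at e2
    have e3 := hd k
    have hpq : 0 < (q⁻¹) ^ (k + 1) := pow_pos (inv_pos1 hq) _
    have e4 : ev q d < ps q c (k + 1) := by
      have := mul_lt_mul_of_pos_left e3 hpq
      linarith
    -- lower bound for x from c
    have f1 := ev_split hQ c (k + 1)
    rw [ev_sh_true hQ hck] at f1
    have f2 := hcA k
    have hpQ : 0 < (Q⁻¹) ^ (k + 1) := pow_pos (inv_pos1 hQ) _
    have f3 : ps Q c (k + 1) + (Q⁻¹) ^ (k + 1) * (1 / (Q - 1) - 1) < ev Q c := by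
      rw [f1]
      have := mul_lt_mul_of_pos_left (show 1 / (Q - 1) - 1 < 1 / (Q - 1) - ev Q (g c k) by
        linarith) hpQ
      linarith
    have f4 := ps_diff_le hq hqQ c (k + 1)
    -- d contains the next block
    have hA : Ag (2 * M) (g d h) a := by
      intro j hj
      rcases Nat.lt_or_ge j (2 * M - 1) with h3 | h3
      · exact hgd j (by omega) h3
      · rw [show j = k' by omega, hgk, hk2]; exact hD.2.1.symm
    have g1 := hd h
    have g2 := ev_split hq (g d h) (2 * M)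
    rw [ps_congr hA, show 2 * M = k' + 1 by omega, sh_g_true hgk, ev_ng hq,
      show h + 1 + k' = k by omega, show k' + 1 = 2 * M by omega] at g2
    have hp2 : 0 < (q⁻¹) ^ (2 * M) := pow_pos (inv_pos1 hq) _
    have g3 : ps q a (2 * M) + (q⁻¹) ^ (2 * M) * (1 / (q - 1) - 1) < 1 := by
      have := mul_lt_mul_of_pos_left (show 1 / (q - 1) - 1 < 1 / (q - 1) - ev q (g d k) by
        linarith) hp2
      linarith
    have hD2 : Db a (2 * M) := by
      have := D.gt (n i + 1)
      rw [show m * 2 ^ (n i + 1) = 2 * M by rw [hMd]; ring] at this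
      exact this
    have g4 := ps_double hq (by omega) hD2 g3
    have ha0 : a 0 = true := by
      have h3 := hc1 0 hM
      have h4 := hgd 0 (by omega) (by omega)
      by_contra hcon
      have hcon : a 0 = false := by simpa using hcon
      have h5 := D.adm 0
      rw [g_false hcon] at h5
      have h6 := ev_split hQ a 1
      rw [D.val] at h6
      simp [ps, hcon, bt_false] at h6
      have h7 : Q⁻¹ < 1 := inv_lt1 hQ
      have h8 := inv_pos1 hQ
      simp at h5
      nlinarith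
    have g5 := ps_diff_ge (c := a) (k := 2 * (2 * M)) hq hqQ (by omega) ha0
    have g6 := ev_split hQ a (2 * (2 * M))
    rw [D.val] at g6
    have g7 := ev_le hQ (sh (2 * (2 * M)) a)
    have hpX : 0 < (Q⁻¹) ^ (2 * (2 * M)) := pow_pos (inv_pos1 hQ) _
    have g8 : q⁻¹ - Q⁻¹ < (Q⁻¹) ^ (2 * (2 * M)) * (1 / (Q - 1)) := by
      have := mul_le_mul_of_nonneg_left g7 hpX.le
      linarith
    -- lower bound for q
    have hd0 : d 0 = true := by rw [hk 0 (by omega)]; exact hc0
    have i1 := ev_split hq d 1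
    rw [ev_sh_true hq hd0] at i1
    simp [ps, hd0, bt_true] at i1
    have i2 := hd 0
    have i3 := ev_le hQ c
    have hqi : 0 < q⁻¹ := inv_pos1 hq
    have i4 : q⁻¹ * ((q - 1)⁻¹) < (Q - 1)⁻¹ := by
      rw [one_div] at i3
      have h3 : q⁻¹ * ((q - 1)⁻¹) = q⁻¹ * (1 + ((q - 1)⁻¹ - 1)) := by ring
      have h4 : q⁻¹ * ((q - 1)⁻¹ - 1) < q⁻¹ * ((q - 1)⁻¹ - ev q (g d 0)) :=
        mul_lt_mul_of_pos_left (by linarith) hqi
      rw [h3, mul_add]
      linarith
    have hq1 : 0 < q - 1 := by linarith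
    have hQ1 : 0 < Q - 1 := by linarith
    have i5 : Q - 1 < q * (q - 1) := by
      rw [← mul_inv] at i4
      exact (inv_lt_inv₀ (by positivity) hQ1).1 i4
    have i6 : Q - 1 < 2 * (q - 1) := by nlinarith [D.Q2]
    exact final_ineq hQ D.Q2 hq hqQ i6 (K := k + 1) (X := 2 * (2 * M))
      (E0 := 2 * (m * 2 ^ (n 0)) - P) (by omega) (by linarith) g8 hsize

end Q264.Uni
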