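import Mathlib

/-!
# The power sum of exponent `p - 2` for the Wolstenholme prime `p = 16843` vanishes modulo `p ^ 3`
-/

set_option autoImplicit false

namespace Q264.Wolst

/-- left-to-right binary powering -/
def pw (M a : ℕ) : List Bool → ℕ → ℕ
  | [], r => r
  | b :: bs, r => pw M a bs (if b then r * r % M * a % M else r * r % M)

/-- value of a list of bits, most significant first -/
def bv : List Bool → ℕ
  | [] => 0
  | b :: bs => (if b then 2 ^ bs.length else 0) + bv bs

theorem pw_spec (M a : ℕ) : ∀ bs r, pw M a bs r ≡ r ^ 2 ^ bs.length * a ^ bv bs [MOD M] := by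
  intro bs
  induction bs with
  | nil => intro r; simp [pw, bv]; rfl
  | cons b bs ih =>
    intro r
    rw [pw]
    refine (ih _).trans ?_
    rcases b with _ | _
    · simp only [Bool.false_eq_true, if_false, List.length_cons, bv, zero_add]
      have h1 : r * r % M ≡ r ^ 2 [MOD M] := by
        rw [pow_two]; exact Nat.mod_modEq _ _
      have h2 := (h1.pow (2 ^ bs.length)).mul_right (a ^ bv bs)
      rw [← pow_mul, ← pow_succ'] at h2
      exact h2
    · simp only [if_true, List.length_cons, bv]
      have h1 : r * r % M * a % M ≡ r ^ 2 * a [MOD M] := by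
        rw [pow_two]
        exact (Nat.mod_modEq _ _).trans ((Nat.mod_modEq _ _).mul_right a)
      have h2 := (h1.pow (2 ^ bs.length)).mul_right (a ^ bv bs)
      rw [mul_pow, ← pow_mul, ← pow_succ', mul_assoc, ← pow_add] at h2
      exact h2

/-- binary splitting sum of `f` over `[lo, lo + 2 ^ k)` -/
def sumR (f : ℕ → ℕ) : ℕ → ℕ → ℕ
  | 0, lo => f lo
  | k + 1, lo => sumR f k lo + sumR f k (lo + 2 ^ k)

theorem sumR_eq (f : ℕ → ℕ) : ∀ k lo, sumR f k lo = ∑ i ∈ Finset.Ico lo (lo + 2 ^ k), f i := by
  intro k
  induction k with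
  | zero => intro lo; simp [sumR]
  | succ k ih =>
    intro lo
    have hk : 0 < 2 ^ k := by positivity
    rw [sumR, ih, ih, Finset.sum_Ico_consecutive _ (by omega) (by omega), pow_succ, mul_two, add_assoc]

def bits : List Bool :=
  [false, false, false, false, false, true, true, true, false, false, true, false, false, true]

def term (a : ℕ) : ℕ := if Nat.ble a 16842 then pw (16843 ^ 3) a bits a else 0

theorem check : sumR term 15 1 % 16843 ^ 3 = 0 := by decide +kernel

theorem bv_bits : 2 ^ bits.length + bv bits = 16841 := by decide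

theorem power_sum : (16843 : ℕ) ^ 3 ∣ ∑ a ∈ Finset.Icc 1 16842, a ^ 16841 := by
  have h1 : ∑ a ∈ Finset.Icc 1 16842, a ^ 16841 ≡ sumR term 15 1 [MOD 16843 ^ 3] := by
    rw [sumR_eq]
    have h2 : ∑ i ∈ Finset.Ico 1 (1 + 2 ^ 15), term i = ∑ i ∈ Finset.Icc 1 16842, term i := by
      symm
      refine Finset.sum_subset ?_ ?_
      · intro i hi
        rw [Finset.mem_Icc] at hi
        rw [Finset.mem_Ico]
        norm_num
        omega
      · intro i _ hi
        rw [Finset.mem_Icc] at hi
        unfold term
        rw [if_neg]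
        intro h
        have := Nat.le_of_ble_eq_true h
        by_cases h0 : i = 0
        · subst h0; simp at *
        · exact hi ⟨by omega, this⟩
    rw [h2]
    refine Nat.ModEq.sum fun i hi => ?_
    rw [Finset.mem_Icc] at hi
    unfold term
    rw [if_pos (Nat.ble_eq.mpr hi.2)]
    have h3 := pw_spec (16843 ^ 3) i bits i
    rw [← pow_add, bv_bits] at h3
    exact h3.symm
  exact (Nat.modEq_zero_iff_dvd).1 (h1.trans check)

end Q264.Wolst
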